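import Mathlib

set_option autoImplicit false

namespace Pool.Agent.R38.BookProof

abbrev S0 (l v r : ℕ → ℝ) : Prop := v 0 < l 1 ∧ l 1 < r 0 ∧ r 0 < v 1
abbrev S1 (l v r : ℕ → ℝ) : Prop := v 0 < l 2 ∧ l 2 < r 0 ∧ r 0 < v 2
abbrev S2 (l v r : ℕ → ℝ) : Prop := v 0 < l 3 ∧ l 3 < r 0 ∧ r 0 < v 3
abbrev S3 (l v r : ℕ → ℝ) : Prop := v 0 < l 4 ∧ l 4 < r 0 ∧ r 0 < v 4
abbrev S4 (l v r : ℕ → ℝ) : Prop := v 1 < l 5 ∧ l 5 < r 1 ∧ r 1 < v 5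
abbrev S5 (l v r : ℕ → ℝ) : Prop := v 1 < l 6 ∧ l 6 < r 1 ∧ r 1 < v 6
abbrev S6 (l v r : ℕ → ℝ) : Prop := v 1 < l 7 ∧ l 7 < r 1 ∧ r 1 < v 7
abbrev S7 (l v r : ℕ → ℝ) : Prop := v 2 < l 5 ∧ l 5 < r 2 ∧ r 2 < v 5
abbrev S8 (l v r : ℕ → ℝ) : Prop := v 3 < l 6 ∧ l 6 < r 3 ∧ r 3 < v 6
abbrev S9 (l v r : ℕ → ℝ) : Prop := v 4 < l 7 ∧ l 7 < r 4 ∧ r 4 < v 7

/-- The facts about a representation used in the proof. -/
structure H (l v r : ℕ → ℝ) : Prop where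
  e0 : S0 l v r ∨ (v 1 < l 0 ∧ l 0 < r 1 ∧ r 1 < v 0)
  e1 : S1 l v r ∨ (v 2 < l 0 ∧ l 0 < r 2 ∧ r 2 < v 0)
  e2 : S2 l v r ∨ (v 3 < l 0 ∧ l 0 < r 3 ∧ r 3 < v 0)
  e3 : S3 l v r ∨ (v 4 < l 0 ∧ l 0 < r 4 ∧ r 4 < v 0)
  e4 : S4 l v r ∨ (v 5 < l 1 ∧ l 1 < r 5 ∧ r 5 < v 1)
  e5 : S5 l v r ∨ (v 6 < l 1 ∧ l 1 < r 6 ∧ r 6 < v 1)
  e6 : S6 l v r ∨ (v 7 < l 1 ∧ l 1 < r 7 ∧ r 7 < v 1)
  e7 : S7 l v r ∨ (v 5 < l 2 ∧ l 2 < r 5 ∧ r 5 < v 2)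
  e8 : S8 l v r ∨ (v 6 < l 3 ∧ l 3 < r 6 ∧ r 6 < v 3)
  e9 : S9 l v r ∨ (v 7 < l 4 ∧ l 4 < r 7 ∧ r 7 < v 4)
  n2_6 : v 2 < l 6 → l 6 < r 2 → r 2 < v 6 → False
  n2_7 : v 2 < l 7 → l 7 < r 2 → r 2 < v 7 → False
  n3_5 : v 3 < l 5 → l 5 < r 3 → r 3 < v 5 → False
  n3_7 : v 3 < l 7 → l 7 < r 3 → r 3 < v 7 → False
  n4_5 : v 4 < l 5 → l 5 < r 4 → r 4 < v 5 → False
  n4_6 : v 4 < l 6 → l 6 < r 4 → r 4 < v 6 → False
  n5_3 : v 5 < l 3 → l 3 < r 5 → r 5 < v 3 → False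
  n5_4 : v 5 < l 4 → l 4 < r 5 → r 5 < v 4 → False
  n6_2 : v 6 < l 2 → l 2 < r 6 → r 6 < v 2 → False
  n6_4 : v 6 < l 4 → l 4 < r 6 → r 6 < v 4 → False
  n7_2 : v 7 < l 2 → l 2 < r 7 → r 7 < v 2 → False
  n7_3 : v 7 < l 3 → l 3 < r 7 → r 7 < v 3 → False
  plr0_1 : l 0 < l 1 → r 0 < r 1
  plr1_0 : l 1 < l 0 → r 1 < r 0
  plr1_2 : l 1 < l 2 → r 1 < r 2
  plr1_4 : l 1 < l 4 → r 1 < r 4
  plr1_7 : l 1 < l 7 → r 1 < r 7
  plr2_1 : l 2 < l 1 → r 2 < r 1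
  plr2_4 : l 2 < l 4 → r 2 < r 4
  plr3_1 : l 3 < l 1 → r 3 < r 1
  plr4_1 : l 4 < l 1 → r 4 < r 1
  plr4_3 : l 4 < l 3 → r 4 < r 3
  plr5_0 : l 5 < l 0 → r 5 < r 0
  plr5_6 : l 5 < l 6 → r 5 < r 6
  plr6_0 : l 6 < l 0 → r 6 < r 0
  plr6_5 : l 6 < l 5 → r 6 < r 5
  plr6_7 : l 6 < l 7 → r 6 < r 7
  plr7_0 : l 7 < l 0 → r 7 < r 0
  plr7_1 : l 7 < l 1 → r 7 < r 1
  plr7_2 : l 7 < l 2 → r 7 < r 2
  plr7_5 : l 7 < l 5 → r 7 < r 5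
  plv0_1 : l 0 < l 1 → v 0 < v 1
  plv0_2 : l 0 < l 2 → v 0 < v 2
  plv1_0 : l 1 < l 0 → v 1 < v 0
  plv1_4 : l 1 < l 4 → v 1 < v 4
  plv2_1 : l 2 < l 1 → v 2 < v 1
  plv2_3 : l 2 < l 3 → v 2 < v 3
  plv2_7 : l 2 < l 7 → v 2 < v 7
  plv3_1 : l 3 < l 1 → v 3 < v 1
  plv4_1 : l 4 < l 1 → v 4 < v 1
  plv4_2 : l 4 < l 2 → v 4 < v 2
  plv4_3 : l 4 < l 3 → v 4 < v 3
  plv4_5 : l 4 < l 5 → v 4 < v 5
  plv5_0 : l 5 < l 0 → v 5 < v 0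
  plv5_3 : l 5 < l 3 → v 5 < v 3
  plv5_6 : l 5 < l 6 → v 5 < v 6
  plv6_0 : l 6 < l 0 → v 6 < v 0
  plv6_4 : l 6 < l 4 → v 6 < v 4
  plv6_5 : l 6 < l 5 → v 6 < v 5
  plv6_7 : l 6 < l 7 → v 6 < v 7
  plv7_0 : l 7 < l 0 → v 7 < v 0
  plv7_1 : l 7 < l 1 → v 7 < v 1
  plv7_5 : l 7 < l 5 → v 7 < v 5
  prl0_1 : r 0 < r 1 → l 0 < l 1
  prl1_4 : r 1 < r 4 → l 1 < l 4
  prl1_6 : r 1 < r 6 → l 1 < l 6
  prl2_1 : r 2 < r 1 → l 2 < l 1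
  prl2_3 : r 2 < r 3 → l 2 < l 3
  prl2_4 : r 2 < r 4 → l 2 < l 4
  prl2_7 : r 2 < r 7 → l 2 < l 7
  prl3_1 : r 3 < r 1 → l 3 < l 1
  prl3_4 : r 3 < r 4 → l 3 < l 4
  prl3_6 : r 3 < r 6 → l 3 < l 6
  prl4_1 : r 4 < r 1 → l 4 < l 1
  prl4_2 : r 4 < r 2 → l 4 < l 2
  prl4_5 : r 4 < r 5 → l 4 < l 5
  prl5_0 : r 5 < r 0 → l 5 < l 0
  prl5_6 : r 5 < r 6 → l 5 < l 6
  prl5_7 : r 5 < r 7 → l 5 < l 7
  prl6_0 : r 6 < r 0 → l 6 < l 0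
  prl6_5 : r 6 < r 5 → l 6 < l 5
  prl6_7 : r 6 < r 7 → l 6 < l 7
  prl7_0 : r 7 < r 0 → l 7 < l 0
  prl7_1 : r 7 < r 1 → l 7 < l 1
  prl7_5 : r 7 < r 5 → l 7 < l 5
  prl7_6 : r 7 < r 6 → l 7 < l 6
  pvl0_1 : v 0 < v 1 → l 0 < l 1
  pvl0_7 : v 0 < v 7 → l 0 < l 7
  pvl1_0 : v 1 < v 0 → l 1 < l 0
  pvl1_2 : v 1 < v 2 → l 1 < l 2
  pvl1_4 : v 1 < v 4 → l 1 < l 4
  pvl1_7 : v 1 < v 7 → l 1 < l 7
  pvl2_1 : v 2 < v 1 → l 2 < l 1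
  pvl2_3 : v 2 < v 3 → l 2 < l 3
  pvl2_4 : v 2 < v 4 → l 2 < l 4
  pvl2_6 : v 2 < v 6 → l 2 < l 6
  pvl3_1 : v 3 < v 1 → l 3 < l 1
  pvl4_1 : v 4 < v 1 → l 4 < l 1
  pvl4_3 : v 4 < v 3 → l 4 < l 3
  pvl5_0 : v 5 < v 0 → l 5 < l 0
  pvl5_6 : v 5 < v 6 → l 5 < l 6
  pvl6_0 : v 6 < v 0 → l 6 < l 0
  pvl6_4 : v 6 < v 4 → l 6 < l 4
  pvl6_5 : v 6 < v 5 → l 6 < l 5
  pvl6_7 : v 6 < v 7 → l 6 < l 7
  pvl7_0 : v 7 < v 0 → l 7 < l 0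
  pvl7_1 : v 7 < v 1 → l 7 < l 1
  pvl7_2 : v 7 < v 2 → l 7 < l 2
  pvl7_5 : v 7 < v 5 → l 7 < l 5
  u0_0 : l 0 < v 0
  u0_1 : v 0 < r 0
  u1_0 : l 1 < v 1
  u1_1 : v 1 < r 1
  u2_0 : l 2 < v 2
  u2_1 : v 2 < r 2
  u3_0 : l 3 < v 3
  u3_1 : v 3 < r 3
  u4_0 : l 4 < v 4
  u4_1 : v 4 < r 4
  u5_0 : l 5 < v 5
  u5_1 : v 5 < r 5
  u6_0 : l 6 < v 6
  u6_1 : v 6 < r 6
  u7_0 : l 7 < v 7
  u7_1 : v 7 < r 7

theorem L0 {l v r : ℕ → ℝ} (h : H l v r) (a0 : l 4 ≤ v 6) (a1 : r 6 ≤ l 4) : False :=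
  have c0 : v 6 < r 6 := h.u6_1
  not_lt.mpr (le_trans a1 a0) c0

theorem L1 {l v r : ℕ → ℝ} (h : H l v r) (a0 : l 6 ≤ v 6) (a1 : r 6 ≤ l 6) : False :=
  have c0 : v 6 < r 6 := h.u6_1
  not_lt.mpr (le_trans a1 a0) c0

theorem L2 {l v r : ℕ → ℝ} (h : H l v r) (a0 : v 2 < l 2) : False :=
  have c0 : l 2 < v 2 := h.u2_0
  lt_asymm c0 a0

theorem L3 {l v r : ℕ → ℝ} (h : H l v r) (a0 : r 6 < r 1) (a1 : r 1 ≤ v 6) : False :=
  have c0 : v 6 < r 6 := h.u6_1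
  not_lt.mpr a1 (lt_trans c0 a0)

theorem L4 {l v r : ℕ → ℝ} (h : H l v r) (a0 : v 3 < l 3) : False :=
  have c0 : l 3 < v 3 := h.u3_0
  lt_asymm c0 a0

theorem L5 {l v r : ℕ → ℝ} (h : H l v r) (a0 : v 2 < r 6) (a1 : r 6 ≤ l 2) : False :=
  have c0 : l 2 < v 2 := h.u2_0
  not_lt.mpr a1 (lt_trans c0 a0)

theorem L6 {l v r : ℕ → ℝ} (h : H l v r) (a0 : v 2 < r 1) (a1 : r 1 < l 2) : False :=
  have c0 : l 2 ≤ v 2 := not_lt.mp fun z => L2 h z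
  not_lt.mpr c0 (lt_trans a0 a1)

theorem L7 {l v r : ℕ → ℝ} (h : H l v r) (a0 : r 6 < l 6) (a1 : l 6 ≤ v 6) : False :=
  have c0 : v 6 < r 6 := h.u6_1
  not_lt.mpr a1 (lt_trans c0 a0)

theorem L8 {l v r : ℕ → ℝ} (h : H l v r) (a0 : v 3 < r 3) (a1 : r 3 < l 3) : False :=
  have c0 : l 3 ≤ v 3 := not_lt.mp fun z => L4 h z
  not_lt.mpr c0 (lt_trans a0 a1)

theorem L9 {l v r : ℕ → ℝ} (h : H l v r) (a0 : r 4 < v 4) : False :=
  have c0 : v 4 < r 4 := h.u4_1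
  lt_asymm c0 a0

theorem L10 {l v r : ℕ → ℝ} (h : H l v r) (a0 : r 4 < l 4) : False :=
  have c0 : v 4 ≤ r 4 := not_lt.mp fun z => L9 h z
  have c1 : l 4 < v 4 := h.u4_0
  not_lt.mpr c0 (lt_trans a0 c1)

theorem L11 {l v r : ℕ → ℝ} (h : H l v r) (a0 : r 2 < l 2) : False :=
  have c0 : v 2 < r 2 := h.u2_1
  have c1 : l 2 ≤ v 2 := not_lt.mp fun z => L2 h z
  not_lt.mpr c1 (lt_trans c0 a0)

theorem L12 {l v r : ℕ → ℝ} (h : H l v r) (a0 : r 2 < v 2) : False :=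
  have c0 : v 2 < r 2 := h.u2_1
  lt_asymm c0 a0

theorem L13 {l v r : ℕ → ℝ} (h : H l v r) (a0 : r 2 ≤ l 2) : False :=
  have c0 : v 2 ≤ r 2 := not_lt.mp fun z => L12 h z
  have c1 : l 2 < v 2 := h.u2_0
  not_lt.mpr (le_trans c0 a0) c1

theorem L14 {l v r : ℕ → ℝ} (h : H l v r) (a0 : v 2 < l 0) (a1 : l 0 < l 2) : False :=
  have c0 : l 2 ≤ v 2 := not_lt.mp fun z => L2 h z
  not_lt.mpr c0 (lt_trans a0 a1)

theorem L15 {l v r : ℕ → ℝ} (h : H l v r) (a0 : v 0 < l 2) (a1 : v 2 ≤ v 0) : False :=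
  have c0 : l 2 ≤ v 2 := not_lt.mp fun z => L2 h z
  not_lt.mpr (le_trans c0 a1) a0

theorem L16 {l v r : ℕ → ℝ} (h : H l v r) (a0 : r 5 < v 5) : False :=
  have c0 : v 5 < r 5 := h.u5_1
  lt_asymm c0 a0

theorem L17 {l v r : ℕ → ℝ} (h : H l v r) (a0 : r 5 < r 1) (a1 : r 1 < v 5) : False :=
  have c0 : v 5 ≤ r 5 := not_lt.mp fun z => L16 h z
  not_lt.mpr c0 (lt_trans a0 a1)

theorem L18 {l v r : ℕ → ℝ} (h : H l v r) (a0 : r 5 < l 5) (a1 : l 5 < v 5) : False :=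
  have c0 : v 5 ≤ r 5 := not_lt.mp fun z => L16 h z
  not_lt.mpr c0 (lt_trans a0 a1)

theorem L19 {l v r : ℕ → ℝ} (h : H l v r) (a0 : r 0 < l 0) (a1 : l 0 ≤ v 0) : False :=
  have c0 : v 0 < r 0 := h.u0_1
  not_lt.mpr a1 (lt_trans c0 a0)

theorem L20 {l v r : ℕ → ℝ} (h : H l v r) (a0 : v 6 < l 6) : False :=
  have c0 : l 6 < v 6 := h.u6_0
  lt_asymm c0 a0

theorem L21 {l v r : ℕ → ℝ} (h : H l v r) (a0 : r 6 ≤ l 6) : False :=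
  have c0 : l 6 ≤ v 6 := not_lt.mp fun z => L20 h z
  L1 h c0 a0

theorem L22 {l v r : ℕ → ℝ} (h : H l v r) (a0 : r 6 < l 6) : False :=
  have c0 : l 6 ≤ v 6 := not_lt.mp fun z => L20 h z
  L7 h a0 c0

theorem L23 {l v r : ℕ → ℝ} (h : H l v r) (a0 : r 7 < v 7) : False :=
  have c0 : v 7 < r 7 := h.u7_1
  lt_asymm c0 a0

theorem L24 {l v r : ℕ → ℝ} (h : H l v r) (a0 : v 4 < l 4) : False :=
  have c0 : l 4 < v 4 := h.u4_0
  lt_asymm c0 a0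

theorem L25 {l v r : ℕ → ℝ} (h : H l v r) (a0 : r 6 < v 6) : False :=
  have c0 : v 6 < r 6 := h.u6_1
  lt_asymm c0 a0

theorem L26 {l v r : ℕ → ℝ} (h : H l v r) (a0 : r 6 < r 0) (a1 : r 0 < l 6) : False :=
  have c0 : l 6 ≤ r 6 := not_lt.mp fun z => L22 h z
  not_lt.mpr c0 (lt_trans a0 a1)

theorem L27 {l v r : ℕ → ℝ} (h : H l v r) (a0 : r 5 ≤ l 5) : False :=
  have c0 : l 5 < v 5 := h.u5_0
  have c1 : v 5 < r 5 := h.u5_1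
  not_lt.mpr a0 (lt_trans c0 c1)

theorem L28 {l v r : ℕ → ℝ} (h : H l v r) (a0 : v 5 < l 5) : False :=
  have c0 : l 5 < v 5 := h.u5_0
  lt_asymm c0 a0

theorem L29 {l v r : ℕ → ℝ} (h : H l v r) (a0 : r 5 < l 5) : False :=
  have c0 : l 5 < v 5 := h.u5_0
  L18 h a0 c0

theorem L30 {l v r : ℕ → ℝ} (h : H l v r) (a0 : v 4 < l 0) (a1 : l 0 < l 4) : False :=
  have c0 : l 4 ≤ v 4 := not_lt.mp fun z => L24 h z
  not_lt.mpr c0 (lt_trans a0 a1)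

theorem L31 {l v r : ℕ → ℝ} (h : H l v r) (a0 : v 6 < l 0) (a1 : l 0 ≤ l 6) : False :=
  have c0 : l 6 < v 6 := h.u6_0
  not_lt.mpr a1 (lt_trans c0 a0)

theorem L32 {l v r : ℕ → ℝ} (h : H l v r) (a0 : v 0 < l 0) : False :=
  have c0 : l 0 < v 0 := h.u0_0
  lt_asymm c0 a0

theorem L33 {l v r : ℕ → ℝ} (h : H l v r) (a0 : r 0 < l 0) : False :=
  have c0 : l 0 ≤ v 0 := not_lt.mp fun z => L32 h z
  L19 h a0 c0

theorem L34 {l v r : ℕ → ℝ} (h : H l v r) (a0 : r 3 < l 3) : False :=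
  have c0 : v 3 < r 3 := h.u3_1
  L8 h c0 a0

theorem L35 {l v r : ℕ → ℝ} (h : H l v r) (a0 : r 5 < l 0) (a1 : r 0 ≤ r 5) : False :=
  have c0 : l 0 ≤ r 0 := not_lt.mp fun z => L33 h z
  not_lt.mpr (le_trans c0 a1) a0

theorem L36 {l v r : ℕ → ℝ} (h : H l v r) (a0 : r 1 < v 1) : False :=
  have c0 : v 1 < r 1 := h.u1_1
  lt_asymm c0 a0

theorem L37 {l v r : ℕ → ℝ} (h : H l v r) (a0 : r 2 < r 0) (a1 : r 0 < v 2) : False :=
  have c0 : v 2 ≤ r 2 := not_lt.mp fun z => L12 h z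
  not_lt.mpr c0 (lt_trans a0 a1)

theorem L38 {l v r : ℕ → ℝ} (h : H l v r) (a0 : r 4 < v 0) (a1 : v 0 < v 4) : False :=
  have c0 : v 4 ≤ r 4 := not_lt.mp fun z => L9 h z
  not_lt.mpr c0 (lt_trans a0 a1)

theorem L39 {l v r : ℕ → ℝ} (h : H l v r) (a0 : r 0 < v 0) : False :=
  have c0 : v 0 < r 0 := h.u0_1
  lt_asymm c0 a0

theorem L40 {l v r : ℕ → ℝ} (h : H l v r) (a0 : r 6 < l 0) (a1 : l 0 < v 6) : False :=
  have c0 : v 6 ≤ r 6 := not_lt.mp fun z => L25 h z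
  not_lt.mpr c0 (lt_trans a0 a1)

theorem L41 {l v r : ℕ → ℝ} (h : H l v r) (a0 : r 1 ≤ l 1) : False :=
  have c0 : l 1 < v 1 := h.u1_0
  have c1 : v 1 < r 1 := h.u1_1
  not_lt.mpr a0 (lt_trans c0 c1)

theorem L42 {l v r : ℕ → ℝ} (h : H l v r) (a0 : r 1 < l 1) : False :=
  have c0 : l 1 < v 1 := h.u1_0
  have c1 : v 1 ≤ r 1 := not_lt.mp fun z => L36 h z
  not_lt.mpr c1 (lt_trans a0 c0)

theorem L43 {l v r : ℕ → ℝ} (h : H l v r) (a0 : v 1 < l 1) : False :=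
  have c0 : l 1 < v 1 := h.u1_0
  lt_asymm c0 a0

theorem L44 {l v r : ℕ → ℝ} (h : H l v r) (a0 : r 7 < l 7) : False :=
  have c0 : l 7 < v 7 := h.u7_0
  have c1 : v 7 ≤ r 7 := not_lt.mp fun z => L23 h z
  not_lt.mpr c1 (lt_trans a0 c0)

theorem L45 {l v r : ℕ → ℝ} (h : H l v r) (a0 : v 7 < l 7) : False :=
  have c0 : l 7 < v 7 := h.u7_0
  lt_asymm c0 a0

theorem L46 {l v r : ℕ → ℝ} (h : H l v r) (a0 : v 1 < v 6) (a1 : v 6 < l 1) : False :=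
  have c0 : l 1 ≤ v 1 := not_lt.mp fun z => L43 h z
  not_lt.mpr c0 (lt_trans a0 a1)

theorem L47 {l v r : ℕ → ℝ} (h : H l v r) (a0 : v 6 < l 3) (a1 : r 7 < r 0) (a2 : v 0 ≤ r 6) (a3 : r 6 < r 7) : False :=
  have c0 : l 6 ≤ v 6 := not_lt.mp fun z => L20 h z
  have c1 : l 3 ≤ r 3 := not_lt.mp fun z => L34 h z
  have c2 : l 7 < l 0 := h.prl7_0 a1
  have c3 : v 7 < v 0 := h.plv7_0 c2
  have c4 : l 6 ≤ l 3 := le_of_lt (lt_of_le_of_lt c0 a0)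
  have c5 : v 6 ≤ r 3 := le_of_lt (lt_of_lt_of_le a0 c1)
  have c6 : r 6 ≤ r 3 := not_lt.mp fun z => not_lt.mpr c4 (h.prl3_6 z)
  have c7 : ¬ S8 l v r := fun z => not_lt.mpr c5 z.2.2
  have c8 : v 0 ≤ r 3 := le_trans a2 c6
  have c9 : l 3 < r 6 := (h.e8.resolve_left c7).2.1
  have c10 : S2 l v r := h.e2.resolve_right fun z => not_lt.mpr c8 z.2.2
  have c11 : l 3 < r 7 := lt_trans c9 a3
  have c12 : v 0 < l 3 := c10.1
  have c13 : r 0 < v 3 := c10.2.2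
  have c14 : v 7 < l 3 := lt_trans c3 c12
  have c15 : r 7 < v 3 := lt_trans a1 c13
  h.n7_3 c14 c11 c15

theorem L48 {l v r : ℕ → ℝ} (h : H l v r) (a0 : v 0 < l 1) (a1 : l 1 ≤ r 2) (a2 : l 1 ≤ r 6) (a3 : v 7 < r 6) (a4 : v 6 ≤ v 7) (a5 : r 6 < r 7) (a6 : l 6 ≤ l 7) (a7 : r 6 < r 0) (a8 : r 7 < v 1) : False :=
  have c0 : l 6 < l 0 := h.prl6_0 a7
  have c1 : v 6 < v 0 := h.plv6_0 c0
  have c2 : v 0 ≤ r 2 := le_of_lt (lt_of_lt_of_le a0 a1)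
  have c3 : v 0 ≤ r 6 := le_of_lt (lt_of_lt_of_le a0 a2)
  have c4 : S1 l v r := h.e1.resolve_right fun z => not_lt.mpr c2 z.2.2
  have c5 : l 2 < r 0 := c4.2.1
  have c6 : v 0 < l 2 := c4.1
  have c7 : r 0 < v 2 := c4.2.2
  have c8 : v 6 < l 2 := lt_trans c1 c6
  have c9 : r 6 < v 2 := lt_trans a7 c7
  have c10 : r 6 ≤ l 2 := not_lt.mp fun z => h.n6_2 c8 z c9
  have c11 : l 1 ≤ l 2 := le_trans a2 c10
  have c12 : v 7 < l 2 := lt_of_lt_of_le a3 c10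
  have c13 : v 1 ≤ v 2 := not_lt.mp fun z => not_lt.mpr c11 (h.pvl2_1 z)
  have c14 : r 7 < v 2 := lt_of_lt_of_le a8 c13
  have c15 : r 7 ≤ l 2 := not_lt.mp fun z => h.n7_2 c12 z c14
  have c16 : r 7 < r 0 := lt_of_le_of_lt c15 c5
  have c17 : l 7 < l 0 := h.prl7_0 c16
  have c18 : l 3 ≤ v 6 := not_lt.mp fun z => L47 h z c16 c3 a5
  have c19 : S8 l v r := h.e8.resolve_right fun z => not_lt.mpr c18 z.1
  have c20 : l 3 ≤ v 0 := le_of_lt (lt_of_le_of_lt c18 c1)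
  have c21 : v 3 < l 6 := c19.1
  have c22 : r 3 < v 6 := c19.2.2
  have c23 : ¬ S2 l v r := fun z => not_lt.mpr c20 z.1
  have c24 : v 3 < l 7 := lt_of_lt_of_le c21 a6
  have c25 : r 3 < v 7 := lt_of_lt_of_le c22 a4
  have c26 : l 0 < r 3 := (h.e2.resolve_left c23).2.1
  have c27 : r 3 ≤ l 7 := not_lt.mp fun z => h.n3_7 c24 z c25
  not_lt.mpr c27 (lt_trans c17 c26)

theorem L49 {l v r : ℕ → ℝ} (h : H l v r) (a0 : l 3 ≤ v 6) (a1 : v 6 ≤ l 0) (a2 : v 6 < v 0) : False :=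
  have c0 : S8 l v r := h.e8.resolve_right fun z => not_lt.mpr a0 z.1
  have c1 : l 3 ≤ v 0 := le_of_lt (lt_of_le_of_lt a0 a2)
  have c2 : r 3 < v 6 := c0.2.2
  have c3 : ¬ S2 l v r := fun z => not_lt.mpr c1 z.1
  have c4 : r 3 ≤ l 0 := le_of_lt (lt_of_lt_of_le c2 a1)
  not_lt.mpr c4 (h.e2.resolve_left c3).2.1

theorem L50 {l v r : ℕ → ℝ} (h : H l v r) (a0 : l 5 < r 1) (a1 : v 3 < v 1) (a2 : r 1 ≤ v 2) (a3 : v 1 ≤ l 2) (a4 : l 0 ≤ r 3) (a5 : v 4 < r 3) (a6 : r 1 ≤ r 4) (a7 : r 4 < v 0) : False :=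
  have c0 : l 3 < l 1 := h.pvl3_1 a1
  have c1 : r 3 < r 1 := h.plr3_1 c0
  have c2 : l 5 ≤ v 2 := le_of_lt (lt_of_lt_of_le a0 a2)
  have c3 : l 5 < r 4 := lt_of_lt_of_le a0 a6
  have c4 : ¬ S7 l v r := fun z => not_lt.mpr c2 z.1
  have c5 : l 2 < r 5 := (h.e7.resolve_left c4).2.1
  have c6 : v 1 ≤ r 5 := le_of_lt (lt_of_le_of_lt a3 c5)
  have c7 : S4 l v r := h.e4.resolve_right fun z => not_lt.mpr c6 z.2.2
  have c8 : v 1 < l 5 := c7.1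
  have c9 : r 1 < v 5 := c7.2.2
  have c10 : v 3 < l 5 := lt_trans a1 c8
  have c11 : r 3 < v 5 := lt_trans c1 c9
  have c12 : r 3 ≤ l 5 := not_lt.mp fun z => h.n3_5 c10 z c11
  have c13 : l 0 ≤ l 5 := le_trans a4 c12
  have c14 : v 4 < l 5 := lt_of_lt_of_le a5 c12
  have c15 : v 0 ≤ v 5 := not_lt.mp fun z => not_lt.mpr c13 (h.pvl5_0 z)
  have c16 : v 5 ≤ r 4 := not_lt.mp fun z => h.n4_5 c14 c3 z
  not_lt.mpr (le_trans c15 c16) a7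

theorem L51 {l v r : ℕ → ℝ} (h : H l v r) (a0 : r 1 ≤ l 5) : False :=
  have c0 : l 5 < r 5 := not_le.mp fun z => L27 h z
  have c1 : v 1 ≤ r 1 := not_lt.mp fun z => L36 h z
  have c2 : r 1 < r 5 := lt_of_le_of_lt a0 c0
  have c3 : ¬ S4 l v r := fun z => not_lt.mpr a0 z.2.1
  have c4 : v 1 ≤ r 5 := le_of_lt (lt_of_le_of_lt c1 c2)
  not_lt.mpr c4 (h.e4.resolve_left c3).2.2

theorem L52 {l v r : ℕ → ℝ} (h : H l v r) (a0 : r 1 < l 5) : False :=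
  have c0 : l 5 < r 1 := not_le.mp fun z => L51 h z
  lt_asymm a0 c0

theorem L53 {l v r : ℕ → ℝ} (h : H l v r) (a0 : v 1 ≤ v 3) (a1 : l 3 < r 7) (a2 : ¬ S6 l v r) : False :=
  have c0 : r 7 < v 1 := (h.e6.resolve_left a2).2.2
  have c1 : v 7 < l 1 := (h.e6.resolve_left a2).1
  have c2 : l 1 ≤ l 3 := not_lt.mp fun z => not_lt.mpr a0 (h.plv3_1 z)
  have c3 : r 7 < v 3 := lt_of_lt_of_le c0 a0
  have c4 : v 7 < l 3 := lt_of_lt_of_le c1 c2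
  h.n7_3 c4 a1 c3

theorem L54 {l v r : ℕ → ℝ} (h : H l v r) (a0 : S7 l v r) (a1 : l 4 ≤ l 2) (a2 : l 5 < r 4) : False :=
  have c0 : r 4 ≤ r 2 := not_lt.mp fun z => not_lt.mpr a1 (h.prl2_4 z)
  have c1 : v 4 ≤ v 2 := not_lt.mp fun z => not_lt.mpr a1 (h.pvl2_4 z)
  have c2 : v 2 < l 5 := a0.1
  have c3 : r 2 < v 5 := a0.2.2
  have c4 : v 4 < l 5 := lt_of_le_of_lt c1 c2
  have c5 : r 4 < v 5 := lt_of_le_of_lt c0 c3
  h.n4_5 c4 a2 c5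

theorem L55 {l v r : ℕ → ℝ} (h : H l v r) (a0 : v 1 ≤ l 2) (a1 : v 3 < v 1) (a2 : l 0 ≤ r 3) (a3 : v 4 < r 3) (a4 : r 1 ≤ r 4) (a5 : l 4 ≤ v 1) (a6 : r 4 < v 0) : False :=
  have c0 : l 5 < r 1 := not_le.mp fun z => L51 h z
  have c1 : l 5 < r 4 := lt_of_lt_of_le c0 a4
  have c2 : l 4 ≤ l 2 := le_trans a5 a0
  have c3 : v 2 < r 1 := not_le.mp fun z => L50 h c0 a1 z a0 a2 a3 a4 a6
  have c4 : l 2 ≤ r 1 := not_lt.mp fun z => L6 h c3 z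
  have c5 : ¬ S7 l v r := fun z => L54 h z c2 c1
  have c6 : l 2 < r 5 := (h.e7.resolve_left c5).2.1
  have c7 : v 5 < l 2 := (h.e7.resolve_left c5).1
  have c8 : v 1 ≤ r 5 := le_of_lt (lt_of_le_of_lt a0 c6)
  have c9 : v 5 ≤ r 1 := le_of_lt (lt_of_lt_of_le c7 c4)
  have c10 : S4 l v r := h.e4.resolve_right fun z => not_lt.mpr c8 z.2.2
  not_lt.mpr c9 c10.2.2

theorem L56 {l v r : ℕ → ℝ} (h : H l v r) (a0 : ¬ S4 l v r) (a1 : v 1 < v 4) (a2 : l 1 ≤ l 4) (a3 : l 4 < r 5) : False :=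
  have c0 : v 5 < l 1 := (h.e4.resolve_left a0).1
  have c1 : r 5 < v 1 := (h.e4.resolve_left a0).2.2
  have c2 : v 5 < l 4 := lt_of_lt_of_le c0 a2
  have c3 : r 5 < v 4 := lt_trans c1 a1
  h.n5_4 c2 a3 c3

theorem L57 {l v r : ℕ → ℝ} (h : H l v r) (a0 : ¬ S0 l v r) (a1 : l 6 < l 7) (a2 : v 6 < v 0) (a3 : l 4 ≤ r 1) (a4 : r 7 < r 5) (a5 : r 7 < r 1) : False :=
  have c0 : v 7 ≤ r 7 := not_lt.mp fun z => L23 h z
  have c1 : l 1 ≤ v 1 := not_lt.mp fun z => L43 h z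
  have c2 : l 3 ≤ r 3 := not_lt.mp fun z => L34 h z
  have c3 : l 5 < r 1 := not_le.mp fun z => L51 h z
  have c4 : l 7 < l 1 := h.prl7_1 a5
  have c5 : l 7 ≤ v 1 := le_of_lt (lt_of_lt_of_le c4 c1)
  have c6 : l 6 ≤ v 1 := le_of_lt (lt_of_lt_of_le a1 c5)
  have c7 : ¬ S5 l v r := fun z => not_lt.mpr c6 z.1
  have c8 : l 1 < r 6 := (h.e5.resolve_left c7).2.1
  have c9 : l 1 ≤ r 6 := le_of_lt c8
  have c10 : r 7 ≤ r 1 := le_of_lt a5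
  have c11 : r 6 < r 7 := h.plr6_7 a1
  have c12 : r 6 ≤ r 1 := le_of_lt (lt_of_lt_of_le c11 c10)
  have c13 : l 7 ≤ l 1 := not_lt.mp fun z => not_lt.mpr c10 (h.plr1_7 z)
  have c14 : v 7 ≤ v 1 := not_lt.mp fun z => not_lt.mpr c13 (h.pvl1_7 z)
  have c15 : v 6 < v 7 := h.plv6_7 a1
  have c16 : v 6 ≤ v 1 := le_of_lt (lt_of_lt_of_le c15 c14)
  have c17 : v 7 ≤ r 1 := le_of_lt (lt_of_le_of_lt c0 a5)
  have c18 : ¬ S6 l v r := fun z => not_lt.mpr c17 z.2.2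
  have c19 : r 1 < v 0 := (h.e0.resolve_left a0).2.2
  have c20 : v 1 < l 0 := (h.e0.resolve_left a0).1
  have c21 : l 4 ≤ v 0 := le_of_lt (lt_of_le_of_lt a3 c19)
  have c22 : r 6 ≤ v 0 := le_of_lt (lt_of_le_of_lt c12 c19)
  have c23 : v 7 ≤ l 0 := le_of_lt (lt_of_le_of_lt c14 c20)
  have c24 : v 6 ≤ l 0 := le_of_lt (lt_of_le_of_lt c16 c20)
  have c25 : ¬ S3 l v r := fun z => not_lt.mpr c21 z.1
  have c26 : r 4 < v 0 := (h.e3.resolve_left c25).2.2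
  have c27 : l 0 < r 4 := (h.e3.resolve_left c25).2.1
  have c28 : v 4 < l 0 := (h.e3.resolve_left c25).1
  have c29 : v 7 ≤ r 4 := le_of_lt (lt_of_le_of_lt c23 c27)
  have c30 : v 4 ≤ l 0 := le_of_lt c28
  have c31 : ¬ S9 l v r := fun z => not_lt.mpr c29 z.2.2
  have c32 : l 4 < r 7 := (h.e9.resolve_left c31).2.1
  have c33 : r 7 < v 4 := (h.e9.resolve_left c31).2.2
  have c34 : v 7 < l 4 := (h.e9.resolve_left c31).1
  have c35 : l 4 < r 5 := lt_trans c32 a4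
  have c36 : r 6 < v 4 := lt_trans c11 c33
  have c37 : v 6 < l 4 := lt_trans c15 c34
  have c38 : r 6 ≤ l 4 := not_lt.mp fun z => h.n6_4 c37 z c36
  have c39 : l 1 ≤ l 4 := le_trans c9 c38
  have c40 : l 1 < l 4 := lt_of_lt_of_le c8 c38
  have c41 : r 1 ≤ r 4 := not_lt.mp fun z => not_lt.mpr c39 (h.prl4_1 z)
  have c42 : v 1 < v 4 := h.plv1_4 c40
  have c43 : v 6 < l 3 := not_le.mp fun z => L49 h z c24 a2
  have c44 : v 6 ≤ r 3 := le_of_lt (lt_of_lt_of_le c43 c2)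
  have c45 : ¬ S8 l v r := fun z => not_lt.mpr c44 z.2.2
  have c46 : l 3 < r 6 := (h.e8.resolve_left c45).2.1
  have c47 : l 3 < r 7 := lt_trans c46 c11
  have c48 : l 3 ≤ v 0 := le_of_lt (lt_of_lt_of_le c46 c22)
  have c49 : ¬ S2 l v r := fun z => not_lt.mpr c48 z.1
  have c50 : l 0 < r 3 := (h.e2.resolve_left c49).2.1
  have c51 : v 4 < r 3 := lt_of_le_of_lt c30 c50
  have c52 : l 0 ≤ r 3 := le_of_lt c50
  have c53 : l 5 < r 4 := lt_of_lt_of_le c3 c41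
  have c54 : v 3 < v 1 := not_le.mp fun z => L53 h z c47 c18
  have c55 : l 3 < l 1 := h.pvl3_1 c54
  have c56 : r 3 < r 1 := h.plr3_1 c55
  have c57 : S4 l v r := Classical.byContradiction fun z => L56 h z c42 c39 c35
  have c58 : v 1 < l 5 := c57.1
  have c59 : r 1 < v 5 := c57.2.2
  have c60 : v 3 < l 5 := lt_trans c54 c58
  have c61 : r 3 < v 5 := lt_trans c56 c59
  have c62 : r 3 ≤ l 5 := not_lt.mp fun z => h.n3_5 c60 z c61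
  have c63 : l 0 ≤ l 5 := le_trans c52 c62
  have c64 : v 4 < l 5 := lt_of_lt_of_le c51 c62
  have c65 : v 0 ≤ v 5 := not_lt.mp fun z => not_lt.mpr c63 (h.pvl5_0 z)
  have c66 : v 5 ≤ r 4 := not_lt.mp fun z => h.n4_5 c64 c53 z
  not_lt.mpr (le_trans c65 c66) c26

theorem L58 {l v r : ℕ → ℝ} (h : H l v r) (a0 : l 1 ≤ l 4) (a1 : ¬ S4 l v r) (a2 : r 7 ≤ r 5) (a3 : l 7 ≤ v 1) : False :=
  have c0 : r 5 < v 1 := (h.e4.resolve_left a1).2.2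
  have c1 : v 5 < l 1 := (h.e4.resolve_left a1).1
  have c2 : v 1 ≤ v 4 := not_lt.mp fun z => not_lt.mpr a0 (h.pvl4_1 z)
  have c3 : v 5 < l 4 := lt_of_lt_of_le c1 a0
  have c4 : l 7 ≤ v 4 := le_trans a3 c2
  have c5 : r 5 < v 4 := lt_of_lt_of_le c0 c2
  have c6 : ¬ S9 l v r := fun z => not_lt.mpr c4 z.1
  have c7 : r 5 ≤ l 4 := not_lt.mp fun z => h.n5_4 c3 z c5
  have c8 : l 4 < r 7 := (h.e9.resolve_left c6).2.1
  not_lt.mpr (le_trans a2 c7) c8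

theorem L59 {l v r : ℕ → ℝ} (h : H l v r) (a0 : ¬ S9 l v r) (a1 : l 4 < r 6) (a2 : r 6 < r 7) (a3 : v 6 < v 7) : False :=
  have c0 : r 7 < v 4 := (h.e9.resolve_left a0).2.2
  have c1 : v 7 < l 4 := (h.e9.resolve_left a0).1
  have c2 : r 6 < v 4 := lt_trans a2 c0
  have c3 : v 6 < l 4 := lt_trans a3 c1
  h.n6_4 c3 a1 c2

theorem L60 {l v r : ℕ → ℝ} (h : H l v r) (a0 : l 0 ≤ l 7) (a1 : l 7 < r 2) (a2 : v 2 < l 0) (a3 : r 2 < v 0) : False :=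
  have c0 : v 0 ≤ v 7 := not_lt.mp fun z => not_lt.mpr a0 (h.pvl7_0 z)
  have c1 : v 2 < l 7 := lt_of_lt_of_le a2 a0
  have c2 : r 2 < v 7 := lt_of_lt_of_le a3 c0
  h.n2_7 c1 a1 c2

theorem L61 {l v r : ℕ → ℝ} (h : H l v r) (a0 : l 6 < l 7) (a1 : r 6 < r 0) (a2 : l 4 ≤ r 1) (a3 : l 7 < l 5) (a4 : r 7 < r 1) : False :=
  have c0 : l 1 ≤ v 1 := not_lt.mp fun z => L43 h z
  have c1 : v 7 ≤ r 7 := not_lt.mp fun z => L23 h z
  have c2 : v 2 < r 2 := h.u2_1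
  have c3 : l 6 < l 0 := h.prl6_0 a1
  have c4 : v 6 < v 0 := h.plv6_0 c3
  have c5 : r 6 ≤ r 0 := le_of_lt a1
  have c6 : v 7 ≤ r 1 := le_of_lt (lt_of_le_of_lt c1 a4)
  have c7 : ¬ S6 l v r := fun z => not_lt.mpr c6 z.2.2
  have c8 : l 1 < r 7 := (h.e6.resolve_left c7).2.1
  have c9 : l 1 ≤ r 7 := le_of_lt c8
  have c10 : r 7 < r 5 := h.plr7_5 a3
  have c11 : l 1 ≤ r 5 := le_of_lt (lt_of_le_of_lt c9 c10)
  have c12 : v 7 < l 1 := (h.e6.resolve_left c7).1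
  have c13 : v 7 ≤ l 1 := le_of_lt c12
  have c14 : r 7 < v 1 := (h.e6.resolve_left c7).2.2
  have c15 : l 7 < l 1 := h.prl7_1 a4
  have c16 : l 7 ≤ v 1 := le_of_lt (lt_of_lt_of_le c15 c0)
  have c17 : v 6 < v 7 := h.plv6_7 a0
  have c18 : l 6 ≤ l 7 := le_of_lt a0
  have c19 : r 6 < r 7 := h.plr6_7 a0
  have c20 : l 6 ≤ v 1 := le_of_lt (lt_of_lt_of_le a0 c16)
  have c21 : v 6 ≤ v 7 := le_of_lt c17
  have c22 : ¬ S5 l v r := fun z => not_lt.mpr c20 z.1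
  have c23 : l 1 < r 6 := (h.e5.resolve_left c22).2.1
  have c24 : l 1 ≤ r 0 := le_of_lt (lt_of_lt_of_le c23 c5)
  have c25 : v 7 < r 6 := lt_of_le_of_lt c13 c23
  have c26 : l 1 ≤ r 6 := le_of_lt c23
  have c27 : S0 l v r := Classical.byContradiction fun z => L57 h z a0 c4 a2 c10 a4
  have c28 : v 0 < l 1 := c27.1
  have c29 : v 0 ≤ r 6 := le_of_lt (lt_of_lt_of_le c28 c26)
  have c30 : r 2 < l 1 := not_le.mp fun z => L48 h c28 z c26 c25 c21 c19 c18 a1 c14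
  have c31 : v 2 < l 1 := lt_trans c2 c30
  have c32 : v 2 ≤ r 0 := le_of_lt (lt_of_lt_of_le c31 c24)
  have c33 : v 2 ≤ r 5 := le_of_lt (lt_of_lt_of_le c31 c11)
  have c34 : ¬ S1 l v r := fun z => not_lt.mpr c32 z.2.2
  have c35 : S7 l v r := h.e7.resolve_right fun z => not_lt.mpr c33 z.2.2
  have c36 : r 2 < v 0 := (h.e1.resolve_left c34).2.2
  have c37 : v 2 < l 0 := (h.e1.resolve_left c34).1
  have c38 : l 5 < r 2 := c35.2.1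
  have c39 : l 7 < r 2 := lt_trans a3 c38
  have c40 : l 7 < l 0 := not_le.mp fun z => L60 h z c39 c37 c36
  have c41 : r 7 < r 0 := h.plr7_0 c40
  have c42 : l 7 ≤ l 0 := le_of_lt c40
  have c43 : l 3 ≤ v 6 := not_lt.mp fun z => L47 h z c41 c29 c19
  have c44 : S8 l v r := h.e8.resolve_right fun z => not_lt.mpr c43 z.1
  have c45 : l 3 ≤ v 0 := le_of_lt (lt_of_le_of_lt c43 c4)
  have c46 : v 3 < l 6 := c44.1
  have c47 : r 3 < v 6 := c44.2.2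
  have c48 : ¬ S2 l v r := fun z => not_lt.mpr c45 z.1
  have c49 : v 3 < l 7 := lt_of_lt_of_le c46 c18
  have c50 : r 3 < v 7 := lt_of_lt_of_le c47 c21
  have c51 : r 3 ≤ l 7 := not_lt.mp fun z => h.n3_7 c49 z c50
  have c52 : l 0 < r 3 := (h.e2.resolve_left c48).2.1
  not_lt.mpr (le_trans c51 c42) c52

theorem L62 {l v r : ℕ → ℝ} (h : H l v r) (a0 : S9 l v r) (a1 : l 7 ≤ r 0) (a2 : l 7 ≤ l 6) (a3 : l 6 ≤ l 0) : False :=
  have c0 : v 7 ≤ v 6 := not_lt.mp fun z => not_lt.mpr a2 (h.pvl6_7 z)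
  have c1 : r 4 < v 7 := a0.2.2
  have c2 : v 4 < l 7 := a0.1
  have c3 : r 4 < v 6 := lt_of_lt_of_le c1 c0
  have c4 : v 4 ≤ r 0 := le_of_lt (lt_of_lt_of_le c2 a1)
  have c5 : v 4 < l 6 := lt_of_lt_of_le c2 a2
  have c6 : ¬ S3 l v r := fun z => not_lt.mpr c4 z.2.2
  have c7 : r 4 ≤ l 6 := not_lt.mp fun z => h.n4_6 c5 z c3
  have c8 : l 0 < r 4 := (h.e3.resolve_left c6).2.1
  not_lt.mpr (le_trans c7 a3) c8

theorem L63 {l v r : ℕ → ℝ} (h : H l v r) (a0 : S3 l v r) (a1 : l 4 < r 6) (a2 : r 6 < r 0) : False :=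
  have c0 : l 6 < l 0 := h.prl6_0 a2
  have c1 : v 6 < v 0 := h.plv6_0 c0
  have c2 : v 0 < l 4 := a0.1
  have c3 : r 0 < v 4 := a0.2.2
  have c4 : v 6 < l 4 := lt_trans c1 c2
  have c5 : r 6 < v 4 := lt_trans a2 c3
  h.n6_4 c4 a1 c5

theorem L64 {l v r : ℕ → ℝ} (h : H l v r) (a0 : ¬ S4 l v r) (a1 : l 1 ≤ l 3) (a2 : l 3 < v 4) (a3 : l 3 ≤ r 6) (a4 : v 6 < r 7) (a5 : r 6 < v 4) (a6 : l 1 ≤ r 2) (a7 : l 4 < r 5) (a8 : v 7 < v 5) : False :=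
  have c0 : v 1 ≤ v 3 := not_lt.mp fun z => not_lt.mpr a1 (h.pvl3_1 z)
  have c1 : l 7 < l 5 := h.pvl7_5 a8
  have c2 : r 7 < r 5 := h.plr7_5 c1
  have c3 : v 7 ≤ v 5 := le_of_lt a8
  have c4 : v 5 < l 1 := (h.e4.resolve_left a0).1
  have c5 : r 5 < v 1 := (h.e4.resolve_left a0).2.2
  have c6 : v 5 ≤ r 2 := le_of_lt (lt_of_lt_of_le c4 a6)
  have c7 : v 5 < l 3 := lt_of_lt_of_le c4 a1
  have c8 : r 5 < v 3 := lt_of_lt_of_le c5 c0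
  have c9 : ¬ S7 l v r := fun z => not_lt.mpr c6 z.2.2
  have c10 : r 5 ≤ l 3 := not_lt.mp fun z => h.n5_3 c7 z c8
  have c11 : l 2 < r 5 := (h.e7.resolve_left c9).2.1
  have c12 : r 5 < v 2 := (h.e7.resolve_left c9).2.2
  have c13 : v 5 < l 2 := (h.e7.resolve_left c9).1
  have c14 : r 5 < v 4 := lt_of_le_of_lt c10 a2
  have c15 : r 5 ≤ r 6 := le_trans c10 a3
  have c16 : l 2 < r 6 := lt_of_lt_of_le c11 c15
  have c17 : r 7 < v 2 := lt_trans c2 c12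
  have c18 : v 7 < l 2 := lt_of_le_of_lt c3 c13
  have c19 : l 4 ≤ v 5 := not_lt.mp fun z => h.n5_4 z a7 c14
  have c20 : r 7 ≤ l 2 := not_lt.mp fun z => h.n7_2 c18 z c17
  have c21 : l 4 < l 2 := lt_of_le_of_lt c19 c13
  have c22 : v 6 < l 2 := lt_of_lt_of_le a4 c20
  have c23 : v 4 < v 2 := h.plv4_2 c21
  have c24 : v 2 ≤ r 6 := not_lt.mp fun z => h.n6_2 c22 c16 z
  not_lt.mpr c24 (lt_trans a5 c23)

theorem L65 {l v r : ℕ → ℝ} (h : H l v r) (a0 : r 6 < v 4) (a1 : l 1 ≤ r 2) (a2 : v 4 ≤ v 0) (a3 : v 4 < l 0) (a4 : l 0 < r 4) (a5 : l 4 < r 6) (a6 : l 4 < r 5) (a7 : r 7 < v 4) (a8 : v 7 ≤ v 6) (a9 : v 6 < v 0) (a10 : v 4 ≤ r 1) (a11 : v 7 < v 5) (a12 : l 1 < r 7) : False :=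
  have c0 : v 6 ≤ r 6 := not_lt.mp fun z => L25 h z
  have c1 : l 3 ≤ r 3 := not_lt.mp fun z => L34 h z
  have c2 : l 5 < r 1 := not_le.mp fun z => L51 h z
  have c3 : l 1 ≤ r 7 := le_of_lt a12
  have c4 : r 6 < l 0 := lt_trans a0 a3
  have c5 : r 6 < r 1 := lt_of_lt_of_le a0 a10
  have c6 : r 6 ≤ v 0 := le_of_lt (lt_of_lt_of_le a0 a2)
  have c7 : l 4 ≤ v 6 := not_lt.mp fun z => h.n6_4 z a5 a0
  have c8 : v 6 ≤ l 0 := not_lt.mp fun z => L40 h c4 z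
  have c9 : v 6 ≤ r 1 := le_of_lt (lt_of_le_of_lt c0 c5)
  have c10 : v 6 < l 3 := not_le.mp fun z => L49 h z c8 a9
  have c11 : ¬ S5 l v r := fun z => not_lt.mpr c9 z.2.2
  have c12 : v 6 ≤ r 3 := le_of_lt (lt_of_lt_of_le c10 c1)
  have c13 : v 7 < l 3 := lt_of_le_of_lt a8 c10
  have c14 : l 4 < l 3 := lt_of_le_of_lt c7 c10
  have c15 : v 6 < l 1 := (h.e5.resolve_left c11).1
  have c16 : ¬ S8 l v r := fun z => not_lt.mpr c12 z.2.2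
  have c17 : v 4 < v 3 := h.plv4_3 c14
  have c18 : v 6 < r 7 := lt_trans c15 a12
  have c19 : l 4 < l 1 := lt_of_le_of_lt c7 c15
  have c20 : l 3 < r 6 := (h.e8.resolve_left c16).2.1
  have c21 : r 7 < v 3 := lt_trans a7 c17
  have c22 : r 4 < r 1 := h.plr4_1 c19
  have c23 : v 4 < v 1 := h.plv4_1 c19
  have c24 : l 3 ≤ r 6 := le_of_lt c20
  have c25 : l 3 ≤ v 0 := le_of_lt (lt_of_lt_of_le c20 c6)
  have c26 : l 3 < v 4 := lt_trans c20 a0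
  have c27 : r 7 ≤ l 3 := not_lt.mp fun z => h.n7_3 c13 z c21
  have c28 : ¬ S2 l v r := fun z => not_lt.mpr c25 z.1
  have c29 : l 1 ≤ l 3 := le_trans c3 c27
  have c30 : r 3 < v 0 := (h.e2.resolve_left c28).2.2
  have c31 : v 3 < l 0 := (h.e2.resolve_left c28).1
  have c32 : r 1 ≤ r 3 := not_lt.mp fun z => not_lt.mpr c29 (h.prl3_1 z)
  have c33 : v 3 < r 4 := lt_trans c31 a4
  have c34 : l 5 < r 3 := lt_of_lt_of_le c2 c32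
  have c35 : S4 l v r := Classical.byContradiction fun z => L64 h z c29 c26 c24 c18 a0 a1 a6 a11
  have c36 : v 1 < l 5 := c35.1
  have c37 : r 1 < v 5 := c35.2.2
  have c38 : v 4 < l 5 := lt_trans c23 c36
  have c39 : r 4 < v 5 := lt_trans c22 c37
  have c40 : r 4 ≤ l 5 := not_lt.mp fun z => h.n4_5 c38 z c39
  have c41 : l 0 ≤ l 5 := le_of_lt (lt_of_lt_of_le a4 c40)
  have c42 : v 3 < l 5 := lt_of_lt_of_le c33 c40
  have c43 : v 0 ≤ v 5 := not_lt.mp fun z => not_lt.mpr c41 (h.pvl5_0 z)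
  have c44 : v 5 ≤ r 3 := not_lt.mp fun z => h.n3_5 c42 c34 z
  not_lt.mpr (le_trans c43 c44) c30

theorem L66 {l v r : ℕ → ℝ} (h : H l v r) (a0 : v 6 < l 1) (a1 : l 3 ≤ r 6) (a2 : l 5 < r 3) (a3 : S4 l v r) (a4 : v 4 ≤ r 6) (a5 : r 1 < v 0) (a6 : l 0 < r 4) : False :=
  have c0 : l 6 ≤ v 6 := not_lt.mp fun z => L20 h z
  have c1 : l 1 ≤ r 1 := not_lt.mp fun z => L42 h z
  have c2 : r 1 < v 5 := a3.2.2
  have c3 : v 1 < l 5 := a3.1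
  have c4 : l 6 ≤ l 1 := le_of_lt (lt_of_le_of_lt c0 a0)
  have c5 : v 6 ≤ r 1 := le_of_lt (lt_of_lt_of_le a0 c1)
  have c6 : r 6 ≤ r 1 := not_lt.mp fun z => not_lt.mpr c4 (h.prl1_6 z)
  have c7 : ¬ S5 l v r := fun z => not_lt.mpr c5 z.2.2
  have c8 : r 6 < v 0 := lt_of_le_of_lt c6 a5
  have c9 : r 6 < v 1 := (h.e5.resolve_left c7).2.2
  have c10 : l 3 ≤ v 0 := le_of_lt (lt_of_le_of_lt a1 c8)
  have c11 : v 4 < v 1 := lt_of_le_of_lt a4 c9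
  have c12 : ¬ S2 l v r := fun z => not_lt.mpr c10 z.1
  have c13 : l 4 < l 1 := h.pvl4_1 c11
  have c14 : v 4 < l 5 := lt_trans c11 c3
  have c15 : r 3 < v 0 := (h.e2.resolve_left c12).2.2
  have c16 : v 3 < l 0 := (h.e2.resolve_left c12).1
  have c17 : r 4 < r 1 := h.plr4_1 c13
  have c18 : v 3 < r 4 := lt_trans c16 a6
  have c19 : r 4 < v 5 := lt_trans c17 c2
  have c20 : r 4 ≤ l 5 := not_lt.mp fun z => h.n4_5 c14 z c19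
  have c21 : l 0 ≤ l 5 := le_of_lt (lt_of_lt_of_le a6 c20)
  have c22 : v 3 < l 5 := lt_of_lt_of_le c18 c20
  have c23 : v 0 ≤ v 5 := not_lt.mp fun z => not_lt.mpr c21 (h.pvl5_0 z)
  have c24 : v 5 ≤ r 3 := not_lt.mp fun z => h.n3_5 c22 a2 z
  not_lt.mpr (le_trans c23 c24) c15

theorem L67 {l v r : ℕ → ℝ} (h : H l v r) (a0 : S8 l v r) (a1 : v 4 < v 3) (a2 : r 4 ≤ r 3) (a3 : l 6 < r 4) : False :=
  have c0 : v 3 < l 6 := a0.1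
  have c1 : r 3 < v 6 := a0.2.2
  have c2 : v 4 < l 6 := lt_trans a1 c0
  have c3 : r 4 < v 6 := lt_of_le_of_lt a2 c1
  h.n4_6 c2 a3 c3

theorem L68 {l v r : ℕ → ℝ} (h : H l v r) (a0 : r 4 < v 6) (a1 : r 7 < l 6) (a2 : v 1 < l 6) (a3 : S7 l v r) (a4 : l 6 < r 2) (a5 : l 6 < r 4) (a6 : l 4 ≤ r 7) (a7 : v 7 < l 1) : False :=
  have c0 : l 5 < r 1 := not_le.mp fun z => L51 h z
  have c1 : v 1 ≤ l 6 := le_of_lt a2
  have c2 : l 6 ≤ v 4 := not_lt.mp fun z => h.n4_6 z a5 a0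
  have c3 : v 1 < v 4 := lt_of_lt_of_le a2 c2
  have c4 : l 1 < l 4 := h.pvl1_4 c3
  have c5 : r 1 < r 4 := h.plr1_4 c4
  have c6 : l 5 < r 4 := lt_trans c0 c5
  have c7 : l 2 < l 4 := not_le.mp fun z => L54 h a3 z c6
  have c8 : l 2 < r 7 := lt_of_lt_of_le c7 a6
  have c9 : r 2 < r 4 := h.plr2_4 c7
  have c10 : r 2 < v 6 := lt_trans c9 a0
  have c11 : l 6 ≤ v 2 := not_lt.mp fun z => h.n2_6 z a4 c10
  have c12 : v 1 ≤ v 2 := le_trans c1 c11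
  have c13 : r 7 < v 2 := lt_of_lt_of_le a1 c11
  have c14 : l 1 ≤ l 2 := not_lt.mp fun z => not_lt.mpr c12 (h.plv2_1 z)
  have c15 : l 2 ≤ v 7 := not_lt.mp fun z => h.n7_2 z c8 c13
  not_lt.mpr (le_trans c14 c15) a7

theorem L69 {l v r : ℕ → ℝ} (h : H l v r) (a0 : l 2 < l 1) (a1 : S5 l v r) (a2 : l 6 < r 2) : False :=
  have c0 : r 1 < v 6 := a1.2.2
  have c1 : r 1 ≤ v 6 := le_of_lt c0
  have c2 : v 1 < l 6 := a1.1
  have c3 : v 2 < v 1 := h.plv2_1 a0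
  have c4 : r 2 < r 1 := h.plr2_1 a0
  have c5 : v 2 < l 6 := lt_trans c3 c2
  have c6 : r 2 < v 6 := lt_of_lt_of_le c4 c1
  h.n2_6 c5 a2 c6

theorem L70 {l v r : ℕ → ℝ} (h : H l v r) (a0 : S5 l v r) (a1 : S7 l v r) (a2 : l 6 < r 2) (a3 : l 6 < r 4) (a4 : l 4 ≤ r 7) (a5 : ¬ S6 l v r) : False :=
  have c0 : l 5 ≤ r 1 := not_lt.mp fun z => L52 h z
  have c1 : r 7 < v 1 := (h.e6.resolve_left a5).2.2
  have c2 : r 7 ≤ v 1 := le_of_lt c1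
  have c3 : v 7 < l 1 := (h.e6.resolve_left a5).1
  have c4 : r 1 < v 6 := a0.2.2
  have c5 : v 1 < l 6 := a0.1
  have c6 : l 5 < v 6 := lt_of_le_of_lt c0 c4
  have c7 : r 7 < l 6 := lt_of_le_of_lt c2 c5
  have c8 : v 6 ≤ r 4 := not_lt.mp fun z => L68 h z c7 c5 a1 a2 a3 a4 c3
  have c9 : l 5 < r 4 := lt_of_lt_of_le c6 c8
  have c10 : l 2 < l 4 := not_le.mp fun z => L54 h a1 z c9
  have c11 : l 2 < r 7 := lt_of_lt_of_le c10 a4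
  have c12 : l 1 ≤ l 2 := not_lt.mp fun z => L69 h z a0 a2
  have c13 : v 1 ≤ v 2 := not_lt.mp fun z => not_lt.mpr c12 (h.pvl2_1 z)
  have c14 : v 7 < l 2 := lt_of_lt_of_le c3 c12
  have c15 : r 7 < v 2 := lt_of_lt_of_le c1 c13
  h.n7_2 c14 c11 c15

theorem L71 {l v r : ℕ → ℝ} (h : H l v r) (a0 : r 7 ≤ l 3) (a1 : v 6 < l 1) (a2 : S4 l v r) (a3 : v 4 ≤ r 6) (a4 : r 1 < v 0) (a5 : l 6 < r 4) (a6 : l 0 < r 4) (a7 : l 4 < r 7) (a8 : l 1 ≤ r 7) : False :=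
  have c0 : l 5 < r 1 := not_le.mp fun z => L51 h z
  have c1 : l 4 ≤ r 7 := le_of_lt a7
  have c2 : l 1 ≤ l 3 := le_trans a8 a0
  have c3 : l 4 ≤ l 3 := le_trans c1 a0
  have c4 : l 4 < l 3 := lt_of_lt_of_le a7 a0
  have c5 : r 1 ≤ r 3 := not_lt.mp fun z => not_lt.mpr c2 (h.prl3_1 z)
  have c6 : r 4 ≤ r 3 := not_lt.mp fun z => not_lt.mpr c3 (h.prl3_4 z)
  have c7 : v 4 < v 3 := h.plv4_3 c4
  have c8 : l 5 < r 3 := lt_of_lt_of_le c0 c5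
  have c9 : ¬ S8 l v r := fun z => L67 h z c7 c6 a5
  have c10 : l 3 < r 6 := (h.e8.resolve_left c9).2.1
  have c11 : l 3 ≤ r 6 := le_of_lt c10
  L66 h a1 c11 c8 a2 a3 a4 a6

theorem L72 {l v r : ℕ → ℝ} (h : H l v r) (a0 : S4 l v r) (a1 : v 4 ≤ r 6) (a2 : l 6 < r 2) (a3 : l 2 ≤ r 1) (a4 : r 1 < v 0) (a5 : l 1 ≤ l 0) (a6 : l 6 < r 4) (a7 : l 0 < r 4) (a8 : l 4 < r 7) (a9 : v 7 ≤ v 6) (a10 : r 7 ≤ r 6) (a11 : v 6 < v 0) (a12 : ¬ S6 l v r) : False :=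
  have c0 : l 3 ≤ r 3 := not_lt.mp fun z => L34 h z
  have c1 : l 4 ≤ r 7 := le_of_lt a8
  have c2 : l 1 < r 7 := (h.e6.resolve_left a12).2.1
  have c3 : l 1 ≤ r 7 := le_of_lt c2
  have c4 : r 1 < v 5 := a0.2.2
  have c5 : l 2 ≤ v 5 := le_of_lt (lt_of_le_of_lt a3 c4)
  have c6 : S7 l v r := h.e7.resolve_right fun z => not_lt.mpr c5 z.1
  have c7 : ¬ S5 l v r := fun z => L70 h z c6 a2 a6 c1 a12
  have c8 : v 6 < l 1 := (h.e5.resolve_left c7).1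
  have c9 : v 6 ≤ l 0 := le_of_lt (lt_of_lt_of_le c8 a5)
  have c10 : l 3 < r 7 := not_le.mp fun z => L71 h z c8 a0 a1 a4 a6 a7 a8 c3
  have c11 : v 6 < l 3 := not_le.mp fun z => L49 h z c9 a11
  have c12 : v 6 ≤ r 3 := le_of_lt (lt_of_lt_of_le c11 c0)
  have c13 : v 7 < l 3 := lt_of_le_of_lt a9 c11
  have c14 : ¬ S8 l v r := fun z => not_lt.mpr c12 z.2.2
  have c15 : v 3 ≤ r 7 := not_lt.mp fun z => h.n7_3 c13 c10 z
  have c16 : r 6 < v 3 := (h.e8.resolve_left c14).2.2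
  not_lt.mpr (le_trans c15 a10) c16

theorem L73 {l v r : ℕ → ℝ} (h : H l v r) (a0 : ¬ S5 l v r) (a1 : l 1 ≤ l 2) (a2 : l 2 < r 5) (a3 : v 5 < r 7) (a4 : r 5 < v 1) (a5 : l 1 ≤ l 0) (a6 : v 7 ≤ v 6) (a7 : r 7 ≤ r 6) (a8 : v 6 < v 0) (a9 : l 1 ≤ r 7) : False :=
  have c0 : l 3 ≤ r 3 := not_lt.mp fun z => L34 h z
  have c1 : v 1 ≤ v 2 := not_lt.mp fun z => not_lt.mpr a1 (h.pvl2_1 z)
  have c2 : v 6 < l 1 := (h.e5.resolve_left a0).1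
  have c3 : r 6 < v 1 := (h.e5.resolve_left a0).2.2
  have c4 : v 6 ≤ l 0 := le_of_lt (lt_of_lt_of_le c2 a5)
  have c5 : v 6 < l 2 := lt_of_lt_of_le c2 a1
  have c6 : r 6 < v 2 := lt_of_lt_of_le c3 c1
  have c7 : v 6 < l 3 := not_le.mp fun z => L49 h z c4 a8
  have c8 : r 6 ≤ l 2 := not_lt.mp fun z => h.n6_2 c5 z c6
  have c9 : v 6 ≤ r 3 := le_of_lt (lt_of_lt_of_le c7 c0)
  have c10 : v 7 < l 3 := lt_of_le_of_lt a6 c7
  have c11 : r 6 < r 5 := lt_of_le_of_lt c8 a2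
  have c12 : ¬ S8 l v r := fun z => not_lt.mpr c9 z.2.2
  have c13 : r 6 < v 3 := (h.e8.resolve_left c12).2.2
  have c14 : l 3 < r 6 := (h.e8.resolve_left c12).2.1
  have c15 : r 7 < v 3 := lt_of_le_of_lt a7 c13
  have c16 : l 3 < r 5 := lt_trans c14 c11
  have c17 : r 7 ≤ l 3 := not_lt.mp fun z => h.n7_3 c10 z c15
  have c18 : l 1 ≤ l 3 := le_trans a9 c17
  have c19 : v 5 < l 3 := lt_of_lt_of_le a3 c17
  have c20 : v 1 ≤ v 3 := not_lt.mp fun z => not_lt.mpr c18 (h.pvl3_1 z)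
  have c21 : v 3 ≤ r 5 := not_lt.mp fun z => h.n5_3 c19 c16 z
  not_lt.mpr (le_trans c20 c21) a4

theorem L74 {l v r : ℕ → ℝ} (h : H l v r) (a0 : r 2 < v 0) (a1 : r 1 < v 0) (a2 : v 4 ≤ v 0) (a3 : v 4 < l 0) (a4 : l 0 < r 4) (a5 : l 4 < r 7) (a6 : r 7 < v 4) (a7 : v 7 ≤ v 6) (a8 : r 7 ≤ r 6) (a9 : l 6 < l 0) (a10 : v 4 ≤ r 1) (a11 : v 7 < v 5) (a12 : r 7 < r 1) (a13 : l 0 < r 1) : False :=
  have c0 : l 1 ≤ v 1 := not_lt.mp fun z => L43 h z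
  have c1 : v 7 ≤ r 7 := not_lt.mp fun z => L23 h z
  have c2 : l 2 ≤ r 2 := not_lt.mp fun z => L11 h z
  have c3 : v 2 ≤ r 2 := not_lt.mp fun z => L12 h z
  have c4 : v 7 ≤ r 1 := le_of_lt (lt_of_le_of_lt c1 a12)
  have c5 : ¬ S6 l v r := fun z => not_lt.mpr c4 z.2.2
  have c6 : l 1 < r 7 := (h.e6.resolve_left c5).2.1
  have c7 : l 1 ≤ r 7 := le_of_lt c6
  have c8 : l 1 ≤ v 4 := le_of_lt (lt_of_le_of_lt c7 a6)
  have c9 : l 1 ≤ l 0 := le_of_lt (lt_of_le_of_lt c8 a3)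
  have c10 : l 6 < r 4 := lt_trans a9 a4
  have c11 : l 4 < r 6 := lt_of_lt_of_le a5 a8
  have c12 : l 7 < l 5 := h.pvl7_5 a11
  have c13 : r 7 < r 5 := h.plr7_5 c12
  have c14 : l 4 < r 5 := lt_trans a5 c13
  have c15 : v 6 < v 0 := h.plv6_0 a9
  have c16 : l 7 ≤ l 5 := le_of_lt c12
  have c17 : r 7 ≤ r 5 := not_lt.mp fun z => not_lt.mpr c16 (h.prl5_7 z)
  have c18 : v 7 ≤ v 5 := le_of_lt a11
  have c19 : l 7 < l 1 := h.prl7_1 a12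
  have c20 : l 7 ≤ v 1 := le_of_lt (lt_of_lt_of_le c19 c0)
  have c21 : l 2 ≤ v 0 := le_of_lt (lt_of_le_of_lt c2 a0)
  have c22 : v 2 ≤ v 0 := le_of_lt (lt_of_le_of_lt c3 a0)
  have c23 : ¬ S1 l v r := fun z => not_lt.mpr c21 z.1
  have c24 : l 2 ≤ l 0 := not_lt.mp fun z => not_lt.mpr c22 (h.plv0_2 z)
  have c25 : l 0 < r 2 := (h.e1.resolve_left c23).2.1
  have c26 : l 2 ≤ r 1 := le_of_lt (lt_of_le_of_lt c24 a13)
  have c27 : l 0 ≤ r 2 := le_of_lt c25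
  have c28 : l 6 < r 2 := lt_trans a9 c25
  have c29 : l 1 ≤ r 2 := le_trans c9 c27
  have c30 : v 4 ≤ r 6 := not_lt.mp fun z => L65 h z c29 a2 a3 a4 c11 c14 a6 a7 c15 a10 a11 c6
  have c31 : ¬ S4 l v r := fun z => L72 h z c30 c28 c26 a1 c9 c10 a4 a5 a7 a8 c15 c5
  have c32 : v 5 < l 1 := (h.e4.resolve_left c31).1
  have c33 : r 5 < v 1 := (h.e4.resolve_left c31).2.2
  have c34 : l 4 < l 1 := not_le.mp fun z => L58 h z c31 c17 c20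
  have c35 : v 5 < r 7 := lt_of_lt_of_le c32 c7
  have c36 : v 5 ≤ r 2 := le_of_lt (lt_of_lt_of_le c32 c29)
  have c37 : r 4 < r 1 := h.plr4_1 c34
  have c38 : v 4 < v 1 := h.plv4_1 c34
  have c39 : ¬ S7 l v r := fun z => not_lt.mpr c36 z.2.2
  have c40 : l 2 < r 5 := (h.e7.resolve_left c39).2.1
  have c41 : r 5 < v 2 := (h.e7.resolve_left c39).2.2
  have c42 : v 5 < l 2 := (h.e7.resolve_left c39).1
  have c43 : r 7 < v 2 := lt_trans c13 c41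
  have c44 : v 7 < l 2 := lt_of_le_of_lt c18 c42
  have c45 : r 7 ≤ l 2 := not_lt.mp fun z => h.n7_2 c44 z c43
  have c46 : l 1 ≤ l 2 := le_trans c7 c45
  have c47 : S5 l v r := Classical.byContradiction fun z => L73 h z c46 c40 c35 c33 c9 a7 a8 c15 c7
  have c48 : r 1 < v 6 := c47.2.2
  have c49 : v 1 < l 6 := c47.1
  have c50 : r 4 < v 6 := lt_trans c37 c48
  have c51 : v 4 < l 6 := lt_trans c38 c49
  h.n4_6 c51 c10 c50

theorem L75 {l v r : ℕ → ℝ} (h : H l v r) (a0 : ¬ S8 l v r) (a1 : l 5 < l 0) (a2 : l 0 ≤ r 6) (a3 : r 6 < r 5) : False :=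
  have c0 : r 5 < r 0 := h.plr5_0 a1
  have c1 : v 5 < v 0 := h.plv5_0 a1
  have c2 : r 6 < v 3 := (h.e8.resolve_left a0).2.2
  have c3 : l 3 < r 6 := (h.e8.resolve_left a0).2.1
  have c4 : l 0 ≤ v 3 := le_of_lt (lt_of_le_of_lt a2 c2)
  have c5 : l 3 < r 5 := lt_trans c3 a3
  have c6 : S2 l v r := h.e2.resolve_right fun z => not_lt.mpr c4 z.1
  have c7 : v 0 < l 3 := c6.1
  have c8 : r 0 < v 3 := c6.2.2
  have c9 : v 5 < l 3 := lt_trans c1 c7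
  have c10 : r 5 < v 3 := lt_trans c0 c8
  h.n5_3 c9 c5 c10

theorem L76 {l v r : ℕ → ℝ} (h : H l v r) (a0 : l 5 < l 0) (a1 : l 0 ≤ r 6) (a2 : l 6 ≤ l 5) (a3 : r 6 < r 5) (a4 : l 6 ≤ r 0) : False :=
  have c0 : v 6 ≤ v 5 := not_lt.mp fun z => not_lt.mpr a2 (h.pvl5_6 z)
  have c1 : S8 l v r := Classical.byContradiction fun z => L75 h z a0 a1 a3
  have c2 : v 3 < l 6 := c1.1
  have c3 : r 3 < v 6 := c1.2.2
  have c4 : v 3 ≤ r 0 := le_of_lt (lt_of_lt_of_le c2 a4)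
  have c5 : v 3 < l 5 := lt_of_lt_of_le c2 a2
  have c6 : r 3 < v 5 := lt_of_lt_of_le c3 c0
  have c7 : ¬ S2 l v r := fun z => not_lt.mpr c4 z.2.2
  have c8 : r 3 ≤ l 5 := not_lt.mp fun z => h.n3_5 c5 z c6
  have c9 : l 0 < r 3 := (h.e2.resolve_left c7).2.1
  not_lt.mpr c8 (lt_trans a0 c9)

theorem L77 {l v r : ℕ → ℝ} (h : H l v r) (a0 : S5 l v r) (a1 : l 6 ≤ l 5) (a2 : r 6 < r 5) (a3 : l 6 < r 4) (a4 : v 4 < l 0) (a5 : r 4 < v 0) (a6 : l 6 ≤ r 0) (a7 : l 0 < r 1) : False :=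
  have c0 : l 5 ≤ r 1 := not_lt.mp fun z => L52 h z
  have c1 : l 5 < r 1 := not_le.mp fun z => L51 h z
  have c2 : r 1 < v 6 := a0.2.2
  have c3 : v 1 < l 6 := a0.1
  have c4 : l 0 < v 6 := lt_trans a7 c2
  have c5 : l 5 < v 6 := lt_of_le_of_lt c0 c2
  have c6 : l 0 ≤ r 6 := not_lt.mp fun z => L40 h z c4
  have c7 : l 0 ≤ l 5 := not_lt.mp fun z => L76 h z c6 a1 a2 a6
  have c8 : v 0 ≤ v 5 := not_lt.mp fun z => not_lt.mpr c7 (h.pvl5_0 z)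
  have c9 : v 4 < l 5 := lt_of_lt_of_le a4 c7
  have c10 : r 4 < v 5 := lt_of_lt_of_le a5 c8
  have c11 : r 4 ≤ l 5 := not_lt.mp fun z => h.n4_5 c9 z c10
  have c12 : r 4 ≤ r 1 := le_of_lt (lt_of_le_of_lt c11 c1)
  have c13 : r 4 < v 6 := lt_of_le_of_lt c11 c5
  have c14 : l 4 ≤ l 1 := not_lt.mp fun z => not_lt.mpr c12 (h.plr1_4 z)
  have c15 : l 6 ≤ v 4 := not_lt.mp fun z => h.n4_6 z a3 c13
  have c16 : v 4 ≤ v 1 := not_lt.mp fun z => not_lt.mpr c14 (h.pvl1_4 z)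
  not_lt.mpr (le_trans c15 c16) c3

theorem L78 {l v r : ℕ → ℝ} (h : H l v r) (a0 : r 6 < r 0) (a1 : v 4 < r 1) (a2 : v 7 < v 5) (a3 : r 7 < r 1) (a4 : l 0 < r 1) : False :=
  have c0 : v 7 ≤ r 7 := not_lt.mp fun z => L23 h z
  have c1 : l 4 ≤ v 4 := not_lt.mp fun z => L24 h z
  have c2 : l 6 ≤ r 6 := not_lt.mp fun z => L22 h z
  have c3 : v 4 ≤ r 4 := not_lt.mp fun z => L9 h z
  have c4 : l 5 < r 1 := not_le.mp fun z => L51 h z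
  have c5 : l 3 ≤ r 3 := not_lt.mp fun z => L34 h z
  have c6 : v 4 ≤ r 1 := le_of_lt a1
  have c7 : l 4 ≤ r 1 := le_of_lt (lt_of_le_of_lt c1 a1)
  have c8 : l 7 < l 5 := h.pvl7_5 a2
  have c9 : r 7 < r 5 := h.plr7_5 c8
  have c10 : v 7 ≤ r 1 := le_of_lt (lt_of_le_of_lt c0 a3)
  have c11 : ¬ S6 l v r := fun z => not_lt.mpr c10 z.2.2
  have c12 : l 1 < r 7 := (h.e6.resolve_left c11).2.1
  have c13 : l 1 ≤ r 7 := le_of_lt c12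
  have c14 : l 6 < l 0 := h.prl6_0 a0
  have c15 : l 6 < r 0 := lt_of_le_of_lt c2 a0
  have c16 : l 6 ≤ r 0 := not_lt.mp fun z => L26 h a0 z
  have c17 : l 6 ≤ l 0 := le_of_lt c14
  have c18 : v 6 < v 0 := h.plv6_0 c14
  have c19 : l 7 ≤ l 6 := not_lt.mp fun z => L61 h z a0 c7 c8 a3
  have c20 : r 7 ≤ r 6 := not_lt.mp fun z => not_lt.mpr c19 (h.prl6_7 z)
  have c21 : v 7 ≤ v 6 := not_lt.mp fun z => not_lt.mpr c19 (h.pvl6_7 z)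
  have c22 : l 7 ≤ r 0 := le_of_lt (lt_of_le_of_lt c19 c15)
  have c23 : ¬ S9 l v r := fun z => L62 h z c22 c19 c17
  have c24 : r 7 < v 4 := (h.e9.resolve_left c23).2.2
  have c25 : r 7 ≤ r 4 := le_of_lt (lt_of_lt_of_le c24 c3)
  have c26 : l 1 ≤ v 4 := le_of_lt (lt_of_le_of_lt c13 c24)
  have c27 : l 1 ≤ r 4 := le_trans c13 c25
  have c28 : l 4 < r 7 := (h.e9.resolve_left c23).2.1
  have c29 : l 4 < r 5 := lt_trans c28 c9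
  have c30 : l 4 < r 6 := lt_of_lt_of_le c28 c20
  have c31 : ¬ S3 l v r := fun z => L63 h z c30 a0
  have c32 : r 4 < v 0 := (h.e3.resolve_left c31).2.2
  have c33 : l 0 < r 4 := (h.e3.resolve_left c31).2.1
  have c34 : v 4 < l 0 := (h.e3.resolve_left c31).1
  have c35 : v 4 ≤ v 0 := not_lt.mp fun z => L38 h c32 z
  have c36 : l 1 ≤ v 0 := le_of_lt (lt_of_le_of_lt c27 c32)
  have c37 : l 6 < r 4 := lt_trans c14 c33
  have c38 : l 1 ≤ l 0 := le_of_lt (lt_of_le_of_lt c26 c34)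
  have c39 : ¬ S0 l v r := fun z => not_lt.mpr c36 z.1
  have c40 : v 1 ≤ v 0 := not_lt.mp fun z => not_lt.mpr c38 (h.pvl0_1 z)
  have c41 : r 1 ≤ r 0 := not_lt.mp fun z => not_lt.mpr c38 (h.prl0_1 z)
  have c42 : r 1 < v 0 := (h.e0.resolve_left c39).2.2
  have c43 : v 0 ≤ r 2 := not_lt.mp fun z => L74 h z c42 c35 c34 c33 c28 c24 c21 c20 c14 c6 a2 a3 a4
  have c44 : l 1 ≤ r 2 := le_trans c36 c43
  have c45 : l 5 ≤ r 0 := le_of_lt (lt_of_lt_of_le c4 c41)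
  have c46 : S1 l v r := h.e1.resolve_right fun z => not_lt.mpr c43 z.2.2
  have c47 : v 4 ≤ r 6 := not_lt.mp fun z => L65 h z c44 c35 c34 c33 c30 c29 c24 c21 c18 c6 a2 c12
  have c48 : v 0 < l 2 := c46.1
  have c49 : r 0 < v 2 := c46.2.2
  have c50 : v 6 < l 2 := lt_trans c18 c48
  have c51 : v 1 ≤ l 2 := le_of_lt (lt_of_le_of_lt c40 c48)
  have c52 : r 6 < v 2 := lt_trans a0 c49
  have c53 : l 5 ≤ v 2 := le_of_lt (lt_of_le_of_lt c45 c49)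
  have c54 : r 6 ≤ l 2 := not_lt.mp fun z => h.n6_2 c50 z c52
  have c55 : ¬ S7 l v r := fun z => not_lt.mpr c53 z.1
  have c56 : l 2 < r 5 := (h.e7.resolve_left c55).2.1
  have c57 : v 1 ≤ r 5 := le_of_lt (lt_of_le_of_lt c51 c56)
  have c58 : r 6 < r 5 := lt_of_le_of_lt c54 c56
  have c59 : r 6 ≤ r 5 := le_of_lt (lt_of_le_of_lt c54 c56)
  have c60 : S4 l v r := h.e4.resolve_right fun z => not_lt.mpr c57 z.2.2
  have c61 : l 6 ≤ l 5 := not_lt.mp fun z => not_lt.mpr c59 (h.plr5_6 z)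
  have c62 : ¬ S5 l v r := fun z => L77 h z c61 c58 c37 c34 c32 c16 a4
  have c63 : v 6 < l 1 := (h.e5.resolve_left c62).1
  have c64 : v 6 ≤ l 0 := le_of_lt (lt_of_lt_of_le c63 c38)
  have c65 : l 3 < r 7 := not_le.mp fun z => L71 h z c63 c60 c47 c42 c37 c33 c28 c13
  have c66 : v 6 < l 3 := not_le.mp fun z => L49 h z c64 c18
  have c67 : v 6 ≤ r 3 := le_of_lt (lt_of_lt_of_le c66 c5)
  have c68 : v 7 < l 3 := lt_of_le_of_lt c21 c66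
  have c69 : ¬ S8 l v r := fun z => not_lt.mpr c67 z.2.2
  have c70 : v 3 ≤ r 7 := not_lt.mp fun z => h.n7_3 c68 c65 z
  have c71 : r 6 < v 3 := (h.e8.resolve_left c69).2.2
  not_lt.mpr (le_trans c70 c20) c71

theorem L79 {l v r : ℕ → ℝ} (h : H l v r) (a0 : r 6 ≤ l 2) (a1 : r 0 ≤ r 6) : False :=
  have c0 : l 0 ≤ r 0 := not_lt.mp fun z => L33 h z
  have c1 : l 0 ≤ r 6 := le_trans c0 a1
  have c2 : r 6 ≤ v 2 := not_lt.mp fun z => L5 h z a0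
  have c3 : r 0 ≤ l 2 := le_trans a1 a0
  have c4 : l 0 ≤ v 2 := le_trans c1 c2
  have c5 : ¬ S1 l v r := fun z => not_lt.mpr c3 z.2.1
  not_lt.mpr c4 (h.e1.resolve_left c5).1

theorem L80 {l v r : ℕ → ℝ} (h : H l v r) (a0 : r 6 < r 5) (a1 : r 2 ≤ l 6) (a2 : v 2 ≤ r 6) : False :=
  have c0 : l 6 < l 5 := h.prl6_5 a0
  have c1 : v 2 ≤ r 5 := le_of_lt (lt_of_le_of_lt a2 a0)
  have c2 : r 2 ≤ l 5 := le_of_lt (lt_of_le_of_lt a1 c0)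
  have c3 : S7 l v r := h.e7.resolve_right fun z => not_lt.mpr c1 z.2.2
  not_lt.mpr c2 c3.2.1

theorem L81 {l v r : ℕ → ℝ} (h : H l v r) (a0 : ¬ S8 l v r) (a1 : r 0 ≤ r 5) (a2 : v 5 < v 6) (a3 : r 5 ≤ r 6) (a4 : l 0 ≤ r 6) : False :=
  have c0 : r 6 < v 3 := (h.e8.resolve_left a0).2.2
  have c1 : v 6 < l 3 := (h.e8.resolve_left a0).1
  have c2 : l 0 ≤ v 3 := le_of_lt (lt_of_le_of_lt a4 c0)
  have c3 : r 5 < v 3 := lt_of_le_of_lt a3 c0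
  have c4 : v 5 < l 3 := lt_trans a2 c1
  have c5 : S2 l v r := h.e2.resolve_right fun z => not_lt.mpr c2 z.1
  have c6 : r 5 ≤ l 3 := not_lt.mp fun z => h.n5_3 c4 z c3
  have c7 : l 3 < r 0 := c5.2.1
  not_lt.mpr (le_trans a1 c6) c7

theorem L82 {l v r : ℕ → ℝ} (h : H l v r) (a0 : l 0 ≤ l 5) (a1 : l 6 ≤ r 0) (a2 : v 5 < v 6) (a3 : r 5 ≤ r 6) (a4 : l 0 ≤ r 6) : False :=
  have c0 : l 5 ≤ l 6 := not_lt.mp fun z => not_lt.mpr a3 (h.plr6_5 z)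
  have c1 : r 0 ≤ r 5 := not_lt.mp fun z => not_lt.mpr a0 (h.prl5_0 z)
  have c2 : v 0 ≤ v 5 := not_lt.mp fun z => not_lt.mpr a0 (h.pvl5_0 z)
  have c3 : S8 l v r := Classical.byContradiction fun z => L81 h z c1 a2 a3 a4
  have c4 : v 3 < l 6 := c3.1
  have c5 : l 6 < r 3 := c3.2.1
  have c6 : v 3 ≤ r 0 := le_of_lt (lt_of_lt_of_le c4 a1)
  have c7 : l 5 < r 3 := lt_of_le_of_lt c0 c5
  have c8 : ¬ S2 l v r := fun z => not_lt.mpr c6 z.2.2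
  have c9 : r 3 < v 0 := (h.e2.resolve_left c8).2.2
  have c10 : v 3 < l 0 := (h.e2.resolve_left c8).1
  have c11 : r 3 < v 5 := lt_of_lt_of_le c9 c2
  have c12 : v 3 < l 5 := lt_of_lt_of_le c10 a0
  h.n3_5 c12 c7 c11

theorem L83 {l v r : ℕ → ℝ} (h : H l v r) (a0 : l 5 ≤ v 4) (a1 : v 4 < v 5) (a2 : r 4 ≤ l 6) (a3 : v 4 < v 6) (a4 : l 7 ≤ l 5) (a5 : l 1 ≤ r 7) : False :=
  have c0 : l 7 ≤ v 4 := le_trans a4 a0
  have c1 : ¬ S9 l v r := fun z => not_lt.mpr c0 z.1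
  have c2 : r 7 < v 4 := (h.e9.resolve_left c1).2.2
  have c3 : l 1 ≤ v 4 := le_of_lt (lt_of_le_of_lt a5 c2)
  have c4 : l 1 ≤ v 6 := le_of_lt (lt_of_le_of_lt c3 a3)
  have c5 : l 1 ≤ v 5 := le_of_lt (lt_of_le_of_lt c3 a1)
  have c6 : S5 l v r := h.e5.resolve_right fun z => not_lt.mpr c4 z.1
  have c7 : S4 l v r := h.e4.resolve_right fun z => not_lt.mpr c5 z.1
  have c8 : l 6 < r 1 := c6.2.1
  have c9 : v 1 < l 5 := c7.1
  have c10 : r 4 < r 1 := lt_of_le_of_lt a2 c8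
  have c11 : v 1 ≤ v 4 := le_of_lt (lt_of_lt_of_le c9 a0)
  have c12 : l 4 < l 1 := h.prl4_1 c10
  not_lt.mpr c11 (h.plv4_1 c12)

theorem L84 {l v r : ℕ → ℝ} (h : H l v r) (a0 : v 5 ≤ r 4) (a1 : v 4 < v 5) (a2 : r 4 ≤ l 6) (a3 : v 4 < v 6) (a4 : v 7 ≤ v 5) (a5 : l 1 ≤ r 7) : False :=
  have c0 : v 7 ≤ r 4 := le_trans a4 a0
  have c1 : v 5 ≤ l 6 := le_trans a0 a2
  have c2 : ¬ S9 l v r := fun z => not_lt.mpr c0 z.2.2
  have c3 : r 7 < v 4 := (h.e9.resolve_left c2).2.2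
  have c4 : l 1 ≤ v 4 := le_of_lt (lt_of_le_of_lt a5 c3)
  have c5 : l 1 ≤ v 6 := le_of_lt (lt_of_le_of_lt c4 a3)
  have c6 : l 1 ≤ v 5 := le_of_lt (lt_of_le_of_lt c4 a1)
  have c7 : S5 l v r := h.e5.resolve_right fun z => not_lt.mpr c5 z.1
  have c8 : S4 l v r := h.e4.resolve_right fun z => not_lt.mpr c6 z.1
  have c9 : l 6 < r 1 := c7.2.1
  have c10 : r 1 < v 5 := c8.2.2
  not_lt.mpr c1 (lt_trans c9 c10)

theorem L85 {l v r : ℕ → ℝ} (h : H l v r) (a0 : S7 l v r) (a1 : r 2 ≤ l 6) (a2 : v 4 < r 2) (a3 : v 2 < l 0) (a4 : r 2 < v 0) (a5 : r 4 ≤ l 6) (a6 : l 0 < r 4) (a7 : v 4 < v 6) (a8 : l 0 ≤ r 6) (a9 : v 7 < v 5) (a10 : l 1 ≤ r 7) : False :=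
  have c0 : l 6 < v 6 := h.u6_0
  have c1 : v 0 ≤ r 0 := not_lt.mp fun z => L39 h z
  have c2 : v 2 ≤ r 6 := le_of_lt (lt_of_lt_of_le a3 a8)
  have c3 : r 5 ≤ r 6 := not_lt.mp fun z => L80 h z a1 c2
  have c4 : l 7 < l 5 := h.pvl7_5 a9
  have c5 : l 7 ≤ l 5 := le_of_lt c4
  have c6 : v 7 ≤ v 5 := le_of_lt a9
  have c7 : l 5 < r 2 := a0.2.1
  have c8 : r 2 < v 5 := a0.2.2
  have c9 : l 5 < v 0 := lt_trans c7 a4
  have c10 : l 7 < r 2 := lt_trans c4 c7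
  have c11 : l 5 < l 6 := lt_of_lt_of_le c7 a1
  have c12 : v 4 < v 5 := lt_trans a2 c8
  have c13 : l 7 < l 0 := not_le.mp fun z => L60 h z c10 a3 a4
  have c14 : v 5 < v 6 := h.plv5_6 c11
  have c15 : r 7 < r 0 := h.plr7_0 c13
  have c16 : v 7 < v 0 := h.plv7_0 c13
  have c17 : l 1 ≤ r 0 := le_of_lt (lt_of_le_of_lt a10 c15)
  have c18 : v 4 < l 5 := not_le.mp fun z => L83 h z c12 a5 a7 c5 a10
  have c19 : r 4 < v 5 := not_le.mp fun z => L84 h z c12 a5 a7 c6 a10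
  have c20 : r 4 ≤ l 5 := not_lt.mp fun z => h.n4_5 c18 z c19
  have c21 : l 0 ≤ l 5 := le_of_lt (lt_of_lt_of_le a6 c20)
  have c22 : r 0 ≤ r 5 := not_lt.mp fun z => not_lt.mpr c21 (h.prl5_0 z)
  have c23 : r 0 < l 6 := not_le.mp fun z => L82 h c21 z c14 c3 a8
  have c24 : S8 l v r := Classical.byContradiction fun z => L81 h z c22 c14 c3 a8
  have c25 : r 0 < v 6 := lt_trans c23 c0
  have c26 : v 0 ≤ l 6 := le_of_lt (lt_of_le_of_lt c1 c23)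
  have c27 : v 3 < l 6 := c24.1
  have c28 : l 6 < r 3 := c24.2.1
  have c29 : l 1 ≤ v 6 := le_of_lt (lt_of_le_of_lt c17 c25)
  have c30 : v 0 ≤ r 3 := le_of_lt (lt_of_le_of_lt c26 c28)
  have c31 : v 3 ≤ l 6 := le_of_lt c27
  have c32 : S5 l v r := h.e5.resolve_right fun z => not_lt.mpr c29 z.1
  have c33 : S2 l v r := h.e2.resolve_right fun z => not_lt.mpr c30 z.2.2
  have c34 : l 6 < r 1 := c32.2.1
  have c35 : v 0 < l 3 := c33.1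
  have c36 : l 3 < r 0 := c33.2.1
  have c37 : r 0 < v 3 := c33.2.2
  have c38 : v 3 ≤ r 1 := le_of_lt (lt_of_le_of_lt c31 c34)
  have c39 : v 7 < l 3 := lt_trans c16 c35
  have c40 : l 5 < l 3 := lt_trans c9 c35
  have c41 : l 3 < r 5 := lt_of_lt_of_le c36 c22
  have c42 : r 7 < v 3 := lt_trans c15 c37
  have c43 : r 7 ≤ l 3 := not_lt.mp fun z => h.n7_3 c39 z c42
  have c44 : v 5 < v 3 := h.plv5_3 c40
  have c45 : l 1 ≤ l 3 := le_trans a10 c43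
  have c46 : v 5 ≤ r 1 := le_of_lt (lt_of_lt_of_le c44 c38)
  have c47 : v 1 ≤ v 3 := not_lt.mp fun z => not_lt.mpr c45 (h.pvl3_1 z)
  have c48 : ¬ S4 l v r := fun z => not_lt.mpr c46 z.2.2
  have c49 : v 5 < l 1 := (h.e4.resolve_left c48).1
  have c50 : r 5 < v 1 := (h.e4.resolve_left c48).2.2
  have c51 : v 5 < l 3 := lt_of_lt_of_le c49 c45
  have c52 : r 5 < v 3 := lt_of_lt_of_le c50 c47
  h.n5_3 c51 c41 c52

theorem L86 {l v r : ℕ → ℝ} (h : H l v r) (a0 : ¬ S1 l v r) (a1 : v 4 < l 0) (a2 : r 0 ≤ r 6) (a3 : v 7 < v 5) (a4 : l 1 ≤ r 7) : False :=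
  have c0 : l 6 < v 6 := h.u6_0
  have c1 : l 0 ≤ r 0 := not_lt.mp fun z => L33 h z
  have c2 : l 0 ≤ l 6 := not_lt.mp fun z => not_lt.mpr a2 (h.plr6_0 z)
  have c3 : v 4 < l 6 := lt_of_lt_of_le a1 c2
  have c4 : v 0 ≤ v 6 := not_lt.mp fun z => not_lt.mpr c2 (h.pvl6_0 z)
  have c5 : v 4 ≤ r 0 := le_of_lt (lt_of_lt_of_le a1 c1)
  have c6 : ¬ S3 l v r := fun z => not_lt.mpr c5 z.2.2
  have c7 : r 4 < v 0 := (h.e3.resolve_left c6).2.2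
  have c8 : r 4 < v 6 := lt_of_lt_of_le c7 c4
  have c9 : r 4 ≤ l 6 := not_lt.mp fun z => h.n4_6 c3 z c8
  have c10 : l 0 < r 4 := (h.e3.resolve_left c6).2.1
  have c11 : l 0 < v 6 := lt_of_le_of_lt c2 c0
  have c12 : v 4 < v 6 := lt_trans a1 c11
  have c13 : l 0 ≤ v 6 := not_lt.mp fun z => L31 h z c2
  have c14 : l 0 ≤ r 6 := le_trans c1 a2
  have c15 : l 7 < l 5 := h.pvl7_5 a3
  have c16 : r 7 < r 5 := h.plr7_5 c15
  have c17 : l 1 ≤ r 5 := le_of_lt (lt_of_le_of_lt a4 c16)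
  have c18 : v 7 ≤ v 5 := le_of_lt a3
  have c19 : r 2 < v 0 := (h.e1.resolve_left a0).2.2
  have c20 : v 2 < l 0 := (h.e1.resolve_left a0).1
  have c21 : l 0 < r 2 := (h.e1.resolve_left a0).2.1
  have c22 : r 2 < v 6 := lt_of_lt_of_le c19 c4
  have c23 : v 2 < l 6 := lt_of_lt_of_le c20 c2
  have c24 : v 2 ≤ v 6 := le_of_lt (lt_of_lt_of_le c20 c13)
  have c25 : v 4 < r 2 := lt_trans a1 c21
  have c26 : r 2 ≤ l 6 := not_lt.mp fun z => h.n2_6 c23 z c22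
  have c27 : ¬ S7 l v r := fun z => L85 h z c26 c25 c20 c19 c9 c10 c12 c14 a3 a4
  have c28 : r 5 < v 2 := (h.e7.resolve_left c27).2.2
  have c29 : v 5 < l 2 := (h.e7.resolve_left c27).1
  have c30 : l 1 < v 2 := lt_of_le_of_lt c17 c28
  have c31 : r 7 < v 2 := lt_trans c16 c28
  have c32 : v 7 < l 2 := lt_of_le_of_lt c18 c29
  have c33 : l 1 ≤ v 6 := le_of_lt (lt_of_lt_of_le c30 c24)
  have c34 : r 7 ≤ l 2 := not_lt.mp fun z => h.n7_2 c32 z c31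
  have c35 : S5 l v r := h.e5.resolve_right fun z => not_lt.mpr c33 z.1
  have c36 : l 1 ≤ l 2 := le_trans a4 c34
  have c37 : l 6 < r 1 := c35.2.1
  have c38 : r 1 ≤ r 2 := not_lt.mp fun z => not_lt.mpr c36 (h.prl2_1 z)
  not_lt.mpr (le_trans c38 c26) c37

theorem L87 {l v r : ℕ → ℝ} (h : H l v r) (a0 : ¬ S7 l v r) (a1 : l 2 < r 7) (a2 : v 7 < v 5) : False :=
  have c0 : l 7 < l 5 := h.pvl7_5 a2
  have c1 : r 7 < r 5 := h.plr7_5 c0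
  have c2 : v 7 ≤ v 5 := le_of_lt a2
  have c3 : r 5 < v 2 := (h.e7.resolve_left a0).2.2
  have c4 : v 5 < l 2 := (h.e7.resolve_left a0).1
  have c5 : r 7 < v 2 := lt_trans c1 c3
  have c6 : v 7 < l 2 := lt_of_le_of_lt c2 c4
  h.n7_2 c6 a1 c5

theorem L88 {l v r : ℕ → ℝ} (h : H l v r) (a0 : v 3 < v 1) (a1 : l 5 < r 3) (a2 : r 1 < v 5) (a3 : v 1 < l 5) : False :=
  have c0 : l 3 < l 1 := h.pvl3_1 a0
  have c1 : v 3 < l 5 := lt_trans a0 a3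
  have c2 : r 3 < r 1 := h.plr3_1 c0
  have c3 : v 5 ≤ r 3 := not_lt.mp fun z => h.n3_5 c1 a1 z
  not_lt.mpr c3 (lt_trans c2 a2)

theorem L89 {l v r : ℕ → ℝ} (h : H l v r) (a0 : r 2 ≤ l 6) (a1 : l 6 < r 1) (a2 : r 0 ≤ r 5) (a3 : S1 l v r) (a4 : l 0 ≤ r 6) (a5 : v 7 < v 5) (a6 : ¬ S6 l v r) : False :=
  have c0 : l 2 ≤ r 2 := not_lt.mp fun z => L11 h z
  have c1 : l 6 < r 6 := not_le.mp fun z => L21 h z
  have c2 : v 2 ≤ r 2 := not_lt.mp fun z => L12 h z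
  have c3 : r 0 < v 2 := a3.2.2
  have c4 : r 0 ≤ r 2 := not_lt.mp fun z => L37 h z c3
  have c5 : v 0 < l 2 := a3.1
  have c6 : v 0 ≤ l 2 := le_of_lt c5
  have c7 : v 0 ≤ r 2 := le_of_lt (lt_of_lt_of_le c5 c0)
  have c8 : l 1 < r 7 := (h.e6.resolve_left a6).2.1
  have c9 : l 1 ≤ r 7 := le_of_lt c8
  have c10 : r 2 < r 6 := lt_of_le_of_lt a0 c1
  have c11 : v 0 ≤ l 6 := le_trans c7 a0
  have c12 : r 2 < r 1 := lt_of_le_of_lt a0 a1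
  have c13 : v 2 ≤ r 6 := le_of_lt (lt_of_le_of_lt c2 c10)
  have c14 : v 0 ≤ r 1 := le_of_lt (lt_of_le_of_lt c11 a1)
  have c15 : l 2 < l 1 := h.prl2_1 c12
  have c16 : r 5 ≤ r 6 := not_lt.mp fun z => L80 h z a0 c13
  have c17 : S0 l v r := h.e0.resolve_right fun z => not_lt.mpr c14 z.2.2
  have c18 : l 2 < r 7 := lt_of_lt_of_le c15 c9
  have c19 : l 5 ≤ l 6 := not_lt.mp fun z => not_lt.mpr c16 (h.plr6_5 z)
  have c20 : l 1 < r 0 := c17.2.1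
  have c21 : l 1 ≤ r 2 := le_of_lt (lt_of_lt_of_le c20 c4)
  have c22 : S7 l v r := Classical.byContradiction fun z => L87 h z c18 a5
  have c23 : l 5 < r 2 := c22.2.1
  have c24 : r 2 < v 5 := c22.2.2
  have c25 : l 5 < l 6 := lt_of_lt_of_le c23 a0
  have c26 : l 1 ≤ v 5 := le_of_lt (lt_of_le_of_lt c21 c24)
  have c27 : v 5 < v 6 := h.plv5_6 c25
  have c28 : S4 l v r := h.e4.resolve_right fun z => not_lt.mpr c26 z.1
  have c29 : S8 l v r := Classical.byContradiction fun z => L81 h z a2 c27 c16 a4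
  have c30 : v 1 < l 5 := c28.1
  have c31 : r 1 < v 5 := c28.2.2
  have c32 : l 6 < r 3 := c29.2.1
  have c33 : l 5 < r 3 := lt_of_le_of_lt c19 c32
  have c34 : v 0 ≤ r 3 := le_of_lt (lt_of_le_of_lt c11 c32)
  have c35 : S2 l v r := h.e2.resolve_right fun z => not_lt.mpr c34 z.2.2
  have c36 : l 3 < r 0 := c35.2.1
  have c37 : l 3 < v 2 := lt_trans c36 c3
  have c38 : v 1 ≤ v 3 := not_lt.mp fun z => L88 h z c33 c31 c30
  have c39 : r 7 ≤ l 3 := not_lt.mp fun z => L53 h c38 z a6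
  have c40 : r 7 < r 0 := lt_of_le_of_lt c39 c36
  have c41 : r 7 < v 2 := lt_of_le_of_lt c39 c37
  have c42 : l 7 < l 0 := h.prl7_0 c40
  have c43 : l 2 ≤ v 7 := not_lt.mp fun z => h.n7_2 z c18 c41
  have c44 : v 7 < v 0 := h.plv7_0 c42
  not_lt.mpr (le_trans c6 c43) c44

theorem L90 {l v r : ℕ → ℝ} (h : H l v r) (a0 : S7 l v r) (a1 : l 5 ≤ l 6) (a2 : l 6 < r 2) : False :=
  have c0 : v 5 ≤ v 6 := not_lt.mp fun z => not_lt.mpr a1 (h.pvl6_5 z)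
  have c1 : v 2 < l 5 := a0.1
  have c2 : r 2 < v 5 := a0.2.2
  have c3 : v 2 < l 6 := lt_of_lt_of_le c1 a1
  have c4 : r 2 < v 6 := lt_of_lt_of_le c2 c0
  h.n2_6 c3 a2 c4

theorem L91 {l v r : ℕ → ℝ} (h : H l v r) (a0 : l 5 ≤ l 6) (a1 : l 6 ≤ v 5) (a2 : l 6 < r 2) (a3 : l 0 ≤ l 5) (a4 : l 2 < r 0) (a5 : r 0 ≤ r 6) : False :=
  have c0 : l 0 ≤ r 0 := not_lt.mp fun z => L33 h z
  have c1 : l 2 < r 6 := not_le.mp fun z => L79 h z a5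
  have c2 : l 0 ≤ r 6 := le_trans c0 a5
  have c3 : r 5 ≤ r 6 := not_lt.mp fun z => not_lt.mpr a0 (h.prl6_5 z)
  have c4 : ¬ S7 l v r := fun z => L90 h z a0 a2
  have c5 : r 5 < v 2 := (h.e7.resolve_left c4).2.2
  have c6 : v 5 < l 2 := (h.e7.resolve_left c4).1
  have c7 : v 5 < r 0 := lt_trans c6 a4
  have c8 : l 6 ≤ r 0 := le_of_lt (lt_of_le_of_lt a1 c7)
  have c9 : v 6 ≤ v 5 := not_lt.mp fun z => L82 h a3 c8 z c3 c2
  have c10 : l 6 ≤ l 5 := not_lt.mp fun z => not_lt.mpr c9 (h.plv5_6 z)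
  have c11 : v 6 < l 2 := lt_of_le_of_lt c9 c6
  have c12 : r 6 ≤ r 5 := not_lt.mp fun z => not_lt.mpr c10 (h.prl5_6 z)
  have c13 : v 2 ≤ r 6 := not_lt.mp fun z => h.n6_2 c11 c1 z
  not_lt.mpr (le_trans c13 c12) c5

theorem L92 {l v r : ℕ → ℝ} (h : H l v r) (a0 : ¬ S7 l v r) (a1 : l 6 < l 5) (a2 : l 2 < r 6) : False :=
  have c0 : v 6 < v 5 := h.plv6_5 a1
  have c1 : r 6 < r 5 := h.plr6_5 a1
  have c2 : r 5 < v 2 := (h.e7.resolve_left a0).2.2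
  have c3 : v 5 < l 2 := (h.e7.resolve_left a0).1
  have c4 : r 6 < v 2 := lt_trans c1 c2
  have c5 : v 6 < l 2 := lt_trans c0 c3
  h.n6_2 c5 a2 c4

theorem L93 {l v r : ℕ → ℝ} (h : H l v r) (a0 : r 1 ≤ r 3) (a1 : r 0 ≤ v 6) (a2 : v 0 < l 5) (a3 : v 6 ≤ v 5) (a4 : l 6 ≤ l 5) : False :=
  have c0 : l 5 ≤ r 1 := not_lt.mp fun z => L52 h z
  have c1 : l 5 < r 1 := not_le.mp fun z => L51 h z
  have c2 : l 5 ≤ r 3 := le_trans c0 a0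
  have c3 : l 5 < r 3 := lt_of_lt_of_le c1 a0
  have c4 : v 0 ≤ r 3 := le_of_lt (lt_of_lt_of_le a2 c2)
  have c5 : S2 l v r := h.e2.resolve_right fun z => not_lt.mpr c4 z.2.2
  have c6 : l 3 < r 0 := c5.2.1
  have c7 : l 3 ≤ v 6 := le_of_lt (lt_of_lt_of_le c6 a1)
  have c8 : S8 l v r := h.e8.resolve_right fun z => not_lt.mpr c7 z.1
  have c9 : v 3 < l 6 := c8.1
  have c10 : r 3 < v 6 := c8.2.2
  have c11 : v 3 < l 5 := lt_of_lt_of_le c9 a4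
  have c12 : r 3 < v 5 := lt_of_lt_of_le c10 a3
  h.n3_5 c11 c3 c12

theorem L94 {l v r : ℕ → ℝ} (h : H l v r) (a0 : S2 l v r) (a1 : l 3 < r 7) (a2 : r 7 < r 0) : False :=
  have c0 : l 7 < l 0 := h.prl7_0 a2
  have c1 : v 7 < v 0 := h.plv7_0 c0
  have c2 : v 0 < l 3 := a0.1
  have c3 : r 0 < v 3 := a0.2.2
  have c4 : v 7 < l 3 := lt_trans c1 c2
  have c5 : r 7 < v 3 := lt_trans a2 c3
  h.n7_3 c4 a1 c5

theorem L95 {l v r : ℕ → ℝ} (h : H l v r) (a0 : l 6 < l 5) (a1 : r 7 < r 0) (a2 : l 5 ≤ v 6) (a3 : r 1 ≤ r 6) (a4 : S1 l v r) (a5 : l 2 < r 6) (a6 : l 1 ≤ r 7) : False :=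
  have c0 : v 3 < r 3 := h.u3_1
  have c1 : v 0 < l 2 := a4.1
  have c2 : v 0 ≤ l 2 := le_of_lt c1
  have c3 : v 0 < v 2 := not_le.mp fun z => L15 h c1 z
  have c4 : r 0 < v 2 := a4.2.2
  have c5 : v 6 < v 5 := h.plv6_5 a0
  have c6 : l 6 ≤ l 5 := le_of_lt a0
  have c7 : v 6 ≤ v 5 := le_of_lt c5
  have c8 : S7 l v r := Classical.byContradiction fun z => L92 h z a0 a5
  have c9 : v 2 < l 5 := c8.1
  have c10 : v 0 < l 5 := lt_trans c3 c9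
  have c11 : r 0 < l 5 := lt_trans c4 c9
  have c12 : v 2 < v 6 := lt_of_lt_of_le c9 a2
  have c13 : r 0 ≤ v 6 := le_of_lt (lt_of_lt_of_le c11 a2)
  have c14 : l 2 < l 6 := h.pvl2_6 c12
  have c15 : v 0 ≤ l 6 := le_of_lt (lt_of_le_of_lt c2 c14)
  have c16 : r 3 < r 1 := not_le.mp fun z => L93 h z c13 c10 c7 c6
  have c17 : v 3 < r 1 := lt_trans c0 c16
  have c18 : l 3 < l 1 := h.prl3_1 c16
  have c19 : v 3 ≤ r 6 := le_of_lt (lt_of_lt_of_le c17 a3)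
  have c20 : l 3 < r 7 := lt_of_lt_of_le c18 a6
  have c21 : S8 l v r := h.e8.resolve_right fun z => not_lt.mpr c19 z.2.2
  have c22 : ¬ S2 l v r := fun z => L94 h z c20 a1
  have c23 : l 6 < r 3 := c21.2.1
  have c24 : r 3 < v 0 := (h.e2.resolve_left c22).2.2
  not_lt.mpr c15 (lt_trans c23 c24)

theorem L96 {l v r : ℕ → ℝ} (h : H l v r) (a0 : S5 l v r) (a1 : l 0 ≤ l 5) (a2 : S1 l v r) (a3 : r 0 ≤ r 6) (a4 : v 7 < v 5) (a5 : ¬ S6 l v r) : False :=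
  have c0 : l 0 ≤ r 0 := not_lt.mp fun z => L33 h z
  have c1 : v 6 ≤ r 6 := not_lt.mp fun z => L25 h z
  have c2 : l 5 ≤ r 1 := not_lt.mp fun z => L52 h z
  have c3 : l 6 ≤ v 6 := not_lt.mp fun z => L20 h z
  have c4 : v 0 ≤ v 5 := not_lt.mp fun z => not_lt.mpr a1 (h.pvl5_0 z)
  have c5 : r 0 ≤ r 5 := not_lt.mp fun z => not_lt.mpr a1 (h.prl5_0 z)
  have c6 : l 2 < r 0 := a2.2.1
  have c7 : l 2 < r 6 := not_le.mp fun z => L79 h z a3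
  have c8 : l 0 ≤ r 6 := le_trans c0 a3
  have c9 : l 1 < r 7 := (h.e6.resolve_left a5).2.1
  have c10 : l 1 ≤ r 7 := le_of_lt c9
  have c11 : r 7 < v 1 := (h.e6.resolve_left a5).2.2
  have c12 : v 7 < l 1 := (h.e6.resolve_left a5).1
  have c13 : r 1 < v 6 := a0.2.2
  have c14 : l 6 < r 1 := a0.2.1
  have c15 : r 1 ≤ r 6 := le_of_lt (lt_of_lt_of_le c13 c1)
  have c16 : l 5 ≤ v 6 := le_of_lt (lt_of_le_of_lt c2 c13)
  have c17 : l 6 ≤ r 1 := le_of_lt c14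
  have c18 : l 6 < r 2 := not_le.mp fun z => L89 h z c14 c5 a2 c8 a4 a5
  have c19 : l 1 ≤ l 2 := not_lt.mp fun z => L69 h z a0 c18
  have c20 : v 1 ≤ v 2 := not_lt.mp fun z => not_lt.mpr c19 (h.pvl2_1 z)
  have c21 : v 7 < l 2 := lt_of_lt_of_le c12 c19
  have c22 : r 7 < v 2 := lt_of_lt_of_le c11 c20
  have c23 : r 7 ≤ l 2 := not_lt.mp fun z => h.n7_2 c21 z c22
  have c24 : r 7 < r 0 := lt_of_le_of_lt c23 c6
  have c25 : l 5 ≤ l 6 := not_lt.mp fun z => L95 h z c24 c16 c15 a2 c7 c10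
  have c26 : r 5 ≤ r 6 := not_lt.mp fun z => not_lt.mpr c25 (h.prl6_5 z)
  have c27 : v 5 < l 6 := not_le.mp fun z => L91 h c25 z c18 a1 c6 a3
  have c28 : v 5 ≤ r 1 := le_of_lt (lt_of_lt_of_le c27 c17)
  have c29 : v 5 < v 6 := lt_of_lt_of_le c27 c3
  have c30 : v 0 ≤ l 6 := le_of_lt (lt_of_le_of_lt c4 c27)
  have c31 : ¬ S4 l v r := fun z => not_lt.mpr c28 z.2.2
  have c32 : S8 l v r := Classical.byContradiction fun z => L81 h z c5 c29 c26 c8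
  have c33 : v 5 < l 1 := (h.e4.resolve_left c31).1
  have c34 : r 5 < v 1 := (h.e4.resolve_left c31).2.2
  have c35 : l 6 < r 3 := c32.2.1
  have c36 : v 5 < r 7 := lt_of_lt_of_le c33 c10
  have c37 : v 0 ≤ r 3 := le_of_lt (lt_of_le_of_lt c30 c35)
  have c38 : S2 l v r := h.e2.resolve_right fun z => not_lt.mpr c37 z.2.2
  have c39 : l 3 < r 0 := c38.2.1
  have c40 : r 7 ≤ l 3 := not_lt.mp fun z => L94 h c38 z c24
  have c41 : l 3 < r 5 := lt_of_lt_of_le c39 c5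
  have c42 : l 1 ≤ l 3 := le_trans c10 c40
  have c43 : v 5 < l 3 := lt_of_lt_of_le c36 c40
  have c44 : v 1 ≤ v 3 := not_lt.mp fun z => not_lt.mpr c42 (h.pvl3_1 z)
  have c45 : v 3 ≤ r 5 := not_lt.mp fun z => h.n5_3 c43 c41 z
  not_lt.mpr (le_trans c44 c45) c34

theorem L97 {l v r : ℕ → ℝ} (h : H l v r) (a0 : r 7 ≤ l 2) (a1 : v 6 < r 7) (a2 : r 6 < v 1) (a3 : l 2 < r 6) (a4 : l 1 ≤ r 7) : False :=
  have c0 : l 1 ≤ l 2 := le_trans a4 a0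
  have c1 : v 6 < l 2 := lt_of_lt_of_le a1 a0
  have c2 : v 1 ≤ v 2 := not_lt.mp fun z => not_lt.mpr c0 (h.pvl2_1 z)
  have c3 : v 2 ≤ r 6 := not_lt.mp fun z => h.n6_2 c1 a3 z
  not_lt.mpr (le_trans c2 c3) a2

theorem L98 {l v r : ℕ → ℝ} (h : H l v r) (a0 : l 1 ≤ l 2) (a1 : l 2 < r 7) (a2 : ¬ S6 l v r) : False :=
  have c0 : r 7 < v 1 := (h.e6.resolve_left a2).2.2
  have c1 : v 7 < l 1 := (h.e6.resolve_left a2).1
  have c2 : v 1 ≤ v 2 := not_lt.mp fun z => not_lt.mpr a0 (h.pvl2_1 z)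
  have c3 : v 7 < l 2 := lt_of_lt_of_le c1 a0
  have c4 : r 7 < v 2 := lt_of_lt_of_le c0 c2
  h.n7_2 c3 a1 c4

theorem L99 {l v r : ℕ → ℝ} (h : H l v r) (a0 : S2 l v r) (a1 : r 0 ≤ r 7) (a2 : v 7 ≤ v 6) (a3 : r 7 ≤ r 6) (a4 : l 6 ≤ r 0) : False :=
  have c0 : l 3 < r 0 := a0.2.1
  have c1 : r 0 < v 3 := a0.2.2
  have c2 : l 3 < r 7 := lt_of_lt_of_le c0 a1
  have c3 : l 6 ≤ v 3 := le_of_lt (lt_of_le_of_lt a4 c1)
  have c4 : ¬ S8 l v r := fun z => not_lt.mpr c3 z.1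
  have c5 : r 6 < v 3 := (h.e8.resolve_left c4).2.2
  have c6 : v 6 < l 3 := (h.e8.resolve_left c4).1
  have c7 : r 7 < v 3 := lt_of_le_of_lt a3 c5
  have c8 : v 7 < l 3 := lt_of_le_of_lt a2 c6
  h.n7_3 c8 c2 c7

theorem L100 {l v r : ℕ → ℝ} (h : H l v r) (a0 : r 0 ≤ r 7) (a1 : l 7 ≤ l 6) (a2 : l 6 ≤ r 0) (a3 : l 0 ≤ r 6) : False :=
  have c0 : v 7 ≤ v 6 := not_lt.mp fun z => not_lt.mpr a1 (h.pvl6_7 z)
  have c1 : r 7 ≤ r 6 := not_lt.mp fun z => not_lt.mpr a1 (h.prl6_7 z)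
  have c2 : l 0 ≤ l 7 := not_lt.mp fun z => not_lt.mpr a0 (h.plr7_0 z)
  have c3 : v 0 ≤ v 7 := not_lt.mp fun z => not_lt.mpr c2 (h.pvl7_0 z)
  have c4 : ¬ S2 l v r := fun z => L99 h z a0 c0 c1 a2
  have c5 : r 3 < v 0 := (h.e2.resolve_left c4).2.2
  have c6 : v 3 < l 0 := (h.e2.resolve_left c4).1
  have c7 : r 3 < v 7 := lt_of_lt_of_le c5 c3
  have c8 : v 3 ≤ r 6 := le_of_lt (lt_of_lt_of_le c6 a3)
  have c9 : v 3 < l 7 := lt_of_lt_of_le c6 c2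
  have c10 : S8 l v r := h.e8.resolve_right fun z => not_lt.mpr c8 z.2.2
  have c11 : r 3 ≤ l 7 := not_lt.mp fun z => h.n3_7 c9 z c7
  have c12 : l 6 < r 3 := c10.2.1
  not_lt.mpr (le_trans c11 a1) c12

theorem L101 {l v r : ℕ → ℝ} (h : H l v r) (a0 : ¬ S5 l v r) (a1 : r 0 ≤ v 2) (a2 : v 0 ≤ l 2) (a3 : r 4 ≤ l 6) (a4 : v 4 ≤ v 6) (a5 : r 0 ≤ r 6) (a6 : l 1 < r 7) : False :=
  have c0 : l 0 ≤ r 0 := not_lt.mp fun z => L33 h z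
  have c1 : l 6 ≤ v 6 := not_lt.mp fun z => L20 h z
  have c2 : l 2 < r 6 := not_le.mp fun z => L79 h z a5
  have c3 : l 0 ≤ r 6 := le_trans c0 a5
  have c4 : l 1 ≤ r 7 := le_of_lt a6
  have c5 : v 6 < l 1 := (h.e5.resolve_left a0).1
  have c6 : r 6 < v 1 := (h.e5.resolve_left a0).2.2
  have c7 : v 6 ≤ r 7 := le_of_lt (lt_of_lt_of_le c5 c4)
  have c8 : l 6 ≤ l 1 := le_of_lt (lt_of_le_of_lt c1 c5)
  have c9 : v 6 < r 7 := lt_trans c5 a6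
  have c10 : l 0 ≤ v 1 := le_of_lt (lt_of_le_of_lt c3 c6)
  have c11 : v 4 ≤ r 7 := le_trans a4 c7
  have c12 : S0 l v r := h.e0.resolve_right fun z => not_lt.mpr c10 z.1
  have c13 : S9 l v r := h.e9.resolve_right fun z => not_lt.mpr c11 z.2.2
  have c14 : l 1 < r 0 := c12.2.1
  have c15 : l 7 < r 4 := c13.2.1
  have c16 : l 6 ≤ r 0 := le_of_lt (lt_of_le_of_lt c8 c14)
  have c17 : l 7 ≤ l 6 := le_of_lt (lt_of_lt_of_le c15 a3)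
  have c18 : l 2 < r 7 := not_le.mp fun z => L97 h z c9 c6 c2 c4
  have c19 : r 7 < r 0 := not_le.mp fun z => L100 h z c17 c16 c3
  have c20 : l 7 < l 0 := h.prl7_0 c19
  have c21 : r 7 < v 2 := lt_of_lt_of_le c19 a1
  have c22 : v 7 < v 0 := h.plv7_0 c20
  have c23 : l 2 ≤ v 7 := not_lt.mp fun z => h.n7_2 z c18 c21
  not_lt.mpr (le_trans a2 c23) c22

theorem L102 {l v r : ℕ → ℝ} (h : H l v r) (a0 : v 4 < l 0) (a1 : r 0 ≤ r 6) (a2 : v 7 < v 5) (a3 : ¬ S6 l v r) : False :=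
  have c0 : l 6 < v 6 := h.u6_0
  have c1 : l 0 ≤ r 0 := not_lt.mp fun z => L33 h z
  have c2 : l 0 ≤ l 6 := not_lt.mp fun z => not_lt.mpr a1 (h.plr6_0 z)
  have c3 : l 0 ≤ v 6 := not_lt.mp fun z => L31 h z c2
  have c4 : v 0 ≤ v 6 := not_lt.mp fun z => not_lt.mpr c2 (h.pvl6_0 z)
  have c5 : l 0 < v 6 := lt_of_le_of_lt c2 c0
  have c6 : l 7 < l 5 := h.pvl7_5 a2
  have c7 : l 7 ≤ l 5 := le_of_lt c6
  have c8 : v 7 ≤ v 5 := le_of_lt a2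
  have c9 : l 1 < r 7 := (h.e6.resolve_left a3).2.1
  have c10 : l 1 ≤ r 7 := le_of_lt c9
  have c11 : v 4 ≤ r 0 := le_of_lt (lt_of_lt_of_le a0 c1)
  have c12 : v 4 < l 6 := lt_of_lt_of_le a0 c2
  have c13 : v 4 < v 6 := lt_trans a0 c5
  have c14 : v 4 ≤ v 6 := le_of_lt (lt_of_lt_of_le a0 c3)
  have c15 : ¬ S3 l v r := fun z => not_lt.mpr c11 z.2.2
  have c16 : r 4 < v 0 := (h.e3.resolve_left c15).2.2
  have c17 : l 0 < r 4 := (h.e3.resolve_left c15).2.1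
  have c18 : r 4 ≤ v 0 := le_of_lt c16
  have c19 : r 4 < v 6 := lt_of_lt_of_le c16 c4
  have c20 : r 4 ≤ l 6 := not_lt.mp fun z => h.n4_6 c12 z c19
  have c21 : S1 l v r := Classical.byContradiction fun z => L86 h z a0 a1 a2 c10
  have c22 : v 0 < l 2 := c21.1
  have c23 : r 0 < v 2 := c21.2.2
  have c24 : r 4 ≤ l 2 := le_of_lt (lt_of_le_of_lt c18 c22)
  have c25 : v 0 ≤ l 2 := le_of_lt c22
  have c26 : r 0 ≤ v 2 := le_of_lt c23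
  have c27 : l 0 ≤ v 2 := le_of_lt (lt_of_le_of_lt c1 c23)
  have c28 : S5 l v r := Classical.byContradiction fun z => L101 h z c26 c25 c20 c14 a1 c9
  have c29 : l 5 < l 0 := not_le.mp fun z => L96 h c28 z c21 a1 a2 a3
  have c30 : l 5 ≤ v 2 := le_of_lt (lt_of_lt_of_le c29 c27)
  have c31 : l 5 < r 4 := lt_trans c29 c17
  have c32 : ¬ S7 l v r := fun z => not_lt.mpr c30 z.1
  have c33 : l 2 < r 5 := (h.e7.resolve_left c32).2.1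
  have c34 : r 4 < r 5 := lt_of_le_of_lt c24 c33
  have c35 : l 4 < l 5 := h.prl4_5 c34
  have c36 : v 4 < v 5 := h.plv4_5 c35
  have c37 : v 4 < l 5 := not_le.mp fun z => L83 h z c36 c20 c13 c7 c10
  have c38 : r 4 < v 5 := not_le.mp fun z => L84 h z c36 c20 c13 c8 c10
  h.n4_5 c37 c31 c38

theorem L103 {l v r : ℕ → ℝ} (h : H l v r) (a0 : l 5 < l 0) (a1 : l 4 < r 5) (a2 : r 0 ≤ v 4) (a3 : v 0 ≤ l 4) : False :=
  have c0 : v 5 < v 0 := h.plv5_0 a0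
  have c1 : r 5 < r 0 := h.plr5_0 a0
  have c2 : v 5 < l 4 := lt_of_lt_of_le c0 a3
  have c3 : r 5 < v 4 := lt_of_lt_of_le c1 a2
  h.n5_4 c2 a1 c3

theorem L104 {l v r : ℕ → ℝ} (h : H l v r) (a0 : l 5 ≤ v 4) (a1 : r 6 < l 5) (a2 : v 1 < l 5) (a3 : v 6 < l 1) (a4 : l 4 < r 6) : False :=
  have c0 : r 6 < v 4 := lt_of_lt_of_le a1 a0
  have c1 : v 1 ≤ v 4 := le_of_lt (lt_of_lt_of_le a2 a0)
  have c2 : l 4 ≤ v 6 := not_lt.mp fun z => h.n6_4 z a4 c0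
  have c3 : l 1 ≤ l 4 := not_lt.mp fun z => not_lt.mpr c1 (h.plv4_1 z)
  not_lt.mpr (le_trans c3 c2) a3

theorem L105 {l v r : ℕ → ℝ} (h : H l v r) (a0 : l 1 ≤ l 4) (a1 : ¬ S5 l v r) (a2 : l 4 < r 6) : False :=
  have c0 : r 6 < v 1 := (h.e5.resolve_left a1).2.2
  have c1 : v 6 < l 1 := (h.e5.resolve_left a1).1
  have c2 : v 1 ≤ v 4 := not_lt.mp fun z => not_lt.mpr a0 (h.pvl4_1 z)
  have c3 : v 6 < l 4 := lt_of_lt_of_le c1 a0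
  have c4 : r 6 < v 4 := lt_of_lt_of_le c0 c2
  h.n6_4 c3 a2 c4

theorem L106 {l v r : ℕ → ℝ} (h : H l v r) (a0 : r 0 ≤ v 2) (a1 : l 0 ≤ l 5) (a2 : v 7 < l 4) (a3 : r 7 < v 4) (a4 : l 1 < r 0) (a5 : r 0 ≤ r 6) (a6 : v 7 < v 5) (a7 : ¬ S6 l v r) : False :=
  have c0 : l 0 ≤ r 0 := not_lt.mp fun z => L33 h z
  have c1 : v 2 < r 2 := h.u2_1
  have c2 : l 0 ≤ v 4 := not_lt.mp fun z => L102 h z a5 a6 a7
  have c3 : S3 l v r := h.e3.resolve_right fun z => not_lt.mpr c2 z.1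
  have c4 : l 4 < r 0 := c3.2.1
  have c5 : l 4 < r 6 := lt_of_lt_of_le c4 a5
  have c6 : l 2 < r 6 := not_le.mp fun z => L79 h z a5
  have c7 : l 1 < r 7 := (h.e6.resolve_left a7).2.1
  have c8 : l 1 ≤ r 7 := le_of_lt c7
  have c9 : l 0 ≤ v 2 := le_trans c0 a0
  have c10 : r 0 ≤ r 2 := le_of_lt (lt_of_le_of_lt a0 c1)
  have c11 : S1 l v r := h.e1.resolve_right fun z => not_lt.mpr c9 z.1
  have c12 : l 1 ≤ r 2 := le_of_lt (lt_of_lt_of_le a4 c10)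
  have c13 : ¬ S5 l v r := fun z => L96 h z a1 c11 a5 a6 a7
  have c14 : v 6 < l 1 := (h.e5.resolve_left c13).1
  have c15 : r 6 < v 1 := (h.e5.resolve_left c13).2.2
  have c16 : v 6 < r 7 := lt_trans c14 c7
  have c17 : l 2 < r 7 := not_le.mp fun z => L97 h z c16 c15 c6 c8
  have c18 : S7 l v r := Classical.byContradiction fun z => L87 h z c17 a6
  have c19 : l 5 < r 2 := c18.2.1
  have c20 : r 2 < v 5 := c18.2.2
  have c21 : l 1 ≤ v 5 := le_of_lt (lt_of_le_of_lt c12 c20)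
  have c22 : S4 l v r := h.e4.resolve_right fun z => not_lt.mpr c21 z.1
  have c23 : v 1 < l 5 := c22.1
  have c24 : r 1 < v 5 := c22.2.2
  have c25 : r 6 < l 5 := lt_trans c15 c23
  have c26 : v 4 < l 5 := not_le.mp fun z => L104 h z c25 c23 c14 c5
  have c27 : l 4 < l 1 := not_le.mp fun z => L105 h z c13 c5
  have c28 : r 4 < r 1 := h.plr4_1 c27
  have c29 : r 4 < v 5 := lt_trans c28 c24
  have c30 : r 4 ≤ l 5 := not_lt.mp fun z => h.n4_5 c26 z c29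
  have c31 : r 4 < r 2 := lt_of_le_of_lt c30 c19
  have c32 : l 4 < l 2 := h.prl4_2 c31
  have c33 : v 4 < v 2 := h.plv4_2 c32
  have c34 : v 7 < l 2 := lt_trans a2 c32
  have c35 : r 7 < v 2 := lt_trans a3 c33
  h.n7_2 c34 c17 c35

theorem L107 {l v r : ℕ → ℝ} (h : H l v r) (a0 : v 4 < r 1) (a1 : v 7 < v 5) (a2 : r 7 < r 1) (a3 : l 0 < r 1) : False :=
  have c0 : v 7 ≤ r 7 := not_lt.mp fun z => L23 h z
  have c1 : l 4 ≤ v 4 := not_lt.mp fun z => L24 h z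
  have c2 : l 0 ≤ r 0 := not_lt.mp fun z => L33 h z
  have c3 : v 0 ≤ r 0 := not_lt.mp fun z => L39 h z
  have c4 : l 7 < l 5 := h.pvl7_5 a1
  have c5 : r 7 < r 5 := h.plr7_5 c4
  have c6 : v 7 ≤ r 1 := le_of_lt (lt_of_le_of_lt c0 a2)
  have c7 : ¬ S6 l v r := fun z => not_lt.mpr c6 z.2.2
  have c8 : l 1 < r 7 := (h.e6.resolve_left c7).2.1
  have c9 : l 1 ≤ r 7 := le_of_lt c8
  have c10 : l 7 < l 1 := h.prl7_1 a2
  have c11 : l 4 ≤ r 1 := le_of_lt (lt_of_le_of_lt c1 a0)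
  have c12 : v 4 ≤ r 1 := le_of_lt a0
  have c13 : r 0 ≤ r 6 := not_lt.mp fun z => L78 h z a0 a1 a2 a3
  have c14 : l 0 ≤ r 6 := le_trans c2 c13
  have c15 : l 0 ≤ l 6 := not_lt.mp fun z => not_lt.mpr c13 (h.plr6_0 z)
  have c16 : v 0 ≤ v 6 := not_lt.mp fun z => not_lt.mpr c15 (h.pvl6_0 z)
  have c17 : l 0 ≤ v 4 := not_lt.mp fun z => L102 h z c13 a1 c7
  have c18 : S3 l v r := h.e3.resolve_right fun z => not_lt.mpr c17 z.1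
  have c19 : v 0 < l 4 := c18.1
  have c20 : r 0 < v 4 := c18.2.2
  have c21 : v 0 ≤ l 4 := le_of_lt c19
  have c22 : v 0 ≤ r 1 := le_of_lt (lt_of_lt_of_le c19 c11)
  have c23 : r 0 ≤ v 4 := le_of_lt c20
  have c24 : r 0 ≤ r 1 := le_of_lt (lt_of_lt_of_le c20 c12)
  have c25 : S0 l v r := h.e0.resolve_right fun z => not_lt.mpr c22 z.2.2
  have c26 : l 0 ≤ l 1 := not_lt.mp fun z => not_lt.mpr c24 (h.plr1_0 z)
  have c27 : l 1 < r 0 := c25.2.1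
  have c28 : v 0 ≤ v 1 := not_lt.mp fun z => not_lt.mpr c26 (h.pvl1_0 z)
  have c29 : l 7 < r 0 := lt_trans c10 c27
  have c30 : l 7 ≤ v 4 := le_of_lt (lt_of_lt_of_le c29 c23)
  have c31 : ¬ S9 l v r := fun z => not_lt.mpr c30 z.1
  have c32 : l 4 < r 7 := (h.e9.resolve_left c31).2.1
  have c33 : r 7 < v 4 := (h.e9.resolve_left c31).2.2
  have c34 : v 7 < l 4 := (h.e9.resolve_left c31).1
  have c35 : l 4 < r 5 := lt_trans c32 c5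
  have c36 : l 0 ≤ l 5 := not_lt.mp fun z => L103 h z c35 c23 c21
  have c37 : r 0 ≤ r 5 := not_lt.mp fun z => not_lt.mpr c36 (h.prl5_0 z)
  have c38 : v 2 < r 0 := not_le.mp fun z => L106 h z c36 c34 c33 c27 c13 a1 c7
  have c39 : v 2 ≤ r 5 := le_of_lt (lt_of_lt_of_le c38 c37)
  have c40 : v 2 ≤ r 0 := le_of_lt c38
  have c41 : v 2 ≤ r 6 := le_of_lt (lt_of_lt_of_le c38 c13)
  have c42 : S7 l v r := h.e7.resolve_right fun z => not_lt.mpr c39 z.2.2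
  have c43 : ¬ S1 l v r := fun z => not_lt.mpr c40 z.2.2
  have c44 : l 5 < r 2 := c42.2.1
  have c45 : r 2 < v 0 := (h.e1.resolve_left c43).2.2
  have c46 : v 2 < l 0 := (h.e1.resolve_left c43).1
  have c47 : l 5 < v 0 := lt_trans c44 c45
  have c48 : l 7 < r 2 := lt_trans c4 c44
  have c49 : r 2 < v 6 := lt_of_lt_of_le c45 c16
  have c50 : v 2 < l 6 := lt_of_lt_of_le c46 c15
  have c51 : l 5 ≤ v 1 := le_of_lt (lt_of_lt_of_le c47 c28)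
  have c52 : l 7 < l 0 := not_le.mp fun z => L60 h z c48 c46 c45
  have c53 : r 2 ≤ l 6 := not_lt.mp fun z => h.n2_6 c50 z c49
  have c54 : ¬ S4 l v r := fun z => not_lt.mpr c51 z.1
  have c55 : r 7 < r 0 := h.plr7_0 c52
  have c56 : r 5 ≤ r 6 := not_lt.mp fun z => L80 h z c53 c41
  have c57 : l 5 < l 6 := lt_of_lt_of_le c44 c53
  have c58 : v 5 < l 1 := (h.e4.resolve_left c54).1
  have c59 : r 5 < v 1 := (h.e4.resolve_left c54).2.2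
  have c60 : v 5 < v 6 := h.plv5_6 c57
  have c61 : v 5 < r 7 := lt_of_lt_of_le c58 c9
  have c62 : S8 l v r := Classical.byContradiction fun z => L81 h z c37 c60 c56 c14
  have c63 : r 0 < l 6 := not_le.mp fun z => L82 h c36 z c60 c56 c14
  have c64 : l 6 < r 3 := c62.2.1
  have c65 : v 0 ≤ l 6 := le_of_lt (lt_of_le_of_lt c3 c63)
  have c66 : v 0 ≤ r 3 := le_of_lt (lt_of_le_of_lt c65 c64)
  have c67 : S2 l v r := h.e2.resolve_right fun z => not_lt.mpr c66 z.2.2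
  have c68 : l 3 < r 0 := c67.2.1
  have c69 : r 7 ≤ l 3 := not_lt.mp fun z => L94 h c67 z c55
  have c70 : l 3 < r 5 := lt_of_lt_of_le c68 c37
  have c71 : l 1 ≤ l 3 := le_trans c9 c69
  have c72 : v 5 < l 3 := lt_of_lt_of_le c61 c69
  have c73 : v 1 ≤ v 3 := not_lt.mp fun z => not_lt.mpr c71 (h.pvl3_1 z)
  have c74 : v 3 ≤ r 5 := not_lt.mp fun z => h.n5_3 c72 c70 z
  not_lt.mpr (le_trans c73 c74) c59

theorem L108 {l v r : ℕ → ℝ} (h : H l v r) (a0 : r 0 ≤ r 6) (a1 : v 0 ≤ l 5) (a2 : l 0 ≤ l 5) (a3 : l 4 < r 0) (a4 : v 7 < l 4) (a5 : l 1 ≤ l 4) (a6 : r 7 < v 4) (a7 : v 7 < v 5) (a8 : ¬ S6 l v r) : False :=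
  have c0 : r 0 ≤ r 5 := not_lt.mp fun z => not_lt.mpr a2 (h.prl5_0 z)
  have c1 : l 1 < r 0 := lt_of_le_of_lt a5 a3
  have c2 : l 4 < r 6 := lt_of_lt_of_le a3 a0
  have c3 : v 2 < r 0 := not_le.mp fun z => L106 h z a2 a4 a6 c1 a0 a7 a8
  have c4 : S5 l v r := Classical.byContradiction fun z => L105 h a5 z c2
  have c5 : v 2 ≤ r 5 := le_of_lt (lt_of_lt_of_le c3 c0)
  have c6 : ¬ S1 l v r := fun z => L96 h c4 a2 z a0 a7 a8
  have c7 : S7 l v r := h.e7.resolve_right fun z => not_lt.mpr c5 z.2.2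
  have c8 : r 2 < v 0 := (h.e1.resolve_left c6).2.2
  have c9 : l 5 < r 2 := c7.2.1
  not_lt.mpr a1 (lt_trans c9 c8)

theorem L109 {l v r : ℕ → ℝ} (h : H l v r) (a0 : v 7 < v 5) (a1 : r 7 < r 1) (a2 : l 0 < r 1) : False :=
  have c0 : l 7 ≤ r 7 := not_lt.mp fun z => L44 h z
  have c1 : l 1 ≤ v 1 := not_lt.mp fun z => L43 h z
  have c2 : v 7 ≤ r 7 := not_lt.mp fun z => L23 h z
  have c3 : v 1 ≤ r 1 := not_lt.mp fun z => L36 h z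
  have c4 : v 7 ≤ r 1 := le_of_lt (lt_of_le_of_lt c2 a1)
  have c5 : ¬ S6 l v r := fun z => not_lt.mpr c4 z.2.2
  have c6 : r 7 < v 1 := (h.e6.resolve_left c5).2.2
  have c7 : l 7 < l 1 := h.prl7_1 a1
  have c8 : l 7 ≤ v 1 := le_of_lt (lt_of_lt_of_le c7 c1)
  have c9 : l 7 ≤ r 1 := le_of_lt (lt_of_le_of_lt c0 a1)
  have c10 : r 7 ≤ r 1 := le_of_lt a1
  have c11 : l 0 ≤ r 1 := le_of_lt a2
  have c12 : l 7 < l 5 := h.pvl7_5 a0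
  have c13 : l 7 ≤ l 5 := le_of_lt c12
  have c14 : r 7 < r 5 := h.plr7_5 c12
  have c15 : r 7 ≤ r 5 := not_lt.mp fun z => not_lt.mpr c13 (h.prl5_7 z)
  have c16 : r 1 ≤ v 4 := not_lt.mp fun z => L107 h z a0 a1 a2
  have c17 : l 7 ≤ v 4 := le_trans c9 c16
  have c18 : v 1 ≤ v 4 := le_trans c3 c16
  have c19 : l 0 ≤ v 4 := le_trans c11 c16
  have c20 : r 7 < v 4 := lt_of_lt_of_le a1 c16
  have c21 : ¬ S9 l v r := fun z => not_lt.mpr c17 z.1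
  have c22 : l 1 ≤ l 4 := not_lt.mp fun z => not_lt.mpr c18 (h.plv4_1 z)
  have c23 : S3 l v r := h.e3.resolve_right fun z => not_lt.mpr c19 z.1
  have c24 : l 4 < r 7 := (h.e9.resolve_left c21).2.1
  have c25 : v 7 < l 4 := (h.e9.resolve_left c21).1
  have c26 : S4 l v r := Classical.byContradiction fun z => L58 h c22 z c15 c8
  have c27 : l 4 < r 0 := c23.2.1
  have c28 : v 0 < l 4 := c23.1
  have c29 : r 0 < v 4 := c23.2.2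
  have c30 : l 4 ≤ r 1 := le_of_lt (lt_of_lt_of_le c24 c10)
  have c31 : l 4 < v 1 := lt_trans c24 c6
  have c32 : l 4 < r 5 := lt_trans c24 c14
  have c33 : v 1 < l 5 := c26.1
  have c34 : v 0 ≤ l 4 := le_of_lt c28
  have c35 : r 0 ≤ v 4 := le_of_lt c29
  have c36 : v 0 ≤ v 1 := le_of_lt (lt_of_le_of_lt c34 c31)
  have c37 : l 0 ≤ l 5 := not_lt.mp fun z => L103 h z c32 c35 c34
  have c38 : v 0 ≤ l 5 := le_of_lt (lt_of_le_of_lt c36 c33)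
  have c39 : r 6 < r 0 := not_le.mp fun z => L108 h z c38 c37 c27 c25 c22 c20 a0 c5
  have c40 : l 7 ≤ l 6 := not_lt.mp fun z => L61 h z c39 c30 c12 a1
  have c41 : r 6 ≤ l 4 := not_lt.mp fun z => L63 h c23 z c39
  have c42 : r 7 ≤ r 6 := not_lt.mp fun z => not_lt.mpr c40 (h.prl6_7 z)
  not_lt.mpr (le_trans c42 c41) c24

theorem L110 {l v r : ℕ → ℝ} (h : H l v r) (a0 : r 6 ≤ l 4) (a1 : l 4 < r 5) (a2 : l 1 < r 6) (a3 : ¬ S4 l v r) : False :=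
  have c0 : l 1 ≤ r 6 := le_of_lt a2
  have c1 : l 1 ≤ l 4 := le_trans c0 a0
  have c2 : l 1 < l 4 := lt_of_lt_of_le a2 a0
  have c3 : v 4 ≤ v 1 := not_lt.mp fun z => L56 h a3 z c1 a1
  not_lt.mpr c3 (h.plv1_4 c2)

theorem L111 {l v r : ℕ → ℝ} (h : H l v r) (a0 : l 4 < r 6) (a1 : v 6 < v 7) (a2 : l 0 ≤ l 5) (a3 : r 6 < r 0) (a4 : l 5 ≤ l 7) : False :=
  have c0 : r 5 ≤ r 7 := not_lt.mp fun z => not_lt.mpr a4 (h.prl7_5 z)
  have c1 : r 0 ≤ r 5 := not_lt.mp fun z => not_lt.mpr a2 (h.prl5_0 z)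
  have c2 : r 0 ≤ r 7 := le_trans c1 c0
  have c3 : r 6 < r 7 := lt_of_lt_of_le a3 c2
  have c4 : v 0 ≤ v 5 := not_lt.mp fun z => not_lt.mpr a2 (h.pvl5_0 z)
  have c5 : ¬ S3 l v r := fun z => L63 h z a0 a3
  have c6 : S9 l v r := Classical.byContradiction fun z => L59 h z a0 c3 a1
  have c7 : r 4 < v 0 := (h.e3.resolve_left c5).2.2
  have c8 : v 4 < l 0 := (h.e3.resolve_left c5).1
  have c9 : l 7 < r 4 := c6.2.1
  have c10 : r 4 < v 5 := lt_of_lt_of_le c7 c4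
  have c11 : v 4 < l 5 := lt_of_lt_of_le c8 a2
  have c12 : l 5 < r 4 := lt_of_le_of_lt a4 c9
  h.n4_5 c11 c12 c10

theorem L112 {l v r : ℕ → ℝ} (h : H l v r) (a0 : l 0 ≤ l 5) (a1 : r 6 < r 0) (a2 : ¬ S4 l v r) (a3 : l 5 ≤ v 1) (a4 : v 5 < l 1) (a5 : v 5 ≤ v 7) : False :=
  have c0 : l 4 ≤ r 4 := not_lt.mp fun z => L10 h z
  have c1 : l 6 < l 0 := h.prl6_0 a1
  have c2 : v 6 < v 0 := h.plv6_0 c1
  have c3 : l 5 ≤ l 7 := not_lt.mp fun z => not_lt.mpr a5 (h.plv7_5 z)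
  have c4 : r 0 ≤ r 5 := not_lt.mp fun z => not_lt.mpr a0 (h.prl5_0 z)
  have c5 : v 0 ≤ v 5 := not_lt.mp fun z => not_lt.mpr a0 (h.pvl5_0 z)
  have c6 : l 0 ≤ v 1 := le_trans a0 a3
  have c7 : v 0 ≤ v 7 := le_trans c5 a5
  have c8 : v 0 ≤ l 1 := le_of_lt (lt_of_le_of_lt c5 a4)
  have c9 : l 6 ≤ v 1 := le_of_lt (lt_of_lt_of_le c1 c6)
  have c10 : v 6 < v 7 := lt_of_lt_of_le c2 c7
  have c11 : ¬ S5 l v r := fun z => not_lt.mpr c9 z.1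
  have c12 : l 1 < r 6 := (h.e5.resolve_left c11).2.1
  have c13 : v 0 ≤ r 6 := le_of_lt (lt_of_le_of_lt c8 c12)
  have c14 : r 6 ≤ l 4 := not_lt.mp fun z => L111 h z c10 a0 a1 c3
  have c15 : v 0 ≤ l 4 := le_trans c13 c14
  have c16 : r 5 ≤ l 4 := not_lt.mp fun z => L110 h c14 z c12 a2
  have c17 : v 0 ≤ r 4 := le_trans c15 c0
  have c18 : r 0 ≤ l 4 := le_trans c4 c16
  have c19 : S3 l v r := h.e3.resolve_right fun z => not_lt.mpr c17 z.2.2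
  not_lt.mpr c18 c19.2.1

theorem L113 {l v r : ℕ → ℝ} (h : H l v r) (a0 : r 6 ≤ l 4) (a1 : r 7 < r 0) (a2 : v 5 ≤ l 0) (a3 : v 1 ≤ v 0) (a4 : v 4 < l 0) (a5 : r 4 < v 0) (a6 : l 4 < r 7) (a7 : r 1 ≤ r 4) (a8 : v 6 < v 0) (a9 : l 1 < r 5) (a10 : r 5 ≤ r 7) (a11 : ¬ S6 l v r) : False :=
  have c0 : l 6 ≤ r 6 := not_lt.mp fun z => L22 h z
  have c1 : l 3 ≤ r 3 := not_lt.mp fun z => L34 h z
  have c2 : l 4 ≤ l 0 := not_lt.mp fun z => L30 h a4 z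
  have c3 : r 7 < v 1 := (h.e6.resolve_left a11).2.2
  have c4 : r 7 ≤ v 1 := le_of_lt c3
  have c5 : l 4 ≤ v 1 := le_of_lt (lt_of_lt_of_le a6 c4)
  have c6 : l 4 < v 1 := lt_trans a6 c3
  have c7 : l 6 ≤ l 4 := le_trans c0 a0
  have c8 : r 6 < r 7 := lt_of_le_of_lt a0 a6
  have c9 : v 6 < l 4 := not_le.mp fun z => L0 h z a0
  have c10 : l 6 ≤ v 1 := le_of_lt (lt_of_le_of_lt c7 c6)
  have c11 : v 6 ≤ l 0 := le_of_lt (lt_of_lt_of_le c9 c2)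
  have c12 : ¬ S5 l v r := fun z => not_lt.mpr c10 z.1
  have c13 : v 6 < l 3 := not_le.mp fun z => L49 h z c11 a8
  have c14 : l 1 < r 6 := (h.e5.resolve_left c12).2.1
  have c15 : v 6 ≤ r 3 := le_of_lt (lt_of_lt_of_le c13 c1)
  have c16 : l 1 ≤ r 6 := le_of_lt c14
  have c17 : ¬ S8 l v r := fun z => not_lt.mpr c15 z.2.2
  have c18 : r 6 < v 3 := (h.e8.resolve_left c17).2.2
  have c19 : l 3 < r 6 := (h.e8.resolve_left c17).2.1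
  have c20 : l 3 < r 7 := lt_trans c19 c8
  have c21 : v 3 < v 1 := not_le.mp fun z => L53 h z c20 a11
  have c22 : ¬ S2 l v r := fun z => L94 h z c20 a1
  have c23 : l 3 < l 1 := h.pvl3_1 c21
  have c24 : l 0 < r 3 := (h.e2.resolve_left c22).2.1
  have c25 : l 3 < r 5 := lt_trans c23 a9
  have c26 : l 0 ≤ r 3 := le_of_lt c24
  have c27 : v 4 < r 3 := lt_trans a4 c24
  have c28 : l 2 < v 1 := not_le.mp fun z => L55 h z c21 c26 c27 a7 c5 a5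
  have c29 : l 2 ≤ v 0 := le_of_lt (lt_of_lt_of_le c28 a3)
  have c30 : ¬ S1 l v r := fun z => not_lt.mpr c29 z.1
  have c31 : l 0 < r 2 := (h.e1.resolve_left c30).2.1
  have c32 : v 5 ≤ r 2 := le_of_lt (lt_of_le_of_lt a2 c31)
  have c33 : ¬ S7 l v r := fun z => not_lt.mpr c32 z.2.2
  have c34 : l 2 < r 5 := (h.e7.resolve_left c33).2.1
  have c35 : l 2 < r 7 := lt_of_lt_of_le c34 a10
  have c36 : l 2 < l 1 := not_le.mp fun z => L98 h z c35 a11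
  have c37 : l 2 < r 6 := lt_of_lt_of_le c36 c16
  have c38 : l 5 ≤ l 6 := not_lt.mp fun z => L92 h c33 z c37
  have c39 : v 5 ≤ v 6 := not_lt.mp fun z => not_lt.mpr c38 (h.pvl6_5 z)
  have c40 : r 5 ≤ r 6 := not_lt.mp fun z => not_lt.mpr c38 (h.prl6_5 z)
  have c41 : v 5 < l 3 := lt_of_le_of_lt c39 c13
  have c42 : r 5 < v 3 := lt_of_le_of_lt c40 c18
  h.n5_3 c41 c25 c42

theorem L114 {l v r : ℕ → ℝ} (h : H l v r) (a0 : r 2 ≤ l 6) (a1 : r 6 < r 0) : False :=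
  have c0 : l 6 ≤ r 6 := not_lt.mp fun z => L22 h z
  have c1 : v 2 ≤ r 2 := not_lt.mp fun z => L12 h z
  have c2 : l 6 < l 0 := h.prl6_0 a1
  have c3 : l 6 ≤ l 0 := le_of_lt c2
  have c4 : l 6 < r 0 := lt_of_le_of_lt c0 a1
  have c5 : v 2 ≤ l 6 := le_trans c1 a0
  have c6 : r 2 ≤ l 0 := le_trans a0 c3
  have c7 : v 2 ≤ r 0 := le_of_lt (lt_of_le_of_lt c5 c4)
  have c8 : S1 l v r := h.e1.resolve_right fun z => not_lt.mpr c6 z.2.1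
  not_lt.mpr c7 c8.2.2

theorem L115 {l v r : ℕ → ℝ} (h : H l v r) (a0 : S5 l v r) (a1 : l 6 < r 2) (a2 : r 5 ≤ r 7) (a3 : l 5 ≤ v 1) (a4 : ¬ S6 l v r) : False :=
  have c0 : v 1 < l 6 := a0.1
  have c1 : l 1 ≤ l 2 := not_lt.mp fun z => L69 h z a0 a1
  have c2 : l 5 ≤ l 6 := le_of_lt (lt_of_le_of_lt a3 c0)
  have c3 : r 7 ≤ l 2 := not_lt.mp fun z => L98 h c1 z a4
  have c4 : ¬ S7 l v r := fun z => L90 h z c2 a1
  have c5 : r 5 ≤ l 2 := le_trans a2 c3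
  not_lt.mpr c5 (h.e7.resolve_left c4).2.1

theorem L116 {l v r : ℕ → ℝ} (h : H l v r) (a0 : S1 l v r) (a1 : l 2 < r 6) (a2 : r 6 < r 0) : False :=
  have c0 : l 6 < l 0 := h.prl6_0 a2
  have c1 : v 6 < v 0 := h.plv6_0 c0
  have c2 : v 0 < l 2 := a0.1
  have c3 : r 0 < v 2 := a0.2.2
  have c4 : v 6 < l 2 := lt_trans c1 c2
  have c5 : r 6 < v 2 := lt_trans a2 c3
  h.n6_2 c4 a1 c5

theorem L117 {l v r : ℕ → ℝ} (h : H l v r) (a0 : ¬ S3 l v r) (a1 : v 1 ≤ v 0) (a2 : r 7 < r 0) (a3 : v 7 ≤ l 0) (a4 : v 5 ≤ l 0) (a5 : ¬ S5 l v r) (a6 : v 6 < v 0) (a7 : l 1 < r 5) (a8 : v 5 ≤ v 7) (a9 : ¬ S6 l v r) : False :=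
  have c0 : l 1 ≤ r 5 := le_of_lt a7
  have c1 : l 5 ≤ l 7 := not_lt.mp fun z => not_lt.mpr a8 (h.plv7_5 z)
  have c2 : r 5 ≤ r 7 := not_lt.mp fun z => not_lt.mpr c1 (h.prl7_5 z)
  have c3 : r 4 < v 0 := (h.e3.resolve_left a0).2.2
  have c4 : l 0 < r 4 := (h.e3.resolve_left a0).2.1
  have c5 : v 4 < l 0 := (h.e3.resolve_left a0).1
  have c6 : v 7 ≤ r 4 := le_of_lt (lt_of_le_of_lt a3 c4)
  have c7 : ¬ S9 l v r := fun z => not_lt.mpr c6 z.2.2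
  have c8 : l 4 < r 7 := (h.e9.resolve_left c7).2.1
  have c9 : r 7 < v 4 := (h.e9.resolve_left c7).2.2
  have c10 : v 7 < l 4 := (h.e9.resolve_left c7).1
  have c11 : r 5 < v 4 := lt_of_le_of_lt c2 c9
  have c12 : v 5 < l 4 := lt_of_le_of_lt a8 c10
  have c13 : r 5 ≤ l 4 := not_lt.mp fun z => h.n5_4 c12 z c11
  have c14 : l 1 ≤ l 4 := le_trans c0 c13
  have c15 : r 1 ≤ r 4 := not_lt.mp fun z => not_lt.mpr c14 (h.prl4_1 z)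
  have c16 : r 6 ≤ l 4 := not_lt.mp fun z => L105 h c14 a5 z
  L113 h c16 a2 a4 a1 c5 c3 c8 c15 a6 a7 c2 a9

theorem L118 {l v r : ℕ → ℝ} (h : H l v r) (a0 : ¬ S7 l v r) (a1 : ¬ S5 l v r) (a2 : l 7 ≤ r 0) (a3 : r 6 < r 0) (a4 : l 1 < r 5) (a5 : v 5 ≤ v 7) (a6 : ¬ S6 l v r) : False :=
  have c0 : v 5 ≤ r 5 := not_lt.mp fun z => L16 h z
  have c1 : v 0 ≤ r 0 := not_lt.mp fun z => L39 h z
  have c2 : l 3 ≤ r 3 := not_lt.mp fun z => L34 h z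
  have c3 : l 1 < r 6 := (h.e5.resolve_left a1).2.1
  have c4 : l 1 ≤ r 6 := le_of_lt c3
  have c5 : l 1 ≤ r 5 := le_of_lt a4
  have c6 : v 6 < l 1 := (h.e5.resolve_left a1).1
  have c7 : v 6 ≤ r 5 := le_of_lt (lt_of_lt_of_le c6 c5)
  have c8 : l 6 < l 0 := h.prl6_0 a3
  have c9 : v 6 < v 0 := h.plv6_0 c8
  have c10 : l 6 ≤ l 0 := le_of_lt c8
  have c11 : v 7 < l 1 := (h.e6.resolve_left a6).1
  have c12 : v 7 ≤ l 1 := le_of_lt c11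
  have c13 : v 7 ≤ r 5 := le_of_lt (lt_of_le_of_lt c12 a4)
  have c14 : l 5 ≤ l 7 := not_lt.mp fun z => not_lt.mpr a5 (h.plv7_5 z)
  have c15 : r 5 ≤ r 7 := not_lt.mp fun z => not_lt.mpr c14 (h.prl7_5 z)
  have c16 : l 2 < r 5 := (h.e7.resolve_left a0).2.1
  have c17 : r 5 < v 2 := (h.e7.resolve_left a0).2.2
  have c18 : l 2 < r 7 := lt_of_lt_of_le c16 c15
  have c19 : v 7 < v 2 := lt_of_le_of_lt c13 c17
  have c20 : v 5 ≤ v 2 := le_of_lt (lt_of_le_of_lt c0 c17)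
  have c21 : v 7 ≤ v 2 := le_of_lt (lt_of_le_of_lt c13 c17)
  have c22 : l 1 ≤ v 2 := le_of_lt (lt_of_le_of_lt c5 c17)
  have c23 : v 6 ≤ v 2 := le_of_lt (lt_of_le_of_lt c7 c17)
  have c24 : l 2 < l 1 := not_le.mp fun z => L98 h z c18 a6
  have c25 : l 7 < l 2 := h.pvl7_2 c19
  have c26 : l 7 ≤ l 2 := not_lt.mp fun z => not_lt.mpr c21 (h.plv2_7 z)
  have c27 : l 2 < r 6 := lt_of_lt_of_le c24 c4
  have c28 : r 7 < r 2 := h.plr7_2 c25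
  have c29 : r 7 ≤ r 2 := not_lt.mp fun z => not_lt.mpr c26 (h.prl2_7 z)
  have c30 : l 5 ≤ l 6 := not_lt.mp fun z => L92 h a0 z c27
  have c31 : v 5 ≤ v 6 := not_lt.mp fun z => not_lt.mpr c30 (h.pvl6_5 z)
  have c32 : r 5 ≤ r 6 := not_lt.mp fun z => not_lt.mpr c30 (h.prl6_5 z)
  have c33 : ¬ S1 l v r := fun z => L116 h z c27 a3
  have c34 : r 2 < v 0 := (h.e1.resolve_left c33).2.2
  have c35 : v 2 < l 0 := (h.e1.resolve_left c33).1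
  have c36 : r 2 ≤ r 0 := le_of_lt (lt_of_lt_of_le c34 c1)
  have c37 : r 7 ≤ v 0 := le_of_lt (lt_of_le_of_lt c29 c34)
  have c38 : v 6 ≤ l 0 := le_of_lt (lt_of_le_of_lt c23 c35)
  have c39 : l 1 ≤ l 0 := le_of_lt (lt_of_le_of_lt c22 c35)
  have c40 : v 5 ≤ l 0 := le_of_lt (lt_of_le_of_lt c20 c35)
  have c41 : v 7 ≤ l 0 := le_of_lt (lt_of_le_of_lt c21 c35)
  have c42 : r 7 < r 0 := lt_of_lt_of_le c28 c36
  have c43 : v 6 < l 3 := not_le.mp fun z => L49 h z c38 c9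
  have c44 : v 1 ≤ v 0 := not_lt.mp fun z => not_lt.mpr c39 (h.pvl0_1 z)
  have c45 : v 6 ≤ r 3 := le_of_lt (lt_of_lt_of_le c43 c2)
  have c46 : v 5 < l 3 := lt_of_le_of_lt c31 c43
  have c47 : ¬ S8 l v r := fun z => not_lt.mpr c45 z.2.2
  have c48 : r 6 < v 3 := (h.e8.resolve_left c47).2.2
  have c49 : l 3 < r 6 := (h.e8.resolve_left c47).2.1
  have c50 : r 5 < v 3 := lt_of_le_of_lt c32 c48
  have c51 : r 5 ≤ l 3 := not_lt.mp fun z => h.n5_3 c46 z c50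
  have c52 : l 1 ≤ l 3 := le_trans c5 c51
  have c53 : v 1 ≤ v 3 := not_lt.mp fun z => not_lt.mpr c52 (h.pvl3_1 z)
  have c54 : r 7 ≤ l 3 := not_lt.mp fun z => L53 h c53 z a6
  have c55 : S3 l v r := Classical.byContradiction fun z => L117 h z c44 c42 c41 c40 a1 c9 a4 a5 a6
  have c56 : r 7 ≤ r 6 := le_of_lt (lt_of_le_of_lt c54 c49)
  have c57 : v 0 < l 4 := c55.1
  have c58 : l 7 ≤ l 6 := not_lt.mp fun z => not_lt.mpr c56 (h.plr6_7 z)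
  have c59 : r 7 ≤ l 4 := le_of_lt (lt_of_le_of_lt c37 c57)
  have c60 : ¬ S9 l v r := fun z => L62 h z a2 c58 c10
  not_lt.mpr c59 (h.e9.resolve_left c60).2.1

theorem L119 {l v r : ℕ → ℝ} (h : H l v r) (a0 : r 6 < r 0) (a1 : l 7 ≤ r 5) (a2 : ¬ S4 l v r) (a3 : l 5 ≤ v 1) (a4 : v 5 ≤ v 7) (a5 : ¬ S6 l v r) : False :=
  have c0 : l 0 ≤ r 0 := not_lt.mp fun z => L33 h z
  have c1 : l 1 < r 5 := (h.e4.resolve_left a2).2.1
  have c2 : l 5 ≤ l 7 := not_lt.mp fun z => not_lt.mpr a4 (h.plv7_5 z)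
  have c3 : r 5 ≤ r 7 := not_lt.mp fun z => not_lt.mpr c2 (h.prl7_5 z)
  have c4 : v 7 < l 1 := (h.e6.resolve_left a5).1
  have c5 : v 7 ≤ l 1 := le_of_lt c4
  have c6 : v 5 ≤ l 1 := le_trans a4 c5
  have c7 : v 5 < l 1 := lt_of_le_of_lt a4 c4
  have c8 : l 6 ≤ r 0 := not_lt.mp fun z => L26 h a0 z
  have c9 : l 5 < l 0 := not_le.mp fun z => L112 h z a0 a2 a3 c7 a4
  have c10 : l 5 ≤ r 0 := le_of_lt (lt_of_lt_of_le c9 c0)
  have c11 : r 5 < r 0 := h.plr5_0 c9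
  have c12 : l 7 ≤ r 0 := le_of_lt (lt_of_le_of_lt a1 c11)
  have c13 : l 6 < r 2 := not_le.mp fun z => L114 h z a0
  have c14 : ¬ S5 l v r := fun z => L115 h z c13 c3 a3 a5
  have c15 : l 1 < r 6 := (h.e5.resolve_left c14).2.1
  have c16 : v 5 ≤ r 6 := le_of_lt (lt_of_le_of_lt c6 c15)
  have c17 : S7 l v r := Classical.byContradiction fun z => L118 h z c14 c12 a0 c1 a4 a5
  have c18 : v 2 < l 5 := c17.1
  have c19 : r 2 < v 5 := c17.2.2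
  have c20 : l 6 < l 5 := not_le.mp fun z => L90 h c17 z c13
  have c21 : v 2 ≤ r 0 := le_of_lt (lt_of_lt_of_le c18 c10)
  have c22 : r 2 ≤ r 6 := le_of_lt (lt_of_lt_of_le c19 c16)
  have c23 : r 6 < r 5 := h.plr6_5 c20
  have c24 : l 6 ≤ l 5 := le_of_lt c20
  have c25 : ¬ S1 l v r := fun z => not_lt.mpr c21 z.2.2
  have c26 : r 6 < l 0 := not_le.mp fun z => L76 h c9 z c24 c23 c8
  have c27 : l 0 < r 2 := (h.e1.resolve_left c25).2.1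
  not_lt.mpr c22 (lt_trans c26 c27)

theorem L120 {l v r : ℕ → ℝ} (h : H l v r) (a0 : ¬ S1 l v r) (a1 : l 6 < r 2) (a2 : l 0 ≤ l 6) : False :=
  have c0 : v 0 ≤ v 6 := not_lt.mp fun z => not_lt.mpr a2 (h.pvl6_0 z)
  have c1 : r 2 < v 0 := (h.e1.resolve_left a0).2.2
  have c2 : v 2 < l 0 := (h.e1.resolve_left a0).1
  have c3 : r 2 < v 6 := lt_of_lt_of_le c1 c0
  have c4 : v 2 < l 6 := lt_of_lt_of_le c2 a2
  h.n2_6 c4 a1 c3

theorem L121 {l v r : ℕ → ℝ} (h : H l v r) (a0 : r 7 ≤ l 4) : False :=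
  have c0 : l 4 < v 4 := h.u4_0
  have c1 : l 7 ≤ r 7 := not_lt.mp fun z => L44 h z
  have c2 : r 7 < v 4 := lt_of_le_of_lt a0 c0
  have c3 : S9 l v r := h.e9.resolve_right fun z => not_lt.mpr a0 z.2.1
  have c4 : l 7 ≤ v 4 := le_of_lt (lt_of_le_of_lt c1 c2)
  not_lt.mpr c4 c3.1

theorem L122 {l v r : ℕ → ℝ} (h : H l v r) (a0 : r 7 < l 4) : False :=
  have c0 : l 4 < r 7 := not_le.mp fun z => L121 h z
  lt_asymm c0 a0

theorem L123 {l v r : ℕ → ℝ} (h : H l v r) (a0 : S3 l v r) (a1 : r 5 < r 0) (a2 : ¬ S5 l v r) (a3 : r 0 ≤ r 6) (a4 : l 1 < r 5) : False :=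
  have c0 : l 5 < l 0 := h.prl5_0 a1
  have c1 : v 5 < v 0 := h.plv5_0 c0
  have c2 : l 4 < r 0 := a0.2.1
  have c3 : v 0 < l 4 := a0.1
  have c4 : r 0 < v 4 := a0.2.2
  have c5 : l 4 < r 6 := lt_of_lt_of_le c2 a3
  have c6 : v 5 < l 4 := lt_trans c1 c3
  have c7 : r 5 < v 4 := lt_trans a1 c4
  have c8 : l 4 < l 1 := not_le.mp fun z => L105 h z a2 c5
  have c9 : r 5 ≤ l 4 := not_lt.mp fun z => h.n5_4 c6 z c7
  not_lt.mpr c9 (lt_trans c8 a4)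

theorem L124 {l v r : ℕ → ℝ} (h : H l v r) (a0 : ¬ S3 l v r) (a1 : S1 l v r) (a2 : ¬ S5 l v r) (a3 : r 0 ≤ r 6) (a4 : l 1 < r 7) : False :=
  have c0 : r 0 < v 2 := a1.2.2
  have c1 : r 0 ≤ v 2 := le_of_lt c0
  have c2 : v 0 < l 2 := a1.1
  have c3 : v 0 ≤ l 2 := le_of_lt c2
  have c4 : l 0 ≤ l 6 := not_lt.mp fun z => not_lt.mpr a3 (h.plr6_0 z)
  have c5 : l 0 ≤ v 6 := not_lt.mp fun z => L31 h z c4
  have c6 : v 0 ≤ v 6 := not_lt.mp fun z => not_lt.mpr c4 (h.pvl6_0 z)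
  have c7 : r 4 < v 0 := (h.e3.resolve_left a0).2.2
  have c8 : v 4 < l 0 := (h.e3.resolve_left a0).1
  have c9 : r 4 < v 6 := lt_of_lt_of_le c7 c6
  have c10 : v 4 < l 6 := lt_of_lt_of_le c8 c4
  have c11 : v 4 ≤ v 6 := le_of_lt (lt_of_lt_of_le c8 c5)
  have c12 : r 4 ≤ l 6 := not_lt.mp fun z => h.n4_6 c10 z c9
  L101 h a2 c1 c3 c12 c11 a3 a4

theorem L125 {l v r : ℕ → ℝ} (h : H l v r) (a0 : l 6 < r 2) (a1 : l 5 ≤ r 0) (a2 : l 2 < r 0) (a3 : ¬ S5 l v r) (a4 : r 0 ≤ r 6) (a5 : l 1 < r 5) (a6 : l 1 < r 7) : False :=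
  have c0 : l 0 ≤ r 0 := not_lt.mp fun z => L33 h z
  have c1 : l 6 ≤ v 6 := not_lt.mp fun z => L20 h z
  have c2 : v 6 < l 1 := (h.e5.resolve_left a3).1
  have c3 : l 6 ≤ l 1 := le_of_lt (lt_of_le_of_lt c1 c2)
  have c4 : l 0 ≤ r 6 := le_trans c0 a4
  have c5 : r 6 < v 1 := (h.e5.resolve_left a3).2.2
  have c6 : l 0 ≤ v 1 := le_of_lt (lt_of_le_of_lt c4 c5)
  have c7 : S0 l v r := h.e0.resolve_right fun z => not_lt.mpr c6 z.1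
  have c8 : l 1 < r 0 := c7.2.1
  have c9 : l 6 ≤ r 0 := le_of_lt (lt_of_le_of_lt c3 c8)
  have c10 : l 2 < r 6 := not_le.mp fun z => L79 h z a4
  have c11 : l 0 ≤ l 6 := not_lt.mp fun z => not_lt.mpr a4 (h.plr6_0 z)
  have c12 : S1 l v r := Classical.byContradiction fun z => L120 h z a0 c11
  have c13 : r 0 < v 2 := c12.2.2
  have c14 : l 5 ≤ v 2 := le_of_lt (lt_of_le_of_lt a1 c13)
  have c15 : ¬ S7 l v r := fun z => not_lt.mpr c14 z.1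
  have c16 : l 5 ≤ l 6 := not_lt.mp fun z => L92 h c15 z c10
  have c17 : r 5 ≤ r 6 := not_lt.mp fun z => not_lt.mpr c16 (h.prl6_5 z)
  have c18 : S3 l v r := Classical.byContradiction fun z => L124 h z c12 a3 a4 a6
  have c19 : r 0 ≤ r 5 := not_lt.mp fun z => L123 h c18 z a3 a4 a5
  have c20 : l 0 ≤ l 5 := not_lt.mp fun z => not_lt.mpr c19 (h.plr5_0 z)
  have c21 : v 6 ≤ v 5 := not_lt.mp fun z => L82 h c20 c9 z c17 c4
  have c22 : v 5 < l 6 := not_le.mp fun z => L91 h c16 z a0 c20 a2 a4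
  not_lt.mpr (le_trans c1 c21) c22

theorem L126 {l v r : ℕ → ℝ} (h : H l v r) (a0 : ¬ S5 l v r) (a1 : r 0 ≤ r 6) (a2 : l 1 < r 5) (a3 : l 5 ≤ l 1) (a4 : v 5 ≤ v 7) (a5 : ¬ S6 l v r) : False :=
  have c0 : l 0 ≤ r 0 := not_lt.mp fun z => L33 h z
  have c1 : l 6 < v 6 := h.u6_0
  have c2 : l 6 ≤ v 6 := not_lt.mp fun z => L20 h z
  have c3 : l 6 < r 6 := not_le.mp fun z => L21 h z
  have c4 : v 2 ≤ r 2 := not_lt.mp fun z => L12 h z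
  have c5 : l 0 ≤ l 6 := not_lt.mp fun z => not_lt.mpr a1 (h.plr6_0 z)
  have c6 : v 0 ≤ v 6 := not_lt.mp fun z => not_lt.mpr c5 (h.pvl6_0 z)
  have c7 : l 0 < v 6 := lt_of_le_of_lt c5 c1
  have c8 : l 2 < r 6 := not_le.mp fun z => L79 h z a1
  have c9 : l 0 ≤ r 6 := le_trans c0 a1
  have c10 : l 1 ≤ r 5 := le_of_lt a2
  have c11 : l 5 ≤ l 7 := not_lt.mp fun z => not_lt.mpr a4 (h.plv7_5 z)
  have c12 : l 1 < r 7 := (h.e6.resolve_left a5).2.1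
  have c13 : l 1 ≤ r 7 := le_of_lt c12
  have c14 : v 6 < l 1 := (h.e5.resolve_left a0).1
  have c15 : r 6 < v 1 := (h.e5.resolve_left a0).2.2
  have c16 : v 6 ≤ r 7 := le_of_lt (lt_of_lt_of_le c14 c13)
  have c17 : l 6 ≤ l 1 := le_of_lt (lt_of_le_of_lt c2 c14)
  have c18 : v 6 < r 7 := lt_trans c14 c12
  have c19 : l 0 ≤ v 1 := le_of_lt (lt_of_le_of_lt c9 c15)
  have c20 : l 0 ≤ r 7 := le_of_lt (lt_of_lt_of_le c7 c16)
  have c21 : l 6 ≤ r 5 := le_trans c17 c10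
  have c22 : l 2 < r 7 := not_le.mp fun z => L97 h z c18 c15 c8 c13
  have c23 : S0 l v r := h.e0.resolve_right fun z => not_lt.mpr c19 z.1
  have c24 : l 2 < l 1 := not_le.mp fun z => L98 h z c22 a5
  have c25 : l 1 < r 0 := c23.2.1
  have c26 : l 2 < r 0 := lt_trans c24 c25
  have c27 : l 5 ≤ r 0 := le_of_lt (lt_of_le_of_lt a3 c25)
  have c28 : l 6 < r 0 := lt_of_le_of_lt c17 c25
  have c29 : l 6 ≤ r 0 := le_of_lt (lt_of_le_of_lt c17 c25)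
  have c30 : r 2 ≤ l 6 := not_lt.mp fun z => L125 h z c27 c26 a0 a1 a2 c12
  have c31 : r 2 < r 6 := lt_of_le_of_lt c30 c3
  have c32 : v 2 ≤ l 6 := le_trans c4 c30
  have c33 : v 2 ≤ r 6 := le_of_lt (lt_of_le_of_lt c4 c31)
  have c34 : v 2 ≤ r 0 := le_of_lt (lt_of_le_of_lt c32 c28)
  have c35 : v 2 ≤ r 5 := le_trans c32 c21
  have c36 : r 5 ≤ r 6 := not_lt.mp fun z => L80 h z c30 c33
  have c37 : ¬ S1 l v r := fun z => not_lt.mpr c34 z.2.2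
  have c38 : S7 l v r := h.e7.resolve_right fun z => not_lt.mpr c35 z.2.2
  have c39 : l 0 < r 2 := (h.e1.resolve_left c37).2.1
  have c40 : l 5 < r 2 := c38.2.1
  have c41 : v 2 < l 5 := c38.1
  have c42 : r 2 < v 5 := c38.2.2
  have c43 : l 5 < l 6 := lt_of_lt_of_le c40 c30
  have c44 : v 2 < l 7 := lt_of_lt_of_le c41 c11
  have c45 : r 2 < v 7 := lt_of_lt_of_le c42 a4
  have c46 : v 5 < v 6 := h.plv5_6 c43
  have c47 : r 2 ≤ l 7 := not_lt.mp fun z => h.n2_7 c44 z c45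
  have c48 : l 5 < l 0 := not_le.mp fun z => L82 h z c29 c46 c36 c9
  have c49 : l 0 ≤ l 7 := le_of_lt (lt_of_lt_of_le c39 c47)
  have c50 : r 5 < r 0 := h.plr5_0 c48
  have c51 : r 0 ≤ r 7 := not_lt.mp fun z => not_lt.mpr c49 (h.prl7_0 z)
  have c52 : ¬ S3 l v r := fun z => L123 h z c50 a0 a1 a2
  have c53 : l 6 < l 7 := not_le.mp fun z => L100 h c51 z c29 c9
  have c54 : r 4 < v 0 := (h.e3.resolve_left c52).2.2
  have c55 : v 4 < l 0 := (h.e3.resolve_left c52).1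
  have c56 : r 4 < v 6 := lt_of_lt_of_le c54 c6
  have c57 : v 4 < l 6 := lt_of_lt_of_le c55 c5
  have c58 : v 4 ≤ r 7 := le_of_lt (lt_of_lt_of_le c55 c20)
  have c59 : r 4 ≤ l 6 := not_lt.mp fun z => h.n4_6 c57 z c56
  have c60 : S9 l v r := h.e9.resolve_right fun z => not_lt.mpr c58 z.2.2
  have c61 : r 4 ≤ l 7 := le_of_lt (lt_of_le_of_lt c59 c53)
  not_lt.mpr c61 c60.2.1

theorem L127 {l v r : ℕ → ℝ} (h : H l v r) (a0 : ¬ S8 l v r) (a1 : r 0 ≤ v 6) (a2 : l 0 ≤ r 6) : False :=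
  have c0 : r 6 < v 3 := (h.e8.resolve_left a0).2.2
  have c1 : v 6 < l 3 := (h.e8.resolve_left a0).1
  have c2 : l 0 ≤ v 3 := le_of_lt (lt_of_le_of_lt a2 c0)
  have c3 : r 0 ≤ l 3 := le_of_lt (lt_of_le_of_lt a1 c1)
  have c4 : S2 l v r := h.e2.resolve_right fun z => not_lt.mpr c2 z.1
  not_lt.mpr c3 c4.2.1

theorem L128 {l v r : ℕ → ℝ} (h : H l v r) (a0 : S7 l v r) (a1 : l 0 < r 2) (a2 : r 5 < r 0) (a3 : v 1 ≤ l 6) (a4 : r 1 ≤ v 6) (a5 : l 0 ≤ r 6) (a6 : l 1 ≤ r 5) (a7 : v 5 ≤ v 7) (a8 : ¬ S6 l v r) : False :=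
  have c0 : l 5 < l 0 := h.prl5_0 a2
  have c1 : v 5 < v 0 := h.plv5_0 c0
  have c2 : v 7 < l 1 := (h.e6.resolve_left a8).1
  have c3 : v 5 < l 1 := lt_of_le_of_lt a7 c2
  have c4 : l 5 ≤ l 7 := not_lt.mp fun z => not_lt.mpr a7 (h.plv7_5 z)
  have c5 : v 2 < l 5 := a0.1
  have c6 : r 2 < v 5 := a0.2.2
  have c7 : v 2 < l 7 := lt_of_lt_of_le c5 c4
  have c8 : r 2 < v 7 := lt_of_lt_of_le c6 a7
  have c9 : r 2 < l 1 := lt_trans c6 c3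
  have c10 : r 2 ≤ l 7 := not_lt.mp fun z => h.n2_7 c7 z c8
  have c11 : l 0 < l 1 := lt_trans a1 c9
  have c12 : l 0 ≤ l 7 := le_of_lt (lt_of_lt_of_le a1 c10)
  have c13 : r 0 < r 1 := h.plr0_1 c11
  have c14 : v 0 < v 1 := h.plv0_1 c11
  have c15 : r 0 ≤ r 7 := not_lt.mp fun z => not_lt.mpr c12 (h.prl7_0 z)
  have c16 : r 0 ≤ v 6 := le_of_lt (lt_of_lt_of_le c13 a4)
  have c17 : v 0 ≤ l 6 := le_of_lt (lt_of_lt_of_le c14 a3)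
  have c18 : S8 l v r := Classical.byContradiction fun z => L127 h z c16 a5
  have c19 : l 6 < r 3 := c18.2.1
  have c20 : v 0 ≤ r 3 := le_of_lt (lt_of_le_of_lt c17 c19)
  have c21 : S2 l v r := h.e2.resolve_right fun z => not_lt.mpr c20 z.2.2
  have c22 : v 0 < l 3 := c21.1
  have c23 : l 3 < r 0 := c21.2.1
  have c24 : r 0 < v 3 := c21.2.2
  have c25 : v 5 < l 3 := lt_trans c1 c22
  have c26 : l 3 < r 7 := lt_of_lt_of_le c23 c15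
  have c27 : r 5 < v 3 := lt_trans a2 c24
  have c28 : v 3 < v 1 := not_le.mp fun z => L53 h z c26 a8
  have c29 : r 5 ≤ l 3 := not_lt.mp fun z => h.n5_3 c25 z c27
  have c30 : l 3 < l 1 := h.pvl3_1 c28
  not_lt.mpr (le_trans a6 c29) c30

theorem L129 {l v r : ℕ → ℝ} (h : H l v r) (a0 : ¬ S9 l v r) (a1 : l 4 < r 5) (a2 : v 5 ≤ v 7) : False :=
  have c0 : l 5 ≤ l 7 := not_lt.mp fun z => not_lt.mpr a2 (h.plv7_5 z)
  have c1 : r 5 ≤ r 7 := not_lt.mp fun z => not_lt.mpr c0 (h.prl7_5 z)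
  have c2 : r 7 < v 4 := (h.e9.resolve_left a0).2.2
  have c3 : v 7 < l 4 := (h.e9.resolve_left a0).1
  have c4 : r 5 < v 4 := lt_of_le_of_lt c1 c2
  have c5 : v 5 < l 4 := lt_of_le_of_lt a2 c3
  h.n5_4 c5 a1 c4

theorem L130 {l v r : ℕ → ℝ} (h : H l v r) (a0 : ¬ S1 l v r) (a1 : l 0 ≤ r 5) (a2 : r 5 < r 0) (a3 : v 1 ≤ l 6) (a4 : r 1 ≤ v 6) (a5 : l 0 ≤ r 6) (a6 : l 1 ≤ r 5) (a7 : v 5 ≤ v 7) (a8 : ¬ S6 l v r) : False :=
  have c0 : v 2 < l 0 := (h.e1.resolve_left a0).1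
  have c1 : l 0 < r 2 := (h.e1.resolve_left a0).2.1
  have c2 : v 2 ≤ r 5 := le_of_lt (lt_of_lt_of_le c0 a1)
  have c3 : ¬ S7 l v r := fun z => L128 h z c1 a2 a3 a4 a5 a6 a7 a8
  not_lt.mpr c2 (h.e7.resolve_left c3).2.2

theorem L131 {l v r : ℕ → ℝ} (h : H l v r) (a0 : ¬ S3 l v r) (a1 : r 5 < r 0) (a2 : l 2 < r 7) (a3 : v 1 ≤ l 6) (a4 : r 1 ≤ v 6) (a5 : l 6 < r 1) (a6 : l 0 ≤ l 6) (a7 : l 0 ≤ r 6) (a8 : l 1 < r 5) (a9 : v 5 ≤ v 7) (a10 : ¬ S6 l v r) : False :=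
  have c0 : l 5 < l 0 := h.prl5_0 a1
  have c1 : v 5 < v 0 := h.plv5_0 c0
  have c2 : v 0 ≤ v 6 := not_lt.mp fun z => not_lt.mpr a6 (h.pvl6_0 z)
  have c3 : v 7 < l 1 := (h.e6.resolve_left a10).1
  have c4 : v 7 ≤ l 1 := le_of_lt c3
  have c5 : v 7 ≤ r 5 := le_of_lt (lt_of_le_of_lt c4 a8)
  have c6 : l 1 ≤ r 5 := le_of_lt a8
  have c7 : r 4 < v 0 := (h.e3.resolve_left a0).2.2
  have c8 : l 0 < r 4 := (h.e3.resolve_left a0).2.1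
  have c9 : v 4 < l 0 := (h.e3.resolve_left a0).1
  have c10 : r 4 < v 6 := lt_of_lt_of_le c7 c2
  have c11 : l 0 ≤ r 4 := le_of_lt c8
  have c12 : v 4 < l 6 := lt_of_lt_of_le c9 a6
  have c13 : r 4 ≤ l 6 := not_lt.mp fun z => h.n4_6 c12 z c10
  have c14 : r 4 ≤ r 1 := le_of_lt (lt_of_le_of_lt c13 a5)
  have c15 : l 4 ≤ l 1 := not_lt.mp fun z => not_lt.mpr c14 (h.plr1_4 z)
  have c16 : l 4 < r 5 := lt_of_le_of_lt c15 a8
  have c17 : S9 l v r := Classical.byContradiction fun z => L129 h z c16 a9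
  have c18 : r 4 < v 7 := c17.2.2
  have c19 : r 4 < l 1 := lt_trans c18 c3
  have c20 : r 4 ≤ r 5 := le_of_lt (lt_of_lt_of_le c18 c5)
  have c21 : l 0 < l 1 := lt_trans c8 c19
  have c22 : l 0 ≤ r 5 := le_trans c11 c20
  have c23 : r 0 < r 1 := h.plr0_1 c21
  have c24 : v 0 < v 1 := h.plv0_1 c21
  have c25 : r 0 ≤ v 6 := le_of_lt (lt_of_lt_of_le c23 a4)
  have c26 : v 0 ≤ l 6 := le_of_lt (lt_of_lt_of_le c24 a3)
  have c27 : S8 l v r := Classical.byContradiction fun z => L127 h z c25 a7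
  have c28 : l 6 < r 3 := c27.2.1
  have c29 : v 0 ≤ r 3 := le_of_lt (lt_of_le_of_lt c26 c28)
  have c30 : S2 l v r := h.e2.resolve_right fun z => not_lt.mpr c29 z.2.2
  have c31 : v 0 < l 3 := c30.1
  have c32 : l 3 < r 0 := c30.2.1
  have c33 : r 0 < v 3 := c30.2.2
  have c34 : v 5 < l 3 := lt_trans c1 c31
  have c35 : r 5 < v 3 := lt_trans a1 c33
  have c36 : r 5 ≤ l 3 := not_lt.mp fun z => h.n5_3 c34 z c35
  have c37 : l 1 ≤ l 3 := le_trans c6 c36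
  have c38 : v 1 ≤ v 3 := not_lt.mp fun z => not_lt.mpr c37 (h.pvl3_1 z)
  have c39 : r 7 ≤ l 3 := not_lt.mp fun z => L53 h c38 z a10
  have c40 : r 7 < r 0 := lt_of_le_of_lt c39 c32
  have c41 : l 7 < l 0 := h.prl7_0 c40
  have c42 : v 7 < v 0 := h.plv7_0 c41
  have c43 : S1 l v r := Classical.byContradiction fun z => L130 h z c22 a1 a3 a4 a7 c6 a9 a10
  have c44 : v 0 < l 2 := c43.1
  have c45 : r 0 < v 2 := c43.2.2
  have c46 : v 7 < l 2 := lt_trans c42 c44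
  have c47 : r 7 < v 2 := lt_trans c40 c45
  h.n7_2 c46 a2 c47

theorem L132 {l v r : ℕ → ℝ} (h : H l v r) (a0 : r 5 < r 0) (a1 : l 4 ≤ l 6) (a2 : v 1 ≤ l 6) (a3 : r 1 ≤ v 6) (a4 : r 2 ≤ l 6) (a5 : l 6 < r 1) (a6 : l 0 ≤ l 6) (a7 : l 0 ≤ r 6) (a8 : l 1 < r 5) (a9 : v 5 ≤ v 7) (a10 : ¬ S6 l v r) : False :=
  have c0 : l 4 < r 7 := not_le.mp fun z => L121 h z
  have c1 : l 1 < r 7 := (h.e6.resolve_left a10).2.1
  have c2 : l 1 ≤ r 7 := le_of_lt c1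
  have c3 : r 2 < r 1 := lt_of_le_of_lt a4 a5
  have c4 : l 2 < l 1 := h.prl2_1 c3
  have c5 : l 2 < r 7 := lt_of_lt_of_le c4 c2
  have c6 : v 4 ≤ v 6 := not_lt.mp fun z => not_lt.mpr a1 (h.pvl6_4 z)
  have c7 : r 7 < v 1 := (h.e6.resolve_left a10).2.2
  have c8 : l 4 < v 1 := lt_trans c0 c7
  have c9 : l 1 ≤ r 5 := le_of_lt a8
  have c10 : l 5 < l 0 := h.prl5_0 a0
  have c11 : v 5 < v 0 := h.plv5_0 c10
  have c12 : S3 l v r := Classical.byContradiction fun z => L131 h z a0 c5 a2 a3 a5 a6 a7 a8 a9 a10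
  have c13 : v 0 < l 4 := c12.1
  have c14 : r 0 < v 4 := c12.2.2
  have c15 : v 0 ≤ l 4 := le_of_lt c13
  have c16 : v 0 < v 1 := lt_trans c13 c8
  have c17 : v 0 ≤ l 6 := le_of_lt (lt_of_lt_of_le c13 a1)
  have c18 : r 0 ≤ v 4 := le_of_lt c14
  have c19 : r 0 ≤ v 6 := le_of_lt (lt_of_lt_of_le c14 c6)
  have c20 : l 0 < l 1 := h.pvl0_1 c16
  have c21 : r 5 ≤ l 4 := not_lt.mp fun z => L103 h c10 z c18 c15
  have c22 : S8 l v r := Classical.byContradiction fun z => L127 h z c19 a7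
  have c23 : l 0 ≤ r 5 := le_of_lt (lt_of_lt_of_le c20 c9)
  have c24 : l 1 ≤ l 4 := le_trans c9 c21
  have c25 : l 6 < r 3 := c22.2.1
  have c26 : S1 l v r := Classical.byContradiction fun z => L130 h z c23 a0 a2 a3 a7 c9 a9 a10
  have c27 : r 1 ≤ r 4 := not_lt.mp fun z => not_lt.mpr c24 (h.prl4_1 z)
  have c28 : v 0 ≤ r 3 := le_of_lt (lt_of_le_of_lt c17 c25)
  have c29 : r 2 < r 3 := lt_of_le_of_lt a4 c25
  have c30 : v 0 < l 2 := c26.1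
  have c31 : l 6 < r 4 := lt_of_lt_of_le a5 c27
  have c32 : S2 l v r := h.e2.resolve_right fun z => not_lt.mpr c28 z.2.2
  have c33 : l 2 < l 3 := h.prl2_3 c29
  have c34 : v 5 < l 2 := lt_trans c11 c30
  have c35 : r 0 < v 3 := c32.2.2
  have c36 : v 5 < l 3 := lt_trans c34 c33
  have c37 : r 5 < v 3 := lt_trans a0 c35
  have c38 : r 5 ≤ l 3 := not_lt.mp fun z => h.n5_3 c36 z c37
  have c39 : l 1 ≤ l 3 := le_trans c9 c38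
  have c40 : v 1 ≤ v 3 := not_lt.mp fun z => not_lt.mpr c39 (h.pvl3_1 z)
  have c41 : r 7 ≤ l 3 := not_lt.mp fun z => L53 h c40 z a10
  have c42 : l 4 < l 3 := lt_of_lt_of_le c0 c41
  have c43 : l 4 ≤ l 3 := le_of_lt (lt_of_lt_of_le c0 c41)
  have c44 : v 4 < v 3 := h.plv4_3 c42
  have c45 : r 4 ≤ r 3 := not_lt.mp fun z => not_lt.mpr c43 (h.prl3_4 z)
  L67 h c22 c44 c45 c31

theorem L133 {l v r : ℕ → ℝ} (h : H l v r) (a0 : ¬ S7 l v r) (a1 : l 3 < r 5) (a2 : l 2 < l 3) : False :=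
  have c0 : v 2 < v 3 := h.plv2_3 a2
  have c1 : r 5 < v 2 := (h.e7.resolve_left a0).2.2
  have c2 : v 5 < l 2 := (h.e7.resolve_left a0).1
  have c3 : r 5 < v 3 := lt_trans c1 c0
  have c4 : v 5 < l 3 := lt_trans c2 a2
  h.n5_3 c4 a1 c3

theorem L134 {l v r : ℕ → ℝ} (h : H l v r) (a0 : r 5 ≤ l 4) (a1 : r 0 ≤ r 5) : False :=
  have c0 : l 4 < v 4 := h.u4_0
  have c1 : l 0 ≤ r 5 := not_lt.mp fun z => L35 h z a1
  have c2 : r 5 < v 4 := lt_of_le_of_lt a0 c0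
  have c3 : r 0 ≤ l 4 := le_trans a1 a0
  have c4 : l 0 ≤ v 4 := le_of_lt (lt_of_le_of_lt c1 c2)
  have c5 : ¬ S3 l v r := fun z => not_lt.mpr c3 z.2.1
  not_lt.mpr c4 (h.e3.resolve_left c5).1

theorem L135 {l v r : ℕ → ℝ} (h : H l v r) (a0 : r 7 < r 1) (a1 : l 0 < r 1) : False :=
  have c0 : v 7 < r 7 := h.u7_1
  have c1 : v 7 ≤ r 7 := not_lt.mp fun z => L23 h z
  have c2 : l 5 ≤ v 5 := not_lt.mp fun z => L28 h z
  have c3 : l 0 ≤ r 0 := not_lt.mp fun z => L33 h z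
  have c4 : l 4 < r 7 := not_le.mp fun z => L121 h z
  have c5 : v 0 < r 0 := h.u0_1
  have c6 : r 7 ≤ r 1 := le_of_lt a0
  have c7 : v 7 < r 1 := lt_trans c0 a0
  have c8 : v 7 ≤ r 1 := le_of_lt (lt_of_le_of_lt c1 a0)
  have c9 : l 7 < l 1 := h.prl7_1 a0
  have c10 : l 7 ≤ l 1 := not_lt.mp fun z => not_lt.mpr c6 (h.plr1_7 z)
  have c11 : ¬ S6 l v r := fun z => not_lt.mpr c8 z.2.2
  have c12 : v 7 < v 1 := h.plv7_1 c9
  have c13 : r 7 < v 1 := (h.e6.resolve_left c11).2.2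
  have c14 : r 7 ≤ v 1 := le_of_lt c13
  have c15 : v 5 ≤ v 7 := not_lt.mp fun z => L109 h z a0 a1
  have c16 : v 5 < v 1 := lt_of_le_of_lt c15 c12
  have c17 : l 5 ≤ l 7 := not_lt.mp fun z => not_lt.mpr c15 (h.plv7_5 z)
  have c18 : v 5 ≤ r 1 := le_of_lt (lt_of_le_of_lt c15 c7)
  have c19 : l 5 ≤ v 1 := le_of_lt (lt_of_le_of_lt c2 c16)
  have c20 : r 5 ≤ r 7 := not_lt.mp fun z => not_lt.mpr c17 (h.prl7_5 z)
  have c21 : l 5 ≤ l 1 := le_of_lt (lt_of_le_of_lt c17 c9)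
  have c22 : ¬ S4 l v r := fun z => not_lt.mpr c18 z.2.2
  have c23 : r 5 ≤ r 1 := le_trans c20 c6
  have c24 : l 1 < r 5 := (h.e4.resolve_left c22).2.1
  have c25 : l 7 ≤ r 5 := le_of_lt (lt_of_le_of_lt c10 c24)
  have c26 : r 0 ≤ r 6 := not_lt.mp fun z => L119 h z c25 c22 c19 c15 c11
  have c27 : l 0 ≤ r 6 := le_trans c3 c26
  have c28 : l 0 ≤ l 6 := not_lt.mp fun z => not_lt.mpr c26 (h.plr6_0 z)
  have c29 : l 4 ≤ v 1 := le_of_lt (lt_of_lt_of_le c4 c14)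
  have c30 : S5 l v r := Classical.byContradiction fun z => L126 h z c26 c24 c21 c15 c11
  have c31 : r 1 < v 6 := c30.2.2
  have c32 : v 1 < l 6 := c30.1
  have c33 : l 6 < r 1 := c30.2.1
  have c34 : r 2 ≤ l 6 := not_lt.mp fun z => L115 h c30 z c20 c19 c11
  have c35 : r 1 ≤ v 6 := le_of_lt c31
  have c36 : v 1 ≤ l 6 := le_of_lt c32
  have c37 : l 4 ≤ l 6 := le_of_lt (lt_of_le_of_lt c29 c32)
  have c38 : r 0 ≤ r 5 := not_lt.mp fun z => L132 h z c37 c36 c35 c34 c33 c28 c27 c24 c15 c11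
  have c39 : v 0 < r 5 := lt_of_lt_of_le c5 c38
  have c40 : l 0 ≤ l 5 := not_lt.mp fun z => not_lt.mpr c38 (h.plr5_0 z)
  have c41 : v 0 ≤ r 1 := le_of_lt (lt_of_lt_of_le c39 c23)
  have c42 : v 0 ≤ v 5 := not_lt.mp fun z => not_lt.mpr c40 (h.pvl5_0 z)
  have c43 : S0 l v r := h.e0.resolve_right fun z => not_lt.mpr c41 z.2.2
  have c44 : l 1 < r 0 := c43.2.1
  have c45 : l 7 ≤ r 0 := le_of_lt (lt_of_le_of_lt c10 c44)
  have c46 : l 4 < r 5 := not_le.mp fun z => L134 h z c38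
  have c47 : S9 l v r := Classical.byContradiction fun z => L129 h z c46 c15
  have c48 : l 7 < r 4 := c47.2.1
  have c49 : v 4 < l 7 := c47.1
  have c50 : l 5 < r 4 := lt_of_le_of_lt c17 c48
  have c51 : v 4 ≤ r 0 := le_of_lt (lt_of_lt_of_le c49 c45)
  have c52 : ¬ S3 l v r := fun z => not_lt.mpr c51 z.2.2
  have c53 : r 4 < v 0 := (h.e3.resolve_left c52).2.2
  have c54 : v 4 < l 0 := (h.e3.resolve_left c52).1
  have c55 : r 4 < v 5 := lt_of_lt_of_le c53 c42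
  have c56 : v 4 < l 5 := lt_of_lt_of_le c54 c40
  h.n4_5 c56 c50 c55

theorem L136 {l v r : ℕ → ℝ} (h : H l v r) (a0 : ¬ S3 l v r) (a1 : l 5 < r 4) (a2 : l 0 ≤ l 5) : False :=
  have c0 : v 0 ≤ v 5 := not_lt.mp fun z => not_lt.mpr a2 (h.pvl5_0 z)
  have c1 : r 4 < v 0 := (h.e3.resolve_left a0).2.2
  have c2 : v 4 < l 0 := (h.e3.resolve_left a0).1
  have c3 : r 4 < v 5 := lt_of_lt_of_le c1 c0
  have c4 : v 4 < l 5 := lt_of_lt_of_le c2 a2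
  h.n4_5 c4 a1 c3

theorem L137 {l v r : ℕ → ℝ} (h : H l v r) (a0 : l 5 ≤ l 6) (a1 : l 6 < r 4) (a2 : r 1 < v 5) (a3 : v 1 < l 5) (a4 : v 4 < l 5) (a5 : S8 l v r) (a6 : r 4 < v 7) (a7 : l 7 < r 1) : False :=
  have c0 : l 6 < r 3 := a5.2.1
  have c1 : r 3 < v 6 := a5.2.2
  have c2 : v 3 < l 6 := a5.1
  have c3 : l 5 < r 3 := lt_of_le_of_lt a0 c0
  have c4 : v 4 < l 6 := lt_of_lt_of_le a4 a0
  have c5 : v 1 ≤ v 3 := not_lt.mp fun z => L88 h z c3 a2 a3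
  have c6 : v 6 ≤ r 4 := not_lt.mp fun z => h.n4_6 c4 a1 z
  have c7 : l 1 ≤ l 3 := not_lt.mp fun z => not_lt.mpr c5 (h.plv3_1 z)
  have c8 : v 6 < v 7 := lt_of_le_of_lt c6 a6
  have c9 : r 1 ≤ r 3 := not_lt.mp fun z => not_lt.mpr c7 (h.prl3_1 z)
  have c10 : l 6 < l 7 := h.pvl6_7 c8
  have c11 : r 3 < v 7 := lt_trans c1 c8
  have c12 : l 7 < r 3 := lt_of_lt_of_le a7 c9
  have c13 : v 3 < l 7 := lt_trans c2 c10
  h.n3_7 c13 c12 c11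

theorem L138 {l v r : ℕ → ℝ} (h : H l v r) (a0 : l 6 < l 5) (a1 : l 2 < r 6) (a2 : S5 l v r) (a3 : v 5 ≤ v 7) (a4 : l 7 < r 1) : False :=
  have c0 : l 5 ≤ l 7 := not_lt.mp fun z => not_lt.mpr a3 (h.plv7_5 z)
  have c1 : l 6 ≤ l 5 := le_of_lt a0
  have c2 : S7 l v r := Classical.byContradiction fun z => L92 h z a0 a1
  have c3 : l 5 < r 2 := c2.2.1
  have c4 : v 2 < l 5 := c2.1
  have c5 : r 2 < v 5 := c2.2.2
  have c6 : l 6 < r 2 := lt_of_le_of_lt c1 c3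
  have c7 : v 2 < l 7 := lt_of_lt_of_le c4 c0
  have c8 : r 2 < v 7 := lt_of_lt_of_le c5 a3
  have c9 : l 1 ≤ l 2 := not_lt.mp fun z => L69 h z a2 c6
  have c10 : r 2 ≤ l 7 := not_lt.mp fun z => h.n2_7 c7 z c8
  have c11 : r 1 ≤ r 2 := not_lt.mp fun z => not_lt.mpr c9 (h.prl2_1 z)
  not_lt.mpr (le_trans c11 c10) a4

theorem L139 {l v r : ℕ → ℝ} (h : H l v r) (a0 : v 4 < l 5) (a1 : l 5 ≤ l 6) (a2 : S8 l v r) (a3 : l 6 < r 1) (a4 : l 1 ≤ v 4) (a5 : l 5 < r 4) (a6 : r 4 < v 7) (a7 : l 7 < r 1) : False :=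
  have c0 : l 5 ≤ v 5 := not_lt.mp fun z => L28 h z
  have c1 : v 4 < v 5 := lt_of_lt_of_le a0 c0
  have c2 : v 5 ≤ r 4 := not_lt.mp fun z => h.n4_5 a0 a5 z
  have c3 : l 1 ≤ v 5 := le_of_lt (lt_of_le_of_lt a4 c1)
  have c4 : S4 l v r := h.e4.resolve_right fun z => not_lt.mpr c3 z.1
  have c5 : v 1 < l 5 := c4.1
  have c6 : r 1 < v 5 := c4.2.2
  have c7 : l 6 < v 5 := lt_trans a3 c6
  have c8 : r 4 ≤ l 6 := not_lt.mp fun z => L137 h a1 z c6 c5 a0 a2 a6 a7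
  not_lt.mpr (le_trans c2 c8) c7

theorem L140 {l v r : ℕ → ℝ} (h : H l v r) (a0 : l 6 < r 2) (a1 : l 6 ≤ v 5) (a2 : l 5 ≤ l 6) (a3 : r 0 ≤ r 6) (a4 : l 0 ≤ l 5) : False :=
  have c0 : l 0 ≤ l 6 := not_lt.mp fun z => not_lt.mpr a3 (h.plr6_0 z)
  have c1 : S1 l v r := Classical.byContradiction fun z => L120 h z a0 c0
  have c2 : r 0 ≤ l 2 := not_lt.mp fun z => L91 h a2 a1 a0 a4 z a3
  not_lt.mpr c2 c1.2.1

theorem L141 {l v r : ℕ → ℝ} (h : H l v r) (a0 : v 6 < v 7) (a1 : l 7 < r 3) (a2 : S8 l v r) : False :=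
  have c0 : r 3 < v 6 := a2.2.2
  have c1 : v 3 < l 6 := a2.1
  have c2 : l 6 < l 7 := h.pvl6_7 a0
  have c3 : r 3 < v 7 := lt_trans c0 a0
  have c4 : v 3 < l 7 := lt_trans c1 c2
  h.n3_7 c4 a1 c3

theorem L142 {l v r : ℕ → ℝ} (h : H l v r) (a0 : v 1 < l 5) (a1 : l 5 ≤ v 4) (a2 : l 5 < r 3) (a3 : S8 l v r) (a4 : l 6 < r 1) (a5 : S9 l v r) (a6 : l 7 < r 1) : False :=
  have c0 : l 5 ≤ r 5 := not_lt.mp fun z => L29 h z
  have c1 : v 4 < l 7 := a5.1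
  have c2 : r 4 < v 7 := a5.2.2
  have c3 : v 1 ≤ r 5 := le_of_lt (lt_of_lt_of_le a0 c0)
  have c4 : v 1 ≤ v 4 := le_of_lt (lt_of_lt_of_le a0 a1)
  have c5 : S4 l v r := h.e4.resolve_right fun z => not_lt.mpr c3 z.2.2
  have c6 : l 1 ≤ l 4 := not_lt.mp fun z => not_lt.mpr c4 (h.plv4_1 z)
  have c7 : r 1 < v 5 := c5.2.2
  have c8 : r 1 ≤ r 4 := not_lt.mp fun z => not_lt.mpr c6 (h.prl4_1 z)
  have c9 : v 1 ≤ v 3 := not_lt.mp fun z => L88 h z a2 c7 a0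
  have c10 : l 6 < r 4 := lt_of_lt_of_le a4 c8
  have c11 : l 1 ≤ l 3 := not_lt.mp fun z => not_lt.mpr c9 (h.plv3_1 z)
  have c12 : r 1 ≤ r 3 := not_lt.mp fun z => not_lt.mpr c11 (h.prl3_1 z)
  have c13 : l 7 < r 3 := lt_of_lt_of_le a6 c12
  have c14 : v 7 ≤ v 6 := not_lt.mp fun z => L141 h z c13 a3
  have c15 : l 7 ≤ l 6 := not_lt.mp fun z => not_lt.mpr c14 (h.plv6_7 z)
  have c16 : r 4 < v 6 := lt_of_lt_of_le c2 c14
  have c17 : v 4 < l 6 := lt_of_lt_of_le c1 c15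
  h.n4_6 c17 c10 c16

theorem L143 {l v r : ℕ → ℝ} (h : H l v r) (a0 : l 1 ≤ l 3) (a1 : r 5 < v 1) (a2 : v 5 < l 1) (a3 : l 3 < r 5) : False :=
  have c0 : v 1 ≤ v 3 := not_lt.mp fun z => not_lt.mpr a0 (h.pvl3_1 z)
  have c1 : v 5 < l 3 := lt_of_lt_of_le a2 a0
  have c2 : r 5 < v 3 := lt_of_lt_of_le a1 c0
  h.n5_3 c1 a3 c2

theorem L144 {l v r : ℕ → ℝ} (h : H l v r) (a0 : l 6 ≤ v 4) (a1 : ¬ S4 l v r) (a2 : v 1 < l 6) (a3 : l 4 < r 5) : False :=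
  have c0 : v 1 < v 4 := lt_of_lt_of_le a2 a0
  have c1 : v 1 ≤ v 4 := le_of_lt (lt_of_lt_of_le a2 a0)
  have c2 : l 4 < l 1 := not_le.mp fun z => L56 h a1 c0 z a3
  not_lt.mpr c1 (h.plv4_1 c2)

theorem L145 {l v r : ℕ → ℝ} (h : H l v r) (a0 : r 1 ≤ v 6) (a1 : l 0 ≤ r 6) (a2 : v 5 ≤ v 7) (a3 : r 0 ≤ r 5) (a4 : S6 l v r) : False :=
  have c0 : l 4 ≤ v 4 := not_lt.mp fun z => L24 h z
  have c1 : l 1 ≤ r 1 := not_lt.mp fun z => L42 h z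
  have c2 : l 0 ≤ l 5 := not_lt.mp fun z => not_lt.mpr a3 (h.plr5_0 z)
  have c3 : l 5 ≤ l 7 := not_lt.mp fun z => not_lt.mpr a2 (h.plv7_5 z)
  have c4 : l 4 < r 5 := not_le.mp fun z => L134 h z a3
  have c5 : S9 l v r := Classical.byContradiction fun z => L129 h z c4 a2
  have c6 : l 7 < r 4 := c5.2.1
  have c7 : l 5 < r 4 := lt_of_le_of_lt c3 c6
  have c8 : S3 l v r := Classical.byContradiction fun z => L136 h z c7 c2
  have c9 : r 0 < v 4 := c8.2.2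
  have c10 : r 0 ≤ v 4 := le_of_lt c9
  have c11 : l 7 < r 1 := a4.2.1
  have c12 : l 7 ≤ r 1 := le_of_lt c11
  have c13 : v 4 < l 7 := c5.1
  have c14 : l 4 < l 7 := lt_of_le_of_lt c0 c13
  have c15 : l 4 ≤ r 1 := le_of_lt (lt_of_lt_of_le c14 c12)
  have c16 : v 0 < l 4 := c8.1
  have c17 : v 0 ≤ r 1 := le_of_lt (lt_of_lt_of_le c16 c15)
  have c18 : S0 l v r := h.e0.resolve_right fun z => not_lt.mpr c17 z.2.2
  have c19 : l 1 < r 0 := c18.2.1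
  have c20 : l 1 ≤ v 4 := le_of_lt (lt_of_lt_of_le c19 c10)
  have c21 : l 4 < r 1 := lt_trans c14 c11
  have c22 : v 4 < r 1 := lt_trans c13 c11
  have c23 : r 4 < v 7 := c5.2.2
  have c24 : v 1 < l 7 := a4.1
  have c25 : r 1 < v 7 := a4.2.2
  have c26 : r 1 ≤ r 6 := not_lt.mp fun z => L3 h z a0
  have c27 : l 1 ≤ v 6 := le_trans c1 a0
  have c28 : v 4 ≤ v 6 := le_of_lt (lt_of_lt_of_le c22 a0)
  have c29 : l 4 < r 6 := lt_of_lt_of_le c21 c26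
  have c30 : S5 l v r := h.e5.resolve_right fun z => not_lt.mpr c27 z.1
  have c31 : l 4 ≤ l 6 := not_lt.mp fun z => not_lt.mpr c28 (h.plv6_4 z)
  have c32 : r 1 < v 6 := c30.2.2
  have c33 : v 1 < l 6 := c30.1
  have c34 : l 6 < r 1 := c30.2.1
  have c35 : r 0 ≤ r 6 := not_lt.mp fun z => L63 h c8 c29 z
  have c36 : v 0 ≤ l 6 := le_of_lt (lt_of_lt_of_le c16 c31)
  have c37 : r 0 ≤ v 6 := le_of_lt (lt_of_lt_of_le c9 c28)
  have c38 : l 2 < r 6 := not_le.mp fun z => L79 h z c35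
  have c39 : S8 l v r := Classical.byContradiction fun z => L127 h z c37 a1
  have c40 : l 6 < r 3 := c39.2.1
  have c41 : v 0 ≤ r 3 := le_of_lt (lt_of_le_of_lt c36 c40)
  have c42 : S2 l v r := h.e2.resolve_right fun z => not_lt.mpr c41 z.2.2
  have c43 : l 3 < r 0 := c42.2.1
  have c44 : l 3 < r 5 := lt_of_lt_of_le c43 a3
  have c45 : l 5 ≤ l 6 := not_lt.mp fun z => L138 h z c38 c30 a2 c11
  have c46 : l 5 < r 3 := lt_of_le_of_lt c45 c40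
  have c47 : l 5 ≤ v 4 := not_lt.mp fun z => L139 h z c45 c39 c34 c20 c7 c23 c11
  have c48 : l 5 ≤ v 1 := not_lt.mp fun z => L142 h z c47 c46 c39 c34 c5 c11
  have c49 : ¬ S4 l v r := fun z => not_lt.mpr c48 z.1
  have c50 : v 5 < l 1 := (h.e4.resolve_left c49).1
  have c51 : r 5 < v 1 := (h.e4.resolve_left c49).2.2
  have c52 : l 3 < l 1 := not_le.mp fun z => L143 h z c51 c50 c44
  have c53 : r 3 < r 1 := h.plr3_1 c52
  have c54 : v 3 < v 1 := h.plv3_1 c52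
  have c55 : r 3 < v 7 := lt_trans c53 c25
  have c56 : v 3 < l 7 := lt_trans c54 c24
  have c57 : r 3 ≤ l 7 := not_lt.mp fun z => h.n3_7 c56 z c55
  have c58 : r 3 < r 4 := lt_of_le_of_lt c57 c6
  have c59 : l 6 < r 4 := lt_trans c40 c58
  have c60 : v 4 < l 6 := not_le.mp fun z => L144 h z c49 c33 c4
  have c61 : v 6 ≤ r 4 := not_lt.mp fun z => h.n4_6 c60 c59 z
  have c62 : r 1 < r 4 := lt_of_lt_of_le c32 c61
  have c63 : r 1 ≤ r 4 := le_of_lt (lt_of_lt_of_le c32 c61)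
  have c64 : l 1 < l 4 := h.prl1_4 c62
  have c65 : l 1 ≤ l 4 := not_lt.mp fun z => not_lt.mpr c63 (h.plr4_1 z)
  have c66 : v 1 < v 4 := h.plv1_4 c64
  L56 h c49 c66 c65 c4

theorem L146 {l v r : ℕ → ℝ} (h : H l v r) (a0 : S8 l v r) (a1 : l 5 ≤ r 0) (a2 : r 0 ≤ r 6) (a3 : l 6 ≤ r 0) (a4 : ¬ S5 l v r) (a5 : l 5 < r 4) (a6 : l 1 < r 5) (a7 : l 0 ≤ l 5) (a8 : l 1 < r 7) : False :=
  have c0 : l 2 < r 6 := not_le.mp fun z => L79 h z a2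
  have c1 : S3 l v r := Classical.byContradiction fun z => L136 h z a5 a7
  have c2 : l 4 < r 0 := c1.2.1
  have c3 : l 4 ≤ r 0 := le_of_lt c2
  have c4 : v 0 ≤ v 5 := not_lt.mp fun z => not_lt.mpr a7 (h.pvl5_0 z)
  have c5 : v 3 < l 6 := a0.1
  have c6 : l 6 < r 3 := a0.2.1
  have c7 : v 3 ≤ r 0 := le_of_lt (lt_of_lt_of_le c5 a3)
  have c8 : l 6 ≤ r 3 := le_of_lt c6
  have c9 : ¬ S2 l v r := fun z => not_lt.mpr c7 z.2.2
  have c10 : r 3 < v 0 := (h.e2.resolve_left c9).2.2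
  have c11 : v 3 < l 0 := (h.e2.resolve_left c9).1
  have c12 : r 3 < v 5 := lt_of_lt_of_le c10 c4
  have c13 : v 3 < l 5 := lt_of_lt_of_le c11 a7
  have c14 : r 3 ≤ l 5 := not_lt.mp fun z => h.n3_5 c13 z c12
  have c15 : l 6 ≤ l 5 := le_trans c8 c14
  have c16 : l 6 < l 5 := lt_of_lt_of_le c6 c14
  have c17 : S7 l v r := Classical.byContradiction fun z => L92 h z c16 c0
  have c18 : l 5 < r 2 := c17.2.1
  have c19 : l 2 < l 4 := not_le.mp fun z => L54 h c17 z a5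
  have c20 : l 6 < r 2 := lt_of_le_of_lt c15 c18
  have c21 : l 2 < r 0 := lt_of_lt_of_le c19 c3
  L125 h c20 a1 c21 a4 a2 a6 a8

theorem L147 {l v r : ℕ → ℝ} (h : H l v r) (a0 : l 3 ≤ l 4) (a1 : v 6 < l 3) (a2 : r 6 < v 3) (a3 : l 4 < r 6) : False :=
  have c0 : v 3 ≤ v 4 := not_lt.mp fun z => not_lt.mpr a0 (h.pvl4_3 z)
  have c1 : r 6 < v 4 := lt_of_lt_of_le a2 c0
  have c2 : v 6 < l 4 := lt_of_lt_of_le a1 a0
  h.n6_4 c2 a3 c1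

theorem L148 {l v r : ℕ → ℝ} (h : H l v r) (a0 : ¬ S4 l v r) (a1 : l 0 ≤ r 6) (a2 : v 5 ≤ v 7) (a3 : l 1 < r 5) (a4 : r 0 ≤ r 5) (a5 : r 1 ≤ r 7) : False :=
  have c0 : l 1 < r 1 := not_le.mp fun z => L41 h z
  have c1 : l 6 ≤ v 6 := not_lt.mp fun z => L20 h z
  have c2 : l 4 ≤ v 4 := not_lt.mp fun z => L24 h z
  have c3 : v 1 ≤ r 1 := not_lt.mp fun z => L36 h z
  have c4 : l 5 ≤ v 5 := not_lt.mp fun z => L28 h z
  have c5 : v 1 ≤ r 7 := le_trans c3 a5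
  have c6 : S6 l v r := h.e6.resolve_right fun z => not_lt.mpr c5 z.2.2
  have c7 : l 7 < r 1 := c6.2.1
  have c8 : l 7 ≤ r 1 := le_of_lt c7
  have c9 : l 4 < r 5 := not_le.mp fun z => L134 h z a4
  have c10 : S9 l v r := Classical.byContradiction fun z => L129 h z c9 a2
  have c11 : v 4 < l 7 := c10.1
  have c12 : l 4 < l 7 := lt_of_le_of_lt c2 c11
  have c13 : l 4 ≤ r 1 := le_of_lt (lt_of_lt_of_le c12 c8)
  have c14 : l 0 ≤ l 5 := not_lt.mp fun z => not_lt.mpr a4 (h.plr5_0 z)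
  have c15 : l 5 ≤ l 7 := not_lt.mp fun z => not_lt.mpr a2 (h.plv7_5 z)
  have c16 : l 7 < r 4 := c10.2.1
  have c17 : l 5 < r 4 := lt_of_le_of_lt c15 c16
  have c18 : S3 l v r := Classical.byContradiction fun z => L136 h z c17 c14
  have c19 : v 0 < l 4 := c18.1
  have c20 : v 0 ≤ r 1 := le_of_lt (lt_of_lt_of_le c19 c13)
  have c21 : S0 l v r := h.e0.resolve_right fun z => not_lt.mpr c20 z.2.2
  have c22 : l 1 < r 0 := c21.2.1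
  have c23 : v 6 < r 1 := not_le.mp fun z => L145 h z a1 a2 a4 c6
  have c24 : v 6 ≤ r 1 := le_of_lt c23
  have c25 : ¬ S5 l v r := fun z => not_lt.mpr c24 z.2.2
  have c26 : v 6 < l 1 := (h.e5.resolve_left c25).1
  have c27 : l 6 ≤ l 1 := le_of_lt (lt_of_le_of_lt c1 c26)
  have c28 : l 6 ≤ r 0 := le_of_lt (lt_of_le_of_lt c27 c22)
  have c29 : l 1 < r 6 := (h.e5.resolve_left c25).2.1
  have c30 : l 1 ≤ r 0 := le_of_lt c22
  have c31 : v 1 < l 7 := c6.1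
  have c32 : r 1 < v 7 := c6.2.2
  have c33 : l 1 < r 7 := lt_of_lt_of_le c0 a5
  have c34 : v 5 < l 1 := (h.e4.resolve_left a0).1
  have c35 : r 5 < v 1 := (h.e4.resolve_left a0).2.2
  have c36 : l 4 < r 6 := not_le.mp fun z => L110 h z c9 c29 a0
  have c37 : l 5 < l 1 := lt_of_le_of_lt c4 c34
  have c38 : r 0 ≤ r 6 := not_lt.mp fun z => L63 h c18 c36 z
  have c39 : l 5 ≤ r 0 := le_of_lt (lt_of_lt_of_le c37 c30)
  have c40 : ¬ S8 l v r := fun z => L146 h z c39 c38 c28 c25 c17 a3 c14 c33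
  have c41 : r 6 < v 3 := (h.e8.resolve_left c40).2.2
  have c42 : v 6 < l 3 := (h.e8.resolve_left c40).1
  have c43 : l 0 ≤ v 3 := le_of_lt (lt_of_le_of_lt a1 c41)
  have c44 : S2 l v r := h.e2.resolve_right fun z => not_lt.mpr c43 z.1
  have c45 : l 4 < l 3 := not_le.mp fun z => L147 h z c42 c41 c36
  have c46 : l 3 < r 0 := c44.2.1
  have c47 : r 4 < r 3 := h.plr4_3 c45
  have c48 : l 3 < r 5 := lt_of_lt_of_le c46 a4
  have c49 : l 7 < r 3 := lt_trans c16 c47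
  have c50 : l 3 < l 1 := not_le.mp fun z => L143 h z c35 c34 c48
  have c51 : r 3 < r 1 := h.plr3_1 c50
  have c52 : v 3 < v 1 := h.plv3_1 c50
  have c53 : r 3 < v 7 := lt_trans c51 c32
  have c54 : v 3 < l 7 := lt_trans c52 c31
  h.n3_7 c54 c49 c53

theorem L149 {l v r : ℕ → ℝ} (h : H l v r) (a0 : l 4 < r 6) (a1 : r 1 < v 5) (a2 : v 1 < l 5) (a3 : ¬ S5 l v r) (a4 : l 5 < r 4) : False :=
  have c0 : r 6 < v 1 := (h.e5.resolve_left a3).2.2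
  have c1 : r 6 < l 5 := lt_trans c0 a2
  have c2 : v 6 < l 1 := (h.e5.resolve_left a3).1
  have c3 : l 4 < l 1 := not_le.mp fun z => L105 h z a3 a0
  have c4 : v 4 < l 5 := not_le.mp fun z => L104 h z c1 a2 c2 a0
  have c5 : r 4 < r 1 := h.plr4_1 c3
  have c6 : v 5 ≤ r 4 := not_lt.mp fun z => h.n4_5 c4 a4 z
  not_lt.mpr c6 (lt_trans c5 a1)

theorem L150 {l v r : ℕ → ℝ} (h : H l v r) (a0 : l 2 < r 6) (a1 : r 6 < r 0) (a2 : l 6 < l 5) (a3 : v 0 ≤ l 5) : False :=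
  have c0 : ¬ S1 l v r := fun z => L116 h z a0 a1
  have c1 : S7 l v r := Classical.byContradiction fun z => L92 h z a2 a0
  have c2 : r 2 < v 0 := (h.e1.resolve_left c0).2.2
  have c3 : l 5 < r 2 := c1.2.1
  not_lt.mpr a3 (lt_trans c3 c2)

theorem L151 {l v r : ℕ → ℝ} (h : H l v r) (a0 : l 0 ≤ r 6) (a1 : v 5 ≤ v 7) (a2 : l 1 < r 5) (a3 : r 0 ≤ r 5) (a4 : r 1 ≤ r 7) : False :=
  have c0 : v 1 ≤ r 1 := not_lt.mp fun z => L36 h z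
  have c1 : l 6 ≤ r 6 := not_lt.mp fun z => L22 h z
  have c2 : v 1 ≤ r 7 := le_trans c0 a4
  have c3 : S6 l v r := h.e6.resolve_right fun z => not_lt.mpr c2 z.2.2
  have c4 : l 7 < r 1 := c3.2.1
  have c5 : l 7 ≤ r 1 := le_of_lt c4
  have c6 : l 4 < r 5 := not_le.mp fun z => L134 h z a3
  have c7 : S9 l v r := Classical.byContradiction fun z => L129 h z c6 a1
  have c8 : v 4 < l 7 := c7.1
  have c9 : v 4 ≤ r 1 := le_of_lt (lt_of_lt_of_le c8 c5)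
  have c10 : l 0 ≤ l 5 := not_lt.mp fun z => not_lt.mpr a3 (h.plr5_0 z)
  have c11 : l 5 ≤ l 7 := not_lt.mp fun z => not_lt.mpr a1 (h.plv7_5 z)
  have c12 : l 7 < r 4 := c7.2.1
  have c13 : l 5 < r 4 := lt_of_le_of_lt c11 c12
  have c14 : S3 l v r := Classical.byContradiction fun z => L136 h z c13 c10
  have c15 : r 0 < v 4 := c14.2.2
  have c16 : r 0 ≤ r 1 := le_of_lt (lt_of_lt_of_le c15 c9)
  have c17 : l 0 ≤ l 1 := not_lt.mp fun z => not_lt.mpr c16 (h.plr1_0 z)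
  have c18 : v 0 ≤ v 1 := not_lt.mp fun z => not_lt.mpr c17 (h.pvl1_0 z)
  have c19 : l 4 < r 0 := c14.2.1
  have c20 : v 6 < r 1 := not_le.mp fun z => L145 h z a0 a1 a3 c3
  have c21 : v 6 ≤ r 1 := le_of_lt c20
  have c22 : ¬ S5 l v r := fun z => not_lt.mpr c21 z.2.2
  have c23 : l 1 < r 6 := (h.e5.resolve_left c22).2.1
  have c24 : r 6 < v 1 := (h.e5.resolve_left c22).2.2
  have c25 : l 6 < v 1 := lt_of_le_of_lt c1 c24
  have c26 : S4 l v r := Classical.byContradiction fun z => L148 h z a0 a1 a2 a3 a4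
  have c27 : v 1 < l 5 := c26.1
  have c28 : r 1 < v 5 := c26.2.2
  have c29 : v 0 ≤ l 5 := le_of_lt (lt_of_le_of_lt c18 c27)
  have c30 : l 6 < l 5 := lt_trans c25 c27
  have c31 : r 0 ≤ v 5 := le_of_lt (lt_of_le_of_lt c16 c28)
  have c32 : r 6 ≤ l 4 := not_lt.mp fun z => L149 h z c28 c27 c22 c13
  have c33 : r 6 < r 0 := lt_of_le_of_lt c32 c19
  have c34 : r 6 ≤ l 2 := not_lt.mp fun z => L150 h z c33 c30 c29
  have c35 : r 6 ≤ v 2 := not_lt.mp fun z => L5 h z c34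
  have c36 : l 1 < l 2 := lt_of_lt_of_le c23 c34
  have c37 : l 0 ≤ v 2 := le_trans a0 c35
  have c38 : r 1 < r 2 := h.plr1_2 c36
  have c39 : S1 l v r := h.e1.resolve_right fun z => not_lt.mpr c37 z.1
  have c40 : l 7 < r 2 := lt_of_le_of_lt c5 c38
  have c41 : l 2 < r 0 := c39.2.1
  have c42 : l 2 ≤ v 5 := le_of_lt (lt_of_lt_of_le c41 c31)
  have c43 : S7 l v r := h.e7.resolve_right fun z => not_lt.mpr c42 z.1
  have c44 : v 2 < l 5 := c43.1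
  have c45 : r 2 < v 5 := c43.2.2
  have c46 : v 2 < l 7 := lt_of_lt_of_le c44 c11
  have c47 : r 2 < v 7 := lt_of_lt_of_le c45 a1
  h.n2_7 c46 c40 c47

theorem L152 {l v r : ℕ → ℝ} (h : H l v r) (a0 : v 5 ≤ v 7) (a1 : l 1 < r 5) (a2 : r 0 ≤ r 5) (a3 : r 1 ≤ r 7) : False :=
  have c0 : v 1 ≤ r 1 := not_lt.mp fun z => L36 h z
  have c1 : l 1 ≤ v 1 := not_lt.mp fun z => L43 h z
  have c2 : l 6 < r 6 := not_le.mp fun z => L21 h z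
  have c3 : l 4 < r 5 := not_le.mp fun z => L134 h z a2
  have c4 : l 0 ≤ l 5 := not_lt.mp fun z => not_lt.mpr a2 (h.plr5_0 z)
  have c5 : v 1 ≤ r 7 := le_trans c0 a3
  have c6 : S6 l v r := h.e6.resolve_right fun z => not_lt.mpr c5 z.2.2
  have c7 : l 7 < r 1 := c6.2.1
  have c8 : l 7 ≤ r 1 := le_of_lt c7
  have c9 : l 5 ≤ l 7 := not_lt.mp fun z => not_lt.mpr a0 (h.plv7_5 z)
  have c10 : S9 l v r := Classical.byContradiction fun z => L129 h z c3 a0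
  have c11 : l 7 < r 4 := c10.2.1
  have c12 : v 4 < l 7 := c10.1
  have c13 : l 5 < r 4 := lt_of_le_of_lt c9 c11
  have c14 : v 4 < r 1 := lt_trans c12 c7
  have c15 : v 4 ≤ r 1 := le_of_lt (lt_of_lt_of_le c12 c8)
  have c16 : S3 l v r := Classical.byContradiction fun z => L136 h z c13 c4
  have c17 : r 0 < v 4 := c16.2.2
  have c18 : r 0 < r 1 := lt_trans c17 c14
  have c19 : r 0 ≤ r 1 := le_of_lt (lt_of_lt_of_le c17 c15)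
  have c20 : l 0 < l 1 := h.prl0_1 c18
  have c21 : l 0 ≤ l 1 := not_lt.mp fun z => not_lt.mpr c19 (h.plr1_0 z)
  have c22 : l 0 ≤ v 1 := le_of_lt (lt_of_lt_of_le c20 c1)
  have c23 : r 6 < l 0 := not_le.mp fun z => L151 h z a0 a1 a2 a3
  have c24 : l 6 < l 0 := lt_trans c2 c23
  have c25 : r 6 ≤ l 1 := le_of_lt (lt_of_lt_of_le c23 c21)
  have c26 : l 6 ≤ v 1 := le_of_lt (lt_of_lt_of_le c24 c22)
  have c27 : S5 l v r := h.e5.resolve_right fun z => not_lt.mpr c25 z.2.1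
  not_lt.mpr c26 c27.1

theorem L153 {l v r : ℕ → ℝ} (h : H l v r) (a0 : S9 l v r) (a1 : l 5 < r 4) (a2 : v 7 < v 5) : False :=
  have c0 : l 7 < l 5 := h.pvl7_5 a2
  have c1 : r 4 < v 7 := a0.2.2
  have c2 : v 4 < l 7 := a0.1
  have c3 : r 4 < v 5 := lt_trans c1 a2
  have c4 : v 4 < l 5 := lt_trans c2 c0
  h.n4_5 c4 a1 c3

theorem L154 {l v r : ℕ → ℝ} (h : H l v r) (a0 : l 6 < l 5) (a1 : l 0 ≤ l 6) (a2 : l 5 ≤ r 0) : False :=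
  have c0 : r 0 ≤ r 6 := not_lt.mp fun z => not_lt.mpr a1 (h.prl6_0 z)
  have c1 : l 2 < r 6 := not_le.mp fun z => L79 h z c0
  have c2 : l 6 ≤ l 5 := le_of_lt a0
  have c3 : S7 l v r := Classical.byContradiction fun z => L92 h z a0 c1
  have c4 : l 5 < r 2 := c3.2.1
  have c5 : v 2 < l 5 := c3.1
  have c6 : l 6 < r 2 := lt_of_le_of_lt c2 c4
  have c7 : v 2 ≤ r 0 := le_of_lt (lt_of_lt_of_le c5 a2)
  have c8 : S1 l v r := Classical.byContradiction fun z => L120 h z c6 a1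
  not_lt.mpr c7 c8.2.2

theorem L155 {l v r : ℕ → ℝ} (h : H l v r) (a0 : l 0 ≤ l 6) (a1 : l 6 ≤ r 0) (a2 : l 5 ≤ r 0) (a3 : l 0 ≤ r 6) (a4 : l 6 ≤ r 5) (a5 : l 6 ≤ v 5) (a6 : l 0 ≤ l 5) : False :=
  have c0 : v 2 ≤ r 2 := not_lt.mp fun z => L12 h z
  have c1 : r 0 ≤ r 6 := not_lt.mp fun z => not_lt.mpr a0 (h.prl6_0 z)
  have c2 : l 5 ≤ l 6 := not_lt.mp fun z => L154 h z a0 a2
  have c3 : r 5 ≤ r 6 := not_lt.mp fun z => not_lt.mpr c2 (h.prl6_5 z)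
  have c4 : r 2 ≤ l 6 := not_lt.mp fun z => L140 h z a5 c2 c1 a6
  have c5 : v 6 ≤ v 5 := not_lt.mp fun z => L82 h a6 a1 z c3 a3
  have c6 : v 2 ≤ l 6 := le_trans c0 c4
  have c7 : l 6 ≤ l 5 := not_lt.mp fun z => not_lt.mpr c5 (h.plv5_6 z)
  have c8 : v 2 ≤ r 5 := le_trans c6 a4
  have c9 : r 2 ≤ l 5 := le_trans c4 c7
  have c10 : S7 l v r := h.e7.resolve_right fun z => not_lt.mpr c8 z.2.2
  not_lt.mpr c9 c10.2.1

theorem L156 {l v r : ℕ → ℝ} (h : H l v r) (a0 : S8 l v r) (a1 : l 7 ≤ l 0) (a2 : v 6 < v 7) (a3 : l 6 ≤ r 0) : False :=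
  have c0 : v 3 < l 6 := a0.1
  have c1 : r 3 ≤ l 7 := not_lt.mp fun z => L141 h a2 z a0
  have c2 : v 3 ≤ r 0 := le_of_lt (lt_of_lt_of_le c0 a3)
  have c3 : r 3 ≤ l 0 := le_trans c1 a1
  have c4 : ¬ S2 l v r := fun z => not_lt.mpr c2 z.2.2
  not_lt.mpr c3 (h.e2.resolve_left c4).2.1

theorem L157 {l v r : ℕ → ℝ} (h : H l v r) (a0 : l 7 < l 0) (a1 : v 6 < v 7) (a2 : r 6 ≤ r 7) (a3 : l 6 ≤ r 0) (a4 : l 0 ≤ r 6) : False :=
  have c0 : r 7 < r 0 := h.plr7_0 a0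
  have c1 : l 7 ≤ l 0 := le_of_lt a0
  have c2 : ¬ S8 l v r := fun z => L156 h z c1 a1 a3
  have c3 : r 6 < v 3 := (h.e8.resolve_left c2).2.2
  have c4 : l 3 < r 6 := (h.e8.resolve_left c2).2.1
  have c5 : l 0 ≤ v 3 := le_of_lt (lt_of_le_of_lt a4 c3)
  have c6 : l 3 < r 7 := lt_of_lt_of_le c4 a2
  have c7 : S2 l v r := h.e2.resolve_right fun z => not_lt.mpr c5 z.1
  L94 h c7 c6 c0

theorem L158 {l v r : ℕ → ℝ} (h : H l v r) (a0 : v 2 < l 0) (a1 : l 0 ≤ l 7) (a2 : l 7 < r 2) : False :=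
  have c0 : l 0 ≤ r 0 := not_lt.mp fun z => L33 h z
  have c1 : v 2 ≤ r 0 := le_of_lt (lt_of_lt_of_le a0 c0)
  have c2 : v 0 ≤ r 2 := not_lt.mp fun z => L60 h a1 a2 a0 z
  have c3 : ¬ S1 l v r := fun z => not_lt.mpr c1 z.2.2
  not_lt.mpr c2 (h.e1.resolve_left c3).2.2

theorem L159 {l v r : ℕ → ℝ} (h : H l v r) (a0 : l 5 < r 4) (a1 : l 0 ≤ r 6) (a2 : S5 l v r) (a3 : v 7 < v 5) (a4 : l 0 ≤ l 5) (a5 : S6 l v r) : False :=
  have c0 : l 5 ≤ r 1 := not_lt.mp fun z => L52 h z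
  have c1 : l 4 < r 7 := not_le.mp fun z => L121 h z
  have c2 : l 4 ≤ r 7 := not_lt.mp fun z => L122 h z
  have c3 : r 1 < v 7 := a5.2.2
  have c4 : r 1 < v 5 := lt_trans c3 a3
  have c5 : r 1 ≤ r 5 := not_lt.mp fun z => L17 h z c4
  have c6 : l 6 < r 1 := a2.2.1
  have c7 : l 6 ≤ r 5 := le_of_lt (lt_of_lt_of_le c6 c5)
  have c8 : r 1 ≤ v 7 := le_of_lt c3
  have c9 : r 1 ≤ v 5 := le_of_lt (lt_of_le_of_lt c8 a3)
  have c10 : l 6 ≤ v 5 := le_of_lt (lt_of_lt_of_le c6 c9)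
  have c11 : l 6 ≤ v 7 := le_of_lt (lt_of_lt_of_le c6 c8)
  have c12 : l 5 ≤ v 7 := le_of_lt (lt_of_le_of_lt c0 c3)
  have c13 : l 7 < r 1 := a5.2.1
  have c14 : S3 l v r := Classical.byContradiction fun z => L136 h z a0 a4
  have c15 : l 4 < r 0 := c14.2.1
  have c16 : ¬ S9 l v r := fun z => L153 h z a0 a3
  have c17 : v 7 < l 4 := (h.e9.resolve_left c16).1
  have c18 : v 7 < r 0 := lt_trans c17 c15
  have c19 : l 5 ≤ r 0 := le_of_lt (lt_of_le_of_lt c12 c18)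
  have c20 : l 6 ≤ r 0 := le_of_lt (lt_of_le_of_lt c11 c18)
  have c21 : l 6 < l 0 := not_le.mp fun z => L155 h z c20 c19 a1 c7 c10 a4
  have c22 : r 6 < r 0 := h.plr6_0 c21
  have c23 : l 6 < r 2 := not_le.mp fun z => L114 h z c22
  have c24 : r 6 ≤ l 4 := not_lt.mp fun z => L63 h c14 z c22
  have c25 : l 1 ≤ l 2 := not_lt.mp fun z => L69 h z a2 c23
  have c26 : r 6 < r 7 := lt_of_le_of_lt c24 c1
  have c27 : r 6 ≤ r 7 := le_trans c24 c2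
  have c28 : r 1 ≤ r 2 := not_lt.mp fun z => not_lt.mpr c25 (h.prl2_1 z)
  have c29 : l 6 < l 7 := h.prl6_7 c26
  have c30 : l 7 < r 2 := lt_of_lt_of_le c13 c28
  have c31 : v 6 < v 7 := h.plv6_7 c29
  have c32 : l 0 ≤ l 7 := not_lt.mp fun z => L157 h z c31 c27 c20 a1
  have c33 : r 0 ≤ r 7 := not_lt.mp fun z => not_lt.mpr c32 (h.prl7_0 z)
  have c34 : l 0 ≤ v 2 := not_lt.mp fun z => L158 h z c32 c30
  have c35 : S1 l v r := h.e1.resolve_right fun z => not_lt.mpr c34 z.1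
  have c36 : l 2 < r 0 := c35.2.1
  have c37 : r 0 < v 2 := c35.2.2
  have c38 : l 2 < r 7 := lt_of_lt_of_le c36 c33
  have c39 : l 5 ≤ v 2 := le_of_lt (lt_of_le_of_lt c19 c37)
  have c40 : S7 l v r := Classical.byContradiction fun z => L87 h z c38 a3
  not_lt.mpr c39 c40.1

theorem L160 {l v r : ℕ → ℝ} (h : H l v r) (a0 : l 6 ≤ r 0) (a1 : l 7 ≤ l 6) (a2 : S9 l v r) (a3 : l 0 ≤ r 6) (a4 : l 6 ≤ r 5) (a5 : l 6 ≤ v 5) (a6 : l 0 ≤ l 5) (a7 : l 5 ≤ r 7) : False :=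
  have c0 : l 7 ≤ r 0 := le_trans a1 a0
  have c1 : r 7 < r 0 := not_le.mp fun z => L100 h z a1 a0 a3
  have c2 : l 0 < l 6 := not_le.mp fun z => L62 h a2 c0 a1 z
  have c3 : l 5 ≤ r 0 := le_of_lt (lt_of_le_of_lt a7 c1)
  have c4 : l 0 ≤ l 6 := le_of_lt c2
  L155 h c4 a0 c3 a3 a4 a5 a6

theorem L161 {l v r : ℕ → ℝ} (h : H l v r) (a0 : l 6 < l 5) (a1 : v 0 < l 5) (a2 : l 7 < r 3) (a3 : r 3 < v 6) (a4 : v 3 < l 6) (a5 : r 0 ≤ v 6) (a6 : S6 l v r) : False :=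
  have c0 : l 5 < r 1 := not_le.mp fun z => L51 h z
  have c1 : v 1 < l 7 := a6.1
  have c2 : v 1 ≤ l 7 := le_of_lt c1
  have c3 : r 1 < v 7 := a6.2.2
  have c4 : l 5 < v 7 := lt_trans c0 c3
  have c5 : v 6 < v 5 := h.plv6_5 a0
  have c6 : l 6 ≤ l 5 := le_of_lt a0
  have c7 : v 3 < l 5 := lt_trans a4 a0
  have c8 : v 6 ≤ v 5 := le_of_lt c5
  have c9 : r 3 < v 5 := lt_trans a3 c5
  have c10 : r 3 ≤ l 5 := not_lt.mp fun z => h.n3_5 c7 z c9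
  have c11 : r 3 < r 1 := not_le.mp fun z => L93 h z a5 a1 c8 c6
  have c12 : r 3 < v 7 := lt_of_le_of_lt c10 c4
  have c13 : l 3 < l 1 := h.prl3_1 c11
  have c14 : l 7 ≤ v 3 := not_lt.mp fun z => h.n3_7 z a2 c12
  have c15 : v 3 < v 1 := h.plv3_1 c13
  not_lt.mpr (le_trans c2 c14) c15

theorem L162 {l v r : ℕ → ℝ} (h : H l v r) (a0 : S5 l v r) (a1 : v 7 < v 5) (a2 : l 0 ≤ l 5) (a3 : l 0 < r 1) : False :=
  have c0 : v 5 < r 5 := h.u5_1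
  have c1 : v 1 ≤ r 1 := not_lt.mp fun z => L36 h z
  have c2 : l 5 ≤ r 1 := not_lt.mp fun z => L52 h z
  have c3 : l 4 ≤ r 4 := not_lt.mp fun z => L10 h z
  have c4 : l 5 < r 1 := not_le.mp fun z => L51 h z
  have c5 : l 6 ≤ v 6 := not_lt.mp fun z => L20 h z
  have c6 : l 3 ≤ v 3 := not_lt.mp fun z => L4 h z
  have c7 : r 1 ≤ r 7 := not_lt.mp fun z => L135 h z a3
  have c8 : v 1 ≤ r 7 := le_trans c1 c7
  have c9 : S6 l v r := h.e6.resolve_right fun z => not_lt.mpr c8 z.2.2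
  have c10 : r 1 < v 7 := c9.2.2
  have c11 : r 1 < v 5 := lt_trans c10 a1
  have c12 : r 1 ≤ r 5 := not_lt.mp fun z => L17 h z c11
  have c13 : r 1 < r 5 := lt_trans c11 c0
  have c14 : v 1 < l 7 := c9.1
  have c15 : l 7 < l 5 := h.pvl7_5 a1
  have c16 : v 1 < l 5 := lt_trans c14 c15
  have c17 : r 1 ≤ v 7 := le_of_lt c10
  have c18 : r 1 ≤ v 5 := le_of_lt (lt_of_le_of_lt c17 a1)
  have c19 : l 5 < v 7 := lt_trans c4 c10
  have c20 : l 5 ≤ r 7 := le_of_lt (lt_of_lt_of_le c4 c7)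
  have c21 : r 1 < v 6 := a0.2.2
  have c22 : v 1 < l 6 := a0.1
  have c23 : l 6 < r 1 := a0.2.1
  have c24 : l 0 < v 6 := lt_trans a3 c21
  have c25 : l 5 < v 6 := lt_of_le_of_lt c2 c21
  have c26 : l 6 < v 7 := lt_trans c23 c10
  have c27 : l 6 ≤ v 5 := le_of_lt (lt_of_lt_of_le c23 c18)
  have c28 : l 6 < r 5 := lt_trans c23 c13
  have c29 : l 6 ≤ r 5 := le_of_lt (lt_of_lt_of_le c23 c12)
  have c30 : l 0 ≤ r 6 := not_lt.mp fun z => L40 h z c24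
  have c31 : r 4 ≤ l 5 := not_lt.mp fun z => L159 h z c30 a0 a1 a2 c9
  have c32 : l 4 ≤ l 5 := le_trans c3 c31
  have c33 : r 4 < r 1 := lt_of_le_of_lt c31 c4
  have c34 : r 4 < v 6 := lt_of_le_of_lt c31 c25
  have c35 : l 4 ≤ v 7 := le_of_lt (lt_of_le_of_lt c32 c19)
  have c36 : l 4 < l 1 := h.prl4_1 c33
  have c37 : S9 l v r := h.e9.resolve_right fun z => not_lt.mpr c35 z.1
  have c38 : v 4 < v 1 := h.plv4_1 c36
  have c39 : l 7 < r 4 := c37.2.1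
  have c40 : v 4 < l 6 := lt_trans c38 c22
  have c41 : r 4 ≤ l 6 := not_lt.mp fun z => h.n4_6 c40 z c34
  have c42 : l 7 ≤ l 6 := le_of_lt (lt_of_lt_of_le c39 c41)
  have c43 : r 0 < l 6 := not_le.mp fun z => L160 h z c42 c37 c30 c29 c27 a2 c20
  have c44 : r 0 ≤ v 6 := le_of_lt (lt_of_lt_of_le c43 c5)
  have c45 : r 0 ≤ r 6 := not_lt.mp fun z => L26 h z c43
  have c46 : r 0 < r 1 := lt_trans c43 c23
  have c47 : S8 l v r := Classical.byContradiction fun z => L127 h z c44 c30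
  have c48 : l 0 < l 1 := h.prl0_1 c46
  have c49 : v 3 < l 6 := c47.1
  have c50 : r 3 < v 6 := c47.2.2
  have c51 : l 6 < r 3 := c47.2.1
  have c52 : v 0 < v 1 := h.plv0_1 c48
  have c53 : l 3 ≤ l 6 := le_of_lt (lt_of_le_of_lt c6 c49)
  have c54 : l 7 < r 3 := lt_of_le_of_lt c42 c51
  have c55 : v 0 < l 5 := lt_trans c52 c16
  have c56 : l 3 < r 5 := lt_of_le_of_lt c53 c28
  have c57 : l 5 ≤ l 6 := not_lt.mp fun z => L161 h z c55 c54 c50 c49 c44 c9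
  have c58 : r 2 ≤ l 6 := not_lt.mp fun z => L140 h z c27 c57 c45 a2
  have c59 : r 2 ≤ r 1 := le_of_lt (lt_of_le_of_lt c58 c23)
  have c60 : r 2 < v 7 := lt_of_le_of_lt c58 c26
  have c61 : r 2 < r 3 := lt_of_le_of_lt c58 c51
  have c62 : l 2 ≤ l 1 := not_lt.mp fun z => not_lt.mpr c59 (h.plr1_2 z)
  have c63 : l 2 < l 3 := h.prl2_3 c61
  have c64 : v 2 ≤ v 1 := not_lt.mp fun z => not_lt.mpr c62 (h.pvl1_2 z)
  have c65 : v 2 < l 7 := lt_of_le_of_lt c64 c14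
  have c66 : S7 l v r := Classical.byContradiction fun z => L133 h z c56 c63
  have c67 : r 2 ≤ l 7 := not_lt.mp fun z => h.n2_7 c65 z c60
  have c68 : l 5 < r 2 := c66.2.1
  not_lt.mpr c67 (lt_trans c15 c68)

theorem L163 {l v r : ℕ → ℝ} (h : H l v r) (a0 : r 0 ≤ l 1) : False :=
  have c0 : l 1 < v 1 := h.u1_0
  have c1 : l 0 ≤ r 0 := not_lt.mp fun z => L33 h z
  have c2 : r 0 < v 1 := lt_of_le_of_lt a0 c0
  have c3 : ¬ S0 l v r := fun z => not_lt.mpr a0 z.2.1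
  have c4 : l 0 ≤ v 1 := le_of_lt (lt_of_le_of_lt c1 c2)
  not_lt.mpr c4 (h.e0.resolve_left c3).1

theorem L164 {l v r : ℕ → ℝ} (h : H l v r) (a0 : S7 l v r) (a1 : l 0 ≤ l 7) (a2 : l 5 ≤ r 0) (a3 : l 7 < l 5) : False :=
  have c0 : l 5 < r 2 := a0.2.1
  have c1 : v 2 < l 5 := a0.1
  have c2 : l 7 < r 2 := lt_trans a3 c0
  have c3 : v 2 ≤ r 0 := le_of_lt (lt_of_lt_of_le c1 a2)
  have c4 : l 0 ≤ v 2 := not_lt.mp fun z => L158 h z a1 c2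
  have c5 : ¬ S1 l v r := fun z => not_lt.mpr c3 z.2.2
  not_lt.mpr c4 (h.e1.resolve_left c5).1

theorem L165 {l v r : ℕ → ℝ} (h : H l v r) (a0 : ¬ S0 l v r) (a1 : r 6 ≤ r 1) (a2 : v 6 ≤ v 1) (a3 : v 6 ≤ r 1) (a4 : v 7 < v 5) (a5 : r 0 ≤ r 5) (a6 : S6 l v r) : False :=
  have c0 : v 0 ≤ r 0 := not_lt.mp fun z => L39 h z
  have c1 : l 5 ≤ r 1 := not_lt.mp fun z => L52 h z
  have c2 : l 3 ≤ r 3 := not_lt.mp fun z => L34 h z
  have c3 : l 5 < r 1 := not_le.mp fun z => L51 h z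
  have c4 : l 7 < l 5 := h.pvl7_5 a4
  have c5 : l 0 ≤ l 5 := not_lt.mp fun z => not_lt.mpr a5 (h.plr5_0 z)
  have c6 : v 0 ≤ v 5 := not_lt.mp fun z => not_lt.mpr c5 (h.pvl5_0 z)
  have c7 : l 0 ≤ r 5 := not_lt.mp fun z => L35 h z a5
  have c8 : r 1 < v 7 := a6.2.2
  have c9 : l 5 < v 7 := lt_trans c3 c8
  have c10 : v 1 < l 7 := a6.1
  have c11 : r 1 < v 0 := (h.e0.resolve_left a0).2.2
  have c12 : v 1 < l 0 := (h.e0.resolve_left a0).1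
  have c13 : r 1 < r 0 := lt_of_lt_of_le c11 c0
  have c14 : v 6 < v 0 := lt_of_le_of_lt a3 c11
  have c15 : r 6 ≤ v 0 := le_of_lt (lt_of_le_of_lt a1 c11)
  have c16 : v 6 ≤ l 0 := le_of_lt (lt_of_le_of_lt a2 c12)
  have c17 : l 5 ≤ r 0 := le_of_lt (lt_of_le_of_lt c1 c13)
  have c18 : v 6 < l 3 := not_le.mp fun z => L49 h z c16 c14
  have c19 : v 6 ≤ r 3 := le_of_lt (lt_of_lt_of_le c18 c2)
  have c20 : ¬ S8 l v r := fun z => not_lt.mpr c19 z.2.2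
  have c21 : l 3 < r 6 := (h.e8.resolve_left c20).2.1
  have c22 : l 3 ≤ v 0 := le_of_lt (lt_of_lt_of_le c21 c15)
  have c23 : ¬ S2 l v r := fun z => not_lt.mpr c22 z.1
  have c24 : r 3 < v 0 := (h.e2.resolve_left c23).2.2
  have c25 : v 3 < l 0 := (h.e2.resolve_left c23).1
  have c26 : l 0 < r 3 := (h.e2.resolve_left c23).2.1
  have c27 : r 3 < v 5 := lt_of_lt_of_le c24 c6
  have c28 : v 3 < l 5 := lt_of_lt_of_le c25 c5
  have c29 : l 0 ≤ r 3 := le_of_lt c26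
  have c30 : r 3 ≤ l 5 := not_lt.mp fun z => h.n3_5 c28 z c27
  have c31 : r 3 < r 1 := lt_of_le_of_lt c30 c3
  have c32 : r 3 < v 7 := lt_of_le_of_lt c30 c9
  have c33 : l 3 < l 1 := h.prl3_1 c31
  have c34 : v 3 < v 1 := h.plv3_1 c33
  have c35 : v 3 < l 7 := lt_trans c34 c10
  have c36 : r 3 ≤ l 7 := not_lt.mp fun z => h.n3_7 c35 z c32
  have c37 : l 0 ≤ l 7 := le_trans c29 c36
  have c38 : r 0 ≤ r 7 := not_lt.mp fun z => not_lt.mpr c37 (h.prl7_0 z)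
  have c39 : ¬ S7 l v r := fun z => L164 h z c37 c17 c4
  have c40 : r 5 < v 2 := (h.e7.resolve_left c39).2.2
  have c41 : r 7 ≤ l 2 := not_lt.mp fun z => L87 h c39 z a4
  have c42 : l 0 ≤ v 2 := le_of_lt (lt_of_le_of_lt c7 c40)
  have c43 : r 0 ≤ l 2 := le_trans c38 c41
  have c44 : S1 l v r := h.e1.resolve_right fun z => not_lt.mpr c42 z.1
  not_lt.mpr c43 c44.2.1

theorem L166 {l v r : ℕ → ℝ} (h : H l v r) (a0 : ¬ S7 l v r) (a1 : r 0 ≤ v 5) (a2 : l 0 ≤ r 5) : False :=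
  have c0 : r 5 < v 2 := (h.e7.resolve_left a0).2.2
  have c1 : v 5 < l 2 := (h.e7.resolve_left a0).1
  have c2 : l 0 ≤ v 2 := le_of_lt (lt_of_le_of_lt a2 c0)
  have c3 : r 0 ≤ l 2 := le_of_lt (lt_of_le_of_lt a1 c1)
  have c4 : S1 l v r := h.e1.resolve_right fun z => not_lt.mpr c2 z.1
  not_lt.mpr c3 c4.2.1

theorem L167 {l v r : ℕ → ℝ} (h : H l v r) (a0 : S9 l v r) (a1 : r 6 < r 0) (a2 : v 0 ≤ l 7) (a3 : l 1 < r 6) (a4 : v 7 < v 5) : False :=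
  have c0 : l 5 < r 1 := not_le.mp fun z => L51 h z
  have c1 : l 7 < r 4 := a0.2.1
  have c2 : r 4 ≤ l 5 := not_lt.mp fun z => L153 h a0 z a4
  have c3 : v 0 ≤ r 4 := le_of_lt (lt_of_le_of_lt a2 c1)
  have c4 : r 4 < r 1 := lt_of_le_of_lt c2 c0
  have c5 : S3 l v r := h.e3.resolve_right fun z => not_lt.mpr c3 z.2.2
  have c6 : l 4 < l 1 := h.prl4_1 c4
  have c7 : r 6 ≤ l 4 := not_lt.mp fun z => L63 h c5 z a1
  not_lt.mpr c7 (lt_trans c6 a3)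

theorem L168 {l v r : ℕ → ℝ} (h : H l v r) (a0 : ¬ S9 l v r) (a1 : r 0 ≤ v 7) (a2 : l 0 ≤ r 7) : False :=
  have c0 : r 7 < v 4 := (h.e9.resolve_left a0).2.2
  have c1 : v 7 < l 4 := (h.e9.resolve_left a0).1
  have c2 : l 0 ≤ v 4 := le_of_lt (lt_of_le_of_lt a2 c0)
  have c3 : r 0 ≤ l 4 := le_of_lt (lt_of_le_of_lt a1 c1)
  have c4 : S3 l v r := h.e3.resolve_right fun z => not_lt.mpr c2 z.1
  not_lt.mpr c3 c4.2.1

theorem L169 {l v r : ℕ → ℝ} (h : H l v r) (a0 : ¬ S8 l v r) (a1 : l 3 ≤ l 4) (a2 : l 4 < r 6) : False :=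
  have c0 : r 6 < v 3 := (h.e8.resolve_left a0).2.2
  have c1 : v 6 < l 3 := (h.e8.resolve_left a0).1
  L147 h a1 c1 c0 a2

theorem L170 {l v r : ℕ → ℝ} (h : H l v r) (a0 : l 7 ≤ v 2) (a1 : l 2 < r 6) (a2 : r 6 < l 7) (a3 : v 6 < l 1) (a4 : v 1 < l 7) : False :=
  have c0 : r 6 < v 2 := lt_of_lt_of_le a2 a0
  have c1 : v 1 ≤ v 2 := le_of_lt (lt_of_lt_of_le a4 a0)
  have c2 : l 2 ≤ v 6 := not_lt.mp fun z => h.n6_2 z a1 c0
  have c3 : l 1 ≤ l 2 := not_lt.mp fun z => not_lt.mpr c1 (h.plv2_1 z)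
  not_lt.mpr (le_trans c3 c2) a3

theorem L171 {l v r : ℕ → ℝ} (h : H l v r) (a0 : v 7 < v 5) (a1 : r 0 ≤ r 5) (a2 : l 0 < r 1) : False :=
  have c0 : l 1 ≤ r 1 := not_lt.mp fun z => L42 h z
  have c1 : v 1 ≤ r 1 := not_lt.mp fun z => L36 h z
  have c2 : l 0 ≤ l 5 := not_lt.mp fun z => not_lt.mpr a1 (h.plr5_0 z)
  have c3 : l 0 ≤ r 5 := not_lt.mp fun z => L35 h z a1
  have c4 : r 1 ≤ r 7 := not_lt.mp fun z => L135 h z a2
  have c5 : v 1 ≤ r 7 := le_trans c1 c4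
  have c6 : S6 l v r := h.e6.resolve_right fun z => not_lt.mpr c5 z.2.2
  have c7 : v 1 < l 7 := c6.1
  have c8 : v 1 ≤ l 7 := le_of_lt c7
  have c9 : r 1 < v 7 := c6.2.2
  have c10 : l 1 ≤ l 7 := not_lt.mp fun z => not_lt.mpr c4 (h.plr7_1 z)
  have c11 : v 1 ≤ v 7 := not_lt.mp fun z => not_lt.mpr c10 (h.pvl7_1 z)
  have c12 : l 0 ≤ r 7 := le_of_lt (lt_of_lt_of_le a2 c4)
  have c13 : v 1 ≤ v 5 := le_of_lt (lt_of_le_of_lt c11 a0)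
  have c14 : l 7 < l 5 := h.pvl7_5 a0
  have c15 : ¬ S5 l v r := fun z => L162 h z a0 c2 a2
  have c16 : v 6 < l 1 := (h.e5.resolve_left c15).1
  have c17 : l 1 < r 6 := (h.e5.resolve_left c15).2.1
  have c18 : r 6 < v 1 := (h.e5.resolve_left c15).2.2
  have c19 : v 6 ≤ r 1 := le_of_lt (lt_of_lt_of_le c16 c0)
  have c20 : v 6 ≤ v 1 := not_lt.mp fun z => L46 h z c16
  have c21 : r 6 < l 7 := lt_of_lt_of_le c18 c8
  have c22 : r 6 ≤ r 1 := le_of_lt (lt_of_lt_of_le c18 c1)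
  have c23 : S0 l v r := Classical.byContradiction fun z => L165 h z c22 c20 c19 a0 a1 c6
  have c24 : v 0 < l 1 := c23.1
  have c25 : r 0 < v 1 := c23.2.2
  have c26 : v 0 ≤ l 7 := le_of_lt (lt_of_lt_of_le c24 c10)
  have c27 : r 0 ≤ v 7 := le_of_lt (lt_of_lt_of_le c25 c11)
  have c28 : r 0 ≤ v 5 := le_of_lt (lt_of_lt_of_le c25 c13)
  have c29 : S7 l v r := Classical.byContradiction fun z => L166 h z c28 c3
  have c30 : l 5 < r 2 := c29.2.1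
  have c31 : l 7 < r 2 := lt_trans c14 c30
  have c32 : S9 l v r := Classical.byContradiction fun z => L168 h z c27 c12
  have c33 : r 0 ≤ r 6 := not_lt.mp fun z => L167 h c32 z c26 c17 a0
  have c34 : l 2 < r 6 := not_le.mp fun z => L79 h z c33
  have c35 : v 2 < l 7 := not_le.mp fun z => L170 h z c34 c21 c16 c7
  have c36 : v 7 ≤ r 2 := not_lt.mp fun z => h.n2_7 c35 c31 z
  have c37 : r 1 ≤ r 2 := le_of_lt (lt_of_lt_of_le c9 c36)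
  have c38 : l 1 ≤ l 2 := not_lt.mp fun z => not_lt.mpr c37 (h.plr2_1 z)
  have c39 : v 1 ≤ v 2 := not_lt.mp fun z => not_lt.mpr c38 (h.pvl2_1 z)
  have c40 : v 6 < l 2 := lt_of_lt_of_le c16 c38
  have c41 : r 6 < v 2 := lt_of_lt_of_le c18 c39
  h.n6_2 c40 c34 c41

theorem L172 {l v r : ℕ → ℝ} (h : H l v r) (a0 : r 0 ≤ r 5) (a1 : l 0 < r 1) : False :=
  have c0 : l 1 < r 0 := not_le.mp fun z => L163 h z
  have c1 : r 1 ≤ r 7 := not_lt.mp fun z => L135 h z a1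
  have c2 : v 5 ≤ v 7 := not_lt.mp fun z => L171 h z a0 a1
  have c3 : l 1 < r 5 := lt_of_lt_of_le c0 a0
  L152 h c2 c3 a0 c1

theorem L173 {l v r : ℕ → ℝ} (h : H l v r) (a0 : ¬ S5 l v r) (a1 : r 0 ≤ r 6) (a2 : l 1 < r 5) (a3 : l 0 < r 1) : False :=
  have c0 : v 1 ≤ r 1 := not_lt.mp fun z => L36 h z
  have c1 : v 1 < r 1 := h.u1_1
  have c2 : l 0 ≤ l 6 := not_lt.mp fun z => not_lt.mpr a1 (h.plr6_0 z)
  have c3 : v 0 ≤ v 6 := not_lt.mp fun z => not_lt.mpr c2 (h.pvl6_0 z)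
  have c4 : r 5 < r 0 := not_le.mp fun z => L172 h z a3
  have c5 : r 1 ≤ r 7 := not_lt.mp fun z => L135 h z a3
  have c6 : v 1 ≤ r 7 := le_trans c0 c5
  have c7 : S6 l v r := h.e6.resolve_right fun z => not_lt.mpr c6 z.2.2
  have c8 : r 1 < v 7 := c7.2.2
  have c9 : v 1 < v 7 := lt_trans c1 c8
  have c10 : l 0 ≤ r 7 := le_of_lt (lt_of_lt_of_le a3 c5)
  have c11 : l 1 ≤ l 7 := not_lt.mp fun z => not_lt.mpr c5 (h.plr7_1 z)
  have c12 : v 6 < l 1 := (h.e5.resolve_left a0).1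
  have c13 : r 6 < v 1 := (h.e5.resolve_left a0).2.2
  have c14 : ¬ S3 l v r := fun z => L123 h z c4 a0 a1 a2
  have c15 : v 6 ≤ l 7 := le_of_lt (lt_of_lt_of_le c12 c11)
  have c16 : r 6 < v 7 := lt_trans c13 c9
  have c17 : r 4 < v 0 := (h.e3.resolve_left c14).2.2
  have c18 : v 0 ≤ l 7 := le_trans c3 c15
  have c19 : r 0 ≤ v 7 := le_of_lt (lt_of_le_of_lt a1 c16)
  have c20 : r 4 ≤ l 7 := le_of_lt (lt_of_lt_of_le c17 c18)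
  have c21 : S9 l v r := Classical.byContradiction fun z => L168 h z c19 c10
  not_lt.mpr c20 c21.2.1

theorem L174 {l v r : ℕ → ℝ} (h : H l v r) (a0 : v 0 ≤ l 7) (a1 : S9 l v r) (a2 : l 1 ≤ l 6) (a3 : v 1 ≤ v 6) (a4 : l 6 < r 1) (a5 : l 0 ≤ r 6) (a6 : l 1 ≤ r 5) (a7 : l 0 < r 1) : False :=
  have c0 : v 1 ≤ r 1 := not_lt.mp fun z => L36 h z
  have c1 : v 4 < l 7 := a1.1
  have c2 : r 4 < v 7 := a1.2.2
  have c3 : l 7 < r 4 := a1.2.1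
  have c4 : r 5 < r 0 := not_le.mp fun z => L172 h z a7
  have c5 : l 5 < l 0 := h.prl5_0 c4
  have c6 : v 5 < v 0 := h.plv5_0 c5
  have c7 : r 1 ≤ r 7 := not_lt.mp fun z => L135 h z a7
  have c8 : v 1 ≤ r 7 := le_trans c0 c7
  have c9 : S6 l v r := h.e6.resolve_right fun z => not_lt.mpr c8 z.2.2
  have c10 : l 7 < r 1 := c9.2.1
  have c11 : v 0 ≤ r 1 := le_of_lt (lt_of_le_of_lt a0 c10)
  have c12 : v 0 ≤ r 4 := le_of_lt (lt_of_le_of_lt a0 c3)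
  have c13 : S0 l v r := h.e0.resolve_right fun z => not_lt.mpr c11 z.2.2
  have c14 : S3 l v r := h.e3.resolve_right fun z => not_lt.mpr c12 z.2.2
  have c15 : v 0 < l 1 := c13.1
  have c16 : r 0 < v 1 := c13.2.2
  have c17 : v 0 < l 4 := c14.1
  have c18 : r 0 < v 4 := c14.2.2
  have c19 : v 0 ≤ l 6 := le_of_lt (lt_of_lt_of_le c15 a2)
  have c20 : r 0 ≤ v 6 := le_of_lt (lt_of_lt_of_le c16 a3)
  have c21 : v 0 ≤ l 4 := le_of_lt c17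
  have c22 : r 0 ≤ v 4 := le_of_lt c18
  have c23 : S8 l v r := Classical.byContradiction fun z => L127 h z c20 a5
  have c24 : r 5 ≤ l 4 := not_lt.mp fun z => L103 h c5 z c22 c21
  have c25 : l 6 < r 3 := c23.2.1
  have c26 : l 1 ≤ l 4 := le_trans a6 c24
  have c27 : v 0 ≤ r 3 := le_of_lt (lt_of_le_of_lt c19 c25)
  have c28 : r 1 ≤ r 4 := not_lt.mp fun z => not_lt.mpr c26 (h.prl4_1 z)
  have c29 : S2 l v r := h.e2.resolve_right fun z => not_lt.mpr c27 z.2.2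
  have c30 : l 6 < r 4 := lt_of_lt_of_le a4 c28
  have c31 : v 0 < l 3 := c29.1
  have c32 : r 0 < v 3 := c29.2.2
  have c33 : v 5 < l 3 := lt_trans c6 c31
  have c34 : r 5 < v 3 := lt_trans c4 c32
  have c35 : r 5 ≤ l 3 := not_lt.mp fun z => h.n5_3 c33 z c34
  have c36 : l 1 ≤ l 3 := le_trans a6 c35
  have c37 : r 1 ≤ r 3 := not_lt.mp fun z => not_lt.mpr c36 (h.prl3_1 z)
  have c38 : l 7 < r 3 := lt_of_lt_of_le c10 c37
  have c39 : v 7 ≤ v 6 := not_lt.mp fun z => L141 h z c38 c23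
  have c40 : l 7 ≤ l 6 := not_lt.mp fun z => not_lt.mpr c39 (h.plv6_7 z)
  have c41 : r 4 < v 6 := lt_of_lt_of_le c2 c39
  have c42 : v 4 < l 6 := lt_of_lt_of_le c1 c40
  h.n4_6 c42 c30 c41

theorem L175 {l v r : ℕ → ℝ} (h : H l v r) (a0 : v 2 < l 7) (a1 : l 7 < l 0) (a2 : l 7 ≤ r 0) (a3 : l 6 < v 7) (a4 : l 0 ≤ l 6) : False :=
  have c0 : v 2 ≤ r 0 := le_of_lt (lt_of_lt_of_le a0 a2)
  have c1 : ¬ S1 l v r := fun z => not_lt.mpr c0 z.2.2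
  have c2 : l 0 < r 2 := (h.e1.resolve_left c1).2.1
  have c3 : r 2 ≤ l 6 := not_lt.mp fun z => L120 h c1 z a4
  have c4 : l 7 < r 2 := lt_trans a1 c2
  have c5 : r 2 < v 7 := lt_of_le_of_lt c3 a3
  h.n2_7 a0 c4 c5

theorem L176 {l v r : ℕ → ℝ} (h : H l v r) (a0 : S9 l v r) (a1 : l 1 ≤ l 6) (a2 : v 1 ≤ v 6) (a3 : l 6 < r 1) (a4 : l 0 ≤ l 6) (a5 : l 0 ≤ r 6) (a6 : l 1 ≤ r 5) (a7 : l 5 ≤ l 7) (a8 : l 0 < r 1) : False :=
  have c0 : v 1 ≤ r 1 := not_lt.mp fun z => L36 h z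
  have c1 : l 4 ≤ v 4 := not_lt.mp fun z => L24 h z
  have c2 : v 0 ≤ r 0 := not_lt.mp fun z => L39 h z
  have c3 : r 1 ≤ r 7 := not_lt.mp fun z => L135 h z a8
  have c4 : v 1 ≤ r 7 := le_trans c0 c3
  have c5 : S6 l v r := h.e6.resolve_right fun z => not_lt.mpr c4 z.2.2
  have c6 : r 1 < v 7 := c5.2.2
  have c7 : l 6 < v 7 := lt_trans a3 c6
  have c8 : v 0 ≤ v 6 := not_lt.mp fun z => not_lt.mpr a4 (h.pvl6_0 z)
  have c9 : r 5 ≤ r 7 := not_lt.mp fun z => not_lt.mpr a7 (h.prl7_5 z)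
  have c10 : v 1 < l 7 := c5.1
  have c11 : v 1 ≤ l 7 := le_of_lt c10
  have c12 : l 7 < r 4 := a0.2.1
  have c13 : v 4 < l 7 := a0.1
  have c14 : l 4 ≤ l 7 := le_of_lt (lt_of_le_of_lt c1 c13)
  have c15 : l 7 < v 0 := not_le.mp fun z => L174 h z a0 a1 a2 a3 a5 a6 a8
  have c16 : v 1 ≤ v 0 := le_of_lt (lt_of_le_of_lt c11 c15)
  have c17 : l 7 ≤ r 0 := le_of_lt (lt_of_lt_of_le c15 c2)
  have c18 : l 4 ≤ v 0 := le_of_lt (lt_of_le_of_lt c14 c15)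
  have c19 : l 1 ≤ l 0 := not_lt.mp fun z => not_lt.mpr c16 (h.plv0_1 z)
  have c20 : ¬ S3 l v r := fun z => not_lt.mpr c18 z.1
  have c21 : r 1 ≤ r 0 := not_lt.mp fun z => not_lt.mpr c19 (h.prl0_1 z)
  have c22 : r 4 < v 0 := (h.e3.resolve_left c20).2.2
  have c23 : v 4 < l 0 := (h.e3.resolve_left c20).1
  have c24 : l 6 ≤ r 0 := le_of_lt (lt_of_lt_of_le a3 c21)
  have c25 : r 4 < v 6 := lt_of_lt_of_le c22 c8
  have c26 : v 4 < l 6 := lt_of_lt_of_le c23 a4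
  have c27 : r 4 ≤ l 6 := not_lt.mp fun z => h.n4_6 c26 z c25
  have c28 : l 7 ≤ l 6 := le_of_lt (lt_of_lt_of_le c12 c27)
  have c29 : r 7 < r 0 := not_le.mp fun z => L100 h z c28 c24 a5
  have c30 : l 7 < l 0 := h.prl7_0 c29
  have c31 : l 7 ≤ l 0 := le_of_lt c30
  have c32 : v 7 ≤ v 0 := not_lt.mp fun z => not_lt.mpr c31 (h.pvl0_7 z)
  have c33 : l 7 ≤ v 2 := not_lt.mp fun z => L175 h z c30 c17 c7 a4
  have c34 : l 5 ≤ v 2 := le_trans a7 c33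
  have c35 : v 1 < v 2 := lt_of_lt_of_le c10 c33
  have c36 : ¬ S7 l v r := fun z => not_lt.mpr c34 z.1
  have c37 : l 1 < l 2 := h.pvl1_2 c35
  have c38 : l 2 < r 5 := (h.e7.resolve_left c36).2.1
  have c39 : r 1 < r 2 := h.plr1_2 c37
  have c40 : l 2 < r 7 := lt_of_lt_of_le c38 c9
  have c41 : l 6 < r 2 := lt_trans a3 c39
  have c42 : S1 l v r := Classical.byContradiction fun z => L120 h z c41 a4
  have c43 : v 0 < l 2 := c42.1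
  have c44 : r 0 < v 2 := c42.2.2
  have c45 : v 7 < l 2 := lt_of_le_of_lt c32 c43
  have c46 : r 7 < v 2 := lt_trans c29 c44
  h.n7_2 c45 c40 c46

theorem L177 {l v r : ℕ → ℝ} (h : H l v r) (a0 : l 7 < l 0) (a1 : r 0 < v 2) (a2 : v 0 < l 2) (a3 : l 2 < r 7) : False :=
  have c0 : r 7 < r 0 := h.plr7_0 a0
  have c1 : v 7 < v 0 := h.plv7_0 a0
  have c2 : r 7 < v 2 := lt_trans c0 a1
  have c3 : v 7 < l 2 := lt_trans c1 a2
  h.n7_2 c3 a3 c2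

theorem L178 {l v r : ℕ → ℝ} (h : H l v r) (a0 : l 6 < l 7) (a1 : l 4 < r 6) (a2 : ¬ S9 l v r) : False :=
  have c0 : v 6 < v 7 := h.plv6_7 a0
  have c1 : r 6 < r 7 := h.plr6_7 a0
  L59 h a2 a1 c1 c0

theorem L179 {l v r : ℕ → ℝ} (h : H l v r) (a0 : r 0 ≤ r 6) (a1 : l 1 < r 5) (a2 : l 5 ≤ l 7) (a3 : l 0 < r 1) : False :=
  have c0 : l 0 ≤ r 0 := not_lt.mp fun z => L33 h z
  have c1 : v 1 ≤ r 1 := not_lt.mp fun z => L36 h z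
  have c2 : l 1 ≤ v 1 := not_lt.mp fun z => L43 h z
  have c3 : l 7 ≤ v 7 := not_lt.mp fun z => L45 h z
  have c4 : l 1 ≤ r 5 := le_of_lt a1
  have c5 : r 5 ≤ r 7 := not_lt.mp fun z => not_lt.mpr a2 (h.prl7_5 z)
  have c6 : r 1 ≤ r 7 := not_lt.mp fun z => L135 h z a3
  have c7 : v 1 ≤ r 7 := le_trans c1 c6
  have c8 : S6 l v r := h.e6.resolve_right fun z => not_lt.mpr c7 z.2.2
  have c9 : r 1 < v 7 := c8.2.2
  have c10 : r 1 ≤ v 7 := le_of_lt c9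
  have c11 : v 1 < l 7 := c8.1
  have c12 : l 0 ≤ r 7 := le_of_lt (lt_of_lt_of_le a3 c6)
  have c13 : l 0 ≤ r 6 := le_trans c0 a0
  have c14 : l 0 ≤ l 6 := not_lt.mp fun z => not_lt.mpr a0 (h.plr6_0 z)
  have c15 : S5 l v r := Classical.byContradiction fun z => L173 h z a0 a1 a3
  have c16 : r 1 < v 6 := c15.2.2
  have c17 : v 1 < l 6 := c15.1
  have c18 : l 6 < r 1 := c15.2.1
  have c19 : v 1 ≤ v 6 := le_of_lt (lt_of_le_of_lt c1 c16)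
  have c20 : l 1 ≤ l 6 := le_of_lt (lt_of_le_of_lt c2 c17)
  have c21 : l 6 < v 7 := lt_trans c18 c9
  have c22 : l 6 ≤ v 7 := le_of_lt (lt_of_lt_of_le c18 c10)
  have c23 : ¬ S9 l v r := fun z => L176 h z c20 c19 c18 c14 c13 c4 a2 a3
  have c24 : r 7 < v 4 := (h.e9.resolve_left c23).2.2
  have c25 : v 7 < r 0 := not_le.mp fun z => L168 h c23 z c12
  have c26 : l 0 ≤ v 4 := le_of_lt (lt_of_le_of_lt c12 c24)
  have c27 : l 7 ≤ r 0 := le_of_lt (lt_of_le_of_lt c3 c25)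
  have c28 : l 6 ≤ r 0 := le_of_lt (lt_of_le_of_lt c22 c25)
  have c29 : S3 l v r := h.e3.resolve_right fun z => not_lt.mpr c26 z.1
  have c30 : l 4 < r 0 := c29.2.1
  have c31 : l 4 < r 6 := lt_of_lt_of_le c30 a0
  have c32 : l 7 ≤ l 6 := not_lt.mp fun z => L178 h z c31 c23
  have c33 : r 7 < r 0 := not_le.mp fun z => L100 h z c32 c28 c13
  have c34 : l 7 < l 0 := h.prl7_0 c33
  have c35 : l 7 ≤ v 2 := not_lt.mp fun z => L175 h z c34 c27 c21 c14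
  have c36 : l 5 ≤ v 2 := le_trans a2 c35
  have c37 : v 1 < v 2 := lt_of_lt_of_le c11 c35
  have c38 : ¬ S7 l v r := fun z => not_lt.mpr c36 z.1
  have c39 : l 1 < l 2 := h.pvl1_2 c37
  have c40 : l 2 < r 5 := (h.e7.resolve_left c38).2.1
  have c41 : r 1 < r 2 := h.plr1_2 c39
  have c42 : l 2 < r 7 := lt_of_lt_of_le c40 c5
  have c43 : l 6 < r 2 := lt_trans c18 c41
  have c44 : S1 l v r := Classical.byContradiction fun z => L120 h z c43 c14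
  have c45 : v 0 < l 2 := c44.1
  have c46 : r 0 < v 2 := c44.2.2
  L177 h c34 c46 c45 c42

theorem L180 {l v r : ℕ → ℝ} (h : H l v r) (a0 : S1 l v r) (a1 : l 7 < l 0) (a2 : r 5 ≤ r 7) (a3 : l 5 ≤ r 0) : False :=
  have c0 : v 0 < l 2 := a0.1
  have c1 : r 0 < v 2 := a0.2.2
  have c2 : l 5 ≤ v 2 := le_of_lt (lt_of_le_of_lt a3 c1)
  have c3 : r 7 ≤ l 2 := not_lt.mp fun z => L177 h a1 c1 c0 z
  have c4 : ¬ S7 l v r := fun z => not_lt.mpr c2 z.1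
  have c5 : r 5 ≤ l 2 := le_trans a2 c3
  not_lt.mpr c5 (h.e7.resolve_left c4).2.1

theorem L181 {l v r : ℕ → ℝ} (h : H l v r) (a0 : r 5 ≤ l 2) : False :=
  have c0 : v 5 ≤ r 5 := not_lt.mp fun z => L16 h z
  have c1 : l 2 < r 2 := not_le.mp fun z => L13 h z
  have c2 : v 5 ≤ l 2 := le_trans c0 a0
  have c3 : S7 l v r := h.e7.resolve_right fun z => not_lt.mpr a0 z.2.1
  have c4 : v 5 ≤ r 2 := le_of_lt (lt_of_le_of_lt c2 c1)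
  not_lt.mpr c4 c3.2.2

theorem L182 {l v r : ℕ → ℝ} (h : H l v r) (a0 : r 5 < l 2) : False :=
  have c0 : l 2 < r 5 := not_le.mp fun z => L181 h z
  lt_asymm c0 a0

theorem L183 {l v r : ℕ → ℝ} (h : H l v r) (a0 : S7 l v r) (a1 : l 7 < r 2) (a2 : v 5 ≤ v 7) : False :=
  have c0 : l 5 ≤ l 7 := not_lt.mp fun z => not_lt.mpr a2 (h.plv7_5 z)
  have c1 : v 2 < l 5 := a0.1
  have c2 : r 2 < v 5 := a0.2.2
  have c3 : v 2 < l 7 := lt_of_lt_of_le c1 c0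
  have c4 : r 2 < v 7 := lt_of_lt_of_le c2 a2
  h.n2_7 c3 a1 c4

theorem L184 {l v r : ℕ → ℝ} (h : H l v r) (a0 : r 6 ≤ l 4) (a1 : l 1 ≤ l 2) (a2 : v 2 < l 7) (a3 : r 5 < v 1) (a4 : v 5 < l 1) (a5 : r 7 < r 0) (a6 : l 6 ≤ r 0) (a7 : l 0 < r 1) : False :=
  have c0 : v 1 ≤ r 1 := not_lt.mp fun z => L36 h z
  have c1 : l 4 < r 7 := not_le.mp fun z => L121 h z
  have c2 : l 4 ≤ r 7 := not_lt.mp fun z => L122 h z
  have c3 : v 6 ≤ r 6 := not_lt.mp fun z => L25 h z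
  have c4 : l 2 < r 5 := not_le.mp fun z => L181 h z
  have c5 : v 1 ≤ v 2 := not_lt.mp fun z => not_lt.mpr a1 (h.pvl2_1 z)
  have c6 : l 7 < l 0 := h.prl7_0 a5
  have c7 : l 7 ≤ l 0 := le_of_lt c6
  have c8 : r 1 ≤ r 7 := not_lt.mp fun z => L135 h z a7
  have c9 : v 1 ≤ r 7 := le_trans c0 c8
  have c10 : S6 l v r := h.e6.resolve_right fun z => not_lt.mpr c9 z.2.2
  have c11 : r 1 < v 7 := c10.2.2
  have c12 : r 1 ≤ v 7 := le_of_lt c11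
  have c13 : r 6 < r 7 := lt_of_le_of_lt a0 c1
  have c14 : r 6 ≤ r 7 := le_trans a0 c2
  have c15 : l 6 < l 7 := h.prl6_7 c13
  have c16 : v 6 < v 7 := h.plv6_7 c15
  have c17 : r 6 < l 0 := not_le.mp fun z => L157 h c6 c16 c14 a6 z
  have c18 : ¬ S8 l v r := fun z => L156 h z c7 c16 a6
  have c19 : r 6 < r 1 := lt_trans c17 a7
  have c20 : l 3 < r 6 := (h.e8.resolve_left c18).2.1
  have c21 : v 6 ≤ r 1 := le_of_lt (lt_of_le_of_lt c3 c19)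
  have c22 : l 3 < r 7 := lt_of_lt_of_le c20 c14
  have c23 : ¬ S5 l v r := fun z => not_lt.mpr c21 z.2.2
  have c24 : ¬ S2 l v r := fun z => L94 h z c22 a5
  have c25 : v 6 < l 1 := (h.e5.resolve_left c23).1
  have c26 : r 6 < v 1 := (h.e5.resolve_left c23).2.2
  have c27 : l 0 < r 3 := (h.e2.resolve_left c24).2.1
  have c28 : v 6 < l 2 := lt_of_lt_of_le c25 a1
  have c29 : r 6 < v 2 := lt_of_lt_of_le c26 c5
  have c30 : l 7 < r 3 := lt_trans c6 c27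
  have c31 : r 6 ≤ l 2 := not_lt.mp fun z => h.n6_2 c28 z c29
  have c32 : l 3 ≤ l 2 := le_of_lt (lt_of_lt_of_le c20 c31)
  have c33 : v 3 ≤ v 2 := not_lt.mp fun z => not_lt.mpr c32 (h.pvl2_3 z)
  have c34 : l 3 < r 5 := lt_of_le_of_lt c32 c4
  have c35 : v 3 < l 7 := lt_of_le_of_lt c33 a2
  have c36 : l 3 < l 1 := not_le.mp fun z => L143 h z a3 a4 c34
  have c37 : v 7 ≤ r 3 := not_lt.mp fun z => h.n3_7 c35 c30 z
  have c38 : r 3 < r 1 := h.plr3_1 c36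
  not_lt.mpr (le_trans c12 c37) c38

theorem L185 {l v r : ℕ → ℝ} (h : H l v r) (a0 : v 2 < l 7) (a1 : r 5 < v 1) (a2 : v 5 < l 1) (a3 : l 7 < r 2) (a4 : r 7 < r 0) (a5 : r 6 < r 0) (a6 : l 0 < r 1) : False :=
  have c0 : v 1 ≤ r 1 := not_lt.mp fun z => L36 h z
  have c1 : l 7 ≤ r 7 := not_lt.mp fun z => L44 h z
  have c2 : v 6 ≤ r 6 := not_lt.mp fun z => L25 h z
  have c3 : l 2 < r 5 := not_le.mp fun z => L181 h z
  have c4 : l 7 < l 0 := h.prl7_0 a4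
  have c5 : l 7 ≤ l 0 := le_of_lt c4
  have c6 : l 7 ≤ r 0 := le_of_lt (lt_of_le_of_lt c1 a4)
  have c7 : l 6 < l 0 := h.prl6_0 a5
  have c8 : l 6 ≤ l 0 := le_of_lt c7
  have c9 : l 6 ≤ r 0 := not_lt.mp fun z => L26 h a5 z
  have c10 : r 1 ≤ r 7 := not_lt.mp fun z => L135 h z a6
  have c11 : v 1 ≤ r 7 := le_trans c0 c10
  have c12 : S6 l v r := h.e6.resolve_right fun z => not_lt.mpr c11 z.2.2
  have c13 : r 1 < v 7 := c12.2.2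
  have c14 : r 1 ≤ v 7 := le_of_lt c13
  have c15 : l 0 ≤ r 7 := le_of_lt (lt_of_lt_of_le a6 c10)
  have c16 : v 7 ≤ r 2 := not_lt.mp fun z => h.n2_7 a0 a3 z
  have c17 : r 1 ≤ r 2 := le_of_lt (lt_of_lt_of_le c13 c16)
  have c18 : l 1 ≤ l 2 := not_lt.mp fun z => not_lt.mpr c17 (h.plr2_1 z)
  have c19 : v 1 ≤ v 2 := not_lt.mp fun z => not_lt.mpr c18 (h.pvl2_1 z)
  have c20 : l 4 < r 6 := not_le.mp fun z => L184 h z c18 a0 a1 a2 a4 c9 a6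
  have c21 : ¬ S3 l v r := fun z => L63 h z c20 a5
  have c22 : l 0 < r 4 := (h.e3.resolve_left c21).2.1
  have c23 : v 4 < l 0 := (h.e3.resolve_left c21).1
  have c24 : l 7 < r 4 := lt_trans c4 c22
  have c25 : v 4 ≤ r 7 := le_of_lt (lt_of_lt_of_le c23 c15)
  have c26 : S9 l v r := h.e9.resolve_right fun z => not_lt.mpr c25 z.2.2
  have c27 : l 6 < l 7 := not_le.mp fun z => L62 h c26 c6 z c8
  have c28 : v 6 < v 7 := h.plv6_7 c27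
  have c29 : l 6 ≤ l 7 := le_of_lt c27
  have c30 : ¬ S8 l v r := fun z => L156 h z c5 c28 c9
  have c31 : r 6 ≤ r 7 := not_lt.mp fun z => not_lt.mpr c29 (h.prl7_6 z)
  have c32 : l 3 < r 6 := (h.e8.resolve_left c30).2.1
  have c33 : l 4 < l 3 := not_le.mp fun z => L169 h c30 z c20
  have c34 : r 6 < l 0 := not_le.mp fun z => L157 h c4 c28 c31 c9 z
  have c35 : r 4 < r 3 := h.plr4_3 c33
  have c36 : r 6 < r 1 := lt_trans c34 a6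
  have c37 : l 7 < r 3 := lt_trans c24 c35
  have c38 : v 6 ≤ r 1 := le_of_lt (lt_of_le_of_lt c2 c36)
  have c39 : ¬ S5 l v r := fun z => not_lt.mpr c38 z.2.2
  have c40 : v 6 < l 1 := (h.e5.resolve_left c39).1
  have c41 : r 6 < v 1 := (h.e5.resolve_left c39).2.2
  have c42 : v 6 < l 2 := lt_of_lt_of_le c40 c18
  have c43 : r 6 < v 2 := lt_of_lt_of_le c41 c19
  have c44 : r 6 ≤ l 2 := not_lt.mp fun z => h.n6_2 c42 z c43
  have c45 : l 3 ≤ l 2 := le_of_lt (lt_of_lt_of_le c32 c44)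
  have c46 : v 3 ≤ v 2 := not_lt.mp fun z => not_lt.mpr c45 (h.pvl2_3 z)
  have c47 : l 3 < r 5 := lt_of_le_of_lt c45 c3
  have c48 : v 3 < l 7 := lt_of_le_of_lt c46 a0
  have c49 : l 3 < l 1 := not_le.mp fun z => L143 h z a1 a2 c47
  have c50 : v 7 ≤ r 3 := not_lt.mp fun z => h.n3_7 c48 c37 z
  have c51 : r 3 < r 1 := h.plr3_1 c49
  not_lt.mpr (le_trans c14 c50) c51

theorem L186 {l v r : ℕ → ℝ} (h : H l v r) (a0 : l 6 < l 7) (a1 : l 7 ≤ v 2) (a2 : r 5 < v 1) (a3 : v 5 < l 1) (a4 : r 7 < r 0) (a5 : l 6 ≤ r 0) (a6 : l 0 < r 1) : False :=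
  have c0 : v 1 ≤ r 1 := not_lt.mp fun z => L36 h z
  have c1 : v 6 ≤ r 6 := not_lt.mp fun z => L25 h z
  have c2 : l 2 < r 5 := not_le.mp fun z => L181 h z
  have c3 : l 7 < l 0 := h.prl7_0 a4
  have c4 : l 7 ≤ l 0 := le_of_lt c3
  have c5 : r 1 ≤ r 7 := not_lt.mp fun z => L135 h z a6
  have c6 : v 1 ≤ r 7 := le_trans c0 c5
  have c7 : S6 l v r := h.e6.resolve_right fun z => not_lt.mpr c6 z.2.2
  have c8 : v 1 < l 7 := c7.1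
  have c9 : v 1 ≤ l 7 := le_of_lt c8
  have c10 : r 1 < v 7 := c7.2.2
  have c11 : v 6 < v 7 := h.plv6_7 a0
  have c12 : l 6 ≤ l 7 := le_of_lt a0
  have c13 : ¬ S8 l v r := fun z => L156 h z c4 c11 a5
  have c14 : r 6 ≤ r 7 := not_lt.mp fun z => not_lt.mpr c12 (h.prl7_6 z)
  have c15 : l 3 < r 6 := (h.e8.resolve_left c13).2.1
  have c16 : r 6 < l 0 := not_le.mp fun z => L157 h c3 c11 c14 a5 z
  have c17 : l 3 < r 7 := lt_of_lt_of_le c15 c14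
  have c18 : r 6 < r 1 := lt_trans c16 a6
  have c19 : ¬ S2 l v r := fun z => L94 h z c17 a4
  have c20 : v 6 ≤ r 1 := le_of_lt (lt_of_le_of_lt c1 c18)
  have c21 : l 0 < r 3 := (h.e2.resolve_left c19).2.1
  have c22 : ¬ S5 l v r := fun z => not_lt.mpr c20 z.2.2
  have c23 : l 7 < r 3 := lt_trans c3 c21
  have c24 : v 6 < l 1 := (h.e5.resolve_left c22).1
  have c25 : r 6 < v 1 := (h.e5.resolve_left c22).2.2
  have c26 : r 6 < l 7 := lt_of_lt_of_le c25 c9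
  have c27 : r 6 ≤ l 2 := not_lt.mp fun z => L170 h a1 z c26 c24 c8
  have c28 : l 3 ≤ l 2 := le_of_lt (lt_of_lt_of_le c15 c27)
  have c29 : l 3 < r 5 := lt_of_le_of_lt c28 c2
  have c30 : l 3 < l 1 := not_le.mp fun z => L143 h z a2 a3 c29
  have c31 : r 3 < r 1 := h.plr3_1 c30
  have c32 : v 3 < v 1 := h.plv3_1 c30
  have c33 : r 3 < v 7 := lt_trans c31 c10
  have c34 : v 3 < l 7 := lt_trans c32 c8
  h.n3_7 c34 c23 c33

theorem L187 {l v r : ℕ → ℝ} (h : H l v r) (a0 : r 7 < r 0) (a1 : r 6 < r 0) (a2 : v 5 ≤ v 7) (a3 : l 0 < r 1) : False :=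
  have c0 : l 5 ≤ r 5 := not_lt.mp fun z => L29 h z
  have c1 : l 7 ≤ r 7 := not_lt.mp fun z => L44 h z
  have c2 : l 4 < r 7 := not_le.mp fun z => L121 h z
  have c3 : l 6 < l 0 := h.prl6_0 a1
  have c4 : l 6 ≤ l 0 := le_of_lt c3
  have c5 : l 6 ≤ r 0 := not_lt.mp fun z => L26 h a1 z
  have c6 : l 5 ≤ l 7 := not_lt.mp fun z => not_lt.mpr a2 (h.plv7_5 z)
  have c7 : r 5 ≤ r 7 := not_lt.mp fun z => not_lt.mpr c6 (h.prl7_5 z)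
  have c8 : r 5 < r 0 := not_le.mp fun z => L172 h z a3
  have c9 : l 5 ≤ r 0 := le_of_lt (lt_of_le_of_lt c0 c8)
  have c10 : r 1 ≤ r 7 := not_lt.mp fun z => L135 h z a3
  have c11 : l 0 ≤ r 7 := le_of_lt (lt_of_lt_of_le a3 c10)
  have c12 : l 7 < l 0 := h.prl7_0 a0
  have c13 : l 7 ≤ r 0 := le_of_lt (lt_of_le_of_lt c1 a0)
  have c14 : ¬ S1 l v r := fun z => L180 h z c12 c7 c9
  have c15 : v 2 < l 0 := (h.e1.resolve_left c14).1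
  have c16 : l 0 < r 2 := (h.e1.resolve_left c14).2.1
  have c17 : l 2 ≤ l 0 := not_lt.mp fun z => L14 h c15 z
  have c18 : l 7 < r 2 := lt_trans c12 c16
  have c19 : l 2 ≤ r 1 := le_of_lt (lt_of_le_of_lt c17 a3)
  have c20 : ¬ S7 l v r := fun z => L183 h z c18 a2
  have c21 : v 5 < l 2 := (h.e7.resolve_left c20).1
  have c22 : v 5 ≤ r 1 := le_of_lt (lt_of_lt_of_le c21 c19)
  have c23 : ¬ S4 l v r := fun z => not_lt.mpr c22 z.2.2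
  have c24 : v 5 < l 1 := (h.e4.resolve_left c23).1
  have c25 : r 5 < v 1 := (h.e4.resolve_left c23).2.2
  have c26 : l 7 ≤ v 2 := not_lt.mp fun z => L185 h z c25 c24 c18 a0 a1 a3
  have c27 : l 7 ≤ l 6 := not_lt.mp fun z => L186 h z c26 c25 c24 a0 c5 a3
  have c28 : r 7 ≤ r 6 := not_lt.mp fun z => not_lt.mpr c27 (h.prl6_7 z)
  have c29 : ¬ S9 l v r := fun z => L62 h z c13 c27 c4
  have c30 : l 4 < r 6 := lt_of_lt_of_le c2 c28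
  have c31 : r 7 < v 4 := (h.e9.resolve_left c29).2.2
  have c32 : ¬ S3 l v r := fun z => L63 h z c30 a1
  have c33 : l 0 ≤ v 4 := le_of_lt (lt_of_le_of_lt c11 c31)
  not_lt.mpr c33 (h.e3.resolve_left c32).1

theorem L188 {l v r : ℕ → ℝ} (h : H l v r) (a0 : S1 l v r) (a1 : l 0 ≤ l 7) (a2 : r 6 < r 0) (a3 : l 0 < r 1) : False :=
  have c0 : v 1 ≤ r 1 := not_lt.mp fun z => L36 h z
  have c1 : l 2 ≤ r 5 := not_lt.mp fun z => L182 h z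
  have c2 : l 2 < r 5 := not_le.mp fun z => L181 h z
  have c3 : l 0 ≤ v 0 := not_lt.mp fun z => L32 h z
  have c4 : v 6 ≤ r 6 := not_lt.mp fun z => L25 h z
  have c5 : l 3 ≤ r 3 := not_lt.mp fun z => L34 h z
  have c6 : v 0 ≤ v 7 := not_lt.mp fun z => not_lt.mpr a1 (h.pvl7_0 z)
  have c7 : l 6 < l 0 := h.prl6_0 a2
  have c8 : v 6 < v 0 := h.plv6_0 c7
  have c9 : l 6 ≤ r 0 := not_lt.mp fun z => L26 h a2 z
  have c10 : r 5 < r 0 := not_le.mp fun z => L172 h z a3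
  have c11 : l 5 < l 0 := h.prl5_0 c10
  have c12 : r 1 ≤ r 7 := not_lt.mp fun z => L135 h z a3
  have c13 : v 1 ≤ r 7 := le_trans c0 c12
  have c14 : S6 l v r := h.e6.resolve_right fun z => not_lt.mpr c13 z.2.2
  have c15 : l 7 < r 1 := c14.2.1
  have c16 : v 0 < l 2 := a0.1
  have c17 : r 6 ≤ l 2 := not_lt.mp fun z => L116 h a0 z a2
  have c18 : v 0 ≤ r 5 := le_of_lt (lt_of_lt_of_le c16 c1)
  have c19 : r 6 < r 5 := lt_of_le_of_lt c17 c2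
  have c20 : r 6 ≤ r 5 := le_of_lt (lt_of_le_of_lt c17 c2)
  have c21 : l 6 ≤ l 5 := not_lt.mp fun z => not_lt.mpr c20 (h.plr5_6 z)
  have c22 : r 6 < l 0 := not_le.mp fun z => L76 h c11 z c21 c19 c9
  have c23 : r 6 < r 1 := lt_trans c22 a3
  have c24 : r 6 ≤ v 0 := le_of_lt (lt_of_lt_of_le c22 c3)
  have c25 : v 6 ≤ l 0 := not_lt.mp fun z => L40 h c22 z
  have c26 : v 6 ≤ r 1 := le_of_lt (lt_of_le_of_lt c4 c23)
  have c27 : v 6 < l 3 := not_le.mp fun z => L49 h z c25 c8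
  have c28 : ¬ S5 l v r := fun z => not_lt.mpr c26 z.2.2
  have c29 : v 6 ≤ r 3 := le_of_lt (lt_of_lt_of_le c27 c5)
  have c30 : l 1 < r 6 := (h.e5.resolve_left c28).2.1
  have c31 : ¬ S8 l v r := fun z => not_lt.mpr c29 z.2.2
  have c32 : l 1 < l 0 := lt_trans c30 c22
  have c33 : l 3 < r 6 := (h.e8.resolve_left c31).2.1
  have c34 : v 1 < v 0 := h.plv1_0 c32
  have c35 : l 3 ≤ v 0 := le_of_lt (lt_of_lt_of_le c33 c24)
  have c36 : v 1 ≤ r 5 := le_of_lt (lt_of_lt_of_le c34 c18)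
  have c37 : ¬ S2 l v r := fun z => not_lt.mpr c35 z.1
  have c38 : S4 l v r := h.e4.resolve_right fun z => not_lt.mpr c36 z.2.2
  have c39 : r 3 < v 0 := (h.e2.resolve_left c37).2.2
  have c40 : v 3 < l 0 := (h.e2.resolve_left c37).1
  have c41 : l 0 < r 3 := (h.e2.resolve_left c37).2.1
  have c42 : v 1 < l 5 := c38.1
  have c43 : r 1 < v 5 := c38.2.2
  have c44 : r 3 < v 7 := lt_of_lt_of_le c39 c6
  have c45 : v 3 < l 7 := lt_of_lt_of_le c40 a1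
  have c46 : l 5 < r 3 := lt_trans c11 c41
  have c47 : v 1 ≤ v 3 := not_lt.mp fun z => L88 h z c46 c43 c42
  have c48 : r 3 ≤ l 7 := not_lt.mp fun z => h.n3_7 c45 z c44
  have c49 : l 1 ≤ l 3 := not_lt.mp fun z => not_lt.mpr c47 (h.plv3_1 z)
  have c50 : r 3 < r 1 := lt_of_le_of_lt c48 c15
  not_lt.mpr c49 (h.prl3_1 c50)

theorem L189 {l v r : ℕ → ℝ} (h : H l v r) (a0 : S4 l v r) (a1 : v 6 ≤ v 1) (a2 : r 6 < v 1) (a3 : l 0 ≤ l 7) (a4 : v 6 < v 0) (a5 : l 0 < r 1) : False :=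
  have c0 : v 1 ≤ r 1 := not_lt.mp fun z => L36 h z
  have c1 : l 0 ≤ v 0 := not_lt.mp fun z => L32 h z
  have c2 : l 3 ≤ r 3 := not_lt.mp fun z => L34 h z
  have c3 : v 0 ≤ v 7 := not_lt.mp fun z => not_lt.mpr a3 (h.pvl7_0 z)
  have c4 : r 5 < r 0 := not_le.mp fun z => L172 h z a5
  have c5 : l 5 < l 0 := h.prl5_0 c4
  have c6 : l 5 ≤ v 0 := le_of_lt (lt_of_lt_of_le c5 c1)
  have c7 : r 1 ≤ r 7 := not_lt.mp fun z => L135 h z a5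
  have c8 : v 1 ≤ r 7 := le_trans c0 c7
  have c9 : S6 l v r := h.e6.resolve_right fun z => not_lt.mpr c8 z.2.2
  have c10 : l 7 < r 1 := c9.2.1
  have c11 : v 1 < l 5 := a0.1
  have c12 : r 1 < v 5 := a0.2.2
  have c13 : v 1 < l 0 := lt_trans c11 c5
  have c14 : v 1 ≤ v 0 := le_of_lt (lt_of_lt_of_le c11 c6)
  have c15 : v 6 ≤ l 0 := le_of_lt (lt_of_le_of_lt a1 c13)
  have c16 : r 6 ≤ v 0 := le_of_lt (lt_of_lt_of_le a2 c14)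
  have c17 : v 6 < l 3 := not_le.mp fun z => L49 h z c15 a4
  have c18 : v 6 ≤ r 3 := le_of_lt (lt_of_lt_of_le c17 c2)
  have c19 : ¬ S8 l v r := fun z => not_lt.mpr c18 z.2.2
  have c20 : l 3 < r 6 := (h.e8.resolve_left c19).2.1
  have c21 : l 3 ≤ v 0 := le_of_lt (lt_of_lt_of_le c20 c16)
  have c22 : ¬ S2 l v r := fun z => not_lt.mpr c21 z.1
  have c23 : r 3 < v 0 := (h.e2.resolve_left c22).2.2
  have c24 : v 3 < l 0 := (h.e2.resolve_left c22).1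
  have c25 : l 0 < r 3 := (h.e2.resolve_left c22).2.1
  have c26 : r 3 < v 7 := lt_of_lt_of_le c23 c3
  have c27 : v 3 < l 7 := lt_of_lt_of_le c24 a3
  have c28 : l 5 < r 3 := lt_trans c5 c25
  have c29 : r 3 ≤ l 7 := not_lt.mp fun z => h.n3_7 c27 z c26
  have c30 : v 1 ≤ v 3 := not_lt.mp fun z => L88 h z c28 c12 c11
  have c31 : r 3 < r 1 := lt_of_le_of_lt c29 c10
  have c32 : l 1 ≤ l 3 := not_lt.mp fun z => not_lt.mpr c30 (h.plv3_1 z)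
  not_lt.mpr c32 (h.prl3_1 c31)

theorem L190 {l v r : ℕ → ℝ} (h : H l v r) (a0 : l 3 ≤ l 2) (a1 : ¬ S8 l v r) (a2 : l 2 < r 6) : False :=
  have c0 : v 6 < l 3 := (h.e8.resolve_left a1).1
  have c1 : r 6 < v 3 := (h.e8.resolve_left a1).2.2
  have c2 : v 3 ≤ v 2 := not_lt.mp fun z => not_lt.mpr a0 (h.pvl2_3 z)
  have c3 : v 6 < l 2 := lt_of_lt_of_le c0 a0
  have c4 : r 6 < v 2 := lt_of_lt_of_le c1 c2
  h.n6_2 c3 a2 c4

theorem L191 {l v r : ℕ → ℝ} (h : H l v r) (a0 : S7 l v r) (a1 : ¬ S8 l v r) (a2 : v 5 ≤ r 6) (a3 : l 0 < r 2) (a4 : l 6 < r 2) (a5 : l 5 < l 0) : False :=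
  have c0 : r 2 < v 5 := a0.2.2
  have c1 : l 6 < l 5 := not_le.mp fun z => L90 h a0 z a4
  have c2 : l 0 < v 5 := lt_trans a3 c0
  have c3 : r 6 < r 5 := h.plr6_5 c1
  have c4 : l 0 ≤ r 6 := le_of_lt (lt_of_lt_of_le c2 a2)
  L75 h a1 a5 c4 c3

theorem L192 {l v r : ℕ → ℝ} (h : H l v r) (a0 : ¬ S8 l v r) (a1 : v 5 ≤ r 6) (a2 : r 6 ≤ v 1) (a3 : l 2 < r 6) (a4 : l 0 < r 2) (a5 : v 2 < l 0) (a6 : l 0 ≤ l 7) (a7 : l 6 < r 2) (a8 : l 1 ≤ r 5) (a9 : l 0 < r 1) : False :=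
  have c0 : v 1 ≤ r 1 := not_lt.mp fun z => L36 h z
  have c1 : v 0 ≤ v 7 := not_lt.mp fun z => not_lt.mpr a6 (h.pvl7_0 z)
  have c2 : r 5 < r 0 := not_le.mp fun z => L172 h z a9
  have c3 : l 5 < l 0 := h.prl5_0 c2
  have c4 : r 1 ≤ r 7 := not_lt.mp fun z => L135 h z a9
  have c5 : v 1 ≤ r 7 := le_trans c0 c4
  have c6 : S6 l v r := h.e6.resolve_right fun z => not_lt.mpr c5 z.2.2
  have c7 : l 7 < r 1 := c6.2.1
  have c8 : l 3 < r 6 := (h.e8.resolve_left a0).2.1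
  have c9 : l 3 ≤ v 1 := le_of_lt (lt_of_lt_of_le c8 a2)
  have c10 : l 2 < l 3 := not_le.mp fun z => L190 h z a0 a3
  have c11 : ¬ S7 l v r := fun z => L191 h z a0 a1 a4 a7 c3
  have c12 : r 5 < v 2 := (h.e7.resolve_left c11).2.2
  have c13 : r 5 ≤ l 3 := not_lt.mp fun z => L133 h c11 z c10
  have c14 : l 1 < v 2 := lt_of_le_of_lt a8 c12
  have c15 : l 1 ≤ l 3 := le_trans a8 c13
  have c16 : l 1 < l 0 := lt_trans c14 a5
  have c17 : r 1 ≤ r 3 := not_lt.mp fun z => not_lt.mpr c15 (h.prl3_1 z)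
  have c18 : v 1 < v 0 := h.plv1_0 c16
  have c19 : l 7 < r 3 := lt_of_lt_of_le c7 c17
  have c20 : l 3 ≤ v 0 := le_of_lt (lt_of_le_of_lt c9 c18)
  have c21 : ¬ S2 l v r := fun z => not_lt.mpr c20 z.1
  have c22 : r 3 < v 0 := (h.e2.resolve_left c21).2.2
  have c23 : v 3 < l 0 := (h.e2.resolve_left c21).1
  have c24 : r 3 < v 7 := lt_of_lt_of_le c22 c1
  have c25 : v 3 < l 7 := lt_of_lt_of_le c23 a6
  h.n3_7 c25 c19 c24

theorem L193 {l v r : ℕ → ℝ} (h : H l v r) (a0 : l 1 < r 5) (a1 : v 5 ≤ v 7) (a2 : l 0 < r 1) : False :=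
  have c0 : v 1 ≤ r 1 := not_lt.mp fun z => L36 h z
  have c1 : l 3 ≤ r 3 := not_lt.mp fun z => L34 h z
  have c2 : l 5 ≤ l 7 := not_lt.mp fun z => not_lt.mpr a1 (h.plv7_5 z)
  have c3 : r 5 < r 0 := not_le.mp fun z => L172 h z a2
  have c4 : l 5 < l 0 := h.prl5_0 c3
  have c5 : r 1 ≤ r 7 := not_lt.mp fun z => L135 h z a2
  have c6 : v 1 ≤ r 7 := le_trans c0 c5
  have c7 : S6 l v r := h.e6.resolve_right fun z => not_lt.mpr c6 z.2.2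
  have c8 : l 7 < r 1 := c7.2.1
  have c9 : l 1 ≤ r 5 := le_of_lt a0
  have c10 : r 6 < r 0 := not_le.mp fun z => L179 h z a0 c2 a2
  have c11 : l 6 < l 0 := h.prl6_0 c10
  have c12 : l 6 ≤ r 0 := not_lt.mp fun z => L26 h c10 z
  have c13 : l 6 < r 2 := not_le.mp fun z => L114 h z c10
  have c14 : v 6 < v 0 := h.plv6_0 c11
  have c15 : r 0 ≤ r 7 := not_lt.mp fun z => L187 h z c10 a1 a2
  have c16 : l 0 ≤ l 7 := not_lt.mp fun z => not_lt.mpr c15 (h.plr7_0 z)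
  have c17 : ¬ S1 l v r := fun z => L188 h z c16 c10 a2
  have c18 : r 2 < v 0 := (h.e1.resolve_left c17).2.2
  have c19 : v 2 < l 0 := (h.e1.resolve_left c17).1
  have c20 : l 0 < r 2 := (h.e1.resolve_left c17).2.1
  have c21 : r 2 ≤ l 7 := not_lt.mp fun z => L60 h c16 z c19 c18
  have c22 : r 2 < r 1 := lt_of_le_of_lt c21 c8
  have c23 : l 2 < l 1 := h.prl2_1 c22
  have c24 : ¬ S5 l v r := fun z => L69 h c23 z c13
  have c25 : v 6 < l 1 := (h.e5.resolve_left c24).1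
  have c26 : l 1 < r 6 := (h.e5.resolve_left c24).2.1
  have c27 : r 6 < v 1 := (h.e5.resolve_left c24).2.2
  have c28 : v 6 ≤ r 5 := le_of_lt (lt_of_lt_of_le c25 c9)
  have c29 : v 6 ≤ v 1 := not_lt.mp fun z => L46 h z c25
  have c30 : l 1 ≤ r 6 := le_of_lt c26
  have c31 : l 2 < r 6 := lt_trans c23 c26
  have c32 : r 6 ≤ v 1 := le_of_lt c27
  have c33 : ¬ S4 l v r := fun z => L189 h z c29 c27 c16 c14 a2
  have c34 : v 5 < l 1 := (h.e4.resolve_left c33).1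
  have c35 : v 5 ≤ r 6 := le_of_lt (lt_of_lt_of_le c34 c30)
  have c36 : S8 l v r := Classical.byContradiction fun z => L192 h z c35 c32 c31 c20 c19 c16 c13 c9 a2
  have c37 : r 3 < v 6 := c36.2.2
  have c38 : l 3 ≤ v 6 := le_of_lt (lt_of_le_of_lt c1 c37)
  have c39 : l 0 < v 6 := not_le.mp fun z => L49 h c38 z c14
  have c40 : l 0 ≤ r 6 := not_lt.mp fun z => L40 h z c39
  have c41 : v 2 < v 6 := lt_trans c19 c39
  have c42 : v 2 ≤ r 5 := le_of_lt (lt_of_lt_of_le c41 c28)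
  have c43 : S7 l v r := h.e7.resolve_right fun z => not_lt.mpr c42 z.2.2
  have c44 : l 6 < l 5 := not_le.mp fun z => L90 h c43 z c13
  have c45 : r 6 < r 5 := h.plr6_5 c44
  have c46 : l 6 ≤ l 5 := le_of_lt c44
  L76 h c4 c40 c46 c45 c12

theorem L194 {l v r : ℕ → ℝ} (h : H l v r) (a0 : r 5 ≤ l 1) : False :=
  have c0 : v 5 < r 5 := h.u5_1
  have c1 : l 1 < r 1 := not_le.mp fun z => L41 h z
  have c2 : S4 l v r := h.e4.resolve_right fun z => not_lt.mpr a0 z.2.1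
  have c3 : v 5 ≤ l 1 := le_of_lt (lt_of_lt_of_le c0 a0)
  have c4 : r 1 < v 5 := c2.2.2
  not_lt.mpr c3 (lt_trans c1 c4)

theorem L195 {l v r : ℕ → ℝ} (h : H l v r) (a0 : S3 l v r) (a1 : l 0 < r 1) : False :=
  have c0 : l 1 < r 5 := not_le.mp fun z => L194 h z
  have c1 : l 4 < r 7 := not_le.mp fun z => L121 h z
  have c2 : v 7 < v 5 := not_le.mp fun z => L193 h c0 z a1
  have c3 : l 7 < l 5 := h.pvl7_5 c2
  have c4 : r 7 < r 5 := h.plr7_5 c3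
  have c5 : l 4 < r 5 := lt_trans c1 c4
  have c6 : r 5 < r 0 := not_le.mp fun z => L172 h z a1
  have c7 : l 5 < l 0 := h.prl5_0 c6
  have c8 : v 0 < l 4 := a0.1
  have c9 : r 0 < v 4 := a0.2.2
  have c10 : v 0 ≤ l 4 := le_of_lt c8
  have c11 : r 0 ≤ v 4 := le_of_lt c9
  L103 h c7 c5 c11 c10

theorem L196 {l v r : ℕ → ℝ} (h : H l v r) (a0 : r 1 ≤ r 7) (a1 : l 0 < r 1) : False :=
  have c0 : l 1 < r 5 := not_le.mp fun z => L194 h z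
  have c1 : l 0 ≤ r 7 := le_of_lt (lt_of_lt_of_le a1 a0)
  have c2 : r 5 < r 0 := not_le.mp fun z => L172 h z a1
  have c3 : l 5 < l 0 := h.prl5_0 c2
  have c4 : v 7 < v 5 := not_le.mp fun z => L193 h c0 z a1
  have c5 : ¬ S3 l v r := fun z => L195 h z a1
  have c6 : l 0 < r 4 := (h.e3.resolve_left c5).2.1
  have c7 : v 4 < l 0 := (h.e3.resolve_left c5).1
  have c8 : l 5 < r 4 := lt_trans c3 c6
  have c9 : v 4 ≤ r 7 := le_of_lt (lt_of_lt_of_le c7 c1)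
  have c10 : ¬ S9 l v r := fun z => L153 h z c8 c4
  not_lt.mpr c9 (h.e9.resolve_left c10).2.2

theorem L197 {l v r : ℕ → ℝ} (h : H l v r) (a0 : l 0 < r 1) : False :=
  have c0 : r 1 ≤ r 7 := not_lt.mp fun z => L135 h z a0
  L196 h c0 a0

theorem L198 {l v r : ℕ → ℝ} (h : H l v r) (a0 : ¬ S0 l v r) : False :=
  have c0 : r 1 ≤ l 0 := not_lt.mp fun z => L197 h z
  not_lt.mpr c0 (h.e0.resolve_left a0).2.1

theorem L199 {l v r : ℕ → ℝ} (h : H l v r) (a0 : v 0 ≤ r 1) : False :=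
  have c0 : r 1 ≤ l 0 := not_lt.mp fun z => L197 h z
  have c1 : l 0 < v 0 := h.u0_0
  not_lt.mpr (le_trans a0 c0) c1

theorem L200 {l v r : ℕ → ℝ} (h : H l v r) (a0 : l 1 ≤ v 0) : False :=
  have c0 : S0 l v r := Classical.byContradiction fun z => L198 h z
  not_lt.mpr a0 c0.1

theorem L201 {l v r : ℕ → ℝ} (h : H l v r)  : False :=
  have c0 : r 1 < v 0 := not_le.mp fun z => L199 h z
  have c1 : v 0 < l 1 := not_le.mp fun z => L200 h z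
  have c2 : l 1 ≤ r 1 := not_lt.mp fun z => L42 h z
  not_lt.mpr c2 (lt_trans c0 c1)

end Pool.Agent.R38.BookProof
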