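import Mathlib

set_option autoImplicit false

/-!
Helper file for the extension property of finite three-graphs.
-/

namespace Pool.Agent.R38.ThreeGraph

open Finset

variable {V : Type*} [DecidableEq V]

/-- The number of `b`-vertices of `e`. -/
def cnt (side : V → Bool) (b : Bool) (e : Finset V) : ℕ := (e.filter (fun v => side v = b)).card

lemma cnt_add (side : V → Bool) (b : Bool) (e : Finset V) :
    cnt side b e + cnt side (!b) e = e.card := by
  unfold cnt
  rw [← Finset.card_filter_add_card_filter_not (s := e) (p := fun v => side v = b)]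
  congr 2
  apply Finset.filter_congr
  intro x _
  cases b <;> cases side x <;> simp

/-- Sets with two vertices on each side. -/
def Two (side : V → Bool) (e : Finset V) : Prop := ∀ b, cnt side b e = 2

lemma two_card {side : V → Bool} {e : Finset V} (h : Two side e) : e.card = 4 := by
  have := cnt_add side true e
  rw [h true, h (!true)] at this
  omega

lemma filter_side (side : V → Bool) (e : Finset V) (v : V) :
    (e.filter (fun w => side v = side w)).card = cnt side (side v) e := by
  unfold cnt
  congr 1
  apply Finset.filter_congr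
  intro x _
  exact ⟨fun h => h.symm, fun h => h.symm⟩

lemma two_iff (side : V → Bool) (e : Finset V) :
    (e.card = 4 ∧ ∀ v ∈ e, (e.filter (fun w => side v = side w)).card = 2) ↔ Two side e := by
  constructor
  · rintro ⟨h4, h⟩
    obtain ⟨v, hv⟩ : e.Nonempty := by rw [← Finset.card_pos]; omega
    have h1 := h v hv
    rw [filter_side] at h1
    have h2 := cnt_add side (side v) e
    intro b
    rcases Bool.eq_or_eq_not b (side v) with hb | hb
    · rw [hb]; exact h1
    · rw [hb]; omega
  · intro h
    refine ⟨two_card h, fun v _ => ?_⟩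
    rw [filter_side]
    exact h _

/-- For a `3+2` set `S`, the members of `H` inside `S` are the sets `S.erase v`. -/
lemma filter_subset {side : V → Bool} {H : Finset (Finset V)} (hH : ∀ e ∈ H, Two side e)
    {S : Finset V} {b : Bool} (h3 : cnt side b S = 3) (h2 : cnt side (!b) S = 2) :
    (H.filter (fun e => e ⊆ S)).card =
      ((S.filter (fun v => side v = b)).filter (fun v => S.erase v ∈ H)).card := by
  have hS : S.card = 5 := by rw [← cnt_add side b S]; omega
  have : H.filter (fun e => e ⊆ S) =
      ((S.filter (fun v => side v = b)).filter (fun v => S.erase v ∈ H)).image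
        (fun v => S.erase v) := by
    ext e
    simp only [Finset.mem_filter, Finset.mem_image]
    constructor
    · rintro ⟨he, hes⟩
      have h4 := two_card (hH e he)
      have hd : (S \ e).card = 1 := by
        rw [Finset.card_sdiff_of_subset hes]; omega
      obtain ⟨v, hv⟩ := Finset.card_eq_one.mp hd
      have hvS : v ∈ S \ e := by rw [hv]; simp
      have hvS1 := (Finset.mem_sdiff.mp hvS).1
      have hvS2 := (Finset.mem_sdiff.mp hvS).2
      have heq : S.erase v = e := by
        ext x
        simp only [Finset.mem_erase]
        constructor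
        · rintro ⟨hx, hxS⟩
          by_contra hxe
          have : x ∈ S \ e := Finset.mem_sdiff.mpr ⟨hxS, hxe⟩
          rw [hv] at this
          exact hx (Finset.mem_singleton.mp this)
        · intro hx
          exact ⟨fun h => hvS2 (h ▸ hx), hes hx⟩
      refine ⟨v, ⟨⟨hvS1, ?_⟩, ?_⟩, heq⟩
      · by_contra hsv
        have h5 := hH e he b
        have h6 : cnt side b e = cnt side b S := by
          unfold cnt
          congr 1
          rw [← heq]
          ext x
          simp only [Finset.mem_filter, Finset.mem_erase]
          constructor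
          · rintro ⟨⟨_, h⟩, h'⟩
            exact ⟨h, h'⟩
          · rintro ⟨h, h'⟩
            exact ⟨⟨fun hx => hsv (hx ▸ h'), h⟩, h'⟩
        omega
      · rw [heq]; exact he
    · rintro ⟨v, ⟨⟨_, _⟩, hv3⟩, rfl⟩
      exact ⟨hv3, Finset.erase_subset _ _⟩
  rw [this, Finset.card_image_of_injOn]
  intro x hx y hy hxy
  simp only [Finset.coe_filter, Set.mem_setOf_eq] at hx hy
  simp only at hxy
  by_contra hne
  have h1 : x ∈ S.erase y := Finset.mem_erase.mpr ⟨hne, (Finset.mem_filter.mp hx.1).1⟩
  rw [← hxy] at h1
  exact (Finset.notMem_erase x S) h1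

/-- indicator of membership, with values in `ZMod 2`. -/
def ind (H : Finset (Finset V)) (e : Finset V) : ZMod 2 := if e ∈ H then 1 else 0

lemma even_iff {side : V → Bool} {H : Finset (Finset V)} (hH : ∀ e ∈ H, Two side e)
    {S : Finset V} {b : Bool} (h3 : cnt side b S = 3) (h2 : cnt side (!b) S = 2) :
    Even (H.filter (fun e => e ⊆ S)).card ↔
      ∑ v ∈ S.filter (fun v => side v = b), ind H (S.erase v) = 0 := by
  rw [filter_subset hH h3 h2]
  unfold ind
  rw [Finset.sum_boole, ZMod.natCast_eq_zero_iff_even]

lemma cnt_cases {side : V → Bool} {S : Finset V} (h5 : S.card = 5)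
    (h : ∀ v ∈ S, (S.filter (fun w => side v = side w)).card ≤ 3) :
    ∃ b, cnt side b S = 3 ∧ cnt side (!b) S = 2 := by
  have h' : ∀ b, cnt side b S ≤ 3 := by
    intro b
    by_cases hb : ∃ v ∈ S, side v = b
    · obtain ⟨v, hv, hb⟩ := hb
      rw [← hb, ← filter_side]
      exact h v hv
    · push Not at hb
      have : cnt side b S = 0 := by
        unfold cnt
        rw [Finset.card_eq_zero, Finset.filter_eq_empty_iff]
        exact fun x hx => hb x hx
      omega
  have h1 := cnt_add side true S
  have h2 := h' true
  have h3 := h' false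
  simp only [Bool.not_true] at h1
  rcases Nat.lt_or_ge (cnt side true S) 3 with h4 | h4
  · exact ⟨false, by omega, by simp only [Bool.not_false]; omega⟩
  · exact ⟨true, by omega, by simp only [Bool.not_true]; omega⟩

/-- the quadratic form of a bipartite weighting. -/
def Q (side : V → Bool) (F : V → V → ZMod 2) (b : Bool) (e : Finset V) : ZMod 2 :=
  ∑ v ∈ e.filter (fun v => side v = b), ∑ w ∈ e.filter (fun w => side w = !b), F v w

lemma Q_not {side : V → Bool} {F : V → V → ZMod 2} (hF : ∀ x y, F x y = F y x) (b : Bool)
    (e : Finset V) : Q side F (!b) e = Q side F b e := by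
  unfold Q
  rw [Bool.not_not, Finset.sum_comm]
  refine Finset.sum_congr rfl fun x _ => Finset.sum_congr rfl fun y _ => hF _ _

lemma Q_any {side : V → Bool} {F : V → V → ZMod 2} (hF : ∀ x y, F x y = F y x) (b c : Bool)
    (e : Finset V) : Q side F b e = Q side F c e := by
  rcases Bool.eq_or_eq_not b c with h | h
  · rw [h]
  · rw [h, Q_not hF]

lemma zmod2_add_self (x : ZMod 2) : x + x = 0 := by
  have : (2 : ZMod 2) = 0 := rfl
  rw [← two_mul, this, zero_mul]

/-- `Q` satisfies the cocycle condition. -/
lemma Q_cocycle {side : V → Bool} (F : V → V → ZMod 2)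
    {S : Finset V} {b : Bool} (h3 : cnt side b S = 3) :
    ∑ v ∈ S.filter (fun v => side v = b), Q side F b (S.erase v) = 0 := by
  unfold Q
  have h1 : ∀ v ∈ S.filter (fun v => side v = b),
      (∑ u ∈ (S.erase v).filter (fun u => side u = b),
        ∑ w ∈ (S.erase v).filter (fun w => side w = !b), F u w) =
      ∑ u ∈ (S.filter (fun u => side u = b)).erase v,
        ∑ w ∈ S.filter (fun w => side w = !b), F u w := by
    intro v hv
    have hvb := (Finset.mem_filter.mp hv).2
    rw [Finset.filter_erase]
    refine Finset.sum_congr rfl fun u _ => ?_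
    rw [Finset.filter_erase, Finset.erase_eq_of_notMem]
    intro hmem
    have := (Finset.mem_filter.mp hmem).2
    rw [hvb] at this
    cases b <;> simp at this
  rw [Finset.sum_congr rfl h1]
  set T := S.filter (fun v => side v = b) with hT
  have hT3 : T.card = 3 := h3
  generalize (fun u => ∑ w ∈ S.filter (fun w => side w = !b), F u w) = g
  have h2 : ∀ v ∈ T, ∑ u ∈ T.erase v, g u = (∑ u ∈ T, g u) + g v := by
    intro v hv
    rw [← Finset.add_sum_erase T g hv]
    have := zmod2_add_self (g v)
    linear_combination -this
  change ∑ v ∈ T, ∑ u ∈ T.erase v, g u = 0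
  rw [Finset.sum_congr rfl h2, Finset.sum_add_distrib, Finset.sum_const, hT3]
  have : (3 : ℕ) • (∑ u ∈ T, g u) = ∑ u ∈ T, g u := by
    have h := zmod2_add_self (∑ u ∈ T, g u)
    rw [nsmul_eq_mul]
    push_cast
    linear_combination h
  rw [this]
  exact zmod2_add_self _

end Pool.Agent.R38.ThreeGraph
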