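import Pool.Agent.R38.ThreeGraph

set_option autoImplicit false

namespace Pool.Agent.R38.ThreeGraph

open Finset

variable {V : Type*} [DecidableEq V]

lemma ind_zero {side : V → Bool} {H : Finset (Finset V)} (hH : ∀ e ∈ H, Two side e)
    {e : Finset V} (he : e.card ≤ 3) : ind H e = 0 := by
  unfold ind
  rw [if_neg]
  intro h
  have := two_card (hH e h)
  omega

lemma card_three_le (a b c : V) : ({a, b, c} : Finset V).card ≤ 3 := Finset.card_le_three

lemma ind_cocycle {side : V → Bool} {H : Finset (Finset V)} (hH : ∀ e ∈ H, Two side e)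
    (hE : ∀ (S : Finset V) (b : Bool), cnt side b S = 3 → cnt side (!b) S = 2 →
      Even (H.filter (fun e => e ⊆ S)).card)
    {s : Bool} {a b c d e : V} (ha : side a = s) (hb : side b = s) (hc : side c = s)
    (hd : side d = !s) (he : side e = !s) :
    ind H {a, b, d, e} + ind H {a, c, d, e} + ind H {b, c, d, e} = 0 := by
  by_cases hde : d = e
  · subst hde
    rw [ind_zero hH, ind_zero hH, ind_zero hH]
    · simp
    all_goals
      simp only [Finset.insert_eq_of_mem (Finset.mem_singleton_self d)]
      exact card_three_le _ _ _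
  by_cases hab : a = b
  · subst hab
    have h1 : ({a, a, d, e} : Finset V) = {a, d, e} := by simp
    rw [h1, ind_zero hH (card_three_le _ _ _), zero_add]
    exact zmod2_add_self _
  by_cases hac : a = c
  · subst hac
    have h1 : ({a, a, d, e} : Finset V) = {a, d, e} := by simp
    rw [h1, ind_zero hH (card_three_le _ _ _), add_zero, Finset.insert_comm]
    exact zmod2_add_self _
  by_cases hbc : b = c
  · subst hbc
    have h1 : ({b, b, d, e} : Finset V) = {b, d, e} := by simp
    rw [h1, ind_zero hH (card_three_le _ _ _), add_zero]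
    exact zmod2_add_self _
  have hne : ∀ x y : V, side x = s → side y = !s → x ≠ y := by
    intro x y hx hy hxy
    rw [hxy, hy] at hx
    cases s <;> simp at hx
  have had := hne a d ha hd
  have hae := hne a e ha he
  have hbd := hne b d hb hd
  have hbe := hne b e hb he
  have hcd := hne c d hc hd
  have hce := hne c e hc he
  set S : Finset V := {a, b, c, d, e} with hS
  have hf1 : S.filter (fun v => side v = s) = {a, b, c} := by
    ext x
    simp only [hS, Finset.mem_filter, Finset.mem_insert, Finset.mem_singleton]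
    constructor
    · rintro ⟨h | h | h | h | h, hx⟩
      · exact Or.inl h
      · exact Or.inr (Or.inl h)
      · exact Or.inr (Or.inr h)
      · rw [h, hd] at hx; cases s <;> simp at hx
      · rw [h, he] at hx; cases s <;> simp at hx
    · rintro (h | h | h) <;> subst h <;> simp [*]
  have hf2 : S.filter (fun v => side v = !s) = {d, e} := by
    ext x
    simp only [hS, Finset.mem_filter, Finset.mem_insert, Finset.mem_singleton]
    constructor
    · rintro ⟨h | h | h | h | h, hx⟩
      · rw [h, ha] at hx; cases s <;> simp at hx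
      · rw [h, hb] at hx; cases s <;> simp at hx
      · rw [h, hc] at hx; cases s <;> simp at hx
      · exact Or.inl h
      · exact Or.inr h
    · rintro (h | h) <;> subst h <;> simp [*]
  have h3 : cnt side s S = 3 := by
    unfold cnt
    rw [hf1]
    rw [Finset.card_insert_of_notMem (by simp [hab, hac]), Finset.card_pair hbc]
  have h2 : cnt side (!s) S = 2 := by
    unfold cnt
    rw [hf2, Finset.card_pair hde]
  have h := (even_iff hH h3 h2).mp (hE S s h3 h2)
  rw [hf1, Finset.sum_insert (by simp [hab, hac]), Finset.sum_pair hbc] at h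
  have e1 : S.erase a = {b, c, d, e} := by
    rw [hS, Finset.erase_insert]
    simp [hab, hac, had, hae]
  have e2 : S.erase b = {a, c, d, e} := by
    ext x
    simp only [hS, Finset.mem_erase, Finset.mem_insert, Finset.mem_singleton]
    constructor
    · rintro ⟨h1, h2 | h2 | h2 | h2 | h2⟩
      · exact Or.inl h2
      · exact absurd h2 h1
      · exact Or.inr (Or.inl h2)
      · exact Or.inr (Or.inr (Or.inl h2))
      · exact Or.inr (Or.inr (Or.inr h2))
    · rintro (h2 | h2 | h2 | h2)
      · subst h2; exact ⟨hab, Or.inl rfl⟩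
      · subst h2; exact ⟨fun h => hbc h.symm, Or.inr (Or.inr (Or.inl rfl))⟩
      · subst h2; exact ⟨fun h => hbd h.symm, Or.inr (Or.inr (Or.inr (Or.inl rfl)))⟩
      · subst h2; exact ⟨fun h => hbe h.symm, Or.inr (Or.inr (Or.inr (Or.inr rfl)))⟩
  have e3 : S.erase c = {a, b, d, e} := by
    ext x
    simp only [hS, Finset.mem_erase, Finset.mem_insert, Finset.mem_singleton]
    constructor
    · rintro ⟨h1, h2 | h2 | h2 | h2 | h2⟩
      · exact Or.inl h2
      · exact Or.inr (Or.inl h2)
      · exact absurd h2 h1
      · exact Or.inr (Or.inr (Or.inl h2))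
      · exact Or.inr (Or.inr (Or.inr h2))
    · rintro (h2 | h2 | h2 | h2)
      · subst h2; exact ⟨hac, Or.inl rfl⟩
      · subst h2; exact ⟨hbc, Or.inr (Or.inl rfl)⟩
      · subst h2; exact ⟨fun h => hcd h.symm, Or.inr (Or.inr (Or.inr (Or.inl rfl)))⟩
      · subst h2; exact ⟨fun h => hce h.symm, Or.inr (Or.inr (Or.inr (Or.inr rfl)))⟩
  rw [e1, e2, e3] at h
  linear_combination h

lemma two_eq {side : V → Bool} {e : Finset V} (h : Two side e) :
    ∃ x x' y y' : V, x ≠ x' ∧ y ≠ y' ∧ side x = true ∧ side x' = true ∧ side y = false ∧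
      side y' = false ∧ e = {x, x', y, y'} ∧ e.filter (fun v => side v = true) = {x, x'} ∧
      e.filter (fun v => side v = false) = {y, y'} := by
  obtain ⟨x, x', hx, hx'⟩ := Finset.card_eq_two.mp (h true)
  obtain ⟨y, y', hy, hy'⟩ := Finset.card_eq_two.mp (h false)
  have m1 : x ∈ e.filter (fun v => side v = true) := by rw [hx']; simp
  have m2 : x' ∈ e.filter (fun v => side v = true) := by rw [hx']; simp
  have m3 : y ∈ e.filter (fun v => side v = false) := by rw [hy']; simp
  have m4 : y' ∈ e.filter (fun v => side v = false) := by rw [hy']; simp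
  refine ⟨x, x', y, y', hx, hy, (Finset.mem_filter.mp m1).2, (Finset.mem_filter.mp m2).2,
    (Finset.mem_filter.mp m3).2, (Finset.mem_filter.mp m4).2, ?_, hx', hy'⟩
  ext v
  simp only [Finset.mem_insert, Finset.mem_singleton]
  constructor
  · intro hv
    cases hs : side v with
    | true =>
      have : v ∈ e.filter (fun v => side v = true) := Finset.mem_filter.mpr ⟨hv, hs⟩
      rw [hx'] at this
      simp only [Finset.mem_insert, Finset.mem_singleton] at this
      tauto
    | false =>
      have : v ∈ e.filter (fun v => side v = false) := Finset.mem_filter.mpr ⟨hv, hs⟩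
      rw [hy'] at this
      simp only [Finset.mem_insert, Finset.mem_singleton] at this
      tauto
  · rintro (h | h | h | h)
    · rw [h]; exact (Finset.mem_filter.mp m1).1
    · rw [h]; exact (Finset.mem_filter.mp m2).1
    · rw [h]; exact (Finset.mem_filter.mp m3).1
    · rw [h]; exact (Finset.mem_filter.mp m4).1

/-- Every three-graph comes from a bipartite weighting. -/
lemma exists_weight {side : V → Bool} {H : Finset (Finset V)} (hH : ∀ e ∈ H, Two side e)
    (hE : ∀ (S : Finset V) (b : Bool), cnt side b S = 3 → cnt side (!b) S = 2 →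
      Even (H.filter (fun e => e ⊆ S)).card) :
    ∃ F : V → V → ZMod 2, (∀ x y, F x y = F y x) ∧
      ∀ e, Two side e → ind H e = Q side F true e := by
  by_cases hx0 : ∃ x0, side x0 = true
  swap
  · refine ⟨fun _ _ => 0, fun _ _ => rfl, fun e he => ?_⟩
    obtain ⟨x, _, _, _, _, _, hx, _⟩ := two_eq he
    exact absurd ⟨x, hx⟩ hx0
  by_cases hy0 : ∃ y0, side y0 = false
  swap
  · refine ⟨fun _ _ => 0, fun _ _ => rfl, fun e he => ?_⟩
    obtain ⟨_, _, y, _, _, _, _, _, hy, _⟩ := two_eq he
    exact absurd ⟨y, hy⟩ hy0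
  obtain ⟨x0, hx0⟩ := hx0
  obtain ⟨y0, hy0⟩ := hy0
  set F : V → V → ZMod 2 := fun x y =>
    if side x = true ∧ side y = false then ind H {x0, x, y0, y}
    else if side y = true ∧ side x = false then ind H {x0, y, y0, x} else 0 with hF
  have hFs : ∀ x y, F x y = F y x := by
    intro x y
    simp only [hF]
    cases side x <;> cases side y <;> simp
  have hF1 : ∀ x y, side x = true → side y = false → F x y = ind H {x0, x, y0, y} := by
    intro x y hx hy
    simp only [hF]
    rw [if_pos ⟨hx, hy⟩]
  refine ⟨F, hFs, fun e he => ?_⟩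
  obtain ⟨x, x', y, y', hxx, hyy, hx, hx', hy, hy', rfl, hf1, hf2⟩ := two_eq he
  unfold Q
  rw [Bool.not_true, hf1, hf2, Finset.sum_pair hxx, Finset.sum_pair hyy, Finset.sum_pair hyy,
    hF1 x y hx hy, hF1 x y' hx hy', hF1 x' y hx' hy, hF1 x' y' hx' hy']
  have c1 := ind_cocycle hH hE (s := true) (a := x0) (b := x) (c := x') (d := y) (e := y')
    hx0 hx hx' hy hy'
  have c2 := ind_cocycle hH hE (s := false) (a := y0) (b := y) (c := y') (d := x0) (e := x)
    hy0 hy hy' hx0 hx
  have c3 := ind_cocycle hH hE (s := false) (a := y0) (b := y) (c := y') (d := x0) (e := x')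
    hy0 hy hy' hx0 hx'
  have sw : ∀ a b c d : V, ({a, b, c, d} : Finset V) = {c, d, a, b} := by
    intro a b c d
    ext v
    simp only [Finset.mem_insert, Finset.mem_singleton]
    tauto
  rw [sw y0 y x0 x, sw y0 y' x0 x, sw y y' x0 x] at c2
  rw [sw y0 y x0 x', sw y0 y' x0 x', sw y y' x0 x'] at c3
  have d1 := zmod2_add_self (ind H {x, x', y, y'})
  have d2 := zmod2_add_self (ind H {x0, x, y, y'})
  have d3 := zmod2_add_self (ind H {x0, x', y, y'})
  have d4 := zmod2_add_self (ind H {x0, x, y0, y})
  have d5 := zmod2_add_self (ind H {x0, x, y0, y'})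
  have d6 := zmod2_add_self (ind H {x0, x', y0, y})
  have d7 := zmod2_add_self (ind H {x0, x', y0, y'})
  linear_combination c1 + c2 + c3 - d2 - d3 - d4 - d5 - d6 - d7

end Pool.Agent.R38.ThreeGraph
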