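import Pool.Agent.R38.ThreeGraph2

set_option autoImplicit false

namespace Pool.Agent.R38.ThreeGraph

open Finset

variable {V : Type} [DecidableEq V]

lemma quad {side : V → Bool} {b : Bool} {x x' y y' : V} (hxx : x ≠ x') (hyy : y ≠ y')
    (hx : side x = b) (hx' : side x' = b) (hy : side y = !b) (hy' : side y' = !b) :
    (({x, x', y, y'} : Finset V).filter (fun v => side v = b) = {x, x'}) ∧
    (({x, x', y, y'} : Finset V).filter (fun v => side v = !b) = {y, y'}) := by
  constructor
  · ext v
    simp only [Finset.mem_filter, Finset.mem_insert, Finset.mem_singleton]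
    constructor
    · rintro ⟨h | h | h | h, hv⟩
      · exact Or.inl h
      · exact Or.inr h
      · rw [h, hy] at hv; cases b <;> simp at hv
      · rw [h, hy'] at hv; cases b <;> simp at hv
    · rintro (h | h) <;> subst h <;> simp [*]
  · ext v
    simp only [Finset.mem_filter, Finset.mem_insert, Finset.mem_singleton]
    constructor
    · rintro ⟨h | h | h | h, hv⟩
      · rw [h, hx] at hv; cases b <;> simp at hv
      · rw [h, hx'] at hv; cases b <;> simp at hv
      · exact Or.inl h
      · exact Or.inr h
    · rintro (h | h) <;> subst h <;> simp [*]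

lemma quad_two {side : V → Bool} {b : Bool} {x x' y y' : V} (hxx : x ≠ x') (hyy : y ≠ y')
    (hx : side x = b) (hx' : side x' = b) (hy : side y = !b) (hy' : side y' = !b) :
    Two side {x, x', y, y'} := by
  obtain ⟨h1, h2⟩ := quad hxx hyy hx hx' hy hy'
  intro c
  rcases Bool.eq_or_eq_not c b with h | h
  · subst h
    unfold cnt
    rw [h1, Finset.card_pair hxx]
  · subst h
    unfold cnt
    rw [h2, Finset.card_pair hyy]

lemma quad_Q {side : V → Bool} {b : Bool} {x x' y y' : V} (hxx : x ≠ x') (hyy : y ≠ y')
    (hx : side x = b) (hx' : side x' = b) (hy : side y = !b) (hy' : side y' = !b)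
    {F : V → V → ZMod 2} (hF : ∀ x y, F x y = F y x) :
    Q side F true {x, x', y, y'} = F x y + F x y' + (F x' y + F x' y') := by
  obtain ⟨h1, h2⟩ := quad hxx hyy hx hx' hy hy'
  rw [Q_any hF true b]
  unfold Q
  rw [h1, h2, Finset.sum_pair hxx, Finset.sum_pair hyy, Finset.sum_pair hyy]

lemma zmod2_eq_of_add {x y : ZMod 2} (h : x + y = 0) : x = y := by
  have := zmod2_add_self y
  linear_combination h - this

lemma ind_eq_iff (H : Finset (Finset V)) (e : Finset V) : ind H e = 1 ↔ e ∈ H := by
  unfold ind
  split_ifs with h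
  · simp [h]
  · simp [h]

lemma ind_congr {V' : Type} [DecidableEq V'] {H : Finset (Finset V)} {H' : Finset (Finset V')}
    {e : Finset V} {e' : Finset V'}
    (h : e ∈ H ↔ e' ∈ H') : ind H e = ind H' e' := by
  unfold ind
  by_cases he : e ∈ H
  · rw [if_pos he, if_pos (h.mp he)]
  · rw [if_neg he, if_neg (fun h' => he (h.mpr h'))]

/-- The switching function of a partial automorphism. -/
lemma exists_switch {side : V → Bool} {H : Finset (Finset V)}
    {F : V → V → ZMod 2} (hF : ∀ x y, F x y = F y x)
    (hQ : ∀ e, Two side e → ind H e = Q side F true e)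
    (S : Finset V) (p : V → V) (hp : Set.InjOn p (S : Set V)) (ε : Bool)
    (hε : ∀ x ∈ S, side (p x) = xor (side x) ε)
    (hH : ∀ e ⊆ S, e ∈ H ↔ e.image p ∈ H) :
    ∃ a : V → ZMod 2, ∀ x ∈ S, ∀ y ∈ S, side x ≠ side y →
      F (p x) (p y) + F x y = a x + a y := by
  by_cases h1 : ∃ x1 ∈ S, side x1 = true
  swap
  · push Not at h1
    refine ⟨fun _ => 0, fun x hx y hy hxy => ?_⟩
    exfalso
    apply hxy
    rw [Bool.not_eq_true _ |>.mp (h1 x hx), Bool.not_eq_true _ |>.mp (h1 y hy)]
  by_cases h2 : ∃ y1 ∈ S, side y1 = false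
  swap
  · push Not at h2
    refine ⟨fun _ => 0, fun x hx y hy hxy => ?_⟩
    exfalso
    apply hxy
    rw [Bool.not_eq_false _ |>.mp (h2 x hx), Bool.not_eq_false _ |>.mp (h2 y hy)]
  obtain ⟨x1, hx1S, hx1⟩ := h1
  obtain ⟨y1, hy1S, hy1⟩ := h2
  set δ : V → V → ZMod 2 := fun x y => F (p x) (p y) + F x y with hδ
  have hδs : ∀ x y, δ x y = δ y x := fun x y => by
    simp only [hδ]; rw [hF (p x) (p y), hF x y]
  have key : ∀ x ∈ S, ∀ y ∈ S, side x = true → side y = false →
      δ x y = δ x y1 + δ x1 y + δ x1 y1 := by
    intro x hxS y hyS hx hy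
    by_cases hxx : x = x1
    · subst hxx
      linear_combination - zmod2_add_self (δ x y1)
    by_cases hyy : y = y1
    · subst hyy
      linear_combination - zmod2_add_self (δ x1 y)
    have e1 := hQ _ (quad_two (side := side) (b := true) hxx hyy hx hx1 hy hy1)
    rw [quad_Q (side := side) (b := true) hxx hyy hx hx1 hy hy1 hF] at e1
    have pxx : p x ≠ p x1 := fun h => hxx (hp hxS hx1S h)
    have pyy : p y ≠ p y1 := fun h => hyy (hp hyS hy1S h)
    have s1 : side (p x) = !ε := by rw [hε x hxS, hx, Bool.true_xor]
    have s2 : side (p x1) = !ε := by rw [hε x1 hx1S, hx1, Bool.true_xor]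
    have s3 : side (p y) = !!ε := by rw [hε y hyS, hy, Bool.false_xor, Bool.not_not]
    have s4 : side (p y1) = !!ε := by rw [hε y1 hy1S, hy1, Bool.false_xor, Bool.not_not]
    have e2 := hQ _ (quad_two (side := side) (b := !ε) pxx pyy s1 s2 s3 s4)
    rw [quad_Q (side := side) (b := !ε) pxx pyy s1 s2 s3 s4 hF] at e2
    have e3 : ind H {x, x1, y, y1} = ind H {p x, p x1, p y, p y1} := by
      apply ind_congr
      rw [hH]
      · simp [Finset.image_insert, Finset.image_singleton]
      · intro v hv
        simp only [Finset.mem_insert, Finset.mem_singleton] at hv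
        rcases hv with h | h | h | h <;> rw [h] <;> assumption
    rw [e1, e2] at e3
    simp only [hδ]
    linear_combination e3 + zmod2_add_self (F (p x) (p y)) - zmod2_add_self (F x y1) -
      zmod2_add_self (F x1 y) - zmod2_add_self (F x1 y1)
  refine ⟨fun x => if side x = true then δ x y1 else δ x1 x + δ x1 y1, fun x hx y hy hxy => ?_⟩
  change δ x y = _
  cases h3 : side x with
  | true =>
    have h4 : side y = false := by
      cases h : side y with
      | true => rw [h3, h] at hxy; exact absurd rfl hxy
      | false => rfl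
    simp only [h3, h4, if_true, Bool.false_eq_true, if_false]
    rw [key x hx y hy h3 h4]
    ring
  | false =>
    have h4 : side y = true := by
      cases h : side y with
      | false => rw [h3, h] at hxy; exact absurd rfl hxy
      | true => rfl
    simp only [h3, h4, if_true, Bool.false_eq_true, if_false]
    rw [hδs x y, key y hy x hx h4 h3]
    ring

/-! ### The extension -/

section Ext

variable [Fintype V] (sA : V → Bool) (FA : V → V → ZMod 2)

/-- Vertices of the extension. -/
abbrev Bt (V : Type) : Type := (V × Bool) × (V × Bool → ZMod 2)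

/-- The side of a vertex. -/
def sB : Bt V → Bool := fun x => x.1.2

/-- The weighting. -/
def FB : Bt V → Bt V → ZMod 2 := fun x y => x.2 y.1 + y.2 x.1

omit [DecidableEq V] [Fintype V] in
lemma FB_symm (x y : Bt V) : FB x y = FB y x := by
  unfold FB; ring

/-- The second coordinate of the embedding. -/
def ch (v : V) : V × Bool → ZMod 2 := fun w =>
  if sA v = true ∧ sA w.1 = false then FA v w.1 else 0

/-- The embedding. -/
def emb : V ↪ Bt V where
  toFun v := ((v, sA v), ch sA FA v)
  inj' := by
    intro x y h
    exact (Prod.ext_iff.mp (Prod.ext_iff.mp h).1).1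

/-- The hyperedges. -/
noncomputable def HB : Finset (Finset (Bt V)) := by
  classical
  exact Finset.univ.filter (fun e => Two sB e ∧ Q sB FB true e = 1)

lemma mem_HB (e : Finset (Bt V)) : e ∈ HB ↔ Two sB e ∧ Q sB FB true e = 1 := by
  unfold HB
  simp

end Ext

end Pool.Agent.R38.ThreeGraph
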