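import Pool.Agent.R38.ThreeGraph3

set_option autoImplicit false

namespace Pool.Agent.R38.ThreeGraph

open Finset

lemma cnt_map {V B : Type} {sV : V → Bool} {sB : B → Bool} (f : V ↪ B) (b ε : Bool)
    (hf : ∀ v, sB (f v) = xor (sV v) ε) (e : Finset V) :
    cnt sB b (e.map f) = cnt sV (xor b ε) e := by
  unfold cnt
  rw [Finset.filter_map, Finset.card_map]
  congr 1
  apply Finset.filter_congr
  intro x _
  simp only [Function.comp_apply, hf]
  cases b <;> cases ε <;> cases sV x <;> simp

lemma two_map {V B : Type} {sV : V → Bool} {sB : B → Bool} (f : V ↪ B) (ε : Bool)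
    (hf : ∀ v, sB (f v) = xor (sV v) ε) (e : Finset V) :
    Two sB (e.map f) ↔ Two sV e := by
  constructor
  · intro h b
    have := h (xor b ε)
    rw [cnt_map f _ ε hf] at this
    simpa using this
  · intro h b
    rw [cnt_map f _ ε hf]
    exact h _

lemma Q_map {V B : Type} [DecidableEq V] [DecidableEq B] {sV : V → Bool} {sB : B → Bool}
    {FV : V → V → ZMod 2} {FB : B → B → ZMod 2}
    (hV : ∀ x y, FV x y = FV y x) (hB : ∀ x y, FB x y = FB y x)
    (f : V ↪ B) (ε : Bool)
    (hf : ∀ v, sB (f v) = xor (sV v) ε) (a : V → ZMod 2)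
    (hF : ∀ x y, sV x ≠ sV y → FB (f x) (f y) = FV x y + a x + a y)
    {e : Finset V} (he : Two sV e) :
    Q sB FB true (e.map f) = Q sV FV true e := by
  obtain ⟨x, x', y, y', hxx, hyy, hx, hx', hy, hy', rfl, _, _⟩ := two_eq he
  have h1 : ({x, x', y, y'} : Finset V).map f = {f x, f x', f y, f y'} := by
    simp [Finset.map_insert, Finset.map_singleton]
  rw [h1, quad_Q (b := true) hxx hyy hx hx' hy hy' hV,
    quad_Q (b := !ε) (fun h => hxx (f.injective h)) (fun h => hyy (f.injective h))
      (by rw [hf, hx, Bool.true_xor]) (by rw [hf, hx', Bool.true_xor])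
      (by rw [hf, hy, Bool.false_xor, Bool.not_not])
      (by rw [hf, hy', Bool.false_xor, Bool.not_not]) hB,
    hF x y (by rw [hx, hy]; simp), hF x y' (by rw [hx, hy']; simp),
    hF x' y (by rw [hx', hy]; simp), hF x' y' (by rw [hx', hy']; simp)]
  linear_combination zmod2_add_self (a x) + zmod2_add_self (a x') + zmod2_add_self (a y) +
    zmod2_add_self (a y')

/-- extension of a partial injection to a permutation. -/
lemma exists_perm {V : Type} [Fintype V] [DecidableEq V] (s : Finset V) (p : V → V)
    (hp : Set.InjOn p (s : Set V)) : ∃ g : V ≃ V, ∀ x ∈ s, g x = p x := by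
  obtain ⟨g, hg⟩ := Finset.exists_equiv_extend_of_card_eq (α := V) (β := V) (t := Finset.univ)
    (s := s) (f := p) (by simp) (Finset.subset_univ _) hp
  exact ⟨g.trans (Equiv.subtypeUnivEquiv (fun x => Finset.mem_univ x)), hg⟩

/-- **Main construction.** -/
theorem core {V : Type} [Fintype V] [DecidableEq V] (sA : V → Bool) (HA : Finset (Finset V))
    (hH : ∀ e ∈ HA, Two sA e)
    (hE : ∀ (S : Finset V) (b : Bool), cnt sA b S = 3 → cnt sA (!b) S = 2 →
      Even (HA.filter (fun e => e ⊆ S)).card) :
    ∃ HB : Finset (Finset (Bt V)),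
      (∀ e ∈ HB, Two sB e) ∧
      (∀ (S : Finset (Bt V)) (b : Bool), cnt sB b S = 3 → cnt sB (!b) S = 2 →
        Even (HB.filter (fun e => e ⊆ S)).card) ∧
      ∃ f : V ↪ Bt V, (∀ v, sB (f v) = sA v) ∧ (∀ e : Finset V, e ∈ HA ↔ e.map f ∈ HB) ∧
        ∀ (S : Finset V) (p : V → V), Set.InjOn p (S : Set V) →
          (∀ x ∈ S, ∀ y ∈ S, sA x = sA y ↔ sA (p x) = sA (p y)) →
          (∀ e ⊆ S, e ∈ HA ↔ e.image p ∈ HA) →
          ∃ σ : Bt V ≃ Bt V, (∀ x y, sB x = sB y ↔ sB (σ x) = sB (σ y)) ∧
            (∀ e : Finset (Bt V), e ∈ HB ↔ e.map σ.toEmbedding ∈ HB) ∧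
            ∀ x ∈ S, σ (f x) = f (p x) := by
  obtain ⟨FA, hFs, hQ⟩ := exists_weight hH hE
  refine ⟨HB, fun e he => ((mem_HB e).mp he).1, ?_, emb sA FA, fun v => rfl, ?_, ?_⟩
  · intro S b h3 h2
    rw [even_iff (side := sB) (fun e he => ((mem_HB e).mp he).1) h3 h2]
    rw [← Q_cocycle (FB (V := V)) h3]
    refine Finset.sum_congr rfl fun v hv => ?_
    have hv' := Finset.mem_filter.mp hv
    have ht : Two sB (S.erase v) := by
      intro c
      have e1 : cnt sB b (S.erase v) = 2 := by
        unfold cnt
        rw [Finset.filter_erase, Finset.card_erase_of_mem hv]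
        unfold cnt at h3
        omega
      have e2 : cnt sB (!b) (S.erase v) = 2 := by
        unfold cnt
        rw [Finset.filter_erase, Finset.erase_eq_of_notMem]
        · exact h2
        · intro h
          have := (Finset.mem_filter.mp h).2
          rw [hv'.2] at this
          cases b <;> simp at this
      rcases Bool.eq_or_eq_not c b with h | h
      · rw [h]; exact e1
      · rw [h]; exact e2
    rw [Q_any FB_symm b true]
    unfold ind
    by_cases hq : Q sB FB true (S.erase v) = 1
    · rw [if_pos ((mem_HB _).mpr ⟨ht, hq⟩), hq]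
    · rw [if_neg (fun h => hq ((mem_HB _).mp h).2)]
      have h01 : ∀ z : ZMod 2, z ≠ 1 → z = 0 := by decide
      exact (h01 _ hq).symm
  · intro e
    have hf : ∀ v, sB (emb sA FA v) = xor (sA v) false := fun v => by
      rw [Bool.xor_false]; rfl
    have hFF : ∀ x y, sA x ≠ sA y → FB (emb sA FA x) (emb sA FA y) = FA x y + 0 + 0 := by
      intro x y hxy
      change ch sA FA x (y, sA y) + ch sA FA y (x, sA x) = _
      unfold ch
      rw [add_zero, add_zero]
      cases hx : sA x <;> cases hy : sA y
      · rw [hx, hy] at hxy; exact absurd rfl hxy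
      · simp only [Bool.false_eq_true, false_and, if_false, true_and, if_true, zero_add]
        simp [hFs y x]
      · simp
      · rw [hx, hy] at hxy; exact absurd rfl hxy
    rw [mem_HB, two_map _ false hf]
    constructor
    · intro he
      refine ⟨hH e he, ?_⟩
      rw [Q_map hFs FB_symm (emb sA FA) false hf (fun _ => 0) hFF (hH e he), ← hQ e (hH e he)]
      exact (ind_eq_iff _ _).mpr he
    · rintro ⟨he, h1⟩
      rw [Q_map hFs FB_symm (emb sA FA) false hf (fun _ => 0) hFF he, ← hQ e he] at h1
      exact (ind_eq_iff _ _).mp h1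
  · intro S p hp hs hHp
    -- the flip
    obtain ⟨ε, hε⟩ : ∃ ε : Bool, ∀ x ∈ S, sA (p x) = xor (sA x) ε := by
      by_cases hne : S.Nonempty
      · obtain ⟨x0, hx0⟩ := hne
        refine ⟨xor (sA (p x0)) (sA x0), fun x hx => ?_⟩
        have := hs x hx x0 hx0
        cases h1 : sA x <;> cases h2 : sA x0 <;> cases h3 : sA (p x) <;> cases h4 : sA (p x0) <;>
          simp_all
      · refine ⟨false, fun x hx => absurd ⟨x, hx⟩ hne⟩
    obtain ⟨a, ha⟩ := exists_switch hFs hQ S p hp ε hε hHp
    have hg : ∀ b : Bool, ∃ g : V ≃ V, ∀ x ∈ S.filter (fun x => sA x = b), g x = p x := by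
      intro b
      apply exists_perm
      intro x hx y hy hxy
      simp only [Finset.coe_filter, Set.mem_setOf_eq] at hx hy
      exact hp hx.1 hy.1 hxy
    choose g hg using hg
    -- the permutation of V × Bool
    let π : V × Bool ≃ V × Bool :=
      { toFun := fun w => (g w.2 w.1, xor w.2 ε)
        invFun := fun w => ((g (xor w.2 ε)).symm w.1, xor w.2 ε)
        left_inv := by
          intro w
          ext
          · simp
          · simp
        right_inv := by
          intro w
          ext
          · simp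
          · simp }
    have hπ1 : ∀ w, π w = (g w.2 w.1, xor w.2 ε) := fun w => rfl
    have hπS : ∀ x ∈ S, π (x, sA x) = (p x, sA (p x)) := by
      intro x hx
      rw [hπ1, hε x hx]
      simp only
      rw [hg (sA x) x (Finset.mem_filter.mpr ⟨hx, rfl⟩)]
    set c : V → V × Bool → ZMod 2 := ch sA FA with hc
    let inS : V × Bool → Prop := fun w => w.1 ∈ S ∧ sA w.1 = w.2
    classical
    let τ : V × Bool → V × Bool → ZMod 2 := fun w y =>
      if inS w then c (p w.1) (π y) + c w.1 y + a w.1
      else if inS y then c (p y.1) (π w) + c y.1 w + a y.1 else 0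
    have hτ : ∀ w y : V × Bool, w.2 ≠ y.2 → τ w y = τ y w := by
      intro w y hwy
      simp only [τ]
      by_cases h1 : inS w
      · by_cases h2 : inS y
        · rw [if_pos h1, if_pos h2]
          obtain ⟨w1, w2⟩ := w
          obtain ⟨y1, y2⟩ := y
          obtain ⟨hw1, hw2⟩ := h1
          obtain ⟨hy1, hy2⟩ := h2
          simp only at hw1 hw2 hy1 hy2 hwy ⊢
          subst hw2
          subst hy2
          rw [hπS w1 hw1, hπS y1 hy1]
          have h3 : c (p w1) (p y1, sA (p y1)) + c (p y1) (p w1, sA (p w1)) = FA (p w1) (p y1) := by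
            have hne : sA (p w1) ≠ sA (p y1) := by
              intro h
              exact hwy ((hs w1 hw1 y1 hy1).mpr h)
            simp only [hc, ch]
            cases h5 : sA (p w1) <;> cases h6 : sA (p y1)
            · rw [h5, h6] at hne; exact absurd rfl hne
            · simp [hFs (p y1) (p w1)]
            · simp
            · rw [h5, h6] at hne; exact absurd rfl hne
          have h4 : c w1 (y1, sA y1) + c y1 (w1, sA w1) = FA w1 y1 := by
            simp only [hc, ch]
            cases h5 : sA w1 <;> cases h6 : sA y1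
            · rw [h5, h6] at hwy; exact absurd rfl hwy
            · simp [hFs y1 w1]
            · simp
            · rw [h5, h6] at hwy; exact absurd rfl hwy
          have h5 := ha w1 hw1 y1 hy1 hwy
          linear_combination h3 + h4 + h5 - zmod2_add_self (c (p y1) (p w1, sA (p w1))) -
            zmod2_add_self (c y1 (w1, sA w1)) + zmod2_add_self (a w1)
        · rw [if_pos h1, if_neg h2, if_pos h1]
      · by_cases h2 : inS y
        · rw [if_neg h1, if_pos h2, if_pos h2]
        · rw [if_neg h1, if_neg h2, if_neg h2, if_neg h1]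
    let Φ : Bt V ≃ Bt V :=
      { toFun := fun x => (π x.1, fun w => x.2 (π.symm w) + a x.1.1 + τ x.1 (π.symm w))
        invFun := fun x => (π.symm x.1, fun w => x.2 (π w) + a (π.symm x.1).1 + τ (π.symm x.1) w)
        left_inv := by
          intro x
          ext w
          · simp
          · simp
          · simp only [Equiv.symm_apply_apply]
            linear_combination zmod2_add_self (a x.1.1) + zmod2_add_self (τ x.1 w)
        right_inv := by
          intro x
          ext w
          · simp
          · simp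
          · simp only [Equiv.apply_symm_apply]
            linear_combination zmod2_add_self (a (π.symm x.1).1) +
              zmod2_add_self (τ (π.symm x.1) (π.symm w)) }
    have hΦs : ∀ x, sB (Φ x) = xor (sB x) ε := fun x => rfl
    have hΦF : ∀ x y, sB x ≠ sB y → FB (Φ x) (Φ y) = FB x y + a x.1.1 + a y.1.1 := by
      intro x y hxy
      change (x.2 (π.symm (π y.1)) + a x.1.1 + τ x.1 (π.symm (π y.1))) +
        (y.2 (π.symm (π x.1)) + a y.1.1 + τ y.1 (π.symm (π x.1))) = _
      rw [Equiv.symm_apply_apply, Equiv.symm_apply_apply, hτ y.1 x.1 (fun h => hxy h.symm)]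
      unfold FB
      linear_combination zmod2_add_self (τ x.1 y.1)
    refine ⟨Φ, ?_, ?_, ?_⟩
    · intro x y
      rw [hΦs, hΦs]
      cases sB x <;> cases sB y <;> cases ε <;> simp
    · intro e
      rw [mem_HB, mem_HB, two_map Φ.toEmbedding ε hΦs]
      constructor
      · rintro ⟨h1, h2⟩
        refine ⟨h1, ?_⟩
        rw [Q_map FB_symm FB_symm Φ.toEmbedding ε hΦs (fun x => a x.1.1) hΦF h1]
        exact h2
      · rintro ⟨h1, h2⟩
        refine ⟨h1, ?_⟩
        rw [Q_map FB_symm FB_symm Φ.toEmbedding ε hΦs (fun x => a x.1.1) hΦF h1] at h2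
        exact h2
    · intro x hx
      have h1 : (Φ (emb sA FA x)).1 = (emb sA FA (p x)).1 := hπS x hx
      refine Prod.ext h1 ?_
      funext w
      change c x (π.symm w) + a x + τ (x, sA x) (π.symm w) = c (p x) w
      have h2 : inS (x, sA x) := ⟨hx, rfl⟩
      simp only [τ]
      rw [if_pos h2, Equiv.apply_symm_apply]
      linear_combination zmod2_add_self (c x (π.symm w)) + zmod2_add_self (a x)

end Pool.Agent.R38.ThreeGraph
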