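import Mathlib

set_option autoImplicit false

namespace Pool.Agent.R38.VetoProof

abbrev S0 (l v r : ℕ → ℝ) : Prop := v 0 < l 7 ∧ l 7 < r 0 ∧ r 0 < v 7
abbrev S1 (l v r : ℕ → ℝ) : Prop := v 0 < l 8 ∧ l 8 < r 0 ∧ r 0 < v 8
abbrev S2 (l v r : ℕ → ℝ) : Prop := v 0 < l 9 ∧ l 9 < r 0 ∧ r 0 < v 9
abbrev S3 (l v r : ℕ → ℝ) : Prop := v 0 < l 11 ∧ l 11 < r 0 ∧ r 0 < v 11
abbrev S4 (l v r : ℕ → ℝ) : Prop := v 0 < l 15 ∧ l 15 < r 0 ∧ r 0 < v 15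
abbrev S5 (l v r : ℕ → ℝ) : Prop := v 1 < l 2 ∧ l 2 < r 1 ∧ r 1 < v 2
abbrev S6 (l v r : ℕ → ℝ) : Prop := v 1 < l 4 ∧ l 4 < r 1 ∧ r 1 < v 4
abbrev S7 (l v r : ℕ → ℝ) : Prop := v 1 < l 6 ∧ l 6 < r 1 ∧ r 1 < v 6
abbrev S8 (l v r : ℕ → ℝ) : Prop := v 1 < l 9 ∧ l 9 < r 1 ∧ r 1 < v 9
abbrev S9 (l v r : ℕ → ℝ) : Prop := v 1 < l 11 ∧ l 11 < r 1 ∧ r 1 < v 11
abbrev S10 (l v r : ℕ → ℝ) : Prop := v 1 < l 12 ∧ l 12 < r 1 ∧ r 1 < v 12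
abbrev S11 (l v r : ℕ → ℝ) : Prop := v 2 < l 8 ∧ l 8 < r 2 ∧ r 2 < v 8
abbrev S12 (l v r : ℕ → ℝ) : Prop := v 2 < l 15 ∧ l 15 < r 2 ∧ r 2 < v 15
abbrev S13 (l v r : ℕ → ℝ) : Prop := v 2 < l 16 ∧ l 16 < r 2 ∧ r 2 < v 16
abbrev S14 (l v r : ℕ → ℝ) : Prop := v 3 < l 5 ∧ l 5 < r 3 ∧ r 3 < v 5
abbrev S15 (l v r : ℕ → ℝ) : Prop := v 3 < l 8 ∧ l 8 < r 3 ∧ r 3 < v 8
abbrev S16 (l v r : ℕ → ℝ) : Prop := v 3 < l 10 ∧ l 10 < r 3 ∧ r 3 < v 10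
abbrev S17 (l v r : ℕ → ℝ) : Prop := v 3 < l 12 ∧ l 12 < r 3 ∧ r 3 < v 12
abbrev S18 (l v r : ℕ → ℝ) : Prop := v 3 < l 14 ∧ l 14 < r 3 ∧ r 3 < v 14
abbrev S19 (l v r : ℕ → ℝ) : Prop := v 4 < l 5 ∧ l 5 < r 4 ∧ r 4 < v 5
abbrev S20 (l v r : ℕ → ℝ) : Prop := v 4 < l 8 ∧ l 8 < r 4 ∧ r 4 < v 8
abbrev S21 (l v r : ℕ → ℝ) : Prop := v 4 < l 13 ∧ l 13 < r 4 ∧ r 4 < v 13
abbrev S22 (l v r : ℕ → ℝ) : Prop := v 4 < l 15 ∧ l 15 < r 4 ∧ r 4 < v 15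
abbrev S23 (l v r : ℕ → ℝ) : Prop := v 5 < l 7 ∧ l 7 < r 5 ∧ r 5 < v 7
abbrev S24 (l v r : ℕ → ℝ) : Prop := v 5 < l 9 ∧ l 9 < r 5 ∧ r 5 < v 9
abbrev S25 (l v r : ℕ → ℝ) : Prop := v 5 < l 17 ∧ l 17 < r 5 ∧ r 5 < v 17
abbrev S26 (l v r : ℕ → ℝ) : Prop := v 6 < l 13 ∧ l 13 < r 6 ∧ r 6 < v 13
abbrev S27 (l v r : ℕ → ℝ) : Prop := v 6 < l 15 ∧ l 15 < r 6 ∧ r 6 < v 15
abbrev S28 (l v r : ℕ → ℝ) : Prop := v 6 < l 17 ∧ l 17 < r 6 ∧ r 6 < v 17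
abbrev S29 (l v r : ℕ → ℝ) : Prop := v 7 < l 13 ∧ l 13 < r 7 ∧ r 7 < v 13
abbrev S30 (l v r : ℕ → ℝ) : Prop := v 7 < l 14 ∧ l 14 < r 7 ∧ r 7 < v 14
abbrev S31 (l v r : ℕ → ℝ) : Prop := v 9 < l 10 ∧ l 10 < r 9 ∧ r 9 < v 10
abbrev S32 (l v r : ℕ → ℝ) : Prop := v 9 < l 14 ∧ l 14 < r 9 ∧ r 9 < v 14
abbrev S33 (l v r : ℕ → ℝ) : Prop := v 10 < l 13 ∧ l 13 < r 10 ∧ r 10 < v 13
abbrev S34 (l v r : ℕ → ℝ) : Prop := v 10 < l 15 ∧ l 15 < r 10 ∧ r 10 < v 15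
abbrev S35 (l v r : ℕ → ℝ) : Prop := v 10 < l 16 ∧ l 16 < r 10 ∧ r 10 < v 16
abbrev S36 (l v r : ℕ → ℝ) : Prop := v 11 < l 16 ∧ l 16 < r 11 ∧ r 11 < v 16
abbrev S37 (l v r : ℕ → ℝ) : Prop := v 11 < l 17 ∧ l 17 < r 11 ∧ r 11 < v 17
abbrev S38 (l v r : ℕ → ℝ) : Prop := v 12 < l 13 ∧ l 13 < r 12 ∧ r 12 < v 13
abbrev S39 (l v r : ℕ → ℝ) : Prop := v 12 < l 16 ∧ l 16 < r 12 ∧ r 12 < v 16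
abbrev S40 (l v r : ℕ → ℝ) : Prop := v 12 < l 17 ∧ l 17 < r 12 ∧ r 12 < v 17
abbrev S41 (l v r : ℕ → ℝ) : Prop := v 14 < l 15 ∧ l 15 < r 14 ∧ r 14 < v 15
abbrev S42 (l v r : ℕ → ℝ) : Prop := v 14 < l 16 ∧ l 16 < r 14 ∧ r 14 < v 16
abbrev S43 (l v r : ℕ → ℝ) : Prop := v 14 < l 17 ∧ l 17 < r 14 ∧ r 14 < v 17

/-- The facts about a representation used in the proof. -/
structure H (l v r : ℕ → ℝ) : Prop where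
  w : S38 l v r
  u0_0 : l 0 < v 0
  u0_1 : v 0 < r 0
  u1_0 : l 1 < v 1
  u1_1 : v 1 < r 1
  u2_1 : v 2 < r 2
  u3_0 : l 3 < v 3
  u3_1 : v 3 < r 3
  u4_0 : l 4 < v 4
  u4_1 : v 4 < r 4
  u5_0 : l 5 < v 5
  u5_1 : v 5 < r 5
  u6_0 : l 6 < v 6
  u6_1 : v 6 < r 6
  u7_0 : l 7 < v 7
  u7_1 : v 7 < r 7
  u8_0 : l 8 < v 8
  u8_1 : v 8 < r 8
  u9_0 : l 9 < v 9
  u9_1 : v 9 < r 9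
  u10_0 : l 10 < v 10
  u10_1 : v 10 < r 10
  u11_0 : l 11 < v 11
  u11_1 : v 11 < r 11
  u12_0 : l 12 < v 12
  u13_0 : l 13 < v 13
  u13_1 : v 13 < r 13
  u14_0 : l 14 < v 14
  u14_1 : v 14 < r 14
  u15_0 : l 15 < v 15
  u15_1 : v 15 < r 15
  u16_0 : l 16 < v 16
  u16_1 : v 16 < r 16
  u17_0 : l 17 < v 17
  u17_1 : v 17 < r 17
  n0_3 : v 0 < l 3 → l 3 < r 0 → r 0 < v 3 → False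
  n0_4 : v 0 < l 4 → l 4 < r 0 → r 0 < v 4 → False
  n0_13 : v 0 < l 13 → l 13 < r 0 → r 0 < v 13 → False
  n0_17 : v 0 < l 17 → l 17 < r 0 → r 0 < v 17 → False
  n1_7 : v 1 < l 7 → l 7 < r 1 → r 1 < v 7 → False
  n1_8 : v 1 < l 8 → l 8 < r 1 → r 1 < v 8 → False
  n1_16 : v 1 < l 16 → l 16 < r 1 → r 1 < v 16 → False
  n2_5 : v 2 < l 5 → l 5 < r 2 → r 2 < v 5 → False
  n2_13 : v 2 < l 13 → l 13 < r 2 → r 2 < v 13 → False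
  n2_17 : v 2 < l 17 → l 17 < r 2 → r 2 < v 17 → False
  n3_1 : v 3 < l 1 → l 1 < r 3 → r 3 < v 1 → False
  n4_2 : v 4 < l 2 → l 2 < r 4 → r 4 < v 2 → False
  n4_16 : v 4 < l 16 → l 16 < r 4 → r 4 < v 16 → False
  n4_17 : v 4 < l 17 → l 17 < r 4 → r 4 < v 17 → False
  n5_6 : v 5 < l 6 → l 6 < r 5 → r 5 < v 6 → False
  n5_13 : v 5 < l 13 → l 13 < r 5 → r 5 < v 13 → False
  n5_15 : v 5 < l 15 → l 15 < r 5 → r 5 < v 15 → False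
  n5_16 : v 5 < l 16 → l 16 < r 5 → r 5 < v 16 → False
  n6_3 : v 6 < l 3 → l 3 < r 6 → r 6 < v 3 → False
  n6_16 : v 6 < l 16 → l 16 < r 6 → r 6 < v 16 → False
  n7_1 : v 7 < l 1 → l 1 < r 7 → r 7 < v 1 → False
  n7_15 : v 7 < l 15 → l 15 < r 7 → r 7 < v 15 → False
  n8_1 : v 8 < l 1 → l 1 < r 8 → r 8 < v 1 → False
  n8_6 : v 8 < l 6 → l 6 < r 8 → r 8 < v 6 → False
  n8_7 : v 8 < l 7 → l 7 < r 8 → r 8 < v 7 → False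
  n8_16 : v 8 < l 16 → l 16 < r 8 → r 8 < v 16 → False
  n8_17 : v 8 < l 17 → l 17 < r 8 → r 8 < v 17 → False
  n9_8 : v 9 < l 8 → l 8 < r 9 → r 9 < v 8 → False
  n9_17 : v 9 < l 17 → l 17 < r 9 → r 9 < v 17 → False
  n10_1 : v 10 < l 1 → l 1 < r 10 → r 10 < v 1 → False
  n10_8 : v 10 < l 8 → l 8 < r 10 → r 10 < v 8 → False
  n10_11 : v 10 < l 11 → l 11 < r 10 → r 10 < v 11 → False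
  n10_17 : v 10 < l 17 → l 17 < r 10 → r 10 < v 17 → False
  n11_5 : v 11 < l 5 → l 5 < r 11 → r 11 < v 5 → False
  n11_10 : v 11 < l 10 → l 10 < r 11 → r 11 < v 10 → False
  n11_13 : v 11 < l 13 → l 13 < r 11 → r 11 < v 13 → False
  n12_0 : v 12 < l 0 → l 0 < r 12 → r 12 < v 0 → False
  n12_2 : v 12 < l 2 → l 2 < r 12 → r 12 < v 2 → False
  n12_8 : v 12 < l 8 → l 8 < r 12 → r 12 < v 8 → False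
  n12_9 : v 12 < l 9 → l 9 < r 12 → r 12 < v 9 → False
  n12_15 : v 12 < l 15 → l 15 < r 12 → r 12 < v 15 → False
  n13_2 : v 13 < l 2 → l 2 < r 13 → r 13 < v 2 → False
  n13_8 : v 13 < l 8 → l 8 < r 13 → r 13 < v 8 → False
  n13_11 : v 13 < l 11 → l 11 < r 13 → r 13 < v 11 → False
  n14_4 : v 14 < l 4 → l 4 < r 14 → r 14 < v 4 → False
  n14_13 : v 14 < l 13 → l 13 < r 14 → r 14 < v 13 → False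
  n15_11 : v 15 < l 11 → l 11 < r 15 → r 15 < v 11 → False
  n15_12 : v 15 < l 12 → l 12 < r 15 → r 15 < v 12 → False
  n16_4 : v 16 < l 4 → l 4 < r 16 → r 16 < v 4 → False
  n16_5 : v 16 < l 5 → l 5 < r 16 → r 16 < v 5 → False
  n16_6 : v 16 < l 6 → l 6 < r 16 → r 16 < v 6 → False
  n17_0 : v 17 < l 0 → l 0 < r 17 → r 17 < v 0 → False
  n17_2 : v 17 < l 2 → l 2 < r 17 → r 17 < v 2 → False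
  n17_4 : v 17 < l 4 → l 4 < r 17 → r 17 < v 4 → False
  n17_9 : v 17 < l 9 → l 9 < r 17 → r 17 < v 9 → False
  n17_10 : v 17 < l 10 → l 10 < r 17 → r 17 < v 10 → False
  e0 : S0 l v r ∨ (v 7 < l 0 ∧ l 0 < r 7 ∧ r 7 < v 0)
  e1 : S1 l v r ∨ (v 8 < l 0 ∧ l 0 < r 8 ∧ r 8 < v 0)
  e2 : S2 l v r ∨ (v 9 < l 0 ∧ l 0 < r 9 ∧ r 9 < v 0)
  e3 : S3 l v r ∨ (v 11 < l 0 ∧ l 0 < r 11 ∧ r 11 < v 0)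
  e4 : S4 l v r ∨ (v 15 < l 0 ∧ l 0 < r 15 ∧ r 15 < v 0)
  e5 : S5 l v r ∨ (v 2 < l 1 ∧ l 1 < r 2 ∧ r 2 < v 1)
  e6 : S6 l v r ∨ (v 4 < l 1 ∧ l 1 < r 4 ∧ r 4 < v 1)
  e7 : S7 l v r ∨ (v 6 < l 1 ∧ l 1 < r 6 ∧ r 6 < v 1)
  e8 : S8 l v r ∨ (v 9 < l 1 ∧ l 1 < r 9 ∧ r 9 < v 1)
  e9 : S9 l v r ∨ (v 11 < l 1 ∧ l 1 < r 11 ∧ r 11 < v 1)
  e10 : S10 l v r ∨ (v 12 < l 1 ∧ l 1 < r 12 ∧ r 12 < v 1)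
  e11 : S11 l v r ∨ (v 8 < l 2 ∧ l 2 < r 8 ∧ r 8 < v 2)
  e12 : S12 l v r ∨ (v 15 < l 2 ∧ l 2 < r 15 ∧ r 15 < v 2)
  e13 : S13 l v r ∨ (v 16 < l 2 ∧ l 2 < r 16 ∧ r 16 < v 2)
  e14 : S14 l v r ∨ (v 5 < l 3 ∧ l 3 < r 5 ∧ r 5 < v 3)
  e15 : S15 l v r ∨ (v 8 < l 3 ∧ l 3 < r 8 ∧ r 8 < v 3)
  e16 : S16 l v r ∨ (v 10 < l 3 ∧ l 3 < r 10 ∧ r 10 < v 3)
  e17 : S17 l v r ∨ (v 12 < l 3 ∧ l 3 < r 12 ∧ r 12 < v 3)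
  e18 : S18 l v r ∨ (v 14 < l 3 ∧ l 3 < r 14 ∧ r 14 < v 3)
  e19 : S19 l v r ∨ (v 5 < l 4 ∧ l 4 < r 5 ∧ r 5 < v 4)
  e20 : S20 l v r ∨ (v 8 < l 4 ∧ l 4 < r 8 ∧ r 8 < v 4)
  e21 : S21 l v r ∨ (v 13 < l 4 ∧ l 4 < r 13 ∧ r 13 < v 4)
  e22 : S22 l v r ∨ (v 15 < l 4 ∧ l 4 < r 15 ∧ r 15 < v 4)
  e23 : S23 l v r ∨ (v 7 < l 5 ∧ l 5 < r 7 ∧ r 7 < v 5)
  e24 : S24 l v r ∨ (v 9 < l 5 ∧ l 5 < r 9 ∧ r 9 < v 5)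
  e25 : S25 l v r ∨ (v 17 < l 5 ∧ l 5 < r 17 ∧ r 17 < v 5)
  e26 : S26 l v r ∨ (v 13 < l 6 ∧ l 6 < r 13 ∧ r 13 < v 6)
  e27 : S27 l v r ∨ (v 15 < l 6 ∧ l 6 < r 15 ∧ r 15 < v 6)
  e28 : S28 l v r ∨ (v 17 < l 6 ∧ l 6 < r 17 ∧ r 17 < v 6)
  e29 : S29 l v r ∨ (v 13 < l 7 ∧ l 7 < r 13 ∧ r 13 < v 7)
  e30 : S30 l v r ∨ (v 14 < l 7 ∧ l 7 < r 14 ∧ r 14 < v 7)
  e31 : S31 l v r ∨ (v 10 < l 9 ∧ l 9 < r 10 ∧ r 10 < v 9)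
  e32 : S32 l v r ∨ (v 14 < l 9 ∧ l 9 < r 14 ∧ r 14 < v 9)
  e33 : S33 l v r ∨ (v 13 < l 10 ∧ l 10 < r 13 ∧ r 13 < v 10)
  e34 : S34 l v r ∨ (v 15 < l 10 ∧ l 10 < r 15 ∧ r 15 < v 10)
  e35 : S35 l v r ∨ (v 16 < l 10 ∧ l 10 < r 16 ∧ r 16 < v 10)
  e36 : S36 l v r ∨ (v 16 < l 11 ∧ l 11 < r 16 ∧ r 16 < v 11)
  e37 : S37 l v r ∨ (v 17 < l 11 ∧ l 11 < r 17 ∧ r 17 < v 11)
  e39 : S39 l v r ∨ (v 16 < l 12 ∧ l 12 < r 16 ∧ r 16 < v 12)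
  e40 : S40 l v r ∨ (v 17 < l 12 ∧ l 12 < r 17 ∧ r 17 < v 12)
  e41 : S41 l v r ∨ (v 15 < l 14 ∧ l 14 < r 15 ∧ r 15 < v 14)
  e42 : S42 l v r ∨ (v 16 < l 14 ∧ l 14 < r 16 ∧ r 16 < v 14)
  e43 : S43 l v r ∨ (v 17 < l 14 ∧ l 14 < r 17 ∧ r 17 < v 14)

end Pool.Agent.R38.VetoProof
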