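import Pool.Agent.R38.VetoP0

set_option autoImplicit false

namespace Pool.Agent.R38.VetoProof

theorem L0 {l v r : ℕ → ℝ} (h : H l v r) (a0 : v 11 < l 0) (a1 : v 0 ≤ v 11) : False :=
  have c0 : l 0 < v 0 := h.u0_0
  not_lt.mpr a1 (lt_trans a0 c0)

theorem L1 {l v r : ℕ → ℝ} (h : H l v r) (a0 : v 12 < l 17) (a1 : l 17 ≤ l 12) : False :=
  have c0 : l 12 < v 12 := h.u12_0
  not_lt.mpr a1 (lt_trans c0 a0)

theorem L2 {l v r : ℕ → ℝ} (h : H l v r) (a0 : v 4 < l 5) (a1 : l 5 ≤ l 4) : False :=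
  have c0 : l 4 < v 4 := h.u4_0
  not_lt.mpr a1 (lt_trans c0 a0)

theorem L3 {l v r : ℕ → ℝ} (h : H l v r) (a0 : v 4 < l 4) : False :=
  have c0 : l 4 < v 4 := h.u4_0
  lt_asymm c0 a0

theorem L4 {l v r : ℕ → ℝ} (h : H l v r) (a0 : v 4 < r 4) (a1 : r 4 ≤ l 4) : False :=
  have c0 : l 4 < v 4 := h.u4_0
  not_lt.mpr a1 (lt_trans c0 a0)

theorem L5 {l v r : ℕ → ℝ} (h : H l v r) (a0 : v 13 < l 4) (a1 : v 4 ≤ v 13) : False :=
  have c0 : l 4 ≤ v 4 := not_lt.mp fun z => L3 h z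
  not_lt.mpr (le_trans c0 a1) a0

theorem L6 {l v r : ℕ → ℝ} (h : H l v r) (a0 : r 9 < v 10) (a1 : r 10 ≤ r 9) : False :=
  have c0 : v 10 < r 10 := h.u10_1
  not_lt.mpr a1 (lt_trans a0 c0)

theorem L7 {l v r : ℕ → ℝ} (h : H l v r) (a0 : v 11 < r 11) (a1 : r 11 ≤ l 11) : False :=
  have c0 : l 11 < v 11 := h.u11_0
  not_lt.mpr a1 (lt_trans c0 a0)

theorem L8 {l v r : ℕ → ℝ} (h : H l v r) (a0 : v 12 < l 13) (a1 : l 13 ≤ l 12) : False :=
  have c0 : l 12 < v 12 := h.u12_0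
  not_lt.mpr a1 (lt_trans c0 a0)

theorem L9 {l v r : ℕ → ℝ} (h : H l v r) (a0 : v 11 < r 1) (a1 : r 1 ≤ l 11) : False :=
  have c0 : l 11 < v 11 := h.u11_0
  not_lt.mpr a1 (lt_trans c0 a0)

theorem L10 {l v r : ℕ → ℝ} (h : H l v r) (a0 : v 0 < r 10) (a1 : r 10 ≤ l 0) : False :=
  have c0 : l 0 < v 0 := h.u0_0
  not_lt.mpr a1 (lt_trans c0 a0)

theorem L11 {l v r : ℕ → ℝ} (h : H l v r) (a0 : v 4 < l 5) (a1 : l 5 < l 4) : False :=
  have c0 : l 4 ≤ v 4 := not_lt.mp fun z => L3 h z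
  not_lt.mpr c0 (lt_trans a0 a1)

theorem L12 {l v r : ℕ → ℝ} (h : H l v r) (a0 : v 4 < l 8) (a1 : l 8 ≤ l 4) : False :=
  have c0 : l 4 ≤ v 4 := not_lt.mp fun z => L3 h z
  not_lt.mpr (le_trans a1 c0) a0

theorem L13 {l v r : ℕ → ℝ} (h : H l v r) (a0 : r 4 < v 4) : False :=
  have c0 : v 4 < r 4 := h.u4_1
  lt_asymm c0 a0

theorem L14 {l v r : ℕ → ℝ} (h : H l v r) (a0 : r 4 ≤ l 4) : False :=
  have c0 : v 4 < r 4 := h.u4_1
  L4 h c0 a0

theorem L15 {l v r : ℕ → ℝ} (h : H l v r) (a0 : r 4 < l 4) : False :=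
  have c0 : v 4 ≤ r 4 := not_lt.mp fun z => L13 h z
  have c1 : l 4 ≤ v 4 := not_lt.mp fun z => L3 h z
  not_lt.mpr (le_trans c1 c0) a0

theorem L16 {l v r : ℕ → ℝ} (h : H l v r) (a0 : r 0 < v 11) (a1 : v 11 ≤ v 0) : False :=
  have c0 : v 0 < r 0 := h.u0_1
  not_lt.mpr a1 (lt_trans c0 a0)

theorem L17 {l v r : ℕ → ℝ} (h : H l v r) (a0 : r 4 < l 7) (a1 : l 7 ≤ v 4) : False :=
  have c0 : v 4 < r 4 := h.u4_1
  not_lt.mpr a1 (lt_trans c0 a0)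

theorem L18 {l v r : ℕ → ℝ} (h : H l v r) (a0 : r 11 ≤ l 11) : False :=
  have c0 : v 11 < r 11 := h.u11_1
  L7 h c0 a0

theorem L19 {l v r : ℕ → ℝ} (h : H l v r) (a0 : r 4 < l 0) (a1 : l 0 ≤ v 4) : False :=
  have c0 : v 4 ≤ r 4 := not_lt.mp fun z => L13 h z
  not_lt.mpr (le_trans a1 c0) a0

theorem L20 {l v r : ℕ → ℝ} (h : H l v r) (a0 : v 0 < l 8) (a1 : l 8 ≤ l 0) : False :=
  have c0 : l 0 < v 0 := h.u0_0
  not_lt.mpr a1 (lt_trans c0 a0)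

theorem L21 {l v r : ℕ → ℝ} (h : H l v r) (a0 : v 4 < l 13) (a1 : l 13 < l 4) : False :=
  have c0 : l 4 ≤ v 4 := not_lt.mp fun z => L3 h z
  not_lt.mpr c0 (lt_trans a0 a1)

theorem L22 {l v r : ℕ → ℝ} (h : H l v r) (a0 : r 4 < r 13) (a1 : r 13 < v 4) : False :=
  have c0 : v 4 ≤ r 4 := not_lt.mp fun z => L13 h z
  not_lt.mpr c0 (lt_trans a0 a1)

theorem L23 {l v r : ℕ → ℝ} (h : H l v r) (a0 : v 4 < l 8) (a1 : l 8 < l 4) : False :=
  have c0 : l 4 ≤ v 4 := not_lt.mp fun z => L3 h z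
  not_lt.mpr c0 (lt_trans a0 a1)

theorem L24 {l v r : ℕ → ℝ} (h : H l v r) (a0 : r 8 < l 5) (a1 : l 5 ≤ v 8) : False :=
  have c0 : v 8 < r 8 := h.u8_1
  not_lt.mpr a1 (lt_trans c0 a0)

theorem L25 {l v r : ℕ → ℝ} (h : H l v r) (a0 : r 0 ≤ l 0) : False :=
  have c0 : l 0 < v 0 := h.u0_0
  have c1 : v 0 < r 0 := h.u0_1
  not_lt.mpr a0 (lt_trans c0 c1)

theorem L26 {l v r : ℕ → ℝ} (h : H l v r) (a0 : r 0 < l 0) : False :=
  have c0 : l 0 < r 0 := not_le.mp fun z => L25 h z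
  lt_asymm c0 a0

theorem L27 {l v r : ℕ → ℝ} (h : H l v r) (a0 : v 4 < l 15) (a1 : l 15 ≤ l 4) : False :=
  have c0 : l 4 ≤ v 4 := not_lt.mp fun z => L3 h z
  not_lt.mpr (le_trans a1 c0) a0

theorem L28 {l v r : ℕ → ℝ} (h : H l v r) (a0 : r 11 < r 17) (a1 : r 17 ≤ l 11) : False :=
  have c0 : l 11 < r 11 := not_le.mp fun z => L18 h z
  not_lt.mpr a1 (lt_trans c0 a0)

theorem L29 {l v r : ℕ → ℝ} (h : H l v r) (a0 : r 10 < l 4) (a1 : v 4 ≤ r 10) : False :=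
  have c0 : l 4 < v 4 := h.u4_0
  not_lt.mpr a1 (lt_trans a0 c0)

theorem L30 {l v r : ℕ → ℝ} (h : H l v r) (a0 : r 1 < v 1) : False :=
  have c0 : v 1 < r 1 := h.u1_1
  lt_asymm c0 a0

theorem L31 {l v r : ℕ → ℝ} (h : H l v r) (a0 : r 10 < v 10) : False :=
  have c0 : v 10 < r 10 := h.u10_1
  lt_asymm c0 a0

theorem L32 {l v r : ℕ → ℝ} (h : H l v r) (a0 : r 1 < r 9) (a1 : r 9 < v 1) : False :=
  have c0 : v 1 ≤ r 1 := not_lt.mp fun z => L30 h z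
  not_lt.mpr c0 (lt_trans a0 a1)

theorem L33 {l v r : ℕ → ℝ} (h : H l v r) (a0 : r 17 ≤ l 12) (a1 : v 12 ≤ r 17) : False :=
  have c0 : l 12 < v 12 := h.u12_0
  not_lt.mpr (le_trans a1 a0) c0

theorem L34 {l v r : ℕ → ℝ} (h : H l v r) (a0 : v 13 < l 12) (a1 : v 12 ≤ v 13) : False :=
  have c0 : l 12 < v 12 := h.u12_0
  not_lt.mpr a1 (lt_trans a0 c0)

theorem L35 {l v r : ℕ → ℝ} (h : H l v r) (a0 : r 0 < v 8) (a1 : v 8 < l 0) : False :=
  have c0 : l 0 ≤ r 0 := not_lt.mp fun z => L26 h z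
  not_lt.mpr c0 (lt_trans a0 a1)

theorem L36 {l v r : ℕ → ℝ} (h : H l v r) (a0 : r 5 < v 5) : False :=
  have c0 : v 5 < r 5 := h.u5_1
  lt_asymm c0 a0

theorem L37 {l v r : ℕ → ℝ} (h : H l v r) (a0 : r 4 < v 1) (a1 : v 1 < l 4) : False :=
  have c0 : l 4 ≤ r 4 := not_lt.mp fun z => L15 h z
  not_lt.mpr c0 (lt_trans a0 a1)

theorem L38 {l v r : ℕ → ℝ} (h : H l v r) (a0 : r 1 < v 11) (a1 : v 11 ≤ v 1) : False :=
  have c0 : v 1 < r 1 := h.u1_1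
  not_lt.mpr a1 (lt_trans c0 a0)

theorem L39 {l v r : ℕ → ℝ} (h : H l v r) (a0 : v 11 < l 11) : False :=
  have c0 : l 11 < v 11 := h.u11_0
  lt_asymm c0 a0

theorem L40 {l v r : ℕ → ℝ} (h : H l v r) (a0 : r 8 < v 8) : False :=
  have c0 : v 8 < r 8 := h.u8_1
  lt_asymm c0 a0

theorem L41 {l v r : ℕ → ℝ} (h : H l v r) (a0 : r 5 < l 5) (a1 : l 5 < v 5) : False :=
  have c0 : v 5 ≤ r 5 := not_lt.mp fun z => L36 h z
  not_lt.mpr c0 (lt_trans a0 a1)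

theorem L42 {l v r : ℕ → ℝ} (h : H l v r) (a0 : r 6 < v 6) : False :=
  have c0 : v 6 < r 6 := h.u6_1
  lt_asymm c0 a0

theorem L43 {l v r : ℕ → ℝ} (h : H l v r) (a0 : r 0 < v 9) (a1 : v 9 < l 0) : False :=
  have c0 : l 0 ≤ r 0 := not_lt.mp fun z => L26 h z
  not_lt.mpr c0 (lt_trans a0 a1)

theorem L44 {l v r : ℕ → ℝ} (h : H l v r) (a0 : l 10 < v 10) (a1 : r 10 ≤ l 10) : False :=
  have c0 : v 10 < r 10 := h.u10_1
  not_lt.mpr a1 (lt_trans a0 c0)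

theorem L45 {l v r : ℕ → ℝ} (h : H l v r) (a0 : v 9 < l 9) : False :=
  have c0 : l 9 < v 9 := h.u9_0
  lt_asymm c0 a0

theorem L46 {l v r : ℕ → ℝ} (h : H l v r) (a0 : r 13 ≤ v 0) (a1 : r 0 ≤ r 13) : False :=
  have c0 : v 0 < r 0 := h.u0_1
  not_lt.mpr (le_trans a1 a0) c0

theorem L47 {l v r : ℕ → ℝ} (h : H l v r) (a0 : r 10 < v 9) (a1 : v 9 ≤ v 10) : False :=
  have c0 : v 10 ≤ r 10 := not_lt.mp fun z => L31 h z
  not_lt.mpr (le_trans a1 c0) a0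

theorem L48 {l v r : ℕ → ℝ} (h : H l v r) (a0 : r 9 < v 9) : False :=
  have c0 : v 9 < r 9 := h.u9_1
  lt_asymm c0 a0

theorem L49 {l v r : ℕ → ℝ} (h : H l v r) (a0 : v 11 < l 1) (a1 : l 1 ≤ l 11) : False :=
  have c0 : l 11 ≤ v 11 := not_lt.mp fun z => L39 h z
  not_lt.mpr (le_trans a1 c0) a0

theorem L50 {l v r : ℕ → ℝ} (h : H l v r) (a0 : v 10 < l 10) : False :=
  have c0 : l 10 < v 10 := h.u10_0
  lt_asymm c0 a0

theorem L51 {l v r : ℕ → ℝ} (h : H l v r) (a0 : r 10 ≤ l 10) : False :=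
  have c0 : l 10 < v 10 := h.u10_0
  L44 h c0 a0

theorem L52 {l v r : ℕ → ℝ} (h : H l v r) (a0 : r 10 < l 10) : False :=
  have c0 : l 10 ≤ v 10 := not_lt.mp fun z => L50 h z
  have c1 : v 10 ≤ r 10 := not_lt.mp fun z => L31 h z
  not_lt.mpr (le_trans c0 c1) a0

theorem L53 {l v r : ℕ → ℝ} (h : H l v r) (a0 : v 11 < l 1) (a1 : l 1 < l 11) : False :=
  have c0 : l 11 ≤ v 11 := not_lt.mp fun z => L39 h z
  not_lt.mpr c0 (lt_trans a0 a1)

theorem L54 {l v r : ℕ → ℝ} (h : H l v r) (a0 : v 10 < l 9) (a1 : l 9 < l 10) : False :=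
  have c0 : l 10 ≤ v 10 := not_lt.mp fun z => L50 h z
  not_lt.mpr c0 (lt_trans a0 a1)

theorem L55 {l v r : ℕ → ℝ} (h : H l v r) (a0 : r 1 < v 4) (a1 : r 4 ≤ r 1) : False :=
  have c0 : v 4 < r 4 := h.u4_1
  not_lt.mpr a1 (lt_trans a0 c0)

theorem L56 {l v r : ℕ → ℝ} (h : H l v r) (a0 : l 0 ≤ v 8) (a1 : r 8 ≤ l 0) : False :=
  have c0 : v 8 < r 8 := h.u8_1
  not_lt.mpr (le_trans a1 a0) c0

theorem L57 {l v r : ℕ → ℝ} (h : H l v r) (a0 : v 1 < l 4) (a1 : v 4 ≤ v 1) : False :=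
  have c0 : l 4 ≤ v 4 := not_lt.mp fun z => L3 h z
  not_lt.mpr (le_trans c0 a1) a0

theorem L58 {l v r : ℕ → ℝ} (h : H l v r) (a0 : v 15 < l 15) : False :=
  have c0 : l 15 < v 15 := h.u15_0
  lt_asymm c0 a0

theorem L59 {l v r : ℕ → ℝ} (h : H l v r) (a0 : v 4 < v 1) (a1 : v 1 ≤ l 4) : False :=
  have c0 : l 4 < v 4 := h.u4_0
  not_lt.mpr a1 (lt_trans c0 a0)

theorem L60 {l v r : ℕ → ℝ} (h : H l v r) (a0 : r 6 < l 6) (a1 : l 6 < v 6) : False :=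
  have c0 : v 6 ≤ r 6 := not_lt.mp fun z => L42 h z
  not_lt.mpr c0 (lt_trans a0 a1)

theorem L61 {l v r : ℕ → ℝ} (h : H l v r) (a0 : r 4 < l 0) (a1 : l 0 < v 4) : False :=
  have c0 : v 4 ≤ r 4 := not_lt.mp fun z => L13 h z
  not_lt.mpr c0 (lt_trans a0 a1)

theorem L62 {l v r : ℕ → ℝ} (h : H l v r) (a0 : r 1 < l 1) (a1 : l 1 < v 1) : False :=
  have c0 : v 1 ≤ r 1 := not_lt.mp fun z => L30 h z
  not_lt.mpr c0 (lt_trans a0 a1)

theorem L63 {l v r : ℕ → ℝ} (h : H l v r) (a0 : r 7 < v 7) : False :=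
  have c0 : v 7 < r 7 := h.u7_1
  lt_asymm c0 a0

theorem L64 {l v r : ℕ → ℝ} (h : H l v r) (a0 : v 0 < l 0) : False :=
  have c0 : l 0 < v 0 := h.u0_0
  lt_asymm c0 a0

theorem L65 {l v r : ℕ → ℝ} (h : H l v r) (a0 : r 10 < v 9) (a1 : v 9 ≤ l 10) : False :=
  have c0 : l 10 ≤ r 10 := not_lt.mp fun z => L52 h z
  not_lt.mpr (le_trans a1 c0) a0

theorem L66 {l v r : ℕ → ℝ} (h : H l v r) (a0 : v 0 < r 10) (a1 : r 10 < l 0) : False :=
  have c0 : l 0 ≤ v 0 := not_lt.mp fun z => L64 h z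
  not_lt.mpr c0 (lt_trans a0 a1)

theorem L67 {l v r : ℕ → ℝ} (h : H l v r) (a0 : r 11 < l 11) : False :=
  have c0 : l 11 < r 11 := not_le.mp fun z => L18 h z
  lt_asymm c0 a0

theorem L68 {l v r : ℕ → ℝ} (h : H l v r) (a0 : r 10 < v 16) (a1 : v 16 < l 10) : False :=
  have c0 : l 10 ≤ r 10 := not_lt.mp fun z => L52 h z
  not_lt.mpr c0 (lt_trans a0 a1)

theorem L69 {l v r : ℕ → ℝ} (h : H l v r) (a0 : l 4 < v 0) (a1 : r 0 ≤ l 4) : False :=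
  have c0 : v 0 < r 0 := h.u0_1
  not_lt.mpr a1 (lt_trans a0 c0)

theorem L70 {l v r : ℕ → ℝ} (h : H l v r) (a0 : v 13 < l 13) : False :=
  have c0 : l 13 < v 13 := h.u13_0
  lt_asymm c0 a0

theorem L71 {l v r : ℕ → ℝ} (h : H l v r) (a0 : r 1 < v 4) (a1 : v 4 < v 1) : False :=
  have c0 : v 1 ≤ r 1 := not_lt.mp fun z => L30 h z
  not_lt.mpr c0 (lt_trans a0 a1)

theorem L72 {l v r : ℕ → ℝ} (h : H l v r) (a0 : v 15 < r 15) (a1 : r 15 < l 15) : False :=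
  have c0 : l 15 ≤ v 15 := not_lt.mp fun z => L58 h z
  not_lt.mpr c0 (lt_trans a0 a1)

theorem L73 {l v r : ℕ → ℝ} (h : H l v r) (a0 : v 15 < l 4) (a1 : l 4 ≤ l 15) : False :=
  have c0 : l 15 ≤ v 15 := not_lt.mp fun z => L58 h z
  not_lt.mpr (le_trans a1 c0) a0

theorem L74 {l v r : ℕ → ℝ} (h : H l v r) (a0 : l 8 < v 10) (a1 : r 10 ≤ l 8) : False :=
  have c0 : v 10 < r 10 := h.u10_1
  not_lt.mpr a1 (lt_trans a0 c0)

theorem L75 {l v r : ℕ → ℝ} (h : H l v r) (a0 : v 4 < l 15) (a1 : l 15 < l 4) : False :=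
  have c0 : l 4 ≤ v 4 := not_lt.mp fun z => L3 h z
  not_lt.mpr c0 (lt_trans a0 a1)

theorem L76 {l v r : ℕ → ℝ} (h : H l v r) (a0 : v 4 < v 1) (a1 : v 1 < l 4) : False :=
  have c0 : l 4 ≤ v 4 := not_lt.mp fun z => L3 h z
  not_lt.mpr c0 (lt_trans a0 a1)

theorem L77 {l v r : ℕ → ℝ} (h : H l v r) (a0 : r 5 < v 17) (a1 : v 17 < v 5) : False :=
  have c0 : v 5 ≤ r 5 := not_lt.mp fun z => L36 h z
  not_lt.mpr c0 (lt_trans a0 a1)

theorem L78 {l v r : ℕ → ℝ} (h : H l v r) (a0 : r 9 < r 5) (a1 : r 5 < v 9) : False :=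
  have c0 : v 9 ≤ r 9 := not_lt.mp fun z => L48 h z
  not_lt.mpr c0 (lt_trans a0 a1)

theorem L79 {l v r : ℕ → ℝ} (h : H l v r) (a0 : r 6 < r 1) (a1 : r 1 < v 6) : False :=
  have c0 : v 6 ≤ r 6 := not_lt.mp fun z => L42 h z
  not_lt.mpr c0 (lt_trans a0 a1)

theorem L80 {l v r : ℕ → ℝ} (h : H l v r) (a0 : r 5 < v 4) (a1 : r 4 ≤ r 5) : False :=
  have c0 : v 4 < r 4 := h.u4_1
  not_lt.mpr a1 (lt_trans a0 c0)

theorem L81 {l v r : ℕ → ℝ} (h : H l v r) (a0 : v 13 ≤ r 12) : False :=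
  have c0 : S38 l v r := h.w
  not_lt.mpr a0 c0.2.2

theorem L82 {l v r : ℕ → ℝ} (h : H l v r) (a0 : l 13 ≤ v 12) : False :=
  have c0 : S38 l v r := h.w
  not_lt.mpr a0 c0.1

theorem L83 {l v r : ℕ → ℝ} (h : H l v r) (a0 : r 12 ≤ l 13) : False :=
  have c0 : S38 l v r := h.w
  not_lt.mpr a0 c0.2.1

theorem L84 {l v r : ℕ → ℝ} (h : H l v r) (a0 : v 13 < v 12) : False :=
  have c0 : v 12 < l 13 := not_le.mp fun z => L82 h z
  have c1 : l 13 ≤ v 13 := not_lt.mp fun z => L70 h z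
  not_lt.mpr c1 (lt_trans a0 c0)

theorem L85 {l v r : ℕ → ℝ} (h : H l v r) (a0 : l 13 ≤ l 12) : False :=
  have c0 : v 12 < l 13 := not_le.mp fun z => L82 h z
  L8 h c0 a0

theorem L86 {l v r : ℕ → ℝ} (h : H l v r) (a0 : v 13 ≤ v 12) : False :=
  have c0 : v 12 < l 13 := not_le.mp fun z => L82 h z
  have c1 : l 13 ≤ v 13 := not_lt.mp fun z => L70 h z
  not_lt.mpr (le_trans c1 a0) c0

theorem L87 {l v r : ℕ → ℝ} (h : H l v r) (a0 : r 12 ≤ v 12) : False :=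
  have c0 : l 13 < r 12 := not_le.mp fun z => L83 h z
  have c1 : v 12 < l 13 := not_le.mp fun z => L82 h z
  not_lt.mpr a0 (lt_trans c1 c0)

theorem L88 {l v r : ℕ → ℝ} (h : H l v r) (a0 : r 12 < l 13) : False :=
  have c0 : l 13 < r 12 := not_le.mp fun z => L83 h z
  lt_asymm a0 c0

theorem L89 {l v r : ℕ → ℝ} (h : H l v r) (a0 : v 13 < l 12) : False :=
  have c0 : v 12 ≤ v 13 := not_lt.mp fun z => L84 h z
  L34 h a0 c0

theorem L90 {l v r : ℕ → ℝ} (h : H l v r) (a0 : l 13 < l 12) : False :=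
  have c0 : l 12 < l 13 := not_le.mp fun z => L85 h z
  lt_asymm c0 a0

theorem L91 {l v r : ℕ → ℝ} (h : H l v r) (a0 : r 12 < l 12) : False :=
  have c0 : l 12 < l 13 := not_le.mp fun z => L85 h z
  have c1 : l 13 ≤ r 12 := not_lt.mp fun z => L88 h z
  not_lt.mpr c1 (lt_trans a0 c0)

theorem L92 {l v r : ℕ → ℝ} (h : H l v r) (a0 : r 12 ≤ l 12) : False :=
  have c0 : l 12 < l 13 := not_le.mp fun z => L85 h z
  have c1 : l 13 < r 12 := not_le.mp fun z => L83 h z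
  not_lt.mpr a0 (lt_trans c0 c1)

theorem L93 {l v r : ℕ → ℝ} (h : H l v r) (a0 : r 12 < v 12) : False :=
  have c0 : l 13 ≤ r 12 := not_lt.mp fun z => L88 h z
  have c1 : v 12 < l 13 := not_le.mp fun z => L82 h z
  not_lt.mpr c0 (lt_trans a0 c1)

theorem L94 {l v r : ℕ → ℝ} (h : H l v r) (a0 : r 7 < l 7) : False :=
  have c0 : l 7 < v 7 := h.u7_0
  have c1 : v 7 ≤ r 7 := not_lt.mp fun z => L63 h z
  not_lt.mpr c1 (lt_trans a0 c0)

theorem L95 {l v r : ℕ → ℝ} (h : H l v r) (a0 : v 7 < l 7) : False :=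
  have c0 : l 7 < v 7 := h.u7_0
  lt_asymm c0 a0

theorem L96 {l v r : ℕ → ℝ} (h : H l v r) (a0 : r 9 < l 9) : False :=
  have c0 : v 9 ≤ r 9 := not_lt.mp fun z => L48 h z
  have c1 : l 9 ≤ v 9 := not_lt.mp fun z => L45 h z
  not_lt.mpr (le_trans c1 c0) a0

theorem L97 {l v r : ℕ → ℝ} (h : H l v r) (a0 : r 8 < l 8) (a1 : l 8 < v 8) : False :=
  have c0 : v 8 ≤ r 8 := not_lt.mp fun z => L40 h z
  not_lt.mpr c0 (lt_trans a0 a1)

theorem L98 {l v r : ℕ → ℝ} (h : H l v r) (a0 : v 6 < l 6) : False :=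
  have c0 : l 6 < v 6 := h.u6_0
  lt_asymm c0 a0

theorem L99 {l v r : ℕ → ℝ} (h : H l v r) (a0 : r 6 < l 6) : False :=
  have c0 : l 6 < v 6 := h.u6_0
  L60 h a0 c0

theorem L100 {l v r : ℕ → ℝ} (h : H l v r) (a0 : r 12 < r 17) (a1 : r 17 < v 12) : False :=
  have c0 : v 12 ≤ r 12 := not_lt.mp fun z => L93 h z
  not_lt.mpr c0 (lt_trans a0 a1)

theorem L101 {l v r : ℕ → ℝ} (h : H l v r) (a0 : r 10 < l 8) (a1 : l 8 ≤ v 10) : False :=
  have c0 : v 10 < r 10 := h.u10_1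
  not_lt.mpr a1 (lt_trans c0 a0)

theorem L102 {l v r : ℕ → ℝ} (h : H l v r) (a0 : r 8 < v 4) (a1 : v 4 < v 8) : False :=
  have c0 : v 8 ≤ r 8 := not_lt.mp fun z => L40 h z
  not_lt.mpr c0 (lt_trans a0 a1)

theorem L103 {l v r : ℕ → ℝ} (h : H l v r) (a0 : r 8 < v 4) (a1 : r 4 ≤ r 8) : False :=
  have c0 : v 4 < r 4 := h.u4_1
  not_lt.mpr a1 (lt_trans a0 c0)

theorem L104 {l v r : ℕ → ℝ} (h : H l v r) (a0 : r 11 < v 11) : False :=
  have c0 : v 11 < r 11 := h.u11_1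
  lt_asymm c0 a0

theorem L105 {l v r : ℕ → ℝ} (h : H l v r) (a0 : r 10 < v 9) (a1 : v 9 < v 10) : False :=
  have c0 : v 10 ≤ r 10 := not_lt.mp fun z => L31 h z
  not_lt.mpr c0 (lt_trans a0 a1)

theorem L106 {l v r : ℕ → ℝ} (h : H l v r) (a0 : r 11 < v 17) (a1 : v 17 < l 11) : False :=
  have c0 : l 11 ≤ r 11 := not_lt.mp fun z => L67 h z
  not_lt.mpr c0 (lt_trans a0 a1)

theorem L107 {l v r : ℕ → ℝ} (h : H l v r) (a0 : r 10 < r 9) (a1 : r 9 < v 10) : False :=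
  have c0 : v 10 ≤ r 10 := not_lt.mp fun z => L31 h z
  not_lt.mpr c0 (lt_trans a0 a1)

theorem L108 {l v r : ℕ → ℝ} (h : H l v r) (a0 : r 0 < l 9) (a1 : l 9 < l 0) : False :=
  have c0 : l 0 ≤ r 0 := not_lt.mp fun z => L26 h z
  not_lt.mpr c0 (lt_trans a0 a1)

theorem L109 {l v r : ℕ → ℝ} (h : H l v r) (a0 : r 8 ≤ l 8) : False :=
  have c0 : l 8 < v 8 := h.u8_0
  have c1 : v 8 ≤ r 8 := not_lt.mp fun z => L40 h z
  not_lt.mpr (le_trans c1 a0) c0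

theorem L110 {l v r : ℕ → ℝ} (h : H l v r) (a0 : v 8 < l 8) : False :=
  have c0 : l 8 < v 8 := h.u8_0
  lt_asymm c0 a0

theorem L111 {l v r : ℕ → ℝ} (h : H l v r) (a0 : r 8 < l 8) : False :=
  have c0 : l 8 < v 8 := h.u8_0
  L97 h a0 c0

theorem L112 {l v r : ℕ → ℝ} (h : H l v r) (a0 : v 16 < l 16) : False :=
  have c0 : l 16 < v 16 := h.u16_0
  lt_asymm c0 a0

theorem L113 {l v r : ℕ → ℝ} (h : H l v r) (a0 : r 16 ≤ l 16) : False :=
  have c0 : l 16 ≤ v 16 := not_lt.mp fun z => L112 h z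
  have c1 : v 16 < r 16 := h.u16_1
  not_lt.mpr (le_trans a0 c0) c1

theorem L114 {l v r : ℕ → ℝ} (h : H l v r) (a0 : r 12 < l 5) (a1 : l 5 < v 12) : False :=
  have c0 : v 12 ≤ r 12 := not_lt.mp fun z => L93 h z
  not_lt.mpr c0 (lt_trans a0 a1)

theorem L115 {l v r : ℕ → ℝ} (h : H l v r) (a0 : r 5 ≤ l 5) : False :=
  have c0 : l 5 < v 5 := h.u5_0
  have c1 : v 5 ≤ r 5 := not_lt.mp fun z => L36 h z
  not_lt.mpr (le_trans c1 a0) c0

theorem L116 {l v r : ℕ → ℝ} (h : H l v r) (a0 : r 5 < l 5) : False :=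
  have c0 : l 5 < v 5 := h.u5_0
  L41 h a0 c0

theorem L117 {l v r : ℕ → ℝ} (h : H l v r) (a0 : l 8 ≤ l 9) (a1 : v 9 ≤ l 8) : False :=
  have c0 : l 9 < v 9 := h.u9_0
  not_lt.mpr (le_trans a1 a0) c0

theorem L118 {l v r : ℕ → ℝ} (h : H l v r) (a0 : r 11 < v 1) (a1 : v 1 < v 11) : False :=
  have c0 : v 11 ≤ r 11 := not_lt.mp fun z => L104 h z
  not_lt.mpr c0 (lt_trans a0 a1)

theorem L119 {l v r : ℕ → ℝ} (h : H l v r) (a0 : v 10 < v 9) (a1 : v 9 < l 10) : False :=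
  have c0 : l 10 ≤ v 10 := not_lt.mp fun z => L50 h z
  not_lt.mpr c0 (lt_trans a0 a1)

theorem L120 {l v r : ℕ → ℝ} (h : H l v r) (a0 : v 0 < v 11) (a1 : v 11 < l 0) : False :=
  have c0 : l 0 ≤ v 0 := not_lt.mp fun z => L64 h z
  not_lt.mpr c0 (lt_trans a0 a1)

theorem L121 {l v r : ℕ → ℝ} (h : H l v r) (a0 : v 4 < r 9) (a1 : r 9 < l 4) : False :=
  have c0 : l 4 ≤ v 4 := not_lt.mp fun z => L3 h z
  not_lt.mpr c0 (lt_trans a0 a1)

theorem L122 {l v r : ℕ → ℝ} (h : H l v r) (a0 : r 2 < v 2) : False :=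
  have c0 : v 2 < r 2 := h.u2_1
  lt_asymm c0 a0

theorem L123 {l v r : ℕ → ℝ} (h : H l v r) (a0 : l 4 < v 1) (a1 : r 1 ≤ l 4) : False :=
  have c0 : v 1 ≤ r 1 := not_lt.mp fun z => L30 h z
  not_lt.mpr (le_trans c0 a1) a0

theorem L124 {l v r : ℕ → ℝ} (h : H l v r) (a0 : l 5 ≤ v 9) (a1 : r 9 ≤ l 5) : False :=
  have c0 : v 9 < r 9 := h.u9_1
  not_lt.mpr (le_trans a1 a0) c0

theorem L125 {l v r : ℕ → ℝ} (h : H l v r) (a0 : v 12 < l 12) : False :=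
  have c0 : l 12 < v 12 := h.u12_0
  lt_asymm c0 a0

theorem L126 {l v r : ℕ → ℝ} (h : H l v r) (a0 : v 12 < l 3) (a1 : l 3 < l 12) : False :=
  have c0 : l 12 ≤ v 12 := not_lt.mp fun z => L125 h z
  not_lt.mpr c0 (lt_trans a0 a1)

theorem L127 {l v r : ℕ → ℝ} (h : H l v r) (a0 : r 3 ≤ l 3) : False :=
  have c0 : l 3 < v 3 := h.u3_0
  have c1 : v 3 < r 3 := h.u3_1
  not_lt.mpr a0 (lt_trans c0 c1)

theorem L128 {l v r : ℕ → ℝ} (h : H l v r) (a0 : v 3 < l 3) : False :=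
  have c0 : l 3 < v 3 := h.u3_0
  lt_asymm c0 a0

theorem L129 {l v r : ℕ → ℝ} (h : H l v r) (a0 : r 3 < l 3) : False :=
  have c0 : l 3 < r 3 := not_le.mp fun z => L127 h z
  lt_asymm c0 a0

theorem L130 {l v r : ℕ → ℝ} (h : H l v r) (a0 : r 4 < r 1) (a1 : r 1 < v 4) : False :=
  have c0 : v 4 ≤ r 4 := not_lt.mp fun z => L13 h z
  not_lt.mpr c0 (lt_trans a0 a1)

theorem L131 {l v r : ℕ → ℝ} (h : H l v r) (a0 : v 10 < r 5) (a1 : r 5 < l 10) : False :=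
  have c0 : l 10 ≤ v 10 := not_lt.mp fun z => L50 h z
  not_lt.mpr c0 (lt_trans a0 a1)

theorem L132 {l v r : ℕ → ℝ} (h : H l v r) (a0 : r 5 < v 7) (a1 : v 7 < v 5) : False :=
  have c0 : v 5 ≤ r 5 := not_lt.mp fun z => L36 h z
  not_lt.mpr c0 (lt_trans a0 a1)

theorem L133 {l v r : ℕ → ℝ} (h : H l v r) (a0 : r 12 < v 3) (a1 : v 3 < l 12) : False :=
  have c0 : l 12 ≤ r 12 := not_lt.mp fun z => L91 h z
  not_lt.mpr c0 (lt_trans a0 a1)

theorem L134 {l v r : ℕ → ℝ} (h : H l v r) (a0 : r 0 < v 10) (a1 : v 10 ≤ v 0) : False :=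
  have c0 : v 0 < r 0 := h.u0_1
  not_lt.mpr a1 (lt_trans c0 a0)

theorem L135 {l v r : ℕ → ℝ} (h : H l v r) (a0 : v 5 < l 5) : False :=
  have c0 : l 5 < v 5 := h.u5_0
  lt_asymm c0 a0

theorem L136 {l v r : ℕ → ℝ} (h : H l v r) (a0 : r 9 < v 5) (a1 : v 5 < l 9) : False :=
  have c0 : l 9 ≤ r 9 := not_lt.mp fun z => L96 h z
  not_lt.mpr c0 (lt_trans a0 a1)

theorem L137 {l v r : ℕ → ℝ} (h : H l v r) (a0 : r 14 < v 14) : False :=
  have c0 : v 14 < r 14 := h.u14_1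
  lt_asymm c0 a0

theorem L138 {l v r : ℕ → ℝ} (h : H l v r) (a0 : v 13 < v 7) (a1 : v 7 < l 13) : False :=
  have c0 : l 13 ≤ v 13 := not_lt.mp fun z => L70 h z
  not_lt.mpr c0 (lt_trans a0 a1)

theorem L139 {l v r : ℕ → ℝ} (h : H l v r) (a0 : v 0 < l 9) (a1 : l 9 < l 0) : False :=
  have c0 : l 0 ≤ v 0 := not_lt.mp fun z => L64 h z
  not_lt.mpr c0 (lt_trans a0 a1)

theorem L140 {l v r : ℕ → ℝ} (h : H l v r) (a0 : v 17 < l 17) : False :=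
  have c0 : l 17 < v 17 := h.u17_0
  lt_asymm c0 a0

theorem L141 {l v r : ℕ → ℝ} (h : H l v r) (a0 : r 0 < v 0) : False :=
  have c0 : v 0 < r 0 := h.u0_1
  lt_asymm c0 a0

theorem L142 {l v r : ℕ → ℝ} (h : H l v r) (a0 : r 11 < v 1) (a1 : v 1 < l 11) : False :=
  have c0 : l 11 ≤ r 11 := not_lt.mp fun z => L67 h z
  not_lt.mpr c0 (lt_trans a0 a1)

theorem L143 {l v r : ℕ → ℝ} (h : H l v r) (a0 : l 13 < v 12) : False :=
  have c0 : v 12 < l 13 := not_le.mp fun z => L82 h z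
  lt_asymm c0 a0

theorem L144 {l v r : ℕ → ℝ} (h : H l v r) (a0 : r 11 < v 0) (a1 : v 0 < l 11) : False :=
  have c0 : l 11 ≤ r 11 := not_lt.mp fun z => L67 h z
  not_lt.mpr c0 (lt_trans a0 a1)

theorem L145 {l v r : ℕ → ℝ} (h : H l v r) (a0 : v 8 < v 3) (a1 : v 3 < l 8) : False :=
  have c0 : l 8 ≤ v 8 := not_lt.mp fun z => L110 h z
  not_lt.mpr c0 (lt_trans a0 a1)

theorem L146 {l v r : ℕ → ℝ} (h : H l v r) (a0 : r 12 < v 10) (a1 : v 10 < l 13) : False :=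
  have c0 : l 13 ≤ r 12 := not_lt.mp fun z => L88 h z
  not_lt.mpr c0 (lt_trans a0 a1)

theorem L147 {l v r : ℕ → ℝ} (h : H l v r) (a0 : r 14 < l 14) : False :=
  have c0 : l 14 < v 14 := h.u14_0
  have c1 : v 14 ≤ r 14 := not_lt.mp fun z => L137 h z
  not_lt.mpr c1 (lt_trans a0 c0)

theorem L148 {l v r : ℕ → ℝ} (h : H l v r) (a0 : l 8 < l 9) (a1 : v 9 ≤ l 8) : False :=
  have c0 : l 9 < v 9 := h.u9_0
  not_lt.mpr a1 (lt_trans a0 c0)

theorem L149 {l v r : ℕ → ℝ} (h : H l v r) (a0 : r 1 < v 11) (a1 : v 11 < v 1) : False :=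
  have c0 : v 1 ≤ r 1 := not_lt.mp fun z => L30 h z
  not_lt.mpr c0 (lt_trans a0 a1)

theorem L150 {l v r : ℕ → ℝ} (h : H l v r) (a0 : r 9 < r 1) (a1 : r 1 < v 9) : False :=
  have c0 : v 9 ≤ r 9 := not_lt.mp fun z => L48 h z
  not_lt.mpr c0 (lt_trans a0 a1)

theorem L151 {l v r : ℕ → ℝ} (h : H l v r) (a0 : r 15 < v 15) : False :=
  have c0 : v 15 < r 15 := h.u15_1
  lt_asymm c0 a0

theorem L152 {l v r : ℕ → ℝ} (h : H l v r) (a0 : r 15 < l 15) : False :=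
  have c0 : v 15 < r 15 := h.u15_1
  L72 h c0 a0

theorem L153 {l v r : ℕ → ℝ} (h : H l v r) (a0 : v 10 < r 12) (a1 : r 12 < l 10) : False :=
  have c0 : l 10 ≤ v 10 := not_lt.mp fun z => L50 h z
  not_lt.mpr c0 (lt_trans a0 a1)

theorem L154 {l v r : ℕ → ℝ} (h : H l v r) (a0 : l 13 < r 1) (a1 : r 1 < v 12) : False :=
  have c0 : v 12 ≤ l 13 := not_lt.mp fun z => L143 h z
  not_lt.mpr c0 (lt_trans a0 a1)

theorem L155 {l v r : ℕ → ℝ} (h : H l v r) (a0 : r 12 < v 17) (a1 : v 17 < l 13) : False :=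
  have c0 : l 13 ≤ r 12 := not_lt.mp fun z => L88 h z
  not_lt.mpr c0 (lt_trans a0 a1)

theorem L156 {l v r : ℕ → ℝ} (h : H l v r) (a0 : r 12 < v 4) (a1 : v 4 < l 13) : False :=
  have c0 : l 13 ≤ r 12 := not_lt.mp fun z => L88 h z
  not_lt.mpr c0 (lt_trans a0 a1)

theorem L157 {l v r : ℕ → ℝ} (h : H l v r) (a0 : r 17 < v 17) : False :=
  have c0 : v 17 < r 17 := h.u17_1
  lt_asymm c0 a0

theorem L158 {l v r : ℕ → ℝ} (h : H l v r) (a0 : r 17 < l 17) : False :=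
  have c0 : v 17 < r 17 := h.u17_1
  have c1 : l 17 ≤ v 17 := not_lt.mp fun z => L140 h z
  not_lt.mpr c1 (lt_trans c0 a0)

theorem L159 {l v r : ℕ → ℝ} (h : H l v r) (a0 : v 13 < r 12) : False :=
  have c0 : r 12 < v 13 := not_le.mp fun z => L81 h z
  lt_asymm c0 a0

theorem L160 {l v r : ℕ → ℝ} (h : H l v r) (a0 : v 8 < v 9) (a1 : v 9 ≤ l 8) : False :=
  have c0 : l 8 < v 8 := h.u8_0
  not_lt.mpr a1 (lt_trans c0 a0)

theorem L161 {l v r : ℕ → ℝ} (h : H l v r) (a0 : v 1 < l 1) : False :=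
  have c0 : l 1 < v 1 := h.u1_0
  lt_asymm c0 a0

theorem L162 {l v r : ℕ → ℝ} (h : H l v r) (a0 : r 1 < l 1) : False :=
  have c0 : l 1 < v 1 := h.u1_0
  L62 h a0 c0

theorem L163 {l v r : ℕ → ℝ} (h : H l v r) (a0 : v 5 ≤ l 17) (a1 : v 17 ≤ v 5) : False :=
  have c0 : l 17 < v 17 := h.u17_0
  not_lt.mpr (le_trans a1 a0) c0

theorem L164 {l v r : ℕ → ℝ} (h : H l v r) (a0 : r 1 < v 9) (a1 : v 9 < v 1) : False :=
  have c0 : v 1 ≤ r 1 := not_lt.mp fun z => L30 h z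
  not_lt.mpr c0 (lt_trans a0 a1)

theorem L165 {l v r : ℕ → ℝ} (h : H l v r) (a0 : r 11 < r 17) (a1 : r 17 < v 11) : False :=
  have c0 : v 11 ≤ r 11 := not_lt.mp fun z => L104 h z
  not_lt.mpr c0 (lt_trans a0 a1)

theorem L166 {l v r : ℕ → ℝ} (h : H l v r) (a0 : r 13 ≤ v 12) : False :=
  have c0 : v 13 < r 13 := h.u13_1
  have c1 : v 12 ≤ v 13 := not_lt.mp fun z => L84 h z
  not_lt.mpr (le_trans a0 c1) c0

theorem L167 {l v r : ℕ → ℝ} (h : H l v r) (a0 : r 13 < r 12) : False :=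
  have c0 : v 13 < r 13 := h.u13_1
  have c1 : r 12 ≤ v 13 := not_lt.mp fun z => L159 h z
  not_lt.mpr c1 (lt_trans c0 a0)

theorem L168 {l v r : ℕ → ℝ} (h : H l v r) (a0 : r 13 < v 13) : False :=
  have c0 : v 13 < r 13 := h.u13_1
  lt_asymm c0 a0

theorem L169 {l v r : ℕ → ℝ} (h : H l v r) (a0 : r 13 < l 13) : False :=
  have c0 : v 13 < r 13 := h.u13_1
  have c1 : l 13 ≤ v 13 := not_lt.mp fun z => L70 h z
  not_lt.mpr c1 (lt_trans c0 a0)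

theorem L170 {l v r : ℕ → ℝ} (h : H l v r) (a0 : r 13 ≤ l 13) : False :=
  have c0 : v 13 < r 13 := h.u13_1
  have c1 : l 13 ≤ v 13 := not_lt.mp fun z => L70 h z
  not_lt.mpr (le_trans a0 c1) c0

theorem L171 {l v r : ℕ → ℝ} (h : H l v r) (a0 : v 4 < r 12) (a1 : r 12 < l 4) : False :=
  have c0 : l 4 ≤ v 4 := not_lt.mp fun z => L3 h z
  not_lt.mpr c0 (lt_trans a0 a1)

theorem L172 {l v r : ℕ → ℝ} (h : H l v r) (a0 : r 0 < r 9) (a1 : r 9 < v 0) : False :=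
  have c0 : v 0 ≤ r 0 := not_lt.mp fun z => L141 h z
  not_lt.mpr c0 (lt_trans a0 a1)

theorem L173 {l v r : ℕ → ℝ} (h : H l v r) (a0 : r 10 < v 13) (a1 : v 13 < l 10) : False :=
  have c0 : l 10 ≤ r 10 := not_lt.mp fun z => L52 h z
  not_lt.mpr c0 (lt_trans a0 a1)

theorem L174 {l v r : ℕ → ℝ} (h : H l v r) (a0 : v 5 < l 9) (a1 : l 9 < l 5) : False :=
  have c0 : l 5 ≤ v 5 := not_lt.mp fun z => L135 h z
  not_lt.mpr c0 (lt_trans a0 a1)

theorem L175 {l v r : ℕ → ℝ} (h : H l v r) (a0 : v 5 < r 13) (a1 : r 13 < l 5) : False :=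
  have c0 : l 5 ≤ v 5 := not_lt.mp fun z => L135 h z
  not_lt.mpr c0 (lt_trans a0 a1)

theorem L176 {l v r : ℕ → ℝ} (h : H l v r) (a0 : r 4 < r 5) (a1 : r 5 < v 4) : False :=
  have c0 : v 4 ≤ r 4 := not_lt.mp fun z => L13 h z
  not_lt.mpr c0 (lt_trans a0 a1)

theorem L177 {l v r : ℕ → ℝ} (h : H l v r) (a0 : r 3 < v 3) : False :=
  have c0 : v 3 < r 3 := h.u3_1
  lt_asymm c0 a0

theorem L178 {l v r : ℕ → ℝ} (h : H l v r) (a0 : r 6 < v 1) (a1 : v 1 < l 6) : False :=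
  have c0 : l 6 ≤ r 6 := not_lt.mp fun z => L99 h z
  not_lt.mpr c0 (lt_trans a0 a1)

theorem L179 {l v r : ℕ → ℝ} (h : H l v r) (a0 : r 15 < r 4) (a1 : r 4 < v 15) : False :=
  have c0 : v 15 ≤ r 15 := not_lt.mp fun z => L151 h z
  not_lt.mpr c0 (lt_trans a0 a1)

theorem L180 {l v r : ℕ → ℝ} (h : H l v r) (a0 : r 11 < r 0) (a1 : r 0 < v 11) : False :=
  have c0 : v 11 ≤ r 11 := not_lt.mp fun z => L104 h z
  not_lt.mpr c0 (lt_trans a0 a1)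

theorem L181 {l v r : ℕ → ℝ} (h : H l v r) (a0 : v 13 < l 3) : False :=
  have c0 : l 3 < r 3 := not_le.mp fun z => L127 h z
  have c1 : r 12 ≤ v 13 := not_lt.mp fun z => L159 h z
  have c2 : v 12 ≤ v 13 := not_lt.mp fun z => L84 h z
  have c3 : v 13 < r 3 := lt_trans a0 c0
  have c4 : r 12 ≤ l 3 := le_of_lt (lt_of_le_of_lt c1 a0)
  have c5 : v 12 ≤ r 3 := le_of_lt (lt_of_le_of_lt c2 c3)
  have c6 : S17 l v r := h.e17.resolve_right fun z => not_lt.mpr c4 z.2.1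
  not_lt.mpr c5 c6.2.2

theorem L182 {l v r : ℕ → ℝ} (h : H l v r) (a0 : r 13 < l 3) : False :=
  have c0 : l 3 ≤ v 13 := not_lt.mp fun z => L181 h z
  have c1 : v 13 < r 13 := h.u13_1
  not_lt.mpr c0 (lt_trans c1 a0)

theorem L183 {l v r : ℕ → ℝ} (h : H l v r) (a0 : l 1 ≤ v 17) (a1 : r 15 < l 1) (a2 : v 17 < r 14) : False :=
  have c0 : v 15 ≤ r 15 := not_lt.mp fun z => L151 h z
  have c1 : r 15 ≤ l 1 := le_of_lt a1
  have c2 : v 15 ≤ l 1 := le_of_lt (lt_of_le_of_lt c0 a1)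
  have c3 : v 17 ≤ r 14 := le_of_lt a2
  have c4 : ¬ S43 l v r := fun z => not_lt.mpr c3 z.2.2
  have c5 : v 17 < l 14 := (h.e43.resolve_left c4).1
  have c6 : l 1 < l 14 := lt_of_le_of_lt a0 c5
  have c7 : l 1 < r 14 := lt_of_le_of_lt a0 a2
  have c8 : r 15 ≤ l 14 := le_of_lt (lt_of_le_of_lt c1 c6)
  have c9 : v 15 ≤ r 14 := le_of_lt (lt_of_le_of_lt c2 c7)
  have c10 : S41 l v r := h.e41.resolve_right fun z => not_lt.mpr c8 z.2.1
  not_lt.mpr c9 c10.2.2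

theorem L184 {l v r : ℕ → ℝ} (h : H l v r) (a0 : S37 l v r) (a1 : v 17 < l 1) : False :=
  have c0 : l 17 < v 17 := h.u17_0
  have c1 : l 1 ≤ r 1 := not_lt.mp fun z => L162 h z
  have c2 : l 17 < l 1 := lt_trans c0 a1
  have c3 : l 17 ≤ r 1 := le_of_lt (lt_of_lt_of_le c2 c1)
  have c4 : v 17 ≤ l 1 := le_of_lt a1
  have c5 : v 11 < l 17 := a0.1
  have c6 : r 11 < v 17 := a0.2.2
  have c7 : v 11 ≤ r 1 := le_of_lt (lt_of_lt_of_le c5 c3)
  have c8 : r 11 ≤ l 1 := le_of_lt (lt_of_lt_of_le c6 c4)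
  have c9 : ¬ S9 l v r := fun z => not_lt.mpr c7 z.2.2
  not_lt.mpr c8 (h.e9.resolve_left c9).2.1

theorem L185 {l v r : ℕ → ℝ} (h : H l v r) (a0 : r 11 ≤ l 1) : False :=
  have c0 : l 11 < r 11 := not_le.mp fun z => L18 h z
  have c1 : l 1 ≤ v 1 := not_lt.mp fun z => L161 h z
  have c2 : l 11 < l 1 := lt_of_lt_of_le c0 a0
  have c3 : S9 l v r := h.e9.resolve_right fun z => not_lt.mpr a0 z.2.1
  have c4 : l 11 ≤ v 1 := le_of_lt (lt_of_lt_of_le c2 c1)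
  not_lt.mpr c4 c3.1

theorem L186 {l v r : ℕ → ℝ} (h : H l v r) (a0 : r 11 < l 1) : False :=
  have c0 : l 1 < r 11 := not_le.mp fun z => L185 h z
  lt_asymm c0 a0

theorem L187 {l v r : ℕ → ℝ} (h : H l v r) (a0 : r 12 < v 17) (a1 : v 17 < l 1) : False :=
  have c0 : l 1 ≤ r 1 := not_lt.mp fun z => L162 h z
  have c1 : v 12 < r 12 := not_le.mp fun z => L87 h z
  have c2 : v 17 ≤ l 1 := le_of_lt a1
  have c3 : v 17 ≤ r 1 := le_of_lt (lt_of_lt_of_le a1 c0)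
  have c4 : v 12 < v 17 := lt_trans c1 a0
  have c5 : r 12 ≤ l 1 := le_of_lt (lt_of_lt_of_le a0 c2)
  have c6 : v 12 ≤ r 1 := le_of_lt (lt_of_lt_of_le c4 c3)
  have c7 : S10 l v r := h.e10.resolve_right fun z => not_lt.mpr c5 z.2.1
  not_lt.mpr c6 c7.2.2

theorem L188 {l v r : ℕ → ℝ} (h : H l v r) (a0 : v 5 ≤ l 12) (a1 : v 17 ≤ l 4) (a2 : l 12 ≤ r 17) (a3 : l 12 ≤ r 4) : False :=
  have c0 : v 5 ≤ r 17 := le_trans a0 a2
  have c1 : v 5 ≤ r 4 := le_trans a0 a3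
  have c2 : S25 l v r := h.e25.resolve_right fun z => not_lt.mpr c0 z.2.2
  have c3 : ¬ S19 l v r := fun z => not_lt.mpr c1 z.2.2
  have c4 : r 5 < v 17 := c2.2.2
  have c5 : l 4 < r 5 := (h.e19.resolve_left c3).2.1
  not_lt.mpr a1 (lt_trans c5 c4)

theorem L189 {l v r : ℕ → ℝ} (h : H l v r) (a0 : r 10 ≤ l 16) : False :=
  have c0 : l 16 < v 16 := h.u16_0
  have c1 : r 10 < v 16 := lt_of_le_of_lt a0 c0
  have c2 : ¬ S35 l v r := fun z => not_lt.mpr a0 z.2.1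
  have c3 : l 10 ≤ v 16 := not_lt.mp fun z => L68 h c1 z
  not_lt.mpr c3 (h.e35.resolve_left c2).1

theorem L190 {l v r : ℕ → ℝ} (h : H l v r) (a0 : r 10 < l 16) : False :=
  have c0 : l 16 < r 10 := not_le.mp fun z => L189 h z
  lt_asymm a0 c0

theorem L191 {l v r : ℕ → ℝ} (h : H l v r) (a0 : v 17 ≤ l 4) (a1 : r 5 < v 17) : False :=
  have c0 : l 5 ≤ r 5 := not_lt.mp fun z => L116 h z
  have c1 : l 4 < v 4 := h.u4_0
  have c2 : l 5 < v 17 := lt_of_le_of_lt c0 a1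
  have c3 : v 17 ≤ v 4 := le_of_lt (lt_of_le_of_lt a0 c1)
  have c4 : r 5 ≤ l 4 := le_of_lt (lt_of_lt_of_le a1 a0)
  have c5 : l 5 ≤ v 4 := le_of_lt (lt_of_lt_of_le c2 c3)
  have c6 : S19 l v r := h.e19.resolve_right fun z => not_lt.mpr c4 z.2.1
  not_lt.mpr c5 c6.1

theorem L192 {l v r : ℕ → ℝ} (h : H l v r) (a0 : r 10 ≤ v 8) (a1 : l 9 ≤ v 3) (a2 : v 5 ≤ v 3) (a3 : r 12 < v 3) (a4 : l 3 < r 10) (a5 : r 4 ≤ v 1) (a6 : l 1 < r 12) (a7 : l 4 < r 10) (a8 : r 4 ≤ v 15) (a9 : v 12 ≤ r 5) (a10 : v 4 < l 15) (a11 : l 15 < v 9) : False :=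
  have c0 : l 4 ≤ v 8 := le_of_lt (lt_of_lt_of_le a7 a0)
  have c1 : l 3 ≤ v 8 := le_of_lt (lt_of_lt_of_le a4 a0)
  have c2 : S20 l v r := h.e20.resolve_right fun z => not_lt.mpr c0 z.1
  have c3 : S15 l v r := h.e15.resolve_right fun z => not_lt.mpr c1 z.1
  have c4 : l 8 < r 4 := c2.2.1
  have c5 : v 3 < l 8 := c3.1
  have c6 : l 8 ≤ v 15 := le_of_lt (lt_of_lt_of_le c4 a8)
  have c7 : l 8 ≤ r 4 := le_of_lt c4
  have c8 : l 8 ≤ v 1 := le_of_lt (lt_of_lt_of_le c4 a5)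
  have c9 : v 3 ≤ v 1 := le_of_lt (lt_of_lt_of_le c5 c8)
  have c10 : v 3 ≤ r 4 := le_of_lt (lt_of_lt_of_le c5 c7)
  have c11 : r 12 < l 8 := lt_trans a3 c5
  have c12 : l 9 ≤ v 1 := le_trans a1 c9
  have c13 : v 5 ≤ r 4 := le_trans a2 c10
  have c14 : r 12 < v 15 := lt_of_lt_of_le c11 c6
  have c15 : ¬ S8 l v r := fun z => not_lt.mpr c12 z.1
  have c16 : ¬ S19 l v r := fun z => not_lt.mpr c13 z.2.2
  have c17 : v 9 < l 1 := (h.e8.resolve_left c15).1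
  have c18 : r 5 < v 4 := (h.e19.resolve_left c16).2.2
  have c19 : l 15 < l 1 := lt_trans a11 c17
  have c20 : r 5 < l 15 := lt_trans c18 a10
  have c21 : l 15 < r 12 := lt_trans c19 a6
  have c22 : v 12 < l 15 := lt_of_le_of_lt a9 c20
  h.n12_15 c22 c21 c14

theorem L193 {l v r : ℕ → ℝ} (h : H l v r) (a0 : S12 l v r) (a1 : v 15 ≤ l 1) (a2 : l 15 ≤ r 1) : False :=
  have c0 : r 2 < v 15 := a0.2.2
  have c1 : v 2 < l 15 := a0.1
  have c2 : r 2 ≤ l 1 := le_of_lt (lt_of_lt_of_le c0 a1)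
  have c3 : v 2 ≤ r 1 := le_of_lt (lt_of_lt_of_le c1 a2)
  have c4 : S5 l v r := h.e5.resolve_right fun z => not_lt.mpr c2 z.2.1
  not_lt.mpr c3 c4.2.2

theorem L194 {l v r : ℕ → ℝ} (h : H l v r) (a0 : r 0 < v 13) (a1 : v 13 < l 7) : False :=
  have c0 : l 7 ≤ v 7 := not_lt.mp fun z => L95 h z
  have c1 : l 0 ≤ r 0 := not_lt.mp fun z => L26 h z
  have c2 : v 13 ≤ l 7 := le_of_lt a1
  have c3 : v 13 < v 7 := lt_of_lt_of_le a1 c0
  have c4 : l 0 ≤ v 13 := le_of_lt (lt_of_le_of_lt c1 a0)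
  have c5 : r 0 ≤ l 7 := le_of_lt (lt_of_lt_of_le a0 c2)
  have c6 : l 0 ≤ v 7 := le_of_lt (lt_of_le_of_lt c4 c3)
  have c7 : ¬ S0 l v r := fun z => not_lt.mpr c5 z.2.1
  not_lt.mpr c6 (h.e0.resolve_left c7).1

theorem L195 {l v r : ℕ → ℝ} (h : H l v r) (a0 : ¬ S4 l v r) (a1 : l 7 ≤ r 15) (a2 : l 11 ≤ r 7) (a3 : r 15 ≤ v 11) : False :=
  have c0 : r 15 < v 0 := (h.e4.resolve_left a0).2.2
  have c1 : l 0 < r 15 := (h.e4.resolve_left a0).2.1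
  have c2 : l 7 ≤ v 0 := le_of_lt (lt_of_le_of_lt a1 c0)
  have c3 : l 0 ≤ v 11 := le_of_lt (lt_of_lt_of_le c1 a3)
  have c4 : ¬ S0 l v r := fun z => not_lt.mpr c2 z.1
  have c5 : S3 l v r := h.e3.resolve_right fun z => not_lt.mpr c3 z.1
  have c6 : r 7 < v 0 := (h.e0.resolve_left c4).2.2
  have c7 : v 0 < l 11 := c5.1
  not_lt.mpr a2 (lt_trans c6 c7)

theorem L196 {l v r : ℕ → ℝ} (h : H l v r) (a0 : ¬ S19 l v r) (a1 : l 8 ≤ r 5) (a2 : r 8 ≤ v 5) : False :=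
  have c0 : r 5 < v 4 := (h.e19.resolve_left a0).2.2
  have c1 : v 5 < l 4 := (h.e19.resolve_left a0).1
  have c2 : l 8 ≤ v 4 := le_of_lt (lt_of_le_of_lt a1 c0)
  have c3 : r 8 ≤ l 4 := le_of_lt (lt_of_le_of_lt a2 c1)
  have c4 : ¬ S20 l v r := fun z => not_lt.mpr c2 z.1
  not_lt.mpr c3 (h.e20.resolve_left c4).2.1

theorem L197 {l v r : ℕ → ℝ} (h : H l v r) (a0 : r 10 < v 1) (a1 : l 4 ≤ r 10) (a2 : r 4 ≤ v 9) (a3 : l 9 ≤ r 10) : False :=
  have c0 : l 9 ≤ v 1 := le_of_lt (lt_of_le_of_lt a3 a0)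
  have c1 : l 4 ≤ v 1 := le_of_lt (lt_of_le_of_lt a1 a0)
  have c2 : ¬ S8 l v r := fun z => not_lt.mpr c0 z.1
  have c3 : ¬ S6 l v r := fun z => not_lt.mpr c1 z.1
  have c4 : v 9 < l 1 := (h.e8.resolve_left c2).1
  have c5 : l 1 < r 4 := (h.e6.resolve_left c3).2.1
  not_lt.mpr a2 (lt_trans c4 c5)

theorem L198 {l v r : ℕ → ℝ} (h : H l v r) (a0 : r 8 ≤ l 4) : False :=
  have c0 : l 4 < v 4 := h.u4_0
  have c1 : l 8 ≤ r 8 := not_lt.mp fun z => L111 h z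
  have c2 : r 8 < v 4 := lt_of_le_of_lt a0 c0
  have c3 : S20 l v r := h.e20.resolve_right fun z => not_lt.mpr a0 z.2.1
  have c4 : l 8 ≤ v 4 := le_of_lt (lt_of_le_of_lt c1 c2)
  not_lt.mpr c4 c3.1

theorem L199 {l v r : ℕ → ℝ} (h : H l v r) (a0 : r 8 < l 4) : False :=
  have c0 : l 4 < r 8 := not_le.mp fun z => L198 h z
  lt_asymm c0 a0

theorem L200 {l v r : ℕ → ℝ} (h : H l v r) (a0 : r 17 < v 5) (a1 : r 12 ≤ r 17) (a2 : l 12 < r 17) (a3 : v 5 < l 16) : False :=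
  have c0 : l 16 ≤ v 16 := not_lt.mp fun z => L112 h z
  have c1 : v 5 ≤ v 16 := le_of_lt (lt_of_lt_of_le a3 c0)
  have c2 : r 17 < l 16 := lt_trans a0 a3
  have c3 : r 17 ≤ v 16 := le_of_lt (lt_of_lt_of_le a0 c1)
  have c4 : r 12 ≤ l 16 := le_of_lt (lt_of_le_of_lt a1 c2)
  have c5 : l 12 ≤ v 16 := le_of_lt (lt_of_lt_of_le a2 c3)
  have c6 : ¬ S39 l v r := fun z => not_lt.mpr c4 z.2.1
  not_lt.mpr c5 (h.e39.resolve_left c6).1

theorem L201 {l v r : ℕ → ℝ} (h : H l v r) (a0 : ¬ S11 l v r) (a1 : r 15 ≤ v 8) (a2 : l 15 ≤ r 8) : False :=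
  have c0 : v 8 < l 2 := (h.e11.resolve_left a0).1
  have c1 : r 8 < v 2 := (h.e11.resolve_left a0).2.2
  have c2 : r 15 ≤ l 2 := le_of_lt (lt_of_le_of_lt a1 c0)
  have c3 : l 15 ≤ v 2 := le_of_lt (lt_of_le_of_lt a2 c1)
  have c4 : S12 l v r := h.e12.resolve_right fun z => not_lt.mpr c2 z.2.1
  not_lt.mpr c3 c4.1

theorem L202 {l v r : ℕ → ℝ} (h : H l v r) (a0 : S3 l v r) (a1 : r 17 ≤ v 0) (a2 : l 17 ≤ r 0) : False :=
  have c0 : r 0 < v 11 := a0.2.2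
  have c1 : v 0 < l 11 := a0.1
  have c2 : l 17 ≤ v 11 := le_of_lt (lt_of_le_of_lt a2 c0)
  have c3 : r 17 ≤ l 11 := le_of_lt (lt_of_le_of_lt a1 c1)
  have c4 : ¬ S37 l v r := fun z => not_lt.mpr c2 z.1
  not_lt.mpr c3 (h.e37.resolve_left c4).2.1

theorem L203 {l v r : ℕ → ℝ} (h : H l v r) (a0 : r 15 ≤ l 4) : False :=
  have c0 : l 4 < r 4 := not_le.mp fun z => L14 h z
  have c1 : r 15 < r 4 := lt_of_le_of_lt a0 c0
  have c2 : S22 l v r := h.e22.resolve_right fun z => not_lt.mpr a0 z.2.1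
  have c3 : v 15 ≤ r 4 := not_lt.mp fun z => L179 h c1 z
  not_lt.mpr c3 c2.2.2

theorem L204 {l v r : ℕ → ℝ} (h : H l v r) (a0 : r 15 < l 4) : False :=
  have c0 : l 4 < r 15 := not_le.mp fun z => L203 h z
  lt_asymm c0 a0

theorem L205 {l v r : ℕ → ℝ} (h : H l v r) (a0 : r 15 ≤ l 0) : False :=
  have c0 : v 15 ≤ r 15 := not_lt.mp fun z => L151 h z
  have c1 : l 0 ≤ r 0 := not_lt.mp fun z => L26 h z
  have c2 : v 15 ≤ l 0 := le_trans c0 a0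
  have c3 : S4 l v r := h.e4.resolve_right fun z => not_lt.mpr a0 z.2.1
  have c4 : v 15 ≤ r 0 := le_trans c2 c1
  not_lt.mpr c4 c3.2.2

theorem L206 {l v r : ℕ → ℝ} (h : H l v r) (a0 : r 15 < l 0) : False :=
  have c0 : l 0 < r 15 := not_le.mp fun z => L205 h z
  lt_asymm c0 a0

theorem L207 {l v r : ℕ → ℝ} (h : H l v r) (a0 : r 4 ≤ l 13) : False :=
  have c0 : l 13 < r 13 := not_le.mp fun z => L170 h z
  have c1 : r 4 < r 13 := lt_of_le_of_lt a0 c0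
  have c2 : ¬ S21 l v r := fun z => not_lt.mpr a0 z.2.1
  have c3 : v 4 ≤ r 13 := not_lt.mp fun z => L22 h c1 z
  not_lt.mpr c3 (h.e21.resolve_left c2).2.2

theorem L208 {l v r : ℕ → ℝ} (h : H l v r) (a0 : r 4 < l 13) : False :=
  have c0 : l 13 < r 4 := not_le.mp fun z => L207 h z
  lt_asymm a0 c0

theorem L209 {l v r : ℕ → ℝ} (h : H l v r) (a0 : r 4 ≤ l 12) : False :=
  have c0 : l 13 < r 4 := not_le.mp fun z => L207 h z
  have c1 : l 12 < l 13 := not_le.mp fun z => L85 h z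
  not_lt.mpr a0 (lt_trans c1 c0)

theorem L210 {l v r : ℕ → ℝ} (h : H l v r) (a0 : r 4 < v 12) : False :=
  have c0 : l 13 < r 4 := not_le.mp fun z => L207 h z
  have c1 : v 12 ≤ l 13 := not_lt.mp fun z => L143 h z
  not_lt.mpr c1 (lt_trans c0 a0)

theorem L211 {l v r : ℕ → ℝ} (h : H l v r) (a0 : r 4 ≤ v 12) : False :=
  have c0 : l 13 < r 4 := not_le.mp fun z => L207 h z
  have c1 : v 12 ≤ l 13 := not_lt.mp fun z => L143 h z
  not_lt.mpr (le_trans a0 c1) c0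

theorem L212 {l v r : ℕ → ℝ} (h : H l v r) (a0 : r 4 < l 12) : False :=
  have c0 : l 13 < r 4 := not_le.mp fun z => L207 h z
  have c1 : l 12 ≤ l 13 := not_lt.mp fun z => L90 h z
  not_lt.mpr c1 (lt_trans c0 a0)

theorem L213 {l v r : ℕ → ℝ} (h : H l v r) (a0 : S1 l v r) (a1 : v 9 ≤ l 8) (a2 : l 8 ≤ r 15) (a3 : l 15 ≤ r 9) : False :=
  have c0 : v 0 < l 8 := a0.1
  have c1 : l 8 < r 0 := a0.2.1
  have c2 : v 0 ≤ r 15 := le_of_lt (lt_of_lt_of_le c0 a2)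
  have c3 : v 9 ≤ r 0 := le_of_lt (lt_of_le_of_lt a1 c1)
  have c4 : S4 l v r := h.e4.resolve_right fun z => not_lt.mpr c2 z.2.2
  have c5 : ¬ S2 l v r := fun z => not_lt.mpr c3 z.2.2
  have c6 : v 0 < l 15 := c4.1
  have c7 : r 9 < v 0 := (h.e2.resolve_left c5).2.2
  not_lt.mpr a3 (lt_trans c7 c6)

theorem L214 {l v r : ℕ → ℝ} (h : H l v r) (a0 : v 5 ≤ v 2) (a1 : v 17 < v 15) (a2 : r 15 < r 17) (a3 : l 15 < v 5) (a4 : r 17 < v 5) : False :=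
  have c0 : r 17 < v 2 := lt_of_lt_of_le a4 a0
  have c1 : l 15 ≤ v 2 := le_of_lt (lt_of_lt_of_le a3 a0)
  have c2 : ¬ S12 l v r := fun z => not_lt.mpr c1 z.1
  have c3 : l 2 < r 15 := (h.e12.resolve_left c2).2.1
  have c4 : v 15 < l 2 := (h.e12.resolve_left c2).1
  have c5 : l 2 < r 17 := lt_trans c3 a2
  have c6 : v 17 < l 2 := lt_trans a1 c4
  h.n17_2 c6 c5 c0

theorem L215 {l v r : ℕ → ℝ} (h : H l v r) (a0 : S13 l v r) (a1 : v 16 < v 13) (a2 : l 15 < l 13) (a3 : l 13 < l 1) (a4 : l 16 ≤ r 1) (a5 : l 16 ≤ r 15) : False :=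
  have c0 : v 2 < l 16 := a0.1
  have c1 : r 2 < v 16 := a0.2.2
  have c2 : v 2 ≤ r 15 := le_of_lt (lt_of_lt_of_le c0 a5)
  have c3 : v 2 ≤ r 1 := le_of_lt (lt_of_lt_of_le c0 a4)
  have c4 : r 2 < v 13 := lt_trans c1 a1
  have c5 : S12 l v r := h.e12.resolve_right fun z => not_lt.mpr c2 z.2.2
  have c6 : ¬ S5 l v r := fun z => not_lt.mpr c3 z.2.2
  have c7 : v 2 < l 15 := c5.1
  have c8 : l 1 < r 2 := (h.e5.resolve_left c6).2.1
  have c9 : v 2 < l 13 := lt_trans c7 a2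
  have c10 : l 13 < r 2 := lt_trans a3 c8
  h.n2_13 c9 c10 c4

theorem L216 {l v r : ℕ → ℝ} (h : H l v r) (a0 : r 3 ≤ l 8) : False :=
  have c0 : l 8 < r 8 := not_le.mp fun z => L109 h z
  have c1 : v 3 ≤ r 3 := not_lt.mp fun z => L177 h z
  have c2 : r 3 < r 8 := lt_of_le_of_lt a0 c0
  have c3 : ¬ S15 l v r := fun z => not_lt.mpr a0 z.2.1
  have c4 : v 3 ≤ r 8 := le_of_lt (lt_of_le_of_lt c1 c2)
  not_lt.mpr c4 (h.e15.resolve_left c3).2.2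

theorem L217 {l v r : ℕ → ℝ} (h : H l v r) (a0 : r 3 < l 8) : False :=
  have c0 : l 8 < r 3 := not_le.mp fun z => L216 h z
  lt_asymm a0 c0

theorem L218 {l v r : ℕ → ℝ} (h : H l v r) (a0 : l 11 < r 1) (a1 : v 17 ≤ l 0) (a2 : r 1 ≤ v 0) (a3 : r 1 ≤ v 17) : False :=
  have c0 : l 11 ≤ v 17 := le_of_lt (lt_of_lt_of_le a0 a3)
  have c1 : l 11 ≤ v 0 := le_of_lt (lt_of_lt_of_le a0 a2)
  have c2 : S37 l v r := h.e37.resolve_right fun z => not_lt.mpr c0 z.1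
  have c3 : ¬ S3 l v r := fun z => not_lt.mpr c1 z.1
  have c4 : r 11 < v 17 := c2.2.2
  have c5 : l 0 < r 11 := (h.e3.resolve_left c3).2.1
  not_lt.mpr a1 (lt_trans c5 c4)

theorem L219 {l v r : ℕ → ℝ} (h : H l v r) (a0 : r 1 ≤ l 11) : False :=
  have c0 : l 1 ≤ r 1 := not_lt.mp fun z => L162 h z
  have c1 : r 1 ≤ v 11 := not_lt.mp fun z => L9 h z a0
  have c2 : ¬ S9 l v r := fun z => not_lt.mpr a0 z.2.1
  have c3 : l 1 ≤ v 11 := le_trans c0 c1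
  not_lt.mpr c3 (h.e9.resolve_left c2).1

theorem L220 {l v r : ℕ → ℝ} (h : H l v r) (a0 : r 1 < l 11) : False :=
  have c0 : l 11 < r 1 := not_le.mp fun z => L219 h z
  lt_asymm a0 c0

theorem L221 {l v r : ℕ → ℝ} (h : H l v r) (a0 : v 8 < l 0) (a1 : r 1 ≤ v 8) (a2 : r 1 ≤ v 17) (a3 : v 17 ≤ v 8) : False :=
  have c0 : l 0 ≤ v 0 := not_lt.mp fun z => L64 h z
  have c1 : l 11 < r 1 := not_le.mp fun z => L219 h z
  have c2 : v 8 < v 0 := lt_of_lt_of_le a0 c0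
  have c3 : v 17 ≤ l 0 := le_of_lt (lt_of_le_of_lt a3 a0)
  have c4 : r 1 ≤ v 0 := le_of_lt (lt_of_le_of_lt a1 c2)
  L218 h c1 c3 c4 a2

theorem L222 {l v r : ℕ → ℝ} (h : H l v r) (a0 : r 11 < v 17) (a1 : r 4 < r 11) (a2 : v 4 < v 12) (a3 : l 12 ≤ r 11) (a4 : r 12 < r 4) : False :=
  have c0 : l 12 ≤ v 17 := le_of_lt (lt_of_le_of_lt a3 a0)
  have c1 : r 4 < v 17 := lt_trans a1 a0
  have c2 : S40 l v r := h.e40.resolve_right fun z => not_lt.mpr c0 z.1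
  have c3 : l 17 < r 12 := c2.2.1
  have c4 : v 12 < l 17 := c2.1
  have c5 : l 17 < r 4 := lt_trans c3 a4
  have c6 : v 4 < l 17 := lt_trans a2 c4
  h.n4_17 c6 c5 c1

theorem L223 {l v r : ℕ → ℝ} (h : H l v r) (a0 : ¬ S14 l v r) (a1 : r 4 < v 1) (a2 : l 4 < r 10) (a3 : r 4 ≤ v 15) (a4 : v 4 < l 15) (a5 : v 12 ≤ l 3) (a6 : r 12 < v 3) (a7 : l 15 < v 9) (a8 : l 9 ≤ v 3) (a9 : l 3 < r 10) (a10 : r 10 ≤ v 8) : False :=
  have c0 : l 12 ≤ r 4 := not_lt.mp fun z => L212 h z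
  have c1 : l 3 ≤ v 3 := not_lt.mp fun z => L128 h z
  have c2 : l 12 ≤ v 1 := le_of_lt (lt_of_le_of_lt c0 a1)
  have c3 : ¬ S10 l v r := fun z => not_lt.mpr c2 z.1
  have c4 : l 1 < r 12 := (h.e10.resolve_left c3).2.1
  have c5 : r 4 ≤ v 1 := le_of_lt a1
  have c6 : v 5 < l 3 := (h.e14.resolve_left a0).1
  have c7 : l 3 < r 5 := (h.e14.resolve_left a0).2.1
  have c8 : v 5 ≤ v 3 := le_of_lt (lt_of_lt_of_le c6 c1)
  have c9 : v 12 ≤ r 5 := le_of_lt (lt_of_le_of_lt a5 c7)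
  L192 h a10 a8 c8 a6 a9 c5 c4 a2 a3 c9 a4 a7

theorem L224 {l v r : ℕ → ℝ} (h : H l v r) (a0 : r 6 < r 1) (a1 : l 16 < r 6) (a2 : r 1 ≤ r 17) (a3 : v 17 ≤ v 16) (a4 : l 15 ≤ l 16) (a5 : l 1 ≤ r 15) : False :=
  have c0 : v 6 < r 6 := h.u6_1
  have c1 : v 6 < r 1 := lt_trans c0 a0
  have c2 : v 6 ≤ r 1 := not_lt.mp fun z => L79 h a0 z
  have c3 : v 6 ≤ r 17 := le_of_lt (lt_of_lt_of_le c1 a2)
  have c4 : ¬ S7 l v r := fun z => not_lt.mpr c2 z.2.2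
  have c5 : S28 l v r := h.e28.resolve_right fun z => not_lt.mpr c3 z.2.2
  have c6 : v 6 < l 1 := (h.e7.resolve_left c4).1
  have c7 : r 6 < v 17 := c5.2.2
  have c8 : v 6 ≤ r 15 := le_of_lt (lt_of_lt_of_le c6 a5)
  have c9 : r 6 < v 16 := lt_of_lt_of_le c7 a3
  have c10 : S27 l v r := h.e27.resolve_right fun z => not_lt.mpr c8 z.2.2
  have c11 : l 16 ≤ v 6 := not_lt.mp fun z => h.n6_16 z a1 c9
  have c12 : v 6 < l 15 := c10.1
  not_lt.mpr (le_trans a4 c11) c12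

theorem L225 {l v r : ℕ → ℝ} (h : H l v r) (a0 : r 1 ≤ r 6) (a1 : r 16 ≤ r 17) (a2 : v 16 ≤ v 1) (a3 : r 15 ≤ r 16) (a4 : v 17 ≤ r 1) (a5 : v 15 < r 1) : False :=
  have c0 : v 1 < r 1 := h.u1_1
  have c1 : v 1 ≤ r 6 := le_of_lt (lt_of_lt_of_le c0 a0)
  have c2 : v 17 ≤ r 6 := le_trans a4 a0
  have c3 : v 15 ≤ r 6 := le_of_lt (lt_of_lt_of_le a5 a0)
  have c4 : S7 l v r := h.e7.resolve_right fun z => not_lt.mpr c1 z.2.2
  have c5 : ¬ S28 l v r := fun z => not_lt.mpr c2 z.2.2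
  have c6 : ¬ S27 l v r := fun z => not_lt.mpr c3 z.2.2
  have c7 : v 1 < l 6 := c4.1
  have c8 : r 17 < v 6 := (h.e28.resolve_left c5).2.2
  have c9 : l 6 < r 15 := (h.e27.resolve_left c6).2.1
  have c10 : v 16 < l 6 := lt_of_le_of_lt a2 c7
  have c11 : r 16 < v 6 := lt_of_le_of_lt a1 c8
  have c12 : l 6 < r 16 := lt_of_lt_of_le c9 a3
  h.n16_6 c10 c12 c11

theorem L226 {l v r : ℕ → ℝ} (h : H l v r) (a0 : l 5 < r 17) (a1 : r 17 < v 11) (a2 : l 5 ≤ r 4) (a3 : r 12 ≤ v 5) (a4 : l 15 < v 5) (a5 : l 1 ≤ l 5) (a6 : v 12 ≤ l 5) (a7 : l 16 ≤ l 5) (a8 : l 5 < v 1) (a9 : v 4 < v 12) (a10 : l 15 ≤ v 12) (a11 : v 15 < r 1) (a12 : l 0 ≤ r 1) (a13 : l 13 < l 1) (a14 : l 16 < l 1) (a15 : l 8 ≤ v 1) (a16 : l 1 ≤ r 15) (a17 : r 4 < v 1) (a18 : r 12 < r 4) (a19 : l 16 < r 4) (a20 : v 4 < r 12) (a21 : r 4 < v 13) (a22 : r 4 < v 15) (a23 : r 12 ≤ r 0) (a24 : r 15 < v 0) (a25 : l 16 ≤ r 15)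 (a26 : r 8 < v 0) : False :=
  have c0 : v 1 ≤ r 1 := not_lt.mp fun z => L30 h z
  have c1 : v 12 < l 13 := not_le.mp fun z => L82 h z
  have c2 : l 17 ≤ v 17 := not_lt.mp fun z => L140 h z
  have c3 : l 17 ≤ r 17 := not_lt.mp fun z => L158 h z
  have c4 : l 11 ≤ r 1 := not_lt.mp fun z => L220 h z
  have c5 : l 1 < v 1 := h.u1_0
  have c6 : l 17 ≤ v 11 := le_of_lt (lt_of_le_of_lt c3 a1)
  have c7 : ¬ S37 l v r := fun z => not_lt.mpr c6 z.1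
  have c8 : v 17 < l 11 := (h.e37.resolve_left c7).1
  have c9 : v 17 ≤ r 1 := le_of_lt (lt_of_lt_of_le c8 c4)
  have c10 : l 17 < l 11 := lt_of_le_of_lt c2 c8
  have c11 : l 15 < l 13 := lt_of_le_of_lt a10 c1
  have c12 : r 4 ≤ r 1 := le_of_lt (lt_of_lt_of_le a17 c0)
  have c13 : l 16 ≤ r 1 := le_of_lt (lt_of_lt_of_le a19 c12)
  have c14 : r 4 ≤ v 1 := le_of_lt a17
  have c15 : l 5 < v 11 := lt_trans a0 a1
  have c16 : v 12 ≤ r 17 := le_of_lt (lt_of_le_of_lt a6 a0)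
  have c17 : l 16 ≤ v 11 := le_of_lt (lt_of_le_of_lt a7 c15)
  have c18 : l 1 ≤ v 11 := le_of_lt (lt_of_le_of_lt a5 c15)
  have c19 : S40 l v r := h.e40.resolve_right fun z => not_lt.mpr c16 z.2.2
  have c20 : ¬ S36 l v r := fun z => not_lt.mpr c17 z.1
  have c21 : S9 l v r := h.e9.resolve_right fun z => not_lt.mpr c18 z.1
  have c22 : l 17 < r 12 := c19.2.1
  have c23 : v 12 < l 17 := c19.1
  have c24 : l 11 < r 16 := (h.e36.resolve_left c20).2.1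
  have c25 : r 1 < v 11 := c21.2.2
  have c26 : v 1 < l 11 := c21.1
  have c27 : l 17 ≤ r 0 := le_of_lt (lt_of_lt_of_le c22 a23)
  have c28 : l 17 < r 4 := lt_trans c22 a18
  have c29 : l 17 ≤ v 5 := le_of_lt (lt_of_lt_of_le c22 a3)
  have c30 : v 4 < l 17 := lt_trans a9 c23
  have c31 : v 12 < l 11 := lt_trans c23 c10
  have c32 : l 11 ≤ r 16 := le_of_lt c24
  have c33 : v 1 < r 16 := lt_trans c26 c24
  have c34 : l 0 ≤ v 11 := le_of_lt (lt_of_le_of_lt a12 c25)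
  have c35 : l 1 < l 11 := lt_trans c5 c26
  have c36 : ¬ S25 l v r := fun z => not_lt.mpr c29 z.1
  have c37 : v 17 ≤ r 4 := not_lt.mp fun z => h.n4_17 c30 c28 z
  have c38 : v 12 ≤ r 16 := le_of_lt (lt_of_lt_of_le c31 c32)
  have c39 : l 1 ≤ r 16 := le_of_lt (lt_of_lt_of_le c35 c32)
  have c40 : r 4 ≤ r 16 := le_of_lt (lt_of_le_of_lt c14 c33)
  have c41 : l 8 ≤ r 16 := le_of_lt (lt_of_le_of_lt a15 c33)
  have c42 : l 5 < r 16 := lt_trans a8 c33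
  have c43 : S3 l v r := h.e3.resolve_right fun z => not_lt.mpr c34 z.1
  have c44 : r 17 < v 5 := (h.e25.resolve_left c36).2.2
  have c45 : v 17 < l 5 := (h.e25.resolve_left c36).1
  have c46 : v 17 < v 15 := lt_of_le_of_lt c37 a22
  have c47 : S39 l v r := h.e39.resolve_right fun z => not_lt.mpr c38 z.2.2
  have c48 : v 0 < l 11 := c43.1
  have c49 : v 0 < r 17 := not_le.mp fun z => L202 h c43 z c27
  have c50 : v 17 < r 4 := lt_of_lt_of_le c45 a2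
  have c51 : v 12 < l 16 := c47.1
  have c52 : r 12 < v 16 := c47.2.2
  have c53 : r 15 < l 11 := lt_trans a24 c48
  have c54 : r 15 < r 17 := lt_trans a24 c49
  have c55 : r 8 < r 17 := lt_trans a26 c49
  have c56 : l 15 ≤ l 16 := le_of_lt (lt_of_le_of_lt a10 c51)
  have c57 : v 4 < l 16 := lt_trans a9 c51
  have c58 : v 4 < v 16 := lt_trans a20 c52
  have c59 : r 15 ≤ r 16 := le_of_lt (lt_of_lt_of_le c53 c32)
  have c60 : v 2 < v 5 := not_le.mp fun z => L214 h z c46 c54 a4 c44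
  have c61 : v 16 ≤ r 4 := not_lt.mp fun z => h.n4_16 c57 a19 z
  have c62 : v 16 < v 13 := lt_of_le_of_lt c61 a21
  have c63 : v 16 ≤ v 1 := le_of_lt (lt_of_le_of_lt c61 a17)
  have c64 : ¬ S13 l v r := fun z => L215 h z c62 c11 a13 c13 a25
  have c65 : r 16 < v 2 := (h.e13.resolve_left c64).2.2
  have c66 : v 16 < l 2 := (h.e13.resolve_left c64).1
  have c67 : r 16 ≤ v 2 := le_of_lt c65
  have c68 : l 1 ≤ v 2 := le_of_lt (lt_of_le_of_lt c39 c65)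
  have c69 : r 4 < v 2 := lt_of_le_of_lt c40 c65
  have c70 : l 8 ≤ v 2 := le_of_lt (lt_of_le_of_lt c41 c65)
  have c71 : r 16 < v 5 := lt_trans c65 c60
  have c72 : v 4 < l 2 := lt_trans c58 c66
  have c73 : S5 l v r := h.e5.resolve_right fun z => not_lt.mpr c68 z.1
  have c74 : ¬ S11 l v r := fun z => not_lt.mpr c70 z.1
  have c75 : l 5 ≤ v 16 := not_lt.mp fun z => h.n16_5 z c42 c71
  have c76 : r 4 ≤ l 2 := not_lt.mp fun z => h.n4_2 c72 z c69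
  have c77 : r 1 < v 2 := c73.2.2
  have c78 : l 2 < r 8 := (h.e11.resolve_left c74).2.1
  have c79 : v 17 ≤ v 16 := le_of_lt (lt_of_lt_of_le c45 c75)
  have c80 : v 17 < l 2 := lt_of_lt_of_le c50 c76
  have c81 : l 2 < r 17 := lt_trans c78 c55
  have c82 : v 2 ≤ r 17 := not_lt.mp fun z => h.n17_2 c80 c81 z
  have c83 : r 16 ≤ r 17 := le_trans c67 c82
  have c84 : r 1 ≤ r 17 := le_of_lt (lt_of_lt_of_le c77 c82)
  have c85 : r 6 < r 1 := not_le.mp fun z => L225 h z c83 c63 c59 c9 a11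
  have c86 : v 6 ≤ r 1 := not_lt.mp fun z => L79 h c85 z
  have c87 : r 6 ≤ l 16 := not_lt.mp fun z => L224 h c85 z c84 c79 c56 a16
  have c88 : ¬ S7 l v r := fun z => not_lt.mpr c86 z.2.2
  have c89 : r 6 ≤ l 1 := le_of_lt (lt_of_le_of_lt c87 a14)
  not_lt.mpr c89 (h.e7.resolve_left c88).2.1

theorem L227 {l v r : ℕ → ℝ} (h : H l v r) (a0 : r 17 ≤ l 5) : False :=
  have c0 : l 5 < v 5 := h.u5_0
  have c1 : l 17 ≤ r 17 := not_lt.mp fun z => L158 h z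
  have c2 : r 17 < v 5 := lt_of_le_of_lt a0 c0
  have c3 : S25 l v r := h.e25.resolve_right fun z => not_lt.mpr a0 z.2.1
  have c4 : l 17 ≤ v 5 := le_of_lt (lt_of_le_of_lt c1 c2)
  not_lt.mpr c4 c3.1

theorem L228 {l v r : ℕ → ℝ} (h : H l v r) (a0 : r 17 < l 5) : False :=
  have c0 : l 5 < r 17 := not_le.mp fun z => L227 h z
  lt_asymm c0 a0

theorem L229 {l v r : ℕ → ℝ} (h : H l v r) (a0 : ¬ S6 l v r) (a1 : r 12 < r 4) (a2 : l 9 ≤ r 4) (a3 : l 16 < r 4) (a4 : l 8 ≤ r 4) (a5 : v 4 < r 12) (a6 : r 4 < v 13) (a7 : l 4 ≤ r 3) (a8 : l 4 < r 10) (a9 : r 4 < l 0) (a10 : r 4 < v 15) (a11 : v 4 < l 15) (a12 : v 12 ≤ l 3) (a13 : r 12 ≤ r 0) (a14 : r 12 < v 3) (a15 : v 12 ≤ v 3) (a16 : v 15 < r 9) (a17 : l 13 < v 9) (a18 : r 3 < r 9) (a19 : r 15 < v 0) (a20 : l 15 < r 3) (a21 : l 15 < v 9) (a22 : l 9 ≤ v 3) (a23 : l 16 ≤ v 3) (a24 : l 0 ≤ r 9) (a25 : l 3 < r 10) (a26 : r 10 ≤ v 8) (a27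 : l 16 ≤ r 15) (a28 : r 8 < v 0) (a29 : l 16 < v 9) : False :=
  have c0 : v 3 ≤ r 3 := not_lt.mp fun z => L177 h z
  have c1 : l 12 ≤ r 4 := not_lt.mp fun z => L212 h z
  have c2 : l 12 ≤ v 12 := not_lt.mp fun z => L125 h z
  have c3 : v 1 ≤ r 1 := not_lt.mp fun z => L30 h z
  have c4 : l 1 < r 11 := not_le.mp fun z => L185 h z
  have c5 : l 5 < r 17 := not_le.mp fun z => L227 h z
  have c6 : r 12 < v 15 := lt_trans a1 a10
  have c7 : r 4 ≤ r 15 := not_lt.mp fun z => L179 h z a10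
  have c8 : r 4 ≤ v 15 := le_of_lt a10
  have c9 : r 12 ≤ v 3 := le_of_lt a14
  have c10 : r 12 ≤ r 3 := le_of_lt (lt_of_lt_of_le a14 c0)
  have c11 : l 1 < r 4 := (h.e6.resolve_left a0).2.1
  have c12 : r 4 < v 1 := (h.e6.resolve_left a0).2.2
  have c13 : l 1 ≤ r 15 := le_of_lt (lt_of_lt_of_le c11 c7)
  have c14 : l 12 ≤ v 1 := le_of_lt (lt_of_le_of_lt c1 c12)
  have c15 : l 8 ≤ v 1 := le_of_lt (lt_of_le_of_lt a4 c12)
  have c16 : l 9 ≤ v 1 := le_of_lt (lt_of_le_of_lt a2 c12)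
  have c17 : ¬ S10 l v r := fun z => not_lt.mpr c14 z.1
  have c18 : ¬ S8 l v r := fun z => not_lt.mpr c16 z.1
  have c19 : l 1 < r 12 := (h.e10.resolve_left c17).2.1
  have c20 : v 12 < l 1 := (h.e10.resolve_left c17).1
  have c21 : r 9 < v 1 := (h.e8.resolve_left c18).2.2
  have c22 : v 9 < l 1 := (h.e8.resolve_left c18).1
  have c23 : l 1 ≤ v 3 := le_of_lt (lt_of_lt_of_le c19 c9)
  have c24 : l 12 ≤ l 1 := le_of_lt (lt_of_le_of_lt c2 c20)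
  have c25 : r 9 < r 1 := lt_of_lt_of_le c21 c3
  have c26 : r 3 < v 1 := lt_trans a18 c21
  have c27 : l 16 < l 1 := lt_trans a29 c22
  have c28 : v 9 < r 12 := lt_trans c22 c19
  have c29 : l 13 < l 1 := lt_trans a17 c22
  have c30 : l 12 ≤ r 11 := le_of_lt (lt_of_le_of_lt c24 c4)
  have c31 : l 0 ≤ r 1 := le_of_lt (lt_of_le_of_lt a24 c25)
  have c32 : v 15 < r 1 := lt_trans a16 c25
  have c33 : l 15 < r 12 := lt_trans a21 c28
  have c34 : l 15 ≤ v 12 := not_lt.mp fun z => h.n12_15 z c33 c6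
  have c35 : v 4 < v 12 := lt_of_lt_of_le a11 c34
  have c36 : S14 l v r := Classical.byContradiction fun z => L223 h z c12 a8 c8 a11 a12 a14 a21 a22 a25 a26
  have c37 : l 5 < r 3 := c36.2.1
  have c38 : v 3 < l 5 := c36.1
  have c39 : r 3 < v 5 := c36.2.2
  have c40 : l 5 < v 1 := lt_trans c37 c26
  have c41 : l 16 ≤ l 5 := le_of_lt (lt_of_le_of_lt a23 c38)
  have c42 : v 12 ≤ l 5 := le_of_lt (lt_of_le_of_lt a15 c38)
  have c43 : l 1 ≤ l 5 := le_of_lt (lt_of_le_of_lt c23 c38)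
  have c44 : l 15 < v 5 := lt_trans a20 c39
  have c45 : r 12 ≤ v 5 := le_of_lt (lt_of_le_of_lt c10 c39)
  have c46 : l 4 ≤ v 5 := le_of_lt (lt_of_le_of_lt a7 c39)
  have c47 : S19 l v r := h.e19.resolve_right fun z => not_lt.mpr c46 z.1
  have c48 : l 5 < r 4 := c47.2.1
  have c49 : l 5 ≤ r 4 := le_of_lt c48
  have c50 : v 12 ≤ r 17 := le_of_lt (lt_of_le_of_lt c42 c5)
  have c51 : v 11 ≤ r 17 := not_lt.mp fun z => L226 h c5 z c49 c45 c44 c43 c42 c41 c40 c35 c34 c32 c31 c29 c27 c15 c13 c12 a1 a3 a5 a6 a10 a13 a19 a27 a28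
  have c52 : S40 l v r := h.e40.resolve_right fun z => not_lt.mpr c50 z.2.2
  have c53 : S37 l v r := h.e37.resolve_right fun z => not_lt.mpr c51 z.2.2
  have c54 : l 17 < r 12 := c52.2.1
  have c55 : v 11 < l 17 := c53.1
  have c56 : r 11 < v 17 := c53.2.2
  have c57 : l 17 ≤ r 0 := le_of_lt (lt_of_lt_of_le c54 a13)
  have c58 : v 11 ≤ r 0 := le_of_lt (lt_of_lt_of_le c55 c57)
  have c59 : r 11 ≤ r 4 := not_lt.mp fun z => L222 h c56 z c35 c30 a1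
  have c60 : ¬ S3 l v r := fun z => not_lt.mpr c58 z.2.2
  have c61 : r 11 ≤ l 0 := le_of_lt (lt_of_le_of_lt c59 a9)
  not_lt.mpr c61 (h.e3.resolve_left c60).2.1

theorem L230 {l v r : ℕ → ℝ} (h : H l v r) (a0 : l 15 ≤ v 12) (a1 : r 4 < r 11) (a2 : l 12 ≤ r 11) (a3 : l 9 < l 15) (a4 : l 11 ≤ r 12) (a5 : v 9 ≤ v 15) (a6 : r 12 < r 4) (a7 : v 4 < l 15) (a8 : v 12 < l 3) (a9 : v 12 < v 9) (a10 : v 12 ≤ v 3) : False :=
  have c0 : l 5 ≤ r 17 := not_lt.mp fun z => L228 h z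
  have c1 : l 15 < l 3 := lt_of_le_of_lt a0 a8
  have c2 : v 4 < v 12 := lt_of_lt_of_le a7 a0
  have c3 : v 17 ≤ r 11 := not_lt.mp fun z => L222 h z a1 c2 a2 a6
  have c4 : ¬ S37 l v r := fun z => not_lt.mpr c3 z.2.2
  have c5 : v 17 < l 11 := (h.e37.resolve_left c4).1
  have c6 : v 17 ≤ r 12 := le_of_lt (lt_of_lt_of_le c5 a4)
  have c7 : ¬ S40 l v r := fun z => not_lt.mpr c6 z.2.2
  have c8 : r 17 < v 12 := (h.e40.resolve_left c7).2.2
  have c9 : r 17 < v 9 := lt_trans c8 a9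
  have c10 : r 17 ≤ v 3 := le_of_lt (lt_of_lt_of_le c8 a10)
  have c11 : l 5 ≤ v 9 := le_of_lt (lt_of_le_of_lt c0 c9)
  have c12 : l 5 ≤ v 3 := le_trans c0 c10
  have c13 : S24 l v r := h.e24.resolve_right fun z => not_lt.mpr c11 z.1
  have c14 : ¬ S14 l v r := fun z => not_lt.mpr c12 z.1
  have c15 : r 5 < v 9 := c13.2.2
  have c16 : v 5 < l 9 := c13.1
  have c17 : l 3 < r 5 := (h.e14.resolve_left c14).2.1
  have c18 : r 5 < v 15 := lt_of_lt_of_le c15 a5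
  have c19 : v 5 < l 15 := lt_trans c16 a3
  have c20 : l 15 < r 5 := lt_trans c1 c17
  h.n5_15 c19 c20 c18

theorem L231 {l v r : ℕ → ℝ} (h : H l v r) (a0 : r 6 < r 1) (a1 : r 1 ≤ v 13) (a2 : r 1 ≤ l 13) : False :=
  have c0 : l 6 ≤ r 6 := not_lt.mp fun z => L99 h z
  have c1 : l 6 < r 1 := lt_of_le_of_lt c0 a0
  have c2 : r 6 ≤ l 13 := le_of_lt (lt_of_lt_of_le a0 a2)
  have c3 : l 6 ≤ v 13 := le_of_lt (lt_of_lt_of_le c1 a1)
  have c4 : ¬ S26 l v r := fun z => not_lt.mpr c2 z.2.1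
  not_lt.mpr c3 (h.e26.resolve_left c4).1

theorem L232 {l v r : ℕ → ℝ} (h : H l v r) (a0 : v 2 ≤ r 17) (a1 : r 17 ≤ r 1) (a2 : r 17 < r 15) (a3 : v 1 ≤ l 15) : False :=
  have c0 : v 2 ≤ r 15 := le_of_lt (lt_of_le_of_lt a0 a2)
  have c1 : v 2 ≤ r 1 := le_trans a0 a1
  have c2 : S12 l v r := h.e12.resolve_right fun z => not_lt.mpr c0 z.2.2
  have c3 : ¬ S5 l v r := fun z => not_lt.mpr c1 z.2.2
  have c4 : l 15 < r 2 := c2.2.1
  have c5 : r 2 < v 1 := (h.e5.resolve_left c3).2.2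
  not_lt.mpr a3 (lt_trans c4 c5)

theorem L233 {l v r : ℕ → ℝ} (h : H l v r) (a0 : l 14 < v 17) (a1 : v 17 ≤ l 3) (a2 : v 17 ≤ v 3) : False :=
  have c0 : l 14 ≤ v 17 := le_of_lt a0
  have c1 : l 14 ≤ v 3 := le_of_lt (lt_of_lt_of_le a0 a2)
  have c2 : S43 l v r := h.e43.resolve_right fun z => not_lt.mpr c0 z.1
  have c3 : ¬ S18 l v r := fun z => not_lt.mpr c1 z.1
  have c4 : r 14 < v 17 := c2.2.2
  have c5 : l 3 < r 14 := (h.e18.resolve_left c3).2.1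
  not_lt.mpr a1 (lt_trans c5 c4)

theorem L234 {l v r : ℕ → ℝ} (h : H l v r) (a0 : ¬ S40 l v r) (a1 : l 3 < l 13) (a2 : l 13 ≤ l 15) (a3 : v 3 < v 13) (a4 : l 12 ≤ l 3) (a5 : l 12 ≤ v 3) (a6 : v 12 ≤ v 15) (a7 : v 12 ≤ v 3) : False :=
  have c0 : l 14 ≤ r 14 := not_lt.mp fun z => L147 h z
  have c1 : v 17 < l 12 := (h.e40.resolve_left a0).1
  have c2 : r 17 < v 12 := (h.e40.resolve_left a0).2.2
  have c3 : v 17 ≤ v 3 := le_of_lt (lt_of_lt_of_le c1 a5)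
  have c4 : v 17 ≤ l 3 := le_of_lt (lt_of_lt_of_le c1 a4)
  have c5 : r 17 ≤ v 3 := le_of_lt (lt_of_lt_of_le c2 a7)
  have c6 : r 17 ≤ v 15 := le_of_lt (lt_of_lt_of_le c2 a6)
  have c7 : v 17 ≤ l 14 := not_lt.mp fun z => L233 h z c4 c3
  have c8 : v 17 ≤ r 14 := le_trans c7 c0
  have c9 : ¬ S43 l v r := fun z => not_lt.mpr c8 z.2.2
  have c10 : l 14 < r 17 := (h.e43.resolve_left c9).2.1
  have c11 : l 14 ≤ v 3 := le_of_lt (lt_of_lt_of_le c10 c5)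
  have c12 : l 14 ≤ v 15 := le_of_lt (lt_of_lt_of_le c10 c6)
  have c13 : ¬ S18 l v r := fun z => not_lt.mpr c11 z.1
  have c14 : S41 l v r := h.e41.resolve_right fun z => not_lt.mpr c12 z.1
  have c15 : v 14 < l 3 := (h.e18.resolve_left c13).1
  have c16 : r 14 < v 3 := (h.e18.resolve_left c13).2.2
  have c17 : l 15 < r 14 := c14.2.1
  have c18 : r 14 < v 13 := lt_trans c16 a3
  have c19 : l 13 < r 14 := lt_of_le_of_lt a2 c17
  have c20 : l 13 ≤ v 14 := not_lt.mp fun z => h.n14_13 z c19 c18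
  not_lt.mpr c20 (lt_trans c15 a1)

theorem L235 {l v r : ℕ → ℝ} (h : H l v r) (a0 : S40 l v r) (a1 : r 12 < r 10) (a2 : v 10 < v 12) (a3 : r 1 ≤ v 0) (a4 : r 1 ≤ r 12) (a5 : r 10 < l 0) : False :=
  have c0 : l 11 < r 1 := not_le.mp fun z => L219 h z
  have c1 : r 12 < v 17 := a0.2.2
  have c2 : l 17 < r 12 := a0.2.1
  have c3 : v 12 < l 17 := a0.1
  have c4 : r 1 ≤ v 17 := le_of_lt (lt_of_le_of_lt a4 c1)
  have c5 : l 17 < r 10 := lt_trans c2 a1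
  have c6 : v 10 < l 17 := lt_trans a2 c3
  have c7 : l 0 < v 17 := not_le.mp fun z => L218 h c0 z a3 c4
  have c8 : v 17 ≤ r 10 := not_lt.mp fun z => h.n10_17 c6 c5 z
  not_lt.mpr c8 (lt_trans a5 c7)

theorem L236 {l v r : ℕ → ℝ} (h : H l v r) (a0 : v 4 ≤ r 15) (a1 : r 12 ≤ r 0) (a2 : l 12 ≤ l 0) (a3 : v 12 ≤ v 15) (a4 : v 15 < r 9) (a5 : v 15 ≤ l 0) (a6 : r 3 < r 9) (a7 : r 15 < v 0) (a8 : l 0 ≤ r 9) (a9 : l 15 < r 10) (a10 : r 10 < l 0) (a11 : l 16 ≤ r 15) (a12 : v 9 ≤ l 8) (a13 : r 8 < v 0) (a14 : r 10 < v 9) : False :=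
  have c0 : l 16 < r 10 := not_le.mp fun z => L189 h z
  have c1 : l 16 ≤ r 10 := not_lt.mp fun z => L190 h z
  have c2 : l 10 ≤ r 10 := not_lt.mp fun z => L52 h z
  have c3 : v 9 ≤ r 9 := not_lt.mp fun z => L48 h z
  have c4 : l 8 ≤ r 8 := not_lt.mp fun z => L111 h z
  have c5 : l 12 ≤ l 13 := not_lt.mp fun z => L90 h z
  have c6 : v 13 < r 13 := h.u13_1
  have c7 : l 8 < v 8 := h.u8_0
  have c8 : l 3 ≤ r 13 := not_lt.mp fun z => L182 h z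
  have c9 : v 12 ≤ l 13 := not_lt.mp fun z => L143 h z
  have c10 : l 8 < r 3 := not_le.mp fun z => L216 h z
  have c11 : l 13 < r 12 := not_le.mp fun z => L83 h z
  have c12 : l 11 < r 1 := not_le.mp fun z => L219 h z
  have c13 : l 13 ≤ r 12 := not_lt.mp fun z => L88 h z
  have c14 : l 5 ≤ r 17 := not_lt.mp fun z => L228 h z
  have c15 : r 10 ≤ v 9 := le_of_lt a14
  have c16 : r 10 ≤ l 8 := le_trans c15 a12
  have c17 : r 10 ≤ r 3 := le_of_lt (lt_of_le_of_lt c16 c10)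
  have c18 : v 10 ≤ v 9 := not_lt.mp fun z => L105 h a14 z
  have c19 : v 10 ≤ l 8 := le_trans c18 a12
  have c20 : v 10 ≤ r 3 := le_of_lt (lt_of_le_of_lt c19 c10)
  have c21 : ¬ S16 l v r := fun z => not_lt.mpr c20 z.2.2
  have c22 : v 10 < l 3 := (h.e16.resolve_left c21).1
  have c23 : v 10 ≤ r 13 := le_of_lt (lt_of_lt_of_le c22 c8)
  have c24 : S33 l v r := h.e33.resolve_right fun z => not_lt.mpr c23 z.2.2
  have c25 : l 13 < r 10 := c24.2.1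
  have c26 : v 12 < r 10 := lt_of_le_of_lt c9 c25
  have c27 : v 12 ≤ r 3 := le_of_lt (lt_of_lt_of_le c26 c17)
  have c28 : ¬ S17 l v r := fun z => not_lt.mpr c27 z.2.2
  have c29 : v 12 < l 3 := (h.e17.resolve_left c28).1
  have c30 : l 12 ≤ l 3 := not_lt.mp fun z => L126 h c29 z
  have c31 : v 12 ≤ l 3 := le_of_lt c29
  have c32 : r 10 ≤ v 8 := le_of_lt (lt_of_le_of_lt c16 c7)
  have c33 : l 3 < r 10 := (h.e16.resolve_left c21).2.1
  have c34 : l 3 ≤ v 8 := le_of_lt (lt_of_lt_of_le c33 c32)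
  have c35 : S15 l v r := h.e15.resolve_right fun z => not_lt.mpr c34 z.1
  have c36 : v 3 < l 8 := c35.1
  have c37 : r 12 < v 3 := (h.e17.resolve_left c28).2.2
  have c38 : r 12 < l 8 := lt_trans c37 c36
  have c39 : l 15 ≤ r 10 := le_of_lt a9
  have c40 : r 10 < v 13 := c24.2.2
  have c41 : r 10 < r 13 := lt_trans c40 c6
  have c42 : l 15 ≤ r 13 := le_of_lt (lt_of_le_of_lt c39 c41)
  have c43 : r 10 < v 3 := (h.e16.resolve_left c21).2.2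
  have c44 : l 12 ≤ r 10 := le_of_lt (lt_of_le_of_lt c5 c25)
  have c45 : l 12 ≤ v 3 := le_of_lt (lt_of_le_of_lt c44 c43)
  have c46 : v 12 < v 9 := lt_trans c26 a14
  have c47 : r 10 ≤ v 3 := le_of_lt c43
  have c48 : v 12 ≤ v 3 := le_of_lt (lt_of_lt_of_le c26 c47)
  have c49 : l 13 < v 9 := lt_trans c25 a14
  have c50 : l 15 ≤ r 3 := le_of_lt (lt_of_lt_of_le a9 c17)
  have c51 : r 10 < r 3 := lt_of_le_of_lt c16 c10
  have c52 : l 15 < r 3 := lt_trans a9 c51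
  have c53 : r 10 ≤ r 8 := le_trans c16 c4
  have c54 : l 15 ≤ r 8 := le_of_lt (lt_of_lt_of_le a9 c53)
  have c55 : r 10 ≤ r 9 := le_of_lt (lt_of_lt_of_le a14 c3)
  have c56 : l 15 ≤ r 9 := le_of_lt (lt_of_lt_of_le a9 c55)
  have c57 : l 15 < v 9 := lt_trans a9 a14
  have c58 : l 10 ≤ v 9 := le_of_lt (lt_of_le_of_lt c2 a14)
  have c59 : ¬ S31 l v r := fun z => not_lt.mpr c58 z.1
  have c60 : l 9 < r 10 := (h.e31.resolve_left c59).2.1
  have c61 : l 9 ≤ r 10 := le_of_lt c60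
  have c62 : l 9 ≤ v 3 := le_of_lt (lt_of_le_of_lt c61 c43)
  have c63 : l 16 ≤ v 3 := le_of_lt (lt_of_le_of_lt c1 c43)
  have c64 : l 16 < v 9 := lt_trans c0 a14
  have c65 : l 16 < l 8 := lt_of_lt_of_le c64 a12
  have c66 : l 9 ≤ l 8 := not_lt.mp fun z => L148 h z a12
  have c67 : v 10 < l 9 := (h.e31.resolve_left c59).1
  have c68 : S22 l v r := h.e22.resolve_right fun z => not_lt.mpr a0 z.2.2
  have c69 : v 4 ≤ v 0 := le_of_lt (lt_of_le_of_lt a0 a7)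
  have c70 : v 4 < l 15 := c68.1
  have c71 : r 4 < v 15 := c68.2.2
  have c72 : l 4 < l 15 := not_le.mp fun z => L27 h c70 z
  have c73 : v 4 ≤ l 15 := le_of_lt c70
  have c74 : v 4 ≤ r 13 := le_of_lt (lt_of_lt_of_le c70 c42)
  have c75 : v 4 ≤ r 8 := le_of_lt (lt_of_lt_of_le c70 c54)
  have c76 : r 4 < l 0 := lt_of_lt_of_le c71 a5
  have c77 : l 4 < r 10 := lt_trans c72 a9
  have c78 : l 4 ≤ r 9 := le_of_lt (lt_of_lt_of_le c72 c56)
  have c79 : l 4 ≤ r 3 := le_of_lt (lt_of_lt_of_le c72 c50)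
  have c80 : S21 l v r := h.e21.resolve_right fun z => not_lt.mpr c74 z.2.2
  have c81 : S20 l v r := h.e20.resolve_right fun z => not_lt.mpr c75 z.2.2
  have c82 : v 4 < l 13 := c80.1
  have c83 : r 4 < v 13 := c80.2.2
  have c84 : l 8 < r 4 := c81.2.1
  have c85 : v 4 < r 12 := lt_trans c82 c11
  have c86 : v 4 ≤ r 12 := not_lt.mp fun z => L156 h z c82
  have c87 : r 4 ≤ v 13 := le_of_lt c83
  have c88 : l 8 ≤ r 4 := le_of_lt c84
  have c89 : l 16 < r 4 := lt_trans c65 c84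
  have c90 : v 3 < r 4 := lt_trans c36 c84
  have c91 : v 9 ≤ r 4 := le_of_lt (lt_of_le_of_lt a12 c84)
  have c92 : l 9 ≤ r 4 := le_of_lt (lt_of_le_of_lt c66 c84)
  have c93 : r 12 < r 4 := lt_trans c38 c84
  have c94 : l 4 ≤ r 12 := not_lt.mp fun z => L171 h c85 z
  have c95 : v 3 < v 13 := lt_of_lt_of_le c90 c87
  have c96 : v 9 ≤ v 13 := le_trans c91 c87
  have c97 : v 9 ≤ v 15 := le_of_lt (lt_of_le_of_lt c91 c71)
  have c98 : r 12 < v 15 := lt_trans c93 c71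
  have c99 : S6 l v r := Classical.byContradiction fun z => L229 h z c93 c92 c89 c88 c85 c83 c79 c77 c76 c71 c70 c31 a1 c37 c48 a4 c49 a6 a7 c52 c57 c62 c63 a8 c33 c32 a11 a13 c64
  have c100 : v 1 < l 4 := c99.1
  have c101 : r 1 < v 4 := c99.2.2
  have c102 : v 1 ≤ r 12 := le_of_lt (lt_of_lt_of_le c100 c94)
  have c103 : v 1 ≤ r 9 := le_of_lt (lt_of_lt_of_le c100 c78)
  have c104 : r 1 ≤ r 12 := le_of_lt (lt_of_lt_of_le c101 c86)
  have c105 : r 1 < l 13 := lt_trans c101 c82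
  have c106 : l 11 < v 4 := lt_trans c12 c101
  have c107 : r 1 ≤ l 15 := le_of_lt (lt_of_lt_of_le c101 c73)
  have c108 : r 1 ≤ v 0 := le_of_lt (lt_of_lt_of_le c101 c69)
  have c109 : S10 l v r := h.e10.resolve_right fun z => not_lt.mpr c102 z.2.2
  have c110 : S8 l v r := h.e8.resolve_right fun z => not_lt.mpr c103 z.2.2
  have c111 : l 11 ≤ r 12 := le_of_lt (lt_of_lt_of_le c12 c104)
  have c112 : l 11 ≤ v 0 := le_of_lt (lt_of_lt_of_le c106 c69)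
  have c113 : r 1 < v 12 := c109.2.2
  have c114 : l 9 < r 1 := c110.2.1
  have c115 : ¬ S3 l v r := fun z => not_lt.mpr c112 z.1
  have c116 : r 1 ≤ v 12 := le_of_lt c113
  have c117 : v 10 < r 1 := lt_trans c67 c114
  have c118 : l 9 < l 13 := lt_trans c114 c105
  have c119 : l 9 < l 15 := lt_of_lt_of_le c114 c107
  have c120 : l 0 < r 11 := (h.e3.resolve_left c115).2.1
  have c121 : v 10 < v 12 := lt_of_lt_of_le c117 c116
  have c122 : l 12 ≤ r 11 := le_of_lt (lt_of_le_of_lt a2 c120)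
  have c123 : r 4 < r 11 := lt_trans c76 c120
  have c124 : v 12 < l 15 := not_le.mp fun z => L230 h z c123 c122 c119 c111 c97 c93 c70 c29 c46 c48
  have c125 : r 12 ≤ l 15 := not_lt.mp fun z => h.n12_15 c124 z c98
  have c126 : l 13 ≤ l 15 := le_trans c13 c125
  have c127 : r 12 < r 10 := lt_of_le_of_lt c125 a9
  have c128 : ¬ S40 l v r := fun z => L235 h z c127 c121 c108 c104 a10
  have c129 : r 17 < v 12 := (h.e40.resolve_left c128).2.2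
  have c130 : l 13 ≤ l 3 := not_lt.mp fun z => L234 h c128 z c126 c95 c30 c45 a3 c48
  have c131 : r 17 < v 9 := lt_trans c129 c46
  have c132 : r 17 ≤ v 3 := le_of_lt (lt_of_lt_of_le c129 c48)
  have c133 : l 5 ≤ v 9 := le_of_lt (lt_of_le_of_lt c14 c131)
  have c134 : l 5 ≤ v 3 := le_trans c14 c132
  have c135 : S24 l v r := h.e24.resolve_right fun z => not_lt.mpr c133 z.1
  have c136 : ¬ S14 l v r := fun z => not_lt.mpr c134 z.1
  have c137 : r 5 < v 9 := c135.2.2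
  have c138 : v 5 < l 9 := c135.1
  have c139 : l 3 < r 5 := (h.e14.resolve_left c136).2.1
  have c140 : r 5 < v 13 := lt_of_lt_of_le c137 c96
  have c141 : v 5 < l 13 := lt_trans c138 c118
  have c142 : l 13 < r 5 := lt_of_le_of_lt c130 c139
  h.n5_13 c141 c142 c140

theorem L237 {l v r : ℕ → ℝ} (h : H l v r) (a0 : r 17 < v 12) (a1 : v 9 ≤ l 4) (a2 : v 12 < v 4) (a3 : v 12 < v 9) : False :=
  have c0 : l 5 ≤ r 17 := not_lt.mp fun z => L228 h z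
  have c1 : r 17 < v 9 := lt_trans a0 a3
  have c2 : l 5 ≤ v 12 := le_of_lt (lt_of_le_of_lt c0 a0)
  have c3 : l 5 ≤ v 9 := le_of_lt (lt_of_le_of_lt c0 c1)
  have c4 : l 5 ≤ v 4 := le_of_lt (lt_of_le_of_lt c2 a2)
  have c5 : S24 l v r := h.e24.resolve_right fun z => not_lt.mpr c3 z.1
  have c6 : ¬ S19 l v r := fun z => not_lt.mpr c4 z.1
  have c7 : r 5 < v 9 := c5.2.2
  have c8 : l 4 < r 5 := (h.e19.resolve_left c6).2.1
  not_lt.mpr a1 (lt_trans c8 c7)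

theorem L238 {l v r : ℕ → ℝ} (h : H l v r) (a0 : S24 l v r) (a1 : v 9 ≤ l 4) (a2 : l 9 ≤ r 4) : False :=
  have c0 : r 5 < v 9 := a0.2.2
  have c1 : v 5 < l 9 := a0.1
  have c2 : r 5 ≤ l 4 := le_of_lt (lt_of_lt_of_le c0 a1)
  have c3 : v 5 ≤ r 4 := le_of_lt (lt_of_lt_of_le c1 a2)
  have c4 : S19 l v r := h.e19.resolve_right fun z => not_lt.mpr c2 z.2.1
  not_lt.mpr c3 c4.2.2

theorem L239 {l v r : ℕ → ℝ} (h : H l v r) (a0 : v 9 ≤ l 8) (a1 : v 8 < l 0) (a2 : r 10 < v 9) : False :=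
  have c0 : v 9 ≤ r 9 := not_lt.mp fun z => L48 h z
  have c1 : l 16 ≤ r 10 := not_lt.mp fun z => L190 h z
  have c2 : l 0 ≤ r 0 := not_lt.mp fun z => L26 h z
  have c3 : l 0 ≤ v 0 := not_lt.mp fun z => L64 h z
  have c4 : l 0 < r 15 := not_le.mp fun z => L205 h z
  have c5 : l 8 ≤ v 8 := not_lt.mp fun z => L110 h z
  have c6 : l 0 ≤ r 15 := not_lt.mp fun z => L206 h z
  have c7 : l 4 ≤ r 8 := not_lt.mp fun z => L199 h z
  have c8 : l 8 < v 8 := h.u8_0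
  have c9 : l 8 < r 3 := not_le.mp fun z => L216 h z
  have c10 : l 3 ≤ r 13 := not_lt.mp fun z => L182 h z
  have c11 : v 12 ≤ l 13 := not_lt.mp fun z => L143 h z
  have c12 : l 12 ≤ l 13 := not_lt.mp fun z => L90 h z
  have c13 : v 4 ≤ r 4 := not_lt.mp fun z => L13 h z
  have c14 : v 17 ≤ r 17 := not_lt.mp fun z => L157 h z
  have c15 : v 8 ≤ r 0 := not_lt.mp fun z => L35 h z a1
  have c16 : ¬ S1 l v r := fun z => not_lt.mpr c15 z.2.2
  have c17 : r 8 < v 0 := (h.e1.resolve_left c16).2.2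
  have c18 : l 4 ≤ v 0 := le_of_lt (lt_of_le_of_lt c7 c17)
  have c19 : l 8 ≤ l 0 := le_of_lt (lt_of_le_of_lt c5 a1)
  have c20 : l 8 ≤ r 15 := le_trans c19 c6
  have c21 : l 8 < r 15 := lt_of_le_of_lt c19 c4
  have c22 : v 8 < v 0 := lt_of_lt_of_le a1 c3
  have c23 : l 8 < v 0 := lt_trans c8 c22
  have c24 : v 8 < r 0 := lt_of_lt_of_le a1 c2
  have c25 : l 8 ≤ r 0 := le_of_lt (lt_of_le_of_lt c5 c24)
  have c26 : v 8 ≤ l 0 := le_of_lt a1
  have c27 : l 8 < l 0 := lt_trans c8 a1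
  have c28 : v 8 ≤ r 15 := le_of_lt (lt_of_lt_of_le a1 c6)
  have c29 : l 16 ≤ v 9 := le_of_lt (lt_of_le_of_lt c1 a2)
  have c30 : v 10 ≤ v 9 := not_lt.mp fun z => L105 h a2 z
  have c31 : r 10 ≤ v 9 := le_of_lt a2
  have c32 : r 10 ≤ r 9 := le_of_lt (lt_of_lt_of_le a2 c0)
  have c33 : v 10 ≤ l 8 := le_trans c30 a0
  have c34 : l 16 ≤ l 8 := le_trans c29 a0
  have c35 : r 10 ≤ l 8 := le_trans c31 a0
  have c36 : l 9 < l 8 := not_le.mp fun z => L117 h z a0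
  have c37 : v 9 ≤ v 8 := not_lt.mp fun z => L160 h z a0
  have c38 : v 9 ≤ r 0 := le_trans a0 c25
  have c39 : v 10 ≤ r 3 := le_of_lt (lt_of_le_of_lt c33 c9)
  have c40 : v 10 ≤ r 15 := le_of_lt (lt_of_le_of_lt c33 c21)
  have c41 : l 16 ≤ r 15 := le_of_lt (lt_of_le_of_lt c34 c21)
  have c42 : r 10 ≤ v 8 := le_of_lt (lt_of_le_of_lt c35 c8)
  have c43 : r 10 ≤ r 3 := le_of_lt (lt_of_le_of_lt c35 c9)
  have c44 : r 10 ≤ l 0 := le_trans c35 c19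
  have c45 : r 10 < l 0 := lt_of_le_of_lt c35 c27
  have c46 : r 10 ≤ v 0 := le_of_lt (lt_of_le_of_lt c35 c23)
  have c47 : r 10 ≤ r 15 := le_of_lt (lt_of_le_of_lt c35 c21)
  have c48 : l 9 < r 15 := lt_trans c36 c21
  have c49 : ¬ S2 l v r := fun z => not_lt.mpr c38 z.2.2
  have c50 : ¬ S16 l v r := fun z => not_lt.mpr c39 z.2.2
  have c51 : S34 l v r := h.e34.resolve_right fun z => not_lt.mpr c40 z.2.2
  have c52 : l 0 < r 9 := (h.e2.resolve_left c49).2.1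
  have c53 : l 3 < r 10 := (h.e16.resolve_left c50).2.1
  have c54 : v 10 < l 3 := (h.e16.resolve_left c50).1
  have c55 : l 15 < r 10 := c51.2.1
  have c56 : r 10 < v 15 := c51.2.2
  have c57 : l 0 ≤ r 9 := le_of_lt c52
  have c58 : v 8 < r 9 := lt_trans a1 c52
  have c59 : l 8 ≤ r 9 := le_of_lt (lt_of_le_of_lt c19 c52)
  have c60 : l 3 ≤ v 8 := le_of_lt (lt_of_lt_of_le c53 c42)
  have c61 : l 3 ≤ r 9 := le_of_lt (lt_of_lt_of_le c53 c32)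
  have c62 : v 10 ≤ r 13 := le_of_lt (lt_of_lt_of_le c54 c10)
  have c63 : l 15 ≤ v 0 := le_of_lt (lt_of_lt_of_le c55 c46)
  have c64 : r 10 ≤ v 15 := le_of_lt c56
  have c65 : S15 l v r := h.e15.resolve_right fun z => not_lt.mpr c60 z.1
  have c66 : S33 l v r := h.e33.resolve_right fun z => not_lt.mpr c62 z.2.2
  have c67 : ¬ S4 l v r := fun z => not_lt.mpr c63 z.1
  have c68 : v 3 < l 8 := c65.1
  have c69 : r 3 < v 8 := c65.2.2
  have c70 : l 13 < r 10 := c66.2.1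
  have c71 : v 15 < l 0 := (h.e4.resolve_left c67).1
  have c72 : r 15 < v 0 := (h.e4.resolve_left c67).2.2
  have c73 : v 3 ≤ r 0 := le_of_lt (lt_of_lt_of_le c68 c25)
  have c74 : v 3 ≤ r 9 := le_of_lt (lt_of_lt_of_le c68 c59)
  have c75 : r 3 ≤ r 15 := le_of_lt (lt_of_lt_of_le c69 c28)
  have c76 : r 3 ≤ l 0 := le_of_lt (lt_of_lt_of_le c69 c26)
  have c77 : r 3 < r 9 := lt_trans c69 c58
  have c78 : v 12 < r 10 := lt_of_le_of_lt c11 c70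
  have c79 : l 12 ≤ r 10 := le_of_lt (lt_of_le_of_lt c12 c70)
  have c80 : v 15 ≤ l 0 := le_of_lt c71
  have c81 : v 15 < r 9 := lt_trans c71 c52
  have c82 : v 12 ≤ r 3 := le_of_lt (lt_of_lt_of_le c78 c43)
  have c83 : v 12 < v 9 := lt_trans c78 a2
  have c84 : v 12 ≤ r 15 := le_of_lt (lt_of_lt_of_le c78 c47)
  have c85 : v 12 ≤ v 15 := le_of_lt (lt_of_lt_of_le c78 c64)
  have c86 : l 12 ≤ l 0 := le_trans c79 c44
  have c87 : ¬ S17 l v r := fun z => not_lt.mpr c82 z.2.2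
  have c88 : r 12 < v 3 := (h.e17.resolve_left c87).2.2
  have c89 : r 12 ≤ r 9 := le_of_lt (lt_of_lt_of_le c88 c74)
  have c90 : r 12 ≤ r 0 := le_of_lt (lt_of_lt_of_le c88 c73)
  have c91 : r 15 < v 4 := not_le.mp fun z => L236 h z c90 c86 c85 c81 c80 c77 c72 c57 c55 c45 c41 a0 c17 a2
  have c92 : r 15 ≤ r 4 := le_of_lt (lt_of_lt_of_le c91 c13)
  have c93 : v 12 < v 4 := lt_of_le_of_lt c84 c91
  have c94 : l 8 ≤ v 4 := le_of_lt (lt_of_le_of_lt c20 c91)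
  have c95 : r 3 ≤ v 4 := le_of_lt (lt_of_le_of_lt c75 c91)
  have c96 : l 9 ≤ r 4 := le_of_lt (lt_of_lt_of_le c48 c92)
  have c97 : ¬ S20 l v r := fun z => not_lt.mpr c94 z.1
  have c98 : v 8 < l 4 := (h.e20.resolve_left c97).1
  have c99 : v 9 ≤ l 4 := le_of_lt (lt_of_le_of_lt c37 c98)
  have c100 : v 12 ≤ r 17 := not_lt.mp fun z => L237 h z c99 c93 c83
  have c101 : S40 l v r := h.e40.resolve_right fun z => not_lt.mpr c100 z.2.2
  have c102 : r 12 < v 17 := c101.2.2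
  have c103 : l 17 < r 12 := c101.2.1
  have c104 : l 1 ≤ v 17 := not_lt.mp fun z => L187 h c102 z
  have c105 : l 17 ≤ r 9 := le_of_lt (lt_of_lt_of_le c103 c89)
  have c106 : l 17 ≤ r 0 := le_of_lt (lt_of_lt_of_le c103 c90)
  have c107 : l 1 ≤ r 17 := le_trans c104 c14
  have c108 : ¬ S24 l v r := fun z => L238 h z c99 c96
  have c109 : r 9 < v 5 := (h.e24.resolve_left c108).2.2
  have c110 : l 3 ≤ v 5 := le_of_lt (lt_of_le_of_lt c61 c109)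
  have c111 : l 0 ≤ v 5 := le_of_lt (lt_of_le_of_lt c57 c109)
  have c112 : l 17 ≤ v 5 := le_of_lt (lt_of_le_of_lt c105 c109)
  have c113 : S14 l v r := h.e14.resolve_right fun z => not_lt.mpr c110 z.1
  have c114 : ¬ S25 l v r := fun z => not_lt.mpr c112 z.1
  have c115 : l 5 < r 3 := c113.2.1
  have c116 : r 17 < v 5 := (h.e25.resolve_left c114).2.2
  have c117 : v 17 < l 5 := (h.e25.resolve_left c114).1
  have c118 : l 5 ≤ l 0 := le_of_lt (lt_of_lt_of_le c115 c76)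
  have c119 : l 5 ≤ v 4 := le_of_lt (lt_of_lt_of_le c115 c95)
  have c120 : v 17 ≤ v 4 := le_of_lt (lt_of_lt_of_le c117 c119)
  have c121 : v 17 ≤ l 0 := le_of_lt (lt_of_lt_of_le c117 c118)
  have c122 : ¬ S19 l v r := fun z => not_lt.mpr c119 z.1
  have c123 : l 1 ≤ v 4 := le_trans c104 c120
  have c124 : v 5 < l 4 := (h.e19.resolve_left c122).1
  have c125 : S6 l v r := h.e6.resolve_right fun z => not_lt.mpr c123 z.1
  have c126 : l 0 ≤ l 4 := le_of_lt (lt_of_le_of_lt c111 c124)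
  have c127 : v 5 ≤ v 0 := le_of_lt (lt_of_lt_of_le c124 c18)
  have c128 : l 4 < r 1 := c125.2.1
  have c129 : l 0 ≤ r 1 := le_of_lt (lt_of_le_of_lt c126 c128)
  have c130 : r 17 ≤ v 0 := le_of_lt (lt_of_lt_of_le c116 c127)
  have c131 : ¬ S3 l v r := fun z => L202 h z c130 c106
  have c132 : l 0 < r 11 := (h.e3.resolve_left c131).2.1
  have c133 : v 11 < l 0 := (h.e3.resolve_left c131).1
  have c134 : v 17 ≤ r 11 := le_of_lt (lt_of_le_of_lt c121 c132)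
  have c135 : v 11 ≤ r 1 := le_of_lt (lt_of_lt_of_le c133 c129)
  have c136 : ¬ S37 l v r := fun z => not_lt.mpr c134 z.2.2
  have c137 : ¬ S9 l v r := fun z => not_lt.mpr c135 z.2.2
  have c138 : r 17 < v 11 := (h.e37.resolve_left c136).2.2
  have c139 : v 11 < l 1 := (h.e9.resolve_left c137).1
  not_lt.mpr c107 (lt_trans c138 c139)

theorem L240 {l v r : ℕ → ℝ} (h : H l v r) (a0 : r 10 ≤ l 8) (a1 : v 12 < r 10) (a2 : S40 l v r) (a3 : r 10 ≤ v 8) (a4 : l 0 < l 4) (a5 : v 5 ≤ v 0) (a6 : v 5 ≤ v 4) (a7 : r 10 ≤ v 5) (a8 : v 8 < l 0) : False :=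
  have c0 : l 0 ≤ r 0 := not_lt.mp fun z => L26 h z
  have c1 : v 17 < r 17 := h.u17_1
  have c2 : v 17 ≤ r 17 := not_lt.mp fun z => L157 h z
  have c3 : l 8 < r 3 := not_le.mp fun z => L216 h z
  have c4 : v 3 ≤ r 3 := not_lt.mp fun z => L177 h z
  have c5 : r 12 < v 17 := a2.2.2
  have c6 : l 1 ≤ v 17 := not_lt.mp fun z => L187 h c5 z
  have c7 : l 1 ≤ r 17 := le_trans c6 c2
  have c8 : l 1 < r 17 := lt_of_le_of_lt c6 c1
  have c9 : l 17 < r 12 := a2.2.1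
  have c10 : v 8 ≤ l 0 := le_of_lt a8
  have c11 : v 8 < r 0 := lt_of_lt_of_le a8 c0
  have c12 : v 10 ≤ l 8 := not_lt.mp fun z => L74 h z a0
  have c13 : r 10 ≤ r 3 := le_of_lt (lt_of_le_of_lt a0 c3)
  have c14 : v 10 ≤ r 3 := le_of_lt (lt_of_le_of_lt c12 c3)
  have c15 : v 12 ≤ r 3 := le_of_lt (lt_of_lt_of_le a1 c13)
  have c16 : ¬ S16 l v r := fun z => not_lt.mpr c14 z.2.2
  have c17 : ¬ S17 l v r := fun z => not_lt.mpr c15 z.2.2
  have c18 : l 3 < r 10 := (h.e16.resolve_left c16).2.1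
  have c19 : r 12 < v 3 := (h.e17.resolve_left c17).2.2
  have c20 : l 3 ≤ v 8 := le_of_lt (lt_of_lt_of_le c18 a3)
  have c21 : l 3 ≤ v 5 := le_of_lt (lt_of_lt_of_le c18 a7)
  have c22 : r 12 ≤ r 3 := le_of_lt (lt_of_lt_of_le c19 c4)
  have c23 : S15 l v r := h.e15.resolve_right fun z => not_lt.mpr c20 z.1
  have c24 : S14 l v r := h.e14.resolve_right fun z => not_lt.mpr c21 z.1
  have c25 : l 17 ≤ r 3 := le_of_lt (lt_of_lt_of_le c9 c22)
  have c26 : r 3 < v 8 := c23.2.2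
  have c27 : l 5 < r 3 := c24.2.1
  have c28 : r 3 < v 5 := c24.2.2
  have c29 : l 17 ≤ v 8 := le_of_lt (lt_of_le_of_lt c25 c26)
  have c30 : r 3 ≤ l 0 := le_of_lt (lt_of_lt_of_le c26 c10)
  have c31 : l 5 ≤ l 0 := le_of_lt (lt_of_lt_of_le c27 c30)
  have c32 : l 17 ≤ v 5 := le_of_lt (lt_of_le_of_lt c25 c28)
  have c33 : l 17 ≤ r 0 := le_of_lt (lt_of_le_of_lt c29 c11)
  have c34 : ¬ S25 l v r := fun z => not_lt.mpr c32 z.1
  have c35 : r 17 < v 5 := (h.e25.resolve_left c34).2.2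
  have c36 : v 17 < l 5 := (h.e25.resolve_left c34).1
  have c37 : l 1 < v 5 := lt_trans c8 c35
  have c38 : r 17 ≤ v 0 := le_of_lt (lt_of_lt_of_le c35 a5)
  have c39 : v 17 ≤ l 0 := le_of_lt (lt_of_lt_of_le c36 c31)
  have c40 : l 1 ≤ v 4 := le_of_lt (lt_of_lt_of_le c37 a6)
  have c41 : ¬ S3 l v r := fun z => L202 h z c38 c33
  have c42 : S6 l v r := h.e6.resolve_right fun z => not_lt.mpr c40 z.1
  have c43 : l 0 < r 11 := (h.e3.resolve_left c41).2.1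
  have c44 : v 11 < l 0 := (h.e3.resolve_left c41).1
  have c45 : l 4 < r 1 := c42.2.1
  have c46 : v 17 ≤ r 11 := le_of_lt (lt_of_le_of_lt c39 c43)
  have c47 : v 11 ≤ l 0 := le_of_lt c44
  have c48 : l 0 < r 1 := lt_trans a4 c45
  have c49 : ¬ S37 l v r := fun z => not_lt.mpr c46 z.2.2
  have c50 : v 11 ≤ r 1 := le_of_lt (lt_of_le_of_lt c47 c48)
  have c51 : r 17 < v 11 := (h.e37.resolve_left c49).2.2
  have c52 : ¬ S9 l v r := fun z => not_lt.mpr c50 z.2.2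
  have c53 : l 1 ≤ v 11 := le_of_lt (lt_of_le_of_lt c7 c51)
  not_lt.mpr c53 (h.e9.resolve_left c52).1

theorem L241 {l v r : ℕ → ℝ} (h : H l v r) (a0 : S14 l v r) (a1 : l 8 ≤ r 10) (a2 : l 5 ≤ r 8) (a3 : v 10 ≤ l 5) : False :=
  have c0 : l 5 < r 3 := a0.2.1
  have c1 : v 3 < l 5 := a0.1
  have c2 : v 10 ≤ r 3 := le_of_lt (lt_of_le_of_lt a3 c0)
  have c3 : v 3 ≤ r 8 := le_of_lt (lt_of_lt_of_le c1 a2)
  have c4 : ¬ S16 l v r := fun z => not_lt.mpr c2 z.2.2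
  have c5 : S15 l v r := h.e15.resolve_right fun z => not_lt.mpr c3 z.2.2
  have c6 : r 10 < v 3 := (h.e16.resolve_left c4).2.2
  have c7 : v 3 < l 8 := c5.1
  not_lt.mpr a1 (lt_trans c6 c7)

theorem L242 {l v r : ℕ → ℝ} (h : H l v r) (a0 : ¬ S14 l v r) (a1 : l 10 ≤ r 5) (a2 : r 10 ≤ v 5) : False :=
  have c0 : v 5 < l 3 := (h.e14.resolve_left a0).1
  have c1 : r 5 < v 3 := (h.e14.resolve_left a0).2.2
  have c2 : r 10 ≤ l 3 := le_of_lt (lt_of_le_of_lt a2 c0)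
  have c3 : l 10 ≤ v 3 := le_of_lt (lt_of_le_of_lt a1 c1)
  have c4 : S16 l v r := h.e16.resolve_right fun z => not_lt.mpr c2 z.2.1
  not_lt.mpr c3 c4.1

theorem L243 {l v r : ℕ → ℝ} (h : H l v r) (a0 : ¬ S19 l v r) (a1 : S40 l v r) (a2 : S14 l v r) (a3 : l 8 ≤ r 5) (a4 : l 9 ≤ v 5) (a5 : r 10 ≤ v 5) (a6 : r 9 ≤ v 5) (a7 : v 10 ≤ l 5) (a8 : v 8 < l 0) : False :=
  have c0 : l 4 < r 8 := not_le.mp fun z => L198 h z
  have c1 : l 4 ≤ r 8 := not_lt.mp fun z => L199 h z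
  have c2 : l 3 ≤ r 13 := not_lt.mp fun z => L182 h z
  have c3 : v 12 ≤ l 13 := not_lt.mp fun z => L143 h z
  have c4 : v 5 ≤ r 5 := not_lt.mp fun z => L36 h z
  have c5 : l 5 ≤ v 5 := not_lt.mp fun z => L135 h z
  have c6 : l 8 ≤ v 8 := not_lt.mp fun z => L110 h z
  have c7 : l 5 < r 3 := a2.2.1
  have c8 : v 10 ≤ r 3 := le_of_lt (lt_of_le_of_lt a7 c7)
  have c9 : ¬ S16 l v r := fun z => not_lt.mpr c8 z.2.2
  have c10 : v 10 < l 3 := (h.e16.resolve_left c9).1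
  have c11 : v 10 ≤ r 13 := le_of_lt (lt_of_lt_of_le c10 c2)
  have c12 : S33 l v r := h.e33.resolve_right fun z => not_lt.mpr c11 z.2.2
  have c13 : l 13 < r 10 := c12.2.1
  have c14 : v 12 < r 10 := lt_of_le_of_lt c3 c13
  have c15 : v 8 ≤ r 0 := not_lt.mp fun z => L35 h z a8
  have c16 : ¬ S1 l v r := fun z => not_lt.mpr c15 z.2.2
  have c17 : r 8 < v 0 := (h.e1.resolve_left c16).2.2
  have c18 : l 4 ≤ v 0 := le_of_lt (lt_of_le_of_lt c1 c17)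
  have c19 : l 4 < v 0 := lt_trans c0 c17
  have c20 : r 5 < v 4 := (h.e19.resolve_left a0).2.2
  have c21 : v 5 < l 4 := (h.e19.resolve_left a0).1
  have c22 : v 5 < r 8 := not_le.mp fun z => L196 h a0 a3 z
  have c23 : v 5 ≤ v 4 := le_of_lt (lt_of_le_of_lt c4 c20)
  have c24 : l 9 ≤ l 4 := le_of_lt (lt_of_le_of_lt a4 c21)
  have c25 : r 9 ≤ l 4 := le_of_lt (lt_of_le_of_lt a6 c21)
  have c26 : v 5 ≤ v 0 := le_of_lt (lt_of_lt_of_le c21 c18)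
  have c27 : l 5 ≤ r 8 := le_of_lt (lt_of_le_of_lt c5 c22)
  have c28 : l 9 ≤ v 0 := le_of_lt (lt_of_le_of_lt c24 c19)
  have c29 : ¬ S2 l v r := fun z => not_lt.mpr c28 z.1
  have c30 : l 0 < r 9 := (h.e2.resolve_left c29).2.1
  have c31 : l 0 < l 4 := lt_of_lt_of_le c30 c25
  have c32 : r 10 < l 8 := not_le.mp fun z => L241 h a2 z c27 a7
  have c33 : r 10 ≤ l 8 := le_of_lt c32
  have c34 : r 10 ≤ v 8 := le_of_lt (lt_of_lt_of_le c32 c6)
  L240 h c33 c14 a1 c34 c31 c26 c23 a5 a8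

theorem L244 {l v r : ℕ → ℝ} (h : H l v r) (a0 : l 5 ≤ r 8) (a1 : ¬ S24 l v r) (a2 : v 8 < l 0) (a3 : r 10 < v 9) : False :=
  have c0 : l 0 ≤ r 15 := not_lt.mp fun z => L206 h z
  have c1 : v 0 ≤ r 0 := not_lt.mp fun z => L141 h z
  have c2 : l 16 ≤ r 10 := not_lt.mp fun z => L190 h z
  have c3 : v 13 ≤ r 13 := not_lt.mp fun z => L168 h z
  have c4 : l 9 ≤ v 9 := not_lt.mp fun z => L45 h z
  have c5 : l 5 ≤ v 5 := not_lt.mp fun z => L135 h z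
  have c6 : l 3 ≤ r 13 := not_lt.mp fun z => L182 h z
  have c7 : v 12 ≤ l 13 := not_lt.mp fun z => L143 h z
  have c8 : l 5 ≤ r 17 := not_lt.mp fun z => L228 h z
  have c9 : l 10 ≤ r 10 := not_lt.mp fun z => L52 h z
  have c10 : l 5 ≤ r 5 := not_lt.mp fun z => L116 h z
  have c11 : v 9 ≤ r 9 := not_lt.mp fun z => L48 h z
  have c12 : l 8 ≤ v 8 := not_lt.mp fun z => L110 h z
  have c13 : l 16 < r 10 := not_le.mp fun z => L189 h z
  have c14 : v 4 ≤ r 4 := not_lt.mp fun z => L13 h z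
  have c15 : l 13 < r 12 := not_le.mp fun z => L83 h z
  have c16 : v 10 ≤ v 9 := not_lt.mp fun z => L105 h a3 z
  have c17 : v 9 < l 5 := (h.e24.resolve_left a1).1
  have c18 : v 10 ≤ l 5 := le_of_lt (lt_of_le_of_lt c16 c17)
  have c19 : r 9 < v 5 := (h.e24.resolve_left a1).2.2
  have c20 : r 9 ≤ v 5 := le_of_lt c19
  have c21 : r 10 ≤ r 9 := le_of_lt (lt_of_lt_of_le a3 c11)
  have c22 : r 10 ≤ v 5 := le_of_lt (lt_of_le_of_lt c21 c19)
  have c23 : l 9 ≤ v 5 := not_lt.mp fun z => L136 h c19 z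
  have c24 : l 8 < v 9 := not_le.mp fun z => L239 h z a2 a3
  have c25 : v 9 ≤ r 5 := le_of_lt (lt_of_lt_of_le c17 c10)
  have c26 : l 8 ≤ r 5 := le_of_lt (lt_of_lt_of_le c24 c25)
  have c27 : l 10 ≤ v 9 := le_of_lt (lt_of_le_of_lt c9 a3)
  have c28 : l 10 ≤ r 5 := le_trans c27 c25
  have c29 : S14 l v r := Classical.byContradiction fun z => L242 h z c28 c22
  have c30 : r 10 ≤ v 9 := le_of_lt a3
  have c31 : r 10 < l 5 := lt_of_le_of_lt c30 c17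
  have c32 : r 10 ≤ r 17 := le_of_lt (lt_of_lt_of_le c31 c8)
  have c33 : l 5 < r 3 := c29.2.1
  have c34 : v 10 ≤ r 3 := le_of_lt (lt_of_le_of_lt c18 c33)
  have c35 : ¬ S16 l v r := fun z => not_lt.mpr c34 z.2.2
  have c36 : v 10 < l 3 := (h.e16.resolve_left c35).1
  have c37 : v 10 ≤ r 13 := le_of_lt (lt_of_lt_of_le c36 c6)
  have c38 : S33 l v r := h.e33.resolve_right fun z => not_lt.mpr c37 z.2.2
  have c39 : l 13 < r 10 := c38.2.1
  have c40 : v 12 < r 10 := lt_of_le_of_lt c7 c39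
  have c41 : v 12 ≤ r 17 := le_of_lt (lt_of_lt_of_le c40 c32)
  have c42 : S40 l v r := h.e40.resolve_right fun z => not_lt.mpr c41 z.2.2
  have c43 : S19 l v r := Classical.byContradiction fun z => L243 h z c42 c29 c26 c23 c22 c20 c18 a2
  have c44 : l 5 < r 4 := c43.2.1
  have c45 : l 5 ≤ r 4 := le_of_lt c44
  have c46 : v 3 < l 5 := c29.1
  have c47 : v 3 ≤ v 5 := le_of_lt (lt_of_lt_of_le c46 c5)
  have c48 : l 17 < r 12 := c42.2.1
  have c49 : r 10 ≤ l 5 := le_of_lt (lt_of_le_of_lt c30 c17)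
  have c50 : r 10 ≤ r 3 := le_of_lt (lt_of_le_of_lt c49 c33)
  have c51 : v 12 ≤ r 3 := le_of_lt (lt_of_lt_of_le c40 c50)
  have c52 : ¬ S17 l v r := fun z => not_lt.mpr c51 z.2.2
  have c53 : r 12 < v 3 := (h.e17.resolve_left c52).2.2
  have c54 : l 17 < v 3 := lt_trans c48 c53
  have c55 : l 17 ≤ v 5 := le_of_lt (lt_of_lt_of_le c54 c47)
  have c56 : ¬ S25 l v r := fun z => not_lt.mpr c55 z.1
  have c57 : v 17 < l 5 := (h.e25.resolve_left c56).1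
  have c58 : v 17 ≤ r 4 := le_of_lt (lt_of_lt_of_le c57 c45)
  have c59 : l 5 ≤ r 3 := le_of_lt c33
  have c60 : v 4 < l 5 := c43.1
  have c61 : l 4 < l 5 := not_le.mp fun z => L2 h c60 z
  have c62 : l 4 ≤ r 3 := le_of_lt (lt_of_lt_of_le c61 c59)
  have c63 : v 12 < l 3 := (h.e17.resolve_left c52).1
  have c64 : v 12 ≤ l 3 := le_of_lt c63
  have c65 : v 3 < r 4 := lt_trans c46 c44
  have c66 : r 12 < r 4 := lt_trans c53 c65
  have c67 : r 12 < l 5 := lt_trans c53 c46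
  have c68 : l 8 ≤ v 9 := le_of_lt c24
  have c69 : l 8 ≤ l 5 := le_of_lt (lt_of_le_of_lt c68 c17)
  have c70 : l 8 ≤ r 4 := le_of_lt (lt_of_le_of_lt c69 c44)
  have c71 : l 16 < v 9 := lt_trans c13 a3
  have c72 : l 16 < l 5 := lt_trans c71 c17
  have c73 : l 16 < r 4 := lt_trans c72 c44
  have c74 : l 9 ≤ l 5 := le_of_lt (lt_of_le_of_lt c4 c17)
  have c75 : l 9 ≤ r 4 := le_of_lt (lt_of_le_of_lt c74 c44)
  have c76 : r 12 < v 17 := c42.2.2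
  have c77 : l 13 ≤ v 17 := not_lt.mp fun z => L155 h c76 z
  have c78 : r 10 < v 3 := (h.e16.resolve_left c35).2.2
  have c79 : r 10 ≤ v 3 := le_of_lt c78
  have c80 : v 12 ≤ v 3 := le_of_lt (lt_of_lt_of_le c40 c79)
  have c81 : r 10 < v 13 := c38.2.2
  have c82 : r 10 ≤ r 13 := le_of_lt (lt_of_lt_of_le c81 c3)
  have c83 : l 13 < v 9 := lt_trans c39 a3
  have c84 : ¬ S31 l v r := fun z => not_lt.mpr c27 z.1
  have c85 : l 9 < r 10 := (h.e31.resolve_left c84).2.1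
  have c86 : l 9 ≤ r 10 := le_of_lt c85
  have c87 : l 9 ≤ v 3 := le_of_lt (lt_of_le_of_lt c86 c78)
  have c88 : l 16 ≤ v 3 := le_of_lt (lt_of_le_of_lt c2 c78)
  have c89 : l 3 < r 10 := (h.e16.resolve_left c35).2.1
  have c90 : r 10 < r 3 := lt_trans c31 c33
  have c91 : l 9 < l 5 := lt_of_le_of_lt c4 c17
  have c92 : v 8 ≤ r 0 := not_lt.mp fun z => L35 h z a2
  have c93 : ¬ S1 l v r := fun z => not_lt.mpr c92 z.2.2
  have c94 : r 8 < v 0 := (h.e1.resolve_left c93).2.2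
  have c95 : r 8 ≤ r 0 := le_of_lt (lt_of_lt_of_le c94 c1)
  have c96 : r 8 ≤ v 0 := le_of_lt c94
  have c97 : l 8 ≤ l 0 := le_of_lt (lt_of_le_of_lt c12 a2)
  have c98 : l 8 ≤ r 15 := le_trans c97 c0
  have c99 : r 10 < r 8 := lt_of_lt_of_le c31 a0
  have c100 : l 9 < r 8 := lt_of_lt_of_le c91 a0
  have c101 : l 5 ≤ r 0 := le_trans a0 c95
  have c102 : v 4 ≤ r 8 := le_of_lt (lt_of_lt_of_le c60 a0)
  have c103 : r 10 < l 8 := not_le.mp fun z => L241 h c29 z a0 c18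
  have c104 : v 3 ≤ r 8 := le_of_lt (lt_of_lt_of_le c46 a0)
  have c105 : r 10 ≤ v 0 := le_of_lt (lt_of_lt_of_le c99 c96)
  have c106 : l 9 ≤ v 0 := le_of_lt (lt_of_lt_of_le c100 c96)
  have c107 : r 12 ≤ r 0 := le_of_lt (lt_of_lt_of_le c67 c101)
  have c108 : S20 l v r := h.e20.resolve_right fun z => not_lt.mpr c102 z.2.2
  have c109 : r 10 ≤ v 8 := le_of_lt (lt_of_lt_of_le c103 c12)
  have c110 : l 16 < l 8 := lt_trans c13 c103
  have c111 : v 10 < l 8 := not_le.mp fun z => L101 h c103 z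
  have c112 : S15 l v r := h.e15.resolve_right fun z => not_lt.mpr c104 z.2.2
  have c113 : ¬ S2 l v r := fun z => not_lt.mpr c106 z.1
  have c114 : r 4 < v 8 := c108.2.2
  have c115 : v 4 < l 8 := c108.1
  have c116 : l 16 ≤ r 15 := le_of_lt (lt_of_lt_of_le c110 c98)
  have c117 : v 10 ≤ r 15 := le_of_lt (lt_of_lt_of_le c111 c98)
  have c118 : r 3 < v 8 := c112.2.2
  have c119 : l 0 < r 9 := (h.e2.resolve_left c113).2.1
  have c120 : v 4 ≤ v 8 := le_of_lt (lt_of_le_of_lt c14 c114)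
  have c121 : r 4 < l 0 := lt_trans c114 a2
  have c122 : v 17 ≤ v 8 := le_of_lt (lt_of_le_of_lt c58 c114)
  have c123 : v 4 ≤ r 15 := le_of_lt (lt_of_lt_of_le c115 c98)
  have c124 : S34 l v r := h.e34.resolve_right fun z => not_lt.mpr c117 z.2.2
  have c125 : r 3 ≤ v 8 := le_of_lt c118
  have c126 : l 0 ≤ r 9 := le_of_lt c119
  have c127 : v 8 < r 9 := lt_trans a2 c119
  have c128 : S22 l v r := h.e22.resolve_right fun z => not_lt.mpr c123 z.2.2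
  have c129 : l 15 < r 10 := c124.2.1
  have c130 : r 3 < r 9 := lt_of_le_of_lt c125 c127
  have c131 : v 4 < l 15 := c128.1
  have c132 : r 4 < v 15 := c128.2.2
  have c133 : l 15 < v 9 := lt_trans c129 a3
  have c134 : l 15 ≤ v 0 := le_of_lt (lt_of_lt_of_le c129 c105)
  have c135 : l 15 < r 3 := lt_trans c129 c90
  have c136 : l 15 ≤ r 13 := le_of_lt (lt_of_lt_of_le c129 c82)
  have c137 : l 4 < l 15 := not_le.mp fun z => L27 h c131 z
  have c138 : v 4 ≤ r 13 := le_of_lt (lt_of_lt_of_le c131 c136)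
  have c139 : ¬ S4 l v r := fun z => not_lt.mpr c134 z.1
  have c140 : l 4 < r 10 := lt_trans c137 c129
  have c141 : S21 l v r := h.e21.resolve_right fun z => not_lt.mpr c138 z.2.2
  have c142 : v 15 < l 0 := (h.e4.resolve_left c139).1
  have c143 : r 15 < v 0 := (h.e4.resolve_left c139).2.2
  have c144 : v 4 < l 13 := c141.1
  have c145 : r 4 < v 13 := c141.2.2
  have c146 : v 15 < r 9 := lt_trans c142 c119
  have c147 : v 4 < r 12 := lt_trans c144 c15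
  have c148 : v 4 ≤ v 17 := le_of_lt (lt_of_lt_of_le c144 c77)
  have c149 : S6 l v r := Classical.byContradiction fun z => L229 h z c66 c75 c73 c70 c147 c145 c62 c140 c121 c132 c131 c64 c107 c53 c80 c146 c83 c130 c143 c135 c133 c87 c88 c126 c89 c109 c116 c94 c71
  have c150 : r 1 < v 4 := c149.2.2
  have c151 : r 1 ≤ v 8 := le_of_lt (lt_of_lt_of_le c150 c120)
  have c152 : r 1 ≤ v 17 := le_of_lt (lt_of_lt_of_le c150 c148)
  L221 h a2 c151 c152 c122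

theorem L245 {l v r : ℕ → ℝ} (h : H l v r) (a0 : S6 l v r) (a1 : l 17 ≤ l 4) (a2 : l 9 ≤ l 0) (a3 : v 4 ≤ v 0) (a4 : l 0 ≤ r 17) (a5 : l 4 ≤ r 9) : False :=
  have c0 : l 11 < r 1 := not_le.mp fun z => L219 h z
  have c1 : v 1 < l 4 := a0.1
  have c2 : l 4 < r 1 := a0.2.1
  have c3 : r 1 < v 4 := a0.2.2
  have c4 : v 1 ≤ r 9 := le_of_lt (lt_of_lt_of_le c1 a5)
  have c5 : l 17 ≤ r 1 := le_of_lt (lt_of_le_of_lt a1 c2)
  have c6 : l 11 < v 4 := lt_trans c0 c3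
  have c7 : S8 l v r := h.e8.resolve_right fun z => not_lt.mpr c4 z.2.2
  have c8 : l 11 ≤ v 0 := le_of_lt (lt_of_lt_of_le c6 a3)
  have c9 : v 1 < l 9 := c7.1
  have c10 : ¬ S3 l v r := fun z => not_lt.mpr c8 z.1
  have c11 : v 1 ≤ l 0 := le_of_lt (lt_of_lt_of_le c9 a2)
  have c12 : l 0 < r 11 := (h.e3.resolve_left c10).2.1
  have c13 : v 11 < l 0 := (h.e3.resolve_left c10).1
  have c14 : v 1 ≤ r 11 := le_of_lt (lt_of_le_of_lt c11 c12)
  have c15 : v 11 ≤ r 17 := le_of_lt (lt_of_lt_of_le c13 a4)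
  have c16 : S9 l v r := h.e9.resolve_right fun z => not_lt.mpr c14 z.2.2
  have c17 : S37 l v r := h.e37.resolve_right fun z => not_lt.mpr c15 z.2.2
  have c18 : r 1 < v 11 := c16.2.2
  have c19 : v 11 < l 17 := c17.1
  not_lt.mpr c5 (lt_trans c18 c19)

theorem L246 {l v r : ℕ → ℝ} (h : H l v r) (a0 : ¬ S2 l v r) (a1 : l 0 ≤ v 4) (a2 : l 0 < v 4) (a3 : l 0 ≤ r 17) (a4 : l 4 ≤ r 9) (a5 : r 12 < r 9) (a6 : v 4 ≤ r 9) (a7 : l 17 ≤ v 13) (a8 : v 12 < v 9) (a9 : l 13 < v 9) : False :=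
  have c0 : l 9 ≤ v 9 := not_lt.mp fun z => L45 h z
  have c1 : l 12 ≤ r 4 := not_lt.mp fun z => L212 h z
  have c2 : r 9 < v 0 := (h.e2.resolve_left a0).2.2
  have c3 : v 9 < l 0 := (h.e2.resolve_left a0).1
  have c4 : v 4 ≤ v 0 := le_of_lt (lt_of_le_of_lt a6 c2)
  have c5 : r 12 < v 0 := lt_trans a5 c2
  have c6 : l 9 ≤ l 0 := le_of_lt (lt_of_le_of_lt c0 c3)
  have c7 : l 13 < l 0 := lt_trans a9 c3
  have c8 : v 12 < l 0 := lt_trans a8 c3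
  have c9 : l 13 ≤ v 4 := le_of_lt (lt_of_lt_of_le c7 a1)
  have c10 : r 12 ≤ l 0 := not_lt.mp fun z => h.n12_0 c8 z c5
  have c11 : ¬ S21 l v r := fun z => not_lt.mpr c9 z.1
  have c12 : r 12 ≤ v 4 := le_of_lt (lt_of_le_of_lt c10 a2)
  have c13 : v 13 < l 4 := (h.e21.resolve_left c11).1
  have c14 : l 17 ≤ l 4 := le_of_lt (lt_of_le_of_lt a7 c13)
  have c15 : ¬ S6 l v r := fun z => L245 h z c14 c6 c4 a3 a4
  have c16 : v 4 < l 1 := (h.e6.resolve_left c15).1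
  have c17 : r 4 < v 1 := (h.e6.resolve_left c15).2.2
  have c18 : r 12 ≤ l 1 := le_of_lt (lt_of_le_of_lt c12 c16)
  have c19 : l 12 ≤ v 1 := le_of_lt (lt_of_le_of_lt c1 c17)
  have c20 : S10 l v r := h.e10.resolve_right fun z => not_lt.mpr c18 z.2.1
  not_lt.mpr c19 c20.1

theorem L247 {l v r : ℕ → ℝ} (h : H l v r) (a0 : r 14 ≤ v 17) (a1 : v 7 ≤ l 17) (a2 : v 17 < r 7) : False :=
  have c0 : v 14 ≤ r 14 := not_lt.mp fun z => L137 h z
  have c1 : l 14 ≤ r 14 := not_lt.mp fun z => L147 h z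
  have c2 : v 14 ≤ v 17 := le_trans c0 a0
  have c3 : l 14 ≤ v 17 := le_trans c1 a0
  have c4 : v 14 ≤ r 7 := le_of_lt (lt_of_le_of_lt c2 a2)
  have c5 : S43 l v r := h.e43.resolve_right fun z => not_lt.mpr c3 z.1
  have c6 : ¬ S30 l v r := fun z => not_lt.mpr c4 z.2.2
  have c7 : l 17 < r 14 := c5.2.1
  have c8 : r 14 < v 7 := (h.e30.resolve_left c6).2.2
  not_lt.mpr a1 (lt_trans c7 c8)

theorem L248 {l v r : ℕ → ℝ} (h : H l v r) (a0 : ¬ S6 l v r) (a1 : r 10 < v 17) (a2 : r 0 ≤ v 17) (a3 : r 0 < r 12) (a4 : v 17 < r 7) (a5 : v 7 < r 10) (a6 : v 0 ≤ r 10) (a7 : v 0 < r 10) (a8 : v 12 < v 0) (a9 : v 10 < r 0) (a10 : v 10 < v 4) (a11 : r 12 < r 4) (a12 : r 10 ≤ r 4) (a13 : l 1 ≤ v 17) : False :=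
  have c0 : l 1 < r 11 := not_le.mp fun z => L185 h z
  have c1 : v 4 < l 1 := (h.e6.resolve_left a0).1
  have c2 : r 4 < v 1 := (h.e6.resolve_left a0).2.2
  have c3 : v 10 < l 1 := lt_trans a10 c1
  have c4 : r 10 < v 1 := lt_of_le_of_lt a12 c2
  have c5 : r 10 ≤ l 1 := not_lt.mp fun z => h.n10_1 c3 z c4
  have c6 : r 10 < r 11 := lt_of_le_of_lt c5 c0
  have c7 : v 0 ≤ l 1 := le_of_lt (lt_of_lt_of_le a7 c5)
  have c8 : v 0 ≤ r 11 := le_of_lt (lt_of_le_of_lt a6 c6)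
  have c9 : S3 l v r := h.e3.resolve_right fun z => not_lt.mpr c8 z.2.2
  have c10 : l 11 < r 0 := c9.2.1
  have c11 : r 0 < v 11 := c9.2.2
  have c12 : l 11 ≤ v 17 := le_of_lt (lt_of_lt_of_le c10 a2)
  have c13 : v 10 < v 11 := lt_trans a9 c11
  have c14 : S37 l v r := h.e37.resolve_right fun z => not_lt.mpr c12 z.1
  have c15 : v 11 < l 17 := c14.1
  have c16 : v 10 < l 17 := lt_trans c13 c15
  have c17 : r 10 ≤ l 17 := not_lt.mp fun z => h.n10_17 c16 z a1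
  have c18 : v 7 ≤ l 17 := le_of_lt (lt_of_lt_of_le a5 c17)
  have c19 : v 17 < r 14 := not_le.mp fun z => L247 h z c18 a4
  have c20 : l 1 ≤ r 15 := not_lt.mp fun z => L183 h a13 z c19
  have c21 : v 0 ≤ r 15 := le_trans c7 c20
  have c22 : v 4 ≤ r 15 := le_of_lt (lt_of_lt_of_le c1 c20)
  have c23 : S4 l v r := h.e4.resolve_right fun z => not_lt.mpr c21 z.2.2
  have c24 : S22 l v r := h.e22.resolve_right fun z => not_lt.mpr c22 z.2.2
  have c25 : v 0 < l 15 := c23.1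
  have c26 : l 15 < r 0 := c23.2.1
  have c27 : r 4 < v 15 := c24.2.2
  have c28 : v 12 < l 15 := lt_trans a8 c25
  have c29 : l 15 < r 12 := lt_trans c26 a3
  have c30 : r 12 < v 15 := lt_trans a11 c27
  h.n12_15 c28 c29 c30

theorem L249 {l v r : ℕ → ℝ} (h : H l v r) (a0 : ¬ S24 l v r) (a1 : v 8 < l 0) (a2 : r 10 < v 9) : False :=
  have c0 : v 9 ≤ r 9 := not_lt.mp fun z => L48 h z
  have c1 : l 10 ≤ r 10 := not_lt.mp fun z => L52 h z
  have c2 : v 0 ≤ r 0 := not_lt.mp fun z => L141 h z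
  have c3 : l 4 ≤ r 8 := not_lt.mp fun z => L199 h z
  have c4 : l 5 ≤ r 5 := not_lt.mp fun z => L116 h z
  have c5 : l 9 ≤ v 9 := not_lt.mp fun z => L45 h z
  have c6 : l 5 ≤ v 5 := not_lt.mp fun z => L135 h z
  have c7 : l 3 ≤ r 13 := not_lt.mp fun z => L182 h z
  have c8 : v 12 ≤ l 13 := not_lt.mp fun z => L143 h z
  have c9 : r 12 ≤ v 13 := not_lt.mp fun z => L159 h z
  have c10 : l 5 ≤ r 17 := not_lt.mp fun z => L228 h z
  have c11 : v 8 ≤ r 8 := not_lt.mp fun z => L40 h z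
  have c12 : l 13 < r 12 := not_le.mp fun z => L83 h z
  have c13 : l 13 ≤ r 12 := not_lt.mp fun z => L88 h z
  have c14 : l 8 < v 9 := not_le.mp fun z => L239 h z a1 a2
  have c15 : v 8 ≤ r 0 := not_lt.mp fun z => L35 h z a1
  have c16 : ¬ S1 l v r := fun z => not_lt.mpr c15 z.2.2
  have c17 : r 8 < v 0 := (h.e1.resolve_left c16).2.2
  have c18 : l 4 ≤ v 0 := le_of_lt (lt_of_le_of_lt c3 c17)
  have c19 : r 8 ≤ r 0 := le_of_lt (lt_of_lt_of_le c17 c2)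
  have c20 : l 0 < r 8 := (h.e1.resolve_left c16).2.1
  have c21 : l 0 ≤ r 8 := le_of_lt c20
  have c22 : l 10 ≤ v 9 := le_of_lt (lt_of_le_of_lt c1 a2)
  have c23 : ¬ S31 l v r := fun z => not_lt.mpr c22 z.1
  have c24 : l 9 < r 10 := (h.e31.resolve_left c23).2.1
  have c25 : l 9 ≤ r 10 := le_of_lt c24
  have c26 : v 10 ≤ v 9 := not_lt.mp fun z => L105 h a2 z
  have c27 : r 10 ≤ v 9 := le_of_lt a2
  have c28 : r 10 ≤ r 9 := le_of_lt (lt_of_lt_of_le a2 c0)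
  have c29 : v 9 < l 5 := (h.e24.resolve_left a0).1
  have c30 : l 5 < r 9 := (h.e24.resolve_left a0).2.1
  have c31 : r 9 < v 5 := (h.e24.resolve_left a0).2.2
  have c32 : v 9 ≤ r 5 := le_of_lt (lt_of_lt_of_le c29 c4)
  have c33 : l 9 ≤ l 5 := le_of_lt (lt_of_le_of_lt c5 c29)
  have c34 : r 10 < l 5 := lt_of_le_of_lt c27 c29
  have c35 : v 10 ≤ l 5 := le_of_lt (lt_of_le_of_lt c26 c29)
  have c36 : r 10 ≤ l 5 := le_of_lt (lt_of_le_of_lt c27 c29)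
  have c37 : l 5 ≤ r 9 := le_of_lt c30
  have c38 : r 9 ≤ v 5 := le_of_lt c31
  have c39 : r 10 ≤ v 5 := le_of_lt (lt_of_le_of_lt c28 c31)
  have c40 : l 9 ≤ v 5 := not_lt.mp fun z => L136 h c31 z
  have c41 : r 10 ≤ r 5 := le_trans c27 c32
  have c42 : l 10 ≤ r 5 := le_trans c22 c32
  have c43 : l 8 ≤ r 5 := le_of_lt (lt_of_lt_of_le c14 c32)
  have c44 : r 10 ≤ r 17 := le_of_lt (lt_of_lt_of_le c34 c10)
  have c45 : S14 l v r := Classical.byContradiction fun z => L242 h z c42 c39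
  have c46 : l 5 < r 3 := c45.2.1
  have c47 : v 3 < l 5 := c45.1
  have c48 : l 5 ≤ r 3 := le_of_lt c46
  have c49 : v 10 ≤ r 3 := le_of_lt (lt_of_le_of_lt c35 c46)
  have c50 : r 10 ≤ r 3 := le_of_lt (lt_of_le_of_lt c36 c46)
  have c51 : v 3 ≤ v 5 := le_of_lt (lt_of_lt_of_le c47 c6)
  have c52 : v 3 < r 9 := lt_trans c47 c30
  have c53 : ¬ S16 l v r := fun z => not_lt.mpr c49 z.2.2
  have c54 : v 10 < l 3 := (h.e16.resolve_left c53).1
  have c55 : v 10 ≤ r 13 := le_of_lt (lt_of_lt_of_le c54 c7)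
  have c56 : S33 l v r := h.e33.resolve_right fun z => not_lt.mpr c55 z.2.2
  have c57 : l 13 < r 10 := c56.2.1
  have c58 : r 10 < v 13 := c56.2.2
  have c59 : v 12 < r 10 := lt_of_le_of_lt c8 c57
  have c60 : l 13 < v 9 := lt_trans c57 a2
  have c61 : l 13 ≤ r 5 := le_of_lt (lt_of_lt_of_le c57 c41)
  have c62 : l 9 ≤ v 13 := le_of_lt (lt_of_le_of_lt c25 c58)
  have c63 : v 12 < v 9 := lt_trans c59 a2
  have c64 : v 12 ≤ r 17 := le_of_lt (lt_of_lt_of_le c59 c44)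
  have c65 : v 12 ≤ r 3 := le_of_lt (lt_of_lt_of_le c59 c50)
  have c66 : S40 l v r := h.e40.resolve_right fun z => not_lt.mpr c64 z.2.2
  have c67 : S19 l v r := Classical.byContradiction fun z => L243 h z c66 c45 c43 c40 c39 c38 c35 a1
  have c68 : ¬ S17 l v r := fun z => not_lt.mpr c65 z.2.2
  have c69 : r 12 < v 17 := c66.2.2
  have c70 : l 17 < r 12 := c66.2.1
  have c71 : v 4 < l 5 := c67.1
  have c72 : l 5 < r 4 := c67.2.1
  have c73 : r 12 < v 3 := (h.e17.resolve_left c68).2.2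
  have c74 : v 12 < l 3 := (h.e17.resolve_left c68).1
  have c75 : l 13 ≤ v 17 := not_lt.mp fun z => L155 h c69 z
  have c76 : l 1 ≤ v 17 := not_lt.mp fun z => L187 h c69 z
  have c77 : l 17 ≤ v 13 := le_of_lt (lt_of_lt_of_le c70 c9)
  have c78 : l 4 < l 5 := not_le.mp fun z => L2 h c71 z
  have c79 : v 4 ≤ r 9 := le_of_lt (lt_of_lt_of_le c71 c37)
  have c80 : l 5 ≤ r 4 := le_of_lt c72
  have c81 : v 9 < r 4 := lt_trans c29 c72
  have c82 : r 10 ≤ r 4 := le_of_lt (lt_of_le_of_lt c36 c72)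
  have c83 : v 3 < r 4 := lt_trans c47 c72
  have c84 : l 17 < v 3 := lt_trans c70 c73
  have c85 : r 12 < r 9 := lt_trans c73 c52
  have c86 : r 12 < r 4 := lt_trans c73 c83
  have c87 : v 12 ≤ l 3 := le_of_lt c74
  have c88 : l 4 ≤ r 9 := le_of_lt (lt_of_lt_of_le c78 c37)
  have c89 : l 17 ≤ v 5 := le_of_lt (lt_of_lt_of_le c84 c51)
  have c90 : ¬ S25 l v r := fun z => not_lt.mpr c89 z.1
  have c91 : v 17 < l 5 := (h.e25.resolve_left c90).1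
  have c92 : r 8 < l 5 := not_le.mp fun z => L244 h z a0 a1 a2
  have c93 : r 8 < r 4 := lt_of_lt_of_le c92 c80
  have c94 : r 8 ≤ r 17 := le_of_lt (lt_of_lt_of_le c92 c10)
  have c95 : v 8 < l 5 := not_le.mp fun z => L24 h c92 z
  have c96 : v 8 ≤ r 4 := le_of_lt (lt_of_le_of_lt c11 c93)
  have c97 : l 0 ≤ r 17 := le_of_lt (lt_of_lt_of_le c20 c94)
  have c98 : v 8 ≤ r 3 := le_of_lt (lt_of_lt_of_le c95 c48)
  have c99 : ¬ S20 l v r := fun z => not_lt.mpr c96 z.2.2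
  have c100 : ¬ S15 l v r := fun z => not_lt.mpr c98 z.2.2
  have c101 : r 8 < v 4 := (h.e20.resolve_left c99).2.2
  have c102 : l 3 < r 8 := (h.e15.resolve_left c100).2.1
  have c103 : r 8 ≤ v 4 := le_of_lt c101
  have c104 : l 0 < v 4 := lt_trans c20 c101
  have c105 : l 0 ≤ v 4 := le_of_lt (lt_of_le_of_lt c21 c101)
  have c106 : v 10 < r 8 := lt_trans c54 c102
  have c107 : l 3 < v 0 := lt_trans c102 c17
  have c108 : v 10 < v 4 := lt_of_lt_of_le c106 c103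
  have c109 : v 10 < r 0 := lt_of_lt_of_le c106 c19
  have c110 : v 12 < v 0 := lt_trans c74 c107
  have c111 : v 12 ≤ v 0 := le_of_lt (lt_of_le_of_lt c87 c107)
  have c112 : S2 l v r := Classical.byContradiction fun z => L246 h z c105 c104 c97 c88 c85 c79 c77 c63 c60
  have c113 : r 0 < v 9 := c112.2.2
  have c114 : v 0 < l 9 := c112.1
  have c115 : l 9 < r 0 := c112.2.1
  have c116 : r 0 < r 4 := lt_trans c113 c81
  have c117 : v 0 < r 10 := lt_of_lt_of_le c114 c25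
  have c118 : v 0 ≤ l 5 := le_of_lt (lt_of_lt_of_le c114 c33)
  have c119 : v 0 ≤ r 10 := le_of_lt (lt_of_lt_of_le c114 c25)
  have c120 : l 4 < l 9 := lt_of_le_of_lt c18 c114
  have c121 : v 12 < l 9 := lt_trans c110 c114
  have c122 : v 12 ≤ l 9 := le_of_lt (lt_of_le_of_lt c111 c114)
  have c123 : l 4 ≤ v 13 := le_of_lt (lt_of_lt_of_le c120 c62)
  have c124 : S21 l v r := h.e21.resolve_right fun z => not_lt.mpr c123 z.1
  have c125 : v 4 < l 13 := c124.1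
  have c126 : r 4 < v 13 := c124.2.2
  have c127 : v 4 < r 12 := lt_trans c125 c12
  have c128 : r 0 < v 13 := lt_trans c116 c126
  have c129 : l 4 ≤ r 12 := not_lt.mp fun z => L171 h c127 z
  have c130 : l 7 ≤ v 13 := not_lt.mp fun z => L194 h c128 z
  have c131 : S29 l v r := h.e29.resolve_right fun z => not_lt.mpr c130 z.1
  have c132 : v 7 < l 13 := c131.1
  have c133 : v 7 ≤ r 12 := le_of_lt (lt_of_lt_of_le c132 c13)
  have c134 : v 7 ≤ v 17 := le_of_lt (lt_of_lt_of_le c132 c75)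
  have c135 : v 7 ≤ r 5 := le_of_lt (lt_of_lt_of_le c132 c61)
  have c136 : v 7 < r 10 := lt_trans c132 c57
  have c137 : ¬ S23 l v r := fun z => not_lt.mpr c135 z.2.2
  have c138 : l 5 < r 7 := (h.e23.resolve_left c137).2.1
  have c139 : v 17 < r 7 := lt_trans c91 c138
  have c140 : v 0 ≤ r 7 := le_of_lt (lt_of_le_of_lt c118 c138)
  have c141 : S0 l v r := h.e0.resolve_right fun z => not_lt.mpr c140 z.2.2
  have c142 : r 0 < v 7 := c141.2.2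
  have c143 : r 0 < r 12 := lt_of_lt_of_le c142 c133
  have c144 : r 0 ≤ v 17 := le_of_lt (lt_of_lt_of_le c142 c134)
  have c145 : l 9 < r 12 := lt_trans c115 c143
  have c146 : v 9 ≤ r 12 := not_lt.mp fun z => h.n12_9 c121 c145 z
  have c147 : r 10 ≤ r 12 := le_trans c27 c146
  have c148 : r 10 < v 17 := lt_of_le_of_lt c147 c69
  have c149 : S6 l v r := Classical.byContradiction fun z => L248 h z c148 c144 c143 c139 c136 c119 c117 c110 c109 c108 c86 c82 c76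
  have c150 : v 1 < l 4 := c149.1
  have c151 : v 1 ≤ r 12 := le_of_lt (lt_of_lt_of_le c150 c129)
  have c152 : v 1 ≤ r 9 := le_of_lt (lt_of_lt_of_le c150 c88)
  have c153 : S10 l v r := h.e10.resolve_right fun z => not_lt.mpr c151 z.2.2
  have c154 : S8 l v r := h.e8.resolve_right fun z => not_lt.mpr c152 z.2.2
  have c155 : r 1 < v 12 := c153.2.2
  have c156 : l 9 < r 1 := c154.2.1
  not_lt.mpr c122 (lt_trans c156 c155)

theorem L250 {l v r : ℕ → ℝ} (h : H l v r) (a0 : r 0 < r 12) (a1 : r 8 ≤ r 1) (a2 : r 12 < v 3) (a3 : v 1 ≤ r 0) (a4 : l 8 ≤ r 0) : False :=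
  have c0 : l 12 ≤ v 3 := not_lt.mp fun z => L133 h a2 z
  have c1 : ¬ S17 l v r := fun z => not_lt.mpr c0 z.1
  have c2 : v 12 < l 3 := (h.e17.resolve_left c1).1
  have c3 : r 12 ≤ v 3 := le_of_lt a2
  have c4 : r 0 ≤ v 3 := le_of_lt (lt_of_lt_of_le a0 c3)
  have c5 : v 1 ≤ r 12 := le_of_lt (lt_of_le_of_lt a3 a0)
  have c6 : l 8 ≤ v 3 := le_trans a4 c4
  have c7 : S10 l v r := h.e10.resolve_right fun z => not_lt.mpr c5 z.2.2
  have c8 : ¬ S15 l v r := fun z => not_lt.mpr c6 z.1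
  have c9 : r 1 < v 12 := c7.2.2
  have c10 : l 3 < r 8 := (h.e15.resolve_left c8).2.1
  have c11 : r 8 ≤ v 12 := le_of_lt (lt_of_le_of_lt a1 c9)
  not_lt.mpr c11 (lt_trans c2 c10)

theorem L251 {l v r : ℕ → ℝ} (h : H l v r) (a0 : r 1 < v 12) (a1 : l 8 ≤ r 1) (a2 : r 8 ≤ r 1) (a3 : r 12 < v 3) : False :=
  have c0 : v 12 ≤ r 12 := not_lt.mp fun z => L93 h z
  have c1 : l 12 ≤ v 3 := not_lt.mp fun z => L133 h a3 z
  have c2 : ¬ S17 l v r := fun z => not_lt.mpr c1 z.1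
  have c3 : v 12 < l 3 := (h.e17.resolve_left c2).1
  have c4 : v 12 ≤ l 3 := le_of_lt c3
  have c5 : v 12 ≤ v 3 := le_of_lt (lt_of_le_of_lt c0 a3)
  have c6 : r 1 ≤ v 3 := le_of_lt (lt_of_lt_of_le a0 c5)
  have c7 : r 1 < l 3 := lt_of_lt_of_le a0 c4
  have c8 : l 8 ≤ v 3 := le_trans a1 c6
  have c9 : r 8 ≤ l 3 := le_of_lt (lt_of_le_of_lt a2 c7)
  have c10 : ¬ S15 l v r := fun z => not_lt.mpr c8 z.1
  not_lt.mpr c9 (h.e15.resolve_left c10).2.1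

theorem L252 {l v r : ℕ → ℝ} (h : H l v r) (a0 : v 0 < l 9) (a1 : r 12 < v 3) (a2 : v 5 < l 4) (a3 : l 9 < r 1) (a4 : l 1 ≤ r 17) (a5 : v 17 < l 5) (a6 : v 8 < l 0) : False :=
  have c0 : l 0 ≤ v 0 := not_lt.mp fun z => L64 h z
  have c1 : l 8 < v 8 := h.u8_0
  have c2 : l 4 ≤ r 8 := not_lt.mp fun z => L199 h z
  have c3 : l 5 ≤ r 5 := not_lt.mp fun z => L116 h z
  have c4 : l 4 < r 8 := not_le.mp fun z => L198 h z
  have c5 : v 0 ≤ r 0 := not_lt.mp fun z => L141 h z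
  have c6 : l 5 ≤ v 5 := not_lt.mp fun z => L135 h z
  have c7 : l 17 ≤ v 17 := not_lt.mp fun z => L140 h z
  have c8 : l 12 ≤ v 3 := not_lt.mp fun z => L133 h a1 z
  have c9 : ¬ S17 l v r := fun z => not_lt.mpr c8 z.1
  have c10 : l 3 < r 12 := (h.e17.resolve_left c9).2.1
  have c11 : v 17 ≤ v 5 := le_of_lt (lt_of_lt_of_le a5 c6)
  have c12 : l 17 ≤ v 5 := le_trans c7 c11
  have c13 : v 8 ≤ r 0 := not_lt.mp fun z => L35 h z a6
  have c14 : ¬ S1 l v r := fun z => not_lt.mpr c13 z.2.2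
  have c15 : r 8 < v 0 := (h.e1.resolve_left c14).2.2
  have c16 : l 4 < v 0 := lt_trans c4 c15
  have c17 : l 4 ≤ r 0 := le_of_lt (lt_of_lt_of_le c16 c5)
  have c18 : v 5 < r 0 := lt_of_lt_of_le a2 c17
  have c19 : l 17 ≤ r 0 := le_of_lt (lt_of_le_of_lt c12 c18)
  have c20 : v 17 ≤ r 5 := le_of_lt (lt_of_lt_of_le a5 c3)
  have c21 : ¬ S25 l v r := fun z => not_lt.mpr c20 z.2.2
  have c22 : r 17 < v 5 := (h.e25.resolve_left c21).2.2
  have c23 : l 4 ≤ v 0 := le_of_lt (lt_of_le_of_lt c2 c15)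
  have c24 : v 5 ≤ v 0 := le_of_lt (lt_of_lt_of_le a2 c23)
  have c25 : r 17 ≤ v 0 := le_of_lt (lt_of_lt_of_le c22 c24)
  have c26 : ¬ S3 l v r := fun z => L202 h z c25 c19
  have c27 : v 11 < l 0 := (h.e3.resolve_left c26).1
  have c28 : v 11 ≤ v 0 := not_lt.mp fun z => L120 h z c27
  have c29 : l 0 < r 11 := (h.e3.resolve_left c26).2.1
  have c30 : v 8 < r 11 := lt_trans a6 c29
  have c31 : l 5 < l 4 := lt_of_le_of_lt c6 a2
  have c32 : l 5 ≤ r 8 := le_of_lt (lt_of_lt_of_le c31 c2)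
  have c33 : l 9 ≤ r 1 := le_of_lt a3
  have c34 : v 17 ≤ l 5 := le_of_lt a5
  have c35 : r 8 ≤ v 0 := le_of_lt c15
  have c36 : v 8 < v 0 := lt_of_lt_of_le a6 c0
  have c37 : l 8 < v 0 := lt_trans c1 c36
  have c38 : r 8 < l 9 := lt_of_le_of_lt c35 a0
  have c39 : l 8 < l 9 := lt_trans c37 a0
  have c40 : v 0 < r 1 := lt_trans a0 a3
  have c41 : r 8 ≤ r 1 := le_of_lt (lt_of_lt_of_le c38 c33)
  have c42 : l 8 ≤ r 1 := le_of_lt (lt_of_lt_of_le c39 c33)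
  have c43 : v 11 ≤ r 1 := le_of_lt (lt_of_le_of_lt c28 c40)
  have c44 : ¬ S9 l v r := fun z => not_lt.mpr c43 z.2.2
  have c45 : v 11 < l 1 := (h.e9.resolve_left c44).1
  have c46 : v 11 ≤ r 17 := le_of_lt (lt_of_lt_of_le c45 a4)
  have c47 : S37 l v r := h.e37.resolve_right fun z => not_lt.mpr c46 z.2.2
  have c48 : r 11 < v 17 := c47.2.2
  have c49 : v 8 < v 17 := lt_trans c30 c48
  have c50 : v 8 ≤ l 5 := le_of_lt (lt_of_lt_of_le c49 c34)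
  have c51 : v 12 ≤ r 1 := not_lt.mp fun z => L251 h z c42 c41 a1
  have c52 : ¬ S10 l v r := fun z => not_lt.mpr c51 z.2.2
  have c53 : v 12 < l 1 := (h.e10.resolve_left c52).1
  have c54 : v 12 ≤ r 17 := le_of_lt (lt_of_lt_of_le c53 a4)
  have c55 : S40 l v r := h.e40.resolve_right fun z => not_lt.mpr c54 z.2.2
  have c56 : r 12 < v 17 := c55.2.2
  have c57 : r 12 ≤ v 5 := le_of_lt (lt_of_lt_of_le c56 c11)
  have c58 : l 3 ≤ v 5 := le_of_lt (lt_of_lt_of_le c10 c57)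
  have c59 : S14 l v r := h.e14.resolve_right fun z => not_lt.mpr c58 z.1
  have c60 : l 5 < r 3 := c59.2.1
  have c61 : v 3 < l 5 := c59.1
  have c62 : v 8 ≤ r 3 := le_of_lt (lt_of_le_of_lt c50 c60)
  have c63 : v 3 ≤ r 8 := le_of_lt (lt_of_lt_of_le c61 c32)
  have c64 : ¬ S15 l v r := fun z => not_lt.mpr c62 z.2.2
  not_lt.mpr c63 (h.e15.resolve_left c64).2.2

theorem L253 {l v r : ℕ → ℝ} (h : H l v r) (a0 : r 12 < v 3) (a1 : S6 l v r) (a2 : v 7 < r 10) (a3 : l 1 ≤ v 17) (a4 : v 17 < l 5) (a5 : v 8 < l 0) (a6 : r 10 < v 9) : False :=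
  have c0 : v 5 ≤ r 5 := not_lt.mp fun z => L36 h z
  have c1 : l 5 ≤ v 5 := not_lt.mp fun z => L135 h z
  have c2 : v 17 ≤ r 17 := not_lt.mp fun z => L157 h z
  have c3 : l 7 ≤ v 7 := not_lt.mp fun z => L95 h z
  have c4 : v 9 ≤ r 9 := not_lt.mp fun z => L48 h z
  have c5 : l 10 ≤ r 10 := not_lt.mp fun z => L52 h z
  have c6 : l 4 < r 15 := not_le.mp fun z => L203 h z
  have c7 : l 5 ≤ r 5 := not_lt.mp fun z => L116 h z
  have c8 : v 12 ≤ r 12 := not_lt.mp fun z => L93 h z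
  have c9 : l 0 ≤ r 15 := not_lt.mp fun z => L206 h z
  have c10 : l 8 ≤ r 3 := not_lt.mp fun z => L217 h z
  have c11 : l 3 ≤ r 13 := not_lt.mp fun z => L182 h z
  have c12 : l 13 ≤ r 12 := not_lt.mp fun z => L88 h z
  have c13 : v 17 ≤ r 5 := le_of_lt (lt_of_lt_of_le a4 c7)
  have c14 : ¬ S25 l v r := fun z => not_lt.mpr c13 z.2.2
  have c15 : r 17 < v 5 := (h.e25.resolve_left c14).2.2
  have c16 : S24 l v r := Classical.byContradiction fun z => L249 h z a5 a6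
  have c17 : v 5 < l 9 := c16.1
  have c18 : l 5 ≤ l 9 := not_lt.mp fun z => L174 h c17 z
  have c19 : r 5 < v 9 := c16.2.2
  have c20 : l 5 ≤ v 9 := le_of_lt (lt_of_le_of_lt c7 c19)
  have c21 : v 17 ≤ v 9 := le_of_lt (lt_of_lt_of_le a4 c20)
  have c22 : l 1 ≤ v 9 := le_trans a3 c21
  have c23 : S8 l v r := h.e8.resolve_right fun z => not_lt.mpr c22 z.1
  have c24 : l 9 < r 1 := c23.2.1
  have c25 : l 5 ≤ r 1 := le_of_lt (lt_of_le_of_lt c18 c24)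
  have c26 : r 1 < v 4 := a1.2.2
  have c27 : l 5 ≤ v 4 := le_of_lt (lt_of_le_of_lt c25 c26)
  have c28 : ¬ S19 l v r := fun z => not_lt.mpr c27 z.1
  have c29 : v 5 < l 4 := (h.e19.resolve_left c28).1
  have c30 : v 5 < r 15 := lt_trans c29 c6
  have c31 : r 17 < r 15 := lt_trans c15 c30
  have c32 : r 5 < v 4 := (h.e19.resolve_left c28).2.2
  have c33 : r 5 ≤ r 4 := not_lt.mp fun z => L176 h z c32
  have c34 : l 4 < r 5 := (h.e19.resolve_left c28).2.1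
  have c35 : l 4 ≤ r 5 := le_of_lt c34
  have c36 : l 10 ≤ v 9 := le_of_lt (lt_of_le_of_lt c5 a6)
  have c37 : ¬ S31 l v r := fun z => not_lt.mpr c36 z.1
  have c38 : v 10 < l 9 := (h.e31.resolve_left c37).1
  have c39 : v 10 < r 1 := lt_trans c38 c24
  have c40 : v 10 < v 4 := lt_trans c39 c26
  have c41 : v 5 < r 1 := lt_trans c17 c24
  have c42 : v 5 < v 4 := lt_trans c41 c26
  have c43 : r 1 ≤ r 4 := not_lt.mp fun z => L130 h z c26
  have c44 : v 1 < l 4 := a1.1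
  have c45 : v 1 ≤ v 4 := not_lt.mp fun z => L76 h z c44
  have c46 : r 10 ≤ r 9 := le_of_lt (lt_of_lt_of_le a6 c4)
  have c47 : l 7 < r 10 := lt_of_le_of_lt c3 a2
  have c48 : l 7 ≤ r 9 := le_of_lt (lt_of_lt_of_le c47 c46)
  have c49 : v 7 ≤ r 10 := le_of_lt a2
  have c50 : l 7 ≤ r 10 := le_of_lt (lt_of_le_of_lt c3 a2)
  have c51 : v 5 ≤ l 9 := le_of_lt c17
  have c52 : r 17 ≤ l 9 := le_of_lt (lt_of_lt_of_le c15 c51)
  have c53 : r 17 ≤ r 1 := le_of_lt (lt_of_le_of_lt c52 c24)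
  have c54 : l 1 ≤ r 17 := le_trans a3 c2
  have c55 : v 17 ≤ v 5 := le_of_lt (lt_of_lt_of_le a4 c1)
  have c56 : v 5 ≤ v 9 := le_of_lt (lt_of_le_of_lt c0 c19)
  have c57 : v 8 ≤ r 0 := not_lt.mp fun z => L35 h z a5
  have c58 : ¬ S1 l v r := fun z => not_lt.mpr c57 z.2.2
  have c59 : l 0 < r 8 := (h.e1.resolve_left c58).2.1
  have c60 : v 10 < v 9 := not_le.mp fun z => L47 h a6 z
  have c61 : r 10 ≤ v 9 := le_of_lt a6
  have c62 : v 12 ≤ v 3 := le_of_lt (lt_of_le_of_lt c8 a0)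
  have c63 : l 12 ≤ v 3 := not_lt.mp fun z => L133 h a0 z
  have c64 : ¬ S17 l v r := fun z => not_lt.mpr c63 z.1
  have c65 : l 3 < r 12 := (h.e17.resolve_left c64).2.1
  have c66 : v 12 < l 3 := (h.e17.resolve_left c64).1
  have c67 : l 12 ≤ l 3 := not_lt.mp fun z => L126 h c66 z
  have c68 : l 9 ≤ v 0 := not_lt.mp fun z => L252 h z a0 c29 c24 c54 a4 a5
  have c69 : ¬ S2 l v r := fun z => not_lt.mpr c68 z.1
  have c70 : r 9 < v 0 := (h.e2.resolve_left c69).2.2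
  have c71 : v 9 < l 0 := (h.e2.resolve_left c69).1
  have c72 : l 7 ≤ v 0 := le_of_lt (lt_of_le_of_lt c48 c70)
  have c73 : r 10 ≤ l 0 := le_of_lt (lt_of_le_of_lt c61 c71)
  have c74 : v 10 < l 0 := lt_trans c60 c71
  have c75 : v 5 ≤ l 0 := le_of_lt (lt_of_le_of_lt c56 c71)
  have c76 : ¬ S0 l v r := fun z => not_lt.mpr c72 z.1
  have c77 : r 10 ≤ r 8 := le_of_lt (lt_of_le_of_lt c73 c59)
  have c78 : v 10 ≤ r 15 := le_of_lt (lt_of_lt_of_le c74 c9)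
  have c79 : l 0 < r 7 := (h.e0.resolve_left c76).2.1
  have c80 : S34 l v r := h.e34.resolve_right fun z => not_lt.mpr c78 z.2.2
  have c81 : v 5 ≤ r 7 := le_of_lt (lt_of_le_of_lt c75 c79)
  have c82 : v 8 < r 7 := lt_trans a5 c79
  have c83 : l 15 < r 10 := c80.2.1
  have c84 : r 10 < v 15 := c80.2.2
  have c85 : S23 l v r := h.e23.resolve_right fun z => not_lt.mpr c81 z.2.2
  have c86 : l 15 ≤ r 8 := le_of_lt (lt_of_lt_of_le c83 c77)
  have c87 : v 7 < v 15 := lt_trans a2 c84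
  have c88 : v 7 ≤ v 15 := le_of_lt (lt_of_le_of_lt c49 c84)
  have c89 : r 5 < v 7 := c85.2.2
  have c90 : r 5 ≤ v 7 := le_of_lt c89
  have c91 : r 5 ≤ v 15 := le_of_lt (lt_of_lt_of_le c89 c88)
  have c92 : l 4 ≤ v 15 := le_trans c35 c91
  have c93 : S22 l v r := h.e22.resolve_right fun z => not_lt.mpr c92 z.1
  have c94 : v 4 < l 15 := c93.1
  have c95 : r 4 < v 15 := c93.2.2
  have c96 : v 4 ≤ r 8 := le_of_lt (lt_of_lt_of_le c94 c86)
  have c97 : r 5 < l 15 := lt_trans c32 c94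
  have c98 : v 1 ≤ l 15 := le_of_lt (lt_of_le_of_lt c45 c94)
  have c99 : S20 l v r := h.e20.resolve_right fun z => not_lt.mpr c96 z.2.2
  have c100 : r 17 < v 2 := not_le.mp fun z => L232 h z c53 c31 c98
  have c101 : r 4 < v 8 := c99.2.2
  have c102 : l 8 < r 4 := c99.2.1
  have c103 : v 4 < l 8 := c99.1
  have c104 : l 1 ≤ v 2 := le_of_lt (lt_of_le_of_lt c54 c100)
  have c105 : r 5 ≤ v 8 := le_of_lt (lt_of_le_of_lt c33 c101)
  have c106 : r 1 ≤ v 8 := le_of_lt (lt_of_le_of_lt c43 c101)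
  have c107 : l 8 < v 15 := lt_trans c102 c95
  have c108 : v 10 < l 8 := lt_trans c40 c103
  have c109 : v 4 ≤ r 3 := le_of_lt (lt_of_lt_of_le c103 c10)
  have c110 : S5 l v r := h.e5.resolve_right fun z => not_lt.mpr c104 z.1
  have c111 : v 10 ≤ r 3 := le_of_lt (lt_of_lt_of_le c108 c10)
  have c112 : v 5 ≤ r 3 := le_of_lt (lt_of_lt_of_le c42 c109)
  have c113 : l 2 < r 1 := c110.2.1
  have c114 : ¬ S16 l v r := fun z => not_lt.mpr c111 z.2.2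
  have c115 : ¬ S14 l v r := fun z => not_lt.mpr c112 z.2.2
  have c116 : l 2 ≤ v 8 := le_of_lt (lt_of_lt_of_le c113 c106)
  have c117 : v 10 < l 3 := (h.e16.resolve_left c114).1
  have c118 : v 5 < l 3 := (h.e14.resolve_left c115).1
  have c119 : l 3 < r 5 := (h.e14.resolve_left c115).2.1
  have c120 : S11 l v r := h.e11.resolve_right fun z => not_lt.mpr c116 z.1
  have c121 : v 10 ≤ r 13 := le_of_lt (lt_of_lt_of_le c117 c11)
  have c122 : v 17 ≤ l 3 := le_of_lt (lt_of_le_of_lt c55 c118)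
  have c123 : v 12 < r 5 := lt_trans c66 c119
  have c124 : l 3 < v 7 := lt_trans c119 c89
  have c125 : l 3 ≤ v 8 := le_of_lt (lt_of_lt_of_le c119 c105)
  have c126 : l 8 < r 2 := c120.2.1
  have c127 : r 2 < v 8 := c120.2.2
  have c128 : S33 l v r := h.e33.resolve_right fun z => not_lt.mpr c121 z.2.2
  have c129 : v 17 ≤ r 12 := le_of_lt (lt_of_le_of_lt c122 c65)
  have c130 : v 12 ≤ v 7 := le_of_lt (lt_of_lt_of_le c123 c90)
  have c131 : v 12 < l 15 := lt_trans c123 c97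
  have c132 : S15 l v r := h.e15.resolve_right fun z => not_lt.mpr c125 z.1
  have c133 : l 8 ≤ r 2 := le_of_lt c126
  have c134 : r 2 < r 7 := lt_trans c127 c82
  have c135 : r 10 < v 13 := c128.2.2
  have c136 : ¬ S40 l v r := fun z => not_lt.mpr c129 z.2.2
  have c137 : v 3 < l 8 := c132.1
  have c138 : v 3 < r 2 := lt_of_lt_of_le c137 c133
  have c139 : v 3 < r 7 := lt_trans c138 c134
  have c140 : l 7 ≤ v 13 := le_of_lt (lt_of_le_of_lt c50 c135)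
  have c141 : r 12 < l 8 := lt_trans a0 c137
  have c142 : S29 l v r := h.e29.resolve_right fun z => not_lt.mpr c140 z.1
  have c143 : r 12 < v 15 := lt_trans c141 c107
  have c144 : v 7 < l 13 := c142.1
  have c145 : r 7 < v 13 := c142.2.2
  have c146 : r 12 ≤ l 15 := not_lt.mp fun z => h.n12_15 c131 z c143
  have c147 : l 3 < l 13 := lt_trans c124 c144
  have c148 : v 3 < v 13 := lt_trans c139 c145
  have c149 : l 13 ≤ l 15 := le_trans c12 c146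
  have c150 : v 15 < v 12 := not_le.mp fun z => L234 h c136 c147 c149 c148 c67 c63 z c62
  not_lt.mpr c130 (lt_trans c87 c150)

theorem L254 {l v r : ℕ → ℝ} (h : H l v r) (a0 : v 4 < l 8) (a1 : l 8 ≤ v 13) (a2 : v 3 ≤ l 13) (a3 : l 10 ≤ v 4) (a4 : v 10 < v 4) : False :=
  have c0 : l 8 ≤ r 3 := not_lt.mp fun z => L217 h z
  have c1 : l 10 < l 8 := lt_of_le_of_lt a3 a0
  have c2 : v 10 < l 8 := lt_trans a4 a0
  have c3 : l 10 ≤ v 13 := le_of_lt (lt_of_lt_of_le c1 a1)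
  have c4 : v 10 ≤ r 3 := le_of_lt (lt_of_lt_of_le c2 c0)
  have c5 : S33 l v r := h.e33.resolve_right fun z => not_lt.mpr c3 z.1
  have c6 : ¬ S16 l v r := fun z => not_lt.mpr c4 z.2.2
  have c7 : l 13 < r 10 := c5.2.1
  have c8 : r 10 < v 3 := (h.e16.resolve_left c6).2.2
  not_lt.mpr a2 (lt_trans c7 c8)

theorem L255 {l v r : ℕ → ℝ} (h : H l v r) (a0 : S15 l v r) (a1 : v 8 < r 5) (a2 : l 0 ≤ v 4) (a3 : r 3 ≤ v 13) (a4 : r 3 ≤ v 12) (a5 : v 11 ≤ v 0) (a6 : v 8 ≤ r 11) (a7 : l 4 ≤ r 1) (a8 : l 9 < r 1) (a9 : l 1 < l 5) (a10 : l 1 ≤ r 17) (a11 : v 17 < l 5) (a12 : l 5 ≤ r 10) (a13 : r 10 < v 9) : False :=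
  have c0 : v 12 < v 13 := not_le.mp fun z => L86 h z
  have c1 : v 3 < l 8 := a0.1
  have c2 : r 3 < v 8 := a0.2.2
  have c3 : v 3 ≤ v 8 := not_lt.mp fun z => L145 h z c1
  have c4 : r 3 ≤ r 11 := le_of_lt (lt_of_lt_of_le c2 a6)
  have c5 : v 3 ≤ r 5 := le_of_lt (lt_of_le_of_lt c3 a1)
  have c6 : S14 l v r := h.e14.resolve_right fun z => not_lt.mpr c5 z.2.2
  have c7 : l 5 < r 3 := c6.2.1
  have c8 : v 3 < l 5 := c6.1
  have c9 : v 17 < r 3 := lt_trans a11 c7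
  have c10 : l 1 < r 3 := lt_trans a9 c7
  have c11 : v 3 ≤ r 10 := le_of_lt (lt_of_lt_of_le c8 a12)
  have c12 : v 17 ≤ r 11 := le_of_lt (lt_of_lt_of_le c9 c4)
  have c13 : l 1 ≤ v 12 := le_of_lt (lt_of_lt_of_le c10 a4)
  have c14 : S16 l v r := h.e16.resolve_right fun z => not_lt.mpr c11 z.2.2
  have c15 : ¬ S37 l v r := fun z => not_lt.mpr c12 z.2.2
  have c16 : S10 l v r := h.e10.resolve_right fun z => not_lt.mpr c13 z.1
  have c17 : l 10 < r 3 := c14.2.1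
  have c18 : r 17 < v 11 := (h.e37.resolve_left c15).2.2
  have c19 : r 1 < v 12 := c16.2.2
  have c20 : l 10 ≤ v 13 := le_of_lt (lt_of_lt_of_le c17 a3)
  have c21 : l 1 ≤ v 11 := le_of_lt (lt_of_le_of_lt a10 c18)
  have c22 : r 1 < v 13 := lt_trans c19 c0
  have c23 : S33 l v r := h.e33.resolve_right fun z => not_lt.mpr c20 z.1
  have c24 : S9 l v r := h.e9.resolve_right fun z => not_lt.mpr c21 z.1
  have c25 : l 4 ≤ v 13 := le_of_lt (lt_of_le_of_lt a7 c22)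
  have c26 : l 13 < r 10 := c23.2.1
  have c27 : r 1 < v 11 := c24.2.2
  have c28 : S21 l v r := h.e21.resolve_right fun z => not_lt.mpr c25 z.1
  have c29 : l 13 < v 9 := lt_trans c26 a13
  have c30 : l 9 < v 11 := lt_trans a8 c27
  have c31 : v 4 < l 13 := c28.1
  have c32 : l 9 ≤ v 0 := le_of_lt (lt_of_lt_of_le c30 a5)
  have c33 : v 4 < v 9 := lt_trans c31 c29
  have c34 : ¬ S2 l v r := fun z => not_lt.mpr c32 z.1
  have c35 : l 0 ≤ v 9 := le_of_lt (lt_of_le_of_lt a2 c33)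
  not_lt.mpr c35 (h.e2.resolve_left c34).1

theorem L256 {l v r : ℕ → ℝ} (h : H l v r) (a0 : S6 l v r) (a1 : v 7 < r 10) (a2 : l 1 ≤ v 17) (a3 : v 17 < l 5) (a4 : v 8 < l 0) (a5 : r 10 < v 9) : False :=
  have c0 : l 4 ≤ r 8 := not_lt.mp fun z => L199 h z
  have c1 : v 0 ≤ r 0 := not_lt.mp fun z => L141 h z
  have c2 : l 5 ≤ v 5 := not_lt.mp fun z => L135 h z
  have c3 : l 17 ≤ v 17 := not_lt.mp fun z => L140 h z
  have c4 : v 17 ≤ r 17 := not_lt.mp fun z => L157 h z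
  have c5 : l 10 ≤ r 10 := not_lt.mp fun z => L52 h z
  have c6 : l 5 ≤ r 5 := not_lt.mp fun z => L116 h z
  have c7 : l 4 < r 8 := not_le.mp fun z => L198 h z
  have c8 : l 12 ≤ v 12 := not_lt.mp fun z => L125 h z
  have c9 : l 12 ≤ l 13 := not_lt.mp fun z => L90 h z
  have c10 : v 12 < v 13 := not_le.mp fun z => L86 h z
  have c11 : v 12 ≤ v 13 := not_lt.mp fun z => L84 h z
  have c12 : l 8 ≤ r 3 := not_lt.mp fun z => L217 h z
  have c13 : S24 l v r := Classical.byContradiction fun z => L249 h z a4 a5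
  have c14 : v 5 < l 9 := c13.1
  have c15 : l 5 ≤ l 9 := not_lt.mp fun z => L174 h c14 z
  have c16 : r 5 < v 9 := c13.2.2
  have c17 : l 5 ≤ v 9 := le_of_lt (lt_of_le_of_lt c6 c16)
  have c18 : v 17 ≤ v 9 := le_of_lt (lt_of_lt_of_le a3 c17)
  have c19 : l 1 ≤ v 9 := le_trans a2 c18
  have c20 : S8 l v r := h.e8.resolve_right fun z => not_lt.mpr c19 z.1
  have c21 : l 9 < r 1 := c20.2.1
  have c22 : l 5 ≤ r 1 := le_of_lt (lt_of_le_of_lt c15 c21)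
  have c23 : l 10 ≤ v 9 := le_of_lt (lt_of_le_of_lt c5 a5)
  have c24 : ¬ S31 l v r := fun z => not_lt.mpr c23 z.1
  have c25 : v 10 < l 9 := (h.e31.resolve_left c24).1
  have c26 : l 10 ≤ l 9 := not_lt.mp fun z => L54 h c25 z
  have c27 : l 10 ≤ r 1 := le_of_lt (lt_of_le_of_lt c26 c21)
  have c28 : v 10 < r 1 := lt_trans c25 c21
  have c29 : l 1 < l 5 := lt_of_le_of_lt a2 a3
  have c30 : l 1 ≤ r 17 := le_trans a2 c4
  have c31 : v 17 ≤ r 5 := le_of_lt (lt_of_lt_of_le a3 c6)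
  have c32 : ¬ S25 l v r := fun z => not_lt.mpr c31 z.2.2
  have c33 : r 17 < v 5 := (h.e25.resolve_left c32).2.2
  have c34 : r 17 ≤ v 5 := le_of_lt c33
  have c35 : v 17 ≤ v 5 := le_of_lt (lt_of_lt_of_le a3 c2)
  have c36 : l 17 ≤ v 5 := le_trans c3 c35
  have c37 : l 9 < r 10 := (h.e31.resolve_left c24).2.1
  have c38 : l 9 ≤ r 10 := le_of_lt c37
  have c39 : v 5 ≤ r 10 := le_of_lt (lt_of_lt_of_le c14 c38)
  have c40 : l 5 ≤ r 10 := le_trans c2 c39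
  have c41 : v 8 ≤ r 0 := not_lt.mp fun z => L35 h z a4
  have c42 : ¬ S1 l v r := fun z => not_lt.mpr c41 z.2.2
  have c43 : r 8 < v 0 := (h.e1.resolve_left c42).2.2
  have c44 : l 4 < v 0 := lt_trans c7 c43
  have c45 : l 4 ≤ r 0 := le_of_lt (lt_of_lt_of_le c44 c1)
  have c46 : l 4 ≤ v 0 := le_of_lt (lt_of_le_of_lt c0 c43)
  have c47 : l 0 < r 8 := (h.e1.resolve_left c42).2.1
  have c48 : l 0 ≤ r 8 := le_of_lt c47
  have c49 : v 8 ≤ l 0 := le_of_lt a4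
  have c50 : l 4 < r 1 := a0.2.1
  have c51 : r 1 < v 4 := a0.2.2
  have c52 : l 4 ≤ r 1 := le_of_lt c50
  have c53 : l 5 ≤ v 4 := le_of_lt (lt_of_le_of_lt c22 c51)
  have c54 : v 10 < v 4 := lt_trans c28 c51
  have c55 : l 10 ≤ v 4 := le_of_lt (lt_of_le_of_lt c27 c51)
  have c56 : ¬ S19 l v r := fun z => not_lt.mpr c53 z.1
  have c57 : l 4 < r 5 := (h.e19.resolve_left c56).2.1
  have c58 : v 5 < l 4 := (h.e19.resolve_left c56).1
  have c59 : v 5 < r 8 := lt_trans c58 c7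
  have c60 : v 5 < r 0 := lt_of_lt_of_le c58 c45
  have c61 : v 5 ≤ v 0 := le_of_lt (lt_of_lt_of_le c58 c46)
  have c62 : l 17 ≤ r 8 := le_of_lt (lt_of_le_of_lt c36 c59)
  have c63 : r 17 ≤ r 8 := le_of_lt (lt_of_le_of_lt c34 c59)
  have c64 : l 17 ≤ r 0 := le_of_lt (lt_of_le_of_lt c36 c60)
  have c65 : r 17 ≤ v 0 := le_of_lt (lt_of_lt_of_le c33 c61)
  have c66 : ¬ S3 l v r := fun z => L202 h z c65 c64
  have c67 : l 0 < r 11 := (h.e3.resolve_left c66).2.1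
  have c68 : v 11 < l 0 := (h.e3.resolve_left c66).1
  have c69 : v 8 ≤ r 11 := le_of_lt (lt_of_le_of_lt c49 c67)
  have c70 : v 11 ≤ v 0 := not_lt.mp fun z => L120 h z c68
  have c71 : v 3 ≤ r 12 := not_lt.mp fun z => L253 h z a0 a1 a2 a3 a4 a5
  have c72 : S17 l v r := h.e17.resolve_right fun z => not_lt.mpr c71 z.2.2
  have c73 : v 3 < l 12 := c72.1
  have c74 : r 3 < v 12 := c72.2.2
  have c75 : v 3 ≤ v 12 := le_of_lt (lt_of_lt_of_le c73 c8)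
  have c76 : v 3 ≤ l 13 := le_of_lt (lt_of_lt_of_le c73 c9)
  have c77 : r 3 ≤ v 12 := le_of_lt c74
  have c78 : r 3 < v 13 := lt_trans c74 c10
  have c79 : r 3 ≤ v 13 := le_of_lt (lt_of_lt_of_le c74 c11)
  have c80 : l 8 ≤ v 13 := le_of_lt (lt_of_le_of_lt c12 c78)
  have c81 : l 8 ≤ v 4 := not_lt.mp fun z => L254 h z c80 c76 c55 c54
  have c82 : ¬ S20 l v r := fun z => not_lt.mpr c81 z.1
  have c83 : r 8 < v 4 := (h.e20.resolve_left c82).2.2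
  have c84 : v 8 < l 4 := (h.e20.resolve_left c82).1
  have c85 : l 0 ≤ v 4 := le_of_lt (lt_of_le_of_lt c48 c83)
  have c86 : v 8 < r 5 := lt_trans c84 c57
  have c87 : ¬ S15 l v r := fun z => L255 h z c86 c85 c79 c77 c70 c69 c52 c21 c29 c30 a3 c40 a5
  have c88 : r 8 < v 3 := (h.e15.resolve_left c87).2.2
  have c89 : r 8 < l 12 := lt_trans c88 c73
  have c90 : r 8 ≤ v 12 := le_of_lt (lt_of_lt_of_le c88 c75)
  have c91 : r 17 ≤ l 12 := le_of_lt (lt_of_le_of_lt c63 c89)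
  have c92 : l 17 ≤ v 12 := le_trans c62 c90
  have c93 : S40 l v r := h.e40.resolve_right fun z => not_lt.mpr c91 z.2.1
  not_lt.mpr c92 c93.1

theorem L257 {l v r : ℕ → ℝ} (h : H l v r) (a0 : S22 l v r) (a1 : r 4 ≤ v 10) (a2 : l 10 ≤ r 0) (a3 : l 0 ≤ r 4) : False :=
  have c0 : l 15 < r 4 := a0.2.1
  have c1 : r 4 < v 15 := a0.2.2
  have c2 : l 15 ≤ v 10 := le_of_lt (lt_of_lt_of_le c0 a1)
  have c3 : l 0 ≤ v 15 := le_of_lt (lt_of_le_of_lt a3 c1)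
  have c4 : ¬ S34 l v r := fun z => not_lt.mpr c2 z.1
  have c5 : S4 l v r := h.e4.resolve_right fun z => not_lt.mpr c3 z.1
  have c6 : v 15 < l 10 := (h.e34.resolve_left c4).1
  have c7 : r 0 < v 15 := c5.2.2
  not_lt.mpr a2 (lt_trans c7 c6)

theorem L258 {l v r : ℕ → ℝ} (h : H l v r) (a0 : r 8 < v 4) (a1 : l 3 ≤ r 8) (a2 : l 13 ≤ l 5) (a3 : r 4 ≤ r 13) (a4 : l 17 ≤ v 13) (a5 : r 12 < r 9) (a6 : v 12 ≤ l 5) (a7 : v 4 ≤ r 12) (a8 : v 12 < v 9) (a9 : l 13 < v 9) (a10 : l 4 ≤ r 10) (a11 : l 4 ≤ r 9) (a12 : v 4 ≤ v 5) (a13 : v 4 ≤ r 17) (a14 : v 4 ≤ r 9) (a15 : l 5 ≤ r 10) (a16 : l 0 < r 8) (a17 : l 10 ≤ l 9) : False :=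
  have c0 : l 0 ≤ r 8 := le_of_lt a16
  have c1 : r 8 < r 4 := not_le.mp fun z => L103 h a0 z
  have c2 : l 0 < v 4 := lt_trans a16 a0
  have c3 : l 0 ≤ v 4 := le_of_lt (lt_of_le_of_lt c0 a0)
  have c4 : r 8 < v 5 := lt_of_lt_of_le a0 a12
  have c5 : l 0 ≤ r 4 := le_of_lt (lt_of_le_of_lt c0 c1)
  have c6 : l 0 ≤ r 17 := le_of_lt (lt_of_lt_of_le c2 a13)
  have c7 : l 3 ≤ v 5 := le_of_lt (lt_of_le_of_lt a1 c4)
  have c8 : S2 l v r := Classical.byContradiction fun z => L246 h z c3 c2 c6 a11 a5 a14 a4 a8 a9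
  have c9 : S14 l v r := h.e14.resolve_right fun z => not_lt.mpr c7 z.1
  have c10 : l 9 < r 0 := c8.2.1
  have c11 : l 5 < r 3 := c9.2.1
  have c12 : v 3 < l 5 := c9.1
  have c13 : l 10 ≤ r 0 := le_of_lt (lt_of_le_of_lt a17 c10)
  have c14 : v 12 ≤ r 3 := le_of_lt (lt_of_le_of_lt a6 c11)
  have c15 : l 13 ≤ r 3 := le_of_lt (lt_of_le_of_lt a2 c11)
  have c16 : v 3 ≤ r 10 := le_of_lt (lt_of_lt_of_le c12 a15)
  have c17 : ¬ S17 l v r := fun z => not_lt.mpr c14 z.2.2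
  have c18 : S16 l v r := h.e16.resolve_right fun z => not_lt.mpr c16 z.2.2
  have c19 : r 12 < v 3 := (h.e17.resolve_left c17).2.2
  have c20 : r 3 < v 10 := c18.2.2
  have c21 : v 3 < l 10 := c18.1
  have c22 : v 4 ≤ v 3 := le_of_lt (lt_of_le_of_lt a7 c19)
  have c23 : l 13 ≤ v 10 := le_of_lt (lt_of_le_of_lt c15 c20)
  have c24 : v 4 ≤ l 10 := le_of_lt (lt_of_le_of_lt c22 c21)
  have c25 : ¬ S33 l v r := fun z => not_lt.mpr c23 z.1
  have c26 : r 13 < v 10 := (h.e33.resolve_left c25).2.2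
  have c27 : r 4 ≤ v 10 := le_of_lt (lt_of_le_of_lt a3 c26)
  have c28 : ¬ S22 l v r := fun z => L257 h z c27 c13 c5
  have c29 : r 15 < v 4 := (h.e22.resolve_left c28).2.2
  have c30 : v 15 < l 4 := (h.e22.resolve_left c28).1
  have c31 : r 15 ≤ l 10 := le_of_lt (lt_of_lt_of_le c29 c24)
  have c32 : v 15 ≤ r 10 := le_of_lt (lt_of_lt_of_le c30 a10)
  have c33 : S34 l v r := h.e34.resolve_right fun z => not_lt.mpr c31 z.2.1
  not_lt.mpr c32 c33.2.2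

theorem L259 {l v r : ℕ → ℝ} (h : H l v r) (a0 : ¬ S15 l v r) (a1 : l 13 ≤ l 5) (a2 : r 4 ≤ r 13) (a3 : l 17 ≤ v 13) (a4 : r 12 ≤ r 4) (a5 : r 12 < r 9) (a6 : v 12 ≤ l 5) (a7 : v 4 ≤ r 12) (a8 : v 12 < v 9) (a9 : l 13 < v 9) (a10 : l 4 ≤ r 10) (a11 : l 4 ≤ r 9) (a12 : v 4 ≤ v 5) (a13 : v 4 ≤ r 17) (a14 : v 4 ≤ r 9) (a15 : l 5 ≤ r 10) (a16 : l 0 < r 8) (a17 : l 10 ≤ l 9) : False :=
  have c0 : l 3 ≤ v 3 := not_lt.mp fun z => L128 h z
  have c1 : l 12 < r 4 := not_le.mp fun z => L209 h z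
  have c2 : l 3 < r 8 := (h.e15.resolve_left a0).2.1
  have c3 : v 8 < l 3 := (h.e15.resolve_left a0).1
  have c4 : l 3 ≤ r 8 := le_of_lt c2
  have c5 : v 8 ≤ v 3 := le_of_lt (lt_of_lt_of_le c3 c0)
  have c6 : v 8 ≤ l 3 := le_of_lt c3
  have c7 : v 4 ≤ r 8 := not_lt.mp fun z => L258 h z c4 a1 a2 a3 a5 a6 a7 a8 a9 a10 a11 a12 a13 a14 a15 a16 a17
  have c8 : S20 l v r := h.e20.resolve_right fun z => not_lt.mpr c7 z.2.2
  have c9 : r 4 < v 8 := c8.2.2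
  have c10 : l 12 < v 8 := lt_trans c1 c9
  have c11 : r 4 ≤ l 3 := le_of_lt (lt_of_lt_of_le c9 c6)
  have c12 : l 12 ≤ v 3 := le_of_lt (lt_of_lt_of_le c10 c5)
  have c13 : r 12 ≤ l 3 := le_trans a4 c11
  have c14 : ¬ S17 l v r := fun z => not_lt.mpr c12 z.1
  not_lt.mpr c13 (h.e17.resolve_left c14).2.1

theorem L260 {l v r : ℕ → ℝ} (h : H l v r) (a0 : v 11 ≤ v 0) (a1 : v 0 ≤ r 17) (a2 : v 17 ≤ l 0) : False :=
  have c0 : v 11 ≤ r 0 := not_lt.mp fun z => L16 h z a0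
  have c1 : v 11 ≤ r 17 := le_trans a0 a1
  have c2 : ¬ S3 l v r := fun z => not_lt.mpr c0 z.2.2
  have c3 : S37 l v r := h.e37.resolve_right fun z => not_lt.mpr c1 z.2.2
  have c4 : l 0 < r 11 := (h.e3.resolve_left c2).2.1
  have c5 : r 11 < v 17 := c3.2.2
  not_lt.mpr a2 (lt_trans c4 c5)

theorem L261 {l v r : ℕ → ℝ} (h : H l v r) (a0 : l 0 ≤ r 17) (a1 : l 16 ≤ r 0) (a2 : v 15 < r 1) (a3 : r 15 < v 10) (a4 : l 13 ≤ l 8) (a5 : v 17 < l 10) (a6 : r 15 ≤ v 0) (a7 : l 10 < l 0) (a8 : r 12 < v 15) (a9 : v 17 < v 15) (a10 : l 15 < v 5) (a11 : l 1 ≤ r 15) (a12 : l 1 ≤ v 0) (a13 : l 17 ≤ v 0) (a14 : l 5 < v 0) (a15 : v 17 < l 0) (a16 : v 17 ≤ l 0) (a17 : v 12 ≤ v 0) (a18 : l 1 ≤ r 8) (a19 : l 5 < v 13) (a20 : r 12 < r 4) (a21 : v 4 < l 13) (a22 : r 4 < v 1) (a23 : v 17 ≤ r 1) (a24 : v 5 ≤ r 1) (a25 : l 1 < l 5) (a26 : l 1 ≤ r 17) (a27 : r 17 ≤ r 10) (a28 : v 17 < l 5) (a29 : v 8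 < l 0) : False :=
  have c0 : l 5 ≤ r 5 := not_lt.mp fun z => L116 h z
  have c1 : l 12 ≤ r 4 := not_lt.mp fun z => L212 h z
  have c2 : r 12 ≤ r 13 := not_lt.mp fun z => L167 h z
  have c3 : l 0 < r 15 := not_le.mp fun z => L205 h z
  have c4 : v 12 < l 13 := not_le.mp fun z => L82 h z
  have c5 : v 11 ≤ r 11 := not_lt.mp fun z => L104 h z
  have c6 : l 0 < v 10 := lt_trans c3 a3
  have c7 : l 12 ≤ v 1 := le_of_lt (lt_of_le_of_lt c1 a22)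
  have c8 : ¬ S10 l v r := fun z => not_lt.mpr c7 z.1
  have c9 : l 1 < r 12 := (h.e10.resolve_left c8).2.1
  have c10 : l 1 ≤ r 13 := le_of_lt (lt_of_lt_of_le c9 c2)
  have c11 : v 17 ≤ r 5 := le_of_lt (lt_of_lt_of_le a28 c0)
  have c12 : ¬ S25 l v r := fun z => not_lt.mpr c11 z.2.2
  have c13 : r 17 < v 5 := (h.e25.resolve_left c12).2.2
  have c14 : v 8 < r 17 := lt_of_lt_of_le a29 a0
  have c15 : l 10 < r 17 := lt_of_lt_of_le a7 a0
  have c16 : v 8 < v 5 := lt_trans c14 c13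
  have c17 : v 10 ≤ r 17 := not_lt.mp fun z => h.n17_10 a5 c15 z
  have c18 : v 10 < v 5 := lt_of_le_of_lt c17 c13
  have c19 : r 15 < r 17 := lt_of_lt_of_le a3 c17
  have c20 : l 0 < r 17 := lt_of_lt_of_le c6 c17
  have c21 : v 2 < v 5 := not_le.mp fun z => L214 h z a9 c19 a10 c13
  have c22 : v 0 ≤ r 17 := not_lt.mp fun z => h.n17_0 a15 c20 z
  have c23 : v 2 ≤ r 1 := le_of_lt (lt_of_lt_of_le c21 a24)
  have c24 : ¬ S5 l v r := fun z => not_lt.mpr c23 z.2.2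
  have c25 : v 2 < l 1 := (h.e5.resolve_left c24).1
  have c26 : v 2 ≤ r 8 := le_of_lt (lt_of_lt_of_le c25 a18)
  have c27 : v 2 ≤ v 0 := le_of_lt (lt_of_lt_of_le c25 a12)
  have c28 : v 2 ≤ r 15 := le_of_lt (lt_of_lt_of_le c25 a11)
  have c29 : v 2 < l 5 := lt_trans c25 a25
  have c30 : S11 l v r := h.e11.resolve_right fun z => not_lt.mpr c26 z.2.2
  have c31 : S12 l v r := h.e12.resolve_right fun z => not_lt.mpr c28 z.2.2
  have c32 : l 8 < r 2 := c30.2.1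
  have c33 : r 2 < v 8 := c30.2.2
  have c34 : v 2 < l 15 := c31.1
  have c35 : l 13 < r 2 := lt_of_le_of_lt a4 c32
  have c36 : r 2 < v 5 := lt_trans c33 c16
  have c37 : r 2 ≤ l 5 := not_lt.mp fun z => h.n2_5 c29 z c36
  have c38 : r 2 < v 13 := lt_of_le_of_lt c37 a19
  have c39 : l 13 ≤ v 2 := not_lt.mp fun z => h.n2_13 z c35 c38
  have c40 : l 13 < l 15 := lt_of_le_of_lt c39 c34
  have c41 : v 4 < v 2 := lt_of_lt_of_le a21 c39
  have c42 : v 12 < l 15 := lt_trans c4 c40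
  have c43 : r 12 ≤ l 15 := not_lt.mp fun z => h.n12_15 c42 z a8
  have c44 : v 0 < v 11 := not_le.mp fun z => L260 h z c22 a16
  have c45 : v 0 ≤ r 11 := le_of_lt (lt_of_lt_of_le c44 c5)
  have c46 : l 17 ≤ v 11 := le_of_lt (lt_of_le_of_lt a13 c44)
  have c47 : S3 l v r := h.e3.resolve_right fun z => not_lt.mpr c45 z.2.2
  have c48 : ¬ S37 l v r := fun z => not_lt.mpr c46 z.1
  have c49 : r 0 < v 11 := c47.2.2
  have c50 : v 0 < l 11 := c47.1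
  have c51 : l 11 < r 17 := (h.e37.resolve_left c48).2.1
  have c52 : l 16 ≤ v 11 := le_of_lt (lt_of_le_of_lt a1 c49)
  have c53 : l 5 < l 11 := lt_trans a14 c50
  have c54 : v 12 ≤ l 11 := le_of_lt (lt_of_le_of_lt a17 c50)
  have c55 : r 15 ≤ l 11 := le_of_lt (lt_of_le_of_lt a6 c50)
  have c56 : v 2 ≤ l 11 := le_of_lt (lt_of_le_of_lt c27 c50)
  have c57 : l 11 ≤ r 10 := le_of_lt (lt_of_lt_of_le c51 a27)
  have c58 : ¬ S36 l v r := fun z => not_lt.mpr c52 z.1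
  have c59 : l 11 < r 16 := (h.e36.resolve_left c58).2.1
  have c60 : v 16 < l 11 := (h.e36.resolve_left c58).1
  have c61 : l 5 < r 16 := lt_trans c53 c59
  have c62 : v 12 ≤ r 16 := le_of_lt (lt_of_le_of_lt c54 c59)
  have c63 : r 15 ≤ r 16 := le_of_lt (lt_of_le_of_lt c55 c59)
  have c64 : v 2 ≤ r 16 := le_of_lt (lt_of_le_of_lt c56 c59)
  have c65 : v 16 ≤ r 10 := le_of_lt (lt_of_lt_of_le c60 c57)
  have c66 : S39 l v r := h.e39.resolve_right fun z => not_lt.mpr c62 z.2.2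
  have c67 : S13 l v r := h.e13.resolve_right fun z => not_lt.mpr c64 z.2.2
  have c68 : ¬ S35 l v r := fun z => not_lt.mpr c65 z.2.2
  have c69 : l 16 < r 12 := c66.2.1
  have c70 : v 2 < l 16 := c67.1
  have c71 : r 16 < v 10 := (h.e35.resolve_left c68).2.2
  have c72 : l 16 < r 4 := lt_trans c69 a20
  have c73 : l 16 ≤ l 15 := le_of_lt (lt_of_lt_of_le c69 c43)
  have c74 : v 4 < l 16 := lt_trans c41 c70
  have c75 : l 13 < l 16 := lt_of_le_of_lt c39 c70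
  have c76 : r 16 ≤ r 17 := le_of_lt (lt_of_lt_of_le c71 c17)
  have c77 : r 16 < v 5 := lt_trans c71 c18
  have c78 : v 16 ≤ r 4 := not_lt.mp fun z => h.n4_16 c74 c72 z
  have c79 : l 5 ≤ v 16 := not_lt.mp fun z => h.n16_5 z c61 c77
  have c80 : v 16 ≤ v 1 := le_of_lt (lt_of_le_of_lt c78 a22)
  have c81 : v 17 ≤ v 16 := le_of_lt (lt_of_lt_of_le a28 c79)
  have c82 : r 6 < r 1 := not_le.mp fun z => L225 h z c76 c80 c63 a23 a2
  have c83 : v 6 ≤ r 1 := not_lt.mp fun z => L79 h c82 z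
  have c84 : ¬ S7 l v r := fun z => not_lt.mpr c83 z.2.2
  have c85 : v 6 < l 1 := (h.e7.resolve_left c84).1
  have c86 : v 6 ≤ r 17 := le_of_lt (lt_of_lt_of_le c85 a26)
  have c87 : v 6 ≤ r 13 := le_of_lt (lt_of_lt_of_le c85 c10)
  have c88 : v 6 ≤ r 15 := le_of_lt (lt_of_lt_of_le c85 a11)
  have c89 : S28 l v r := h.e28.resolve_right fun z => not_lt.mpr c86 z.2.2
  have c90 : S26 l v r := h.e26.resolve_right fun z => not_lt.mpr c87 z.2.2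
  have c91 : S27 l v r := h.e27.resolve_right fun z => not_lt.mpr c88 z.2.2
  have c92 : r 6 < v 17 := c89.2.2
  have c93 : v 6 < l 13 := c90.1
  have c94 : l 15 < r 6 := c91.2.1
  have c95 : r 6 < v 16 := lt_of_lt_of_le c92 c81
  have c96 : v 6 < l 16 := lt_trans c93 c75
  have c97 : l 16 < r 6 := lt_of_le_of_lt c73 c94
  h.n6_16 c96 c97 c95

theorem L262 {l v r : ℕ → ℝ} (h : H l v r) (a0 : ¬ S6 l v r) (a1 : l 1 ≤ v 17) (a2 : v 17 < l 5) (a3 : v 8 < l 0) (a4 : r 10 < v 9) : False :=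
  have c0 : l 0 ≤ r 0 := not_lt.mp fun z => L26 h z
  have c1 : l 8 ≤ v 8 := not_lt.mp fun z => L110 h z
  have c2 : l 17 ≤ v 17 := not_lt.mp fun z => L140 h z
  have c3 : v 17 < r 17 := h.u17_1
  have c4 : l 5 < r 5 := not_le.mp fun z => L115 h z
  have c5 : l 5 ≤ v 5 := not_lt.mp fun z => L135 h z
  have c6 : v 1 ≤ r 1 := not_lt.mp fun z => L30 h z
  have c7 : l 9 ≤ r 9 := not_lt.mp fun z => L96 h z
  have c8 : l 10 ≤ v 10 := not_lt.mp fun z => L50 h z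
  have c9 : l 10 ≤ r 10 := not_lt.mp fun z => L52 h z
  have c10 : l 5 ≤ r 5 := not_lt.mp fun z => L116 h z
  have c11 : l 4 ≤ v 4 := not_lt.mp fun z => L3 h z
  have c12 : l 13 < r 4 := not_le.mp fun z => L207 h z
  have c13 : l 12 ≤ r 4 := not_lt.mp fun z => L212 h z
  have c14 : r 12 ≤ r 13 := not_lt.mp fun z => L167 h z
  have c15 : l 12 ≤ v 12 := not_lt.mp fun z => L125 h z
  have c16 : v 17 ≤ r 17 := not_lt.mp fun z => L157 h z
  have c17 : r 12 ≤ v 13 := not_lt.mp fun z => L159 h z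
  have c18 : v 13 ≤ r 13 := not_lt.mp fun z => L168 h z
  have c19 : l 8 ≤ r 8 := not_lt.mp fun z => L111 h z
  have c20 : l 3 ≤ v 3 := not_lt.mp fun z => L128 h z
  have c21 : v 8 < r 8 := h.u8_1
  have c22 : v 12 ≤ r 4 := not_lt.mp fun z => L210 h z
  have c23 : l 13 ≤ r 12 := not_lt.mp fun z => L88 h z
  have c24 : l 0 < r 15 := not_le.mp fun z => L205 h z
  have c25 : l 0 ≤ r 15 := not_lt.mp fun z => L206 h z
  have c26 : l 0 ≤ v 0 := not_lt.mp fun z => L64 h z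
  have c27 : S24 l v r := Classical.byContradiction fun z => L249 h z a3 a4
  have c28 : v 5 < l 9 := c27.1
  have c29 : l 5 ≤ l 9 := not_lt.mp fun z => L174 h c28 z
  have c30 : v 17 ≤ l 9 := le_of_lt (lt_of_lt_of_le a2 c29)
  have c31 : r 5 < v 9 := c27.2.2
  have c32 : l 5 ≤ v 9 := le_of_lt (lt_of_le_of_lt c10 c31)
  have c33 : v 17 ≤ v 9 := le_of_lt (lt_of_lt_of_le a2 c32)
  have c34 : l 1 ≤ v 9 := le_trans a1 c33
  have c35 : S8 l v r := h.e8.resolve_right fun z => not_lt.mpr c34 z.1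
  have c36 : l 9 < r 1 := c35.2.1
  have c37 : v 17 ≤ r 1 := le_of_lt (lt_of_le_of_lt c30 c36)
  have c38 : v 5 ≤ l 9 := le_of_lt c28
  have c39 : v 5 ≤ r 1 := le_of_lt (lt_of_le_of_lt c38 c36)
  have c40 : l 10 ≤ v 9 := le_of_lt (lt_of_le_of_lt c9 a4)
  have c41 : ¬ S31 l v r := fun z => not_lt.mpr c40 z.1
  have c42 : v 10 < l 9 := (h.e31.resolve_left c41).1
  have c43 : v 10 ≤ l 9 := le_of_lt c42
  have c44 : v 10 ≤ r 1 := le_of_lt (lt_of_le_of_lt c43 c36)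
  have c45 : l 10 < l 9 := lt_of_le_of_lt c8 c42
  have c46 : l 10 < r 1 := lt_trans c45 c36
  have c47 : l 9 < r 5 := c27.2.1
  have c48 : l 9 ≤ r 5 := le_of_lt c47
  have c49 : v 1 < l 9 := c35.1
  have c50 : v 1 ≤ r 5 := le_of_lt (lt_of_lt_of_le c49 c48)
  have c51 : v 1 ≤ r 9 := le_of_lt (lt_of_lt_of_le c49 c7)
  have c52 : l 9 < r 10 := (h.e31.resolve_left c41).2.1
  have c53 : l 9 ≤ r 10 := le_of_lt c52
  have c54 : v 1 ≤ r 10 := le_of_lt (lt_of_lt_of_le c49 c53)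
  have c55 : r 1 < v 9 := c35.2.2
  have c56 : v 1 < v 9 := lt_of_le_of_lt c6 c55
  have c57 : l 5 < r 9 := not_le.mp fun z => L124 h c32 z
  have c58 : v 17 < r 9 := lt_trans a2 c57
  have c59 : l 1 ≤ r 9 := le_of_lt (lt_of_le_of_lt a1 c58)
  have c60 : l 1 < r 9 := lt_of_le_of_lt a1 c58
  have c61 : v 5 ≤ r 10 := le_of_lt (lt_of_lt_of_le c28 c53)
  have c62 : l 5 ≤ r 10 := le_trans c5 c61
  have c63 : v 17 ≤ r 10 := le_of_lt (lt_of_lt_of_le a2 c62)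
  have c64 : l 1 ≤ r 10 := le_trans a1 c63
  have c65 : v 17 < r 5 := lt_trans a2 c4
  have c66 : l 1 ≤ r 5 := le_of_lt (lt_of_le_of_lt a1 c65)
  have c67 : v 17 ≤ v 5 := le_of_lt (lt_of_lt_of_le a2 c5)
  have c68 : l 1 ≤ v 5 := le_trans a1 c67
  have c69 : l 1 ≤ l 5 := le_of_lt (lt_of_le_of_lt a1 a2)
  have c70 : l 1 < l 5 := lt_of_le_of_lt a1 a2
  have c71 : l 1 ≤ r 17 := le_trans a1 c16
  have c72 : l 1 < r 17 := lt_of_le_of_lt a1 c3
  have c73 : v 17 ≤ r 5 := le_of_lt (lt_of_lt_of_le a2 c10)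
  have c74 : ¬ S25 l v r := fun z => not_lt.mpr c73 z.2.2
  have c75 : r 17 < v 5 := (h.e25.resolve_left c74).2.2
  have c76 : r 17 ≤ r 10 := le_of_lt (lt_of_lt_of_le c75 c61)
  have c77 : v 17 ≤ l 5 := le_of_lt a2
  have c78 : l 17 ≤ l 5 := le_of_lt (lt_of_le_of_lt c2 a2)
  have c79 : v 8 ≤ r 0 := not_lt.mp fun z => L35 h z a3
  have c80 : ¬ S1 l v r := fun z => not_lt.mpr c79 z.2.2
  have c81 : l 0 < r 8 := (h.e1.resolve_left c80).2.1
  have c82 : l 8 ≤ l 0 := le_of_lt (lt_of_le_of_lt c1 a3)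
  have c83 : l 8 ≤ r 15 := le_trans c82 c25
  have c84 : v 8 ≤ r 15 := le_of_lt (lt_of_lt_of_le a3 c25)
  have c85 : v 8 ≤ v 0 := le_of_lt (lt_of_lt_of_le a3 c26)
  have c86 : v 8 < v 0 := lt_of_lt_of_le a3 c26
  have c87 : v 8 < r 0 := lt_of_lt_of_le a3 c0
  have c88 : l 10 ≤ l 9 := not_lt.mp fun z => L54 h c42 z
  have c89 : v 10 < v 9 := not_le.mp fun z => L47 h a4 z
  have c90 : l 1 < r 4 := (h.e6.resolve_left a0).2.1
  have c91 : v 4 < l 1 := (h.e6.resolve_left a0).1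
  have c92 : r 4 < v 1 := (h.e6.resolve_left a0).2.2
  have c93 : l 1 ≤ r 4 := le_of_lt c90
  have c94 : l 4 ≤ l 1 := le_of_lt (lt_of_le_of_lt c11 c91)
  have c95 : v 4 ≤ l 1 := le_of_lt c91
  have c96 : v 4 ≤ r 9 := le_of_lt (lt_of_lt_of_le c91 c59)
  have c97 : v 4 ≤ r 17 := le_of_lt (lt_of_lt_of_le c91 c71)
  have c98 : v 4 ≤ v 5 := le_of_lt (lt_of_lt_of_le c91 c68)
  have c99 : v 4 ≤ r 5 := le_of_lt (lt_of_lt_of_le c91 c66)
  have c100 : l 13 < v 1 := lt_trans c12 c92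
  have c101 : v 12 ≤ v 1 := le_of_lt (lt_of_le_of_lt c22 c92)
  have c102 : l 12 ≤ v 1 := le_of_lt (lt_of_le_of_lt c13 c92)
  have c103 : r 4 < r 10 := lt_of_lt_of_le c92 c54
  have c104 : r 4 ≤ r 10 := le_of_lt (lt_of_lt_of_le c92 c54)
  have c105 : r 4 ≤ r 5 := le_of_lt (lt_of_lt_of_le c92 c50)
  have c106 : l 4 ≤ r 9 := le_of_lt (lt_of_le_of_lt c94 c60)
  have c107 : l 4 ≤ r 10 := le_trans c94 c64
  have c108 : S19 l v r := h.e19.resolve_right fun z => not_lt.mpr c99 z.2.2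
  have c109 : l 13 < v 9 := lt_trans c100 c56
  have c110 : v 12 < v 9 := lt_of_le_of_lt c101 c56
  have c111 : ¬ S10 l v r := fun z => not_lt.mpr c102 z.1
  have c112 : l 5 < r 4 := c108.2.1
  have c113 : r 4 < v 5 := c108.2.2
  have c114 : l 1 < r 12 := (h.e10.resolve_left c111).2.1
  have c115 : v 12 < l 1 := (h.e10.resolve_left c111).1
  have c116 : r 12 < v 1 := (h.e10.resolve_left c111).2.2
  have c117 : l 5 ≤ r 4 := le_of_lt c112
  have c118 : v 17 < r 4 := lt_trans a2 c112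
  have c119 : l 17 ≤ r 4 := le_of_lt (lt_of_le_of_lt c78 c112)
  have c120 : v 17 ≤ r 4 := le_of_lt (lt_of_le_of_lt c77 c112)
  have c121 : l 1 < r 13 := lt_of_lt_of_le c114 c14
  have c122 : v 4 ≤ r 12 := le_of_lt (lt_of_le_of_lt c95 c114)
  have c123 : l 12 ≤ l 1 := le_of_lt (lt_of_le_of_lt c15 c115)
  have c124 : v 12 ≤ r 17 := le_of_lt (lt_of_lt_of_le c115 c71)
  have c125 : v 12 ≤ l 5 := le_of_lt (lt_of_lt_of_le c115 c69)
  have c126 : r 12 < r 9 := lt_of_lt_of_le c116 c51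
  have c127 : v 4 ≤ r 13 := le_of_lt (lt_of_le_of_lt c95 c121)
  have c128 : l 12 < r 17 := lt_of_le_of_lt c123 c72
  have c129 : S40 l v r := h.e40.resolve_right fun z => not_lt.mpr c124 z.2.2
  have c130 : S21 l v r := h.e21.resolve_right fun z => not_lt.mpr c127 z.2.2
  have c131 : r 12 < v 17 := c129.2.2
  have c132 : l 17 < r 12 := c129.2.1
  have c133 : v 4 < l 13 := c130.1
  have c134 : r 4 < v 13 := c130.2.2
  have c135 : l 13 < v 17 := lt_of_le_of_lt c23 c131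
  have c136 : r 12 ≤ r 17 := le_of_lt (lt_of_lt_of_le c131 c16)
  have c137 : r 12 < r 4 := lt_trans c131 c118
  have c138 : r 12 ≤ r 4 := le_of_lt (lt_of_lt_of_le c131 c120)
  have c139 : l 17 ≤ v 13 := le_of_lt (lt_of_lt_of_le c132 c17)
  have c140 : r 4 ≤ r 13 := le_of_lt (lt_of_lt_of_le c134 c18)
  have c141 : l 5 < v 13 := lt_trans c112 c134
  have c142 : v 17 < v 13 := lt_of_le_of_lt c120 c134
  have c143 : l 13 ≤ l 5 := le_of_lt (lt_of_lt_of_le c135 c77)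
  have c144 : l 16 ≤ v 5 := not_lt.mp fun z => L200 h c75 c136 c128 z
  have c145 : l 16 ≤ l 9 := le_of_lt (lt_of_le_of_lt c144 c28)
  have c146 : S15 l v r := Classical.byContradiction fun z => L259 h z c143 c140 c139 c138 c126 c125 c122 c110 c109 c107 c106 c98 c97 c96 c62 c81 c88
  have c147 : v 3 < l 8 := c146.1
  have c148 : r 3 < v 8 := c146.2.2
  have c149 : v 3 < r 8 := lt_of_lt_of_le c147 c19
  have c150 : v 3 ≤ l 8 := le_of_lt c147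
  have c151 : r 3 < l 0 := lt_trans c148 a3
  have c152 : l 3 ≤ r 8 := le_of_lt (lt_of_le_of_lt c20 c149)
  have c153 : v 4 ≤ r 8 := not_lt.mp fun z => L258 h z c152 c143 c140 c139 c126 c125 c122 c110 c109 c107 c106 c98 c97 c96 c62 c81 c88
  have c154 : S20 l v r := h.e20.resolve_right fun z => not_lt.mpr c153 z.2.2
  have c155 : r 4 < v 8 := c154.2.2
  have c156 : l 8 < r 4 := c154.2.1
  have c157 : v 4 < l 8 := c154.1
  have c158 : r 4 < r 8 := lt_trans c155 c21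
  have c159 : v 12 < v 8 := lt_of_le_of_lt c22 c155
  have c160 : r 4 < l 0 := lt_trans c155 a3
  have c161 : r 4 < v 0 := lt_trans c155 c86
  have c162 : r 4 ≤ v 0 := le_of_lt (lt_of_lt_of_le c155 c85)
  have c163 : r 4 < r 0 := lt_trans c155 c87
  have c164 : r 4 ≤ r 15 := le_of_lt (lt_of_lt_of_le c155 c84)
  have c165 : l 8 < r 10 := lt_trans c156 c103
  have c166 : l 8 ≤ r 10 := le_of_lt (lt_of_lt_of_le c156 c104)
  have c167 : l 8 < r 5 := lt_of_lt_of_le c156 c105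
  have c168 : v 4 ≤ r 15 := le_of_lt (lt_of_lt_of_le c157 c83)
  have c169 : l 5 ≤ r 8 := le_of_lt (lt_of_le_of_lt c117 c158)
  have c170 : l 1 ≤ r 8 := le_of_lt (lt_of_le_of_lt c93 c158)
  have c171 : v 12 ≤ v 0 := le_of_lt (lt_of_lt_of_le c159 c85)
  have c172 : v 17 ≤ l 0 := le_of_lt (lt_of_le_of_lt c120 c160)
  have c173 : v 17 < l 0 := lt_of_le_of_lt c120 c160
  have c174 : l 5 < v 0 := lt_trans c112 c161
  have c175 : l 17 ≤ v 0 := le_of_lt (lt_of_le_of_lt c119 c161)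
  have c176 : l 1 ≤ v 0 := le_of_lt (lt_of_le_of_lt c93 c161)
  have c177 : l 17 ≤ r 0 := le_of_lt (lt_of_le_of_lt c119 c163)
  have c178 : l 1 ≤ r 15 := le_trans c93 c164
  have c179 : v 3 ≤ r 10 := le_of_lt (lt_of_le_of_lt c150 c165)
  have c180 : v 3 ≤ r 5 := le_of_lt (lt_of_le_of_lt c150 c167)
  have c181 : S22 l v r := h.e22.resolve_right fun z => not_lt.mpr c168 z.2.2
  have c182 : S16 l v r := h.e16.resolve_right fun z => not_lt.mpr c179 z.2.2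
  have c183 : S14 l v r := h.e14.resolve_right fun z => not_lt.mpr c180 z.2.2
  have c184 : l 15 < r 4 := c181.2.1
  have c185 : r 4 < v 15 := c181.2.2
  have c186 : l 10 < r 3 := c182.2.1
  have c187 : l 5 < r 3 := c183.2.1
  have c188 : l 5 < v 10 := not_le.mp fun z => L241 h c183 c166 c169 z
  have c189 : l 15 < v 5 := lt_trans c184 c113
  have c190 : l 15 ≤ v 0 := le_of_lt (lt_of_lt_of_le c184 c162)
  have c191 : l 15 ≤ r 13 := le_of_lt (lt_of_lt_of_le c184 c140)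
  have c192 : v 17 < v 15 := lt_of_le_of_lt c120 c185
  have c193 : r 12 < v 15 := lt_trans c137 c185
  have c194 : l 10 < l 0 := lt_trans c186 c151
  have c195 : v 12 ≤ r 3 := le_of_lt (lt_of_le_of_lt c125 c187)
  have c196 : l 13 ≤ v 10 := le_of_lt (lt_of_le_of_lt c143 c188)
  have c197 : ¬ S4 l v r := fun z => not_lt.mpr c190 z.1
  have c198 : ¬ S17 l v r := fun z => not_lt.mpr c195 z.2.2
  have c199 : ¬ S33 l v r := fun z => not_lt.mpr c196 z.1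
  have c200 : r 15 < v 0 := (h.e4.resolve_left c197).2.2
  have c201 : r 12 < v 3 := (h.e17.resolve_left c198).2.2
  have c202 : r 13 < v 10 := (h.e33.resolve_left c199).2.2
  have c203 : v 13 < l 10 := (h.e33.resolve_left c199).1
  have c204 : r 15 ≤ v 0 := le_of_lt c200
  have c205 : l 13 ≤ v 3 := le_of_lt (lt_of_le_of_lt c23 c201)
  have c206 : l 15 ≤ v 10 := le_of_lt (lt_of_le_of_lt c191 c202)
  have c207 : v 17 < l 10 := lt_trans c142 c203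
  have c208 : l 13 ≤ l 8 := le_of_lt (lt_of_le_of_lt c205 c147)
  have c209 : ¬ S34 l v r := fun z => not_lt.mpr c206 z.1
  have c210 : r 15 < v 10 := (h.e34.resolve_left c209).2.2
  have c211 : v 15 < l 10 := (h.e34.resolve_left c209).1
  have c212 : r 15 < v 9 := lt_trans c210 c89
  have c213 : l 0 < v 10 := lt_trans c24 c210
  have c214 : v 15 < r 1 := lt_trans c211 c46
  have c215 : l 0 ≤ v 9 := le_of_lt (lt_of_le_of_lt c25 c212)
  have c216 : l 0 ≤ r 1 := le_of_lt (lt_of_lt_of_le c213 c44)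
  have c217 : S2 l v r := h.e2.resolve_right fun z => not_lt.mpr c215 z.1
  have c218 : l 9 < r 0 := c217.2.1
  have c219 : l 16 ≤ r 0 := le_of_lt (lt_of_le_of_lt c145 c218)
  have c220 : r 17 < l 0 := not_le.mp fun z => L261 h z c219 c214 c210 c208 c207 c204 c194 c193 c192 c189 c178 c176 c175 c174 c173 c172 c171 c170 c141 c137 c133 c92 c37 c39 c70 c71 c76 a2 a3
  have c221 : r 17 ≤ v 0 := le_of_lt (lt_of_lt_of_le c220 c26)
  have c222 : ¬ S3 l v r := fun z => L202 h z c221 c177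
  have c223 : l 0 < r 11 := (h.e3.resolve_left c222).2.1
  have c224 : v 11 < l 0 := (h.e3.resolve_left c222).1
  have c225 : v 17 ≤ r 11 := le_of_lt (lt_of_le_of_lt c172 c223)
  have c226 : v 11 ≤ r 1 := le_of_lt (lt_of_lt_of_le c224 c216)
  have c227 : ¬ S37 l v r := fun z => not_lt.mpr c225 z.2.2
  have c228 : ¬ S9 l v r := fun z => not_lt.mpr c226 z.2.2
  have c229 : r 17 < v 11 := (h.e37.resolve_left c227).2.2
  have c230 : v 11 < l 1 := (h.e9.resolve_left c228).1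
  not_lt.mpr c71 (lt_trans c229 c230)

theorem L263 {l v r : ℕ → ℝ} (h : H l v r) (a0 : r 4 < l 0) (a1 : l 7 ≤ v 4) (a2 : v 10 ≤ r 4) (a3 : v 10 < v 4) (a4 : r 10 ≤ v 7) (a5 : l 0 ≤ r 8) : False :=
  have c0 : l 0 < r 15 := not_le.mp fun z => L205 h z
  have c1 : l 0 ≤ r 15 := not_lt.mp fun z => L206 h z
  have c2 : l 8 ≤ r 3 := not_lt.mp fun z => L217 h z
  have c3 : l 3 ≤ r 13 := not_lt.mp fun z => L182 h z
  have c4 : v 4 < l 0 := not_le.mp fun z => L19 h a0 z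
  have c5 : r 4 < r 15 := lt_trans a0 c0
  have c6 : v 4 ≤ r 15 := le_of_lt (lt_of_lt_of_le c4 c1)
  have c7 : v 4 ≤ r 8 := le_of_lt (lt_of_lt_of_le c4 a5)
  have c8 : v 10 ≤ r 15 := le_of_lt (lt_of_le_of_lt a2 c5)
  have c9 : S22 l v r := h.e22.resolve_right fun z => not_lt.mpr c6 z.2.2
  have c10 : S20 l v r := h.e20.resolve_right fun z => not_lt.mpr c7 z.2.2
  have c11 : S34 l v r := h.e34.resolve_right fun z => not_lt.mpr c8 z.2.2
  have c12 : v 4 < l 15 := c9.1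
  have c13 : v 4 < l 8 := c10.1
  have c14 : l 15 < r 10 := c11.2.1
  have c15 : v 4 < r 10 := lt_trans c12 c14
  have c16 : v 4 ≤ r 3 := le_of_lt (lt_of_lt_of_le c13 c2)
  have c17 : l 7 ≤ r 10 := le_of_lt (lt_of_le_of_lt a1 c15)
  have c18 : v 10 ≤ r 3 := le_of_lt (lt_of_lt_of_le a3 c16)
  have c19 : ¬ S16 l v r := fun z => not_lt.mpr c18 z.2.2
  have c20 : v 10 < l 3 := (h.e16.resolve_left c19).1
  have c21 : v 10 ≤ r 13 := le_of_lt (lt_of_lt_of_le c20 c3)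
  have c22 : S33 l v r := h.e33.resolve_right fun z => not_lt.mpr c21 z.2.2
  have c23 : l 13 < r 10 := c22.2.1
  have c24 : r 10 < v 13 := c22.2.2
  have c25 : l 13 ≤ v 7 := le_of_lt (lt_of_lt_of_le c23 a4)
  have c26 : l 7 ≤ v 13 := le_of_lt (lt_of_le_of_lt c17 c24)
  have c27 : ¬ S29 l v r := fun z => not_lt.mpr c25 z.1
  not_lt.mpr c26 (h.e29.resolve_left c27).1

theorem L264 {l v r : ℕ → ℝ} (h : H l v r) (a0 : S33 l v r) (a1 : v 17 ≤ v 15) (a2 : v 1 ≤ v 15) (a3 : l 15 ≤ r 10) (a4 : l 0 < r 11) (a5 : l 7 ≤ r 4) (a6 : l 7 ≤ v 4) (a7 : r 10 ≤ v 7) (a8 : l 4 < r 1) (a9 : r 17 ≤ r 10) (a10 : l 4 ≤ r 0) : False :=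
  have c0 : l 13 ≤ r 12 := not_lt.mp fun z => L88 h z
  have c1 : v 12 ≤ v 13 := not_lt.mp fun z => L84 h z
  have c2 : l 4 ≤ r 1 := le_of_lt a8
  have c3 : v 10 < l 13 := a0.1
  have c4 : l 13 < r 10 := a0.2.1
  have c5 : r 10 < v 13 := a0.2.2
  have c6 : v 10 < r 12 := lt_of_lt_of_le c3 c0
  have c7 : l 13 ≤ v 7 := le_of_lt (lt_of_lt_of_le c4 a7)
  have c8 : l 15 ≤ v 13 := le_of_lt (lt_of_le_of_lt a3 c5)
  have c9 : ¬ S29 l v r := fun z => not_lt.mpr c7 z.1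
  have c10 : v 13 < l 7 := (h.e29.resolve_left c9).1
  have c11 : v 13 ≤ v 4 := le_of_lt (lt_of_lt_of_le c10 a6)
  have c12 : v 13 ≤ r 4 := le_of_lt (lt_of_lt_of_le c10 a5)
  have c13 : l 15 ≤ v 4 := le_trans c8 c11
  have c14 : ¬ S21 l v r := fun z => not_lt.mpr c12 z.2.2
  have c15 : ¬ S22 l v r := fun z => not_lt.mpr c13 z.1
  have c16 : v 13 < l 4 := (h.e21.resolve_left c14).1
  have c17 : v 15 < l 4 := (h.e22.resolve_left c15).1
  have c18 : v 12 < l 4 := lt_of_le_of_lt c1 c16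
  have c19 : r 10 < l 4 := lt_trans c5 c16
  have c20 : v 15 ≤ r 0 := le_of_lt (lt_of_lt_of_le c17 a10)
  have c21 : v 12 ≤ r 1 := le_of_lt (lt_of_lt_of_le c18 c2)
  have c22 : r 10 < r 1 := lt_trans c19 a8
  have c23 : ¬ S4 l v r := fun z => not_lt.mpr c20 z.2.2
  have c24 : ¬ S10 l v r := fun z => not_lt.mpr c21 z.2.2
  have c25 : v 15 < l 0 := (h.e4.resolve_left c23).1
  have c26 : r 12 < v 1 := (h.e10.resolve_left c24).2.2
  have c27 : v 17 ≤ l 0 := le_of_lt (lt_of_le_of_lt a1 c25)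
  have c28 : v 15 < r 11 := lt_trans c25 a4
  have c29 : v 10 < v 1 := lt_trans c6 c26
  have c30 : v 17 ≤ r 11 := le_of_lt (lt_of_le_of_lt c27 a4)
  have c31 : v 1 ≤ r 11 := le_of_lt (lt_of_le_of_lt a2 c28)
  have c32 : ¬ S37 l v r := fun z => not_lt.mpr c30 z.2.2
  have c33 : S9 l v r := h.e9.resolve_right fun z => not_lt.mpr c31 z.2.2
  have c34 : l 11 < r 17 := (h.e37.resolve_left c32).2.1
  have c35 : r 1 < v 11 := c33.2.2
  have c36 : v 1 < l 11 := c33.1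
  have c37 : l 11 < r 10 := lt_of_lt_of_le c34 a9
  have c38 : r 10 < v 11 := lt_trans c22 c35
  have c39 : v 10 < l 11 := lt_trans c29 c36
  h.n10_11 c39 c37 c38

theorem L265 {l v r : ℕ → ℝ} (h : H l v r) (a0 : S34 l v r) (a1 : l 0 < v 4) (a2 : l 7 ≤ r 4) (a3 : l 7 ≤ v 4) (a4 : v 5 < l 4) (a5 : l 10 ≤ r 4) (a6 : r 10 ≤ v 7) (a7 : l 4 < r 1) (a8 : v 1 ≤ r 10) (a9 : l 9 < r 1) (a10 : l 1 ≤ r 17) (a11 : r 17 ≤ r 10) (a12 : v 17 ≤ r 10) (a13 : v 17 < l 5) (a14 : v 8 < l 0) (a15 : r 10 ≤ v 9) : False :=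
  have c0 : l 4 ≤ r 8 := not_lt.mp fun z => L199 h z
  have c1 : l 5 ≤ r 5 := not_lt.mp fun z => L116 h z
  have c2 : l 4 < r 8 := not_le.mp fun z => L198 h z
  have c3 : v 0 ≤ r 0 := not_lt.mp fun z => L141 h z
  have c4 : l 5 ≤ v 5 := not_lt.mp fun z => L135 h z
  have c5 : l 17 ≤ v 17 := not_lt.mp fun z => L140 h z
  have c6 : v 10 ≤ r 10 := not_lt.mp fun z => L31 h z
  have c7 : l 3 ≤ r 13 := not_lt.mp fun z => L182 h z
  have c8 : v 12 ≤ v 13 := not_lt.mp fun z => L84 h z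
  have c9 : v 17 ≤ v 5 := le_of_lt (lt_of_lt_of_le a13 c4)
  have c10 : l 17 ≤ v 5 := le_trans c5 c9
  have c11 : v 8 ≤ r 0 := not_lt.mp fun z => L35 h z a14
  have c12 : ¬ S1 l v r := fun z => not_lt.mpr c11 z.2.2
  have c13 : r 8 < v 0 := (h.e1.resolve_left c12).2.2
  have c14 : l 4 < v 0 := lt_trans c2 c13
  have c15 : l 4 ≤ r 0 := le_of_lt (lt_of_lt_of_le c14 c3)
  have c16 : v 5 < r 0 := lt_of_lt_of_le a4 c15
  have c17 : l 17 ≤ r 0 := le_of_lt (lt_of_le_of_lt c10 c16)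
  have c18 : v 17 ≤ r 5 := le_of_lt (lt_of_lt_of_le a13 c1)
  have c19 : ¬ S25 l v r := fun z => not_lt.mpr c18 z.2.2
  have c20 : r 17 < v 5 := (h.e25.resolve_left c19).2.2
  have c21 : l 4 ≤ v 0 := le_of_lt (lt_of_le_of_lt c0 c13)
  have c22 : v 5 ≤ v 0 := le_of_lt (lt_of_lt_of_le a4 c21)
  have c23 : r 17 ≤ v 0 := le_of_lt (lt_of_lt_of_le c20 c22)
  have c24 : ¬ S3 l v r := fun z => L202 h z c23 c17
  have c25 : l 0 < r 11 := (h.e3.resolve_left c24).2.1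
  have c26 : l 15 < r 10 := a0.2.1
  have c27 : r 10 < v 15 := a0.2.2
  have c28 : l 15 ≤ r 10 := le_of_lt c26
  have c29 : l 15 ≤ v 9 := le_of_lt (lt_of_lt_of_le c26 a15)
  have c30 : v 10 ≤ v 15 := le_of_lt (lt_of_le_of_lt c6 c27)
  have c31 : v 1 ≤ v 15 := le_of_lt (lt_of_le_of_lt a8 c27)
  have c32 : v 17 ≤ v 15 := le_of_lt (lt_of_le_of_lt a12 c27)
  have c33 : ¬ S33 l v r := fun z => L264 h z c32 c31 c28 c25 a2 a3 a6 a7 a11 c15
  have c34 : r 13 < v 10 := (h.e33.resolve_left c33).2.2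
  have c35 : v 13 < l 10 := (h.e33.resolve_left c33).1
  have c36 : l 3 ≤ v 10 := le_of_lt (lt_of_le_of_lt c7 c34)
  have c37 : r 13 ≤ v 15 := le_of_lt (lt_of_lt_of_le c34 c30)
  have c38 : v 12 ≤ l 10 := le_of_lt (lt_of_le_of_lt c8 c35)
  have c39 : v 13 ≤ r 4 := le_of_lt (lt_of_lt_of_le c35 a5)
  have c40 : S16 l v r := h.e16.resolve_right fun z => not_lt.mpr c36 z.1
  have c41 : ¬ S21 l v r := fun z => not_lt.mpr c39 z.2.2
  have c42 : l 10 < r 3 := c40.2.1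
  have c43 : l 4 < r 13 := (h.e21.resolve_left c41).2.1
  have c44 : v 12 ≤ r 3 := le_of_lt (lt_of_le_of_lt c38 c42)
  have c45 : l 4 ≤ v 15 := le_of_lt (lt_of_lt_of_le c43 c37)
  have c46 : ¬ S17 l v r := fun z => not_lt.mpr c44 z.2.2
  have c47 : S22 l v r := h.e22.resolve_right fun z => not_lt.mpr c45 z.1
  have c48 : r 12 < v 3 := (h.e17.resolve_left c46).2.2
  have c49 : v 4 < l 15 := c47.1
  have c50 : l 9 ≤ v 0 := not_lt.mp fun z => L252 h z c48 a4 a9 a10 a13 a14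
  have c51 : l 0 < l 15 := lt_trans a1 c49
  have c52 : ¬ S2 l v r := fun z => not_lt.mpr c50 z.1
  have c53 : l 0 ≤ v 9 := le_of_lt (lt_of_lt_of_le c51 c29)
  not_lt.mpr c53 (h.e2.resolve_left c52).1

theorem L266 {l v r : ℕ → ℝ} (h : H l v r) (a0 : l 1 ≤ v 17) (a1 : v 17 < l 5) (a2 : v 8 < l 0) (a3 : r 10 < v 9) : False :=
  have c0 : l 4 ≤ r 8 := not_lt.mp fun z => L199 h z
  have c1 : v 0 ≤ r 0 := not_lt.mp fun z => L141 h z
  have c2 : l 17 ≤ v 17 := not_lt.mp fun z => L140 h z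
  have c3 : l 5 ≤ v 5 := not_lt.mp fun z => L135 h z
  have c4 : l 5 ≤ r 5 := not_lt.mp fun z => L116 h z
  have c5 : l 10 ≤ r 10 := not_lt.mp fun z => L52 h z
  have c6 : v 17 ≤ r 17 := not_lt.mp fun z => L157 h z
  have c7 : l 4 < r 8 := not_le.mp fun z => L198 h z
  have c8 : l 0 ≤ r 15 := not_lt.mp fun z => L206 h z
  have c9 : l 12 ≤ v 12 := not_lt.mp fun z => L125 h z
  have c10 : v 12 ≤ v 13 := not_lt.mp fun z => L84 h z
  have c11 : l 10 ≤ v 9 := le_of_lt (lt_of_le_of_lt c5 a3)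
  have c12 : ¬ S31 l v r := fun z => not_lt.mpr c11 z.1
  have c13 : l 9 < r 10 := (h.e31.resolve_left c12).2.1
  have c14 : l 9 ≤ r 10 := le_of_lt c13
  have c15 : S24 l v r := Classical.byContradiction fun z => L249 h z a2 a3
  have c16 : v 5 < l 9 := c15.1
  have c17 : v 5 ≤ r 10 := le_of_lt (lt_of_lt_of_le c16 c14)
  have c18 : v 17 ≤ r 5 := le_of_lt (lt_of_lt_of_le a1 c4)
  have c19 : ¬ S25 l v r := fun z => not_lt.mpr c18 z.2.2
  have c20 : r 17 < v 5 := (h.e25.resolve_left c19).2.2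
  have c21 : r 17 ≤ r 10 := le_of_lt (lt_of_lt_of_le c20 c17)
  have c22 : v 17 ≤ v 5 := le_of_lt (lt_of_lt_of_le a1 c3)
  have c23 : l 17 < v 5 := not_le.mp fun z => L163 h z c22
  have c24 : l 17 ≤ v 5 := le_trans c2 c22
  have c25 : r 5 < v 9 := c15.2.2
  have c26 : l 5 ≤ v 9 := le_of_lt (lt_of_le_of_lt c4 c25)
  have c27 : v 17 ≤ v 9 := le_of_lt (lt_of_lt_of_le a1 c26)
  have c28 : l 5 ≤ r 10 := le_trans c3 c17
  have c29 : v 17 ≤ r 10 := le_of_lt (lt_of_lt_of_le a1 c28)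
  have c30 : l 5 ≤ l 9 := not_lt.mp fun z => L174 h c16 z
  have c31 : v 8 ≤ r 0 := not_lt.mp fun z => L35 h z a2
  have c32 : ¬ S1 l v r := fun z => not_lt.mpr c31 z.2.2
  have c33 : r 8 < v 0 := (h.e1.resolve_left c32).2.2
  have c34 : l 4 < v 0 := lt_trans c7 c33
  have c35 : l 4 ≤ r 0 := le_of_lt (lt_of_lt_of_le c34 c1)
  have c36 : l 4 ≤ v 0 := le_of_lt (lt_of_le_of_lt c0 c33)
  have c37 : l 0 < r 8 := (h.e1.resolve_left c32).2.1
  have c38 : l 0 ≤ r 8 := le_of_lt c37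
  have c39 : v 8 ≤ l 0 := le_of_lt a2
  have c40 : v 10 < l 9 := (h.e31.resolve_left c12).1
  have c41 : l 10 ≤ l 9 := not_lt.mp fun z => L54 h c40 z
  have c42 : v 10 ≤ l 9 := le_of_lt c40
  have c43 : v 10 < v 9 := not_le.mp fun z => L47 h a3 z
  have c44 : r 10 ≤ v 9 := le_of_lt a3
  have c45 : l 1 ≤ r 17 := le_trans a0 c6
  have c46 : l 1 < l 5 := lt_of_le_of_lt a0 a1
  have c47 : l 1 ≤ v 9 := le_trans a0 c27
  have c48 : S8 l v r := h.e8.resolve_right fun z => not_lt.mpr c47 z.1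
  have c49 : v 1 < l 9 := c48.1
  have c50 : l 9 < r 1 := c48.2.1
  have c51 : v 1 ≤ r 10 := le_of_lt (lt_of_lt_of_le c49 c14)
  have c52 : v 10 < r 1 := lt_trans c40 c50
  have c53 : v 10 ≤ r 1 := le_of_lt (lt_of_le_of_lt c42 c50)
  have c54 : l 10 ≤ r 1 := le_of_lt (lt_of_le_of_lt c41 c50)
  have c55 : l 5 ≤ r 1 := le_of_lt (lt_of_le_of_lt c30 c50)
  have c56 : S6 l v r := Classical.byContradiction fun z => L262 h z a0 a1 a2 a3
  have c57 : l 4 < r 1 := c56.2.1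
  have c58 : r 1 < v 4 := c56.2.2
  have c59 : r 10 ≤ v 7 := not_lt.mp fun z => L256 h c56 z a0 a1 a2 a3
  have c60 : l 4 ≤ r 1 := le_of_lt c57
  have c61 : r 1 < r 4 := not_le.mp fun z => L55 h c58 z
  have c62 : l 5 ≤ v 4 := le_of_lt (lt_of_le_of_lt c55 c58)
  have c63 : v 10 < v 4 := lt_trans c52 c58
  have c64 : l 5 ≤ v 7 := le_trans c28 c59
  have c65 : l 10 ≤ r 4 := le_of_lt (lt_of_le_of_lt c54 c61)
  have c66 : v 10 ≤ r 4 := le_of_lt (lt_of_le_of_lt c53 c61)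
  have c67 : ¬ S19 l v r := fun z => not_lt.mpr c62 z.1
  have c68 : S23 l v r := h.e23.resolve_right fun z => not_lt.mpr c64 z.1
  have c69 : l 4 < r 5 := (h.e19.resolve_left c67).2.1
  have c70 : r 5 < v 4 := (h.e19.resolve_left c67).2.2
  have c71 : v 5 < l 4 := (h.e19.resolve_left c67).1
  have c72 : l 7 < r 5 := c68.2.1
  have c73 : r 5 ≤ v 4 := le_of_lt c70
  have c74 : r 5 ≤ r 4 := not_lt.mp fun z => L176 h z c70
  have c75 : v 5 < r 8 := lt_trans c71 c7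
  have c76 : v 5 < r 0 := lt_of_lt_of_le c71 c35
  have c77 : v 5 ≤ v 0 := le_of_lt (lt_of_lt_of_le c71 c36)
  have c78 : l 7 ≤ v 4 := le_of_lt (lt_of_lt_of_le c72 c73)
  have c79 : l 7 ≤ r 4 := le_of_lt (lt_of_lt_of_le c72 c74)
  have c80 : l 17 < r 8 := lt_trans c23 c75
  have c81 : r 17 < r 8 := lt_trans c20 c75
  have c82 : l 17 ≤ r 0 := le_of_lt (lt_of_le_of_lt c24 c76)
  have c83 : r 17 ≤ v 0 := le_of_lt (lt_of_lt_of_le c20 c77)
  have c84 : ¬ S3 l v r := fun z => L202 h z c83 c82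
  have c85 : l 0 < r 11 := (h.e3.resolve_left c84).2.1
  have c86 : v 11 < l 0 := (h.e3.resolve_left c84).1
  have c87 : v 8 ≤ r 11 := le_of_lt (lt_of_le_of_lt c39 c85)
  have c88 : v 11 ≤ v 0 := not_lt.mp fun z => L120 h z c86
  have c89 : l 0 ≤ r 4 := not_lt.mp fun z => L263 h z c78 c66 c63 c59 c38
  have c90 : v 8 ≤ r 4 := le_of_lt (lt_of_lt_of_le a2 c89)
  have c91 : ¬ S20 l v r := fun z => not_lt.mpr c90 z.2.2
  have c92 : r 8 < v 4 := (h.e20.resolve_left c91).2.2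
  have c93 : v 8 < l 4 := (h.e20.resolve_left c91).1
  have c94 : l 0 < v 4 := lt_trans c37 c92
  have c95 : l 0 ≤ v 4 := le_of_lt (lt_of_le_of_lt c38 c92)
  have c96 : v 8 < r 5 := lt_trans c93 c69
  have c97 : ¬ S34 l v r := fun z => L265 h z c94 c79 c78 c71 c65 c59 c57 c51 c50 c45 c21 c29 a1 a2 c44
  have c98 : r 15 < v 10 := (h.e34.resolve_left c97).2.2
  have c99 : r 15 < v 9 := lt_trans c98 c43
  have c100 : l 0 ≤ v 9 := le_of_lt (lt_of_le_of_lt c8 c99)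
  have c101 : S2 l v r := h.e2.resolve_right fun z => not_lt.mpr c100 z.1
  have c102 : v 0 < l 9 := c101.1
  have c103 : v 3 ≤ r 12 := not_lt.mp fun z => L252 h c102 z c71 c50 c45 a1 a2
  have c104 : S17 l v r := h.e17.resolve_right fun z => not_lt.mpr c103 z.2.2
  have c105 : v 3 < l 12 := c104.1
  have c106 : r 3 < v 12 := c104.2.2
  have c107 : v 3 ≤ v 12 := le_of_lt (lt_of_lt_of_le c105 c9)
  have c108 : v 3 ≤ l 12 := le_of_lt c105
  have c109 : r 3 ≤ v 12 := le_of_lt c106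
  have c110 : r 3 ≤ v 13 := le_of_lt (lt_of_lt_of_le c106 c10)
  have c111 : ¬ S15 l v r := fun z => L255 h z c96 c95 c110 c109 c88 c87 c60 c50 c46 c45 a1 c28 a3
  have c112 : r 8 < v 3 := (h.e15.resolve_left c111).2.2
  have c113 : l 17 < v 3 := lt_trans c80 c112
  have c114 : r 17 < v 3 := lt_trans c81 c112
  have c115 : l 17 ≤ v 12 := le_of_lt (lt_of_lt_of_le c113 c107)
  have c116 : r 17 ≤ l 12 := le_of_lt (lt_of_lt_of_le c114 c108)
  have c117 : ¬ S40 l v r := fun z => not_lt.mpr c115 z.1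
  not_lt.mpr c116 (h.e40.resolve_left c117).2.1

theorem L267 {l v r : ℕ → ℝ} (h : H l v r) (a0 : ¬ S33 l v r) (a1 : l 5 ≤ r 12) (a2 : l 10 ≤ r 5) : False :=
  have c0 : l 3 ≤ r 13 := not_lt.mp fun z => L182 h z
  have c1 : v 12 ≤ v 13 := not_lt.mp fun z => L84 h z
  have c2 : r 13 < v 10 := (h.e33.resolve_left a0).2.2
  have c3 : v 13 < l 10 := (h.e33.resolve_left a0).1
  have c4 : l 3 ≤ v 10 := le_of_lt (lt_of_le_of_lt c0 c2)
  have c5 : v 12 ≤ l 10 := le_of_lt (lt_of_le_of_lt c1 c3)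
  have c6 : S16 l v r := h.e16.resolve_right fun z => not_lt.mpr c4 z.1
  have c7 : l 10 < r 3 := c6.2.1
  have c8 : v 3 < l 10 := c6.1
  have c9 : v 12 ≤ r 3 := le_of_lt (lt_of_le_of_lt c5 c7)
  have c10 : v 3 ≤ r 5 := le_of_lt (lt_of_lt_of_le c8 a2)
  have c11 : ¬ S17 l v r := fun z => not_lt.mpr c9 z.2.2
  have c12 : S14 l v r := h.e14.resolve_right fun z => not_lt.mpr c10 z.2.2
  have c13 : r 12 < v 3 := (h.e17.resolve_left c11).2.2
  have c14 : v 3 < l 5 := c12.1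
  not_lt.mpr a1 (lt_trans c13 c14)

theorem L268 {l v r : ℕ → ℝ} (h : H l v r) (a0 : l 7 ≤ v 4) (a1 : l 0 < r 11) (a2 : r 10 ≤ v 7) (a3 : S6 l v r) (a4 : v 12 < v 9) (a5 : S33 l v r) (a6 : r 17 < v 12) (a7 : r 17 ≤ r 10) (a8 : v 17 ≤ r 10) (a9 : l 4 ≤ r 0) (a10 : l 9 ≤ r 10) : False :=
  have c0 : l 1 ≤ v 1 := not_lt.mp fun z => L161 h z
  have c1 : v 12 < v 13 := not_le.mp fun z => L86 h z
  have c2 : l 13 ≤ v 13 := not_lt.mp fun z => L70 h z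
  have c3 : l 4 < r 15 := not_le.mp fun z => L203 h z
  have c4 : l 13 < r 10 := a5.2.1
  have c5 : l 13 ≤ v 7 := le_of_lt (lt_of_lt_of_le c4 a2)
  have c6 : ¬ S29 l v r := fun z => not_lt.mpr c5 z.1
  have c7 : v 13 < l 7 := (h.e29.resolve_left c6).1
  have c8 : l 13 ≤ l 7 := le_of_lt (lt_of_le_of_lt c2 c7)
  have c9 : v 12 < l 7 := lt_trans c1 c7
  have c10 : v 1 < l 4 := a3.1
  have c11 : l 1 ≤ l 4 := le_of_lt (lt_of_le_of_lt c0 c10)
  have c12 : l 4 < r 1 := a3.2.1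
  have c13 : v 10 < l 13 := a5.1
  have c14 : v 10 ≤ v 13 := le_of_lt (lt_of_lt_of_le c13 c2)
  have c15 : l 7 ≤ r 4 := not_lt.mp fun z => L17 h z a0
  have c16 : v 12 < v 4 := lt_of_lt_of_le c9 a0
  have c17 : l 13 ≤ v 4 := le_trans c8 a0
  have c18 : l 4 < v 9 := not_le.mp fun z => L237 h a6 z c16 a4
  have c19 : ¬ S21 l v r := fun z => not_lt.mpr c17 z.1
  have c20 : l 1 ≤ v 9 := le_of_lt (lt_of_le_of_lt c11 c18)
  have c21 : v 13 < l 4 := (h.e21.resolve_left c19).1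
  have c22 : S8 l v r := h.e8.resolve_right fun z => not_lt.mpr c20 z.1
  have c23 : v 13 < r 15 := lt_trans c21 c3
  have c24 : v 1 < l 9 := c22.1
  have c25 : v 10 ≤ r 15 := le_of_lt (lt_of_le_of_lt c14 c23)
  have c26 : v 1 ≤ r 10 := le_of_lt (lt_of_lt_of_le c24 a10)
  have c27 : S34 l v r := h.e34.resolve_right fun z => not_lt.mpr c25 z.2.2
  have c28 : l 15 < r 10 := c27.2.1
  have c29 : r 10 < v 15 := c27.2.2
  have c30 : l 15 ≤ r 10 := le_of_lt c28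
  have c31 : v 1 ≤ v 15 := le_of_lt (lt_of_le_of_lt c26 c29)
  have c32 : v 17 ≤ v 15 := le_of_lt (lt_of_le_of_lt a8 c29)
  L264 h a5 c32 c31 c30 a1 c15 a0 a2 c12 a7 a9

theorem L269 {l v r : ℕ → ℝ} (h : H l v r) (a0 : v 4 < l 7) (a1 : l 7 ≤ v 9) (a2 : l 7 ≤ r 5) (a3 : r 1 < v 4) (a4 : v 5 < l 9) : False :=
  have c0 : l 1 ≤ r 1 := not_lt.mp fun z => L162 h z
  have c1 : r 1 ≤ r 4 := not_lt.mp fun z => L130 h z a3
  have c2 : l 1 ≤ v 4 := le_of_lt (lt_of_le_of_lt c0 a3)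
  have c3 : l 1 < l 7 := lt_of_le_of_lt c2 a0
  have c4 : v 4 ≤ r 5 := le_of_lt (lt_of_lt_of_le a0 a2)
  have c5 : l 1 ≤ v 9 := le_of_lt (lt_of_lt_of_le c3 a1)
  have c6 : S19 l v r := h.e19.resolve_right fun z => not_lt.mpr c4 z.2.2
  have c7 : S8 l v r := h.e8.resolve_right fun z => not_lt.mpr c5 z.1
  have c8 : r 4 < v 5 := c6.2.2
  have c9 : l 9 < r 1 := c7.2.1
  have c10 : r 1 ≤ v 5 := le_of_lt (lt_of_le_of_lt c1 c8)
  not_lt.mpr c10 (lt_trans a4 c9)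

theorem L270 {l v r : ℕ → ℝ} (h : H l v r) (a0 : r 10 ≤ v 7) (a1 : l 17 ≤ r 0) (a2 : v 17 < l 4) (a3 : S6 l v r) (a4 : v 12 < v 9) (a5 : S33 l v r) (a6 : r 17 < v 12) (a7 : r 17 < v 5) (a8 : v 17 ≤ r 10) (a9 : r 5 ≤ v 9) (a10 : v 5 < l 9) (a11 : l 4 < v 0) (a12 : l 9 ≤ r 10) : False :=
  have c0 : v 0 ≤ r 0 := not_lt.mp fun z => L141 h z
  have c1 : l 5 ≤ v 5 := not_lt.mp fun z => L135 h z
  have c2 : r 1 < v 4 := a3.2.2
  have c3 : v 5 ≤ r 10 := le_of_lt (lt_of_lt_of_le a10 a12)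
  have c4 : r 17 ≤ r 10 := le_of_lt (lt_of_lt_of_le a7 c3)
  have c5 : l 5 ≤ r 10 := le_trans c1 c3
  have c6 : l 4 ≤ r 0 := le_of_lt (lt_of_lt_of_le a11 c0)
  have c7 : l 5 ≤ v 7 := le_trans c5 a0
  have c8 : S23 l v r := h.e23.resolve_right fun z => not_lt.mpr c7 z.1
  have c9 : l 7 < r 5 := c8.2.1
  have c10 : v 5 < l 7 := c8.1
  have c11 : l 7 ≤ r 5 := le_of_lt c9
  have c12 : l 7 ≤ v 9 := le_of_lt (lt_of_lt_of_le c9 a9)
  have c13 : r 17 < l 7 := lt_trans a7 c10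
  have c14 : l 7 ≤ v 4 := not_lt.mp fun z => L269 h z c12 c11 c2 a10
  have c15 : r 17 < v 4 := lt_of_lt_of_le c13 c14
  have c16 : r 11 ≤ l 0 := not_lt.mp fun z => L268 h c14 z a0 a3 a4 a5 a6 c4 a8 c6 a12
  have c17 : r 17 ≤ l 4 := not_lt.mp fun z => h.n17_4 a2 z c15
  have c18 : S3 l v r := h.e3.resolve_right fun z => not_lt.mpr c16 z.2.1
  have c19 : r 17 ≤ v 0 := le_of_lt (lt_of_le_of_lt c17 a11)
  L202 h c18 c19 a1

theorem L271 {l v r : ℕ → ℝ} (h : H l v r) (a0 : r 11 ≤ l 0) : False :=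
  have c0 : l 0 < r 0 := not_le.mp fun z => L25 h z
  have c1 : S3 l v r := h.e3.resolve_right fun z => not_lt.mpr a0 z.2.1
  have c2 : r 11 < r 0 := lt_of_le_of_lt a0 c0
  have c3 : r 0 < v 11 := c1.2.2
  L180 h c2 c3

theorem L272 {l v r : ℕ → ℝ} (h : H l v r) (a0 : r 11 < l 0) : False :=
  have c0 : l 0 < r 11 := not_le.mp fun z => L271 h z
  lt_asymm c0 a0

theorem L273 {l v r : ℕ → ℝ} (h : H l v r) (a0 : S3 l v r) (a1 : l 17 ≤ r 0) (a2 : l 1 ≤ v 0) (a3 : v 17 < l 4) (a4 : r 1 < v 4) (a5 : l 11 ≤ v 9) (a6 : r 17 < l 9) (a7 : l 4 < v 0) : False :=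
  have c0 : v 0 < l 11 := a0.1
  have c1 : v 0 < r 17 := not_le.mp fun z => L202 h a0 z a1
  have c2 : l 1 ≤ l 11 := le_of_lt (lt_of_le_of_lt a2 c0)
  have c3 : l 4 < r 17 := lt_trans a7 c1
  have c4 : l 1 ≤ v 9 := le_trans c2 a5
  have c5 : v 4 ≤ r 17 := not_lt.mp fun z => h.n17_4 a3 c3 z
  have c6 : S8 l v r := h.e8.resolve_right fun z => not_lt.mpr c4 z.1
  have c7 : v 4 ≤ l 9 := le_of_lt (lt_of_le_of_lt c5 a6)
  have c8 : l 9 < r 1 := c6.2.1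
  not_lt.mpr c7 (lt_trans c8 a4)

theorem L274 {l v r : ℕ → ℝ} (h : H l v r) (a0 : v 4 ≤ r 17) (a1 : r 1 < v 4) (a2 : r 17 < v 9) (a3 : r 17 < l 9) : False :=
  have c0 : l 1 ≤ r 1 := not_lt.mp fun z => L162 h z
  have c1 : l 1 ≤ v 4 := le_of_lt (lt_of_le_of_lt c0 a1)
  have c2 : v 4 < v 9 := lt_of_le_of_lt a0 a2
  have c3 : v 4 ≤ l 9 := le_of_lt (lt_of_le_of_lt a0 a3)
  have c4 : l 1 ≤ v 9 := le_of_lt (lt_of_le_of_lt c1 c2)
  have c5 : r 1 ≤ l 9 := le_of_lt (lt_of_lt_of_le a1 c3)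
  have c6 : S8 l v r := h.e8.resolve_right fun z => not_lt.mpr c4 z.1
  not_lt.mpr c5 c6.2.1

theorem L275 {l v r : ℕ → ℝ} (h : H l v r) (a0 : l 1 ≤ l 11) (a1 : v 4 ≤ v 9) (a2 : v 10 ≤ r 1) (a3 : l 9 ≤ r 1) (a4 : l 10 ≤ v 4) (a5 : v 10 < v 4) (a6 : r 5 < v 4) (a7 : v 11 < r 15) (a8 : v 11 < v 0) (a9 : r 7 < v 13) (a10 : l 7 ≤ r 9) (a11 : l 4 < r 1) (a12 : v 12 ≤ r 10) (a13 : l 11 < v 12) (a14 : l 12 ≤ v 5) (a15 : ¬ S40 l v r) (a16 : v 8 < l 0) : False :=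
  have c0 : l 8 ≤ v 8 := not_lt.mp fun z => L110 h z
  have c1 : v 5 ≤ r 5 := not_lt.mp fun z => L36 h z
  have c2 : v 12 < v 13 := not_le.mp fun z => L86 h z
  have c3 : l 8 ≤ r 3 := not_lt.mp fun z => L217 h z
  have c4 : v 12 ≤ l 13 := not_lt.mp fun z => L143 h z
  have c5 : l 12 ≤ l 13 := not_lt.mp fun z => L90 h z
  have c6 : l 13 ≤ r 12 := not_lt.mp fun z => L88 h z
  have c7 : r 5 ≤ r 4 := not_lt.mp fun z => L176 h z a6
  have c8 : v 5 < v 4 := lt_of_le_of_lt c1 a6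
  have c9 : r 7 ≤ v 13 := le_of_lt a9
  have c10 : l 4 ≤ r 1 := le_of_lt a11
  have c11 : v 8 ≤ r 0 := not_lt.mp fun z => L35 h z a16
  have c12 : ¬ S1 l v r := fun z => not_lt.mpr c11 z.2.2
  have c13 : l 0 < r 8 := (h.e1.resolve_left c12).2.1
  have c14 : l 8 ≤ l 0 := le_of_lt (lt_of_le_of_lt c0 a16)
  have c15 : l 1 ≤ v 11 := not_lt.mp fun z => L49 h z a0
  have c16 : l 1 ≤ v 12 := le_of_lt (lt_of_le_of_lt a0 a13)
  have c17 : S9 l v r := h.e9.resolve_right fun z => not_lt.mpr c15 z.1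
  have c18 : S10 l v r := h.e10.resolve_right fun z => not_lt.mpr c16 z.1
  have c19 : r 1 < v 11 := c17.2.2
  have c20 : r 1 < v 12 := c18.2.2
  have c21 : r 1 < v 0 := lt_trans c19 a8
  have c22 : r 1 < r 15 := lt_trans c19 a7
  have c23 : r 1 < v 13 := lt_trans c20 c2
  have c24 : l 4 < v 12 := lt_trans a11 c20
  have c25 : l 9 ≤ v 0 := le_of_lt (lt_of_le_of_lt a3 c21)
  have c26 : v 10 ≤ r 15 := le_of_lt (lt_of_le_of_lt a2 c22)
  have c27 : l 4 ≤ v 13 := le_of_lt (lt_of_le_of_lt c10 c23)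
  have c28 : l 4 ≤ r 10 := le_of_lt (lt_of_lt_of_le c24 a12)
  have c29 : ¬ S2 l v r := fun z => not_lt.mpr c25 z.1
  have c30 : S34 l v r := h.e34.resolve_right fun z => not_lt.mpr c26 z.2.2
  have c31 : S21 l v r := h.e21.resolve_right fun z => not_lt.mpr c27 z.1
  have c32 : r 9 < v 0 := (h.e2.resolve_left c29).2.2
  have c33 : v 9 < l 0 := (h.e2.resolve_left c29).1
  have c34 : r 10 < v 15 := c30.2.2
  have c35 : v 4 < l 13 := c31.1
  have c36 : l 7 ≤ v 0 := le_of_lt (lt_of_le_of_lt a10 c32)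
  have c37 : v 9 < r 8 := lt_trans c33 c13
  have c38 : v 12 ≤ v 15 := le_of_lt (lt_of_le_of_lt a12 c34)
  have c39 : l 4 ≤ v 15 := le_of_lt (lt_of_le_of_lt c28 c34)
  have c40 : r 5 < l 13 := lt_trans a6 c35
  have c41 : ¬ S0 l v r := fun z => not_lt.mpr c36 z.1
  have c42 : v 4 ≤ r 8 := le_of_lt (lt_of_le_of_lt a1 c37)
  have c43 : S22 l v r := h.e22.resolve_right fun z => not_lt.mpr c39 z.1
  have c44 : l 0 < r 7 := (h.e0.resolve_left c41).2.1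
  have c45 : S20 l v r := h.e20.resolve_right fun z => not_lt.mpr c42 z.2.2
  have c46 : v 4 < l 15 := c43.1
  have c47 : r 4 < v 15 := c43.2.2
  have c48 : l 8 < r 7 := lt_of_le_of_lt c14 c44
  have c49 : r 4 < v 8 := c45.2.2
  have c50 : l 8 < r 4 := c45.2.1
  have c51 : v 4 < l 8 := c45.1
  have c52 : r 5 < l 15 := lt_trans a6 c46
  have c53 : l 8 < v 15 := lt_trans c50 c47
  have c54 : l 8 < v 13 := lt_trans c48 a9
  have c55 : l 8 ≤ v 13 := le_of_lt (lt_of_lt_of_le c48 c9)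
  have c56 : r 5 ≤ v 8 := le_of_lt (lt_of_le_of_lt c7 c49)
  have c57 : v 4 ≤ r 3 := le_of_lt (lt_of_lt_of_le c51 c3)
  have c58 : l 13 < v 3 := not_le.mp fun z => L254 h c51 c55 z a4 a5
  have c59 : v 5 ≤ r 3 := le_of_lt (lt_of_lt_of_le c8 c57)
  have c60 : v 12 ≤ v 3 := le_of_lt (lt_of_le_of_lt c4 c58)
  have c61 : l 12 ≤ v 3 := le_of_lt (lt_of_le_of_lt c5 c58)
  have c62 : ¬ S14 l v r := fun z => not_lt.mpr c59 z.2.2
  have c63 : ¬ S17 l v r := fun z => not_lt.mpr c61 z.1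
  have c64 : v 5 < l 3 := (h.e14.resolve_left c62).1
  have c65 : l 3 < r 5 := (h.e14.resolve_left c62).2.1
  have c66 : r 12 < v 3 := (h.e17.resolve_left c63).2.2
  have c67 : v 12 < l 3 := (h.e17.resolve_left c63).1
  have c68 : l 12 ≤ l 3 := le_of_lt (lt_of_le_of_lt a14 c64)
  have c69 : l 3 < l 13 := lt_trans c65 c40
  have c70 : l 3 < l 15 := lt_trans c65 c52
  have c71 : l 3 ≤ v 8 := le_of_lt (lt_of_lt_of_le c65 c56)
  have c72 : v 12 < l 15 := lt_trans c67 c70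
  have c73 : S15 l v r := h.e15.resolve_right fun z => not_lt.mpr c71 z.1
  have c74 : v 3 < l 8 := c73.1
  have c75 : r 12 < l 8 := lt_trans c66 c74
  have c76 : v 3 < v 13 := lt_trans c74 c54
  have c77 : r 12 < v 15 := lt_trans c75 c53
  have c78 : l 15 < l 13 := not_le.mp fun z => L234 h a15 c69 z c76 c68 c61 c38 c60
  have c79 : r 12 ≤ l 15 := not_lt.mp fun z => h.n12_15 c72 z c77
  not_lt.mpr (le_trans c6 c79) c78

theorem L276 {l v r : ℕ → ℝ} (h : H l v r) (a0 : r 11 < v 1) (a1 : v 1 < v 9) (a2 : v 1 ≤ v 4) (a3 : l 9 ≤ v 13) (a4 : l 12 ≤ r 11) (a5 : l 4 ≤ v 0) : False :=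
  have c0 : l 0 ≤ r 11 := not_lt.mp fun z => L272 h z
  have c1 : l 13 ≤ r 12 := not_lt.mp fun z => L88 h z
  have c2 : r 11 < v 9 := lt_trans a0 a1
  have c3 : l 12 ≤ v 1 := le_of_lt (lt_of_le_of_lt a4 a0)
  have c4 : l 0 ≤ v 9 := le_of_lt (lt_of_le_of_lt c0 c2)
  have c5 : ¬ S10 l v r := fun z => not_lt.mpr c3 z.1
  have c6 : S2 l v r := h.e2.resolve_right fun z => not_lt.mpr c4 z.1
  have c7 : r 12 < v 1 := (h.e10.resolve_left c5).2.2
  have c8 : v 0 < l 9 := c6.1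
  have c9 : l 13 < v 1 := lt_of_le_of_lt c1 c7
  have c10 : l 4 < l 9 := lt_of_le_of_lt a5 c8
  have c11 : l 13 ≤ v 4 := le_of_lt (lt_of_lt_of_le c9 a2)
  have c12 : l 4 ≤ v 13 := le_of_lt (lt_of_lt_of_le c10 a3)
  have c13 : ¬ S21 l v r := fun z => not_lt.mpr c11 z.1
  not_lt.mpr c12 (h.e21.resolve_left c13).1

theorem L277 {l v r : ℕ → ℝ} (h : H l v r) (a0 : S6 l v r) (a1 : v 17 < l 5) (a2 : v 8 < l 0) (a3 : r 10 < v 9) : False :=
  have c0 : v 9 ≤ r 9 := not_lt.mp fun z => L48 h z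
  have c1 : l 4 ≤ r 8 := not_lt.mp fun z => L199 h z
  have c2 : l 4 < r 8 := not_le.mp fun z => L198 h z
  have c3 : l 5 ≤ v 5 := not_lt.mp fun z => L135 h z
  have c4 : l 1 < v 1 := h.u1_0
  have c5 : l 17 ≤ v 17 := not_lt.mp fun z => L140 h z
  have c6 : v 5 ≤ r 5 := not_lt.mp fun z => L36 h z
  have c7 : l 5 ≤ r 5 := not_lt.mp fun z => L116 h z
  have c8 : v 13 ≤ r 13 := not_lt.mp fun z => L168 h z
  have c9 : v 12 < r 12 := not_le.mp fun z => L87 h z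
  have c10 : l 10 ≤ r 10 := not_lt.mp fun z => L52 h z
  have c11 : v 12 ≤ l 13 := not_lt.mp fun z => L143 h z
  have c12 : l 7 ≤ v 7 := not_lt.mp fun z => L95 h z
  have c13 : l 0 < r 15 := not_le.mp fun z => L205 h z
  have c14 : l 5 ≤ r 17 := not_lt.mp fun z => L228 h z
  have c15 : l 1 ≤ v 1 := not_lt.mp fun z => L161 h z
  have c16 : v 12 < v 13 := not_le.mp fun z => L86 h z
  have c17 : l 10 ≤ v 9 := le_of_lt (lt_of_le_of_lt c10 a3)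
  have c18 : ¬ S31 l v r := fun z => not_lt.mpr c17 z.1
  have c19 : v 10 < l 9 := (h.e31.resolve_left c18).1
  have c20 : l 10 ≤ l 9 := not_lt.mp fun z => L54 h c19 z
  have c21 : S24 l v r := Classical.byContradiction fun z => L249 h z a2 a3
  have c22 : l 9 < r 5 := c21.2.1
  have c23 : l 10 ≤ r 5 := le_of_lt (lt_of_le_of_lt c20 c22)
  have c24 : v 17 < l 1 := not_le.mp fun z => L266 h z a1 a2 a3
  have c25 : v 17 ≤ r 12 := not_lt.mp fun z => L187 h z c24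
  have c26 : ¬ S40 l v r := fun z => not_lt.mpr c25 z.2.2
  have c27 : r 17 < v 12 := (h.e40.resolve_left c26).2.2
  have c28 : r 17 < r 12 := lt_trans c27 c9
  have c29 : l 5 ≤ r 12 := le_of_lt (lt_of_le_of_lt c14 c28)
  have c30 : S33 l v r := Classical.byContradiction fun z => L267 h z c29 c23
  have c31 : l 13 < r 10 := c30.2.1
  have c32 : v 12 < r 10 := lt_of_le_of_lt c11 c31
  have c33 : v 12 < v 9 := lt_trans c32 a3
  have c34 : l 9 < r 10 := (h.e31.resolve_left c18).2.1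
  have c35 : l 9 ≤ r 10 := le_of_lt c34
  have c36 : r 10 < v 13 := c30.2.2
  have c37 : l 9 ≤ v 13 := le_of_lt (lt_of_le_of_lt c35 c36)
  have c38 : r 10 ≤ r 13 := le_of_lt (lt_of_lt_of_le c36 c8)
  have c39 : r 10 ≤ v 9 := le_of_lt a3
  have c40 : l 13 ≤ v 9 := le_of_lt (lt_of_lt_of_le c31 c39)
  have c41 : v 12 ≤ r 10 := le_of_lt (lt_of_le_of_lt c11 c31)
  have c42 : ¬ S37 l v r := fun z => L184 h z c24
  have c43 : l 11 < r 17 := (h.e37.resolve_left c42).2.1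
  have c44 : l 11 ≤ r 17 := le_of_lt c43
  have c45 : l 11 ≤ r 12 := le_of_lt (lt_of_le_of_lt c44 c28)
  have c46 : l 11 < v 12 := lt_trans c43 c27
  have c47 : v 17 ≤ r 5 := le_of_lt (lt_of_lt_of_le a1 c7)
  have c48 : ¬ S25 l v r := fun z => not_lt.mpr c47 z.2.2
  have c49 : r 17 < v 5 := (h.e25.resolve_left c48).2.2
  have c50 : r 17 ≤ v 5 := le_of_lt c49
  have c51 : l 12 < r 17 := (h.e40.resolve_left c26).2.1
  have c52 : l 12 ≤ v 5 := le_of_lt (lt_of_lt_of_le c51 c50)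
  have c53 : r 17 < v 11 := (h.e37.resolve_left c42).2.2
  have c54 : r 17 ≤ r 11 := not_lt.mp fun z => L165 h z c53
  have c55 : l 12 ≤ r 11 := le_of_lt (lt_of_lt_of_le c51 c54)
  have c56 : r 5 < v 9 := c21.2.2
  have c57 : v 5 ≤ v 9 := le_of_lt (lt_of_le_of_lt c6 c56)
  have c58 : r 17 ≤ v 9 := le_of_lt (lt_of_lt_of_le c49 c57)
  have c59 : l 11 ≤ v 9 := le_of_lt (lt_of_lt_of_le c43 c58)
  have c60 : v 17 < v 1 := lt_trans c24 c4
  have c61 : l 17 ≤ v 1 := le_of_lt (lt_of_le_of_lt c5 c60)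
  have c62 : r 17 < v 9 := lt_of_lt_of_le c49 c57
  have c63 : v 5 < l 9 := c21.1
  have c64 : r 17 < l 9 := lt_trans c49 c63
  have c65 : v 5 ≤ r 10 := le_of_lt (lt_of_lt_of_le c63 c35)
  have c66 : l 5 ≤ r 10 := le_trans c3 c65
  have c67 : v 17 ≤ r 10 := le_of_lt (lt_of_lt_of_le a1 c66)
  have c68 : v 10 ≤ l 9 := le_of_lt c19
  have c69 : v 10 < r 5 := lt_of_le_of_lt c68 c22
  have c70 : r 5 ≤ v 9 := le_of_lt c56
  have c71 : v 8 ≤ r 0 := not_lt.mp fun z => L35 h z a2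
  have c72 : ¬ S1 l v r := fun z => not_lt.mpr c71 z.2.2
  have c73 : r 8 < v 0 := (h.e1.resolve_left c72).2.2
  have c74 : l 4 < v 0 := lt_trans c2 c73
  have c75 : l 4 < r 0 := not_le.mp fun z => L69 h c74 z
  have c76 : l 4 ≤ v 0 := le_of_lt (lt_of_le_of_lt c1 c73)
  have c77 : r 10 ≤ r 9 := le_of_lt (lt_of_lt_of_le a3 c0)
  have c78 : v 1 < l 4 := a0.1
  have c79 : l 4 < r 1 := a0.2.1
  have c80 : r 1 < v 4 := a0.2.2
  have c81 : l 1 ≤ l 4 := le_of_lt (lt_of_le_of_lt c15 c78)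
  have c82 : v 1 ≤ v 4 := not_lt.mp fun z => L76 h z c78
  have c83 : v 1 < r 0 := lt_trans c78 c75
  have c84 : v 17 < l 4 := lt_trans c60 c78
  have c85 : l 4 ≤ r 1 := le_of_lt c79
  have c86 : l 1 ≤ v 0 := le_of_lt (lt_of_le_of_lt c81 c74)
  have c87 : l 17 ≤ r 0 := le_of_lt (lt_of_le_of_lt c61 c83)
  have c88 : v 7 < r 10 := not_le.mp fun z => L270 h z c87 c84 a0 c33 c30 c27 c49 c67 c70 c63 c74 c35
  have c89 : v 7 ≤ r 13 := le_of_lt (lt_of_lt_of_le c88 c38)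
  have c90 : l 7 < r 10 := lt_of_le_of_lt c12 c88
  have c91 : S29 l v r := h.e29.resolve_right fun z => not_lt.mpr c89 z.2.2
  have c92 : l 7 ≤ r 9 := le_of_lt (lt_of_lt_of_le c90 c77)
  have c93 : r 7 < v 13 := c91.2.2
  have c94 : ¬ S3 l v r := fun z => L273 h z c87 c86 c84 c80 c59 c64 c74
  have c95 : v 11 < l 0 := (h.e3.resolve_left c94).1
  have c96 : v 11 < v 0 := not_le.mp fun z => L0 h c95 z
  have c97 : v 11 < r 15 := lt_trans c95 c13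
  have c98 : r 17 < v 4 := not_le.mp fun z => L274 h z c80 c62 c64
  have c99 : l 5 ≤ v 4 := le_of_lt (lt_of_le_of_lt c14 c98)
  have c100 : ¬ S19 l v r := fun z => not_lt.mpr c99 z.1
  have c101 : l 4 < r 5 := (h.e19.resolve_left c100).2.1
  have c102 : r 5 < v 4 := (h.e19.resolve_left c100).2.2
  have c103 : l 4 < v 9 := lt_trans c101 c56
  have c104 : v 10 < v 4 := lt_trans c69 c102
  have c105 : l 10 ≤ v 4 := le_of_lt (lt_of_le_of_lt c23 c102)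
  have c106 : v 1 < v 9 := lt_trans c78 c103
  have c107 : l 1 ≤ v 9 := le_of_lt (lt_of_le_of_lt c81 c103)
  have c108 : S8 l v r := h.e8.resolve_right fun z => not_lt.mpr c107 z.1
  have c109 : l 9 < r 1 := c108.2.1
  have c110 : l 9 ≤ r 1 := le_of_lt c109
  have c111 : v 10 ≤ r 1 := le_of_lt (lt_of_le_of_lt c68 c109)
  have c112 : v 1 ≤ r 11 := not_lt.mp fun z => L276 h z c106 c82 c37 c55 c76
  have c113 : S9 l v r := h.e9.resolve_right fun z => not_lt.mpr c112 z.2.2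
  have c114 : v 1 < l 11 := c113.1
  have c115 : l 1 ≤ l 11 := le_of_lt (lt_of_le_of_lt c15 c114)
  have c116 : v 1 ≤ r 12 := le_of_lt (lt_of_lt_of_le c114 c45)
  have c117 : v 9 < v 4 := not_le.mp fun z => L275 h c115 z c111 c110 c105 c104 c102 c97 c96 c93 c92 c79 c41 c46 c52 c26 a2
  have c118 : S10 l v r := h.e10.resolve_right fun z => not_lt.mpr c116 z.2.2
  have c119 : l 13 ≤ v 4 := le_of_lt (lt_of_le_of_lt c40 c117)
  have c120 : r 1 < v 12 := c118.2.2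
  have c121 : ¬ S21 l v r := fun z => not_lt.mpr c119 z.1
  have c122 : r 1 < v 13 := lt_trans c120 c16
  have c123 : v 13 < l 4 := (h.e21.resolve_left c121).1
  not_lt.mpr c85 (lt_trans c122 c123)

theorem L278 {l v r : ℕ → ℝ} (h : H l v r) (a0 : v 1 < v 9) (a1 : l 4 ≤ r 10) (a2 : l 0 ≤ v 1) (a3 : l 0 < v 1) (a4 : v 11 ≤ v 1) (a5 : r 4 ≤ v 1) (a6 : v 4 ≤ v 1) (a7 : l 10 ≤ r 4) (a8 : l 5 < v 11) (a9 : l 9 < r 5) (a10 : l 0 ≤ r 8) (a11 : v 8 < v 0) (a12 : l 9 ≤ r 10) : False :=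
  have c0 : l 1 ≤ v 1 := not_lt.mp fun z => L161 h z
  have c1 : l 0 ≤ r 15 := not_lt.mp fun z => L206 h z
  have c2 : l 1 ≤ v 9 := le_of_lt (lt_of_le_of_lt c0 a0)
  have c3 : r 4 ≤ v 9 := le_of_lt (lt_of_le_of_lt a5 a0)
  have c4 : l 0 ≤ v 9 := le_of_lt (lt_of_le_of_lt a2 a0)
  have c5 : S8 l v r := h.e8.resolve_right fun z => not_lt.mpr c2 z.1
  have c6 : v 1 ≤ r 10 := not_lt.mp fun z => L197 h z a1 c3 a12
  have c7 : S2 l v r := h.e2.resolve_right fun z => not_lt.mpr c4 z.1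
  have c8 : v 1 < l 9 := c5.1
  have c9 : l 0 ≤ r 10 := le_of_lt (lt_of_lt_of_le a3 c6)
  have c10 : l 9 < r 0 := c7.2.1
  have c11 : v 1 < r 5 := lt_trans c8 a9
  have c12 : v 11 ≤ l 9 := le_of_lt (lt_of_le_of_lt a4 c8)
  have c13 : v 4 ≤ r 5 := le_of_lt (lt_of_le_of_lt a6 c11)
  have c14 : v 11 ≤ r 0 := le_of_lt (lt_of_le_of_lt c12 c10)
  have c15 : S19 l v r := h.e19.resolve_right fun z => not_lt.mpr c13 z.2.2
  have c16 : ¬ S3 l v r := fun z => not_lt.mpr c14 z.2.2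
  have c17 : v 4 < l 5 := c15.1
  have c18 : v 11 < l 0 := (h.e3.resolve_left c16).1
  have c19 : v 4 < v 11 := lt_trans c17 a8
  have c20 : v 11 ≤ r 15 := le_of_lt (lt_of_lt_of_le c18 c1)
  have c21 : v 11 ≤ r 8 := le_of_lt (lt_of_lt_of_le c18 a10)
  have c22 : v 4 ≤ r 8 := le_of_lt (lt_of_lt_of_le c19 c21)
  have c23 : v 4 ≤ r 15 := le_of_lt (lt_of_lt_of_le c19 c20)
  have c24 : S20 l v r := h.e20.resolve_right fun z => not_lt.mpr c22 z.2.2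
  have c25 : S22 l v r := h.e22.resolve_right fun z => not_lt.mpr c23 z.2.2
  have c26 : r 4 < v 8 := c24.2.2
  have c27 : l 15 < r 4 := c25.2.1
  have c28 : r 4 < v 15 := c25.2.2
  have c29 : r 4 < v 0 := lt_trans c26 a11
  have c30 : l 15 ≤ r 4 := le_of_lt c27
  have c31 : l 10 ≤ v 15 := le_of_lt (lt_of_le_of_lt a7 c28)
  have c32 : l 15 ≤ v 0 := le_of_lt (lt_of_le_of_lt c30 c29)
  have c33 : S34 l v r := h.e34.resolve_right fun z => not_lt.mpr c31 z.1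
  have c34 : ¬ S4 l v r := fun z => not_lt.mpr c32 z.1
  have c35 : r 10 < v 15 := c33.2.2
  have c36 : v 15 < l 0 := (h.e4.resolve_left c34).1
  not_lt.mpr c9 (lt_trans c35 c36)

theorem L279 {l v r : ℕ → ℝ} (h : H l v r) (a0 : v 17 < l 5) (a1 : v 8 < l 0) (a2 : r 10 < v 9) : False :=
  have c0 : l 0 ≤ v 0 := not_lt.mp fun z => L64 h z
  have c1 : l 4 ≤ r 8 := not_lt.mp fun z => L199 h z
  have c2 : l 4 < r 8 := not_le.mp fun z => L198 h z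
  have c3 : v 0 ≤ r 0 := not_lt.mp fun z => L141 h z
  have c4 : l 10 ≤ r 10 := not_lt.mp fun z => L52 h z
  have c5 : l 5 ≤ v 5 := not_lt.mp fun z => L135 h z
  have c6 : l 5 ≤ r 5 := not_lt.mp fun z => L116 h z
  have c7 : l 17 ≤ v 17 := not_lt.mp fun z => L140 h z
  have c8 : l 5 < r 17 := not_le.mp fun z => L227 h z
  have c9 : v 12 < r 12 := not_le.mp fun z => L87 h z
  have c10 : v 12 ≤ r 4 := not_lt.mp fun z => L210 h z
  have c11 : l 5 ≤ r 17 := not_lt.mp fun z => L228 h z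
  have c12 : l 10 < v 10 := h.u10_0
  have c13 : l 13 ≤ r 4 := not_lt.mp fun z => L208 h z
  have c14 : l 1 ≤ v 1 := not_lt.mp fun z => L161 h z
  have c15 : l 12 ≤ r 4 := not_lt.mp fun z => L212 h z
  have c16 : r 12 ≤ r 13 := not_lt.mp fun z => L167 h z
  have c17 : l 0 < r 11 := not_le.mp fun z => L271 h z
  have c18 : l 0 ≤ r 11 := not_lt.mp fun z => L272 h z
  have c19 : l 9 ≤ v 9 := not_lt.mp fun z => L45 h z
  have c20 : l 9 < v 9 := h.u9_0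
  have c21 : l 1 ≤ r 11 := not_lt.mp fun z => L186 h z
  have c22 : v 5 ≤ r 5 := not_lt.mp fun z => L36 h z
  have c23 : l 0 < r 15 := not_le.mp fun z => L205 h z
  have c24 : l 0 ≤ r 15 := not_lt.mp fun z => L206 h z
  have c25 : l 8 ≤ r 3 := not_lt.mp fun z => L217 h z
  have c26 : l 12 ≤ l 13 := not_lt.mp fun z => L90 h z
  have c27 : l 10 ≤ v 9 := le_of_lt (lt_of_le_of_lt c4 a2)
  have c28 : ¬ S31 l v r := fun z => not_lt.mpr c27 z.1
  have c29 : v 10 < l 9 := (h.e31.resolve_left c28).1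
  have c30 : v 10 ≤ l 9 := le_of_lt c29
  have c31 : S24 l v r := Classical.byContradiction fun z => L249 h z a1 a2
  have c32 : l 9 < r 5 := c31.2.1
  have c33 : v 10 < r 5 := lt_of_le_of_lt c30 c32
  have c34 : l 10 ≤ l 9 := not_lt.mp fun z => L54 h c29 z
  have c35 : l 10 ≤ r 5 := le_of_lt (lt_of_le_of_lt c34 c32)
  have c36 : r 5 < v 9 := c31.2.2
  have c37 : v 5 ≤ v 9 := le_of_lt (lt_of_le_of_lt c22 c36)
  have c38 : l 8 < v 9 := not_le.mp fun z => L239 h z a1 a2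
  have c39 : v 8 ≤ r 0 := not_lt.mp fun z => L35 h z a1
  have c40 : ¬ S1 l v r := fun z => not_lt.mpr c39 z.2.2
  have c41 : r 8 < v 0 := (h.e1.resolve_left c40).2.2
  have c42 : l 4 < v 0 := lt_trans c2 c41
  have c43 : l 4 ≤ r 0 := le_of_lt (lt_of_lt_of_le c42 c3)
  have c44 : l 4 ≤ v 0 := le_of_lt (lt_of_le_of_lt c1 c41)
  have c45 : l 0 < r 8 := (h.e1.resolve_left c40).2.1
  have c46 : l 0 ≤ r 8 := le_of_lt c45
  have c47 : v 8 < v 0 := lt_of_lt_of_le a1 c0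
  have c48 : l 9 < r 10 := (h.e31.resolve_left c28).2.1
  have c49 : l 9 ≤ r 10 := le_of_lt c48
  have c50 : v 10 < v 9 := not_le.mp fun z => L47 h a2 z
  have c51 : r 10 ≤ v 9 := le_of_lt a2
  have c52 : v 17 ≤ v 5 := le_of_lt (lt_of_lt_of_le a0 c5)
  have c53 : v 17 ≤ r 5 := le_of_lt (lt_of_lt_of_le a0 c6)
  have c54 : l 17 ≤ v 5 := le_trans c7 c52
  have c55 : ¬ S25 l v r := fun z => not_lt.mpr c53 z.2.2
  have c56 : r 17 < v 5 := (h.e25.resolve_left c55).2.2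
  have c57 : v 17 < l 1 := not_le.mp fun z => L266 h z a0 a1 a2
  have c58 : ¬ S37 l v r := fun z => L184 h z c57
  have c59 : v 17 ≤ r 12 := not_lt.mp fun z => L187 h z c57
  have c60 : r 17 < v 11 := (h.e37.resolve_left c58).2.2
  have c61 : l 11 < r 17 := (h.e37.resolve_left c58).2.1
  have c62 : ¬ S40 l v r := fun z => not_lt.mpr c59 z.2.2
  have c63 : l 5 < v 11 := lt_trans c8 c60
  have c64 : l 11 ≤ r 17 := le_of_lt c61
  have c65 : r 17 < v 12 := (h.e40.resolve_left c62).2.2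
  have c66 : r 17 < r 12 := lt_trans c65 c9
  have c67 : r 17 < r 4 := lt_of_lt_of_le c65 c10
  have c68 : l 5 ≤ r 12 := le_of_lt (lt_of_le_of_lt c11 c66)
  have c69 : l 11 ≤ r 4 := le_of_lt (lt_of_le_of_lt c64 c67)
  have c70 : S33 l v r := Classical.byContradiction fun z => L267 h z c68 c35
  have c71 : v 10 < l 13 := c70.1
  have c72 : l 13 < r 10 := c70.2.1
  have c73 : l 10 < l 13 := lt_trans c12 c71
  have c74 : l 13 ≤ v 9 := le_of_lt (lt_of_lt_of_le c72 c51)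
  have c75 : l 10 ≤ r 4 := le_of_lt (lt_of_lt_of_le c73 c13)
  have c76 : ¬ S6 l v r := fun z => L277 h z a0 a1 a2
  have c77 : v 4 < l 1 := (h.e6.resolve_left c76).1
  have c78 : r 4 < v 1 := (h.e6.resolve_left c76).2.2
  have c79 : v 4 ≤ v 1 := le_of_lt (lt_of_lt_of_le c77 c14)
  have c80 : v 4 ≤ l 1 := le_of_lt c77
  have c81 : r 4 ≤ v 1 := le_of_lt c78
  have c82 : l 12 ≤ v 1 := le_of_lt (lt_of_le_of_lt c15 c78)
  have c83 : l 11 ≤ v 1 := le_of_lt (lt_of_le_of_lt c69 c78)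
  have c84 : ¬ S10 l v r := fun z => not_lt.mpr c82 z.1
  have c85 : ¬ S9 l v r := fun z => not_lt.mpr c83 z.1
  have c86 : l 1 < r 12 := (h.e10.resolve_left c84).2.1
  have c87 : r 11 < v 1 := (h.e9.resolve_left c85).2.2
  have c88 : l 1 < r 13 := lt_of_lt_of_le c86 c16
  have c89 : v 11 ≤ v 1 := not_lt.mp fun z => L118 h c87 z
  have c90 : l 0 < v 1 := lt_trans c17 c87
  have c91 : l 0 ≤ v 1 := le_of_lt (lt_of_le_of_lt c18 c87)
  have c92 : v 4 ≤ r 13 := le_of_lt (lt_of_le_of_lt c80 c88)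
  have c93 : S21 l v r := h.e21.resolve_right fun z => not_lt.mpr c92 z.2.2
  have c94 : v 4 < l 13 := c93.1
  have c95 : r 4 < v 13 := c93.2.2
  have c96 : l 4 ≤ l 13 := not_lt.mp fun z => L21 h c94 z
  have c97 : v 4 ≤ l 13 := le_of_lt c94
  have c98 : v 4 ≤ v 9 := le_of_lt (lt_of_lt_of_le c94 c74)
  have c99 : r 4 ≤ v 13 := le_of_lt c95
  have c100 : l 4 < r 10 := lt_of_le_of_lt c96 c72
  have c101 : l 4 ≤ r 10 := le_of_lt (lt_of_le_of_lt c96 c72)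
  have c102 : v 9 ≤ v 1 := not_lt.mp fun z => L278 h z c101 c91 c90 c89 c81 c79 c75 c63 c32 c46 c47 c49
  have c103 : l 9 ≤ v 1 := le_trans c19 c102
  have c104 : r 10 < v 1 := lt_of_lt_of_le a2 c102
  have c105 : ¬ S8 l v r := fun z => not_lt.mpr c103 z.1
  have c106 : v 9 < r 4 := not_le.mp fun z => L197 h c104 c101 z c49
  have c107 : v 9 < l 1 := (h.e8.resolve_left c105).1
  have c108 : r 10 ≤ r 4 := le_of_lt (lt_of_le_of_lt c51 c106)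
  have c109 : l 8 < r 4 := lt_trans c38 c106
  have c110 : v 5 ≤ r 4 := le_of_lt (lt_of_le_of_lt c37 c106)
  have c111 : l 9 < l 1 := lt_trans c20 c107
  have c112 : l 8 ≤ v 13 := le_of_lt (lt_of_lt_of_le c109 c99)
  have c113 : ¬ S19 l v r := fun z => not_lt.mpr c110 z.2.2
  have c114 : l 9 ≤ r 11 := le_of_lt (lt_of_lt_of_le c111 c21)
  have c115 : r 5 < v 4 := (h.e19.resolve_left c113).2.2
  have c116 : v 5 < l 4 := (h.e19.resolve_left c113).1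
  have c117 : v 5 < v 4 := lt_of_le_of_lt c22 c115
  have c118 : v 10 < v 4 := lt_trans c33 c115
  have c119 : l 10 ≤ v 4 := le_of_lt (lt_of_le_of_lt c35 c115)
  have c120 : l 9 < v 4 := lt_trans c32 c115
  have c121 : v 5 < r 0 := lt_of_lt_of_le c116 c43
  have c122 : v 5 ≤ v 0 := le_of_lt (lt_of_lt_of_le c116 c44)
  have c123 : l 9 ≤ l 13 := le_of_lt (lt_of_lt_of_le c120 c97)
  have c124 : l 17 ≤ r 0 := le_of_lt (lt_of_le_of_lt c54 c121)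
  have c125 : r 17 ≤ v 0 := le_of_lt (lt_of_lt_of_le c56 c122)
  have c126 : ¬ S3 l v r := fun z => L202 h z c125 c124
  have c127 : r 11 < v 0 := (h.e3.resolve_left c126).2.2
  have c128 : l 9 ≤ v 0 := le_of_lt (lt_of_le_of_lt c114 c127)
  have c129 : ¬ S2 l v r := fun z => not_lt.mpr c128 z.1
  have c130 : v 9 < l 0 := (h.e2.resolve_left c129).1
  have c131 : v 10 < l 0 := lt_trans c50 c130
  have c132 : v 9 < r 15 := lt_trans c130 c23
  have c133 : v 9 < r 8 := lt_trans c130 c45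
  have c134 : v 10 ≤ r 15 := le_of_lt (lt_of_lt_of_le c131 c24)
  have c135 : v 4 ≤ r 15 := le_of_lt (lt_of_le_of_lt c98 c132)
  have c136 : v 4 ≤ r 8 := le_of_lt (lt_of_le_of_lt c98 c133)
  have c137 : S34 l v r := h.e34.resolve_right fun z => not_lt.mpr c134 z.2.2
  have c138 : S22 l v r := h.e22.resolve_right fun z => not_lt.mpr c135 z.2.2
  have c139 : S20 l v r := h.e20.resolve_right fun z => not_lt.mpr c136 z.2.2
  have c140 : l 15 < r 10 := c137.2.1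
  have c141 : v 4 < l 15 := c138.1
  have c142 : r 4 < v 15 := c138.2.2
  have c143 : r 4 < v 8 := c139.2.2
  have c144 : v 4 < l 8 := c139.1
  have c145 : l 15 < v 9 := lt_trans c140 a2
  have c146 : r 4 ≤ v 15 := le_of_lt c142
  have c147 : r 10 ≤ v 8 := le_of_lt (lt_of_le_of_lt c108 c143)
  have c148 : v 4 ≤ r 3 := le_of_lt (lt_of_lt_of_le c144 c25)
  have c149 : l 13 < v 3 := not_le.mp fun z => L254 h c144 c112 z c119 c118
  have c150 : v 5 ≤ r 3 := le_of_lt (lt_of_lt_of_le c117 c148)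
  have c151 : v 10 ≤ r 3 := le_of_lt (lt_of_lt_of_le c118 c148)
  have c152 : l 12 ≤ v 3 := le_of_lt (lt_of_le_of_lt c26 c149)
  have c153 : l 9 ≤ v 3 := le_of_lt (lt_of_le_of_lt c123 c149)
  have c154 : ¬ S14 l v r := fun z => not_lt.mpr c150 z.2.2
  have c155 : ¬ S16 l v r := fun z => not_lt.mpr c151 z.2.2
  have c156 : ¬ S17 l v r := fun z => not_lt.mpr c152 z.1
  have c157 : l 3 < r 10 := (h.e16.resolve_left c155).2.1
  have c158 : r 12 < v 3 := (h.e17.resolve_left c156).2.2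
  have c159 : v 12 < l 3 := (h.e17.resolve_left c156).1
  have c160 : l 3 < v 12 := not_le.mp fun z => L223 h c154 c78 c100 c146 c141 z c158 c145 c153 c157 c147
  lt_asymm c160 c159

theorem L280 {l v r : ℕ → ℝ} (h : H l v r) (a0 : v 9 < l 0) (a1 : l 4 < r 10) (a2 : l 9 ≤ l 13) (a3 : v 4 ≤ v 9) (a4 : l 8 ≤ v 13) (a5 : r 10 ≤ r 4) (a6 : r 4 < v 1) (a7 : l 10 ≤ v 4) (a8 : v 10 < v 4) (a9 : v 5 < v 4) (a10 : l 0 < r 8) (a11 : r 10 < v 9) : False :=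
  have c0 : l 0 < r 15 := not_le.mp fun z => L205 h z
  have c1 : l 0 ≤ r 15 := not_lt.mp fun z => L206 h z
  have c2 : l 8 ≤ r 3 := not_lt.mp fun z => L217 h z
  have c3 : l 12 ≤ l 13 := not_lt.mp fun z => L90 h z
  have c4 : v 10 < v 9 := not_le.mp fun z => L47 h a11 z
  have c5 : v 10 < l 0 := lt_trans c4 a0
  have c6 : v 9 < r 15 := lt_trans a0 c0
  have c7 : v 9 < r 8 := lt_trans a0 a10
  have c8 : v 10 ≤ r 15 := le_of_lt (lt_of_lt_of_le c5 c1)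
  have c9 : v 4 ≤ r 15 := le_of_lt (lt_of_le_of_lt a3 c6)
  have c10 : v 4 ≤ r 8 := le_of_lt (lt_of_le_of_lt a3 c7)
  have c11 : S34 l v r := h.e34.resolve_right fun z => not_lt.mpr c8 z.2.2
  have c12 : S22 l v r := h.e22.resolve_right fun z => not_lt.mpr c9 z.2.2
  have c13 : S20 l v r := h.e20.resolve_right fun z => not_lt.mpr c10 z.2.2
  have c14 : l 15 < r 10 := c11.2.1
  have c15 : v 4 < l 15 := c12.1
  have c16 : r 4 < v 15 := c12.2.2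
  have c17 : r 4 < v 8 := c13.2.2
  have c18 : v 4 < l 8 := c13.1
  have c19 : l 15 < v 9 := lt_trans c14 a11
  have c20 : r 4 ≤ v 15 := le_of_lt c16
  have c21 : r 10 ≤ v 8 := le_of_lt (lt_of_le_of_lt a5 c17)
  have c22 : v 4 ≤ r 3 := le_of_lt (lt_of_lt_of_le c18 c2)
  have c23 : l 13 < v 3 := not_le.mp fun z => L254 h c18 a4 z a7 a8
  have c24 : v 5 ≤ r 3 := le_of_lt (lt_of_lt_of_le a9 c22)
  have c25 : v 10 ≤ r 3 := le_of_lt (lt_of_lt_of_le a8 c22)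
  have c26 : l 12 ≤ v 3 := le_of_lt (lt_of_le_of_lt c3 c23)
  have c27 : l 9 ≤ v 3 := le_of_lt (lt_of_le_of_lt a2 c23)
  have c28 : ¬ S14 l v r := fun z => not_lt.mpr c24 z.2.2
  have c29 : ¬ S16 l v r := fun z => not_lt.mpr c25 z.2.2
  have c30 : ¬ S17 l v r := fun z => not_lt.mpr c26 z.1
  have c31 : l 3 < r 10 := (h.e16.resolve_left c29).2.1
  have c32 : r 12 < v 3 := (h.e17.resolve_left c30).2.2
  have c33 : v 12 < l 3 := (h.e17.resolve_left c30).1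
  have c34 : l 3 < v 12 := not_le.mp fun z => L223 h c28 a6 a1 c20 c15 z c32 c19 c27 c31 c21
  lt_asymm c34 c33

theorem L281 {l v r : ℕ → ℝ} (h : H l v r) (a0 : ¬ S14 l v r) (a1 : r 5 ≤ v 12) (a2 : l 12 ≤ r 10) (a3 : l 10 ≤ r 5) : False :=
  have c0 : r 5 < v 3 := (h.e14.resolve_left a0).2.2
  have c1 : l 3 < r 5 := (h.e14.resolve_left a0).2.1
  have c2 : l 10 ≤ v 3 := le_of_lt (lt_of_le_of_lt a3 c0)
  have c3 : l 3 ≤ v 12 := le_of_lt (lt_of_lt_of_le c1 a1)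
  have c4 : ¬ S16 l v r := fun z => not_lt.mpr c2 z.1
  have c5 : S17 l v r := h.e17.resolve_right fun z => not_lt.mpr c3 z.1
  have c6 : r 10 < v 3 := (h.e16.resolve_left c4).2.2
  have c7 : v 3 < l 12 := c5.1
  not_lt.mpr a2 (lt_trans c6 c7)

theorem L282 {l v r : ℕ → ℝ} (h : H l v r) (a0 : ¬ S40 l v r) (a1 : l 5 ≤ r 12) (a2 : v 5 ≤ v 17) (a3 : r 5 ≤ r 17) (a4 : l 10 ≤ r 5) : False :=
  have c0 : l 12 ≤ l 13 := not_lt.mp fun z => L90 h z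
  have c1 : S33 l v r := Classical.byContradiction fun z => L267 h z a1 a4
  have c2 : l 13 < r 10 := c1.2.1
  have c3 : l 12 ≤ r 10 := le_of_lt (lt_of_le_of_lt c0 c2)
  have c4 : v 17 < l 12 := (h.e40.resolve_left a0).1
  have c5 : r 17 < v 12 := (h.e40.resolve_left a0).2.2
  have c6 : v 5 ≤ l 12 := le_of_lt (lt_of_le_of_lt a2 c4)
  have c7 : r 5 ≤ v 12 := le_of_lt (lt_of_le_of_lt a3 c5)
  have c8 : S14 l v r := Classical.byContradiction fun z => L281 h z c7 c3 a4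
  have c9 : v 3 < l 5 := c8.1
  have c10 : r 3 < v 5 := c8.2.2
  have c11 : v 3 ≤ r 12 := le_of_lt (lt_of_lt_of_le c9 a1)
  have c12 : r 3 ≤ l 12 := le_of_lt (lt_of_lt_of_le c10 c6)
  have c13 : S17 l v r := h.e17.resolve_right fun z => not_lt.mpr c11 z.2.2
  not_lt.mpr c12 c13.2.1

theorem L283 {l v r : ℕ → ℝ} (h : H l v r) (a0 : ¬ S19 l v r) (a1 : v 9 ≤ v 1) (a2 : l 11 ≤ l 1) (a3 : v 8 < l 0) (a4 : r 10 < v 9) : False :=
  have c0 : l 10 ≤ r 10 := not_lt.mp fun z => L52 h z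
  have c1 : v 17 ≤ r 17 := not_lt.mp fun z => L157 h z
  have c2 : l 5 ≤ r 5 := not_lt.mp fun z => L116 h z
  have c3 : l 9 ≤ v 9 := not_lt.mp fun z => L45 h z
  have c4 : l 9 < v 9 := h.u9_0
  have c5 : l 1 ≤ r 11 := not_lt.mp fun z => L186 h z
  have c6 : v 5 ≤ r 5 := not_lt.mp fun z => L36 h z
  have c7 : l 12 ≤ r 4 := not_lt.mp fun z => L212 h z
  have c8 : r 12 ≤ r 13 := not_lt.mp fun z => L167 h z
  have c9 : r 12 ≤ v 13 := not_lt.mp fun z => L159 h z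
  have c10 : l 9 ≤ v 1 := le_trans c3 a1
  have c11 : ¬ S8 l v r := fun z => not_lt.mpr c10 z.1
  have c12 : v 9 < l 1 := (h.e8.resolve_left c11).1
  have c13 : l 9 < l 1 := lt_trans c4 c12
  have c14 : l 9 ≤ r 11 := le_of_lt (lt_of_lt_of_le c13 c5)
  have c15 : S24 l v r := Classical.byContradiction fun z => L249 h z a3 a4
  have c16 : r 5 < v 9 := c15.2.2
  have c17 : l 5 ≤ v 9 := le_of_lt (lt_of_le_of_lt c2 c16)
  have c18 : l 5 ≤ l 1 := le_of_lt (lt_of_le_of_lt c17 c12)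
  have c19 : l 8 < v 9 := not_le.mp fun z => L239 h z a3 a4
  have c20 : l 8 ≤ v 9 := le_of_lt c19
  have c21 : l 8 ≤ l 1 := le_of_lt (lt_of_le_of_lt c20 c12)
  have c22 : r 10 ≤ v 9 := le_of_lt a4
  have c23 : r 10 ≤ l 1 := le_of_lt (lt_of_le_of_lt c22 c12)
  have c24 : r 5 ≤ v 1 := le_of_lt (lt_of_lt_of_le c16 a1)
  have c25 : l 5 ≤ v 17 := not_lt.mp fun z => L279 h z a3 a4
  have c26 : S25 l v r := h.e25.resolve_right fun z => not_lt.mpr c25 z.1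
  have c27 : r 5 < v 17 := c26.2.2
  have c28 : v 5 ≤ v 17 := not_lt.mp fun z => L77 h c27 z
  have c29 : r 5 ≤ r 17 := le_of_lt (lt_of_lt_of_le c27 c1)
  have c30 : l 17 < r 5 := c26.2.1
  have c31 : l 9 < r 5 := c15.2.1
  have c32 : l 9 ≤ r 5 := le_of_lt c31
  have c33 : l 10 ≤ v 9 := le_of_lt (lt_of_le_of_lt c0 a4)
  have c34 : ¬ S31 l v r := fun z => not_lt.mpr c33 z.1
  have c35 : v 10 < l 9 := (h.e31.resolve_left c34).1
  have c36 : v 10 ≤ l 9 := le_of_lt c35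
  have c37 : v 10 < r 5 := lt_of_le_of_lt c36 c31
  have c38 : l 10 ≤ l 9 := not_lt.mp fun z => L54 h c35 z
  have c39 : l 10 ≤ r 5 := le_of_lt (lt_of_le_of_lt c38 c31)
  have c40 : v 8 ≤ r 0 := not_lt.mp fun z => L35 h z a3
  have c41 : ¬ S1 l v r := fun z => not_lt.mpr c40 z.2.2
  have c42 : l 0 < r 8 := (h.e1.resolve_left c41).2.1
  have c43 : l 4 < r 5 := (h.e19.resolve_left a0).2.1
  have c44 : r 5 < v 4 := (h.e19.resolve_left a0).2.2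
  have c45 : l 4 ≤ v 1 := le_of_lt (lt_of_lt_of_le c43 c24)
  have c46 : v 5 < v 4 := lt_of_le_of_lt c6 c44
  have c47 : v 10 < v 4 := lt_trans c37 c44
  have c48 : l 10 ≤ v 4 := le_of_lt (lt_of_le_of_lt c39 c44)
  have c49 : l 9 ≤ v 4 := le_of_lt (lt_of_le_of_lt c32 c44)
  have c50 : l 17 < v 4 := lt_trans c30 c44
  have c51 : ¬ S6 l v r := fun z => not_lt.mpr c45 z.1
  have c52 : l 1 < r 4 := (h.e6.resolve_left c51).2.1
  have c53 : v 4 < l 1 := (h.e6.resolve_left c51).1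
  have c54 : r 4 < v 1 := (h.e6.resolve_left c51).2.2
  have c55 : r 10 ≤ r 4 := le_of_lt (lt_of_le_of_lt c23 c52)
  have c56 : v 4 ≤ l 1 := le_of_lt c53
  have c57 : l 12 ≤ v 1 := le_of_lt (lt_of_le_of_lt c7 c54)
  have c58 : ¬ S10 l v r := fun z => not_lt.mpr c57 z.1
  have c59 : l 1 < r 12 := (h.e10.resolve_left c58).2.1
  have c60 : l 1 < r 13 := lt_of_lt_of_le c59 c8
  have c61 : l 1 < v 13 := lt_of_lt_of_le c59 c9
  have c62 : l 5 ≤ r 12 := le_of_lt (lt_of_le_of_lt c18 c59)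
  have c63 : l 11 ≤ r 12 := le_of_lt (lt_of_le_of_lt a2 c59)
  have c64 : r 10 ≤ r 12 := le_of_lt (lt_of_le_of_lt c23 c59)
  have c65 : v 4 ≤ r 13 := le_of_lt (lt_of_le_of_lt c56 c60)
  have c66 : l 8 ≤ v 13 := le_of_lt (lt_of_le_of_lt c21 c61)
  have c67 : S33 l v r := Classical.byContradiction fun z => L267 h z c62 c39
  have c68 : S21 l v r := h.e21.resolve_right fun z => not_lt.mpr c65 z.2.2
  have c69 : l 13 < r 10 := c67.2.1
  have c70 : v 4 < l 13 := c68.1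
  have c71 : l 13 ≤ v 9 := le_of_lt (lt_of_lt_of_le c69 c22)
  have c72 : l 4 ≤ l 13 := not_lt.mp fun z => L21 h c70 z
  have c73 : v 4 < r 10 := lt_trans c70 c69
  have c74 : v 4 ≤ v 9 := le_of_lt (lt_of_lt_of_le c70 c71)
  have c75 : l 9 ≤ l 13 := le_of_lt (lt_of_le_of_lt c49 c70)
  have c76 : l 4 < r 10 := lt_of_le_of_lt c72 c69
  have c77 : l 17 < r 10 := lt_trans c50 c73
  have c78 : l 0 ≤ v 9 := not_lt.mp fun z => L280 h z c76 c75 c74 c66 c55 c54 c48 c47 c46 c42 a4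
  have c79 : S2 l v r := h.e2.resolve_right fun z => not_lt.mpr c78 z.1
  have c80 : v 0 < l 9 := c79.1
  have c81 : l 9 < r 0 := c79.2.1
  have c82 : v 0 ≤ r 11 := le_of_lt (lt_of_lt_of_le c80 c14)
  have c83 : v 10 < r 0 := lt_of_le_of_lt c36 c81
  have c84 : S3 l v r := h.e3.resolve_right fun z => not_lt.mpr c82 z.2.2
  have c85 : r 0 < v 11 := c84.2.2
  have c86 : v 10 < v 11 := lt_trans c83 c85
  have c87 : S40 l v r := Classical.byContradiction fun z => L282 h z c62 c28 c29 c39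
  have c88 : r 12 < v 17 := c87.2.2
  have c89 : r 10 < v 17 := lt_of_le_of_lt c64 c88
  have c90 : l 11 ≤ v 17 := le_of_lt (lt_of_le_of_lt c63 c88)
  have c91 : l 17 ≤ v 10 := not_lt.mp fun z => h.n10_17 z c77 c89
  have c92 : S37 l v r := h.e37.resolve_right fun z => not_lt.mpr c90 z.1
  have c93 : l 17 ≤ v 11 := le_of_lt (lt_of_le_of_lt c91 c86)
  not_lt.mpr c93 c92.1

end Pool.Agent.R38.VetoProof
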