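import Pool.Agent.R38.VetoP1

set_option autoImplicit false

namespace Pool.Agent.R38.VetoProof

theorem L284 {l v r : ℕ → ℝ} (h : H l v r) (a0 : v 9 ≤ v 1) (a1 : l 11 ≤ l 1) (a2 : v 8 < l 0) (a3 : r 10 < v 9) : False :=
  have c0 : v 5 ≤ r 5 := not_lt.mp fun z => L36 h z
  have c1 : l 10 ≤ r 10 := not_lt.mp fun z => L52 h z
  have c2 : l 5 ≤ v 5 := not_lt.mp fun z => L135 h z
  have c3 : l 10 ≤ v 9 := le_of_lt (lt_of_le_of_lt c1 a3)
  have c4 : ¬ S31 l v r := fun z => not_lt.mpr c3 z.1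
  have c5 : l 9 < r 10 := (h.e31.resolve_left c4).2.1
  have c6 : l 9 ≤ r 10 := le_of_lt c5
  have c7 : S24 l v r := Classical.byContradiction fun z => L249 h z a2 a3
  have c8 : v 5 < l 9 := c7.1
  have c9 : v 5 ≤ r 10 := le_of_lt (lt_of_lt_of_le c8 c6)
  have c10 : l 5 ≤ r 10 := le_trans c2 c9
  have c11 : r 5 < v 9 := c7.2.2
  have c12 : v 5 ≤ v 9 := le_of_lt (lt_of_le_of_lt c0 c11)
  have c13 : r 10 < v 1 := lt_of_lt_of_le a3 a0
  have c14 : S19 l v r := Classical.byContradiction fun z => L283 h z a0 a1 a2 a3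
  have c15 : v 4 < l 5 := c14.1
  have c16 : r 4 < v 5 := c14.2.2
  have c17 : l 4 < l 5 := not_le.mp fun z => L2 h c15 z
  have c18 : r 4 ≤ v 9 := le_of_lt (lt_of_lt_of_le c16 c12)
  have c19 : l 4 ≤ r 10 := le_of_lt (lt_of_lt_of_le c17 c10)
  L197 h c13 c19 c18 c6

theorem L285 {l v r : ℕ → ℝ} (h : H l v r) (a0 : S19 l v r) (a1 : v 5 ≤ v 0) (a2 : v 11 < r 15) (a3 : v 5 ≤ r 11) (a4 : l 0 ≤ r 10) (a5 : r 11 ≤ r 10) (a6 : l 5 ≤ l 17) (a7 : l 5 < l 17) (a8 : v 5 ≤ v 17) (a9 : l 10 ≤ r 5) : False :=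
  have c0 : l 13 < r 4 := not_le.mp fun z => L207 h z
  have c1 : l 12 < r 4 := not_le.mp fun z => L209 h z
  have c2 : r 12 ≤ v 13 := not_lt.mp fun z => L159 h z
  have c3 : v 4 < l 5 := a0.1
  have c4 : r 4 < v 5 := a0.2.2
  have c5 : l 4 < l 5 := not_le.mp fun z => L2 h c3 z
  have c6 : l 13 < v 5 := lt_trans c0 c4
  have c7 : l 12 < v 5 := lt_trans c1 c4
  have c8 : r 4 ≤ v 0 := le_of_lt (lt_of_lt_of_le c4 a1)
  have c9 : l 4 < l 17 := lt_trans c5 a7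
  have c10 : l 13 < r 11 := lt_of_lt_of_le c6 a3
  have c11 : l 12 ≤ v 17 := le_of_lt (lt_of_lt_of_le c7 a8)
  have c12 : S40 l v r := h.e40.resolve_right fun z => not_lt.mpr c11 z.1
  have c13 : l 17 < r 12 := c12.2.1
  have c14 : l 17 ≤ v 13 := le_of_lt (lt_of_lt_of_le c13 c2)
  have c15 : l 5 ≤ r 12 := le_of_lt (lt_of_le_of_lt a6 c13)
  have c16 : l 4 ≤ v 13 := le_of_lt (lt_of_lt_of_le c9 c14)
  have c17 : S33 l v r := Classical.byContradiction fun z => L267 h z c15 a9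
  have c18 : S21 l v r := h.e21.resolve_right fun z => not_lt.mpr c16 z.1
  have c19 : v 10 < l 13 := c17.1
  have c20 : r 10 < v 13 := c17.2.2
  have c21 : v 4 < l 13 := c18.1
  have c22 : r 11 < v 13 := lt_of_le_of_lt a5 c20
  have c23 : v 4 ≤ l 13 := le_of_lt c21
  have c24 : l 13 ≤ v 11 := not_lt.mp fun z => h.n11_13 z c10 c22
  have c25 : v 4 ≤ v 11 := le_trans c23 c24
  have c26 : v 10 ≤ v 11 := le_of_lt (lt_of_lt_of_le c19 c24)
  have c27 : v 4 ≤ r 15 := le_of_lt (lt_of_le_of_lt c25 a2)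
  have c28 : v 10 ≤ r 15 := le_of_lt (lt_of_le_of_lt c26 a2)
  have c29 : S22 l v r := h.e22.resolve_right fun z => not_lt.mpr c27 z.2.2
  have c30 : S34 l v r := h.e34.resolve_right fun z => not_lt.mpr c28 z.2.2
  have c31 : l 15 < r 4 := c29.2.1
  have c32 : r 10 < v 15 := c30.2.2
  have c33 : l 15 ≤ v 0 := le_of_lt (lt_of_lt_of_le c31 c8)
  have c34 : l 0 ≤ v 15 := le_of_lt (lt_of_le_of_lt a4 c32)
  have c35 : ¬ S4 l v r := fun z => not_lt.mpr c33 z.1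
  not_lt.mpr c34 (h.e4.resolve_left c35).1

theorem L286 {l v r : ℕ → ℝ} (h : H l v r) (a0 : S40 l v r) (a1 : v 1 ≤ v 4) (a2 : l 17 ≤ r 11) (a3 : v 1 < v 9) (a4 : r 11 < v 1) (a5 : l 5 ≤ l 17) (a6 : l 10 ≤ r 5) (a7 : l 4 ≤ v 0) (a8 : l 9 ≤ r 10) : False :=
  have c0 : l 17 < r 12 := a0.2.1
  have c1 : v 12 < l 17 := a0.1
  have c2 : l 5 ≤ r 12 := le_of_lt (lt_of_le_of_lt a5 c0)
  have c3 : l 12 < l 17 := not_le.mp fun z => L1 h c1 z
  have c4 : S33 l v r := Classical.byContradiction fun z => L267 h z c2 a6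
  have c5 : l 12 ≤ r 11 := le_of_lt (lt_of_lt_of_le c3 a2)
  have c6 : r 10 < v 13 := c4.2.2
  have c7 : v 13 < l 9 := not_le.mp fun z => L276 h a4 a3 a1 z c5 a7
  not_lt.mpr a8 (lt_trans c6 c7)

theorem L287 {l v r : ℕ → ℝ} (h : H l v r) (a0 : ¬ S40 l v r) (a1 : l 5 ≤ v 17) (a2 : l 10 ≤ r 5) : False :=
  have c0 : v 17 ≤ r 17 := not_lt.mp fun z => L157 h z
  have c1 : l 12 < r 12 := not_le.mp fun z => L92 h z
  have c2 : S25 l v r := h.e25.resolve_right fun z => not_lt.mpr a1 z.1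
  have c3 : r 5 < v 17 := c2.2.2
  have c4 : v 5 ≤ v 17 := not_lt.mp fun z => L77 h c3 z
  have c5 : r 5 ≤ r 17 := le_of_lt (lt_of_lt_of_le c3 c0)
  have c6 : v 17 < l 12 := (h.e40.resolve_left a0).1
  have c7 : r 12 < l 5 := not_le.mp fun z => L282 h a0 z c4 c5 a2
  have c8 : l 5 ≤ l 12 := le_of_lt (lt_of_le_of_lt a1 c6)
  not_lt.mpr c8 (lt_trans c1 c7)

theorem L288 {l v r : ℕ → ℝ} (h : H l v r) (a0 : r 11 < v 1) (a1 : v 8 < l 0) (a2 : r 10 < v 9) : False :=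
  have c0 : l 4 ≤ r 8 := not_lt.mp fun z => L199 h z
  have c1 : l 5 < v 5 := h.u5_0
  have c2 : l 5 ≤ v 5 := not_lt.mp fun z => L135 h z
  have c3 : l 10 ≤ r 10 := not_lt.mp fun z => L52 h z
  have c4 : v 17 ≤ r 17 := not_lt.mp fun z => L157 h z
  have c5 : v 11 < r 11 := h.u11_1
  have c6 : l 0 < r 11 := not_le.mp fun z => L271 h z
  have c7 : l 0 ≤ r 11 := not_lt.mp fun z => L272 h z
  have c8 : l 1 ≤ v 1 := not_lt.mp fun z => L161 h z
  have c9 : l 0 < r 15 := not_le.mp fun z => L205 h z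
  have c10 : l 10 ≤ v 9 := le_of_lt (lt_of_le_of_lt c3 a2)
  have c11 : ¬ S31 l v r := fun z => not_lt.mpr c10 z.1
  have c12 : v 10 < l 9 := (h.e31.resolve_left c11).1
  have c13 : l 10 ≤ l 9 := not_lt.mp fun z => L54 h c12 z
  have c14 : S24 l v r := Classical.byContradiction fun z => L249 h z a1 a2
  have c15 : l 9 < r 5 := c14.2.1
  have c16 : l 10 ≤ r 5 := le_of_lt (lt_of_le_of_lt c13 c15)
  have c17 : l 5 ≤ v 17 := not_lt.mp fun z => L279 h z a1 a2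
  have c18 : S40 l v r := Classical.byContradiction fun z => L287 h z c17 c16
  have c19 : r 12 < v 17 := c18.2.2
  have c20 : l 1 ≤ v 17 := not_lt.mp fun z => L187 h c19 z
  have c21 : l 1 ≤ r 17 := le_trans c20 c4
  have c22 : S25 l v r := h.e25.resolve_right fun z => not_lt.mpr c17 z.1
  have c23 : v 5 < l 17 := c22.1
  have c24 : l 5 ≤ l 17 := le_of_lt (lt_of_le_of_lt c2 c23)
  have c25 : v 5 ≤ l 17 := le_of_lt c23
  have c26 : l 5 < l 17 := lt_trans c1 c23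
  have c27 : r 5 < v 17 := c22.2.2
  have c28 : v 5 ≤ v 17 := not_lt.mp fun z => L77 h c27 z
  have c29 : l 9 ≤ r 5 := le_of_lt c15
  have c30 : v 8 ≤ r 0 := not_lt.mp fun z => L35 h z a1
  have c31 : ¬ S1 l v r := fun z => not_lt.mpr c30 z.2.2
  have c32 : r 8 < v 0 := (h.e1.resolve_left c31).2.2
  have c33 : l 4 ≤ v 0 := le_of_lt (lt_of_le_of_lt c0 c32)
  have c34 : l 9 < r 10 := (h.e31.resolve_left c11).2.1
  have c35 : l 9 ≤ r 10 := le_of_lt c34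
  have c36 : v 11 < v 1 := lt_trans c5 a0
  have c37 : l 11 ≤ v 1 := not_lt.mp fun z => L142 h a0 z
  have c38 : l 0 < v 1 := lt_trans c6 a0
  have c39 : l 0 ≤ v 1 := le_of_lt (lt_of_le_of_lt c7 a0)
  have c40 : ¬ S9 l v r := fun z => not_lt.mpr c37 z.1
  have c41 : v 11 < l 1 := (h.e9.resolve_left c40).1
  have c42 : l 11 ≤ l 1 := not_lt.mp fun z => L53 h c41 z
  have c43 : v 11 ≤ r 17 := le_of_lt (lt_of_lt_of_le c41 c21)
  have c44 : v 1 < v 9 := not_le.mp fun z => L284 h z c42 a1 a2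
  have c45 : S37 l v r := h.e37.resolve_right fun z => not_lt.mpr c43 z.2.2
  have c46 : l 1 ≤ v 9 := le_of_lt (lt_of_le_of_lt c8 c44)
  have c47 : l 0 ≤ v 9 := le_of_lt (lt_of_le_of_lt c39 c44)
  have c48 : l 17 < r 11 := c45.2.1
  have c49 : S8 l v r := h.e8.resolve_right fun z => not_lt.mpr c46 z.1
  have c50 : S2 l v r := h.e2.resolve_right fun z => not_lt.mpr c47 z.1
  have c51 : l 17 ≤ r 11 := le_of_lt c48
  have c52 : v 5 ≤ r 11 := le_of_lt (lt_of_le_of_lt c25 c48)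
  have c53 : v 1 < l 9 := c49.1
  have c54 : l 9 < r 0 := c50.2.1
  have c55 : v 4 < v 1 := not_le.mp fun z => L286 h c18 z c51 c44 a0 c24 c16 c33 c35
  have c56 : v 1 ≤ r 10 := le_of_lt (lt_of_lt_of_le c53 c35)
  have c57 : v 1 ≤ r 5 := le_of_lt (lt_of_lt_of_le c53 c29)
  have c58 : v 11 < l 9 := lt_trans c36 c53
  have c59 : l 9 ≤ r 0 := le_of_lt c54
  have c60 : v 4 ≤ r 5 := le_of_lt (lt_of_lt_of_le c55 c57)
  have c61 : r 11 ≤ r 10 := le_of_lt (lt_of_lt_of_le a0 c56)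
  have c62 : l 0 ≤ r 10 := le_of_lt (lt_of_lt_of_le c38 c56)
  have c63 : v 11 ≤ r 0 := le_of_lt (lt_of_lt_of_le c58 c59)
  have c64 : S19 l v r := h.e19.resolve_right fun z => not_lt.mpr c60 z.2.2
  have c65 : ¬ S3 l v r := fun z => not_lt.mpr c63 z.2.2
  have c66 : v 11 < l 0 := (h.e3.resolve_left c65).1
  have c67 : r 11 < v 0 := (h.e3.resolve_left c65).2.2
  have c68 : v 11 < r 15 := lt_trans c66 c9
  have c69 : v 5 ≤ v 0 := le_of_lt (lt_of_le_of_lt c52 c67)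
  L285 h c64 c69 c68 c52 c62 c61 c24 c26 c28 c16

theorem L289 {l v r : ℕ → ℝ} (h : H l v r) (a0 : v 7 < l 13) (a1 : v 5 ≤ l 0) (a2 : l 13 ≤ r 0) (a3 : l 13 ≤ r 5) : False :=
  have c0 : v 7 ≤ r 5 := le_of_lt (lt_of_lt_of_le a0 a3)
  have c1 : v 7 ≤ r 0 := le_of_lt (lt_of_lt_of_le a0 a2)
  have c2 : ¬ S23 l v r := fun z => not_lt.mpr c0 z.2.2
  have c3 : ¬ S0 l v r := fun z => not_lt.mpr c1 z.2.2
  have c4 : r 7 < v 5 := (h.e23.resolve_left c2).2.2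
  have c5 : l 0 < r 7 := (h.e0.resolve_left c3).2.1
  not_lt.mpr a1 (lt_trans c5 c4)

theorem L290 {l v r : ℕ → ℝ} (h : H l v r) (a0 : ¬ S29 l v r) (a1 : r 5 ≤ v 13) (a2 : l 5 ≤ r 13) : False :=
  have c0 : v 13 < l 7 := (h.e29.resolve_left a0).1
  have c1 : r 13 < v 7 := (h.e29.resolve_left a0).2.2
  have c2 : r 5 ≤ l 7 := le_of_lt (lt_of_le_of_lt a1 c0)
  have c3 : l 5 ≤ v 7 := le_of_lt (lt_of_le_of_lt a2 c1)
  have c4 : ¬ S23 l v r := fun z => not_lt.mpr c2 z.2.1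
  not_lt.mpr c3 (h.e23.resolve_left c4).1

theorem L291 {l v r : ℕ → ℝ} (h : H l v r) (a0 : v 11 < l 0) (a1 : v 7 < l 13) (a2 : l 13 ≤ v 11) (a3 : l 13 ≤ r 5) (a4 : v 5 ≤ v 11) : False :=
  have c0 : l 0 ≤ r 0 := not_lt.mp fun z => L26 h z
  have c1 : v 11 < r 0 := lt_of_lt_of_le a0 c0
  have c2 : v 5 ≤ l 0 := le_of_lt (lt_of_le_of_lt a4 a0)
  have c3 : l 13 ≤ r 0 := le_of_lt (lt_of_le_of_lt a2 c1)
  L289 h a1 c2 c3 a3

theorem L292 {l v r : ℕ → ℝ} (h : H l v r) (a0 : S22 l v r) (a1 : r 4 ≤ v 0) (a2 : l 0 ≤ r 10) (a3 : l 10 ≤ r 4) : False :=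
  have c0 : l 15 < r 4 := a0.2.1
  have c1 : r 4 < v 15 := a0.2.2
  have c2 : l 15 ≤ v 0 := le_of_lt (lt_of_lt_of_le c0 a1)
  have c3 : l 10 ≤ v 15 := le_of_lt (lt_of_le_of_lt a3 c1)
  have c4 : ¬ S4 l v r := fun z => not_lt.mpr c2 z.1
  have c5 : S34 l v r := h.e34.resolve_right fun z => not_lt.mpr c3 z.1
  have c6 : v 15 < l 0 := (h.e4.resolve_left c4).1
  have c7 : r 10 < v 15 := c5.2.2
  not_lt.mpr a2 (lt_trans c7 c6)

theorem L293 {l v r : ℕ → ℝ} (h : H l v r) (a0 : ¬ S14 l v r) (a1 : r 8 ≤ v 5) (a2 : l 8 ≤ r 5) : False :=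
  have c0 : v 5 < l 3 := (h.e14.resolve_left a0).1
  have c1 : r 5 < v 3 := (h.e14.resolve_left a0).2.2
  have c2 : r 8 ≤ l 3 := le_of_lt (lt_of_le_of_lt a1 c0)
  have c3 : l 8 ≤ v 3 := le_of_lt (lt_of_le_of_lt a2 c1)
  have c4 : S15 l v r := h.e15.resolve_right fun z => not_lt.mpr c2 z.2.1
  not_lt.mpr c3 c4.1

theorem L294 {l v r : ℕ → ℝ} (h : H l v r) (a0 : r 1 ≤ r 6) (a1 : v 15 < r 1) (a2 : r 15 ≤ v 1) : False :=
  have c0 : v 1 < r 1 := h.u1_1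
  have c1 : v 1 ≤ r 6 := le_of_lt (lt_of_lt_of_le c0 a0)
  have c2 : v 15 ≤ r 6 := le_of_lt (lt_of_lt_of_le a1 a0)
  have c3 : S7 l v r := h.e7.resolve_right fun z => not_lt.mpr c1 z.2.2
  have c4 : ¬ S27 l v r := fun z => not_lt.mpr c2 z.2.2
  have c5 : v 1 < l 6 := c3.1
  have c6 : l 6 < r 15 := (h.e27.resolve_left c4).2.1
  not_lt.mpr a2 (lt_trans c5 c6)

theorem L295 {l v r : ℕ → ℝ} (h : H l v r) (a0 : r 4 ≤ l 16) (a1 : r 2 < r 6) (a2 : v 6 < r 4) (a3 : r 6 < r 14) (a4 : l 14 ≤ r 4) (a5 : v 2 ≤ r 4) : False :=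
  have c0 : l 16 < r 16 := not_le.mp fun z => L113 h z
  have c1 : l 16 ≤ v 16 := not_lt.mp fun z => L112 h z
  have c2 : l 14 ≤ l 16 := le_trans a4 a0
  have c3 : r 4 < r 16 := lt_of_le_of_lt a0 c0
  have c4 : v 6 < l 16 := lt_of_lt_of_le a2 a0
  have c5 : l 14 ≤ v 16 := le_trans c2 c1
  have c6 : v 2 ≤ r 16 := le_of_lt (lt_of_le_of_lt a5 c3)
  have c7 : S42 l v r := h.e42.resolve_right fun z => not_lt.mpr c5 z.1
  have c8 : S13 l v r := h.e13.resolve_right fun z => not_lt.mpr c6 z.2.2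
  have c9 : r 14 < v 16 := c7.2.2
  have c10 : l 16 < r 2 := c8.2.1
  have c11 : r 6 < v 16 := lt_trans a3 c9
  have c12 : l 16 < r 6 := lt_trans c10 a1
  h.n6_16 c4 c12 c11

theorem L296 {l v r : ℕ → ℝ} (h : H l v r) (a0 : ¬ S22 l v r) (a1 : r 8 < v 1) (a2 : v 7 ≤ r 15) (a3 : l 8 ≤ r 5) (a4 : r 7 < v 1) (a5 : v 7 ≤ l 17) (a6 : v 17 < r 9) (a7 : v 12 ≤ l 11) (a8 : l 1 ≤ l 17) (a9 : r 4 ≤ r 12) (a10 : v 4 ≤ l 5) (a11 : r 4 ≤ v 11) (a12 : l 1 < v 5) (a13 : l 4 < r 1) (a14 : v 4 ≤ r 1) (a15 : v 4 ≤ v 1) (a16 : v 1 < v 17) (a17 : v 1 < l 9) (a18 : l 5 ≤ r 12) (a19 : l 1 ≤ v 17) (a20 : v 8 ≤ r 15) : False :=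
  have c0 : v 17 ≤ r 17 := not_lt.mp fun z => L157 h z
  have c1 : l 4 ≤ v 4 := not_lt.mp fun z => L3 h z
  have c2 : l 15 ≤ r 15 := not_lt.mp fun z => L152 h z
  have c3 : v 14 ≤ r 14 := not_lt.mp fun z => L137 h z
  have c4 : l 14 ≤ r 14 := not_lt.mp fun z => L147 h z
  have c5 : ¬ S6 l v r := fun z => not_lt.mpr a14 z.2.2
  have c6 : v 4 < l 1 := (h.e6.resolve_left c5).1
  have c7 : l 4 ≤ l 1 := le_of_lt (lt_of_le_of_lt c1 c6)
  have c8 : l 1 < r 4 := (h.e6.resolve_left c5).2.1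
  have c9 : l 1 ≤ r 4 := le_of_lt c8
  have c10 : l 1 ≤ r 17 := le_trans a19 c0
  have c11 : r 15 < v 4 := (h.e22.resolve_left a0).2.2
  have c12 : v 15 < l 4 := (h.e22.resolve_left a0).1
  have c13 : l 15 ≤ v 4 := le_of_lt (lt_of_le_of_lt c2 c11)
  have c14 : v 8 < v 4 := lt_of_le_of_lt a20 c11
  have c15 : r 15 < l 1 := lt_trans c11 c6
  have c16 : r 15 ≤ v 1 := le_of_lt (lt_of_lt_of_le c11 a15)
  have c17 : v 15 ≤ l 1 := le_of_lt (lt_of_lt_of_le c12 c7)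
  have c18 : v 15 < r 1 := lt_trans c12 a13
  have c19 : l 15 ≤ r 1 := le_trans c13 a14
  have c20 : v 8 < l 1 := lt_trans c14 c6
  have c21 : r 14 ≤ v 17 := not_lt.mp fun z => L183 h a19 c15 z
  have c22 : v 7 < l 1 := lt_of_le_of_lt a2 c15
  have c23 : ¬ S12 l v r := fun z => L193 h z c17 c19
  have c24 : r 8 ≤ l 1 := not_lt.mp fun z => h.n8_1 c20 z a1
  have c25 : v 14 ≤ v 17 := le_trans c3 c21
  have c26 : l 14 ≤ v 17 := le_trans c4 c21
  have c27 : r 7 ≤ l 1 := not_lt.mp fun z => h.n7_1 c22 z a4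
  have c28 : l 2 < r 15 := (h.e12.resolve_left c23).2.1
  have c29 : r 8 ≤ v 5 := le_of_lt (lt_of_le_of_lt c24 a12)
  have c30 : v 14 ≤ r 9 := le_of_lt (lt_of_le_of_lt c25 a6)
  have c31 : S43 l v r := h.e43.resolve_right fun z => not_lt.mpr c26 z.1
  have c32 : r 7 ≤ r 4 := le_trans c27 c9
  have c33 : l 2 ≤ v 1 := le_of_lt (lt_of_lt_of_le c28 c16)
  have c34 : ¬ S32 l v r := fun z => not_lt.mpr c30 z.2.2
  have c35 : l 17 < r 14 := c31.2.1
  have c36 : ¬ S5 l v r := fun z => not_lt.mpr c33 z.1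
  have c37 : l 9 < r 14 := (h.e32.resolve_left c34).2.1
  have c38 : v 7 ≤ r 14 := le_of_lt (lt_of_le_of_lt a5 c35)
  have c39 : r 2 < v 1 := (h.e5.resolve_left c36).2.2
  have c40 : v 2 < l 1 := (h.e5.resolve_left c36).1
  have c41 : v 1 < r 14 := lt_trans a17 c37
  have c42 : S30 l v r := h.e30.resolve_right fun z => not_lt.mpr c38 z.2.2
  have c43 : r 2 < v 17 := lt_trans c39 a16
  have c44 : v 2 ≤ r 4 := le_of_lt (lt_of_lt_of_le c40 c9)
  have c45 : v 2 < l 17 := lt_of_lt_of_le c40 a8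
  have c46 : l 14 < r 7 := c42.2.1
  have c47 : r 2 ≤ l 17 := not_lt.mp fun z => h.n2_17 c45 z c43
  have c48 : l 14 ≤ r 4 := le_of_lt (lt_of_lt_of_le c46 c32)
  have c49 : S14 l v r := Classical.byContradiction fun z => L293 h z c29 a3
  have c50 : l 5 < r 3 := c49.2.1
  have c51 : v 3 < l 5 := c49.1
  have c52 : v 4 ≤ r 3 := le_of_lt (lt_of_le_of_lt a10 c50)
  have c53 : v 3 ≤ r 12 := le_of_lt (lt_of_lt_of_le c51 a18)
  have c54 : S17 l v r := h.e17.resolve_right fun z => not_lt.mpr c53 z.2.2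
  have c55 : r 3 < v 12 := c54.2.2
  have c56 : r 6 < r 1 := not_le.mp fun z => L294 h z c18 c16
  have c57 : v 6 ≤ r 1 := not_lt.mp fun z => L79 h c56 z
  have c58 : ¬ S7 l v r := fun z => not_lt.mpr c57 z.2.2
  have c59 : r 6 < v 1 := (h.e7.resolve_left c58).2.2
  have c60 : v 6 < l 1 := (h.e7.resolve_left c58).1
  have c61 : r 6 < r 14 := lt_trans c59 c41
  have c62 : v 6 < r 4 := lt_trans c60 c8
  have c63 : v 6 ≤ r 17 := le_of_lt (lt_of_lt_of_le c60 c10)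
  have c64 : S28 l v r := h.e28.resolve_right fun z => not_lt.mpr c63 z.2.2
  have c65 : l 17 < r 6 := c64.2.1
  have c66 : r 2 < r 6 := lt_of_le_of_lt c47 c65
  have c67 : l 16 < r 4 := not_le.mp fun z => L295 h z c66 c62 c61 c48 c44
  have c68 : l 16 ≤ v 11 := le_of_lt (lt_of_lt_of_le c67 a11)
  have c69 : ¬ S36 l v r := fun z => not_lt.mpr c68 z.1
  have c70 : l 11 < r 16 := (h.e36.resolve_left c69).2.1
  have c71 : v 12 ≤ r 16 := le_of_lt (lt_of_le_of_lt a7 c70)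
  have c72 : S39 l v r := h.e39.resolve_right fun z => not_lt.mpr c71 z.2.2
  have c73 : v 12 < l 16 := c72.1
  have c74 : r 12 < v 16 := c72.2.2
  have c75 : r 4 < v 16 := lt_of_le_of_lt a9 c74
  have c76 : l 16 ≤ v 4 := not_lt.mp fun z => h.n4_16 z c67 c75
  have c77 : v 4 ≤ v 12 := le_of_lt (lt_of_le_of_lt c52 c55)
  not_lt.mpr (le_trans c76 c77) c73

theorem L297 {l v r : ℕ → ℝ} (h : H l v r) (a0 : v 4 < v 1) (a1 : v 5 ≤ v 11) (a2 : l 11 ≤ r 9) (a3 : v 1 ≤ r 5) (a4 : v 1 ≤ r 10) (a5 : v 1 < l 9) (a6 : v 1 ≤ v 11) (a7 : v 1 < l 11) (a8 : l 10 ≤ r 4) (a9 : r 10 ≤ v 13) (a10 : v 10 < r 4) (a11 : l 1 ≤ v 17) (a12 : l 17 < r 12) (a13 : l 9 < v 17) (a14 : v 5 < l 17) (a15 : r 5 < v 17) (a16 : v 5 ≤ r 10) (a17 : v 8 < l 0) (a18 : r 10 < r 9) : False :=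
  have c0 : l 8 ≤ v 8 := not_lt.mp fun z => L110 h z
  have c1 : r 12 ≤ r 13 := not_lt.mp fun z => L167 h z
  have c2 : l 5 ≤ v 5 := not_lt.mp fun z => L135 h z
  have c3 : v 12 ≤ r 4 := not_lt.mp fun z => L210 h z
  have c4 : l 12 ≤ r 4 := not_lt.mp fun z => L212 h z
  have c5 : l 13 < r 4 := not_le.mp fun z => L207 h z
  have c6 : v 12 ≤ l 13 := not_lt.mp fun z => L143 h z
  have c7 : v 5 ≤ r 5 := not_lt.mp fun z => L36 h z
  have c8 : l 0 ≤ r 15 := not_lt.mp fun z => L206 h z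
  have c9 : v 15 ≤ r 15 := not_lt.mp fun z => L151 h z
  have c10 : v 1 < v 17 := lt_trans a5 a13
  have c11 : v 1 ≤ l 11 := le_of_lt a7
  have c12 : l 5 ≤ l 17 := le_of_lt (lt_of_le_of_lt c2 a14)
  have c13 : l 17 < r 13 := lt_of_lt_of_le a12 c1
  have c14 : l 5 ≤ r 13 := le_of_lt (lt_of_le_of_lt c12 c13)
  have c15 : l 5 ≤ r 12 := le_of_lt (lt_of_le_of_lt c12 a12)
  have c16 : v 5 ≤ l 17 := le_of_lt a14
  have c17 : v 5 ≤ r 12 := le_of_lt (lt_of_le_of_lt c16 a12)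
  have c18 : v 5 < r 12 := lt_trans a14 a12
  have c19 : v 8 ≤ r 0 := not_lt.mp fun z => L35 h z a17
  have c20 : ¬ S1 l v r := fun z => not_lt.mpr c19 z.2.2
  have c21 : r 8 < v 0 := (h.e1.resolve_left c20).2.2
  have c22 : r 8 ≤ v 0 := le_of_lt c21
  have c23 : v 8 ≤ r 15 := le_of_lt (lt_of_lt_of_le a17 c8)
  have c24 : l 8 ≤ l 0 := le_of_lt (lt_of_le_of_lt c0 a17)
  have c25 : v 4 ≤ v 1 := le_of_lt a0
  have c26 : l 4 < v 1 := not_le.mp fun z => L59 h a0 z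
  have c27 : v 4 ≤ r 1 := not_lt.mp fun z => L71 h z a0
  have c28 : v 4 ≤ r 5 := le_of_lt (lt_of_lt_of_le a0 a3)
  have c29 : l 4 < r 1 := not_le.mp fun z => L123 h c26 z
  have c30 : ¬ S6 l v r := fun z => not_lt.mpr c27 z.2.2
  have c31 : S19 l v r := h.e19.resolve_right fun z => not_lt.mpr c28 z.2.2
  have c32 : l 1 < r 4 := (h.e6.resolve_left c30).2.1
  have c33 : r 4 < v 1 := (h.e6.resolve_left c30).2.2
  have c34 : v 4 < l 5 := c31.1
  have c35 : r 4 < v 5 := c31.2.2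
  have c36 : l 1 ≤ r 4 := le_of_lt c32
  have c37 : l 1 < v 5 := lt_trans c32 c35
  have c38 : l 13 < v 1 := lt_trans c5 c33
  have c39 : v 12 ≤ v 1 := le_of_lt (lt_of_le_of_lt c3 c33)
  have c40 : l 12 ≤ v 1 := le_of_lt (lt_of_le_of_lt c4 c33)
  have c41 : r 4 ≤ v 11 := le_of_lt (lt_of_lt_of_le c33 a6)
  have c42 : v 4 ≤ l 5 := le_of_lt c34
  have c43 : l 13 < v 5 := lt_trans c5 c35
  have c44 : r 4 < l 17 := lt_trans c35 a14
  have c45 : r 4 < r 12 := lt_trans c35 c18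
  have c46 : r 4 ≤ r 12 := le_of_lt (lt_of_lt_of_le c35 c17)
  have c47 : l 1 ≤ l 17 := le_of_lt (lt_of_le_of_lt c36 c44)
  have c48 : l 13 ≤ l 11 := le_of_lt (lt_of_lt_of_le c38 c11)
  have c49 : l 13 ≤ r 5 := le_of_lt (lt_of_lt_of_le c38 a3)
  have c50 : l 13 ≤ v 11 := le_of_lt (lt_of_lt_of_le c38 a6)
  have c51 : v 12 ≤ l 11 := le_of_lt (lt_of_le_of_lt c39 a7)
  have c52 : ¬ S10 l v r := fun z => not_lt.mpr c40 z.1
  have c53 : l 13 ≤ l 17 := le_of_lt (lt_of_lt_of_le c43 c16)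
  have c54 : v 10 < l 17 := lt_trans a10 c44
  have c55 : r 12 < v 1 := (h.e10.resolve_left c52).2.2
  have c56 : r 12 < r 10 := lt_of_lt_of_le c55 a4
  have c57 : l 17 < v 1 := lt_trans a12 c55
  have c58 : v 5 ≤ v 1 := le_of_lt (lt_of_le_of_lt c17 c55)
  have c59 : l 17 < r 10 := lt_trans a12 c56
  have c60 : v 17 ≤ r 10 := not_lt.mp fun z => h.n10_17 c54 c59 z
  have c61 : v 17 < r 9 := lt_of_le_of_lt c60 a18
  have c62 : r 5 < r 10 := lt_of_lt_of_le a15 c60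
  have c63 : r 5 ≤ v 13 := le_of_lt (lt_of_lt_of_le c62 a9)
  have c64 : S29 l v r := Classical.byContradiction fun z => L290 h z c63 c14
  have c65 : l 13 < r 7 := c64.2.1
  have c66 : v 7 < l 13 := c64.1
  have c67 : v 12 ≤ r 7 := le_of_lt (lt_of_le_of_lt c6 c65)
  have c68 : v 7 ≤ l 17 := le_of_lt (lt_of_lt_of_le c66 c53)
  have c69 : v 7 ≤ l 11 := le_of_lt (lt_of_lt_of_le c66 c48)
  have c70 : v 7 ≤ r 5 := le_of_lt (lt_of_lt_of_le c66 c49)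
  have c71 : ¬ S23 l v r := fun z => not_lt.mpr c70 z.2.2
  have c72 : r 7 < v 5 := (h.e23.resolve_left c71).2.2
  have c73 : r 7 < v 1 := lt_of_lt_of_le c72 c58
  have c74 : l 0 ≤ v 11 := not_lt.mp fun z => L291 h z c66 c50 c49 a1
  have c75 : S3 l v r := h.e3.resolve_right fun z => not_lt.mpr c74 z.1
  have c76 : l 11 < r 0 := c75.2.1
  have c77 : v 0 < l 11 := c75.1
  have c78 : l 13 ≤ r 0 := le_of_lt (lt_of_le_of_lt c48 c76)
  have c79 : v 7 ≤ r 0 := le_of_lt (lt_of_le_of_lt c69 c76)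
  have c80 : v 0 ≤ r 9 := le_of_lt (lt_of_lt_of_le c77 a2)
  have c81 : l 0 < v 5 := not_le.mp fun z => L289 h c66 z c78 c49
  have c82 : ¬ S0 l v r := fun z => not_lt.mpr c79 z.2.2
  have c83 : S2 l v r := h.e2.resolve_right fun z => not_lt.mpr c80 z.2.2
  have c84 : l 0 ≤ r 5 := le_of_lt (lt_of_lt_of_le c81 c7)
  have c85 : v 8 < v 5 := lt_trans a17 c81
  have c86 : l 0 ≤ r 10 := le_of_lt (lt_of_lt_of_le c81 a16)
  have c87 : r 7 < v 0 := (h.e0.resolve_left c82).2.2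
  have c88 : v 7 < l 0 := (h.e0.resolve_left c82).1
  have c89 : v 0 < l 9 := c83.1
  have c90 : l 8 ≤ r 5 := le_trans c24 c84
  have c91 : v 8 < l 17 := lt_trans c85 a14
  have c92 : v 12 ≤ v 0 := le_of_lt (lt_of_le_of_lt c67 c87)
  have c93 : v 7 ≤ r 15 := le_of_lt (lt_of_lt_of_le c88 c8)
  have c94 : r 8 < l 9 := lt_of_le_of_lt c22 c89
  have c95 : r 8 < v 17 := lt_trans c94 a13
  have c96 : r 8 ≤ l 17 := not_lt.mp fun z => h.n8_17 c91 z c95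
  have c97 : r 8 < v 1 := lt_of_le_of_lt c96 c57
  have c98 : S22 l v r := Classical.byContradiction fun z => L296 h z c97 c93 c90 c73 c68 c61 c51 c47 c46 c42 c41 c37 c29 c27 c25 c10 a5 c15 a11 c23
  have c99 : l 15 < r 4 := c98.2.1
  have c100 : r 4 < v 15 := c98.2.2
  have c101 : v 0 < r 4 := not_le.mp fun z => L292 h c98 z c86 a8
  have c102 : l 15 < r 12 := lt_trans c99 c45
  have c103 : r 4 < r 15 := lt_of_lt_of_le c100 c9
  have c104 : l 10 ≤ v 15 := le_of_lt (lt_of_le_of_lt a8 c100)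
  have c105 : v 0 ≤ r 4 := le_of_lt c101
  have c106 : v 0 ≤ r 15 := le_of_lt (lt_of_le_of_lt c105 c103)
  have c107 : S34 l v r := h.e34.resolve_right fun z => not_lt.mpr c104 z.1
  have c108 : S4 l v r := h.e4.resolve_right fun z => not_lt.mpr c106 z.2.2
  have c109 : r 10 < v 15 := c107.2.2
  have c110 : v 0 < l 15 := c108.1
  have c111 : r 12 < v 15 := lt_trans c56 c109
  have c112 : v 12 < l 15 := lt_of_le_of_lt c92 c110
  h.n12_15 c112 c102 c111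

theorem L298 {l v r : ℕ → ℝ} (h : H l v r) (a0 : r 6 < v 1) (a1 : l 1 < l 16) (a2 : v 1 < v 16) (a3 : l 16 ≤ l 15) (a4 : v 1 ≤ v 15) : False :=
  have c0 : l 6 ≤ r 6 := not_lt.mp fun z => L99 h z
  have c1 : l 6 < v 1 := lt_of_le_of_lt c0 a0
  have c2 : l 6 ≤ v 1 := not_lt.mp fun z => L178 h a0 z
  have c3 : r 6 < v 16 := lt_trans a0 a2
  have c4 : l 6 ≤ v 15 := le_of_lt (lt_of_lt_of_le c1 a4)
  have c5 : ¬ S7 l v r := fun z => not_lt.mpr c2 z.1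
  have c6 : S27 l v r := h.e27.resolve_right fun z => not_lt.mpr c4 z.1
  have c7 : v 6 < l 1 := (h.e7.resolve_left c5).1
  have c8 : l 15 < r 6 := c6.2.1
  have c9 : v 6 < l 16 := lt_trans c7 a1
  have c10 : l 16 < r 6 := lt_of_le_of_lt a3 c8
  h.n6_16 c9 c10 c3

theorem L299 {l v r : ℕ → ℝ} (h : H l v r) (a0 : r 1 < v 6) (a1 : r 13 < r 16) (a2 : v 16 < v 17) (a3 : r 16 < r 15) (a4 : l 15 ≤ r 1) (a5 : l 17 ≤ r 1) (a6 : l 13 ≤ r 1) : False :=
  have c0 : l 13 ≤ v 6 := le_of_lt (lt_of_le_of_lt a6 a0)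
  have c1 : l 17 ≤ v 6 := le_of_lt (lt_of_le_of_lt a5 a0)
  have c2 : l 15 ≤ v 6 := le_of_lt (lt_of_le_of_lt a4 a0)
  have c3 : ¬ S26 l v r := fun z => not_lt.mpr c0 z.1
  have c4 : ¬ S28 l v r := fun z => not_lt.mpr c1 z.1
  have c5 : ¬ S27 l v r := fun z => not_lt.mpr c2 z.1
  have c6 : l 6 < r 13 := (h.e26.resolve_left c3).2.1
  have c7 : v 17 < l 6 := (h.e28.resolve_left c4).1
  have c8 : r 15 < v 6 := (h.e27.resolve_left c5).2.2
  have c9 : l 6 < r 16 := lt_trans c6 a1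
  have c10 : v 16 < l 6 := lt_trans a2 c7
  have c11 : r 16 < v 6 := lt_trans a3 c8
  h.n16_6 c10 c9 c11

theorem L300 {l v r : ℕ → ℝ} (h : H l v r) (a0 : v 12 ≤ l 11) (a1 : l 4 < r 5) (a2 : v 1 ≤ r 0) (a3 : v 1 ≤ v 4) (a4 : v 1 < v 13) (a5 : v 1 ≤ r 5) (a6 : v 1 < r 10) (a7 : v 1 ≤ r 10) (a8 : l 11 < v 9) (a9 : v 1 ≤ l 11) (a10 : r 1 < v 11) (a11 : l 9 < v 13) (a12 : r 10 < v 13) (a13 : v 10 < l 13) (a14 : l 1 ≤ r 17) (a15 : v 12 < l 17) (a16 : l 17 < r 12) (a17 : v 5 < l 17) (a18 : r 5 < v 17) (a19 : v 5 ≤ v 9) (a20 : l 4 ≤ v 0) : False :=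
  have c0 : l 5 < v 5 := h.u5_0
  have c1 : v 13 ≤ r 13 := not_lt.mp fun z => L168 h z
  have c2 : l 16 < r 10 := not_le.mp fun z => L189 h z
  have c3 : l 4 ≤ r 15 := not_lt.mp fun z => L204 h z
  have c4 : v 4 ≤ r 4 := not_lt.mp fun z => L13 h z
  have c5 : l 13 ≤ r 12 := not_lt.mp fun z => L88 h z
  have c6 : v 1 < r 1 := h.u1_1
  have c7 : v 1 ≤ r 1 := not_lt.mp fun z => L30 h z
  have c8 : l 11 < r 1 := not_le.mp fun z => L219 h z
  have c9 : l 0 < r 15 := not_le.mp fun z => L205 h z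
  have c10 : r 1 ≤ v 11 := le_of_lt a10
  have c11 : v 1 ≤ r 4 := le_trans a3 c4
  have c12 : S6 l v r := h.e6.resolve_right fun z => not_lt.mpr c11 z.2.2
  have c13 : l 4 < r 1 := c12.2.1
  have c14 : l 4 ≤ v 11 := le_of_lt (lt_of_lt_of_le c13 c10)
  have c15 : v 1 < l 4 := c12.1
  have c16 : v 1 ≤ r 15 := le_of_lt (lt_of_lt_of_le c15 c3)
  have c17 : v 1 ≤ v 11 := not_lt.mp fun z => L149 h a10 z
  have c18 : l 16 < v 13 := lt_trans c2 a12
  have c19 : r 10 ≤ r 13 := le_of_lt (lt_of_lt_of_le a12 c1)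
  have c20 : v 10 < r 12 := lt_of_lt_of_le a13 c5
  have c21 : l 17 ≤ r 12 := le_of_lt a16
  have c22 : l 4 < v 17 := not_le.mp fun z => L191 h z a18
  have c23 : l 4 ≤ v 17 := le_of_lt c22
  have c24 : l 5 < l 17 := lt_trans c0 a17
  have c25 : v 12 ≤ r 1 := le_of_lt (lt_of_le_of_lt a0 c8)
  have c26 : ¬ S10 l v r := fun z => not_lt.mpr c25 z.2.2
  have c27 : r 12 < v 1 := (h.e10.resolve_left c26).2.2
  have c28 : l 13 < v 1 := lt_of_le_of_lt c5 c27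
  have c29 : r 12 < r 1 := lt_trans c27 c6
  have c30 : r 12 ≤ l 11 := le_of_lt (lt_of_lt_of_le c27 a9)
  have c31 : r 12 < r 10 := lt_of_lt_of_le c27 a7
  have c32 : l 17 < v 1 := lt_trans a16 c27
  have c33 : v 10 < v 1 := lt_trans c20 c27
  have c34 : l 13 ≤ r 1 := le_of_lt (lt_of_lt_of_le c28 c7)
  have c35 : l 13 ≤ v 4 := le_of_lt (lt_of_lt_of_le c28 a3)
  have c36 : l 13 ≤ r 5 := le_of_lt (lt_of_lt_of_le c28 a5)
  have c37 : l 13 ≤ r 0 := le_of_lt (lt_of_lt_of_le c28 a2)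
  have c38 : l 17 ≤ r 1 := le_of_lt (lt_of_le_of_lt c21 c29)
  have c39 : v 10 ≤ l 11 := le_of_lt (lt_of_lt_of_le c20 c30)
  have c40 : l 17 < r 10 := lt_trans a16 c31
  have c41 : l 17 ≤ v 11 := le_of_lt (lt_of_lt_of_le c32 c17)
  have c42 : v 10 ≤ r 15 := le_of_lt (lt_of_lt_of_le c33 c16)
  have c43 : ¬ S21 l v r := fun z => not_lt.mpr c35 z.1
  have c44 : ¬ S37 l v r := fun z => not_lt.mpr c41 z.1
  have c45 : S34 l v r := h.e34.resolve_right fun z => not_lt.mpr c42 z.2.2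
  have c46 : v 13 < l 4 := (h.e21.resolve_left c43).1
  have c47 : r 13 < v 4 := (h.e21.resolve_left c43).2.2
  have c48 : v 17 < l 11 := (h.e37.resolve_left c44).1
  have c49 : l 15 < r 10 := c45.2.1
  have c50 : r 10 < v 15 := c45.2.2
  have c51 : v 10 < l 15 := c45.1
  have c52 : r 10 < l 4 := lt_trans a12 c46
  have c53 : l 9 < l 4 := lt_trans a11 c46
  have c54 : v 13 < r 5 := lt_trans c46 a1
  have c55 : v 13 ≤ v 17 := le_of_lt (lt_of_lt_of_le c46 c23)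
  have c56 : l 16 < l 4 := lt_trans c18 c46
  have c57 : r 10 ≤ v 4 := le_of_lt (lt_of_le_of_lt c19 c47)
  have c58 : v 17 < r 1 := lt_trans c48 c8
  have c59 : l 4 < l 11 := lt_trans c22 c48
  have c60 : l 15 ≤ r 10 := le_of_lt c49
  have c61 : v 1 ≤ v 15 := le_of_lt (lt_of_le_of_lt a7 c50)
  have c62 : r 12 < v 15 := lt_trans c31 c50
  have c63 : r 10 < v 17 := lt_trans c52 c22
  have c64 : r 10 < r 1 := lt_trans c52 c13
  have c65 : l 9 ≤ v 0 := le_of_lt (lt_of_lt_of_le c53 a20)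
  have c66 : l 16 < r 5 := lt_trans c18 c54
  have c67 : v 13 < l 11 := lt_of_le_of_lt c55 c48
  have c68 : l 16 ≤ v 11 := le_of_lt (lt_of_lt_of_le c56 c14)
  have c69 : l 15 ≤ v 4 := le_of_lt (lt_of_lt_of_le c49 c57)
  have c70 : r 5 < r 1 := lt_trans a18 c58
  have c71 : l 15 ≤ r 1 := le_of_lt (lt_of_le_of_lt c60 c64)
  have c72 : l 17 ≤ v 10 := not_lt.mp fun z => h.n10_17 z c40 c63
  have c73 : ¬ S2 l v r := fun z => not_lt.mpr c65 z.1
  have c74 : ¬ S36 l v r := fun z => not_lt.mpr c68 z.1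
  have c75 : ¬ S22 l v r := fun z => not_lt.mpr c69 z.1
  have c76 : v 5 ≤ v 10 := le_of_lt (lt_of_lt_of_le a17 c72)
  have c77 : l 5 < v 10 := lt_of_lt_of_le c24 c72
  have c78 : v 12 < v 10 := lt_of_lt_of_le a15 c72
  have c79 : v 9 < l 0 := (h.e2.resolve_left c73).1
  have c80 : r 16 < v 11 := (h.e36.resolve_left c74).2.2
  have c81 : l 11 < r 16 := (h.e36.resolve_left c74).2.1
  have c82 : v 15 < l 4 := (h.e22.resolve_left c75).1
  have c83 : l 5 < l 13 := lt_trans c77 a13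
  have c84 : v 12 < l 15 := lt_trans c78 c51
  have c85 : v 9 < r 15 := lt_trans c79 c9
  have c86 : v 5 ≤ l 0 := le_of_lt (lt_of_le_of_lt a19 c79)
  have c87 : v 12 ≤ r 16 := le_of_lt (lt_of_le_of_lt a0 c81)
  have c88 : v 10 ≤ r 16 := le_of_lt (lt_of_le_of_lt c39 c81)
  have c89 : v 15 < l 11 := lt_trans c82 c59
  have c90 : r 12 ≤ l 15 := not_lt.mp fun z => h.n12_15 c84 z c62
  have c91 : l 11 < r 15 := lt_trans a8 c85
  have c92 : l 13 ≤ v 7 := not_lt.mp fun z => L289 h z c86 c37 c36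
  have c93 : S39 l v r := h.e39.resolve_right fun z => not_lt.mpr c87 z.2.2
  have c94 : S35 l v r := h.e35.resolve_right fun z => not_lt.mpr c88 z.2.2
  have c95 : v 11 ≤ r 15 := not_lt.mp fun z => h.n15_11 c89 c91 z
  have c96 : ¬ S29 l v r := fun z => not_lt.mpr c92 z.1
  have c97 : l 5 ≤ v 7 := le_of_lt (lt_of_lt_of_le c83 c92)
  have c98 : l 16 < r 12 := c93.2.1
  have c99 : v 10 < l 16 := c94.1
  have c100 : r 10 < v 16 := c94.2.2
  have c101 : r 16 < r 15 := lt_of_lt_of_le c80 c95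
  have c102 : v 13 < l 7 := (h.e29.resolve_left c96).1
  have c103 : r 13 < v 7 := (h.e29.resolve_left c96).2.2
  have c104 : S23 l v r := h.e23.resolve_right fun z => not_lt.mpr c97 z.1
  have c105 : l 16 ≤ l 15 := le_of_lt (lt_of_lt_of_le c98 c90)
  have c106 : v 5 < l 16 := lt_of_le_of_lt c76 c99
  have c107 : l 17 ≤ l 16 := le_of_lt (lt_of_le_of_lt c72 c99)
  have c108 : v 1 < v 16 := lt_trans a6 c100
  have c109 : v 1 < l 7 := lt_trans a4 c102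
  have c110 : r 13 ≤ v 7 := le_of_lt c103
  have c111 : l 7 < r 5 := c104.2.1
  have c112 : v 16 ≤ r 5 := not_lt.mp fun z => h.n5_16 c106 c66 z
  have c113 : l 7 < r 1 := lt_trans c111 c70
  have c114 : v 16 < v 17 := lt_of_le_of_lt c112 a18
  have c115 : v 7 ≤ r 1 := not_lt.mp fun z => h.n1_7 c109 c113 z
  have c116 : r 13 ≤ r 1 := le_trans c110 c115
  have c117 : r 13 < v 11 := lt_of_le_of_lt c116 a10
  have c118 : r 13 ≤ l 11 := not_lt.mp fun z => h.n13_11 c67 z c117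
  have c119 : r 13 < r 16 := lt_of_le_of_lt c118 c81
  have c120 : v 6 ≤ r 1 := not_lt.mp fun z => L299 h z c119 c114 c101 c71 c38 c34
  have c121 : ¬ S7 l v r := fun z => not_lt.mpr c120 z.2.2
  have c122 : r 6 < v 1 := (h.e7.resolve_left c121).2.2
  have c123 : v 6 < l 1 := (h.e7.resolve_left c121).1
  have c124 : l 1 < r 6 := (h.e7.resolve_left c121).2.1
  have c125 : r 6 < v 16 := lt_trans c122 c108
  have c126 : l 16 ≤ l 1 := not_lt.mp fun z => L298 h c122 z c108 c105 c61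
  have c127 : v 6 ≤ r 17 := le_of_lt (lt_of_lt_of_le c123 a14)
  have c128 : l 16 < r 6 := lt_of_le_of_lt c126 c124
  have c129 : S28 l v r := h.e28.resolve_right fun z => not_lt.mpr c127 z.2.2
  have c130 : l 16 ≤ v 6 := not_lt.mp fun z => h.n6_16 z c128 c125
  have c131 : v 6 < l 17 := c129.1
  not_lt.mpr (le_trans c107 c130) c131

theorem L301 {l v r : ℕ → ℝ} (h : H l v r) (a0 : ¬ S35 l v r) (a1 : l 4 < r 16) (a2 : l 10 < l 4) (a3 : v 10 ≤ v 4) : False :=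
  have c0 : r 16 < v 10 := (h.e35.resolve_left a0).2.2
  have c1 : v 16 < l 10 := (h.e35.resolve_left a0).1
  have c2 : r 16 < v 4 := lt_of_lt_of_le c0 a3
  have c3 : v 16 < l 4 := lt_trans c1 a2
  h.n16_4 c3 a1 c2

theorem L302 {l v r : ℕ → ℝ} (h : H l v r) (a0 : S35 l v r) (a1 : v 1 ≤ v 10) (a2 : r 11 ≤ r 6) (a3 : r 6 < r 10) (a4 : v 6 < r 5) (a5 : r 5 < r 10) (a6 : r 1 < r 10) (a7 : l 11 ≤ r 10) (a8 : v 5 < r 1) : False :=
  have c0 : v 10 < l 16 := a0.1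
  have c1 : r 10 < v 16 := a0.2.2
  have c2 : v 1 < l 16 := lt_of_le_of_lt a1 c0
  have c3 : r 5 < v 16 := lt_trans a5 c1
  have c4 : l 11 ≤ v 16 := le_of_lt (lt_of_le_of_lt a7 c1)
  have c5 : r 1 < v 16 := lt_trans a6 c1
  have c6 : r 6 < v 16 := lt_trans a3 c1
  have c7 : S36 l v r := h.e36.resolve_right fun z => not_lt.mpr c4 z.1
  have c8 : r 1 ≤ l 16 := not_lt.mp fun z => h.n1_16 c2 z c5
  have c9 : l 16 < r 11 := c7.2.1
  have c10 : l 16 < r 6 := lt_of_lt_of_le c9 a2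
  have c11 : v 5 < l 16 := lt_of_lt_of_le a8 c8
  have c12 : l 16 ≤ v 6 := not_lt.mp fun z => h.n6_16 z c10 c6
  have c13 : r 5 ≤ l 16 := not_lt.mp fun z => h.n5_16 c11 z c3
  not_lt.mpr (le_trans c13 c12) a4

theorem L303 {l v r : ℕ → ℝ} (h : H l v r) (a0 : S8 l v r) (a1 : v 8 < l 0) (a2 : r 10 < v 9) : False :=
  have c0 : l 10 ≤ v 10 := not_lt.mp fun z => L50 h z
  have c1 : l 0 ≤ v 0 := not_lt.mp fun z => L64 h z
  have c2 : l 8 < v 8 := h.u8_0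
  have c3 : l 4 ≤ r 8 := not_lt.mp fun z => L199 h z
  have c4 : l 4 < r 8 := not_le.mp fun z => L198 h z
  have c5 : v 0 ≤ r 0 := not_lt.mp fun z => L141 h z
  have c6 : v 5 ≤ r 5 := not_lt.mp fun z => L36 h z
  have c7 : v 12 ≤ r 12 := not_lt.mp fun z => L93 h z
  have c8 : r 12 ≤ v 13 := not_lt.mp fun z => L159 h z
  have c9 : v 17 ≤ r 17 := not_lt.mp fun z => L157 h z
  have c10 : l 13 < r 4 := not_le.mp fun z => L207 h z
  have c11 : v 12 ≤ l 13 := not_lt.mp fun z => L143 h z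
  have c12 : l 5 ≤ v 5 := not_lt.mp fun z => L135 h z
  have c13 : l 10 ≤ r 10 := not_lt.mp fun z => L52 h z
  have c14 : l 10 < v 10 := h.u10_0
  have c15 : l 13 ≤ r 4 := not_lt.mp fun z => L208 h z
  have c16 : v 11 ≤ r 11 := not_lt.mp fun z => L104 h z
  have c17 : l 1 ≤ v 1 := not_lt.mp fun z => L161 h z
  have c18 : v 9 < r 9 := h.u9_1
  have c19 : l 11 < r 1 := not_le.mp fun z => L219 h z
  have c20 : l 11 ≤ r 1 := not_lt.mp fun z => L220 h z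
  have c21 : v 4 ≤ r 4 := not_lt.mp fun z => L13 h z
  have c22 : l 0 ≤ r 11 := not_lt.mp fun z => L272 h z
  have c23 : v 12 ≤ v 13 := not_lt.mp fun z => L84 h z
  have c24 : v 1 < r 1 := h.u1_1
  have c25 : v 1 ≤ r 11 := not_lt.mp fun z => L288 h z a1 a2
  have c26 : S9 l v r := h.e9.resolve_right fun z => not_lt.mpr c25 z.2.2
  have c27 : v 1 < l 11 := c26.1
  have c28 : v 1 ≤ l 11 := le_of_lt c27
  have c29 : l 1 ≤ l 11 := le_of_lt (lt_of_le_of_lt c17 c27)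
  have c30 : r 1 < v 11 := c26.2.2
  have c31 : v 1 ≤ v 11 := not_lt.mp fun z => L149 h c30 z
  have c32 : r 1 ≤ r 11 := le_of_lt (lt_of_lt_of_le c30 c16)
  have c33 : r 1 ≤ v 11 := le_of_lt c30
  have c34 : l 10 ≤ v 9 := le_of_lt (lt_of_le_of_lt c13 a2)
  have c35 : ¬ S31 l v r := fun z => not_lt.mpr c34 z.1
  have c36 : v 10 < l 9 := (h.e31.resolve_left c35).1
  have c37 : l 10 ≤ l 9 := not_lt.mp fun z => L54 h c36 z
  have c38 : S24 l v r := Classical.byContradiction fun z => L249 h z a1 a2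
  have c39 : l 9 < r 5 := c38.2.1
  have c40 : l 10 ≤ r 5 := le_of_lt (lt_of_le_of_lt c37 c39)
  have c41 : l 5 ≤ v 17 := not_lt.mp fun z => L279 h z a1 a2
  have c42 : S25 l v r := h.e25.resolve_right fun z => not_lt.mpr c41 z.1
  have c43 : v 5 < l 17 := c42.1
  have c44 : l 5 ≤ l 17 := le_of_lt (lt_of_le_of_lt c12 c43)
  have c45 : S40 l v r := Classical.byContradiction fun z => L287 h z c41 c40
  have c46 : l 17 < r 12 := c45.2.1
  have c47 : l 5 ≤ r 12 := le_of_lt (lt_of_le_of_lt c44 c46)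
  have c48 : S33 l v r := Classical.byContradiction fun z => L267 h z c47 c40
  have c49 : v 10 < l 13 := c48.1
  have c50 : l 10 < l 13 := lt_trans c14 c49
  have c51 : l 10 ≤ r 4 := le_of_lt (lt_of_lt_of_le c50 c15)
  have c52 : l 9 < r 10 := (h.e31.resolve_left c35).2.1
  have c53 : r 10 < v 13 := c48.2.2
  have c54 : l 9 < v 13 := lt_trans c52 c53
  have c55 : r 10 ≤ v 13 := le_of_lt c53
  have c56 : l 13 < r 10 := c48.2.1
  have c57 : v 12 ≤ r 10 := le_of_lt (lt_of_le_of_lt c11 c56)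
  have c58 : v 12 < r 10 := lt_of_le_of_lt c11 c56
  have c59 : v 10 < r 4 := lt_trans c49 c10
  have c60 : l 17 < r 5 := c42.2.1
  have c61 : l 17 ≤ r 5 := le_of_lt c60
  have c62 : v 12 < l 17 := c45.1
  have c63 : l 12 < l 17 := not_le.mp fun z => L1 h c62 z
  have c64 : l 12 ≤ r 5 := le_of_lt (lt_of_lt_of_le c63 c61)
  have c65 : r 12 < v 17 := c45.2.2
  have c66 : l 1 ≤ v 17 := not_lt.mp fun z => L187 h c65 z
  have c67 : l 1 ≤ r 17 := le_trans c66 c9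
  have c68 : l 17 ≤ v 13 := le_of_lt (lt_of_lt_of_le c46 c8)
  have c69 : v 12 ≤ v 17 := le_of_lt (lt_of_le_of_lt c7 c65)
  have c70 : r 5 < v 17 := c42.2.2
  have c71 : l 9 < v 17 := lt_trans c39 c70
  have c72 : v 5 < l 9 := c38.1
  have c73 : l 5 ≤ l 9 := not_lt.mp fun z => L174 h c72 z
  have c74 : l 9 ≤ r 10 := le_of_lt c52
  have c75 : v 5 ≤ r 10 := le_of_lt (lt_of_lt_of_le c72 c74)
  have c76 : l 9 ≤ r 5 := le_of_lt c39
  have c77 : r 5 < v 9 := c38.2.2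
  have c78 : v 5 ≤ v 9 := le_of_lt (lt_of_le_of_lt c6 c77)
  have c79 : v 8 ≤ r 0 := not_lt.mp fun z => L35 h z a1
  have c80 : ¬ S1 l v r := fun z => not_lt.mpr c79 z.2.2
  have c81 : r 8 < v 0 := (h.e1.resolve_left c80).2.2
  have c82 : l 4 < v 0 := lt_trans c4 c81
  have c83 : l 4 ≤ r 0 := le_of_lt (lt_of_lt_of_le c82 c5)
  have c84 : l 4 ≤ v 0 := le_of_lt (lt_of_le_of_lt c3 c81)
  have c85 : r 8 ≤ v 0 := le_of_lt c81
  have c86 : v 8 < v 0 := lt_of_lt_of_le a1 c1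
  have c87 : l 8 < v 0 := lt_trans c2 c86
  have c88 : l 10 < l 9 := lt_of_le_of_lt c0 c36
  have c89 : v 10 ≤ l 9 := le_of_lt c36
  have c90 : r 10 < r 9 := lt_trans a2 c18
  have c91 : r 1 < v 9 := a0.2.2
  have c92 : v 1 < l 9 := a0.1
  have c93 : l 9 < r 1 := a0.2.1
  have c94 : r 1 < r 9 := lt_trans c91 c18
  have c95 : l 11 < v 9 := lt_trans c19 c91
  have c96 : v 1 ≤ r 10 := le_of_lt (lt_of_lt_of_le c92 c74)
  have c97 : v 1 < r 10 := lt_of_lt_of_le c92 c74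
  have c98 : v 1 ≤ r 5 := le_of_lt (lt_of_lt_of_le c92 c76)
  have c99 : v 1 < v 13 := lt_trans c92 c54
  have c100 : l 10 < r 1 := lt_trans c88 c93
  have c101 : v 10 < r 1 := lt_trans c36 c93
  have c102 : l 9 ≤ r 1 := le_of_lt c93
  have c103 : v 10 ≤ r 1 := le_of_lt (lt_of_le_of_lt c89 c93)
  have c104 : v 5 < r 1 := lt_trans c72 c93
  have c105 : l 5 ≤ r 1 := le_of_lt (lt_of_le_of_lt c73 c93)
  have c106 : l 9 ≤ r 11 := le_of_lt (lt_of_lt_of_le c93 c32)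
  have c107 : l 11 ≤ r 9 := le_of_lt (lt_of_le_of_lt c20 c94)
  have c108 : l 10 ≤ r 11 := le_of_lt (lt_of_lt_of_le c100 c32)
  have c109 : v 10 < v 11 := lt_trans c101 c30
  have c110 : v 5 ≤ v 11 := le_of_lt (lt_of_lt_of_le c104 c33)
  have c111 : v 1 ≤ v 4 := not_lt.mp fun z => L297 h z c110 c107 c98 c96 c92 c31 c27 c51 c55 c59 c66 c46 c71 c43 c70 c75 a1 c90
  have c112 : v 1 ≤ r 4 := le_trans c111 c21
  have c113 : S6 l v r := h.e6.resolve_right fun z => not_lt.mpr c112 z.2.2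
  have c114 : v 1 < l 4 := c113.1
  have c115 : l 4 < r 1 := c113.2.1
  have c116 : r 1 < v 4 := c113.2.2
  have c117 : v 1 ≤ r 0 := le_of_lt (lt_of_lt_of_le c114 c83)
  have c118 : l 4 < v 11 := lt_trans c115 c30
  have c119 : v 10 ≤ v 4 := le_of_lt (lt_of_le_of_lt c103 c116)
  have c120 : l 5 ≤ v 4 := le_of_lt (lt_of_le_of_lt c105 c116)
  have c121 : ¬ S19 l v r := fun z => not_lt.mpr c120 z.1
  have c122 : l 4 < r 5 := (h.e19.resolve_left c121).2.1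
  have c123 : r 5 < v 4 := (h.e19.resolve_left c121).2.2
  have c124 : v 5 < l 4 := (h.e19.resolve_left c121).1
  have c125 : l 17 < v 4 := lt_trans c60 c123
  have c126 : l 17 ≤ v 4 := le_of_lt (lt_of_le_of_lt c61 c123)
  have c127 : l 11 < v 12 := not_le.mp fun z => L300 h z c122 c117 c111 c99 c98 c97 c96 c95 c28 c30 c54 c53 c49 c67 c62 c46 c43 c70 c78 c84
  have c128 : l 11 ≤ r 10 := le_of_lt (lt_of_lt_of_le c127 c57)
  have c129 : l 11 ≤ v 17 := le_of_lt (lt_of_lt_of_le c127 c69)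
  have c130 : l 1 ≤ v 12 := le_of_lt (lt_of_le_of_lt c29 c127)
  have c131 : S37 l v r := h.e37.resolve_right fun z => not_lt.mpr c129 z.1
  have c132 : S10 l v r := h.e10.resolve_right fun z => not_lt.mpr c130 z.1
  have c133 : v 11 < l 17 := c131.1
  have c134 : r 11 < v 17 := c131.2.2
  have c135 : r 1 < v 12 := c132.2.2
  have c136 : v 1 < l 12 := c132.1
  have c137 : v 11 ≤ v 13 := le_of_lt (lt_of_lt_of_le c133 c68)
  have c138 : v 10 < l 17 := lt_trans c109 c133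
  have c139 : v 11 ≤ v 4 := le_of_lt (lt_of_lt_of_le c133 c126)
  have c140 : l 0 ≤ v 17 := le_of_lt (lt_of_le_of_lt c22 c134)
  have c141 : r 1 ≤ v 17 := le_of_lt (lt_of_le_of_lt c32 c134)
  have c142 : r 1 ≤ v 13 := le_of_lt (lt_of_lt_of_le c135 c23)
  have c143 : r 1 ≤ l 13 := not_lt.mp fun z => L154 h z c135
  have c144 : r 1 < r 10 := lt_trans c135 c58
  have c145 : v 1 ≤ l 12 := le_of_lt c136
  have c146 : l 4 ≤ v 13 := le_of_lt (lt_of_lt_of_le c118 c137)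
  have c147 : r 1 ≤ r 6 := not_lt.mp fun z => L231 h z c142 c143
  have c148 : S21 l v r := h.e21.resolve_right fun z => not_lt.mpr c146 z.1
  have c149 : v 1 ≤ r 6 := le_of_lt (lt_of_lt_of_le c24 c147)
  have c150 : v 4 < l 13 := c148.1
  have c151 : S7 l v r := h.e7.resolve_right fun z => not_lt.mpr c149 z.2.2
  have c152 : v 4 < r 10 := lt_trans c150 c56
  have c153 : v 11 < l 13 := lt_of_le_of_lt c139 c150
  have c154 : l 6 < r 1 := c151.2.1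
  have c155 : r 5 < r 10 := lt_trans c123 c152
  have c156 : l 17 < r 10 := lt_trans c125 c152
  have c157 : l 6 ≤ v 17 := le_of_lt (lt_of_lt_of_le c154 c141)
  have c158 : l 6 ≤ v 13 := le_of_lt (lt_of_lt_of_le c154 c142)
  have c159 : v 17 ≤ r 10 := not_lt.mp fun z => h.n10_17 c138 c156 z
  have c160 : S28 l v r := h.e28.resolve_right fun z => not_lt.mpr c157 z.1
  have c161 : S26 l v r := h.e26.resolve_right fun z => not_lt.mpr c158 z.1
  have c162 : v 17 < v 9 := lt_of_le_of_lt c159 a2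
  have c163 : r 12 < r 10 := lt_of_lt_of_le c65 c159
  have c164 : v 17 < v 13 := lt_of_le_of_lt c159 c53
  have c165 : v 6 < l 17 := c160.1
  have c166 : r 6 < v 17 := c160.2.2
  have c167 : l 13 < r 6 := c161.2.1
  have c168 : l 0 ≤ v 9 := le_of_lt (lt_of_le_of_lt c140 c162)
  have c169 : r 11 < v 13 := lt_trans c134 c164
  have c170 : v 6 < r 5 := lt_of_lt_of_le c165 c61
  have c171 : r 6 < r 10 := lt_of_lt_of_le c166 c159
  have c172 : l 13 ≤ r 6 := le_of_lt c167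
  have c173 : S2 l v r := h.e2.resolve_right fun z => not_lt.mpr c168 z.1
  have c174 : r 11 ≤ l 13 := not_lt.mp fun z => h.n11_13 c153 z c169
  have c175 : r 11 ≤ r 6 := le_trans c174 c172
  have c176 : v 0 < l 9 := c173.1
  have c177 : r 8 < l 9 := lt_of_le_of_lt c85 c176
  have c178 : l 8 < l 9 := lt_trans c87 c176
  have c179 : v 0 ≤ r 11 := le_of_lt (lt_of_lt_of_le c176 c106)
  have c180 : r 8 ≤ r 1 := le_of_lt (lt_of_lt_of_le c177 c102)
  have c181 : l 8 ≤ r 1 := le_of_lt (lt_of_lt_of_le c178 c102)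
  have c182 : S3 l v r := h.e3.resolve_right fun z => not_lt.mpr c179 z.2.2
  have c183 : v 3 ≤ r 12 := not_lt.mp fun z => L251 h c135 c181 c180 z
  have c184 : v 0 < l 11 := c182.1
  have c185 : S17 l v r := h.e17.resolve_right fun z => not_lt.mpr c183 z.2.2
  have c186 : v 3 ≤ r 10 := le_of_lt (lt_of_le_of_lt c183 c163)
  have c187 : l 4 ≤ l 11 := le_of_lt (lt_of_le_of_lt c84 c184)
  have c188 : l 12 < r 3 := c185.2.1
  have c189 : v 3 < l 12 := c185.1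
  have c190 : S16 l v r := h.e16.resolve_right fun z => not_lt.mpr c186 z.2.2
  have c191 : v 1 ≤ r 3 := le_of_lt (lt_of_le_of_lt c145 c188)
  have c192 : v 3 ≤ r 5 := le_of_lt (lt_of_lt_of_le c189 c64)
  have c193 : l 10 < r 3 := c190.2.1
  have c194 : r 3 < v 10 := c190.2.2
  have c195 : S14 l v r := h.e14.resolve_right fun z => not_lt.mpr c192 z.2.2
  have c196 : l 10 ≤ r 3 := le_of_lt c193
  have c197 : v 1 ≤ v 10 := le_of_lt (lt_of_le_of_lt c191 c194)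
  have c198 : r 3 < v 5 := c195.2.2
  have c199 : l 10 < v 5 := lt_of_le_of_lt c196 c198
  have c200 : l 10 < l 4 := lt_trans c199 c124
  have c201 : ¬ S35 l v r := fun z => L302 h z c197 c175 c171 c170 c155 c144 c128 c104
  have c202 : v 16 < l 10 := (h.e35.resolve_left c201).1
  have c203 : r 16 ≤ l 4 := not_lt.mp fun z => L301 h c201 z c200 c119
  have c204 : v 16 ≤ r 11 := le_of_lt (lt_of_lt_of_le c202 c108)
  have c205 : r 16 ≤ l 11 := le_trans c203 c187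
  have c206 : ¬ S36 l v r := fun z => not_lt.mpr c204 z.2.2
  not_lt.mpr c205 (h.e36.resolve_left c206).2.1

theorem L304 {l v r : ℕ → ℝ} (h : H l v r) (a0 : l 0 ≤ v 9) (a1 : v 9 < v 11) (a2 : v 9 ≤ l 11) : False :=
  have c0 : S2 l v r := h.e2.resolve_right fun z => not_lt.mpr a0 z.1
  have c1 : l 0 ≤ v 11 := le_of_lt (lt_of_le_of_lt a0 a1)
  have c2 : r 0 < v 9 := c0.2.2
  have c3 : S3 l v r := h.e3.resolve_right fun z => not_lt.mpr c1 z.1
  have c4 : r 0 ≤ l 11 := le_of_lt (lt_of_lt_of_le c2 a2)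
  not_lt.mpr c4 c3.2.1

theorem L305 {l v r : ℕ → ℝ} (h : H l v r) (a0 : v 8 < l 0) (a1 : r 10 < v 9) : False :=
  have c0 : l 10 ≤ r 10 := not_lt.mp fun z => L52 h z
  have c1 : l 5 ≤ v 5 := not_lt.mp fun z => L135 h z
  have c2 : r 12 ≤ r 13 := not_lt.mp fun z => L167 h z
  have c3 : l 1 ≤ r 1 := not_lt.mp fun z => L162 h z
  have c4 : l 1 ≤ v 1 := not_lt.mp fun z => L161 h z
  have c5 : v 9 ≤ r 9 := not_lt.mp fun z => L48 h z
  have c6 : r 12 ≤ v 13 := not_lt.mp fun z => L159 h z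
  have c7 : l 13 < r 4 := not_le.mp fun z => L207 h z
  have c8 : v 5 ≤ r 5 := not_lt.mp fun z => L36 h z
  have c9 : l 10 ≤ v 9 := le_of_lt (lt_of_le_of_lt c0 a1)
  have c10 : ¬ S31 l v r := fun z => not_lt.mpr c9 z.1
  have c11 : v 10 < l 9 := (h.e31.resolve_left c10).1
  have c12 : l 10 ≤ l 9 := not_lt.mp fun z => L54 h c11 z
  have c13 : v 10 ≤ l 9 := le_of_lt c11
  have c14 : l 9 < r 10 := (h.e31.resolve_left c10).2.1
  have c15 : l 9 ≤ r 10 := le_of_lt c14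
  have c16 : r 10 ≤ v 9 := le_of_lt a1
  have c17 : r 10 ≤ r 9 := le_of_lt (lt_of_lt_of_le a1 c5)
  have c18 : v 8 ≤ r 0 := not_lt.mp fun z => L35 h z a0
  have c19 : ¬ S1 l v r := fun z => not_lt.mpr c18 z.2.2
  have c20 : l 0 < r 8 := (h.e1.resolve_left c19).2.1
  have c21 : l 8 < v 9 := not_le.mp fun z => L239 h z a0 a1
  have c22 : l 8 ≤ v 9 := le_of_lt c21
  have c23 : S24 l v r := Classical.byContradiction fun z => L249 h z a0 a1
  have c24 : r 5 < v 9 := c23.2.2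
  have c25 : l 9 < r 5 := c23.2.1
  have c26 : v 5 ≤ v 9 := le_of_lt (lt_of_le_of_lt c8 c24)
  have c27 : r 5 ≤ v 9 := le_of_lt c24
  have c28 : r 5 ≤ r 9 := not_lt.mp fun z => L78 h z c24
  have c29 : l 10 ≤ r 5 := le_of_lt (lt_of_le_of_lt c12 c25)
  have c30 : v 10 < r 5 := lt_of_le_of_lt c13 c25
  have c31 : l 9 ≤ r 5 := le_of_lt c25
  have c32 : l 5 ≤ v 17 := not_lt.mp fun z => L279 h z a0 a1
  have c33 : S25 l v r := h.e25.resolve_right fun z => not_lt.mpr c32 z.1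
  have c34 : l 17 < r 5 := c33.2.1
  have c35 : v 5 < l 17 := c33.1
  have c36 : l 17 ≤ r 9 := le_of_lt (lt_of_lt_of_le c34 c28)
  have c37 : l 5 ≤ l 17 := le_of_lt (lt_of_le_of_lt c1 c35)
  have c38 : S40 l v r := Classical.byContradiction fun z => L287 h z c32 c29
  have c39 : l 17 < r 12 := c38.2.1
  have c40 : v 12 < l 17 := c38.1
  have c41 : l 17 < r 13 := lt_of_lt_of_le c39 c2
  have c42 : l 5 ≤ r 12 := le_of_lt (lt_of_le_of_lt c37 c39)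
  have c43 : l 12 < l 17 := not_le.mp fun z => L1 h c40 z
  have c44 : l 5 ≤ r 13 := le_of_lt (lt_of_le_of_lt c37 c41)
  have c45 : S33 l v r := Classical.byContradiction fun z => L267 h z c42 c29
  have c46 : l 12 ≤ r 9 := le_of_lt (lt_of_lt_of_le c43 c36)
  have c47 : l 13 < r 10 := c45.2.1
  have c48 : l 13 ≤ r 10 := le_of_lt c47
  have c49 : l 13 < v 9 := lt_trans c47 a1
  have c50 : l 13 ≤ v 9 := le_of_lt (lt_of_lt_of_le c47 c16)
  have c51 : v 1 ≤ r 11 := not_lt.mp fun z => L288 h z a0 a1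
  have c52 : S9 l v r := h.e9.resolve_right fun z => not_lt.mpr c51 z.2.2
  have c53 : r 1 < v 11 := c52.2.2
  have c54 : v 1 < l 11 := c52.1
  have c55 : l 1 ≤ v 11 := le_of_lt (lt_of_le_of_lt c3 c53)
  have c56 : l 1 ≤ l 11 := le_of_lt (lt_of_le_of_lt c4 c54)
  have c57 : ¬ S8 l v r := fun z => L303 h z a0 a1
  have c58 : r 9 < v 1 := (h.e8.resolve_left c57).2.2
  have c59 : v 9 < l 1 := (h.e8.resolve_left c57).1
  have c60 : r 10 < v 1 := lt_of_le_of_lt c17 c58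
  have c61 : v 9 ≤ v 1 := le_of_lt (lt_of_le_of_lt c5 c58)
  have c62 : l 12 ≤ v 1 := le_of_lt (lt_of_le_of_lt c46 c58)
  have c63 : v 9 ≤ l 1 := le_of_lt c59
  have c64 : l 8 ≤ l 1 := le_of_lt (lt_of_le_of_lt c22 c59)
  have c65 : r 5 ≤ l 1 := le_of_lt (lt_of_le_of_lt c27 c59)
  have c66 : v 9 ≤ l 11 := le_of_lt (lt_of_lt_of_le c59 c56)
  have c67 : v 9 < v 11 := lt_of_lt_of_le c59 c55
  have c68 : ¬ S10 l v r := fun z => not_lt.mpr c62 z.1
  have c69 : l 1 < r 12 := (h.e10.resolve_left c68).2.1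
  have c70 : l 1 < v 13 := lt_of_lt_of_le c69 c6
  have c71 : v 9 ≤ v 13 := le_of_lt (lt_of_le_of_lt c63 c70)
  have c72 : r 5 ≤ v 13 := le_of_lt (lt_of_le_of_lt c65 c70)
  have c73 : l 8 ≤ v 13 := le_of_lt (lt_of_le_of_lt c64 c70)
  have c74 : S29 l v r := Classical.byContradiction fun z => L290 h z c72 c44
  have c75 : v 7 < l 13 := c74.1
  have c76 : v 9 < l 0 := not_le.mp fun z => L304 h z c67 c66
  have c77 : v 9 ≤ r 0 := not_lt.mp fun z => L43 h z c76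
  have c78 : v 5 ≤ l 0 := le_of_lt (lt_of_le_of_lt c26 c76)
  have c79 : l 13 ≤ r 0 := le_of_lt (lt_of_lt_of_le c49 c77)
  have c80 : r 5 < l 13 := not_le.mp fun z => L289 h c75 c78 c79 z
  have c81 : r 5 < r 4 := lt_trans c80 c7
  have c82 : l 9 ≤ l 13 := le_of_lt (lt_of_le_of_lt c31 c80)
  have c83 : r 5 < r 10 := lt_trans c80 c47
  have c84 : r 5 ≤ r 10 := le_of_lt (lt_of_lt_of_le c80 c48)
  have c85 : v 5 ≤ r 4 := le_of_lt (lt_of_le_of_lt c8 c81)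
  have c86 : l 9 ≤ r 4 := le_of_lt (lt_of_le_of_lt c31 c81)
  have c87 : ¬ S19 l v r := fun z => not_lt.mpr c85 z.2.2
  have c88 : l 4 < v 9 := not_le.mp fun z => L238 h c23 z c86
  have c89 : l 4 < r 5 := (h.e19.resolve_left c87).2.1
  have c90 : r 5 < v 4 := (h.e19.resolve_left c87).2.2
  have c91 : l 4 ≤ v 1 := le_of_lt (lt_of_lt_of_le c88 c61)
  have c92 : l 4 ≤ v 13 := le_of_lt (lt_of_lt_of_le c88 c71)
  have c93 : l 4 < r 10 := lt_trans c89 c83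
  have c94 : l 4 ≤ r 10 := le_of_lt (lt_of_lt_of_le c89 c84)
  have c95 : v 5 < v 4 := lt_of_le_of_lt c8 c90
  have c96 : v 10 < v 4 := lt_trans c30 c90
  have c97 : ¬ S6 l v r := fun z => not_lt.mpr c91 z.1
  have c98 : S21 l v r := h.e21.resolve_right fun z => not_lt.mpr c92 z.1
  have c99 : v 9 < r 4 := not_le.mp fun z => L197 h c60 c94 z c15
  have c100 : r 4 < v 1 := (h.e6.resolve_left c97).2.2
  have c101 : v 4 < l 13 := c98.1
  have c102 : r 10 ≤ r 4 := le_of_lt (lt_of_le_of_lt c16 c99)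
  have c103 : v 4 ≤ v 9 := le_of_lt (lt_of_lt_of_le c101 c50)
  have c104 : v 4 < l 10 := not_le.mp fun z => L280 h c76 c93 c82 c103 c73 c102 c100 z c96 c95 c20 a1
  not_lt.mpr c29 (lt_trans c90 c104)

theorem L306 {l v r : ℕ → ℝ} (h : H l v r) (a0 : v 9 < l 1) (a1 : r 12 ≤ v 4) (a2 : r 12 ≤ l 4) (a3 : l 9 ≤ r 4) (a4 : l 12 ≤ v 9) (a5 : l 4 ≤ r 3) (a6 : l 3 ≤ r 9) : False :=
  have c0 : l 1 ≤ v 1 := not_lt.mp fun z => L161 h z
  have c1 : l 1 ≤ r 1 := not_lt.mp fun z => L162 h z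
  have c2 : v 9 < v 1 := lt_of_lt_of_le a0 c0
  have c3 : v 9 ≤ r 1 := le_of_lt (lt_of_lt_of_le a0 c1)
  have c4 : l 12 ≤ v 1 := le_of_lt (lt_of_le_of_lt a4 c2)
  have c5 : ¬ S8 l v r := fun z => not_lt.mpr c3 z.2.2
  have c6 : ¬ S10 l v r := fun z => not_lt.mpr c4 z.1
  have c7 : r 9 < v 1 := (h.e8.resolve_left c5).2.2
  have c8 : l 1 < r 12 := (h.e10.resolve_left c6).2.1
  have c9 : r 9 ≤ v 1 := le_of_lt c7
  have c10 : v 9 < r 12 := lt_trans a0 c8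
  have c11 : l 1 ≤ v 4 := le_of_lt (lt_of_lt_of_le c8 a1)
  have c12 : v 9 ≤ l 4 := le_of_lt (lt_of_lt_of_le c10 a2)
  have c13 : S6 l v r := h.e6.resolve_right fun z => not_lt.mpr c11 z.1
  have c14 : ¬ S24 l v r := fun z => L238 h z c12 a3
  have c15 : v 1 < l 4 := c13.1
  have c16 : l 5 < r 9 := (h.e24.resolve_left c14).2.1
  have c17 : r 9 < v 5 := (h.e24.resolve_left c14).2.2
  have c18 : v 1 < v 4 := not_le.mp fun z => L57 h c15 z
  have c19 : l 5 ≤ v 1 := le_of_lt (lt_of_lt_of_le c16 c9)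
  have c20 : l 3 ≤ v 5 := le_of_lt (lt_of_le_of_lt a6 c17)
  have c21 : l 5 ≤ v 4 := le_of_lt (lt_of_le_of_lt c19 c18)
  have c22 : S14 l v r := h.e14.resolve_right fun z => not_lt.mpr c20 z.1
  have c23 : ¬ S19 l v r := fun z => not_lt.mpr c21 z.1
  have c24 : r 3 < v 5 := c22.2.2
  have c25 : v 5 < l 4 := (h.e19.resolve_left c23).1
  not_lt.mpr a5 (lt_trans c24 c25)

theorem L307 {l v r : ℕ → ℝ} (h : H l v r) (a0 : l 11 < r 17) (a1 : v 5 ≤ l 11) (a2 : v 5 ≤ v 9) (a3 : v 1 ≤ r 5) (a4 : l 4 < r 5) (a5 : v 12 ≤ l 11) (a6 : v 1 ≤ l 11) (a7 : l 1 ≤ l 11) (a8 : r 1 < v 11) (a9 : v 1 ≤ v 4) (a10 : v 1 ≤ r 0) (a11 : v 1 < v 13) (a12 : v 1 < r 10) (a13 : v 1 ≤ r 10) (a14 : l 11 < v 9) (a15 : l 9 < v 13) (a16 : l 4 ≤ v 0) (a17 : r 10 < v 13) (a18 : v 10 < l 13) : False :=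
  have c0 : v 5 ≤ r 17 := le_of_lt (lt_of_le_of_lt a1 a0)
  have c1 : l 1 ≤ r 17 := le_of_lt (lt_of_le_of_lt a7 a0)
  have c2 : v 12 ≤ r 17 := le_of_lt (lt_of_le_of_lt a5 a0)
  have c3 : S25 l v r := h.e25.resolve_right fun z => not_lt.mpr c0 z.2.2
  have c4 : S40 l v r := h.e40.resolve_right fun z => not_lt.mpr c2 z.2.2
  have c5 : r 5 < v 17 := c3.2.2
  have c6 : v 5 < l 17 := c3.1
  have c7 : l 17 < r 12 := c4.2.1
  have c8 : v 12 < l 17 := c4.1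
  L300 h a5 a4 a10 a9 a11 a3 a12 a13 a14 a6 a8 a15 a17 a18 c1 c8 c7 c6 c5 a2 a16

theorem L308 {l v r : ℕ → ℝ} (h : H l v r) (a0 : r 17 ≤ l 11) : False :=
  have c0 : v 17 ≤ r 17 := not_lt.mp fun z => L157 h z
  have c1 : r 17 ≤ r 11 := not_lt.mp fun z => L28 h z a0
  have c2 : S37 l v r := h.e37.resolve_right fun z => not_lt.mpr a0 z.2.1
  have c3 : v 17 ≤ r 11 := le_trans c0 c1
  not_lt.mpr c3 c2.2.2

theorem L309 {l v r : ℕ → ℝ} (h : H l v r) (a0 : r 17 < l 11) : False :=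
  have c0 : l 11 < r 17 := not_le.mp fun z => L308 h z
  lt_asymm c0 a0

theorem L310 {l v r : ℕ → ℝ} (h : H l v r) (a0 : v 9 < l 0) (a1 : r 10 < v 9) : False :=
  have c0 : v 9 ≤ r 9 := not_lt.mp fun z => L48 h z
  have c1 : l 16 ≤ r 10 := not_lt.mp fun z => L190 h z
  have c2 : l 10 ≤ r 10 := not_lt.mp fun z => L52 h z
  have c3 : l 9 < v 9 := h.u9_0
  have c4 : l 0 ≤ v 0 := not_lt.mp fun z => L64 h z
  have c5 : l 0 ≤ r 11 := not_lt.mp fun z => L272 h z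
  have c6 : v 10 ≤ r 10 := not_lt.mp fun z => L31 h z
  have c7 : l 3 ≤ r 13 := not_lt.mp fun z => L182 h z
  have c8 : v 15 ≤ r 15 := not_lt.mp fun z => L151 h z
  have c9 : l 8 < v 8 := h.u8_0
  have c10 : l 8 ≤ v 8 := not_lt.mp fun z => L110 h z
  have c11 : l 8 ≤ r 3 := not_lt.mp fun z => L217 h z
  have c12 : l 4 ≤ r 15 := not_lt.mp fun z => L204 h z
  have c13 : v 12 ≤ l 13 := not_lt.mp fun z => L143 h z
  have c14 : l 12 ≤ l 13 := not_lt.mp fun z => L90 h z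
  have c15 : l 4 < r 15 := not_le.mp fun z => L203 h z
  have c16 : l 0 ≤ r 15 := not_lt.mp fun z => L206 h z
  have c17 : r 12 ≤ v 13 := not_lt.mp fun z => L159 h z
  have c18 : r 12 ≤ r 13 := not_lt.mp fun z => L167 h z
  have c19 : l 11 < r 1 := not_le.mp fun z => L219 h z
  have c20 : l 1 ≤ v 1 := not_lt.mp fun z => L161 h z
  have c21 : l 5 < r 17 := not_le.mp fun z => L227 h z
  have c22 : l 11 < r 17 := not_le.mp fun z => L308 h z
  have c23 : l 0 ≤ v 8 := not_lt.mp fun z => L305 h z a1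
  have c24 : S1 l v r := h.e1.resolve_right fun z => not_lt.mpr c23 z.1
  have c25 : v 0 < l 8 := c24.1
  have c26 : l 0 < l 8 := not_le.mp fun z => L20 h c25 z
  have c27 : l 0 ≤ r 3 := le_of_lt (lt_of_lt_of_le c26 c11)
  have c28 : l 0 ≤ l 8 := le_of_lt (lt_of_le_of_lt c4 c25)
  have c29 : l 0 < r 8 := not_le.mp fun z => L56 h c23 z
  have c30 : l 10 ≤ v 9 := le_of_lt (lt_of_le_of_lt c2 a1)
  have c31 : ¬ S31 l v r := fun z => not_lt.mpr c30 z.1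
  have c32 : l 9 < r 10 := (h.e31.resolve_left c31).2.1
  have c33 : l 9 ≤ r 10 := le_of_lt c32
  have c34 : l 16 ≤ v 9 := le_of_lt (lt_of_le_of_lt c1 a1)
  have c35 : v 10 < v 9 := not_le.mp fun z => L47 h a1 z
  have c36 : r 10 ≤ v 9 := le_of_lt a1
  have c37 : r 10 ≤ r 9 := le_of_lt (lt_of_lt_of_le a1 c0)
  have c38 : l 9 < l 0 := lt_trans c3 a0
  have c39 : l 16 ≤ l 0 := le_of_lt (lt_of_le_of_lt c34 a0)
  have c40 : r 10 ≤ l 0 := le_of_lt (lt_of_le_of_lt c36 a0)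
  have c41 : v 10 < l 0 := lt_trans c35 a0
  have c42 : v 9 ≤ v 0 := le_of_lt (lt_of_lt_of_le a0 c4)
  have c43 : v 9 ≤ r 15 := le_of_lt (lt_of_lt_of_le a0 c16)
  have c44 : v 9 ≤ r 11 := le_of_lt (lt_of_lt_of_le a0 c5)
  have c45 : v 9 ≤ l 8 := le_of_lt (lt_of_lt_of_le a0 c28)
  have c46 : l 9 ≤ r 15 := le_of_lt (lt_of_lt_of_le c38 c16)
  have c47 : l 9 ≤ r 0 := not_lt.mp fun z => L108 h z c38
  have c48 : l 9 ≤ r 11 := le_of_lt (lt_of_lt_of_le c38 c5)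
  have c49 : l 9 ≤ l 8 := le_of_lt (lt_of_lt_of_le c38 c28)
  have c50 : l 16 ≤ r 15 := le_trans c39 c16
  have c51 : r 10 ≤ v 0 := not_lt.mp fun z => L10 h z c40
  have c52 : r 10 ≤ r 15 := le_trans c40 c16
  have c53 : r 10 ≤ r 8 := le_of_lt (lt_of_le_of_lt c40 c29)
  have c54 : v 10 ≤ r 15 := le_of_lt (lt_of_lt_of_le c41 c16)
  have c55 : v 10 ≤ r 3 := le_of_lt (lt_of_lt_of_le c41 c27)
  have c56 : S34 l v r := h.e34.resolve_right fun z => not_lt.mpr c54 z.2.2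
  have c57 : ¬ S16 l v r := fun z => not_lt.mpr c55 z.2.2
  have c58 : l 15 < r 10 := c56.2.1
  have c59 : r 10 < v 15 := c56.2.2
  have c60 : l 3 < r 10 := (h.e16.resolve_left c57).2.1
  have c61 : v 10 < l 3 := (h.e16.resolve_left c57).1
  have c62 : l 15 ≤ r 9 := le_of_lt (lt_of_lt_of_le c58 c37)
  have c63 : l 15 ≤ v 0 := le_of_lt (lt_of_lt_of_le c58 c51)
  have c64 : l 15 ≤ r 8 := le_of_lt (lt_of_lt_of_le c58 c53)
  have c65 : r 10 ≤ v 15 := le_of_lt c59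
  have c66 : v 10 ≤ v 15 := le_of_lt (lt_of_le_of_lt c6 c59)
  have c67 : l 9 ≤ v 15 := le_of_lt (lt_of_le_of_lt c33 c59)
  have c68 : l 3 ≤ r 9 := le_of_lt (lt_of_lt_of_le c60 c37)
  have c69 : v 10 ≤ r 13 := le_of_lt (lt_of_lt_of_le c61 c7)
  have c70 : r 15 < l 8 := not_le.mp fun z => L213 h c24 c45 z c62
  have c71 : ¬ S4 l v r := fun z => not_lt.mpr c63 z.1
  have c72 : S33 l v r := h.e33.resolve_right fun z => not_lt.mpr c69 z.2.2
  have c73 : v 15 ≤ l 8 := le_of_lt (lt_of_le_of_lt c8 c70)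
  have c74 : r 15 < v 8 := lt_trans c70 c9
  have c75 : r 15 ≤ v 8 := le_of_lt (lt_of_lt_of_le c70 c10)
  have c76 : l 4 < l 8 := lt_trans c15 c70
  have c77 : r 15 < v 0 := (h.e4.resolve_left c71).2.2
  have c78 : v 10 < l 13 := c72.1
  have c79 : l 13 < r 10 := c72.2.1
  have c80 : r 10 < v 13 := c72.2.2
  have c81 : l 4 ≤ v 8 := le_of_lt (lt_of_le_of_lt c12 c74)
  have c82 : S11 l v r := Classical.byContradiction fun z => L201 h z c75 c64
  have c83 : l 4 ≤ r 3 := le_of_lt (lt_of_lt_of_le c76 c11)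
  have c84 : l 4 ≤ v 0 := le_of_lt (lt_of_le_of_lt c12 c77)
  have c85 : v 12 < r 10 := lt_of_le_of_lt c13 c79
  have c86 : l 12 ≤ r 10 := le_of_lt (lt_of_le_of_lt c14 c79)
  have c87 : l 13 ≤ r 15 := le_of_lt (lt_of_lt_of_le c79 c52)
  have c88 : l 9 < v 13 := lt_trans c32 c80
  have c89 : S20 l v r := h.e20.resolve_right fun z => not_lt.mpr c81 z.1
  have c90 : l 8 < r 2 := c82.2.1
  have c91 : v 12 < v 15 := lt_trans c85 c59
  have c92 : v 12 ≤ v 15 := le_of_lt (lt_of_lt_of_le c85 c65)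
  have c93 : l 12 ≤ v 9 := le_of_lt (lt_of_le_of_lt c86 a1)
  have c94 : l 8 < r 4 := c89.2.1
  have c95 : v 15 ≤ r 2 := le_of_lt (lt_of_le_of_lt c73 c90)
  have c96 : l 9 ≤ r 4 := le_of_lt (lt_of_le_of_lt c49 c94)
  have c97 : v 15 ≤ r 4 := le_of_lt (lt_of_le_of_lt c73 c94)
  have c98 : ¬ S12 l v r := fun z => not_lt.mpr c95 z.2.2
  have c99 : ¬ S22 l v r := fun z => not_lt.mpr c97 z.2.2
  have c100 : r 15 < v 2 := (h.e12.resolve_left c98).2.2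
  have c101 : v 15 < l 2 := (h.e12.resolve_left c98).1
  have c102 : r 15 < v 4 := (h.e22.resolve_left c99).2.2
  have c103 : v 15 < l 4 := (h.e22.resolve_left c99).1
  have c104 : l 4 < v 2 := lt_trans c15 c100
  have c105 : v 9 < v 2 := lt_of_le_of_lt c43 c100
  have c106 : l 16 ≤ v 2 := le_of_lt (lt_of_le_of_lt c50 c100)
  have c107 : v 10 ≤ l 2 := le_of_lt (lt_of_le_of_lt c66 c101)
  have c108 : v 12 < l 2 := lt_trans c91 c101
  have c109 : v 12 ≤ l 2 := le_of_lt (lt_of_le_of_lt c92 c101)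
  have c110 : l 0 ≤ v 4 := le_of_lt (lt_of_le_of_lt c16 c102)
  have c111 : l 9 ≤ v 4 := le_of_lt (lt_of_le_of_lt c46 c102)
  have c112 : l 13 ≤ v 4 := le_of_lt (lt_of_le_of_lt c87 c102)
  have c113 : v 9 ≤ v 4 := le_of_lt (lt_of_le_of_lt c43 c102)
  have c114 : l 9 ≤ l 4 := le_of_lt (lt_of_le_of_lt c67 c103)
  have c115 : ¬ S13 l v r := fun z => not_lt.mpr c106 z.1
  have c116 : ¬ S21 l v r := fun z => not_lt.mpr c112 z.1
  have c117 : l 2 < r 16 := (h.e13.resolve_left c115).2.1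
  have c118 : v 16 < l 2 := (h.e13.resolve_left c115).1
  have c119 : v 13 < l 4 := (h.e21.resolve_left c116).1
  have c120 : r 13 < v 4 := (h.e21.resolve_left c116).2.2
  have c121 : v 10 ≤ r 16 := le_of_lt (lt_of_le_of_lt c107 c117)
  have c122 : v 16 ≤ l 2 := le_of_lt c118
  have c123 : r 12 < l 4 := lt_of_le_of_lt c17 c119
  have c124 : r 12 ≤ l 4 := le_of_lt (lt_of_le_of_lt c17 c119)
  have c125 : r 12 ≤ v 4 := le_of_lt (lt_of_le_of_lt c18 c120)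
  have c126 : S35 l v r := h.e35.resolve_right fun z => not_lt.mpr c121 z.2.2
  have c127 : r 12 < v 2 := lt_trans c123 c104
  have c128 : r 10 < v 16 := c126.2.2
  have c129 : r 12 ≤ l 2 := not_lt.mp fun z => h.n12_2 c108 z c127
  have c130 : l 9 ≤ v 16 := le_of_lt (lt_of_le_of_lt c33 c128)
  have c131 : l 1 ≤ v 9 := not_lt.mp fun z => L306 h z c125 c124 c96 c93 c83 c68
  have c132 : S8 l v r := h.e8.resolve_right fun z => not_lt.mpr c131 z.1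
  have c133 : l 1 ≤ v 2 := le_of_lt (lt_of_le_of_lt c131 c105)
  have c134 : l 1 ≤ v 4 := le_trans c131 c113
  have c135 : r 1 < v 9 := c132.2.2
  have c136 : v 1 < l 9 := c132.1
  have c137 : S5 l v r := h.e5.resolve_right fun z => not_lt.mpr c133 z.1
  have c138 : S6 l v r := h.e6.resolve_right fun z => not_lt.mpr c134 z.1
  have c139 : r 1 ≤ v 9 := le_of_lt c135
  have c140 : r 1 ≤ r 9 := not_lt.mp fun z => L150 h z c135
  have c141 : l 11 < v 9 := lt_trans c19 c135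
  have c142 : r 1 ≤ r 11 := le_of_lt (lt_of_lt_of_le c135 c44)
  have c143 : v 1 ≤ r 10 := le_of_lt (lt_of_lt_of_le c136 c33)
  have c144 : v 1 < r 10 := lt_of_lt_of_le c136 c33
  have c145 : v 1 ≤ r 11 := le_of_lt (lt_of_lt_of_le c136 c48)
  have c146 : v 1 < v 13 := lt_trans c136 c88
  have c147 : v 1 ≤ r 0 := le_of_lt (lt_of_lt_of_le c136 c47)
  have c148 : v 1 ≤ v 4 := le_of_lt (lt_of_lt_of_le c136 c111)
  have c149 : v 1 ≤ l 4 := le_of_lt (lt_of_lt_of_le c136 c114)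
  have c150 : l 2 < r 1 := c137.2.1
  have c151 : l 4 < r 1 := c138.2.1
  have c152 : l 11 ≤ v 0 := le_of_lt (lt_of_lt_of_le c141 c42)
  have c153 : l 2 < r 11 := lt_of_lt_of_le c150 c142
  have c154 : S9 l v r := h.e9.resolve_right fun z => not_lt.mpr c145 z.2.2
  have c155 : v 12 ≤ r 1 := le_of_lt (lt_of_le_of_lt c109 c150)
  have c156 : r 12 ≤ r 1 := le_of_lt (lt_of_le_of_lt c129 c150)
  have c157 : l 4 ≤ r 9 := le_of_lt (lt_of_lt_of_le c151 c140)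
  have c158 : l 4 ≤ v 9 := le_of_lt (lt_of_lt_of_le c151 c139)
  have c159 : ¬ S3 l v r := fun z => not_lt.mpr c152 z.1
  have c160 : v 16 ≤ r 11 := le_of_lt (lt_of_le_of_lt c122 c153)
  have c161 : r 1 < v 11 := c154.2.2
  have c162 : v 1 < l 11 := c154.1
  have c163 : ¬ S10 l v r := fun z => not_lt.mpr c155 z.2.2
  have c164 : v 11 < l 0 := (h.e3.resolve_left c159).1
  have c165 : ¬ S36 l v r := fun z => not_lt.mpr c160 z.2.2
  have c166 : r 12 ≤ v 11 := le_of_lt (lt_of_le_of_lt c156 c161)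
  have c167 : l 1 ≤ l 11 := le_of_lt (lt_of_le_of_lt c20 c162)
  have c168 : v 1 ≤ l 11 := le_of_lt c162
  have c169 : v 12 < l 1 := (h.e10.resolve_left c163).1
  have c170 : v 11 ≤ v 4 := le_of_lt (lt_of_lt_of_le c164 c110)
  have c171 : v 16 < l 11 := (h.e36.resolve_left c165).1
  have c172 : v 12 ≤ l 11 := le_of_lt (lt_of_lt_of_le c169 c167)
  have c173 : l 9 ≤ l 11 := le_of_lt (lt_of_le_of_lt c130 c171)
  have c174 : v 12 ≤ r 17 := le_of_lt (lt_of_le_of_lt c172 c22)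
  have c175 : S40 l v r := h.e40.resolve_right fun z => not_lt.mpr c174 z.2.2
  have c176 : l 17 < r 12 := c175.2.1
  have c177 : l 17 ≤ v 11 := le_of_lt (lt_of_lt_of_le c176 c166)
  have c178 : ¬ S37 l v r := fun z => not_lt.mpr c177 z.1
  have c179 : r 17 < v 11 := (h.e37.resolve_left c178).2.2
  have c180 : l 5 < v 11 := lt_trans c21 c179
  have c181 : l 5 ≤ v 4 := le_of_lt (lt_of_lt_of_le c180 c170)
  have c182 : ¬ S19 l v r := fun z => not_lt.mpr c181 z.1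
  have c183 : l 4 < r 5 := (h.e19.resolve_left c182).2.1
  have c184 : v 5 < l 4 := (h.e19.resolve_left c182).1
  have c185 : v 1 ≤ r 5 := le_of_lt (lt_of_le_of_lt c149 c183)
  have c186 : v 5 ≤ r 9 := le_of_lt (lt_of_lt_of_le c184 c157)
  have c187 : v 5 ≤ v 9 := le_of_lt (lt_of_lt_of_le c184 c158)
  have c188 : S24 l v r := h.e24.resolve_right fun z => not_lt.mpr c186 z.2.2
  have c189 : l 11 < v 5 := not_le.mp fun z => L307 h c22 z c187 c185 c183 c172 c168 c167 c161 c148 c147 c146 c144 c143 c141 c88 c84 c80 c78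
  have c190 : v 5 < l 9 := c188.1
  not_lt.mpr c173 (lt_trans c189 c190)

theorem L311 {l v r : ℕ → ℝ} (h : H l v r) (a0 : r 12 < v 1) (a1 : S33 l v r) (a2 : l 4 < v 11) (a3 : v 1 ≤ r 15) (a4 : v 1 ≤ v 4) (a5 : v 5 ≤ r 10) (a6 : l 17 ≤ r 12) (a7 : l 11 ≤ r 0) (a8 : v 1 < v 11) (a9 : v 1 < l 11) (a10 : l 4 ≤ r 5) (a11 : l 0 ≤ r 10) : False :=
  have c0 : l 13 ≤ r 12 := not_lt.mp fun z => L88 h z
  have c1 : l 11 < r 17 := not_le.mp fun z => L308 h z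
  have c2 : r 10 < v 13 := a1.2.2
  have c3 : r 10 ≤ v 13 := le_of_lt c2
  have c4 : v 10 < l 13 := a1.1
  have c5 : v 10 < r 12 := lt_of_lt_of_le c4 c0
  have c6 : l 13 < v 1 := lt_of_le_of_lt c0 a0
  have c7 : v 10 < v 1 := lt_trans c5 a0
  have c8 : r 12 < v 11 := lt_trans a0 a8
  have c9 : l 13 ≤ v 4 := le_of_lt (lt_of_lt_of_le c6 a4)
  have c10 : v 10 < l 11 := lt_trans c7 a9
  have c11 : v 10 ≤ r 15 := le_of_lt (lt_of_lt_of_le c7 a3)
  have c12 : l 17 ≤ v 11 := le_of_lt (lt_of_le_of_lt a6 c8)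
  have c13 : ¬ S21 l v r := fun z => not_lt.mpr c9 z.1
  have c14 : S34 l v r := h.e34.resolve_right fun z => not_lt.mpr c11 z.2.2
  have c15 : ¬ S37 l v r := fun z => not_lt.mpr c12 z.1
  have c16 : v 13 < l 4 := (h.e21.resolve_left c13).1
  have c17 : l 15 < r 10 := c14.2.1
  have c18 : r 10 < v 15 := c14.2.2
  have c19 : v 17 < l 11 := (h.e37.resolve_left c15).1
  have c20 : v 13 < v 4 := not_le.mp fun z => L5 h c16 z
  have c21 : r 10 < l 4 := lt_trans c2 c16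
  have c22 : l 15 ≤ v 13 := le_of_lt (lt_of_lt_of_le c17 c3)
  have c23 : l 0 ≤ v 15 := le_of_lt (lt_of_le_of_lt a11 c18)
  have c24 : v 17 ≤ r 0 := le_of_lt (lt_of_lt_of_le c19 a7)
  have c25 : l 15 ≤ v 4 := le_of_lt (lt_of_le_of_lt c22 c20)
  have c26 : r 10 < v 11 := lt_trans c21 a2
  have c27 : S4 l v r := h.e4.resolve_right fun z => not_lt.mpr c23 z.1
  have c28 : ¬ S22 l v r := fun z => not_lt.mpr c25 z.1
  have c29 : r 10 ≤ l 11 := not_lt.mp fun z => h.n10_11 c10 z c26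
  have c30 : r 0 < v 15 := c27.2.2
  have c31 : v 15 < l 4 := (h.e22.resolve_left c28).1
  have c32 : r 10 < r 17 := lt_of_le_of_lt c29 c1
  have c33 : v 17 < v 15 := lt_of_le_of_lt c24 c30
  have c34 : v 15 ≤ r 5 := le_of_lt (lt_of_lt_of_le c31 a10)
  have c35 : v 5 ≤ r 17 := le_of_lt (lt_of_le_of_lt a5 c32)
  have c36 : v 17 ≤ r 5 := le_of_lt (lt_of_lt_of_le c33 c34)
  have c37 : S25 l v r := h.e25.resolve_right fun z => not_lt.mpr c35 z.2.2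
  not_lt.mpr c36 c37.2.2

theorem L312 {l v r : ℕ → ℝ} (h : H l v r) (a0 : S33 l v r) (a1 : S40 l v r) (a2 : l 4 < v 11) (a3 : v 1 ≤ r 15) (a4 : l 4 < r 1) (a5 : v 1 ≤ v 4) (a6 : v 5 ≤ r 1) (a7 : v 5 ≤ r 10) (a8 : l 17 ≤ r 12) (a9 : l 8 ≤ v 11) (a10 : r 0 ≤ v 11) (a11 : l 11 ≤ r 0) (a12 : v 1 < v 11) (a13 : v 1 < l 11) (a14 : ¬ S19 l v r) (a15 : r 10 < v 9) : False :=
  have c0 : l 8 ≤ v 8 := not_lt.mp fun z => L110 h z
  have c1 : l 10 ≤ r 10 := not_lt.mp fun z => L52 h z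
  have c2 : v 12 ≤ r 12 := not_lt.mp fun z => L93 h z
  have c3 : l 17 ≤ r 17 := not_lt.mp fun z => L158 h z
  have c4 : v 12 ≤ l 13 := not_lt.mp fun z => L143 h z
  have c5 : l 11 < r 1 := not_le.mp fun z => L219 h z
  have c6 : l 4 ≤ r 15 := not_lt.mp fun z => L204 h z
  have c7 : v 12 < l 17 := a1.1
  have c8 : v 12 ≤ r 17 := le_of_lt (lt_of_lt_of_le c7 c3)
  have c9 : r 12 < v 17 := a1.2.2
  have c10 : v 12 ≤ v 17 := le_of_lt (lt_of_le_of_lt c2 c9)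
  have c11 : r 5 < v 4 := (h.e19.resolve_left a14).2.2
  have c12 : r 5 ≤ v 4 := le_of_lt c11
  have c13 : l 4 < r 5 := (h.e19.resolve_left a14).2.1
  have c14 : l 4 ≤ r 5 := le_of_lt c13
  have c15 : l 0 ≤ v 8 := not_lt.mp fun z => L305 h z a15
  have c16 : S1 l v r := h.e1.resolve_right fun z => not_lt.mpr c15 z.1
  have c17 : r 0 < v 8 := c16.2.2
  have c18 : l 10 ≤ v 9 := le_of_lt (lt_of_le_of_lt c1 a15)
  have c19 : ¬ S31 l v r := fun z => not_lt.mpr c18 z.1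
  have c20 : v 10 < l 9 := (h.e31.resolve_left c19).1
  have c21 : v 10 ≤ l 9 := le_of_lt c20
  have c22 : l 0 ≤ v 9 := not_lt.mp fun z => L310 h z a15
  have c23 : S2 l v r := h.e2.resolve_right fun z => not_lt.mpr c22 z.1
  have c24 : l 9 < r 0 := c23.2.1
  have c25 : v 10 < r 0 := lt_of_le_of_lt c21 c24
  have c26 : v 10 < v 8 := lt_trans c25 c17
  have c27 : l 9 < r 10 := (h.e31.resolve_left c19).2.1
  have c28 : l 9 ≤ r 10 := le_of_lt c27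
  have c29 : v 0 < l 9 := c23.1
  have c30 : v 0 < r 10 := lt_of_lt_of_le c29 c28
  have c31 : l 0 ≤ r 10 := not_lt.mp fun z => L66 h c30 z
  have c32 : v 0 < l 8 := c16.1
  have c33 : v 0 ≤ v 8 := le_of_lt (lt_of_lt_of_le c32 c0)
  have c34 : l 13 < r 10 := a0.2.1
  have c35 : v 12 ≤ r 10 := le_of_lt (lt_of_le_of_lt c4 c34)
  have c36 : v 1 ≤ r 12 := not_lt.mp fun z => L311 h z a0 a2 a3 a5 a7 a8 a11 a12 a13 c14 c31
  have c37 : S10 l v r := h.e10.resolve_right fun z => not_lt.mpr c36 z.2.2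
  have c38 : r 1 < v 12 := c37.2.2
  have c39 : l 11 < v 12 := lt_trans c5 c38
  have c40 : l 4 < v 12 := lt_trans a4 c38
  have c41 : r 1 < r 17 := lt_of_lt_of_le c38 c8
  have c42 : l 11 ≤ v 17 := le_of_lt (lt_of_lt_of_le c39 c10)
  have c43 : l 4 ≤ r 10 := le_of_lt (lt_of_lt_of_le c40 c35)
  have c44 : v 5 ≤ r 17 := le_of_lt (lt_of_le_of_lt a6 c41)
  have c45 : S37 l v r := h.e37.resolve_right fun z => not_lt.mpr c42 z.1
  have c46 : S25 l v r := h.e25.resolve_right fun z => not_lt.mpr c44 z.2.2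
  have c47 : v 11 < l 17 := c45.1
  have c48 : l 17 < r 5 := c46.2.1
  have c49 : l 8 ≤ l 17 := le_of_lt (lt_of_le_of_lt a9 c47)
  have c50 : r 0 ≤ l 17 := le_of_lt (lt_of_le_of_lt a10 c47)
  have c51 : l 17 < v 4 := lt_trans c48 c11
  have c52 : l 17 ≤ v 4 := le_of_lt (lt_of_lt_of_le c48 c12)
  have c53 : l 8 ≤ v 4 := le_trans c49 c52
  have c54 : r 0 ≤ v 4 := le_of_lt (lt_of_le_of_lt c50 c51)
  have c55 : ¬ S20 l v r := fun z => not_lt.mpr c53 z.1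
  have c56 : v 8 < l 4 := (h.e20.resolve_left c55).1
  have c57 : v 8 ≤ r 15 := le_of_lt (lt_of_lt_of_le c56 c6)
  have c58 : v 0 ≤ r 15 := le_trans c33 c57
  have c59 : v 10 ≤ r 15 := le_of_lt (lt_of_lt_of_le c26 c57)
  have c60 : S4 l v r := h.e4.resolve_right fun z => not_lt.mpr c58 z.2.2
  have c61 : S34 l v r := h.e34.resolve_right fun z => not_lt.mpr c59 z.2.2
  have c62 : l 15 < r 0 := c60.2.1
  have c63 : r 10 < v 15 := c61.2.2
  have c64 : l 15 ≤ v 4 := le_of_lt (lt_of_lt_of_le c62 c54)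
  have c65 : l 4 ≤ v 15 := le_of_lt (lt_of_le_of_lt c43 c63)
  have c66 : ¬ S22 l v r := fun z => not_lt.mpr c64 z.1
  not_lt.mpr c65 (h.e22.resolve_left c66).1

theorem L313 {l v r : ℕ → ℝ} (h : H l v r) (a0 : ¬ S33 l v r) (a1 : v 10 ≤ v 4) (a2 : l 10 ≤ r 4) (a3 : v 10 ≤ v 8) : False :=
  have c0 : l 3 ≤ r 13 := not_lt.mp fun z => L182 h z
  have c1 : l 8 ≤ r 3 := not_lt.mp fun z => L217 h z
  have c2 : r 13 < v 10 := (h.e33.resolve_left a0).2.2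
  have c3 : v 13 < l 10 := (h.e33.resolve_left a0).1
  have c4 : l 3 ≤ v 10 := le_of_lt (lt_of_le_of_lt c0 c2)
  have c5 : r 13 ≤ v 8 := le_of_lt (lt_of_lt_of_le c2 a3)
  have c6 : v 13 ≤ r 4 := le_of_lt (lt_of_lt_of_le c3 a2)
  have c7 : S16 l v r := h.e16.resolve_right fun z => not_lt.mpr c4 z.1
  have c8 : ¬ S21 l v r := fun z => not_lt.mpr c6 z.2.2
  have c9 : r 3 < v 10 := c7.2.2
  have c10 : l 4 < r 13 := (h.e21.resolve_left c8).2.1
  have c11 : l 8 < v 10 := lt_of_le_of_lt c1 c9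
  have c12 : l 4 ≤ v 8 := le_of_lt (lt_of_lt_of_le c10 c5)
  have c13 : l 8 ≤ v 4 := le_of_lt (lt_of_lt_of_le c11 a1)
  have c14 : S20 l v r := h.e20.resolve_right fun z => not_lt.mpr c12 z.1
  not_lt.mpr c13 c14.1

theorem L314 {l v r : ℕ → ℝ} (h : H l v r) (a0 : S24 l v r) (a1 : l 17 ≤ r 12) (a2 : S9 l v r) (a3 : S8 l v r) (a4 : ¬ S19 l v r) (a5 : r 10 < v 9) : False :=
  have c0 : l 10 ≤ r 10 := not_lt.mp fun z => L52 h z
  have c1 : v 5 ≤ r 5 := not_lt.mp fun z => L36 h z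
  have c2 : l 4 < r 15 := not_le.mp fun z => L203 h z
  have c3 : l 11 ≤ r 17 := not_lt.mp fun z => L309 h z
  have c4 : l 5 ≤ v 5 := not_lt.mp fun z => L135 h z
  have c5 : l 4 ≤ r 15 := not_lt.mp fun z => L204 h z
  have c6 : v 13 < r 13 := h.u13_1
  have c7 : v 12 ≤ l 13 := not_lt.mp fun z => L143 h z
  have c8 : l 5 ≤ r 5 := not_lt.mp fun z => L116 h z
  have c9 : v 12 < v 13 := not_le.mp fun z => L86 h z
  have c10 : v 12 ≤ v 13 := not_lt.mp fun z => L84 h z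
  have c11 : v 1 < r 1 := h.u1_1
  have c12 : l 8 ≤ r 3 := not_lt.mp fun z => L217 h z
  have c13 : l 0 ≤ v 9 := not_lt.mp fun z => L310 h z a5
  have c14 : S2 l v r := h.e2.resolve_right fun z => not_lt.mpr c13 z.1
  have c15 : v 0 < l 9 := c14.1
  have c16 : l 0 ≤ l 9 := not_lt.mp fun z => L139 h c15 z
  have c17 : l 9 < r 1 := a3.2.1
  have c18 : l 0 ≤ r 1 := le_of_lt (lt_of_le_of_lt c16 c17)
  have c19 : r 1 < v 11 := a2.2.2
  have c20 : l 0 ≤ v 11 := le_of_lt (lt_of_le_of_lt c18 c19)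
  have c21 : S3 l v r := h.e3.resolve_right fun z => not_lt.mpr c20 z.1
  have c22 : v 0 < l 11 := c21.1
  have c23 : v 0 ≤ r 17 := le_of_lt (lt_of_lt_of_le c22 c3)
  have c24 : l 0 ≤ v 8 := not_lt.mp fun z => L305 h z a5
  have c25 : S1 l v r := h.e1.resolve_right fun z => not_lt.mpr c24 z.1
  have c26 : l 8 < r 0 := c25.2.1
  have c27 : l 8 ≤ r 0 := le_of_lt c26
  have c28 : r 0 < v 11 := c21.2.2
  have c29 : l 8 ≤ v 11 := le_of_lt (lt_of_le_of_lt c27 c28)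
  have c30 : r 0 ≤ v 11 := le_of_lt c28
  have c31 : l 11 < r 0 := c21.2.1
  have c32 : l 11 ≤ r 0 := le_of_lt c31
  have c33 : v 1 < v 11 := not_le.mp fun z => L38 h c19 z
  have c34 : v 1 < l 11 := a2.1
  have c35 : l 9 ≤ r 1 := le_of_lt c17
  have c36 : v 1 < l 9 := a3.1
  have c37 : v 5 < l 4 := (h.e19.resolve_left a4).1
  have c38 : v 5 < r 15 := lt_trans c37 c2
  have c39 : r 5 < v 4 := (h.e19.resolve_left a4).2.2
  have c40 : r 5 ≤ r 4 := not_lt.mp fun z => L176 h z c39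
  have c41 : r 5 < r 4 := not_le.mp fun z => L80 h c39 z
  have c42 : r 5 ≤ v 4 := le_of_lt c39
  have c43 : v 5 < v 4 := lt_of_le_of_lt c1 c39
  have c44 : l 4 < r 5 := (h.e19.resolve_left a4).2.1
  have c45 : l 4 ≤ r 5 := le_of_lt c44
  have c46 : r 0 < v 8 := c25.2.2
  have c47 : r 0 ≤ v 8 := le_of_lt c46
  have c48 : l 10 ≤ v 9 := le_of_lt (lt_of_le_of_lt c0 a5)
  have c49 : ¬ S31 l v r := fun z => not_lt.mpr c48 z.1
  have c50 : v 10 < l 9 := (h.e31.resolve_left c49).1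
  have c51 : v 10 ≤ l 9 := le_of_lt c50
  have c52 : l 9 < r 0 := c14.2.1
  have c53 : v 10 < r 0 := lt_of_le_of_lt c51 c52
  have c54 : v 10 ≤ v 8 := le_of_lt (lt_of_lt_of_le c53 c47)
  have c55 : l 9 < r 10 := (h.e31.resolve_left c49).2.1
  have c56 : l 9 ≤ r 10 := le_of_lt c55
  have c57 : v 0 < r 10 := lt_of_lt_of_le c15 c56
  have c58 : l 0 ≤ r 10 := not_lt.mp fun z => L66 h c57 z
  have c59 : l 10 ≤ l 9 := not_lt.mp fun z => L54 h c50 z
  have c60 : l 9 < r 5 := a0.2.1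
  have c61 : v 5 < l 9 := a0.1
  have c62 : l 10 ≤ r 5 := le_of_lt (lt_of_le_of_lt c59 c60)
  have c63 : v 10 ≤ r 5 := le_of_lt (lt_of_le_of_lt c51 c60)
  have c64 : v 1 < r 5 := lt_trans c36 c60
  have c65 : v 5 ≤ r 10 := le_of_lt (lt_of_lt_of_le c61 c56)
  have c66 : l 5 < l 9 := lt_of_le_of_lt c4 c61
  have c67 : v 5 ≤ r 1 := le_of_lt (lt_of_lt_of_le c61 c35)
  have c68 : v 5 < r 1 := lt_of_lt_of_le c61 c35
  have c69 : l 10 ≤ v 4 := le_of_lt (lt_of_le_of_lt c62 c39)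
  have c70 : l 10 ≤ r 4 := le_of_lt (lt_of_le_of_lt c62 c41)
  have c71 : v 10 < v 4 := lt_of_le_of_lt c63 c39
  have c72 : v 10 ≤ v 4 := le_of_lt (lt_of_le_of_lt c63 c39)
  have c73 : v 1 ≤ v 4 := le_of_lt (lt_of_lt_of_le c64 c42)
  have c74 : v 1 ≤ r 4 := le_of_lt (lt_of_lt_of_le c64 c40)
  have c75 : l 5 ≤ r 10 := le_trans c4 c65
  have c76 : S6 l v r := h.e6.resolve_right fun z => not_lt.mpr c74 z.2.2
  have c77 : v 1 < l 4 := c76.1
  have c78 : l 4 < r 1 := c76.2.1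
  have c79 : v 1 ≤ r 15 := le_of_lt (lt_of_lt_of_le c77 c5)
  have c80 : l 4 ≤ r 1 := le_of_lt c78
  have c81 : l 4 < v 11 := lt_trans c78 c19
  have c82 : S33 l v r := Classical.byContradiction fun z => L313 h z c72 c70 c54
  have c83 : l 13 < r 10 := c82.2.1
  have c84 : r 10 < v 13 := c82.2.2
  have c85 : v 1 ≤ r 12 := not_lt.mp fun z => L311 h z c82 c81 c79 c73 c65 a1 c32 c33 c34 c45 c58
  have c86 : ¬ S40 l v r := fun z => L312 h c82 z c81 c79 c78 c73 c67 c65 a1 c29 c30 c32 c33 c34 a4 a5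
  have c87 : v 12 < r 10 := lt_of_le_of_lt c7 c83
  have c88 : r 10 < r 13 := lt_trans c84 c6
  have c89 : S10 l v r := h.e10.resolve_right fun z => not_lt.mpr c85 z.2.2
  have c90 : v 17 < l 12 := (h.e40.resolve_left c86).1
  have c91 : r 17 < v 12 := (h.e40.resolve_left c86).2.2
  have c92 : v 17 < l 5 := not_le.mp fun z => L287 h c86 z c62
  have c93 : v 12 < v 9 := lt_trans c87 a5
  have c94 : l 5 ≤ r 13 := le_of_lt (lt_of_le_of_lt c75 c88)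
  have c95 : r 1 < v 12 := c89.2.2
  have c96 : l 12 < r 1 := c89.2.1
  have c97 : v 17 < r 1 := lt_trans c90 c96
  have c98 : r 17 < l 13 := lt_of_lt_of_le c91 c7
  have c99 : r 17 < v 9 := lt_trans c91 c93
  have c100 : v 17 ≤ r 5 := le_of_lt (lt_of_lt_of_le c92 c8)
  have c101 : v 17 < l 9 := lt_trans c92 c66
  have c102 : r 1 < v 13 := lt_trans c95 c9
  have c103 : r 1 ≤ v 13 := le_of_lt (lt_of_lt_of_le c95 c10)
  have c104 : r 1 ≤ l 13 := not_lt.mp fun z => L154 h z c95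
  have c105 : v 0 ≤ l 13 := le_of_lt (lt_of_le_of_lt c23 c98)
  have c106 : ¬ S25 l v r := fun z => not_lt.mpr c100 z.2.2
  have c107 : r 17 ≤ l 9 := not_lt.mp fun z => h.n17_9 c101 z c99
  have c108 : l 4 ≤ v 13 := le_of_lt (lt_of_le_of_lt c80 c102)
  have c109 : r 1 ≤ r 6 := not_lt.mp fun z => L231 h z c103 c104
  have c110 : r 17 < v 5 := (h.e25.resolve_left c106).2.2
  have c111 : r 17 ≤ r 0 := le_of_lt (lt_of_le_of_lt c107 c52)
  have c112 : S21 l v r := h.e21.resolve_right fun z => not_lt.mpr c108 z.1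
  have c113 : v 1 ≤ r 6 := le_of_lt (lt_of_lt_of_le c11 c109)
  have c114 : v 17 ≤ r 6 := le_of_lt (lt_of_lt_of_le c97 c109)
  have c115 : r 17 < r 15 := lt_trans c110 c38
  have c116 : v 4 < l 13 := c112.1
  have c117 : r 4 < v 13 := c112.2.2
  have c118 : S7 l v r := h.e7.resolve_right fun z => not_lt.mpr c113 z.2.2
  have c119 : ¬ S28 l v r := fun z => not_lt.mpr c114 z.2.2
  have c120 : v 0 ≤ r 15 := le_of_lt (lt_of_le_of_lt c23 c115)
  have c121 : r 5 < l 13 := lt_trans c39 c116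
  have c122 : r 5 ≤ v 13 := le_of_lt (lt_of_le_of_lt c40 c117)
  have c123 : r 1 < v 6 := c118.2.2
  have c124 : l 6 < r 1 := c118.2.1
  have c125 : l 6 < r 17 := (h.e28.resolve_left c119).2.1
  have c126 : S4 l v r := h.e4.resolve_right fun z => not_lt.mpr c120 z.2.2
  have c127 : S29 l v r := Classical.byContradiction fun z => L290 h z c122 c94
  have c128 : l 4 ≤ v 6 := le_of_lt (lt_of_le_of_lt c80 c123)
  have c129 : v 5 < v 6 := lt_trans c68 c123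
  have c130 : l 6 ≤ v 13 := le_of_lt (lt_of_lt_of_le c124 c103)
  have c131 : l 6 ≤ r 0 := le_of_lt (lt_of_lt_of_le c125 c111)
  have c132 : l 15 < r 0 := c126.2.1
  have c133 : r 0 < v 15 := c126.2.2
  have c134 : l 13 < r 7 := c127.2.1
  have c135 : v 7 < l 13 := c127.1
  have c136 : S26 l v r := h.e26.resolve_right fun z => not_lt.mpr c130 z.1
  have c137 : l 6 ≤ v 15 := le_of_lt (lt_of_le_of_lt c131 c133)
  have c138 : l 15 < v 8 := lt_trans c132 c46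
  have c139 : v 0 ≤ r 7 := le_of_lt (lt_of_le_of_lt c105 c134)
  have c140 : v 7 ≤ l 13 := le_of_lt c135
  have c141 : v 7 ≤ v 13 := not_lt.mp fun z => L138 h z c135
  have c142 : l 13 < r 6 := c136.2.1
  have c143 : S27 l v r := h.e27.resolve_right fun z => not_lt.mpr c137 z.1
  have c144 : S0 l v r := h.e0.resolve_right fun z => not_lt.mpr c139 z.2.2
  have c145 : r 5 < r 6 := lt_trans c121 c142
  have c146 : r 6 < v 15 := c143.2.2
  have c147 : v 6 < l 15 := c143.1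
  have c148 : r 0 < v 7 := c144.2.2
  have c149 : r 5 < v 15 := lt_trans c145 c146
  have c150 : v 6 < v 8 := lt_trans c147 c138
  have c151 : v 5 < l 15 := lt_trans c129 c147
  have c152 : l 8 < v 7 := lt_of_le_of_lt c27 c148
  have c153 : l 4 ≤ v 8 := le_of_lt (lt_of_le_of_lt c128 c150)
  have c154 : r 5 ≤ l 15 := not_lt.mp fun z => h.n5_15 c151 z c149
  have c155 : l 8 ≤ v 13 := le_of_lt (lt_of_lt_of_le c152 c141)
  have c156 : l 8 ≤ l 13 := le_of_lt (lt_of_lt_of_le c152 c140)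
  have c157 : S20 l v r := h.e20.resolve_right fun z => not_lt.mpr c153 z.1
  have c158 : r 5 ≤ v 8 := le_of_lt (lt_of_le_of_lt c154 c138)
  have c159 : v 4 < l 8 := c157.1
  have c160 : v 4 ≤ r 3 := le_of_lt (lt_of_lt_of_le c159 c12)
  have c161 : l 13 < v 3 := not_le.mp fun z => L254 h c159 c155 z c69 c71
  have c162 : v 5 ≤ r 3 := le_of_lt (lt_of_lt_of_le c43 c160)
  have c163 : l 8 ≤ v 3 := le_of_lt (lt_of_le_of_lt c156 c161)
  have c164 : ¬ S14 l v r := fun z => not_lt.mpr c162 z.2.2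
  have c165 : ¬ S15 l v r := fun z => not_lt.mpr c163 z.1
  have c166 : l 3 < r 5 := (h.e14.resolve_left c164).2.1
  have c167 : v 8 < l 3 := (h.e15.resolve_left c165).1
  not_lt.mpr c158 (lt_trans c167 c166)

theorem L315 {l v r : ℕ → ℝ} (h : H l v r) (a0 : v 9 < l 5) (a1 : r 1 < v 9) (a2 : ¬ S19 l v r) : False :=
  have c0 : l 5 ≤ r 5 := not_lt.mp fun z => L116 h z
  have c1 : l 5 ≤ v 5 := not_lt.mp fun z => L135 h z
  have c2 : l 1 ≤ r 1 := not_lt.mp fun z => L162 h z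
  have c3 : l 1 ≤ v 9 := le_of_lt (lt_of_le_of_lt c2 a1)
  have c4 : v 5 < l 4 := (h.e19.resolve_left a2).1
  have c5 : l 5 ≤ l 4 := le_of_lt (lt_of_le_of_lt c1 c4)
  have c6 : r 5 < v 4 := (h.e19.resolve_left a2).2.2
  have c7 : l 5 ≤ v 4 := le_of_lt (lt_of_le_of_lt c0 c6)
  have c8 : l 1 < l 5 := lt_of_le_of_lt c3 a0
  have c9 : r 1 < l 5 := lt_trans a1 a0
  have c10 : l 1 ≤ v 4 := le_of_lt (lt_of_lt_of_le c8 c7)
  have c11 : r 1 ≤ l 4 := le_of_lt (lt_of_lt_of_le c9 c5)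
  have c12 : S6 l v r := h.e6.resolve_right fun z => not_lt.mpr c10 z.1
  not_lt.mpr c11 c12.2.1

theorem L316 {l v r : ℕ → ℝ} (h : H l v r) (a0 : r 12 < l 17) : False :=
  have c0 : l 17 ≤ r 17 := not_lt.mp fun z => L158 h z
  have c1 : r 12 < r 17 := lt_of_lt_of_le a0 c0
  have c2 : r 12 ≤ l 17 := le_of_lt a0
  have c3 : v 12 ≤ r 17 := not_lt.mp fun z => L100 h c1 z
  have c4 : ¬ S40 l v r := fun z => not_lt.mpr c2 z.2.1
  not_lt.mpr c3 (h.e40.resolve_left c4).2.2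

theorem L317 {l v r : ℕ → ℝ} (h : H l v r) (a0 : v 13 ≤ l 17) : False :=
  have c0 : l 17 ≤ r 12 := not_lt.mp fun z => L316 h z
  have c1 : r 12 < v 13 := not_le.mp fun z => L81 h z
  not_lt.mpr (le_trans a0 c0) c1

theorem L318 {l v r : ℕ → ℝ} (h : H l v r) (a0 : v 13 < l 17) : False :=
  have c0 : l 17 ≤ r 12 := not_lt.mp fun z => L316 h z
  have c1 : r 12 < v 13 := not_le.mp fun z => L81 h z
  not_lt.mpr c0 (lt_trans c1 a0)

theorem L319 {l v r : ℕ → ℝ} (h : H l v r) (a0 : r 1 ≤ l 4) : False :=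
  have c0 : v 1 < r 1 := h.u1_1
  have c1 : v 1 < l 4 := lt_of_lt_of_le c0 a0
  have c2 : ¬ S6 l v r := fun z => not_lt.mpr a0 z.2.1
  have c3 : v 1 ≤ r 4 := not_lt.mp fun z => L37 h z c1
  not_lt.mpr c3 (h.e6.resolve_left c2).2.2

theorem L320 {l v r : ℕ → ℝ} (h : H l v r) (a0 : r 1 < l 4) : False :=
  have c0 : l 4 < r 1 := not_le.mp fun z => L319 h z
  lt_asymm a0 c0

theorem L321 {l v r : ℕ → ℝ} (h : H l v r) (a0 : l 1 ≤ v 9) (a1 : r 5 ≤ v 1) (a2 : l 5 ≤ l 1) : False :=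
  have c0 : S8 l v r := h.e8.resolve_right fun z => not_lt.mpr a0 z.1
  have c1 : l 5 ≤ v 9 := le_trans a2 a0
  have c2 : v 1 < l 9 := c0.1
  have c3 : S24 l v r := h.e24.resolve_right fun z => not_lt.mpr c1 z.1
  have c4 : r 5 ≤ l 9 := le_of_lt (lt_of_le_of_lt a1 c2)
  not_lt.mpr c4 c3.2.1

theorem L322 {l v r : ℕ → ℝ} (h : H l v r) (a0 : S20 l v r) (a1 : l 8 < r 10) (a2 : v 10 < v 4) (a3 : r 10 < r 4) : False :=
  have c0 : r 4 < v 8 := a0.2.2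
  have c1 : v 4 < l 8 := a0.1
  have c2 : r 10 < v 8 := lt_trans a3 c0
  have c3 : v 10 < l 8 := lt_trans a2 c1
  h.n10_8 c3 a1 c2

theorem L323 {l v r : ℕ → ℝ} (h : H l v r) (a0 : ¬ S6 l v r) (a1 : r 5 < v 4) (a2 : r 10 < v 9) : False :=
  have c0 : l 8 ≤ v 8 := not_lt.mp fun z => L110 h z
  have c1 : v 8 ≤ r 8 := not_lt.mp fun z => L40 h z
  have c2 : l 10 ≤ r 10 := not_lt.mp fun z => L52 h z
  have c3 : l 5 ≤ r 5 := not_lt.mp fun z => L116 h z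
  have c4 : v 5 ≤ r 5 := not_lt.mp fun z => L36 h z
  have c5 : l 12 ≤ r 4 := not_lt.mp fun z => L212 h z
  have c6 : r 12 ≤ r 13 := not_lt.mp fun z => L167 h z
  have c7 : r 12 ≤ v 13 := not_lt.mp fun z => L159 h z
  have c8 : l 1 ≤ r 1 := not_lt.mp fun z => L162 h z
  have c9 : l 4 ≤ r 15 := not_lt.mp fun z => L204 h z
  have c10 : r 5 ≤ r 4 := not_lt.mp fun z => L176 h z a1
  have c11 : v 5 ≤ v 4 := le_of_lt (lt_of_le_of_lt c4 a1)
  have c12 : l 5 ≤ v 4 := le_of_lt (lt_of_le_of_lt c3 a1)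
  have c13 : l 0 ≤ v 8 := not_lt.mp fun z => L305 h z a2
  have c14 : S1 l v r := h.e1.resolve_right fun z => not_lt.mpr c13 z.1
  have c15 : r 0 < v 8 := c14.2.2
  have c16 : l 10 ≤ v 9 := le_of_lt (lt_of_le_of_lt c2 a2)
  have c17 : ¬ S31 l v r := fun z => not_lt.mpr c16 z.1
  have c18 : v 10 < l 9 := (h.e31.resolve_left c17).1
  have c19 : v 10 ≤ l 9 := le_of_lt c18
  have c20 : l 0 ≤ v 9 := not_lt.mp fun z => L310 h z a2
  have c21 : S2 l v r := h.e2.resolve_right fun z => not_lt.mpr c20 z.1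
  have c22 : l 9 < r 0 := c21.2.1
  have c23 : v 10 < r 0 := lt_of_le_of_lt c19 c22
  have c24 : v 10 < v 8 := lt_trans c23 c15
  have c25 : v 0 < l 9 := c21.1
  have c26 : r 0 < v 9 := c21.2.2
  have c27 : l 8 < r 0 := c14.2.1
  have c28 : l 8 ≤ r 0 := le_of_lt c27
  have c29 : r 0 ≤ r 8 := le_of_lt (lt_of_lt_of_le c15 c1)
  have c30 : v 0 < l 8 := c14.1
  have c31 : v 0 ≤ v 8 := le_of_lt (lt_of_lt_of_le c30 c0)
  have c32 : l 10 < v 9 := not_le.mp fun z => L65 h a2 z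
  have c33 : l 1 < r 4 := (h.e6.resolve_left a0).2.1
  have c34 : v 4 < l 1 := (h.e6.resolve_left a0).1
  have c35 : r 4 < v 1 := (h.e6.resolve_left a0).2.2
  have c36 : v 4 ≤ l 1 := le_of_lt c34
  have c37 : l 5 ≤ l 1 := le_of_lt (lt_of_le_of_lt c12 c34)
  have c38 : v 5 ≤ l 1 := le_of_lt (lt_of_le_of_lt c11 c34)
  have c39 : l 12 ≤ v 1 := le_of_lt (lt_of_le_of_lt c5 c35)
  have c40 : r 5 ≤ v 1 := le_of_lt (lt_of_le_of_lt c10 c35)
  have c41 : ¬ S10 l v r := fun z => not_lt.mpr c39 z.1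
  have c42 : l 1 < r 12 := (h.e10.resolve_left c41).2.1
  have c43 : l 1 < r 13 := lt_of_lt_of_le c42 c6
  have c44 : l 1 < v 13 := lt_of_lt_of_le c42 c7
  have c45 : l 1 ≤ v 13 := le_of_lt (lt_of_lt_of_le c42 c7)
  have c46 : v 4 ≤ r 13 := le_of_lt (lt_of_le_of_lt c36 c43)
  have c47 : S21 l v r := h.e21.resolve_right fun z => not_lt.mpr c46 z.2.2
  have c48 : v 4 < l 13 := c47.1
  have c49 : l 4 ≤ l 13 := not_lt.mp fun z => L21 h c48 z
  have c50 : r 5 < l 13 := lt_trans a1 c48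
  have c51 : v 9 < l 1 := not_le.mp fun z => L321 h z c40 c37
  have c52 : r 10 < l 1 := lt_trans a2 c51
  have c53 : v 9 ≤ r 1 := le_of_lt (lt_of_lt_of_le c51 c8)
  have c54 : l 10 < l 1 := lt_trans c32 c51
  have c55 : r 0 < l 1 := lt_trans c26 c51
  have c56 : r 10 < r 4 := lt_trans c52 c33
  have c57 : ¬ S8 l v r := fun z => not_lt.mpr c53 z.2.2
  have c58 : l 10 ≤ v 13 := le_of_lt (lt_of_lt_of_le c54 c45)
  have c59 : r 0 < v 13 := lt_trans c55 c44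
  have c60 : l 1 < r 9 := (h.e8.resolve_left c57).2.1
  have c61 : S33 l v r := h.e33.resolve_right fun z => not_lt.mpr c58 z.1
  have c62 : v 5 ≤ r 9 := le_of_lt (lt_of_le_of_lt c38 c60)
  have c63 : l 13 < r 10 := c61.2.1
  have c64 : S24 l v r := h.e24.resolve_right fun z => not_lt.mpr c62 z.2.2
  have c65 : l 4 ≤ r 10 := le_of_lt (lt_of_le_of_lt c49 c63)
  have c66 : l 9 < r 5 := c64.2.1
  have c67 : v 10 ≤ r 5 := le_of_lt (lt_of_le_of_lt c19 c66)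
  have c68 : v 0 < r 5 := lt_trans c25 c66
  have c69 : v 10 < v 4 := lt_of_le_of_lt c67 a1
  have c70 : v 0 < l 13 := lt_trans c68 c50
  have c71 : r 0 ≤ l 13 := not_lt.mp fun z => h.n0_13 c70 z c59
  have c72 : l 8 ≤ l 13 := le_trans c28 c71
  have c73 : l 8 < r 10 := lt_of_le_of_lt c72 c63
  have c74 : ¬ S20 l v r := fun z => L322 h z c73 c69 c56
  have c75 : r 8 < v 4 := (h.e20.resolve_left c74).2.2
  have c76 : v 8 < l 4 := (h.e20.resolve_left c74).1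
  have c77 : r 0 ≤ v 4 := le_of_lt (lt_of_le_of_lt c29 c75)
  have c78 : v 8 ≤ r 15 := le_of_lt (lt_of_lt_of_le c76 c9)
  have c79 : v 0 ≤ r 15 := le_trans c31 c78
  have c80 : v 10 ≤ r 15 := le_of_lt (lt_of_lt_of_le c24 c78)
  have c81 : S4 l v r := h.e4.resolve_right fun z => not_lt.mpr c79 z.2.2
  have c82 : S34 l v r := h.e34.resolve_right fun z => not_lt.mpr c80 z.2.2
  have c83 : l 15 < r 0 := c81.2.1
  have c84 : r 10 < v 15 := c82.2.2
  have c85 : l 15 ≤ v 4 := le_of_lt (lt_of_lt_of_le c83 c77)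
  have c86 : l 4 ≤ v 15 := le_of_lt (lt_of_le_of_lt c65 c84)
  have c87 : ¬ S22 l v r := fun z => not_lt.mpr c85 z.1
  not_lt.mpr c86 (h.e22.resolve_left c87).1

theorem L324 {l v r : ℕ → ℝ} (h : H l v r) (a0 : ¬ S24 l v r) (a1 : l 8 ≤ r 10) (a2 : l 10 ≤ r 5) (a3 : l 5 ≤ r 8) (a4 : r 10 < v 9) : False :=
  have c0 : v 9 ≤ r 9 := not_lt.mp fun z => L48 h z
  have c1 : v 10 ≤ v 9 := not_lt.mp fun z => L105 h a4 z
  have c2 : r 10 ≤ r 9 := le_of_lt (lt_of_lt_of_le a4 c0)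
  have c3 : v 9 < l 5 := (h.e24.resolve_left a0).1
  have c4 : r 9 < v 5 := (h.e24.resolve_left a0).2.2
  have c5 : v 10 ≤ l 5 := le_of_lt (lt_of_le_of_lt c1 c3)
  have c6 : r 10 ≤ v 5 := le_of_lt (lt_of_le_of_lt c2 c4)
  have c7 : ¬ S14 l v r := fun z => L241 h z a1 a3 c5
  L242 h c7 a2 c6

theorem L325 {l v r : ℕ → ℝ} (h : H l v r) (a0 : l 8 ≤ l 13) (a1 : ¬ S20 l v r) (a2 : ¬ S19 l v r) (a3 : r 10 < v 9) : False :=
  have c0 : l 5 ≤ v 5 := not_lt.mp fun z => L135 h z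
  have c1 : l 4 ≤ r 8 := not_lt.mp fun z => L199 h z
  have c2 : l 1 ≤ v 1 := not_lt.mp fun z => L161 h z
  have c3 : l 8 ≤ v 8 := not_lt.mp fun z => L110 h z
  have c4 : l 4 ≤ r 15 := not_lt.mp fun z => L204 h z
  have c5 : v 8 ≤ r 8 := not_lt.mp fun z => L40 h z
  have c6 : l 10 ≤ r 10 := not_lt.mp fun z => L52 h z
  have c7 : v 12 ≤ l 13 := not_lt.mp fun z => L143 h z
  have c8 : l 4 < r 1 := not_le.mp fun z => L319 h z
  have c9 : l 1 < r 11 := not_le.mp fun z => L185 h z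
  have c10 : l 13 < r 12 := not_le.mp fun z => L83 h z
  have c11 : l 17 ≤ r 12 := not_lt.mp fun z => L316 h z
  have c12 : l 1 < v 1 := h.u1_0
  have c13 : l 0 ≤ v 8 := not_lt.mp fun z => L305 h z a3
  have c14 : S1 l v r := h.e1.resolve_right fun z => not_lt.mpr c13 z.1
  have c15 : r 0 < v 8 := c14.2.2
  have c16 : r 0 ≤ v 8 := le_of_lt c15
  have c17 : l 10 ≤ v 9 := le_of_lt (lt_of_le_of_lt c6 a3)
  have c18 : ¬ S31 l v r := fun z => not_lt.mpr c17 z.1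
  have c19 : v 10 < l 9 := (h.e31.resolve_left c18).1
  have c20 : v 10 ≤ l 9 := le_of_lt c19
  have c21 : l 0 ≤ v 9 := not_lt.mp fun z => L310 h z a3
  have c22 : S2 l v r := h.e2.resolve_right fun z => not_lt.mpr c21 z.1
  have c23 : l 9 < r 0 := c22.2.1
  have c24 : v 10 < r 0 := lt_of_le_of_lt c20 c23
  have c25 : v 10 ≤ v 8 := le_of_lt (lt_of_lt_of_le c24 c16)
  have c26 : r 0 ≤ r 8 := le_of_lt (lt_of_lt_of_le c15 c5)
  have c27 : l 10 ≤ l 9 := not_lt.mp fun z => L54 h c19 z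
  have c28 : l 10 ≤ r 0 := le_of_lt (lt_of_le_of_lt c27 c23)
  have c29 : l 10 ≤ r 8 := le_trans c28 c26
  have c30 : r 8 < v 4 := (h.e20.resolve_left a1).2.2
  have c31 : r 8 < r 4 := not_le.mp fun z => L103 h c30 z
  have c32 : l 10 ≤ r 4 := le_of_lt (lt_of_le_of_lt c29 c31)
  have c33 : v 10 ≤ r 8 := le_of_lt (lt_of_lt_of_le c24 c26)
  have c34 : v 10 ≤ v 4 := le_of_lt (lt_of_le_of_lt c33 c30)
  have c35 : S33 l v r := Classical.byContradiction fun z => L313 h z c34 c32 c25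
  have c36 : l 13 < r 10 := c35.2.1
  have c37 : v 12 ≤ r 10 := le_of_lt (lt_of_le_of_lt c7 c36)
  have c38 : v 10 < v 8 := lt_trans c24 c15
  have c39 : v 8 < l 4 := (h.e20.resolve_left a1).1
  have c40 : v 8 ≤ r 15 := le_of_lt (lt_of_lt_of_le c39 c4)
  have c41 : v 10 ≤ r 15 := le_of_lt (lt_of_lt_of_le c38 c40)
  have c42 : S34 l v r := h.e34.resolve_right fun z => not_lt.mpr c41 z.2.2
  have c43 : r 10 < v 15 := c42.2.2
  have c44 : v 12 ≤ v 15 := le_of_lt (lt_of_le_of_lt c37 c43)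
  have c45 : r 0 ≤ v 4 := le_of_lt (lt_of_le_of_lt c26 c30)
  have c46 : v 0 < l 8 := c14.1
  have c47 : v 0 ≤ v 8 := le_of_lt (lt_of_lt_of_le c46 c3)
  have c48 : v 0 ≤ r 15 := le_trans c47 c40
  have c49 : S4 l v r := h.e4.resolve_right fun z => not_lt.mpr c48 z.2.2
  have c50 : l 15 < r 0 := c49.2.1
  have c51 : l 15 ≤ v 4 := le_of_lt (lt_of_lt_of_le c50 c45)
  have c52 : ¬ S22 l v r := fun z => not_lt.mpr c51 z.1
  have c53 : v 15 < l 4 := (h.e22.resolve_left c52).1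
  have c54 : v 12 ≤ l 4 := le_of_lt (lt_of_le_of_lt c44 c53)
  have c55 : v 12 ≤ r 1 := le_of_lt (lt_of_le_of_lt c54 c8)
  have c56 : ¬ S10 l v r := fun z => not_lt.mpr c55 z.2.2
  have c57 : v 12 < l 1 := (h.e10.resolve_left c56).1
  have c58 : v 12 < r 11 := lt_trans c57 c9
  have c59 : r 12 < v 1 := (h.e10.resolve_left c56).2.2
  have c60 : l 13 ≤ r 10 := le_of_lt c36
  have c61 : l 10 ≤ v 8 := le_of_lt (lt_of_le_of_lt c28 c15)
  have c62 : l 4 < r 5 := (h.e19.resolve_left a2).2.1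
  have c63 : v 8 < r 5 := lt_trans c39 c62
  have c64 : l 10 ≤ r 5 := le_of_lt (lt_of_le_of_lt c61 c63)
  have c65 : r 5 < v 4 := (h.e19.resolve_left a2).2.2
  have c66 : S6 l v r := Classical.byContradiction fun z => L323 h z c65 a3
  have c67 : v 1 < l 4 := c66.1
  have c68 : l 1 ≤ l 4 := le_of_lt (lt_of_le_of_lt c2 c67)
  have c69 : l 1 ≤ r 5 := le_of_lt (lt_of_le_of_lt c68 c62)
  have c70 : v 5 < l 4 := (h.e19.resolve_left a2).1
  have c71 : l 5 < l 4 := lt_of_le_of_lt c0 c70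
  have c72 : l 5 ≤ r 8 := le_of_lt (lt_of_lt_of_le c71 c1)
  have c73 : l 9 < v 8 := lt_trans c23 c15
  have c74 : l 9 ≤ r 0 := le_of_lt c23
  have c75 : v 0 ≤ l 8 := le_of_lt c46
  have c76 : l 8 < r 12 := lt_of_le_of_lt a0 c10
  have c77 : l 8 ≤ r 10 := le_trans a0 c60
  have c78 : S24 l v r := Classical.byContradiction fun z => L324 h z c77 c64 c72 a3
  have c79 : r 5 < v 9 := c78.2.2
  have c80 : l 1 ≤ v 9 := le_of_lt (lt_of_le_of_lt c69 c79)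
  have c81 : S8 l v r := h.e8.resolve_right fun z => not_lt.mpr c80 z.1
  have c82 : v 1 < l 9 := c81.1
  have c83 : ¬ S9 l v r := fun z => L314 h c78 c11 z c81 a2 a3
  have c84 : l 1 < l 9 := lt_trans c12 c82
  have c85 : v 1 < v 8 := lt_trans c82 c73
  have c86 : v 11 < l 1 := (h.e9.resolve_left c83).1
  have c87 : l 1 ≤ r 0 := le_of_lt (lt_of_lt_of_le c84 c74)
  have c88 : r 12 < v 8 := lt_trans c59 c85
  have c89 : v 11 ≤ r 0 := le_of_lt (lt_of_lt_of_le c86 c87)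
  have c90 : l 8 ≤ v 12 := not_lt.mp fun z => h.n12_8 z c76 c88
  have c91 : ¬ S3 l v r := fun z => not_lt.mpr c89 z.2.2
  have c92 : l 8 < r 11 := lt_of_le_of_lt c90 c58
  have c93 : r 11 < v 0 := (h.e3.resolve_left c91).2.2
  not_lt.mpr c75 (lt_trans c92 c93)

theorem L326 {l v r : ℕ → ℝ} (h : H l v r) (a0 : S24 l v r) (a1 : l 9 ≤ r 3) (a2 : l 3 ≤ v 1) (a3 : l 8 ≤ r 5) (a4 : l 1 ≤ r 5) (a5 : l 9 < v 8) : False :=
  have c0 : r 5 < v 9 := a0.2.2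
  have c1 : v 5 < l 9 := a0.1
  have c2 : l 1 ≤ v 9 := le_of_lt (lt_of_le_of_lt a4 c0)
  have c3 : v 5 ≤ r 3 := le_of_lt (lt_of_lt_of_le c1 a1)
  have c4 : S8 l v r := h.e8.resolve_right fun z => not_lt.mpr c2 z.1
  have c5 : ¬ S14 l v r := fun z => not_lt.mpr c3 z.2.2
  have c6 : v 1 < l 9 := c4.1
  have c7 : r 5 < v 3 := (h.e14.resolve_left c5).2.2
  have c8 : v 1 < v 8 := lt_trans c6 a5
  have c9 : l 8 ≤ v 3 := le_of_lt (lt_of_le_of_lt a3 c7)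
  have c10 : l 3 ≤ v 8 := le_of_lt (lt_of_le_of_lt a2 c8)
  have c11 : ¬ S15 l v r := fun z => not_lt.mpr c9 z.1
  not_lt.mpr c10 (h.e15.resolve_left c11).1

theorem L327 {l v r : ℕ → ℝ} (h : H l v r) (a0 : ¬ S20 l v r) (a1 : ¬ S19 l v r) (a2 : r 10 < v 9) : False :=
  have c0 : l 10 ≤ r 10 := not_lt.mp fun z => L52 h z
  have c1 : v 8 ≤ r 8 := not_lt.mp fun z => L40 h z
  have c2 : l 4 ≤ r 8 := not_lt.mp fun z => L199 h z
  have c3 : l 5 ≤ v 5 := not_lt.mp fun z => L135 h z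
  have c4 : l 1 ≤ v 1 := not_lt.mp fun z => L161 h z
  have c5 : l 4 ≤ r 15 := not_lt.mp fun z => L204 h z
  have c6 : l 4 < r 1 := not_le.mp fun z => L319 h z
  have c7 : v 12 ≤ l 13 := not_lt.mp fun z => L143 h z
  have c8 : l 8 < r 3 := not_le.mp fun z => L216 h z
  have c9 : l 8 ≤ r 3 := not_lt.mp fun z => L217 h z
  have c10 : v 3 ≤ r 3 := not_lt.mp fun z => L177 h z
  have c11 : l 8 ≤ v 8 := not_lt.mp fun z => L110 h z
  have c12 : l 4 < r 5 := (h.e19.resolve_left a1).2.1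
  have c13 : r 5 < v 4 := (h.e19.resolve_left a1).2.2
  have c14 : S6 l v r := Classical.byContradiction fun z => L323 h z c13 a2
  have c15 : v 1 < l 4 := c14.1
  have c16 : l 1 ≤ l 4 := le_of_lt (lt_of_le_of_lt c4 c15)
  have c17 : l 1 ≤ r 5 := le_of_lt (lt_of_le_of_lt c16 c12)
  have c18 : v 5 < l 4 := (h.e19.resolve_left a1).1
  have c19 : l 5 ≤ l 4 := le_of_lt (lt_of_le_of_lt c3 c18)
  have c20 : l 5 ≤ r 1 := le_of_lt (lt_of_le_of_lt c19 c6)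
  have c21 : l 5 < l 4 := lt_of_le_of_lt c3 c18
  have c22 : l 5 ≤ r 8 := le_of_lt (lt_of_lt_of_le c21 c2)
  have c23 : l 4 ≤ r 5 := le_of_lt c12
  have c24 : l 0 ≤ v 8 := not_lt.mp fun z => L305 h z a2
  have c25 : S1 l v r := h.e1.resolve_right fun z => not_lt.mpr c24 z.1
  have c26 : r 0 < v 8 := c25.2.2
  have c27 : r 0 ≤ r 8 := le_of_lt (lt_of_lt_of_le c26 c1)
  have c28 : l 10 ≤ v 9 := le_of_lt (lt_of_le_of_lt c0 a2)
  have c29 : ¬ S31 l v r := fun z => not_lt.mpr c28 z.1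
  have c30 : v 10 < l 9 := (h.e31.resolve_left c29).1
  have c31 : l 10 ≤ l 9 := not_lt.mp fun z => L54 h c30 z
  have c32 : l 0 ≤ v 9 := not_lt.mp fun z => L310 h z a2
  have c33 : S2 l v r := h.e2.resolve_right fun z => not_lt.mpr c32 z.1
  have c34 : l 9 < r 0 := c33.2.1
  have c35 : l 10 ≤ r 0 := le_of_lt (lt_of_le_of_lt c31 c34)
  have c36 : l 10 ≤ r 8 := le_trans c35 c27
  have c37 : l 10 ≤ v 8 := le_of_lt (lt_of_le_of_lt c35 c26)
  have c38 : r 0 ≤ v 8 := le_of_lt c26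
  have c39 : v 10 ≤ l 9 := le_of_lt c30
  have c40 : v 10 < r 0 := lt_of_le_of_lt c39 c34
  have c41 : v 10 ≤ v 8 := le_of_lt (lt_of_lt_of_le c40 c38)
  have c42 : v 10 ≤ r 8 := le_of_lt (lt_of_lt_of_le c40 c27)
  have c43 : v 10 < v 8 := lt_trans c40 c26
  have c44 : l 9 < v 8 := lt_trans c34 c26
  have c45 : l 8 < r 0 := c25.2.1
  have c46 : r 0 < v 9 := c33.2.2
  have c47 : l 8 < v 9 := lt_trans c45 c46
  have c48 : v 0 < l 8 := c25.1
  have c49 : v 0 ≤ v 8 := le_of_lt (lt_of_lt_of_le c48 c11)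
  have c50 : l 9 < r 10 := (h.e31.resolve_left c29).2.1
  have c51 : r 8 < v 4 := (h.e20.resolve_left a0).2.2
  have c52 : v 8 < l 4 := (h.e20.resolve_left a0).1
  have c53 : r 8 < r 4 := not_le.mp fun z => L103 h c51 z
  have c54 : r 0 ≤ v 4 := le_of_lt (lt_of_le_of_lt c27 c51)
  have c55 : v 10 ≤ v 4 := le_of_lt (lt_of_le_of_lt c42 c51)
  have c56 : v 8 ≤ r 15 := le_of_lt (lt_of_lt_of_le c52 c5)
  have c57 : l 8 < l 4 := lt_of_le_of_lt c11 c52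
  have c58 : v 8 < r 5 := lt_trans c52 c12
  have c59 : l 10 ≤ r 4 := le_of_lt (lt_of_le_of_lt c36 c53)
  have c60 : S33 l v r := Classical.byContradiction fun z => L313 h z c55 c59 c41
  have c61 : v 0 ≤ r 15 := le_trans c49 c56
  have c62 : v 10 ≤ r 15 := le_of_lt (lt_of_lt_of_le c43 c56)
  have c63 : l 8 ≤ r 5 := le_of_lt (lt_of_lt_of_le c57 c23)
  have c64 : l 10 ≤ r 5 := le_of_lt (lt_of_le_of_lt c37 c58)
  have c65 : v 10 < l 13 := c60.1
  have c66 : l 13 < r 10 := c60.2.1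
  have c67 : S4 l v r := h.e4.resolve_right fun z => not_lt.mpr c61 z.2.2
  have c68 : S34 l v r := h.e34.resolve_right fun z => not_lt.mpr c62 z.2.2
  have c69 : v 12 ≤ r 10 := le_of_lt (lt_of_le_of_lt c7 c66)
  have c70 : l 15 < r 0 := c67.2.1
  have c71 : r 10 < v 15 := c68.2.2
  have c72 : l 15 ≤ v 4 := le_of_lt (lt_of_lt_of_le c70 c54)
  have c73 : v 12 ≤ v 15 := le_of_lt (lt_of_le_of_lt c69 c71)
  have c74 : ¬ S22 l v r := fun z => not_lt.mpr c72 z.1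
  have c75 : v 15 < l 4 := (h.e22.resolve_left c74).1
  have c76 : v 12 ≤ l 4 := le_of_lt (lt_of_le_of_lt c73 c75)
  have c77 : v 12 ≤ r 1 := le_of_lt (lt_of_le_of_lt c76 c6)
  have c78 : ¬ S10 l v r := fun z => not_lt.mpr c77 z.2.2
  have c79 : l 1 < r 12 := (h.e10.resolve_left c78).2.1
  have c80 : r 12 < v 1 := (h.e10.resolve_left c78).2.2
  have c81 : l 1 ≤ r 12 := le_of_lt c79
  have c82 : r 12 ≤ v 1 := le_of_lt c80
  have c83 : l 13 < l 8 := not_le.mp fun z => L325 h z a0 a1 a2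
  have c84 : v 12 ≤ l 8 := le_of_lt (lt_of_le_of_lt c7 c83)
  have c85 : v 10 < l 8 := lt_trans c65 c83
  have c86 : v 12 ≤ r 3 := le_of_lt (lt_of_le_of_lt c84 c8)
  have c87 : v 10 ≤ r 3 := le_of_lt (lt_of_lt_of_le c85 c9)
  have c88 : ¬ S17 l v r := fun z => not_lt.mpr c86 z.2.2
  have c89 : ¬ S16 l v r := fun z => not_lt.mpr c87 z.2.2
  have c90 : l 3 < r 12 := (h.e17.resolve_left c88).2.1
  have c91 : r 12 < v 3 := (h.e17.resolve_left c88).2.2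
  have c92 : r 10 < v 3 := (h.e16.resolve_left c89).2.2
  have c93 : l 3 < r 10 := (h.e16.resolve_left c89).2.1
  have c94 : l 3 ≤ v 1 := le_of_lt (lt_of_lt_of_le c90 c82)
  have c95 : l 1 ≤ v 3 := le_of_lt (lt_of_le_of_lt c81 c91)
  have c96 : r 10 ≤ r 3 := le_of_lt (lt_of_lt_of_le c92 c10)
  have c97 : l 9 ≤ r 3 := le_of_lt (lt_of_lt_of_le c50 c96)
  have c98 : ¬ S24 l v r := fun z => L326 h z c97 c94 c63 c17 c44
  have c99 : v 9 < l 5 := (h.e24.resolve_left c98).1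
  have c100 : r 10 < l 8 := not_le.mp fun z => L324 h c98 z c64 c22 a2
  have c101 : v 9 ≤ r 1 := le_of_lt (lt_of_lt_of_le c99 c20)
  have c102 : r 10 ≤ v 8 := le_of_lt (lt_of_lt_of_le c100 c11)
  have c103 : ¬ S8 l v r := fun z => not_lt.mpr c101 z.2.2
  have c104 : l 3 ≤ v 8 := le_of_lt (lt_of_lt_of_le c93 c102)
  have c105 : v 9 < l 1 := (h.e8.resolve_left c103).1
  have c106 : S15 l v r := h.e15.resolve_right fun z => not_lt.mpr c104 z.1
  have c107 : l 8 < l 1 := lt_trans c47 c105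
  have c108 : v 3 < l 8 := c106.1
  not_lt.mpr c95 (lt_trans c108 c107)

theorem L328 {l v r : ℕ → ℝ} (h : H l v r) (a0 : r 12 ≤ v 1) (a1 : r 10 ≤ r 13) (a2 : v 10 ≤ r 12) (a3 : l 4 ≤ r 0) (a4 : v 1 < v 4) (a5 : v 1 < r 15) (a6 : l 0 ≤ r 10) : False :=
  have c0 : l 13 ≤ r 12 := not_lt.mp fun z => L88 h z
  have c1 : l 13 ≤ v 1 := le_trans c0 a0
  have c2 : r 12 ≤ r 15 := le_of_lt (lt_of_le_of_lt a0 a5)
  have c3 : l 13 ≤ v 4 := le_of_lt (lt_of_le_of_lt c1 a4)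
  have c4 : v 10 ≤ r 15 := le_trans a2 c2
  have c5 : ¬ S21 l v r := fun z => not_lt.mpr c3 z.1
  have c6 : S34 l v r := h.e34.resolve_right fun z => not_lt.mpr c4 z.2.2
  have c7 : r 13 < v 4 := (h.e21.resolve_left c5).2.2
  have c8 : l 15 < r 10 := c6.2.1
  have c9 : r 10 < v 15 := c6.2.2
  have c10 : r 10 ≤ v 4 := le_of_lt (lt_of_le_of_lt a1 c7)
  have c11 : l 15 ≤ v 4 := le_of_lt (lt_of_lt_of_le c8 c10)
  have c12 : l 0 ≤ v 15 := le_of_lt (lt_of_le_of_lt a6 c9)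
  have c13 : ¬ S22 l v r := fun z => not_lt.mpr c11 z.1
  have c14 : S4 l v r := h.e4.resolve_right fun z => not_lt.mpr c12 z.1
  have c15 : v 15 < l 4 := (h.e22.resolve_left c13).1
  have c16 : r 0 < v 15 := c14.2.2
  not_lt.mpr a3 (lt_trans c16 c15)

theorem L329 {l v r : ℕ → ℝ} (h : H l v r) (a0 : ¬ S19 l v r) (a1 : r 10 < v 9) : False :=
  have c0 : v 9 ≤ r 9 := not_lt.mp fun z => L48 h z
  have c1 : l 10 ≤ r 10 := not_lt.mp fun z => L52 h z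
  have c2 : v 5 ≤ r 5 := not_lt.mp fun z => L36 h z
  have c3 : l 4 ≤ r 15 := not_lt.mp fun z => L204 h z
  have c4 : l 8 ≤ r 3 := not_lt.mp fun z => L217 h z
  have c5 : l 3 ≤ r 13 := not_lt.mp fun z => L182 h z
  have c6 : v 13 ≤ r 13 := not_lt.mp fun z => L168 h z
  have c7 : v 12 < l 13 := not_le.mp fun z => L82 h z
  have c8 : v 12 < v 13 := not_le.mp fun z => L86 h z
  have c9 : l 4 ≤ r 1 := not_lt.mp fun z => L320 h z
  have c10 : l 0 ≤ v 8 := not_lt.mp fun z => L305 h z a1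
  have c11 : S1 l v r := h.e1.resolve_right fun z => not_lt.mpr c10 z.1
  have c12 : r 0 < v 8 := c11.2.2
  have c13 : r 0 ≤ v 8 := le_of_lt c12
  have c14 : l 10 ≤ v 9 := le_of_lt (lt_of_le_of_lt c1 a1)
  have c15 : ¬ S31 l v r := fun z => not_lt.mpr c14 z.1
  have c16 : v 10 < l 9 := (h.e31.resolve_left c15).1
  have c17 : v 10 ≤ l 9 := le_of_lt c16
  have c18 : l 0 ≤ v 9 := not_lt.mp fun z => L310 h z a1
  have c19 : S2 l v r := h.e2.resolve_right fun z => not_lt.mpr c18 z.1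
  have c20 : l 9 < r 0 := c19.2.1
  have c21 : v 10 < r 0 := lt_of_le_of_lt c17 c20
  have c22 : v 10 ≤ v 8 := le_of_lt (lt_of_lt_of_le c21 c13)
  have c23 : l 9 < r 10 := (h.e31.resolve_left c15).2.1
  have c24 : l 9 ≤ r 10 := le_of_lt c23
  have c25 : v 0 < l 9 := c19.1
  have c26 : v 0 < r 10 := lt_of_lt_of_le c25 c24
  have c27 : l 0 ≤ r 10 := not_lt.mp fun z => L66 h c26 z
  have c28 : l 8 < r 0 := c11.2.1
  have c29 : r 0 < v 9 := c19.2.2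
  have c30 : r 0 < r 9 := lt_of_lt_of_le c29 c0
  have c31 : l 8 < r 9 := lt_trans c28 c30
  have c32 : v 0 ≤ l 9 := le_of_lt c25
  have c33 : l 8 ≤ r 0 := le_of_lt c28
  have c34 : l 10 ≤ l 9 := not_lt.mp fun z => L54 h c16 z
  have c35 : r 5 < v 4 := (h.e19.resolve_left a0).2.2
  have c36 : v 5 < v 4 := lt_of_le_of_lt c2 c35
  have c37 : v 5 ≤ v 4 := le_of_lt (lt_of_le_of_lt c2 c35)
  have c38 : r 5 < r 4 := not_le.mp fun z => L80 h c35 z
  have c39 : r 5 ≤ r 4 := not_lt.mp fun z => L176 h z c35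
  have c40 : S6 l v r := Classical.byContradiction fun z => L323 h z c35 a1
  have c41 : v 1 < l 4 := c40.1
  have c42 : v 1 < r 15 := lt_of_lt_of_le c41 c3
  have c43 : v 1 < v 4 := not_le.mp fun z => L57 h c41 z
  have c44 : v 1 ≤ v 4 := not_lt.mp fun z => L76 h z c41
  have c45 : S20 l v r := Classical.byContradiction fun z => L327 h z a0 a1
  have c46 : r 4 < v 8 := c45.2.2
  have c47 : v 4 < l 8 := c45.1
  have c48 : r 5 ≤ v 8 := le_of_lt (lt_of_le_of_lt c39 c46)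
  have c49 : l 4 < l 8 := not_le.mp fun z => L12 h c47 z
  have c50 : v 4 ≤ r 3 := le_of_lt (lt_of_lt_of_le c47 c4)
  have c51 : v 4 < r 9 := lt_trans c47 c31
  have c52 : l 4 ≤ r 0 := le_of_lt (lt_of_lt_of_le c49 c33)
  have c53 : v 5 ≤ r 3 := le_of_lt (lt_of_lt_of_le c36 c50)
  have c54 : v 5 ≤ r 9 := le_of_lt (lt_of_le_of_lt c37 c51)
  have c55 : v 1 ≤ r 9 := le_of_lt (lt_of_le_of_lt c44 c51)
  have c56 : ¬ S14 l v r := fun z => not_lt.mpr c53 z.2.2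
  have c57 : S24 l v r := h.e24.resolve_right fun z => not_lt.mpr c54 z.2.2
  have c58 : S8 l v r := h.e8.resolve_right fun z => not_lt.mpr c55 z.2.2
  have c59 : v 5 < l 3 := (h.e14.resolve_left c56).1
  have c60 : r 5 < v 3 := (h.e14.resolve_left c56).2.2
  have c61 : l 3 < r 5 := (h.e14.resolve_left c56).2.1
  have c62 : l 9 < r 5 := c57.2.1
  have c63 : l 9 < r 1 := c58.2.1
  have c64 : v 5 < r 13 := lt_of_lt_of_le c59 c5
  have c65 : r 5 ≤ v 3 := le_of_lt c60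
  have c66 : l 3 ≤ v 8 := le_of_lt (lt_of_lt_of_le c61 c48)
  have c67 : l 10 ≤ r 5 := le_of_lt (lt_of_le_of_lt c34 c62)
  have c68 : v 10 ≤ r 5 := le_of_lt (lt_of_le_of_lt c17 c62)
  have c69 : v 0 ≤ r 1 := le_of_lt (lt_of_le_of_lt c32 c63)
  have c70 : l 5 ≤ r 13 := not_lt.mp fun z => L175 h c64 z
  have c71 : l 10 ≤ v 3 := le_trans c67 c65
  have c72 : S15 l v r := h.e15.resolve_right fun z => not_lt.mpr c66 z.1
  have c73 : l 10 ≤ r 4 := le_of_lt (lt_of_le_of_lt c67 c38)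
  have c74 : v 10 ≤ v 4 := le_of_lt (lt_of_le_of_lt c68 c35)
  have c75 : ¬ S16 l v r := fun z => not_lt.mpr c71 z.1
  have c76 : v 3 < l 8 := c72.1
  have c77 : S33 l v r := Classical.byContradiction fun z => L313 h z c74 c73 c22
  have c78 : r 10 < v 3 := (h.e16.resolve_left c75).2.2
  have c79 : v 3 ≤ r 0 := le_of_lt (lt_of_lt_of_le c76 c33)
  have c80 : v 10 < l 13 := c77.1
  have c81 : l 13 < r 10 := c77.2.1
  have c82 : r 10 < v 13 := c77.2.2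
  have c83 : l 13 < v 3 := lt_trans c81 c78
  have c84 : v 10 ≤ r 12 := not_lt.mp fun z => L146 h z c80
  have c85 : r 10 ≤ r 13 := le_of_lt (lt_of_lt_of_le c82 c6)
  have c86 : l 13 ≤ r 0 := le_of_lt (lt_of_lt_of_le c83 c79)
  have c87 : v 1 < r 12 := not_le.mp fun z => L328 h z c85 c84 c52 c43 c42 c27
  have c88 : v 1 ≤ r 12 := le_of_lt c87
  have c89 : S10 l v r := h.e10.resolve_right fun z => not_lt.mpr c88 z.2.2
  have c90 : r 1 < v 12 := c89.2.2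
  have c91 : r 1 < l 13 := lt_trans c90 c7
  have c92 : r 1 < v 13 := lt_trans c90 c8
  have c93 : v 0 ≤ l 13 := le_of_lt (lt_of_le_of_lt c69 c91)
  have c94 : l 4 ≤ v 13 := le_of_lt (lt_of_le_of_lt c9 c92)
  have c95 : S21 l v r := h.e21.resolve_right fun z => not_lt.mpr c94 z.1
  have c96 : r 4 < v 13 := c95.2.2
  have c97 : r 5 ≤ v 13 := le_of_lt (lt_of_le_of_lt c39 c96)
  have c98 : S29 l v r := Classical.byContradiction fun z => L290 h z c97 c70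
  have c99 : l 13 < r 7 := c98.2.1
  have c100 : v 7 < l 13 := c98.1
  have c101 : v 0 ≤ r 7 := le_of_lt (lt_of_le_of_lt c93 c99)
  have c102 : v 7 ≤ r 0 := le_of_lt (lt_of_lt_of_le c100 c86)
  have c103 : S0 l v r := h.e0.resolve_right fun z => not_lt.mpr c101 z.2.2
  not_lt.mpr c102 c103.2.2

theorem L330 {l v r : ℕ → ℝ} (h : H l v r) (a0 : l 13 < r 10) (a1 : S10 l v r) (a2 : r 10 < v 9) : False :=
  have c0 : l 8 ≤ v 8 := not_lt.mp fun z => L110 h z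
  have c1 : v 8 ≤ r 8 := not_lt.mp fun z => L40 h z
  have c2 : l 10 ≤ r 10 := not_lt.mp fun z => L52 h z
  have c3 : v 12 ≤ r 4 := not_lt.mp fun z => L210 h z
  have c4 : l 1 ≤ r 1 := not_lt.mp fun z => L162 h z
  have c5 : v 12 ≤ l 13 := not_lt.mp fun z => L143 h z
  have c6 : v 12 < l 13 := not_le.mp fun z => L82 h z
  have c7 : l 12 ≤ r 4 := not_lt.mp fun z => L212 h z
  have c8 : v 12 < v 13 := not_le.mp fun z => L86 h z
  have c9 : l 4 ≤ r 1 := not_lt.mp fun z => L320 h z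
  have c10 : l 4 ≤ r 15 := not_lt.mp fun z => L204 h z
  have c11 : S19 l v r := Classical.byContradiction fun z => L329 h z a2
  have c12 : l 5 < r 4 := c11.2.1
  have c13 : r 1 < v 12 := a1.2.2
  have c14 : r 1 < v 13 := lt_trans c13 c8
  have c15 : l 4 ≤ v 13 := le_of_lt (lt_of_le_of_lt c9 c14)
  have c16 : S21 l v r := h.e21.resolve_right fun z => not_lt.mpr c15 z.1
  have c17 : r 4 < v 13 := c16.2.2
  have c18 : l 5 < v 13 := lt_trans c12 c17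
  have c19 : v 1 < l 12 := a1.1
  have c20 : v 1 ≤ r 4 := le_of_lt (lt_of_lt_of_le c19 c7)
  have c21 : S6 l v r := h.e6.resolve_right fun z => not_lt.mpr c20 z.2.2
  have c22 : r 1 < v 4 := c21.2.2
  have c23 : r 1 ≤ v 4 := le_of_lt c22
  have c24 : r 1 < l 13 := lt_trans c13 c6
  have c25 : l 4 ≤ l 13 := le_of_lt (lt_of_le_of_lt c9 c24)
  have c26 : l 1 < v 12 := lt_of_le_of_lt c4 c13
  have c27 : l 1 ≤ l 13 := le_of_lt (lt_of_lt_of_le c26 c5)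
  have c28 : r 4 < v 5 := c11.2.2
  have c29 : v 12 ≤ v 5 := le_of_lt (lt_of_le_of_lt c3 c28)
  have c30 : r 1 ≤ v 5 := le_of_lt (lt_of_lt_of_le c13 c29)
  have c31 : l 0 ≤ v 8 := not_lt.mp fun z => L305 h z a2
  have c32 : S1 l v r := h.e1.resolve_right fun z => not_lt.mpr c31 z.1
  have c33 : r 0 < v 8 := c32.2.2
  have c34 : l 10 ≤ v 9 := le_of_lt (lt_of_le_of_lt c2 a2)
  have c35 : ¬ S31 l v r := fun z => not_lt.mpr c34 z.1
  have c36 : v 10 < l 9 := (h.e31.resolve_left c35).1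
  have c37 : v 10 ≤ l 9 := le_of_lt c36
  have c38 : l 0 ≤ v 9 := not_lt.mp fun z => L310 h z a2
  have c39 : S2 l v r := h.e2.resolve_right fun z => not_lt.mpr c38 z.1
  have c40 : l 9 < r 0 := c39.2.1
  have c41 : v 10 < r 0 := lt_of_le_of_lt c37 c40
  have c42 : v 10 < v 8 := lt_trans c41 c33
  have c43 : v 0 < l 9 := c39.1
  have c44 : r 0 < v 9 := c39.2.2
  have c45 : l 8 < r 0 := c32.2.1
  have c46 : l 8 ≤ r 0 := le_of_lt c45
  have c47 : r 0 ≤ r 8 := le_of_lt (lt_of_lt_of_le c33 c1)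
  have c48 : v 0 < l 8 := c32.1
  have c49 : v 0 ≤ v 8 := le_of_lt (lt_of_lt_of_le c48 c0)
  have c50 : r 10 ≤ v 9 := le_of_lt a2
  have c51 : l 13 < v 9 := lt_trans a0 a2
  have c52 : l 4 ≤ r 10 := le_of_lt (lt_of_le_of_lt c25 a0)
  have c53 : l 1 ≤ v 9 := le_of_lt (lt_of_le_of_lt c27 c51)
  have c54 : S8 l v r := h.e8.resolve_right fun z => not_lt.mpr c53 z.1
  have c55 : l 9 < r 1 := c54.2.1
  have c56 : v 10 < r 1 := lt_trans c36 c55
  have c57 : v 0 < r 1 := lt_trans c43 c55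
  have c58 : l 9 ≤ v 5 := le_of_lt (lt_of_lt_of_le c55 c30)
  have c59 : v 10 < v 4 := lt_of_lt_of_le c56 c23
  have c60 : v 0 < l 13 := lt_trans c57 c24
  have c61 : ¬ S24 l v r := fun z => not_lt.mpr c58 z.1
  have c62 : v 9 < l 5 := (h.e24.resolve_left c61).1
  have c63 : r 10 < l 5 := lt_of_le_of_lt c50 c62
  have c64 : r 0 < l 5 := lt_trans c44 c62
  have c65 : r 10 < r 4 := lt_trans c63 c12
  have c66 : r 0 < v 13 := lt_trans c64 c18
  have c67 : r 0 ≤ l 13 := not_lt.mp fun z => h.n0_13 c60 z c66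
  have c68 : l 8 ≤ l 13 := le_trans c46 c67
  have c69 : l 8 < r 10 := lt_of_le_of_lt c68 a0
  have c70 : ¬ S20 l v r := fun z => L322 h z c69 c59 c65
  have c71 : r 8 < v 4 := (h.e20.resolve_left c70).2.2
  have c72 : v 8 < l 4 := (h.e20.resolve_left c70).1
  have c73 : r 0 ≤ v 4 := le_of_lt (lt_of_le_of_lt c47 c71)
  have c74 : v 8 ≤ r 15 := le_of_lt (lt_of_lt_of_le c72 c10)
  have c75 : v 0 ≤ r 15 := le_trans c49 c74
  have c76 : v 10 ≤ r 15 := le_of_lt (lt_of_lt_of_le c42 c74)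
  have c77 : S4 l v r := h.e4.resolve_right fun z => not_lt.mpr c75 z.2.2
  have c78 : S34 l v r := h.e34.resolve_right fun z => not_lt.mpr c76 z.2.2
  have c79 : l 15 < r 0 := c77.2.1
  have c80 : r 10 < v 15 := c78.2.2
  have c81 : l 15 ≤ v 4 := le_of_lt (lt_of_lt_of_le c79 c73)
  have c82 : l 4 ≤ v 15 := le_of_lt (lt_of_le_of_lt c52 c80)
  have c83 : ¬ S22 l v r := fun z => not_lt.mpr c81 z.1
  not_lt.mpr c82 (h.e22.resolve_left c83).1

theorem L331 {l v r : ℕ → ℝ} (h : H l v r) (a0 : r 10 ≤ l 13) : False :=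
  have c0 : l 13 < v 13 := h.u13_0
  have c1 : r 10 < v 13 := lt_of_le_of_lt a0 c0
  have c2 : ¬ S33 l v r := fun z => not_lt.mpr a0 z.2.1
  have c3 : l 10 ≤ v 13 := not_lt.mp fun z => L173 h c1 z
  not_lt.mpr c3 (h.e33.resolve_left c2).1

theorem L332 {l v r : ℕ → ℝ} (h : H l v r) (a0 : r 10 ≤ v 12) : False :=
  have c0 : l 13 < r 10 := not_le.mp fun z => L331 h z
  have c1 : v 12 ≤ l 13 := not_lt.mp fun z => L143 h z
  not_lt.mpr (le_trans a0 c1) c0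

theorem L333 {l v r : ℕ → ℝ} (h : H l v r) (a0 : r 10 < l 12) : False :=
  have c0 : l 13 < r 10 := not_le.mp fun z => L331 h z
  have c1 : l 12 ≤ l 13 := not_lt.mp fun z => L90 h z
  not_lt.mpr c1 (lt_trans c0 a0)

theorem L334 {l v r : ℕ → ℝ} (h : H l v r) (a0 : r 10 < v 12) : False :=
  have c0 : l 13 < r 10 := not_le.mp fun z => L331 h z
  have c1 : v 12 ≤ l 13 := not_lt.mp fun z => L143 h z
  not_lt.mpr c1 (lt_trans c0 a0)

theorem L335 {l v r : ℕ → ℝ} (h : H l v r) (a0 : r 10 < l 13) : False :=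
  have c0 : l 13 < r 10 := not_le.mp fun z => L331 h z
  lt_asymm a0 c0

theorem L336 {l v r : ℕ → ℝ} (h : H l v r) (a0 : S8 l v r) (a1 : ¬ S24 l v r) (a2 : r 10 < v 9) : False :=
  have c0 : l 9 ≤ v 9 := not_lt.mp fun z => L45 h z
  have c1 : v 12 < r 10 := not_le.mp fun z => L332 h z
  have c2 : l 13 < r 10 := not_le.mp fun z => L331 h z
  have c3 : v 9 ≤ r 9 := not_lt.mp fun z => L48 h z
  have c4 : l 5 ≤ r 5 := not_lt.mp fun z => L116 h z
  have c5 : l 10 ≤ r 10 := not_lt.mp fun z => L52 h z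
  have c6 : l 3 ≤ r 13 := not_lt.mp fun z => L182 h z
  have c7 : v 13 ≤ r 13 := not_lt.mp fun z => L168 h z
  have c8 : l 4 ≤ r 15 := not_lt.mp fun z => L204 h z
  have c9 : l 4 ≤ r 1 := not_lt.mp fun z => L320 h z
  have c10 : v 10 ≤ v 9 := not_lt.mp fun z => L105 h a2 z
  have c11 : v 9 < l 5 := (h.e24.resolve_left a1).1
  have c12 : v 10 ≤ l 5 := le_of_lt (lt_of_le_of_lt c10 c11)
  have c13 : l 10 ≤ v 9 := le_of_lt (lt_of_le_of_lt c5 a2)
  have c14 : v 9 ≤ r 5 := le_of_lt (lt_of_lt_of_le c11 c4)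
  have c15 : l 10 ≤ r 5 := le_trans c13 c14
  have c16 : r 10 ≤ r 9 := le_of_lt (lt_of_lt_of_le a2 c3)
  have c17 : r 9 < v 5 := (h.e24.resolve_left a1).2.2
  have c18 : r 10 ≤ v 5 := le_of_lt (lt_of_le_of_lt c16 c17)
  have c19 : S14 l v r := Classical.byContradiction fun z => L242 h z c15 c18
  have c20 : l 5 < r 3 := c19.2.1
  have c21 : v 10 ≤ r 3 := le_of_lt (lt_of_le_of_lt c12 c20)
  have c22 : ¬ S16 l v r := fun z => not_lt.mpr c21 z.2.2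
  have c23 : v 10 < l 3 := (h.e16.resolve_left c22).1
  have c24 : v 10 ≤ r 13 := le_of_lt (lt_of_lt_of_le c23 c6)
  have c25 : S33 l v r := h.e33.resolve_right fun z => not_lt.mpr c24 z.2.2
  have c26 : r 10 < v 13 := c25.2.2
  have c27 : r 10 ≤ r 13 := le_of_lt (lt_of_lt_of_le c26 c7)
  have c28 : ¬ S10 l v r := fun z => L330 h c2 z a2
  have c29 : r 12 < v 1 := (h.e10.resolve_left c28).2.2
  have c30 : r 12 ≤ v 1 := le_of_lt c29
  have c31 : r 10 ≤ v 9 := le_of_lt a2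
  have c32 : v 12 ≤ v 9 := le_of_lt (lt_of_lt_of_le c1 c31)
  have c33 : v 12 ≤ l 5 := le_of_lt (lt_of_le_of_lt c32 c11)
  have c34 : v 12 ≤ r 3 := le_of_lt (lt_of_le_of_lt c33 c20)
  have c35 : ¬ S17 l v r := fun z => not_lt.mpr c34 z.2.2
  have c36 : l 3 < r 12 := (h.e17.resolve_left c35).2.1
  have c37 : l 3 ≤ v 1 := le_of_lt (lt_of_lt_of_le c36 c30)
  have c38 : v 10 ≤ l 3 := le_of_lt c23
  have c39 : v 10 ≤ r 12 := le_of_lt (lt_of_le_of_lt c38 c36)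
  have c40 : ¬ S31 l v r := fun z => not_lt.mpr c13 z.1
  have c41 : l 9 < r 10 := (h.e31.resolve_left c40).2.1
  have c42 : r 10 < v 3 := (h.e16.resolve_left c22).2.2
  have c43 : l 9 < v 3 := lt_trans c41 c42
  have c44 : v 9 < r 3 := lt_trans c11 c20
  have c45 : S19 l v r := Classical.byContradiction fun z => L329 h z a2
  have c46 : l 5 < r 4 := c45.2.1
  have c47 : l 9 ≤ l 5 := le_of_lt (lt_of_le_of_lt c0 c11)
  have c48 : l 9 ≤ r 4 := le_of_lt (lt_of_le_of_lt c47 c46)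
  have c49 : l 9 ≤ r 10 := le_of_lt c41
  have c50 : l 0 ≤ v 9 := not_lt.mp fun z => L310 h z a2
  have c51 : S2 l v r := h.e2.resolve_right fun z => not_lt.mpr c50 z.1
  have c52 : v 0 < l 9 := c51.1
  have c53 : v 0 < r 10 := lt_of_lt_of_le c52 c49
  have c54 : l 0 ≤ r 10 := not_lt.mp fun z => L66 h c53 z
  have c55 : l 0 ≤ v 8 := not_lt.mp fun z => L305 h z a2
  have c56 : S1 l v r := h.e1.resolve_right fun z => not_lt.mpr c55 z.1
  have c57 : r 0 < v 8 := c56.2.2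
  have c58 : l 9 < r 0 := c51.2.1
  have c59 : l 9 < v 8 := lt_trans c58 c57
  have c60 : l 8 < r 0 := c56.2.1
  have c61 : l 8 ≤ r 0 := le_of_lt c60
  have c62 : r 1 < v 9 := a0.2.2
  have c63 : v 1 < l 9 := a0.1
  have c64 : r 1 < r 3 := lt_trans c62 c44
  have c65 : v 1 < v 8 := lt_trans c63 c59
  have c66 : v 1 ≤ r 4 := le_of_lt (lt_of_lt_of_le c63 c48)
  have c67 : v 1 < v 3 := lt_trans c63 c43
  have c68 : l 3 ≤ v 8 := le_of_lt (lt_of_le_of_lt c37 c65)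
  have c69 : S6 l v r := h.e6.resolve_right fun z => not_lt.mpr c66 z.2.2
  have c70 : S15 l v r := h.e15.resolve_right fun z => not_lt.mpr c68 z.1
  have c71 : v 1 < l 4 := c69.1
  have c72 : v 3 < l 8 := c70.1
  have c73 : r 3 < v 8 := c70.2.2
  have c74 : v 1 < r 15 := lt_of_lt_of_le c71 c8
  have c75 : v 1 < v 4 := not_le.mp fun z => L57 h c71 z
  have c76 : v 1 < l 8 := lt_trans c67 c72
  have c77 : r 1 < v 8 := lt_trans c64 c73
  have c78 : r 0 < l 4 := not_le.mp fun z => L328 h c30 c27 c39 z c75 c74 c54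
  have c79 : r 1 ≤ l 8 := not_lt.mp fun z => h.n1_8 c76 z c77
  have c80 : l 8 < l 4 := lt_of_le_of_lt c61 c78
  not_lt.mpr (le_trans c9 c79) c80

theorem L337 {l v r : ℕ → ℝ} (h : H l v r) (a0 : ¬ S24 l v r) (a1 : r 10 < v 9) : False :=
  have c0 : v 9 ≤ r 9 := not_lt.mp fun z => L48 h z
  have c1 : l 8 ≤ v 8 := not_lt.mp fun z => L110 h z
  have c2 : v 8 ≤ r 8 := not_lt.mp fun z => L40 h z
  have c3 : l 10 ≤ r 10 := not_lt.mp fun z => L52 h z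
  have c4 : v 12 < r 10 := not_le.mp fun z => L332 h z
  have c5 : r 12 ≤ r 13 := not_lt.mp fun z => L167 h z
  have c6 : l 5 ≤ r 5 := not_lt.mp fun z => L116 h z
  have c7 : l 3 ≤ v 3 := not_lt.mp fun z => L128 h z
  have c8 : l 13 < r 10 := not_le.mp fun z => L331 h z
  have c9 : l 4 ≤ r 15 := not_lt.mp fun z => L204 h z
  have c10 : ¬ S10 l v r := fun z => L330 h c8 z a1
  have c11 : l 1 < r 12 := (h.e10.resolve_left c10).2.1
  have c12 : l 1 ≤ r 13 := le_of_lt (lt_of_lt_of_le c11 c5)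
  have c13 : l 1 ≤ r 12 := le_of_lt c11
  have c14 : r 10 ≤ v 9 := le_of_lt a1
  have c15 : v 12 ≤ v 9 := le_of_lt (lt_of_lt_of_le c4 c14)
  have c16 : S19 l v r := Classical.byContradiction fun z => L329 h z a1
  have c17 : l 5 < r 4 := c16.2.1
  have c18 : l 5 ≤ r 4 := le_of_lt c17
  have c19 : v 4 < l 5 := c16.1
  have c20 : l 4 ≤ l 5 := not_lt.mp fun z => L11 h c19 z
  have c21 : l 0 ≤ v 8 := not_lt.mp fun z => L305 h z a1
  have c22 : S1 l v r := h.e1.resolve_right fun z => not_lt.mpr c21 z.1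
  have c23 : r 0 < v 8 := c22.2.2
  have c24 : l 10 ≤ v 9 := le_of_lt (lt_of_le_of_lt c3 a1)
  have c25 : ¬ S31 l v r := fun z => not_lt.mpr c24 z.1
  have c26 : v 10 < l 9 := (h.e31.resolve_left c25).1
  have c27 : v 10 ≤ l 9 := le_of_lt c26
  have c28 : l 0 ≤ v 9 := not_lt.mp fun z => L310 h z a1
  have c29 : S2 l v r := h.e2.resolve_right fun z => not_lt.mpr c28 z.1
  have c30 : l 9 < r 0 := c29.2.1
  have c31 : v 10 < r 0 := lt_of_le_of_lt c27 c30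
  have c32 : v 10 < v 8 := lt_trans c31 c23
  have c33 : l 8 < r 0 := c22.2.1
  have c34 : r 0 < v 9 := c29.2.2
  have c35 : l 8 < v 9 := lt_trans c33 c34
  have c36 : r 0 ≤ r 8 := le_of_lt (lt_of_lt_of_le c23 c2)
  have c37 : v 0 < l 8 := c22.1
  have c38 : v 0 ≤ v 8 := le_of_lt (lt_of_lt_of_le c37 c1)
  have c39 : r 10 ≤ r 9 := le_of_lt (lt_of_lt_of_le a1 c0)
  have c40 : v 9 < l 5 := (h.e24.resolve_left a0).1
  have c41 : l 5 < r 9 := (h.e24.resolve_left a0).2.1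
  have c42 : r 9 < v 5 := (h.e24.resolve_left a0).2.2
  have c43 : v 9 ≤ r 5 := le_of_lt (lt_of_lt_of_le c40 c6)
  have c44 : v 12 ≤ l 5 := le_of_lt (lt_of_le_of_lt c15 c40)
  have c45 : l 4 ≤ r 9 := le_of_lt (lt_of_le_of_lt c20 c41)
  have c46 : r 10 ≤ v 5 := le_of_lt (lt_of_le_of_lt c39 c42)
  have c47 : l 10 ≤ r 5 := le_trans c24 c43
  have c48 : S14 l v r := Classical.byContradiction fun z => L242 h z c47 c46
  have c49 : l 5 < r 3 := c48.2.1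
  have c50 : v 3 < l 5 := c48.1
  have c51 : v 12 ≤ r 3 := le_of_lt (lt_of_le_of_lt c44 c49)
  have c52 : l 3 < l 5 := lt_of_le_of_lt c7 c50
  have c53 : ¬ S17 l v r := fun z => not_lt.mpr c51 z.2.2
  have c54 : l 3 ≤ r 4 := le_of_lt (lt_of_lt_of_le c52 c18)
  have c55 : r 12 < v 3 := (h.e17.resolve_left c53).2.2
  have c56 : l 1 ≤ v 3 := le_of_lt (lt_of_le_of_lt c13 c55)
  have c57 : ¬ S8 l v r := fun z => L336 h z a0 a1
  have c58 : r 9 < v 1 := (h.e8.resolve_left c57).2.2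
  have c59 : v 9 < l 1 := (h.e8.resolve_left c57).1
  have c60 : l 4 ≤ v 1 := le_of_lt (lt_of_le_of_lt c45 c58)
  have c61 : l 8 < l 1 := lt_trans c35 c59
  have c62 : ¬ S6 l v r := fun z => not_lt.mpr c60 z.1
  have c63 : l 8 ≤ v 3 := le_of_lt (lt_of_lt_of_le c61 c56)
  have c64 : v 4 < l 1 := (h.e6.resolve_left c62).1
  have c65 : ¬ S15 l v r := fun z => not_lt.mpr c63 z.1
  have c66 : v 4 ≤ r 13 := le_of_lt (lt_of_lt_of_le c64 c12)
  have c67 : v 8 < l 3 := (h.e15.resolve_left c65).1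
  have c68 : S21 l v r := h.e21.resolve_right fun z => not_lt.mpr c66 z.2.2
  have c69 : v 8 ≤ r 4 := le_of_lt (lt_of_lt_of_le c67 c54)
  have c70 : v 4 < l 13 := c68.1
  have c71 : ¬ S20 l v r := fun z => not_lt.mpr c69 z.2.2
  have c72 : l 4 ≤ l 13 := not_lt.mp fun z => L21 h c70 z
  have c73 : r 8 < v 4 := (h.e20.resolve_left c71).2.2
  have c74 : v 8 < l 4 := (h.e20.resolve_left c71).1
  have c75 : l 4 ≤ r 10 := le_of_lt (lt_of_le_of_lt c72 c8)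
  have c76 : r 0 ≤ v 4 := le_of_lt (lt_of_le_of_lt c36 c73)
  have c77 : v 8 ≤ r 15 := le_of_lt (lt_of_lt_of_le c74 c9)
  have c78 : v 0 ≤ r 15 := le_trans c38 c77
  have c79 : v 10 ≤ r 15 := le_of_lt (lt_of_lt_of_le c32 c77)
  have c80 : S4 l v r := h.e4.resolve_right fun z => not_lt.mpr c78 z.2.2
  have c81 : S34 l v r := h.e34.resolve_right fun z => not_lt.mpr c79 z.2.2
  have c82 : l 15 < r 0 := c80.2.1
  have c83 : r 10 < v 15 := c81.2.2
  have c84 : l 15 ≤ v 4 := le_of_lt (lt_of_lt_of_le c82 c76)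
  have c85 : l 4 ≤ v 15 := le_of_lt (lt_of_le_of_lt c75 c83)
  have c86 : ¬ S22 l v r := fun z => not_lt.mpr c84 z.1
  not_lt.mpr c85 (h.e22.resolve_left c86).1

theorem L338 {l v r : ℕ → ℝ} (h : H l v r) (a0 : ¬ S15 l v r) (a1 : r 10 < v 9) : False :=
  have c0 : v 8 ≤ r 8 := not_lt.mp fun z => L40 h z
  have c1 : l 12 ≤ r 4 := not_lt.mp fun z => L212 h z
  have c2 : l 4 ≤ r 4 := not_lt.mp fun z => L15 h z
  have c3 : v 5 ≤ r 5 := not_lt.mp fun z => L36 h z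
  have c4 : l 10 ≤ r 10 := not_lt.mp fun z => L52 h z
  have c5 : l 13 < r 10 := not_le.mp fun z => L331 h z
  have c6 : v 12 ≤ r 4 := not_lt.mp fun z => L210 h z
  have c7 : l 0 ≤ v 8 := not_lt.mp fun z => L305 h z a1
  have c8 : S1 l v r := h.e1.resolve_right fun z => not_lt.mpr c7 z.1
  have c9 : r 0 < v 8 := c8.2.2
  have c10 : l 0 ≤ v 9 := not_lt.mp fun z => L310 h z a1
  have c11 : S2 l v r := h.e2.resolve_right fun z => not_lt.mpr c10 z.1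
  have c12 : l 9 < r 0 := c11.2.1
  have c13 : l 9 < v 8 := lt_trans c12 c9
  have c14 : S19 l v r := Classical.byContradiction fun z => L329 h z a1
  have c15 : r 4 < v 5 := c14.2.2
  have c16 : v 12 ≤ v 5 := le_of_lt (lt_of_le_of_lt c6 c15)
  have c17 : S24 l v r := Classical.byContradiction fun z => L337 h z a1
  have c18 : v 5 < l 9 := c17.1
  have c19 : v 12 < l 9 := lt_of_le_of_lt c16 c18
  have c20 : ¬ S10 l v r := fun z => L330 h c5 z a1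
  have c21 : r 12 < v 1 := (h.e10.resolve_left c20).2.2
  have c22 : l 10 ≤ v 9 := le_of_lt (lt_of_le_of_lt c4 a1)
  have c23 : ¬ S31 l v r := fun z => not_lt.mpr c22 z.1
  have c24 : l 9 < r 10 := (h.e31.resolve_left c23).2.1
  have c25 : l 9 ≤ r 10 := le_of_lt c24
  have c26 : r 4 ≤ r 5 := le_of_lt (lt_of_lt_of_le c15 c3)
  have c27 : r 5 < v 9 := c17.2.2
  have c28 : r 4 ≤ v 9 := le_of_lt (lt_of_le_of_lt c26 c27)
  have c29 : l 4 < v 5 := lt_of_le_of_lt c2 c15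
  have c30 : v 5 ≤ r 10 := le_of_lt (lt_of_lt_of_le c18 c25)
  have c31 : l 4 ≤ r 10 := le_of_lt (lt_of_lt_of_le c29 c30)
  have c32 : v 1 ≤ r 10 := not_lt.mp fun z => L197 h z c31 c28 c25
  have c33 : v 1 < v 9 := lt_of_le_of_lt c32 a1
  have c34 : r 12 < v 9 := lt_trans c21 c33
  have c35 : r 12 ≤ l 9 := not_lt.mp fun z => h.n12_9 c19 z c34
  have c36 : r 12 ≤ v 8 := le_of_lt (lt_of_le_of_lt c35 c13)
  have c37 : l 12 ≤ v 5 := le_of_lt (lt_of_le_of_lt c1 c15)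
  have c38 : r 0 ≤ r 8 := le_of_lt (lt_of_lt_of_le c9 c0)
  have c39 : l 9 < r 8 := lt_of_lt_of_le c12 c38
  have c40 : v 5 < r 8 := lt_trans c18 c39
  have c41 : l 12 ≤ r 8 := le_of_lt (lt_of_le_of_lt c37 c40)
  have c42 : v 8 < l 3 := (h.e15.resolve_left a0).1
  have c43 : r 8 < v 3 := (h.e15.resolve_left a0).2.2
  have c44 : r 12 ≤ l 3 := le_of_lt (lt_of_le_of_lt c36 c42)
  have c45 : l 12 ≤ v 3 := le_of_lt (lt_of_le_of_lt c41 c43)
  have c46 : S17 l v r := h.e17.resolve_right fun z => not_lt.mpr c44 z.2.1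
  not_lt.mpr c45 c46.1

theorem L339 {l v r : ℕ → ℝ} (h : H l v r) (a0 : r 3 < v 12) (a1 : r 10 < v 9) : False :=
  have c0 : l 8 < r 3 := not_le.mp fun z => L216 h z
  have c1 : l 8 ≤ r 3 := not_lt.mp fun z => L217 h z
  have c2 : l 1 < r 11 := not_le.mp fun z => L185 h z
  have c3 : l 13 ≤ r 12 := not_lt.mp fun z => L88 h z
  have c4 : l 13 < r 4 := not_le.mp fun z => L207 h z
  have c5 : l 13 ≤ r 4 := not_lt.mp fun z => L208 h z
  have c6 : l 17 ≤ r 12 := not_lt.mp fun z => L316 h z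
  have c7 : v 12 ≤ r 4 := not_lt.mp fun z => L210 h z
  have c8 : l 4 ≤ r 4 := not_lt.mp fun z => L15 h z
  have c9 : l 10 ≤ r 10 := not_lt.mp fun z => L52 h z
  have c10 : v 9 < r 9 := h.u9_1
  have c11 : l 13 < r 10 := not_le.mp fun z => L331 h z
  have c12 : r 12 ≤ r 13 := not_lt.mp fun z => L167 h z
  have c13 : v 13 ≤ r 13 := not_lt.mp fun z => L168 h z
  have c14 : v 8 ≤ r 8 := not_lt.mp fun z => L40 h z
  have c15 : l 5 ≤ v 5 := not_lt.mp fun z => L135 h z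
  have c16 : v 5 ≤ r 5 := not_lt.mp fun z => L36 h z
  have c17 : v 12 ≤ l 13 := not_lt.mp fun z => L143 h z
  have c18 : v 12 ≤ r 12 := not_lt.mp fun z => L93 h z
  have c19 : l 11 < r 17 := not_le.mp fun z => L308 h z
  have c20 : S19 l v r := Classical.byContradiction fun z => L329 h z a1
  have c21 : r 4 < v 5 := c20.2.2
  have c22 : r 4 ≤ r 5 := le_of_lt (lt_of_lt_of_le c21 c16)
  have c23 : v 4 < l 5 := c20.1
  have c24 : v 4 ≤ v 5 := le_of_lt (lt_of_lt_of_le c23 c15)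
  have c25 : l 0 ≤ v 8 := not_lt.mp fun z => L305 h z a1
  have c26 : S1 l v r := h.e1.resolve_right fun z => not_lt.mpr c25 z.1
  have c27 : r 0 < v 8 := c26.2.2
  have c28 : r 0 ≤ r 8 := le_of_lt (lt_of_lt_of_le c27 c14)
  have c29 : l 0 ≤ v 9 := not_lt.mp fun z => L310 h z a1
  have c30 : S2 l v r := h.e2.resolve_right fun z => not_lt.mpr c29 z.1
  have c31 : l 9 < r 0 := c30.2.1
  have c32 : l 9 < r 8 := lt_of_lt_of_le c31 c28
  have c33 : S24 l v r := Classical.byContradiction fun z => L337 h z a1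
  have c34 : v 5 < l 9 := c33.1
  have c35 : v 5 < r 8 := lt_trans c34 c32
  have c36 : v 4 ≤ r 8 := le_of_lt (lt_of_le_of_lt c24 c35)
  have c37 : S20 l v r := h.e20.resolve_right fun z => not_lt.mpr c36 z.2.2
  have c38 : l 8 < r 4 := c37.2.1
  have c39 : l 8 ≤ r 5 := le_of_lt (lt_of_lt_of_le c38 c22)
  have c40 : S15 l v r := Classical.byContradiction fun z => L338 h z a1
  have c41 : v 3 < l 8 := c40.1
  have c42 : v 3 ≤ r 5 := le_of_lt (lt_of_lt_of_le c41 c39)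
  have c43 : S14 l v r := h.e14.resolve_right fun z => not_lt.mpr c42 z.2.2
  have c44 : l 5 < r 3 := c43.2.1
  have c45 : l 5 < r 4 := c20.2.1
  have c46 : l 5 ≤ r 4 := le_of_lt c45
  have c47 : ¬ S10 l v r := fun z => L330 h c11 z a1
  have c48 : l 1 < r 12 := (h.e10.resolve_left c47).2.1
  have c49 : l 1 ≤ r 13 := le_of_lt (lt_of_lt_of_le c48 c12)
  have c50 : v 4 ≤ l 9 := le_of_lt (lt_of_le_of_lt c24 c34)
  have c51 : r 10 < r 9 := lt_trans a1 c10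
  have c52 : l 10 ≤ v 9 := le_of_lt (lt_of_le_of_lt c9 a1)
  have c53 : ¬ S31 l v r := fun z => not_lt.mpr c52 z.1
  have c54 : l 9 < r 10 := (h.e31.resolve_left c53).2.1
  have c55 : l 9 ≤ r 10 := le_of_lt c54
  have c56 : r 5 < v 9 := c33.2.2
  have c57 : r 4 ≤ v 9 := le_of_lt (lt_of_le_of_lt c22 c56)
  have c58 : l 4 < v 5 := lt_of_le_of_lt c8 c21
  have c59 : v 5 ≤ r 10 := le_of_lt (lt_of_lt_of_le c34 c55)
  have c60 : l 4 ≤ r 10 := le_of_lt (lt_of_lt_of_le c58 c59)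
  have c61 : v 1 ≤ r 10 := not_lt.mp fun z => L197 h z c60 c57 c55
  have c62 : v 1 ≤ r 9 := le_of_lt (lt_of_le_of_lt c61 c51)
  have c63 : S8 l v r := h.e8.resolve_right fun z => not_lt.mpr c62 z.2.2
  have c64 : l 9 < r 1 := c63.2.1
  have c65 : v 4 ≤ r 1 := le_of_lt (lt_of_le_of_lt c50 c64)
  have c66 : ¬ S6 l v r := fun z => not_lt.mpr c65 z.2.2
  have c67 : v 4 < l 1 := (h.e6.resolve_left c66).1
  have c68 : v 4 ≤ r 13 := le_of_lt (lt_of_lt_of_le c67 c49)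
  have c69 : S21 l v r := h.e21.resolve_right fun z => not_lt.mpr c68 z.2.2
  have c70 : r 4 < v 13 := c69.2.2
  have c71 : r 4 < r 13 := lt_of_lt_of_le c70 c13
  have c72 : l 5 ≤ r 13 := le_of_lt (lt_of_le_of_lt c46 c71)
  have c73 : l 9 ≤ r 0 := le_of_lt c31
  have c74 : v 12 ≤ v 5 := le_of_lt (lt_of_le_of_lt c7 c21)
  have c75 : v 12 < l 9 := lt_of_le_of_lt c74 c34
  have c76 : r 12 < v 1 := (h.e10.resolve_left c47).2.2
  have c77 : v 1 < v 9 := lt_of_le_of_lt c61 a1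
  have c78 : r 12 < v 9 := lt_trans c76 c77
  have c79 : r 12 ≤ l 9 := not_lt.mp fun z => h.n12_9 c75 z c78
  have c80 : l 1 < l 9 := lt_of_lt_of_le c48 c79
  have c81 : l 1 ≤ r 0 := le_of_lt (lt_of_lt_of_le c80 c73)
  have c82 : l 17 < v 1 := lt_of_le_of_lt c6 c76
  have c83 : l 17 < r 10 := lt_of_lt_of_le c82 c61
  have c84 : l 13 ≤ v 5 := le_of_lt (lt_of_le_of_lt c5 c21)
  have c85 : v 5 < r 0 := lt_trans c34 c31
  have c86 : l 13 ≤ r 0 := le_of_lt (lt_of_le_of_lt c84 c85)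
  have c87 : l 13 < v 5 := lt_trans c4 c21
  have c88 : l 13 < r 0 := lt_trans c87 c85
  have c89 : v 10 < l 9 := (h.e31.resolve_left c53).1
  have c90 : l 10 ≤ l 9 := not_lt.mp fun z => L54 h c89 z
  have c91 : l 9 < r 5 := c33.2.1
  have c92 : l 10 ≤ r 5 := le_of_lt (lt_of_le_of_lt c90 c91)
  have c93 : l 13 < v 1 := lt_of_le_of_lt c3 c76
  have c94 : v 12 < l 1 := (h.e10.resolve_left c47).1
  have c95 : v 12 < r 11 := lt_trans c94 c2
  have c96 : v 0 < l 8 := c26.1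
  have c97 : v 0 ≤ r 3 := le_of_lt (lt_of_lt_of_le c96 c1)
  have c98 : v 0 < r 3 := lt_trans c96 c0
  have c99 : r 3 < l 13 := lt_of_lt_of_le a0 c17
  have c100 : r 3 ≤ r 12 := le_of_lt (lt_of_lt_of_le a0 c18)
  have c101 : v 0 ≤ v 12 := le_of_lt (lt_of_le_of_lt c97 a0)
  have c102 : v 0 ≤ l 13 := le_of_lt (lt_of_le_of_lt c97 c99)
  have c103 : v 0 < l 13 := lt_trans c98 c99
  have c104 : l 5 ≤ r 12 := le_of_lt (lt_of_lt_of_le c44 c100)
  have c105 : v 0 ≤ r 11 := le_of_lt (lt_of_le_of_lt c101 c95)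
  have c106 : v 13 ≤ r 0 := not_lt.mp fun z => h.n0_13 c103 c88 z
  have c107 : S33 l v r := Classical.byContradiction fun z => L267 h z c104 c92
  have c108 : S3 l v r := h.e3.resolve_right fun z => not_lt.mpr c105 z.2.2
  have c109 : v 10 < l 13 := c107.1
  have c110 : r 10 < v 13 := c107.2.2
  have c111 : r 0 < v 11 := c108.2.2
  have c112 : v 10 ≤ v 5 := le_of_lt (lt_of_lt_of_le c109 c84)
  have c113 : v 10 < v 1 := lt_trans c109 c93
  have c114 : r 10 ≤ v 13 := le_of_lt c110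
  have c115 : r 10 ≤ r 0 := le_of_lt (lt_of_lt_of_le c110 c106)
  have c116 : l 1 ≤ v 11 := le_of_lt (lt_of_le_of_lt c81 c111)
  have c117 : r 10 < v 11 := lt_of_le_of_lt c115 c111
  have c118 : S9 l v r := h.e9.resolve_right fun z => not_lt.mpr c116 z.1
  have c119 : v 1 < l 11 := c118.1
  have c120 : v 10 < l 11 := lt_trans c113 c119
  have c121 : r 10 ≤ l 11 := not_lt.mp fun z => h.n10_11 c120 z c117
  have c122 : r 10 < r 17 := lt_of_le_of_lt c121 c19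
  have c123 : v 5 ≤ r 17 := le_of_lt (lt_of_le_of_lt c59 c122)
  have c124 : S25 l v r := h.e25.resolve_right fun z => not_lt.mpr c123 z.2.2
  have c125 : r 5 < v 17 := c124.2.2
  have c126 : v 5 < l 17 := c124.1
  have c127 : v 10 < l 17 := lt_of_le_of_lt c112 c126
  have c128 : v 17 ≤ r 10 := not_lt.mp fun z => h.n10_17 c127 c83 z
  have c129 : r 5 < r 10 := lt_of_lt_of_le c125 c128
  have c130 : r 5 ≤ v 13 := le_of_lt (lt_of_lt_of_le c129 c114)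
  have c131 : S29 l v r := Classical.byContradiction fun z => L290 h z c130 c72
  have c132 : l 13 < r 7 := c131.2.1
  have c133 : v 7 < l 13 := c131.1
  have c134 : v 0 ≤ r 7 := le_of_lt (lt_of_le_of_lt c102 c132)
  have c135 : v 7 ≤ r 0 := le_of_lt (lt_of_lt_of_le c133 c86)
  have c136 : S0 l v r := h.e0.resolve_right fun z => not_lt.mpr c134 z.2.2
  not_lt.mpr c135 c136.2.2

theorem L340 {l v r : ℕ → ℝ} (h : H l v r) (a0 : r 10 < v 9) : False :=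
  have c0 : v 9 < r 9 := h.u9_1
  have c1 : l 10 ≤ r 10 := not_lt.mp fun z => L52 h z
  have c2 : l 0 ≤ v 0 := not_lt.mp fun z => L64 h z
  have c3 : v 8 ≤ r 8 := not_lt.mp fun z => L40 h z
  have c4 : l 5 ≤ v 5 := not_lt.mp fun z => L135 h z
  have c5 : l 4 ≤ r 4 := not_lt.mp fun z => L15 h z
  have c6 : v 5 ≤ r 5 := not_lt.mp fun z => L36 h z
  have c7 : l 13 < r 10 := not_le.mp fun z => L331 h z
  have c8 : r 12 ≤ r 13 := not_lt.mp fun z => L167 h z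
  have c9 : v 13 ≤ r 13 := not_lt.mp fun z => L168 h z
  have c10 : v 3 < r 3 := h.u3_1
  have c11 : l 13 ≤ r 12 := not_lt.mp fun z => L88 h z
  have c12 : r 10 < r 9 := lt_trans a0 c0
  have c13 : l 10 ≤ v 9 := le_of_lt (lt_of_le_of_lt c1 a0)
  have c14 : ¬ S31 l v r := fun z => not_lt.mpr c13 z.1
  have c15 : l 9 < r 10 := (h.e31.resolve_left c14).2.1
  have c16 : v 10 < l 9 := (h.e31.resolve_left c14).1
  have c17 : l 9 ≤ r 10 := le_of_lt c15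
  have c18 : l 10 ≤ l 9 := not_lt.mp fun z => L54 h c16 z
  have c19 : l 0 ≤ v 8 := not_lt.mp fun z => L305 h z a0
  have c20 : S1 l v r := h.e1.resolve_right fun z => not_lt.mpr c19 z.1
  have c21 : v 0 < l 8 := c20.1
  have c22 : r 0 < v 8 := c20.2.2
  have c23 : l 0 ≤ l 8 := le_of_lt (lt_of_le_of_lt c2 c21)
  have c24 : r 0 ≤ r 8 := le_of_lt (lt_of_lt_of_le c22 c3)
  have c25 : l 0 ≤ v 9 := not_lt.mp fun z => L310 h z a0
  have c26 : S2 l v r := h.e2.resolve_right fun z => not_lt.mpr c25 z.1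
  have c27 : l 9 < r 0 := c26.2.1
  have c28 : l 10 ≤ r 0 := le_of_lt (lt_of_le_of_lt c18 c27)
  have c29 : l 9 < r 8 := lt_of_lt_of_le c27 c24
  have c30 : S19 l v r := Classical.byContradiction fun z => L329 h z a0
  have c31 : v 4 < l 5 := c30.1
  have c32 : r 4 < v 5 := c30.2.2
  have c33 : v 4 ≤ v 5 := le_of_lt (lt_of_lt_of_le c31 c4)
  have c34 : l 4 < v 5 := lt_of_le_of_lt c5 c32
  have c35 : r 4 ≤ r 5 := le_of_lt (lt_of_lt_of_le c32 c6)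
  have c36 : ¬ S10 l v r := fun z => L330 h c7 z a0
  have c37 : l 1 < r 12 := (h.e10.resolve_left c36).2.1
  have c38 : l 1 ≤ r 12 := le_of_lt c37
  have c39 : l 1 ≤ r 13 := le_of_lt (lt_of_lt_of_le c37 c8)
  have c40 : S24 l v r := Classical.byContradiction fun z => L337 h z a0
  have c41 : r 5 < v 9 := c40.2.2
  have c42 : v 5 < l 9 := c40.1
  have c43 : r 4 ≤ v 9 := le_of_lt (lt_of_le_of_lt c35 c41)
  have c44 : v 5 ≤ r 10 := le_of_lt (lt_of_lt_of_le c42 c17)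
  have c45 : v 5 < r 8 := lt_trans c42 c29
  have c46 : v 4 ≤ l 9 := le_of_lt (lt_of_le_of_lt c33 c42)
  have c47 : r 4 ≤ r 10 := le_of_lt (lt_of_lt_of_le c32 c44)
  have c48 : l 4 ≤ r 10 := le_of_lt (lt_of_lt_of_le c34 c44)
  have c49 : v 4 ≤ r 8 := le_of_lt (lt_of_le_of_lt c33 c45)
  have c50 : v 1 ≤ r 10 := not_lt.mp fun z => L197 h z c48 c43 c17
  have c51 : S20 l v r := h.e20.resolve_right fun z => not_lt.mpr c49 z.2.2
  have c52 : v 1 ≤ r 9 := le_of_lt (lt_of_le_of_lt c50 c12)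
  have c53 : l 8 < r 4 := c51.2.1
  have c54 : S8 l v r := h.e8.resolve_right fun z => not_lt.mpr c52 z.2.2
  have c55 : l 0 ≤ r 4 := le_of_lt (lt_of_le_of_lt c23 c53)
  have c56 : l 8 ≤ r 10 := le_of_lt (lt_of_lt_of_le c53 c47)
  have c57 : l 9 < r 1 := c54.2.1
  have c58 : v 4 ≤ r 1 := le_of_lt (lt_of_le_of_lt c46 c57)
  have c59 : ¬ S6 l v r := fun z => not_lt.mpr c58 z.2.2
  have c60 : v 4 < l 1 := (h.e6.resolve_left c59).1
  have c61 : v 4 ≤ r 12 := le_of_lt (lt_of_lt_of_le c60 c38)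
  have c62 : v 4 ≤ r 13 := le_of_lt (lt_of_lt_of_le c60 c39)
  have c63 : S21 l v r := h.e21.resolve_right fun z => not_lt.mpr c62 z.2.2
  have c64 : r 4 < v 13 := c63.2.2
  have c65 : r 4 ≤ r 13 := le_of_lt (lt_of_lt_of_le c64 c9)
  have c66 : S15 l v r := Classical.byContradiction fun z => L338 h z a0
  have c67 : v 3 < l 8 := c66.1
  have c68 : v 3 ≤ r 10 := le_of_lt (lt_of_lt_of_le c67 c56)
  have c69 : S16 l v r := h.e16.resolve_right fun z => not_lt.mpr c68 z.2.2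
  have c70 : r 3 < v 10 := c69.2.2
  have c71 : v 3 < l 10 := c69.1
  have c72 : v 3 < v 10 := lt_trans c10 c70
  have c73 : v 12 ≤ r 3 := not_lt.mp fun z => L339 h z a0
  have c74 : ¬ S17 l v r := fun z => not_lt.mpr c73 z.2.2
  have c75 : r 12 < v 3 := (h.e17.resolve_left c74).2.2
  have c76 : l 13 ≤ v 3 := le_of_lt (lt_of_le_of_lt c11 c75)
  have c77 : r 12 < l 10 := lt_trans c75 c71
  have c78 : l 13 ≤ v 10 := le_of_lt (lt_of_le_of_lt c76 c72)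
  have c79 : v 4 ≤ l 10 := le_of_lt (lt_of_le_of_lt c61 c77)
  have c80 : ¬ S33 l v r := fun z => not_lt.mpr c78 z.1
  have c81 : r 13 < v 10 := (h.e33.resolve_left c80).2.2
  have c82 : r 4 ≤ v 10 := le_of_lt (lt_of_le_of_lt c65 c81)
  have c83 : ¬ S22 l v r := fun z => L257 h z c82 c28 c55
  have c84 : r 15 < v 4 := (h.e22.resolve_left c83).2.2
  have c85 : v 15 < l 4 := (h.e22.resolve_left c83).1
  have c86 : r 15 ≤ l 10 := le_of_lt (lt_of_lt_of_le c84 c79)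
  have c87 : v 15 ≤ r 10 := le_of_lt (lt_of_lt_of_le c85 c48)
  have c88 : S34 l v r := h.e34.resolve_right fun z => not_lt.mpr c86 z.2.1
  not_lt.mpr c87 c88.2.2

theorem L341 {l v r : ℕ → ℝ} (h : H l v r) (a0 : ¬ S31 l v r) : False :=
  have c0 : v 9 ≤ r 10 := not_lt.mp fun z => L340 h z
  not_lt.mpr c0 (h.e31.resolve_left a0).2.2

theorem L342 {l v r : ℕ → ℝ} (h : H l v r) (a0 : l 10 ≤ v 9) : False :=
  have c0 : S31 l v r := Classical.byContradiction fun z => L341 h z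
  not_lt.mpr a0 c0.1

theorem L343 {l v r : ℕ → ℝ} (h : H l v r) (a0 : r 9 ≤ l 10) : False :=
  have c0 : S31 l v r := Classical.byContradiction fun z => L341 h z
  not_lt.mpr a0 c0.2.1

theorem L344 {l v r : ℕ → ℝ} (h : H l v r) (a0 : v 10 ≤ r 9) : False :=
  have c0 : S31 l v r := Classical.byContradiction fun z => L341 h z
  not_lt.mpr a0 c0.2.2

theorem L345 {l v r : ℕ → ℝ} (h : H l v r) (a0 : l 10 < l 9) : False :=
  have c0 : v 9 < l 10 := not_le.mp fun z => L342 h z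
  have c1 : l 9 ≤ v 9 := not_lt.mp fun z => L45 h z
  not_lt.mpr c1 (lt_trans c0 a0)

theorem L346 {l v r : ℕ → ℝ} (h : H l v r) (a0 : r 10 ≤ v 9) : False :=
  have c0 : v 9 < l 10 := not_le.mp fun z => L342 h z
  have c1 : l 10 < r 10 := not_le.mp fun z => L51 h z
  not_lt.mpr a0 (lt_trans c0 c1)

theorem L347 {l v r : ℕ → ℝ} (h : H l v r) (a0 : v 10 < v 9) : False :=
  have c0 : v 9 < l 10 := not_le.mp fun z => L342 h z
  L119 h a0 c0

theorem L348 {l v r : ℕ → ℝ} (h : H l v r) (a0 : l 10 < v 9) : False :=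
  have c0 : v 9 < l 10 := not_le.mp fun z => L342 h z
  lt_asymm c0 a0

theorem L349 {l v r : ℕ → ℝ} (h : H l v r) (a0 : r 9 < l 10) : False :=
  have c0 : l 10 < r 9 := not_le.mp fun z => L343 h z
  lt_asymm a0 c0

theorem L350 {l v r : ℕ → ℝ} (h : H l v r) (a0 : r 10 ≤ r 9) : False :=
  have c0 : r 9 < v 10 := not_le.mp fun z => L344 h z
  L6 h c0 a0

theorem L351 {l v r : ℕ → ℝ} (h : H l v r) (a0 : v 10 < l 9) : False :=
  have c0 : r 9 < v 10 := not_le.mp fun z => L344 h z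
  have c1 : l 9 ≤ r 9 := not_lt.mp fun z => L96 h z
  not_lt.mpr c1 (lt_trans c0 a0)

theorem L352 {l v r : ℕ → ℝ} (h : H l v r) (a0 : v 10 < r 9) : False :=
  have c0 : r 9 < v 10 := not_le.mp fun z => L344 h z
  lt_asymm c0 a0

theorem L353 {l v r : ℕ → ℝ} (h : H l v r) (a0 : r 10 < r 9) : False :=
  have c0 : r 9 < v 10 := not_le.mp fun z => L344 h z
  L107 h a0 c0

theorem L354 {l v r : ℕ → ℝ} (h : H l v r) (a0 : v 7 < l 13) (a1 : v 0 ≤ l 13) (a2 : l 13 ≤ r 0) : False :=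
  have c0 : l 13 ≤ r 13 := not_lt.mp fun z => L169 h z
  have c1 : v 7 ≤ r 13 := le_of_lt (lt_of_lt_of_le a0 c0)
  have c2 : v 7 ≤ r 0 := le_of_lt (lt_of_lt_of_le a0 a2)
  have c3 : S29 l v r := h.e29.resolve_right fun z => not_lt.mpr c1 z.2.2
  have c4 : ¬ S0 l v r := fun z => not_lt.mpr c2 z.2.2
  have c5 : l 13 < r 7 := c3.2.1
  have c6 : r 7 < v 0 := (h.e0.resolve_left c4).2.2
  not_lt.mpr a1 (lt_trans c5 c6)

theorem L355 {l v r : ℕ → ℝ} (h : H l v r) (a0 : r 1 < v 9) (a1 : v 13 ≤ l 5) (a2 : r 0 ≤ r 13) (a3 : v 0 ≤ v 13) (a4 : l 3 ≤ r 0) (a5 : v 9 ≤ r 3) (a6 : v 9 < l 5) : False :=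
  have c0 : l 4 < r 1 := not_le.mp fun z => L319 h z
  have c1 : l 4 < r 8 := not_le.mp fun z => L198 h z
  have c2 : S19 l v r := Classical.byContradiction fun z => L315 h a6 a0 z
  have c3 : l 4 < v 9 := lt_trans c0 a0
  have c4 : l 5 < r 4 := c2.2.1
  have c5 : l 4 ≤ r 3 := le_of_lt (lt_of_lt_of_le c3 a5)
  have c6 : v 13 ≤ r 4 := le_of_lt (lt_of_le_of_lt a1 c4)
  have c7 : ¬ S21 l v r := fun z => not_lt.mpr c6 z.2.2
  have c8 : v 13 < l 4 := (h.e21.resolve_left c7).1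
  have c9 : r 13 < v 4 := (h.e21.resolve_left c7).2.2
  have c10 : v 13 < r 8 := lt_trans c8 c1
  have c11 : r 0 ≤ v 4 := le_of_lt (lt_of_le_of_lt a2 c9)
  have c12 : v 0 ≤ r 8 := le_of_lt (lt_of_le_of_lt a3 c10)
  have c13 : S1 l v r := h.e1.resolve_right fun z => not_lt.mpr c12 z.2.2
  have c14 : r 0 < v 8 := c13.2.2
  have c15 : l 8 < r 0 := c13.2.1
  have c16 : l 3 ≤ v 8 := le_of_lt (lt_of_le_of_lt a4 c14)
  have c17 : l 8 ≤ v 4 := le_of_lt (lt_of_lt_of_le c15 c11)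
  have c18 : S15 l v r := h.e15.resolve_right fun z => not_lt.mpr c16 z.1
  have c19 : ¬ S20 l v r := fun z => not_lt.mpr c17 z.1
  have c20 : r 3 < v 8 := c18.2.2
  have c21 : v 8 < l 4 := (h.e20.resolve_left c19).1
  not_lt.mpr c5 (lt_trans c20 c21)

theorem L356 {l v r : ℕ → ℝ} (h : H l v r) (a0 : S4 l v r) (a1 : r 0 ≤ v 10) (a2 : l 10 ≤ r 0) : False :=
  have c0 : l 15 < r 0 := a0.2.1
  have c1 : r 0 < v 15 := a0.2.2
  have c2 : l 15 ≤ v 10 := le_of_lt (lt_of_lt_of_le c0 a1)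
  have c3 : l 10 ≤ v 15 := le_of_lt (lt_of_le_of_lt a2 c1)
  have c4 : ¬ S34 l v r := fun z => not_lt.mpr c2 z.1
  not_lt.mpr c3 (h.e34.resolve_left c4).1

theorem L357 {l v r : ℕ → ℝ} (h : H l v r) (a0 : ¬ S20 l v r) (a1 : l 5 ≤ r 8) (a2 : l 10 ≤ v 8) (a3 : r 15 < v 0) (a4 : v 0 < v 10) (a5 : l 0 ≤ r 1) (a6 : l 1 < l 10) (a7 : l 11 ≤ v 5) : False :=
  have c0 : l 4 ≤ r 15 := not_lt.mp fun z => L204 h z
  have c1 : l 8 < v 8 := h.u8_0
  have c2 : l 4 < r 15 := not_le.mp fun z => L203 h z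
  have c3 : l 0 < r 11 := not_le.mp fun z => L271 h z
  have c4 : r 8 < v 4 := (h.e20.resolve_left a0).2.2
  have c5 : v 8 < l 4 := (h.e20.resolve_left a0).1
  have c6 : l 5 ≤ v 4 := le_of_lt (lt_of_le_of_lt a1 c4)
  have c7 : v 8 ≤ r 15 := le_of_lt (lt_of_lt_of_le c5 c0)
  have c8 : ¬ S19 l v r := fun z => not_lt.mpr c6 z.1
  have c9 : l 8 ≤ r 15 := le_of_lt (lt_of_lt_of_le c1 c7)
  have c10 : v 5 < l 4 := (h.e19.resolve_left c8).1
  have c11 : v 5 < r 15 := lt_trans c10 c2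
  have c12 : l 11 ≤ r 15 := le_of_lt (lt_of_le_of_lt a7 c11)
  have c13 : l 8 ≤ v 0 := le_of_lt (lt_of_le_of_lt c9 a3)
  have c14 : l 11 ≤ v 0 := le_of_lt (lt_of_le_of_lt c12 a3)
  have c15 : ¬ S1 l v r := fun z => not_lt.mpr c13 z.1
  have c16 : ¬ S3 l v r := fun z => not_lt.mpr c14 z.1
  have c17 : v 8 < l 0 := (h.e1.resolve_left c15).1
  have c18 : v 11 < l 0 := (h.e3.resolve_left c16).1
  have c19 : r 11 < v 0 := (h.e3.resolve_left c16).2.2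
  have c20 : v 8 < r 11 := lt_trans c17 c3
  have c21 : v 11 ≤ r 1 := le_of_lt (lt_of_lt_of_le c18 a5)
  have c22 : r 11 < v 10 := lt_trans c19 a4
  have c23 : l 10 < r 11 := lt_of_le_of_lt a2 c20
  have c24 : ¬ S9 l v r := fun z => not_lt.mpr c21 z.2.2
  have c25 : l 10 ≤ v 11 := not_lt.mp fun z => h.n11_10 z c23 c22
  have c26 : v 11 < l 1 := (h.e9.resolve_left c24).1
  not_lt.mpr c25 (lt_trans c26 a6)

theorem L358 {l v r : ℕ → ℝ} (h : H l v r) (a0 : S19 l v r) (a1 : l 5 ≤ r 13) (a2 : v 13 ≤ l 5) : False :=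
  have c0 : v 4 < l 5 := a0.1
  have c1 : l 5 < r 4 := a0.2.1
  have c2 : v 4 ≤ r 13 := le_of_lt (lt_of_lt_of_le c0 a1)
  have c3 : v 13 ≤ r 4 := le_of_lt (lt_of_le_of_lt a2 c1)
  have c4 : S21 l v r := h.e21.resolve_right fun z => not_lt.mpr c2 z.2.2
  not_lt.mpr c3 c4.2.2

theorem L359 {l v r : ℕ → ℝ} (h : H l v r) (a0 : r 0 ≤ r 13) (a1 : v 13 ≤ l 5) (a2 : l 5 ≤ r 0) (a3 : l 10 ≤ r 0) (a4 : l 0 ≤ r 1) (a5 : l 1 < l 10) (a6 : l 8 ≤ r 5) (a7 : l 11 ≤ v 5) (a8 : v 3 ≤ v 5) (a9 : r 13 < v 10) : False :=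
  have c0 : l 3 ≤ r 13 := not_lt.mp fun z => L182 h z
  have c1 : l 5 ≤ v 5 := not_lt.mp fun z => L135 h z
  have c2 : l 3 ≤ v 10 := le_of_lt (lt_of_le_of_lt c0 a9)
  have c3 : S16 l v r := h.e16.resolve_right fun z => not_lt.mpr c2 z.1
  have c4 : l 10 < r 3 := c3.2.1
  have c5 : l 10 ≤ r 3 := le_of_lt c4
  have c6 : v 0 < r 13 := not_le.mp fun z => L46 h z a0
  have c7 : l 5 ≤ r 13 := le_trans a2 a0
  have c8 : r 0 ≤ v 10 := le_of_lt (lt_of_le_of_lt a0 a9)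
  have c9 : v 0 < v 10 := lt_trans c6 a9
  have c10 : ¬ S4 l v r := fun z => L356 h z c8 a3
  have c11 : r 15 < v 0 := (h.e4.resolve_left c10).2.2
  have c12 : ¬ S19 l v r := fun z => L358 h z c7 a1
  have c13 : r 5 < v 4 := (h.e19.resolve_left c12).2.2
  have c14 : v 5 < r 8 := not_le.mp fun z => L196 h c12 a6 z
  have c15 : l 8 ≤ v 4 := le_of_lt (lt_of_le_of_lt a6 c13)
  have c16 : l 5 ≤ r 8 := le_of_lt (lt_of_le_of_lt c1 c14)
  have c17 : v 3 ≤ r 8 := le_of_lt (lt_of_le_of_lt a8 c14)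
  have c18 : ¬ S20 l v r := fun z => not_lt.mpr c15 z.1
  have c19 : S15 l v r := h.e15.resolve_right fun z => not_lt.mpr c17 z.2.2
  have c20 : v 8 < l 10 := not_le.mp fun z => L357 h c18 c16 z c11 c9 a4 a5 a7
  have c21 : r 3 < v 8 := c19.2.2
  not_lt.mpr c5 (lt_trans c21 c20)

theorem L360 {l v r : ℕ → ℝ} (h : H l v r) (a0 : ¬ S19 l v r) (a1 : r 13 ≤ r 0) (a2 : l 0 ≤ r 1) (a3 : l 17 ≤ r 0) (a4 : l 1 ≤ r 17) (a5 : l 8 ≤ r 5) (a6 : v 17 ≤ r 3) (a7 : r 17 ≤ v 5) (a8 : v 3 ≤ v 5) (a9 : l 13 ≤ r 5) : False :=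
  have c0 : l 0 < r 11 := not_le.mp fun z => L271 h z
  have c1 : r 5 < v 4 := (h.e19.resolve_left a0).2.2
  have c2 : v 5 < r 8 := not_le.mp fun z => L196 h a0 a5 z
  have c3 : l 13 ≤ v 4 := le_of_lt (lt_of_le_of_lt a9 c1)
  have c4 : l 8 ≤ v 4 := le_of_lt (lt_of_le_of_lt a5 c1)
  have c5 : v 3 ≤ r 8 := le_of_lt (lt_of_le_of_lt a8 c2)
  have c6 : r 17 ≤ r 8 := le_of_lt (lt_of_le_of_lt a7 c2)
  have c7 : ¬ S21 l v r := fun z => not_lt.mpr c3 z.1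
  have c8 : ¬ S20 l v r := fun z => not_lt.mpr c4 z.1
  have c9 : S15 l v r := h.e15.resolve_right fun z => not_lt.mpr c5 z.2.2
  have c10 : l 4 < r 13 := (h.e21.resolve_left c7).2.1
  have c11 : v 8 < l 4 := (h.e20.resolve_left c8).1
  have c12 : r 3 < v 8 := c9.2.2
  have c13 : l 4 ≤ r 0 := le_of_lt (lt_of_lt_of_le c10 a1)
  have c14 : v 8 ≤ r 0 := le_of_lt (lt_of_lt_of_le c11 c13)
  have c15 : v 17 ≤ v 8 := le_of_lt (lt_of_le_of_lt a6 c12)
  have c16 : ¬ S1 l v r := fun z => not_lt.mpr c14 z.2.2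
  have c17 : r 8 < v 0 := (h.e1.resolve_left c16).2.2
  have c18 : v 8 < l 0 := (h.e1.resolve_left c16).1
  have c19 : r 17 ≤ v 0 := le_of_lt (lt_of_le_of_lt c6 c17)
  have c20 : v 8 < r 11 := lt_trans c18 c0
  have c21 : ¬ S3 l v r := fun z => L202 h z c19 a3
  have c22 : v 17 ≤ r 11 := le_of_lt (lt_of_le_of_lt c15 c20)
  have c23 : v 11 < l 0 := (h.e3.resolve_left c21).1
  have c24 : ¬ S37 l v r := fun z => not_lt.mpr c22 z.2.2
  have c25 : v 11 ≤ r 1 := le_of_lt (lt_of_lt_of_le c23 a2)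
  have c26 : r 17 < v 11 := (h.e37.resolve_left c24).2.2
  have c27 : ¬ S9 l v r := fun z => not_lt.mpr c25 z.2.2
  have c28 : l 1 ≤ v 11 := le_of_lt (lt_of_le_of_lt a4 c26)
  not_lt.mpr c28 (h.e9.resolve_left c27).1

theorem L361 {l v r : ℕ → ℝ} (h : H l v r) (a0 : v 13 ≤ l 5) (a1 : l 5 ≤ r 0) (a2 : l 10 ≤ r 0) (a3 : l 0 ≤ r 1) (a4 : l 1 < l 10) (a5 : l 1 ≤ r 13) (a6 : l 5 ≤ r 1) (a7 : l 17 ≤ r 0) (a8 : l 1 ≤ r 17) (a9 : l 8 ≤ r 5) (a10 : v 17 ≤ r 3) (a11 : l 11 ≤ v 5) (a12 : r 17 ≤ v 5) (a13 : v 3 ≤ v 5) (a14 : l 13 ≤ r 5) (a15 : r 13 < v 10) : False :=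
  have c0 : r 13 < r 0 := not_le.mp fun z => L359 h z a0 a1 a2 a3 a4 a9 a11 a13 a15
  have c1 : r 13 ≤ r 0 := le_of_lt c0
  have c2 : S19 l v r := Classical.byContradiction fun z => L360 h z c1 a3 a7 a8 a9 a10 a12 a13 a14
  have c3 : v 4 < l 5 := c2.1
  have c4 : l 5 < r 4 := c2.2.1
  have c5 : v 4 ≤ r 1 := le_of_lt (lt_of_lt_of_le c3 a6)
  have c6 : v 13 ≤ r 4 := le_of_lt (lt_of_le_of_lt a0 c4)
  have c7 : ¬ S6 l v r := fun z => not_lt.mpr c5 z.2.2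
  have c8 : ¬ S21 l v r := fun z => not_lt.mpr c6 z.2.2
  have c9 : v 4 < l 1 := (h.e6.resolve_left c7).1
  have c10 : r 13 < v 4 := (h.e21.resolve_left c8).2.2
  not_lt.mpr a5 (lt_trans c10 c9)

theorem L362 {l v r : ℕ → ℝ} (h : H l v r) (a0 : ¬ S22 l v r) (a1 : l 4 ≤ r 10) (a2 : v 4 ≤ l 10) : False :=
  have c0 : r 15 < v 4 := (h.e22.resolve_left a0).2.2
  have c1 : v 15 < l 4 := (h.e22.resolve_left a0).1
  have c2 : r 15 ≤ l 10 := le_of_lt (lt_of_lt_of_le c0 a2)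
  have c3 : v 15 ≤ r 10 := le_of_lt (lt_of_lt_of_le c1 a1)
  have c4 : S34 l v r := h.e34.resolve_right fun z => not_lt.mpr c2 z.2.1
  not_lt.mpr c3 c4.2.2

theorem L363 {l v r : ℕ → ℝ} (h : H l v r) (a0 : ¬ S20 l v r) (a1 : v 4 ≤ l 0) (a2 : l 4 ≤ r 0) : False :=
  have c0 : r 8 < v 4 := (h.e20.resolve_left a0).2.2
  have c1 : v 8 < l 4 := (h.e20.resolve_left a0).1
  have c2 : r 8 ≤ l 0 := le_of_lt (lt_of_lt_of_le c0 a1)
  have c3 : v 8 ≤ r 0 := le_of_lt (lt_of_lt_of_le c1 a2)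
  have c4 : S1 l v r := h.e1.resolve_right fun z => not_lt.mpr c2 z.2.1
  not_lt.mpr c3 c4.2.2

theorem L364 {l v r : ℕ → ℝ} (h : H l v r) (a0 : ¬ S29 l v r) (a1 : r 13 ≤ v 5) (a2 : l 5 ≤ r 13) : False :=
  have c0 : l 7 < r 13 := (h.e29.resolve_left a0).2.1
  have c1 : r 13 < v 7 := (h.e29.resolve_left a0).2.2
  have c2 : l 7 ≤ v 5 := le_of_lt (lt_of_lt_of_le c0 a1)
  have c3 : l 5 ≤ v 7 := le_of_lt (lt_of_le_of_lt a2 c1)
  have c4 : ¬ S23 l v r := fun z => not_lt.mpr c2 z.1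
  not_lt.mpr c3 (h.e23.resolve_left c4).1

theorem L365 {l v r : ℕ → ℝ} (h : H l v r) (a0 : S19 l v r) (a1 : v 17 < l 10) (a2 : l 5 ≤ l 10) (a3 : l 5 ≤ r 13) (a4 : l 5 ≤ r 0) (a5 : l 10 ≤ r 0) (a6 : v 13 ≤ v 0) (a7 : l 10 < v 1) (a8 : l 13 ≤ r 0) (a9 : l 1 ≤ r 17) (a10 : v 17 ≤ l 5) (a11 : r 17 < v 5) (a12 : v 13 ≤ r 3) (a13 : l 3 ≤ l 5) (a14 : v 13 ≤ v 10) (a15 : r 13 ≤ v 10) (a16 : l 5 ≤ r 10) : False :=
  have c0 : l 0 < r 11 := not_le.mp fun z => L271 h z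
  have c1 : l 11 < r 17 := not_le.mp fun z => L308 h z
  have c2 : v 4 < l 5 := a0.1
  have c3 : l 5 < r 4 := a0.2.1
  have c4 : l 4 < l 5 := not_le.mp fun z => L2 h c2 z
  have c5 : v 4 ≤ r 13 := le_of_lt (lt_of_lt_of_le c2 a3)
  have c6 : v 4 ≤ l 10 := le_of_lt (lt_of_lt_of_le c2 a2)
  have c7 : l 3 ≤ r 4 := le_of_lt (lt_of_le_of_lt a13 c3)
  have c8 : v 17 ≤ r 4 := le_of_lt (lt_of_le_of_lt a10 c3)
  have c9 : l 4 ≤ r 10 := le_of_lt (lt_of_lt_of_le c4 a16)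
  have c10 : l 4 ≤ r 0 := le_of_lt (lt_of_lt_of_le c4 a4)
  have c11 : S21 l v r := h.e21.resolve_right fun z => not_lt.mpr c5 z.2.2
  have c12 : r 4 < v 13 := c11.2.2
  have c13 : r 4 ≤ v 0 := le_of_lt (lt_of_lt_of_le c12 a6)
  have c14 : r 4 ≤ v 10 := le_of_lt (lt_of_lt_of_le c12 a14)
  have c15 : S22 l v r := Classical.byContradiction fun z => L362 h z c9 c6
  have c16 : r 4 < l 0 := not_le.mp fun z => L257 h c15 c14 a5 z
  have c17 : v 4 ≤ l 0 := not_lt.mp fun z => L61 h c16 z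
  have c18 : r 4 < r 11 := lt_trans c16 c0
  have c19 : v 17 ≤ r 11 := le_of_lt (lt_of_le_of_lt c8 c18)
  have c20 : ¬ S37 l v r := fun z => not_lt.mpr c19 z.2.2
  have c21 : r 17 < v 11 := (h.e37.resolve_left c20).2.2
  have c22 : l 1 ≤ v 11 := le_of_lt (lt_of_le_of_lt a9 c21)
  have c23 : S9 l v r := h.e9.resolve_right fun z => not_lt.mpr c22 z.1
  have c24 : v 1 < l 11 := c23.1
  have c25 : v 1 < r 17 := lt_trans c24 c1
  have c26 : l 10 < r 17 := lt_trans a7 c25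
  have c27 : v 10 ≤ r 17 := not_lt.mp fun z => h.n17_10 a1 c26 z
  have c28 : v 10 < v 5 := lt_of_le_of_lt c27 a11
  have c29 : r 13 ≤ v 5 := le_of_lt (lt_of_le_of_lt a15 c28)
  have c30 : S20 l v r := Classical.byContradiction fun z => L363 h z c17 c10
  have c31 : r 4 < v 8 := c30.2.2
  have c32 : l 8 < r 4 := c30.2.1
  have c33 : l 3 ≤ v 8 := le_of_lt (lt_of_le_of_lt c7 c31)
  have c34 : l 8 ≤ v 0 := le_of_lt (lt_of_lt_of_le c32 c13)
  have c35 : S15 l v r := h.e15.resolve_right fun z => not_lt.mpr c33 z.1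
  have c36 : ¬ S1 l v r := fun z => not_lt.mpr c34 z.1
  have c37 : r 3 < v 8 := c35.2.2
  have c38 : v 8 < l 0 := (h.e1.resolve_left c36).1
  have c39 : v 13 ≤ v 8 := le_of_lt (lt_of_le_of_lt a12 c37)
  have c40 : v 13 ≤ l 0 := le_of_lt (lt_of_le_of_lt c39 c38)
  have c41 : S29 l v r := Classical.byContradiction fun z => L364 h z c29 a3
  have c42 : v 7 < l 13 := c41.1
  have c43 : r 7 < v 13 := c41.2.2
  have c44 : v 7 ≤ r 0 := le_of_lt (lt_of_lt_of_le c42 a8)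
  have c45 : r 7 ≤ l 0 := le_of_lt (lt_of_lt_of_le c43 c40)
  have c46 : ¬ S0 l v r := fun z => not_lt.mpr c44 z.2.2
  not_lt.mpr c45 (h.e0.resolve_left c46).2.1

theorem L366 {l v r : ℕ → ℝ} (h : H l v r) (a0 : ¬ S8 l v r) (a1 : v 13 ≤ r 0) (a2 : l 1 ≤ r 17) (a3 : l 8 ≤ r 5) (a4 : v 17 ≤ r 3) (a5 : v 17 < l 5) (a6 : r 17 < v 5) (a7 : v 3 ≤ v 5) (a8 : l 13 ≤ r 5) (a9 : l 3 ≤ l 5) (a10 : v 13 < l 10) (a11 : r 13 < v 10) (a12 : l 5 < r 9) : False :=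
  have c0 : r 9 ≤ r 10 := not_lt.mp fun z => L353 h z
  have c1 : l 12 ≤ v 13 := not_lt.mp fun z => L89 h z
  have c2 : l 3 ≤ r 13 := not_lt.mp fun z => L182 h z
  have c3 : l 11 ≤ r 17 := not_lt.mp fun z => L309 h z
  have c4 : r 12 ≤ v 13 := not_lt.mp fun z => L159 h z
  have c5 : l 13 ≤ v 13 := not_lt.mp fun z => L70 h z
  have c6 : l 17 ≤ v 13 := not_lt.mp fun z => L318 h z
  have c7 : v 1 ≤ r 1 := not_lt.mp fun z => L30 h z
  have c8 : l 10 < r 9 := not_le.mp fun z => L343 h z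
  have c9 : r 12 ≤ r 13 := not_lt.mp fun z => L167 h z
  have c10 : l 10 ≤ r 9 := not_lt.mp fun z => L349 h z
  have c11 : v 0 ≤ r 0 := not_lt.mp fun z => L141 h z
  have c12 : v 13 ≤ r 13 := not_lt.mp fun z => L168 h z
  have c13 : l 5 ≤ v 5 := not_lt.mp fun z => L135 h z
  have c14 : l 17 ≤ r 0 := le_trans c6 a1
  have c15 : l 13 ≤ r 0 := le_trans c5 a1
  have c16 : r 12 ≤ r 0 := le_trans c4 a1
  have c17 : v 17 ≤ l 5 := le_of_lt a5
  have c18 : l 11 ≤ v 5 := le_of_lt (lt_of_le_of_lt c3 a6)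
  have c19 : r 17 ≤ v 5 := le_of_lt a6
  have c20 : v 13 ≤ l 10 := le_of_lt a10
  have c21 : l 3 ≤ v 10 := le_of_lt (lt_of_le_of_lt c2 a11)
  have c22 : S16 l v r := h.e16.resolve_right fun z => not_lt.mpr c21 z.1
  have c23 : l 10 < r 3 := c22.2.1
  have c24 : v 13 ≤ r 3 := le_of_lt (lt_of_le_of_lt c20 c23)
  have c25 : l 10 ≤ r 3 := le_of_lt c23
  have c26 : v 13 ≤ r 9 := le_of_lt (lt_of_lt_of_le a10 c10)
  have c27 : l 12 ≤ r 9 := le_trans c1 c26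
  have c28 : r 12 < l 10 := lt_of_le_of_lt c4 a10
  have c29 : v 13 ≤ v 10 := le_of_lt (lt_of_le_of_lt c12 a11)
  have c30 : r 13 ≤ v 10 := le_of_lt a11
  have c31 : l 5 ≤ r 9 := le_of_lt a12
  have c32 : l 5 ≤ r 10 := le_of_lt (lt_of_lt_of_le a12 c0)
  have c33 : r 9 < v 1 := (h.e8.resolve_left a0).2.2
  have c34 : v 9 < l 1 := (h.e8.resolve_left a0).1
  have c35 : r 9 < r 1 := lt_of_lt_of_le c33 c7
  have c36 : r 9 ≤ r 1 := not_lt.mp fun z => L32 h z c33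
  have c37 : l 10 < v 1 := lt_trans c8 c33
  have c38 : l 12 ≤ v 1 := le_of_lt (lt_of_le_of_lt c27 c33)
  have c39 : v 9 ≤ l 1 := le_of_lt c34
  have c40 : l 5 ≤ r 1 := le_of_lt (lt_of_le_of_lt c31 c35)
  have c41 : ¬ S10 l v r := fun z => not_lt.mpr c38 z.1
  have c42 : l 1 < r 12 := (h.e10.resolve_left c41).2.1
  have c43 : l 1 ≤ r 13 := le_of_lt (lt_of_lt_of_le c42 c9)
  have c44 : l 1 < l 10 := lt_trans c42 c28
  have c45 : l 1 < r 0 := lt_of_lt_of_le c42 c16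
  have c46 : v 9 ≤ r 0 := le_of_lt (lt_of_le_of_lt c39 c45)
  have c47 : ¬ S2 l v r := fun z => not_lt.mpr c46 z.2.2
  have c48 : r 9 < v 0 := (h.e2.resolve_left c47).2.2
  have c49 : l 0 < r 9 := (h.e2.resolve_left c47).2.1
  have c50 : l 10 < v 0 := lt_of_le_of_lt c10 c48
  have c51 : r 9 < r 0 := lt_of_lt_of_le c48 c11
  have c52 : v 13 ≤ v 0 := le_of_lt (lt_of_le_of_lt c26 c48)
  have c53 : l 0 ≤ r 1 := le_of_lt (lt_of_lt_of_le c49 c36)
  have c54 : l 10 ≤ r 0 := le_of_lt (lt_of_lt_of_le c50 c11)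
  have c55 : l 5 ≤ r 0 := le_of_lt (lt_of_le_of_lt c31 c51)
  have c56 : l 5 < v 13 := not_le.mp fun z => L361 h z c55 c54 c53 c44 c43 c40 c14 a2 a3 a4 c18 c19 a7 a8 a11
  have c57 : l 5 ≤ r 13 := le_of_lt (lt_of_lt_of_le c56 c12)
  have c58 : l 5 < l 10 := lt_trans c56 a10
  have c59 : l 5 ≤ l 10 := le_of_lt (lt_of_lt_of_le c56 c20)
  have c60 : v 17 < l 10 := lt_trans a5 c58
  have c61 : ¬ S19 l v r := fun z => L365 h z c60 c59 c57 c55 c54 c52 c37 c15 a2 c17 a6 c24 a9 c29 c30 c32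
  have c62 : r 5 < v 4 := (h.e19.resolve_left c61).2.2
  have c63 : v 5 < r 8 := not_le.mp fun z => L196 h c61 a3 z
  have c64 : r 0 < r 13 := not_le.mp fun z => L360 h c61 z c53 c14 a2 a3 a4 c19 a7 a8
  have c65 : l 8 ≤ v 4 := le_of_lt (lt_of_le_of_lt a3 c62)
  have c66 : l 5 ≤ r 8 := le_of_lt (lt_of_le_of_lt c13 c63)
  have c67 : v 3 ≤ r 8 := le_of_lt (lt_of_le_of_lt a7 c63)
  have c68 : r 0 < v 10 := lt_trans c64 a11
  have c69 : r 0 ≤ v 10 := le_of_lt (lt_of_lt_of_le c64 c30)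
  have c70 : ¬ S20 l v r := fun z => not_lt.mpr c65 z.1
  have c71 : S15 l v r := h.e15.resolve_right fun z => not_lt.mpr c67 z.2.2
  have c72 : v 0 < v 10 := not_le.mp fun z => L134 h c68 z
  have c73 : ¬ S4 l v r := fun z => L356 h z c69 c54
  have c74 : r 3 < v 8 := c71.2.2
  have c75 : r 15 < v 0 := (h.e4.resolve_left c73).2.2
  have c76 : l 10 ≤ v 8 := le_of_lt (lt_of_le_of_lt c25 c74)
  L357 h c70 c66 c76 c75 c72 c53 c44 c18

theorem L367 {l v r : ℕ → ℝ} (h : H l v r) (a0 : l 5 < v 13) (a1 : r 1 < v 4) (a2 : v 17 ≤ r 4) (a3 : v 4 ≤ l 5) (a4 : l 4 ≤ l 5) (a5 : l 4 ≤ r 10) (a6 : r 1 ≤ r 9) (a7 : v 13 ≤ r 0) (a8 : l 13 ≤ v 17) (a9 : v 13 ≤ v 10) (a10 : v 13 < l 10) (a11 : v 9 < l 5) : False :=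
  have c0 : l 10 ≤ r 9 := not_lt.mp fun z => L349 h z
  have c1 : v 0 ≤ r 0 := not_lt.mp fun z => L141 h z
  have c2 : l 11 < r 1 := not_le.mp fun z => L219 h z
  have c3 : v 9 < v 13 := lt_trans a11 a0
  have c4 : l 5 < l 10 := lt_trans a0 a10
  have c5 : l 4 ≤ v 13 := le_of_lt (lt_of_le_of_lt a4 a0)
  have c6 : v 9 ≤ r 0 := le_of_lt (lt_of_lt_of_le c3 a7)
  have c7 : v 4 ≤ l 10 := le_of_lt (lt_of_le_of_lt a3 c4)
  have c8 : S21 l v r := h.e21.resolve_right fun z => not_lt.mpr c5 z.1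
  have c9 : ¬ S2 l v r := fun z => not_lt.mpr c6 z.2.2
  have c10 : S22 l v r := Classical.byContradiction fun z => L362 h z a5 c7
  have c11 : v 4 < l 13 := c8.1
  have c12 : r 4 < v 13 := c8.2.2
  have c13 : r 9 < v 0 := (h.e2.resolve_left c9).2.2
  have c14 : r 1 < l 13 := lt_trans a1 c11
  have c15 : r 4 ≤ v 10 := le_of_lt (lt_of_lt_of_le c12 a9)
  have c16 : l 10 < v 0 := lt_of_le_of_lt c0 c13
  have c17 : r 1 ≤ v 0 := le_of_lt (lt_of_le_of_lt a6 c13)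
  have c18 : r 1 ≤ v 17 := le_of_lt (lt_of_lt_of_le c14 a8)
  have c19 : l 10 ≤ r 0 := le_of_lt (lt_of_lt_of_le c16 c1)
  have c20 : l 0 < v 17 := not_le.mp fun z => L218 h c2 z c17 c18
  have c21 : r 4 < l 0 := not_le.mp fun z => L257 h c10 c15 c19 z
  not_lt.mpr a2 (lt_trans c21 c20)

theorem L368 {l v r : ℕ → ℝ} (h : H l v r) (a0 : ¬ S2 l v r) (a1 : l 17 ≤ l 4) (a2 : l 10 < r 17) (a3 : S6 l v r) (a4 : v 4 ≤ r 9) (a5 : l 4 ≤ r 9) (a6 : r 1 ≤ l 10) (a7 : r 1 ≤ r 9) : False :=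
  have c0 : r 9 < v 10 := not_le.mp fun z => L344 h z
  have c1 : l 9 ≤ v 9 := not_lt.mp fun z => L45 h z
  have c2 : v 17 ≤ r 17 := not_lt.mp fun z => L157 h z
  have c3 : l 11 < r 1 := not_le.mp fun z => L219 h z
  have c4 : r 9 < v 0 := (h.e2.resolve_left a0).2.2
  have c5 : l 0 < r 9 := (h.e2.resolve_left a0).2.1
  have c6 : v 9 < l 0 := (h.e2.resolve_left a0).1
  have c7 : r 1 ≤ v 0 := le_of_lt (lt_of_le_of_lt a7 c4)
  have c8 : v 4 ≤ v 0 := le_of_lt (lt_of_le_of_lt a4 c4)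
  have c9 : l 0 < v 10 := lt_trans c5 c0
  have c10 : l 9 ≤ l 0 := le_of_lt (lt_of_le_of_lt c1 c6)
  have c11 : r 17 < l 0 := not_le.mp fun z => L245 h a3 a1 c10 c8 z a5
  have c12 : v 17 ≤ l 0 := le_of_lt (lt_of_le_of_lt c2 c11)
  have c13 : r 17 < v 10 := lt_trans c11 c9
  have c14 : v 17 < r 1 := not_le.mp fun z => L218 h c3 c12 c7 z
  have c15 : l 10 ≤ v 17 := not_lt.mp fun z => h.n17_10 z a2 c13
  not_lt.mpr (le_trans a6 c15) c14

theorem L369 {l v r : ℕ → ℝ} (h : H l v r) (a0 : S22 l v r) (a1 : l 0 ≤ r 4) (a2 : r 0 ≤ v 4) : False :=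
  have c0 : v 4 < l 15 := a0.1
  have c1 : r 4 < v 15 := a0.2.2
  have c2 : r 0 ≤ l 15 := le_of_lt (lt_of_le_of_lt a2 c0)
  have c3 : l 0 ≤ v 15 := le_of_lt (lt_of_le_of_lt a1 c1)
  have c4 : ¬ S4 l v r := fun z => not_lt.mpr c2 z.2.1
  not_lt.mpr c3 (h.e4.resolve_left c4).1

theorem L370 {l v r : ℕ → ℝ} (h : H l v r) (a0 : v 13 ≤ r 0) (a1 : l 1 ≤ r 17) (a2 : l 13 ≤ v 17) (a3 : l 13 ≤ r 5) (a4 : l 3 ≤ l 5) (a5 : l 10 < r 13) (a6 : v 13 < l 10) (a7 : r 13 < v 10) (a8 : l 5 < r 3) (a9 : ¬ S24 l v r) : False :=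
  have c0 : l 9 ≤ v 9 := not_lt.mp fun z => L45 h z
  have c1 : v 13 ≤ r 13 := not_lt.mp fun z => L168 h z
  have c2 : v 9 < l 10 := not_le.mp fun z => L342 h z
  have c3 : l 3 ≤ r 13 := not_lt.mp fun z => L182 h z
  have c4 : l 17 < v 13 := not_le.mp fun z => L317 h z
  have c5 : l 10 ≤ r 9 := not_lt.mp fun z => L349 h z
  have c6 : v 5 ≤ r 5 := not_lt.mp fun z => L36 h z
  have c7 : l 8 ≤ r 3 := not_lt.mp fun z => L217 h z
  have c8 : l 3 ≤ v 13 := not_lt.mp fun z => L181 h z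
  have c9 : v 9 < r 10 := not_le.mp fun z => L346 h z
  have c10 : v 9 < r 9 := h.u9_1
  have c11 : v 9 ≤ l 10 := not_lt.mp fun z => L348 h z
  have c12 : l 4 < r 1 := not_le.mp fun z => L319 h z
  have c13 : l 4 ≤ r 1 := not_lt.mp fun z => L320 h z
  have c14 : l 5 ≤ r 17 := not_lt.mp fun z => L228 h z
  have c15 : l 17 ≤ v 13 := not_lt.mp fun z => L318 h z
  have c16 : l 9 ≤ l 10 := not_lt.mp fun z => L345 h z
  have c17 : l 4 ≤ r 8 := not_lt.mp fun z => L199 h z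
  have c18 : r 9 < v 5 := (h.e24.resolve_left a9).2.2
  have c19 : l 10 ≤ v 5 := le_of_lt (lt_of_le_of_lt c5 c18)
  have c20 : l 3 < l 10 := lt_of_le_of_lt c8 a6
  have c21 : l 3 ≤ v 5 := le_of_lt (lt_of_lt_of_le c20 c19)
  have c22 : S14 l v r := h.e14.resolve_right fun z => not_lt.mpr c21 z.1
  have c23 : r 3 < v 5 := c22.2.2
  have c24 : r 3 < r 5 := lt_of_lt_of_le c23 c6
  have c25 : l 8 ≤ r 5 := le_of_lt (lt_of_le_of_lt c7 c24)
  have c26 : l 5 ≤ r 3 := le_of_lt a8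
  have c27 : l 17 < l 10 := lt_trans c4 a6
  have c28 : l 17 ≤ v 5 := le_of_lt (lt_of_lt_of_le c27 c19)
  have c29 : ¬ S25 l v r := fun z => not_lt.mpr c28 z.1
  have c30 : v 17 < l 5 := (h.e25.resolve_left c29).1
  have c31 : v 17 ≤ r 3 := le_of_lt (lt_of_lt_of_le c30 c26)
  have c32 : v 17 ≤ l 5 := le_of_lt c30
  have c33 : r 17 < v 5 := (h.e25.resolve_left c29).2.2
  have c34 : l 3 ≤ v 10 := le_of_lt (lt_of_le_of_lt c3 a7)
  have c35 : S16 l v r := h.e16.resolve_right fun z => not_lt.mpr c34 z.1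
  have c36 : v 3 < l 10 := c35.1
  have c37 : v 3 ≤ v 5 := le_of_lt (lt_of_lt_of_le c36 c19)
  have c38 : v 9 ≤ r 13 := le_of_lt (lt_of_le_of_lt c11 a5)
  have c39 : v 9 < r 13 := lt_trans c2 a5
  have c40 : v 13 ≤ v 10 := le_of_lt (lt_of_le_of_lt c1 a7)
  have c41 : v 9 < l 5 := (h.e24.resolve_left a9).1
  have c42 : v 9 ≤ l 5 := le_of_lt c41
  have c43 : v 9 ≤ r 3 := le_of_lt (lt_of_le_of_lt c42 a8)
  have c44 : l 5 < r 9 := (h.e24.resolve_left a9).2.1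
  have c45 : l 5 ≤ r 9 := le_of_lt c44
  have c46 : l 9 ≤ l 5 := le_of_lt (lt_of_le_of_lt c0 c41)
  have c47 : l 3 ≤ r 0 := le_trans c8 a0
  have c48 : S8 l v r := Classical.byContradiction fun z => L366 h z a0 a1 c25 c31 c30 c33 c37 a3 a4 a6 a7 c44
  have c49 : r 1 < v 9 := c48.2.2
  have c50 : v 1 < l 9 := c48.1
  have c51 : r 1 < r 10 := lt_trans c49 c9
  have c52 : r 1 < r 9 := lt_trans c49 c10
  have c53 : r 1 ≤ r 9 := not_lt.mp fun z => L150 h z c49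
  have c54 : r 1 ≤ l 10 := le_of_lt (lt_of_lt_of_le c49 c11)
  have c55 : S19 l v r := Classical.byContradiction fun z => L315 h c41 c49 z
  have c56 : l 4 < v 9 := lt_trans c12 c49
  have c57 : v 1 ≤ l 5 := le_of_lt (lt_of_lt_of_le c50 c46)
  have c58 : l 4 ≤ r 10 := le_of_lt (lt_of_le_of_lt c13 c51)
  have c59 : l 4 ≤ r 9 := le_of_lt (lt_of_le_of_lt c13 c52)
  have c60 : v 4 < l 5 := c55.1
  have c61 : l 5 < r 4 := c55.2.1
  have c62 : l 4 ≤ l 5 := le_of_lt (lt_of_lt_of_le c56 c42)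
  have c63 : v 1 ≤ r 4 := le_of_lt (lt_of_le_of_lt c57 c61)
  have c64 : v 4 ≤ l 5 := le_of_lt c60
  have c65 : v 4 ≤ r 9 := le_of_lt (lt_of_lt_of_le c60 c45)
  have c66 : v 9 < r 4 := lt_trans c41 c61
  have c67 : v 17 ≤ r 4 := le_of_lt (lt_of_le_of_lt c32 c61)
  have c68 : S6 l v r := h.e6.resolve_right fun z => not_lt.mpr c63 z.2.2
  have c69 : r 1 < v 4 := c68.2.2
  have c70 : v 13 ≤ l 5 := not_lt.mp fun z => L367 h z c69 c67 c64 c62 c58 c53 a0 a2 c40 a6 c41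
  have c71 : r 13 < l 5 := not_le.mp fun z => L358 h c55 z c70
  have c72 : v 13 ≤ r 4 := le_of_lt (lt_of_le_of_lt c70 c61)
  have c73 : r 13 ≤ r 17 := le_of_lt (lt_of_lt_of_le c71 c14)
  have c74 : r 13 < r 3 := lt_trans c71 a8
  have c75 : ¬ S21 l v r := fun z => not_lt.mpr c72 z.2.2
  have c76 : l 10 < r 17 := lt_of_lt_of_le a5 c73
  have c77 : v 13 < l 4 := (h.e21.resolve_left c75).1
  have c78 : r 13 < v 4 := (h.e21.resolve_left c75).2.2
  have c79 : l 17 ≤ l 4 := le_of_lt (lt_of_le_of_lt c15 c77)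
  have c80 : v 9 ≤ v 4 := le_of_lt (lt_of_le_of_lt c38 c78)
  have c81 : S2 l v r := Classical.byContradiction fun z => L368 h z c79 c76 c68 c65 c59 c54 c53
  have c82 : r 0 < v 9 := c81.2.2
  have c83 : v 0 < l 9 := c81.1
  have c84 : l 0 ≤ v 9 := not_lt.mp fun z => L43 h c82 z
  have c85 : r 0 < r 13 := lt_trans c82 c39
  have c86 : r 0 ≤ r 13 := le_of_lt (lt_of_lt_of_le c82 c38)
  have c87 : r 0 ≤ v 4 := le_of_lt (lt_of_lt_of_le c82 c80)
  have c88 : v 0 ≤ l 10 := le_of_lt (lt_of_lt_of_le c83 c16)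
  have c89 : l 0 ≤ r 4 := le_of_lt (lt_of_le_of_lt c84 c66)
  have c90 : v 13 < v 0 := not_le.mp fun z => L355 h c49 c70 c86 z c47 c43 c41
  have c91 : ¬ S22 l v r := fun z => L369 h z c89 c87
  have c92 : v 15 < l 4 := (h.e22.resolve_left c91).1
  have c93 : l 15 < l 4 := not_le.mp fun z => L73 h c92 z
  have c94 : v 15 ≤ r 10 := le_of_lt (lt_of_lt_of_le c92 c58)
  have c95 : l 15 ≤ r 8 := le_of_lt (lt_of_lt_of_le c93 c17)
  have c96 : ¬ S34 l v r := fun z => not_lt.mpr c94 z.2.2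
  have c97 : l 10 < r 15 := (h.e34.resolve_left c96).2.1
  have c98 : v 0 ≤ r 15 := le_of_lt (lt_of_le_of_lt c88 c97)
  have c99 : S4 l v r := h.e4.resolve_right fun z => not_lt.mpr c98 z.2.2
  have c100 : v 0 < l 15 := c99.1
  have c101 : v 0 ≤ r 8 := le_of_lt (lt_of_lt_of_le c100 c95)
  have c102 : S1 l v r := h.e1.resolve_right fun z => not_lt.mpr c101 z.2.2
  have c103 : v 0 < l 8 := c102.1
  have c104 : r 0 < v 8 := c102.2.2
  have c105 : l 8 < r 0 := c102.2.1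
  have c106 : v 13 < l 8 := lt_trans c90 c103
  have c107 : l 3 ≤ v 8 := le_of_lt (lt_of_le_of_lt c47 c104)
  have c108 : l 8 < r 13 := lt_trans c105 c85
  have c109 : v 8 ≤ r 13 := not_lt.mp fun z => h.n13_8 c106 c108 z
  have c110 : S15 l v r := h.e15.resolve_right fun z => not_lt.mpr c107 z.1
  have c111 : v 8 ≤ r 3 := le_of_lt (lt_of_le_of_lt c109 c74)
  not_lt.mpr c111 c110.2.2

theorem L371 {l v r : ℕ → ℝ} (h : H l v r) (a0 : S4 l v r) (a1 : ¬ S22 l v r) (a2 : r 0 ≤ v 3) (a3 : l 5 < l 10) (a4 : r 0 ≤ v 10) (a5 : l 8 ≤ r 5) (a6 : v 3 ≤ v 5) : False :=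
  have c0 : l 4 ≤ r 8 := not_lt.mp fun z => L199 h z
  have c1 : v 15 < l 4 := (h.e22.resolve_left a1).1
  have c2 : l 15 < l 4 := not_le.mp fun z => L73 h c1 z
  have c3 : l 15 ≤ r 8 := le_of_lt (lt_of_lt_of_le c2 c0)
  have c4 : r 15 < v 4 := (h.e22.resolve_left a1).2.2
  have c5 : r 15 ≤ v 4 := le_of_lt c4
  have c6 : v 0 < l 15 := a0.1
  have c7 : l 15 < r 0 := a0.2.1
  have c8 : v 0 ≤ r 8 := le_of_lt (lt_of_lt_of_le c6 c3)
  have c9 : l 15 ≤ v 10 := le_of_lt (lt_of_lt_of_le c7 a4)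
  have c10 : S1 l v r := h.e1.resolve_right fun z => not_lt.mpr c8 z.2.2
  have c11 : ¬ S34 l v r := fun z => not_lt.mpr c9 z.1
  have c12 : l 8 < r 0 := c10.2.1
  have c13 : l 10 < r 15 := (h.e34.resolve_left c11).2.1
  have c14 : l 8 ≤ v 3 := le_of_lt (lt_of_lt_of_le c12 a2)
  have c15 : l 5 < r 15 := lt_trans a3 c13
  have c16 : ¬ S15 l v r := fun z => not_lt.mpr c14 z.1
  have c17 : l 5 ≤ v 4 := le_of_lt (lt_of_lt_of_le c15 c5)
  have c18 : r 8 < v 3 := (h.e15.resolve_left c16).2.2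
  have c19 : ¬ S19 l v r := fun z => not_lt.mpr c17 z.1
  have c20 : r 8 ≤ v 5 := le_of_lt (lt_of_lt_of_le c18 a6)
  L196 h c19 a5 c20

theorem L372 {l v r : ℕ → ℝ} (h : H l v r) (a0 : ¬ S4 l v r) (a1 : l 0 ≤ r 10) (a2 : v 0 ≤ l 10) : False :=
  have c0 : v 15 < l 0 := (h.e4.resolve_left a0).1
  have c1 : r 15 < v 0 := (h.e4.resolve_left a0).2.2
  have c2 : v 15 ≤ r 10 := le_of_lt (lt_of_lt_of_le c0 a1)
  have c3 : r 15 ≤ l 10 := le_of_lt (lt_of_lt_of_le c1 a2)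
  have c4 : ¬ S34 l v r := fun z => not_lt.mpr c2 z.2.2
  not_lt.mpr c3 (h.e34.resolve_left c4).2.1

theorem L373 {l v r : ℕ → ℝ} (h : H l v r) (a0 : ¬ S15 l v r) (a1 : v 4 ≤ l 3) (a2 : l 3 ≤ r 4) : False :=
  have c0 : l 3 < r 8 := (h.e15.resolve_left a0).2.1
  have c1 : v 8 < l 3 := (h.e15.resolve_left a0).1
  have c2 : v 4 ≤ r 8 := le_of_lt (lt_of_le_of_lt a1 c0)
  have c3 : v 8 ≤ r 4 := le_of_lt (lt_of_lt_of_le c1 a2)
  have c4 : S20 l v r := h.e20.resolve_right fun z => not_lt.mpr c2 z.2.2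
  not_lt.mpr c3 c4.2.2

theorem L374 {l v r : ℕ → ℝ} (h : H l v r) (a0 : ¬ S33 l v r) (a1 : l 5 < r 3) (a2 : l 10 ≤ r 5) (a3 : ¬ S17 l v r) : False :=
  have c0 : l 13 ≤ r 12 := not_lt.mp fun z => L88 h z
  have c1 : l 9 ≤ v 9 := not_lt.mp fun z => L45 h z
  have c2 : l 10 < r 9 := not_le.mp fun z => L343 h z
  have c3 : v 9 < l 10 := not_le.mp fun z => L342 h z
  have c4 : v 13 ≤ r 13 := not_lt.mp fun z => L168 h z
  have c5 : l 3 ≤ r 13 := not_lt.mp fun z => L182 h z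
  have c6 : l 10 ≤ r 9 := not_lt.mp fun z => L349 h z
  have c7 : l 3 ≤ v 13 := not_lt.mp fun z => L181 h z
  have c8 : l 13 ≤ v 13 := not_lt.mp fun z => L70 h z
  have c9 : l 5 < r 17 := not_le.mp fun z => L227 h z
  have c10 : v 5 ≤ r 5 := not_lt.mp fun z => L36 h z
  have c11 : l 8 ≤ r 3 := not_lt.mp fun z => L217 h z
  have c12 : v 17 ≤ r 17 := not_lt.mp fun z => L157 h z
  have c13 : l 0 ≤ r 0 := not_lt.mp fun z => L26 h z
  have c14 : v 0 ≤ r 0 := not_lt.mp fun z => L141 h z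
  have c15 : l 13 < r 12 := not_le.mp fun z => L83 h z
  have c16 : v 9 ≤ r 5 := le_of_lt (lt_of_lt_of_le c3 a2)
  have c17 : ¬ S24 l v r := fun z => not_lt.mpr c16 z.2.2
  have c18 : r 9 < v 5 := (h.e24.resolve_left c17).2.2
  have c19 : l 10 ≤ v 5 := le_of_lt (lt_of_le_of_lt c6 c18)
  have c20 : l 10 < v 5 := lt_trans c2 c18
  have c21 : v 9 < l 5 := (h.e24.resolve_left c17).1
  have c22 : l 9 ≤ l 5 := le_of_lt (lt_of_le_of_lt c1 c21)
  have c23 : v 12 < l 3 := (h.e17.resolve_left a3).1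
  have c24 : v 12 ≤ l 3 := le_of_lt c23
  have c25 : r 12 < v 3 := (h.e17.resolve_left a3).2.2
  have c26 : l 13 ≤ v 3 := le_of_lt (lt_of_le_of_lt c0 c25)
  have c27 : l 3 < r 12 := (h.e17.resolve_left a3).2.1
  have c28 : l 3 ≤ r 12 := le_of_lt c27
  have c29 : r 13 < v 10 := (h.e33.resolve_left a0).2.2
  have c30 : v 13 < l 10 := (h.e33.resolve_left a0).1
  have c31 : l 10 < r 13 := (h.e33.resolve_left a0).2.1
  have c32 : r 12 < l 5 := not_le.mp fun z => L267 h a0 z a2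
  have c33 : v 13 ≤ v 10 := le_of_lt (lt_of_le_of_lt c4 c29)
  have c34 : l 3 ≤ v 10 := le_of_lt (lt_of_le_of_lt c5 c29)
  have c35 : v 13 < r 5 := lt_of_lt_of_le c30 a2
  have c36 : v 13 ≤ r 9 := le_of_lt (lt_of_lt_of_le c30 c6)
  have c37 : v 13 ≤ l 10 := le_of_lt c30
  have c38 : v 13 ≤ r 5 := le_of_lt (lt_of_lt_of_le c30 a2)
  have c39 : l 3 < l 10 := lt_of_le_of_lt c7 c30
  have c40 : v 13 ≤ r 10 := not_lt.mp fun z => L173 h z c30
  have c41 : v 13 < v 5 := lt_trans c30 c20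
  have c42 : v 12 ≤ l 5 := not_lt.mp fun z => L114 h c32 z
  have c43 : l 3 ≤ l 5 := le_of_lt (lt_of_le_of_lt c28 c32)
  have c44 : S16 l v r := h.e16.resolve_right fun z => not_lt.mpr c34 z.1
  have c45 : l 13 ≤ r 5 := le_of_lt (lt_of_le_of_lt c8 c35)
  have c46 : l 3 ≤ v 5 := le_of_lt (lt_of_lt_of_le c39 c19)
  have c47 : v 12 ≤ r 17 := le_of_lt (lt_of_le_of_lt c42 c9)
  have c48 : l 10 < r 3 := c44.2.1
  have c49 : v 3 < l 10 := c44.1
  have c50 : S14 l v r := h.e14.resolve_right fun z => not_lt.mpr c46 z.1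
  have c51 : S40 l v r := h.e40.resolve_right fun z => not_lt.mpr c47 z.2.2
  have c52 : v 13 < r 3 := lt_trans c30 c48
  have c53 : v 3 ≤ v 5 := le_of_lt (lt_of_lt_of_le c49 c19)
  have c54 : r 3 < v 5 := c50.2.2
  have c55 : r 12 < v 17 := c51.2.2
  have c56 : r 3 < r 5 := lt_of_lt_of_le c54 c10
  have c57 : l 13 ≤ v 17 := not_lt.mp fun z => L155 h c55 z
  have c58 : l 1 ≤ v 17 := not_lt.mp fun z => L187 h c55 z
  have c59 : l 8 ≤ r 5 := le_of_lt (lt_of_le_of_lt c11 c56)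
  have c60 : l 1 ≤ r 17 := le_trans c58 c12
  have c61 : r 0 < v 13 := not_le.mp fun z => L370 h z c60 c57 c45 c43 c31 c30 c29 a1 c17
  have c62 : r 0 < l 10 := lt_of_lt_of_le c61 c37
  have c63 : r 0 ≤ v 10 := le_of_lt (lt_of_lt_of_le c61 c33)
  have c64 : l 0 ≤ v 13 := le_of_lt (lt_of_le_of_lt c13 c61)
  have c65 : v 0 < v 13 := lt_of_le_of_lt c14 c61
  have c66 : l 7 ≤ v 13 := not_lt.mp fun z => L194 h c61 z
  have c67 : r 0 ≤ r 5 := le_of_lt (lt_of_lt_of_le c61 c38)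
  have c68 : v 0 ≤ l 10 := le_of_lt (lt_of_le_of_lt c14 c62)
  have c69 : l 0 ≤ r 10 := le_trans c64 c40
  have c70 : l 0 ≤ r 3 := le_of_lt (lt_of_le_of_lt c64 c52)
  have c71 : v 0 ≤ r 9 := le_of_lt (lt_of_lt_of_le c65 c36)
  have c72 : S29 l v r := h.e29.resolve_right fun z => not_lt.mpr c66 z.1
  have c73 : l 7 ≤ v 5 := le_of_lt (lt_of_le_of_lt c66 c41)
  have c74 : S2 l v r := h.e2.resolve_right fun z => not_lt.mpr c71 z.2.2
  have c75 : v 7 < l 13 := c72.1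
  have c76 : r 7 < v 13 := c72.2.2
  have c77 : ¬ S23 l v r := fun z => not_lt.mpr c73 z.1
  have c78 : v 0 < l 9 := c74.1
  have c79 : v 7 < r 12 := lt_trans c75 c15
  have c80 : v 7 ≤ v 3 := le_of_lt (lt_of_lt_of_le c75 c26)
  have c81 : r 7 ≤ l 10 := le_of_lt (lt_of_lt_of_le c76 c37)
  have c82 : l 5 < r 7 := (h.e23.resolve_left c77).2.1
  have c83 : v 0 ≤ l 5 := le_of_lt (lt_of_lt_of_le c78 c22)
  have c84 : l 5 < l 10 := lt_of_lt_of_le c82 c81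
  have c85 : v 0 ≤ r 7 := le_of_lt (lt_of_le_of_lt c83 c82)
  have c86 : S0 l v r := h.e0.resolve_right fun z => not_lt.mpr c85 z.2.2
  have c87 : r 0 < v 7 := c86.2.2
  have c88 : r 0 < r 12 := lt_trans c87 c79
  have c89 : r 0 ≤ v 3 := le_of_lt (lt_of_lt_of_le c87 c80)
  have c90 : S4 l v r := Classical.byContradiction fun z => L372 h z c69 c68
  have c91 : l 15 < r 0 := c90.2.1
  have c92 : S22 l v r := Classical.byContradiction fun z => L371 h c90 z c89 c84 c63 c59 c53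
  have c93 : l 15 ≤ r 5 := le_of_lt (lt_of_lt_of_le c91 c67)
  have c94 : l 15 < r 12 := lt_trans c91 c88
  have c95 : v 4 < l 15 := c92.1
  have c96 : r 4 < v 15 := c92.2.2
  have c97 : v 4 ≤ r 5 := le_of_lt (lt_of_lt_of_le c95 c93)
  have c98 : S19 l v r := h.e19.resolve_right fun z => not_lt.mpr c97 z.2.2
  have c99 : l 5 < r 4 := c98.2.1
  have c100 : r 12 < r 4 := lt_trans c32 c99
  have c101 : l 3 ≤ r 4 := le_of_lt (lt_of_le_of_lt c43 c99)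
  have c102 : r 12 < v 15 := lt_trans c100 c96
  have c103 : l 15 ≤ v 12 := not_lt.mp fun z => h.n12_15 z c94 c102
  have c104 : v 4 < v 12 := lt_of_lt_of_le c95 c103
  have c105 : v 4 ≤ l 3 := le_of_lt (lt_of_lt_of_le c104 c24)
  have c106 : S15 l v r := Classical.byContradiction fun z => L373 h z c105 c101
  have c107 : v 3 < l 8 := c106.1
  have c108 : r 3 < v 8 := c106.2.2
  have c109 : r 0 ≤ l 8 := le_of_lt (lt_of_le_of_lt c89 c107)
  have c110 : l 0 ≤ v 8 := le_of_lt (lt_of_le_of_lt c70 c108)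
  have c111 : ¬ S1 l v r := fun z => not_lt.mpr c109 z.2.1
  not_lt.mpr c110 (h.e1.resolve_left c111).1

theorem L375 {l v r : ℕ → ℝ} (h : H l v r) (a0 : S22 l v r) (a1 : l 11 ≤ v 4) (a2 : v 1 ≤ v 4) (a3 : r 12 < r 4) (a4 : v 3 < r 4) (a5 : r 9 ≤ r 1) (a6 : v 12 < v 4) (a7 : l 3 < v 4) (a8 : r 5 ≤ v 4) (a9 : v 9 ≤ r 1) (a10 : r 9 ≤ r 4) (a11 : l 10 ≤ r 4) (a12 : l 5 ≤ r 12) (a13 : r 10 < v 13) (a14 : ¬ S17 l v r) : False :=
  have c0 : v 12 ≤ r 12 := not_lt.mp fun z => L93 h z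
  have c1 : v 9 ≤ r 9 := not_lt.mp fun z => L48 h z
  have c2 : v 12 ≤ r 4 := not_lt.mp fun z => L210 h z
  have c3 : l 13 ≤ r 12 := not_lt.mp fun z => L88 h z
  have c4 : l 13 < r 12 := not_le.mp fun z => L83 h z
  have c5 : l 12 ≤ v 12 := not_lt.mp fun z => L125 h z
  have c6 : ¬ S8 l v r := fun z => not_lt.mpr a9 z.2.2
  have c7 : r 9 < v 1 := (h.e8.resolve_left c6).2.2
  have c8 : v 9 ≤ v 1 := le_of_lt (lt_of_le_of_lt c1 c7)
  have c9 : v 12 < l 3 := (h.e17.resolve_left a14).1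
  have c10 : l 12 ≤ l 3 := not_lt.mp fun z => L126 h c9 z
  have c11 : r 12 < v 3 := (h.e17.resolve_left a14).2.2
  have c12 : l 12 ≤ v 3 := not_lt.mp fun z => L133 h c11 z
  have c13 : v 12 ≤ v 3 := le_of_lt (lt_of_le_of_lt c0 c11)
  have c14 : v 4 < l 15 := a0.1
  have c15 : r 4 < v 15 := a0.2.2
  have c16 : l 4 ≤ l 15 := not_lt.mp fun z => L75 h c14 z
  have c17 : v 12 < l 15 := lt_trans a6 c14
  have c18 : v 12 ≤ v 15 := le_of_lt (lt_of_le_of_lt c2 c15)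
  have c19 : l 10 ≤ v 15 := le_of_lt (lt_of_le_of_lt a11 c15)
  have c20 : r 12 < v 15 := lt_trans a3 c15
  have c21 : S34 l v r := h.e34.resolve_right fun z => not_lt.mpr c19 z.1
  have c22 : r 12 ≤ l 15 := not_lt.mp fun z => h.n12_15 c17 z c20
  have c23 : l 15 < r 10 := c21.2.1
  have c24 : l 13 ≤ l 15 := le_trans c3 c22
  have c25 : l 15 < v 13 := lt_trans c23 a13
  have c26 : l 4 ≤ v 13 := le_of_lt (lt_of_le_of_lt c16 c25)
  have c27 : S21 l v r := h.e21.resolve_right fun z => not_lt.mpr c26 z.1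
  have c28 : v 4 < l 13 := c27.1
  have c29 : r 4 < v 13 := c27.2.2
  have c30 : v 4 < r 12 := lt_trans c28 c4
  have c31 : l 3 < l 13 := lt_trans a7 c28
  have c32 : v 3 < v 13 := lt_trans a4 c29
  have c33 : v 1 ≤ r 12 := le_of_lt (lt_of_le_of_lt a2 c30)
  have c34 : l 11 ≤ r 12 := le_of_lt (lt_of_le_of_lt a1 c30)
  have c35 : S40 l v r := Classical.byContradiction fun z => L234 h z c31 c24 c32 c10 c12 c18 c13
  have c36 : S10 l v r := h.e10.resolve_right fun z => not_lt.mpr c33 z.2.2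
  have c37 : r 12 < v 17 := c35.2.2
  have c38 : v 12 < l 17 := c35.1
  have c39 : v 1 < l 12 := c36.1
  have c40 : l 5 ≤ v 17 := le_of_lt (lt_of_le_of_lt a12 c37)
  have c41 : l 11 ≤ v 17 := le_of_lt (lt_of_le_of_lt c34 c37)
  have c42 : l 12 ≤ l 17 := le_of_lt (lt_of_le_of_lt c5 c38)
  have c43 : v 1 ≤ l 17 := le_of_lt (lt_of_lt_of_le c39 c42)
  have c44 : S25 l v r := h.e25.resolve_right fun z => not_lt.mpr c40 z.1
  have c45 : S37 l v r := h.e37.resolve_right fun z => not_lt.mpr c41 z.1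
  have c46 : l 17 < r 5 := c44.2.1
  have c47 : v 11 < l 17 := c45.1
  have c48 : l 17 < r 11 := c45.2.1
  have c49 : l 17 ≤ v 4 := le_of_lt (lt_of_lt_of_le c46 a8)
  have c50 : v 11 ≤ v 4 := le_of_lt (lt_of_lt_of_le c47 c49)
  have c51 : v 1 ≤ r 11 := le_of_lt (lt_of_le_of_lt c43 c48)
  have c52 : S9 l v r := h.e9.resolve_right fun z => not_lt.mpr c51 z.2.2
  have c53 : r 1 < v 11 := c52.2.2
  have c54 : v 1 < l 11 := c52.1
  have c55 : v 9 < v 11 := lt_of_le_of_lt a9 c53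
  have c56 : r 9 ≤ v 11 := le_of_lt (lt_of_le_of_lt a5 c53)
  have c57 : v 9 ≤ l 11 := le_of_lt (lt_of_le_of_lt c8 c54)
  have c58 : v 9 < l 0 := not_le.mp fun z => L304 h z c55 c57
  have c59 : v 9 ≤ r 0 := not_lt.mp fun z => L43 h z c58
  have c60 : ¬ S2 l v r := fun z => not_lt.mpr c59 z.2.2
  have c61 : l 0 < r 9 := (h.e2.resolve_left c60).2.1
  have c62 : l 0 ≤ r 4 := le_of_lt (lt_of_lt_of_le c61 a10)
  have c63 : l 0 ≤ v 11 := le_of_lt (lt_of_lt_of_le c61 c56)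
  have c64 : v 4 < r 0 := not_le.mp fun z => L369 h a0 c62 z
  have c65 : S3 l v r := h.e3.resolve_right fun z => not_lt.mpr c63 z.1
  have c66 : v 11 ≤ r 0 := le_of_lt (lt_of_le_of_lt c50 c64)
  not_lt.mpr c66 c65.2.2

theorem L376 {l v r : ℕ → ℝ} (h : H l v r) (a0 : ¬ S19 l v r) (a1 : S15 l v r) (a2 : v 12 < r 5) (a3 : r 10 < v 13) (a4 : v 10 < l 13) (a5 : ¬ S24 l v r) (a6 : ¬ S17 l v r) : False :=
  have c0 : v 5 ≤ r 5 := not_lt.mp fun z => L36 h z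
  have c1 : l 13 ≤ v 13 := not_lt.mp fun z => L70 h z
  have c2 : l 13 ≤ r 13 := not_lt.mp fun z => L169 h z
  have c3 : l 10 < v 10 := h.u10_0
  have c4 : l 13 ≤ r 4 := not_lt.mp fun z => L208 h z
  have c5 : l 13 < r 4 := not_le.mp fun z => L207 h z
  have c6 : v 9 ≤ v 10 := not_lt.mp fun z => L347 h z
  have c7 : r 9 ≤ v 10 := not_lt.mp fun z => L352 h z
  have c8 : l 13 ≤ r 12 := not_lt.mp fun z => L88 h z
  have c9 : v 3 ≤ r 3 := not_lt.mp fun z => L177 h z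
  have c10 : l 4 ≤ r 15 := not_lt.mp fun z => L204 h z
  have c11 : l 4 < r 1 := not_le.mp fun z => L319 h z
  have c12 : v 4 ≤ r 4 := not_lt.mp fun z => L13 h z
  have c13 : l 11 ≤ r 1 := not_lt.mp fun z => L220 h z
  have c14 : l 0 < r 15 := not_le.mp fun z => L205 h z
  have c15 : r 9 ≤ r 10 := not_lt.mp fun z => L353 h z
  have c16 : l 4 < r 15 := not_le.mp fun z => L203 h z
  have c17 : r 12 < v 3 := (h.e17.resolve_left a6).2.2
  have c18 : l 13 ≤ v 3 := le_of_lt (lt_of_le_of_lt c8 c17)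
  have c19 : l 5 < r 9 := (h.e24.resolve_left a5).2.1
  have c20 : l 5 < v 10 := lt_of_lt_of_le c19 c7
  have c21 : l 5 < l 13 := lt_trans c20 a4
  have c22 : l 5 ≤ v 3 := le_of_lt (lt_of_lt_of_le c21 c18)
  have c23 : ¬ S14 l v r := fun z => not_lt.mpr c22 z.1
  have c24 : r 5 < v 3 := (h.e14.resolve_left c23).2.2
  have c25 : r 5 ≤ r 3 := le_of_lt (lt_of_lt_of_le c24 c9)
  have c26 : r 3 < v 8 := a1.2.2
  have c27 : r 5 ≤ v 8 := le_of_lt (lt_of_le_of_lt c25 c26)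
  have c28 : v 10 < v 3 := lt_of_lt_of_le a4 c18
  have c29 : v 9 ≤ v 3 := le_of_lt (lt_of_le_of_lt c6 c28)
  have c30 : v 3 < l 8 := a1.1
  have c31 : v 9 ≤ l 8 := le_of_lt (lt_of_le_of_lt c29 c30)
  have c32 : l 13 ≤ l 8 := le_of_lt (lt_of_le_of_lt c18 c30)
  have c33 : r 12 < l 8 := lt_trans c17 c30
  have c34 : r 5 ≤ v 3 := le_of_lt c24
  have c35 : r 5 ≤ l 8 := le_of_lt (lt_of_le_of_lt c34 c30)
  have c36 : l 3 < r 5 := (h.e14.resolve_left c23).2.1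
  have c37 : l 3 ≤ r 5 := le_of_lt c36
  have c38 : v 10 < r 4 := lt_trans a4 c5
  have c39 : r 9 ≤ r 4 := le_of_lt (lt_of_le_of_lt c7 c38)
  have c40 : l 10 < l 13 := lt_trans c3 a4
  have c41 : l 10 ≤ r 4 := le_of_lt (lt_of_lt_of_le c40 c4)
  have c42 : v 10 ≤ r 13 := le_of_lt (lt_of_lt_of_le a4 c2)
  have c43 : l 5 ≤ r 13 := le_of_lt (lt_of_lt_of_le c20 c42)
  have c44 : l 5 ≤ v 10 := le_of_lt (lt_of_lt_of_le c19 c7)
  have c45 : v 10 < r 12 := lt_of_lt_of_le a4 c8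
  have c46 : l 5 ≤ r 12 := le_of_lt (lt_of_le_of_lt c44 c45)
  have c47 : v 10 ≤ v 13 := le_of_lt (lt_of_lt_of_le a4 c1)
  have c48 : r 9 < v 5 := (h.e24.resolve_left a5).2.2
  have c49 : r 9 ≤ v 5 := le_of_lt c48
  have c50 : r 9 ≤ r 5 := le_of_lt (lt_of_lt_of_le c48 c0)
  have c51 : v 9 < l 5 := (h.e24.resolve_left a5).1
  have c52 : l 4 < r 5 := (h.e19.resolve_left a0).2.1
  have c53 : r 5 < v 4 := (h.e19.resolve_left a0).2.2
  have c54 : v 5 < l 4 := (h.e19.resolve_left a0).1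
  have c55 : v 9 ≤ r 1 := not_lt.mp fun z => L315 h c51 z a0
  have c56 : l 4 ≤ l 8 := le_of_lt (lt_of_lt_of_le c52 c35)
  have c57 : l 4 ≤ v 8 := le_of_lt (lt_of_lt_of_le c52 c27)
  have c58 : r 5 ≤ v 4 := le_of_lt c53
  have c59 : r 5 ≤ r 4 := not_lt.mp fun z => L176 h z c53
  have c60 : r 9 ≤ v 4 := le_of_lt (lt_of_le_of_lt c50 c53)
  have c61 : l 3 < v 4 := lt_of_le_of_lt c37 c53
  have c62 : v 12 < v 4 := lt_trans a2 c53
  have c63 : v 5 ≤ r 15 := le_of_lt (lt_of_lt_of_le c54 c10)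
  have c64 : v 5 < r 1 := lt_trans c54 c11
  have c65 : ¬ S8 l v r := fun z => not_lt.mpr c55 z.2.2
  have c66 : S20 l v r := h.e20.resolve_right fun z => not_lt.mpr c57 z.1
  have c67 : r 9 ≤ r 1 := le_of_lt (lt_of_le_of_lt c49 c64)
  have c68 : l 1 < r 9 := (h.e8.resolve_left c65).2.1
  have c69 : r 4 < v 8 := c66.2.2
  have c70 : l 8 < r 4 := c66.2.1
  have c71 : l 1 ≤ v 4 := le_of_lt (lt_of_lt_of_le c68 c60)
  have c72 : v 4 ≤ v 8 := le_of_lt (lt_of_le_of_lt c12 c69)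
  have c73 : v 3 < r 4 := lt_trans c30 c70
  have c74 : r 12 < r 4 := lt_trans c33 c70
  have c75 : S6 l v r := h.e6.resolve_right fun z => not_lt.mpr c71 z.1
  have c76 : v 1 < l 4 := c75.1
  have c77 : r 1 < v 4 := c75.2.2
  have c78 : v 1 ≤ v 4 := not_lt.mp fun z => L76 h z c76
  have c79 : l 11 ≤ v 4 := le_of_lt (lt_of_le_of_lt c13 c77)
  have c80 : ¬ S22 l v r := fun z => L375 h z c79 c78 c74 c73 c67 c62 c61 c58 c55 c39 c41 c46 a3 a6
  have c81 : r 15 < v 4 := (h.e22.resolve_left c80).2.2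
  have c82 : v 15 < l 4 := (h.e22.resolve_left c80).1
  have c83 : l 0 < v 4 := lt_trans c14 c81
  have c84 : v 15 ≤ l 8 := le_of_lt (lt_of_lt_of_le c82 c56)
  have c85 : l 0 ≤ v 8 := le_of_lt (lt_of_lt_of_le c83 c72)
  have c86 : S1 l v r := h.e1.resolve_right fun z => not_lt.mpr c85 z.1
  have c87 : l 8 < r 0 := c86.2.1
  have c88 : v 9 ≤ r 0 := le_of_lt (lt_of_le_of_lt c31 c87)
  have c89 : v 15 ≤ r 0 := le_of_lt (lt_of_le_of_lt c84 c87)
  have c90 : l 13 ≤ r 0 := le_of_lt (lt_of_le_of_lt c32 c87)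
  have c91 : ¬ S2 l v r := fun z => not_lt.mpr c88 z.2.2
  have c92 : ¬ S4 l v r := fun z => not_lt.mpr c89 z.2.2
  have c93 : l 0 < r 9 := (h.e2.resolve_left c91).2.1
  have c94 : v 15 < l 0 := (h.e4.resolve_left c92).1
  have c95 : l 0 ≤ r 10 := le_of_lt (lt_of_lt_of_le c93 c15)
  have c96 : l 0 ≤ r 5 := le_of_lt (lt_of_lt_of_le c93 c50)
  have c97 : v 15 ≤ r 10 := le_of_lt (lt_of_lt_of_le c94 c95)
  have c98 : ¬ S34 l v r := fun z => not_lt.mpr c97 z.2.2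
  have c99 : r 15 < v 10 := (h.e34.resolve_left c98).2.2
  have c100 : l 4 < v 10 := lt_trans c16 c99
  have c101 : r 15 < l 13 := lt_trans c99 a4
  have c102 : l 4 ≤ v 13 := le_of_lt (lt_of_lt_of_le c100 c47)
  have c103 : v 5 ≤ l 13 := le_of_lt (lt_of_le_of_lt c63 c101)
  have c104 : S21 l v r := h.e21.resolve_right fun z => not_lt.mpr c102 z.1
  have c105 : r 4 < v 13 := c104.2.2
  have c106 : r 5 ≤ v 13 := le_of_lt (lt_of_le_of_lt c59 c105)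
  have c107 : S29 l v r := Classical.byContradiction fun z => L290 h z c106 c43
  have c108 : l 13 < r 7 := c107.2.1
  have c109 : v 7 < l 13 := c107.1
  have c110 : v 5 ≤ r 7 := le_of_lt (lt_of_le_of_lt c103 c108)
  have c111 : v 7 ≤ r 0 := le_of_lt (lt_of_lt_of_le c109 c90)
  have c112 : S23 l v r := h.e23.resolve_right fun z => not_lt.mpr c110 z.2.2
  have c113 : ¬ S0 l v r := fun z => not_lt.mpr c111 z.2.2
  have c114 : r 5 < v 7 := c112.2.2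
  have c115 : v 7 < l 0 := (h.e0.resolve_left c113).1
  not_lt.mpr c96 (lt_trans c114 c115)

theorem L377 {l v r : ℕ → ℝ} (h : H l v r) (a0 : S15 l v r) (a1 : v 5 ≤ v 3) (a2 : v 12 < r 5) (a3 : r 10 < v 13) (a4 : v 10 < l 13) (a5 : ¬ S24 l v r) (a6 : ¬ S17 l v r) : False :=
  have c0 : r 9 ≤ v 10 := not_lt.mp fun z => L352 h z
  have c1 : l 13 ≤ r 12 := not_lt.mp fun z => L88 h z
  have c2 : l 8 ≤ r 8 := not_lt.mp fun z => L111 h z
  have c3 : r 12 < v 3 := (h.e17.resolve_left a6).2.2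
  have c4 : l 13 ≤ v 3 := le_of_lt (lt_of_le_of_lt c1 c3)
  have c5 : l 5 < r 9 := (h.e24.resolve_left a5).2.1
  have c6 : l 5 < v 10 := lt_of_lt_of_le c5 c0
  have c7 : l 5 < l 13 := lt_trans c6 a4
  have c8 : l 5 ≤ v 3 := le_of_lt (lt_of_lt_of_le c7 c4)
  have c9 : v 3 < l 8 := a0.1
  have c10 : v 3 < r 8 := lt_of_lt_of_le c9 c2
  have c11 : v 5 ≤ l 8 := le_of_lt (lt_of_le_of_lt a1 c9)
  have c12 : l 5 ≤ r 8 := le_of_lt (lt_of_le_of_lt c8 c10)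
  have c13 : S19 l v r := Classical.byContradiction fun z => L376 h z a0 a2 a3 a4 a5 a6
  have c14 : v 4 < l 5 := c13.1
  have c15 : r 4 < v 5 := c13.2.2
  have c16 : v 4 ≤ r 8 := le_of_lt (lt_of_lt_of_le c14 c12)
  have c17 : r 4 ≤ l 8 := le_of_lt (lt_of_lt_of_le c15 c11)
  have c18 : S20 l v r := h.e20.resolve_right fun z => not_lt.mpr c16 z.2.2
  not_lt.mpr c17 c18.2.1

theorem L378 {l v r : ℕ → ℝ} (h : H l v r) (a0 : ¬ S8 l v r) (a1 : r 9 ≤ v 2) (a2 : l 2 ≤ r 9) : False :=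
  have c0 : l 1 < r 9 := (h.e8.resolve_left a0).2.1
  have c1 : r 9 < v 1 := (h.e8.resolve_left a0).2.2
  have c2 : l 1 ≤ v 2 := le_of_lt (lt_of_lt_of_le c0 a1)
  have c3 : l 2 ≤ v 1 := le_of_lt (lt_of_le_of_lt a2 c1)
  have c4 : S5 l v r := h.e5.resolve_right fun z => not_lt.mpr c2 z.1
  not_lt.mpr c3 c4.1

theorem L379 {l v r : ℕ → ℝ} (h : H l v r) (a0 : ¬ S22 l v r) (a1 : l 8 ≤ v 5) (a2 : r 9 < v 8) (a3 : l 13 ≤ r 5) (a4 : l 4 ≤ r 10) (a5 : v 4 ≤ r 8) (a6 : v 4 ≤ r 9) (a7 : v 4 ≤ r 17) (a8 : v 8 ≤ v 13) (a9 : l 9 ≤ r 12) (a10 : l 5 ≤ r 12) (a11 : r 9 ≤ l 13) (a12 : v 9 ≤ l 13) (a13 : l 5 < r 9) : False :=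
  have c0 : v 4 ≤ r 4 := not_lt.mp fun z => L13 h z
  have c1 : l 15 ≤ r 15 := not_lt.mp fun z => L152 h z
  have c2 : l 0 < r 15 := not_le.mp fun z => L205 h z
  have c3 : v 9 < l 10 := not_le.mp fun z => L342 h z
  have c4 : v 9 ≤ r 9 := not_lt.mp fun z => L48 h z
  have c5 : l 0 ≤ r 11 := not_lt.mp fun z => L272 h z
  have c6 : l 7 < v 7 := h.u7_0
  have c7 : l 0 ≤ r 15 := not_lt.mp fun z => L206 h z
  have c8 : l 11 < r 1 := not_le.mp fun z => L219 h z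
  have c9 : S20 l v r := h.e20.resolve_right fun z => not_lt.mpr a5 z.2.2
  have c10 : v 4 < l 8 := c9.1
  have c11 : v 4 ≤ l 8 := le_of_lt c10
  have c12 : l 4 ≤ l 8 := not_lt.mp fun z => L23 h c10 z
  have c13 : r 4 < v 8 := c9.2.2
  have c14 : v 4 ≤ v 8 := le_of_lt (lt_of_le_of_lt c0 c13)
  have c15 : r 15 < v 4 := (h.e22.resolve_left a0).2.2
  have c16 : v 15 < l 4 := (h.e22.resolve_left a0).1
  have c17 : l 10 < v 4 := not_le.mp fun z => L362 h a0 a4 z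
  have c18 : l 15 ≤ v 4 := le_of_lt (lt_of_le_of_lt c1 c15)
  have c19 : l 0 < v 4 := lt_trans c2 c15
  have c20 : r 15 ≤ v 8 := le_of_lt (lt_of_lt_of_le c15 c14)
  have c21 : r 15 ≤ r 17 := le_of_lt (lt_of_lt_of_le c15 a7)
  have c22 : r 15 ≤ r 9 := le_of_lt (lt_of_lt_of_le c15 a6)
  have c23 : v 15 ≤ l 8 := le_of_lt (lt_of_lt_of_le c16 c12)
  have c24 : v 9 < v 4 := lt_trans c3 c17
  have c25 : l 15 ≤ r 8 := le_trans c18 a5
  have c26 : l 0 ≤ v 8 := le_of_lt (lt_of_lt_of_le c19 c14)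
  have c27 : S11 l v r := Classical.byContradiction fun z => L201 h z c20 c25
  have c28 : v 9 < l 8 := lt_trans c24 c10
  have c29 : v 9 ≤ l 8 := le_of_lt (lt_of_lt_of_le c24 c11)
  have c30 : S1 l v r := h.e1.resolve_right fun z => not_lt.mpr c26 z.1
  have c31 : l 8 < r 2 := c27.2.1
  have c32 : r 2 < v 8 := c27.2.2
  have c33 : r 9 ≤ l 8 := not_lt.mp fun z => h.n9_8 c28 z a2
  have c34 : v 0 < l 8 := c30.1
  have c35 : r 0 < v 8 := c30.2.2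
  have c36 : l 8 < r 0 := c30.2.1
  have c37 : v 0 < r 2 := lt_trans c34 c31
  have c38 : v 15 ≤ r 2 := le_of_lt (lt_of_le_of_lt c23 c31)
  have c39 : r 2 < v 13 := lt_of_lt_of_le c32 a8
  have c40 : l 5 ≤ l 8 := le_of_lt (lt_of_lt_of_le a13 c33)
  have c41 : v 0 ≤ v 5 := le_of_lt (lt_of_lt_of_le c34 a1)
  have c42 : r 0 < v 13 := lt_of_lt_of_le c35 a8
  have c43 : v 9 ≤ r 0 := le_of_lt (lt_of_le_of_lt c29 c36)
  have c44 : l 5 ≤ r 0 := le_of_lt (lt_of_le_of_lt c40 c36)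
  have c45 : v 15 ≤ r 0 := le_of_lt (lt_of_le_of_lt c23 c36)
  have c46 : ¬ S12 l v r := fun z => not_lt.mpr c38 z.2.2
  have c47 : l 7 ≤ v 13 := not_lt.mp fun z => L194 h c42 z
  have c48 : ¬ S2 l v r := fun z => not_lt.mpr c43 z.2.2
  have c49 : ¬ S4 l v r := fun z => not_lt.mpr c45 z.2.2
  have c50 : l 2 < r 15 := (h.e12.resolve_left c46).2.1
  have c51 : S29 l v r := h.e29.resolve_right fun z => not_lt.mpr c47 z.1
  have c52 : r 9 < v 0 := (h.e2.resolve_left c48).2.2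
  have c53 : v 9 < l 0 := (h.e2.resolve_left c48).1
  have c54 : l 2 ≤ r 9 := le_of_lt (lt_of_lt_of_le c50 c22)
  have c55 : l 13 < r 7 := c51.2.1
  have c56 : v 7 < l 13 := c51.1
  have c57 : v 9 ≤ v 0 := le_of_lt (lt_of_le_of_lt c4 c52)
  have c58 : v 9 ≤ r 11 := le_of_lt (lt_of_lt_of_le c53 c5)
  have c59 : v 9 ≤ r 7 := le_of_lt (lt_of_le_of_lt a12 c55)
  have c60 : v 7 ≤ r 5 := le_of_lt (lt_of_lt_of_le c56 a3)
  have c61 : ¬ S23 l v r := fun z => not_lt.mpr c60 z.2.2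
  have c62 : v 7 < l 5 := (h.e23.resolve_left c61).1
  have c63 : v 7 ≤ r 0 := le_of_lt (lt_of_lt_of_le c62 c44)
  have c64 : ¬ S0 l v r := fun z => not_lt.mpr c63 z.2.2
  have c65 : r 7 < v 0 := (h.e0.resolve_left c64).2.2
  have c66 : v 7 < l 0 := (h.e0.resolve_left c64).1
  have c67 : l 13 < v 0 := lt_trans c55 c65
  have c68 : l 7 < l 0 := lt_trans c6 c66
  have c69 : l 13 < r 2 := lt_trans c67 c37
  have c70 : l 7 ≤ r 15 := le_of_lt (lt_of_lt_of_le c68 c7)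
  have c71 : l 13 ≤ v 2 := not_lt.mp fun z => h.n2_13 z c69 c39
  have c72 : r 9 ≤ v 2 := le_trans a11 c71
  have c73 : S8 l v r := Classical.byContradiction fun z => L378 h z c72 c54
  have c74 : r 1 < v 9 := c73.2.2
  have c75 : v 1 < l 9 := c73.1
  have c76 : l 11 < v 9 := lt_trans c8 c74
  have c77 : r 1 ≤ r 11 := le_of_lt (lt_of_lt_of_le c74 c58)
  have c78 : v 1 ≤ r 12 := le_of_lt (lt_of_lt_of_le c75 a9)
  have c79 : l 11 ≤ r 7 := le_of_lt (lt_of_lt_of_le c76 c59)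
  have c80 : l 11 ≤ v 0 := le_of_lt (lt_of_lt_of_le c76 c57)
  have c81 : S10 l v r := h.e10.resolve_right fun z => not_lt.mpr c78 z.2.2
  have c82 : v 11 < r 15 := not_le.mp fun z => L195 h c49 c70 c79 z
  have c83 : ¬ S3 l v r := fun z => not_lt.mpr c80 z.1
  have c84 : l 12 < r 1 := c81.2.1
  have c85 : v 11 ≤ r 17 := le_of_lt (lt_of_lt_of_le c82 c21)
  have c86 : r 11 < v 0 := (h.e3.resolve_left c83).2.2
  have c87 : l 12 ≤ r 11 := le_of_lt (lt_of_lt_of_le c84 c77)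
  have c88 : S37 l v r := h.e37.resolve_right fun z => not_lt.mpr c85 z.2.2
  have c89 : r 11 ≤ v 5 := le_of_lt (lt_of_lt_of_le c86 c41)
  have c90 : r 11 < v 17 := c88.2.2
  have c91 : l 17 < r 11 := c88.2.1
  have c92 : l 17 ≤ v 5 := le_of_lt (lt_of_lt_of_le c91 c89)
  have c93 : l 12 ≤ v 17 := le_of_lt (lt_of_le_of_lt c87 c90)
  have c94 : ¬ S25 l v r := fun z => not_lt.mpr c92 z.1
  have c95 : S40 l v r := h.e40.resolve_right fun z => not_lt.mpr c93 z.1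
  have c96 : v 17 < l 5 := (h.e25.resolve_left c94).1
  have c97 : r 12 < v 17 := c95.2.2
  not_lt.mpr a10 (lt_trans c97 c96)

theorem L380 {l v r : ℕ → ℝ} (h : H l v r) (a0 : S37 l v r) (a1 : r 11 ≤ v 5) (a2 : l 12 ≤ r 11) (a3 : l 5 ≤ r 12) : False :=
  have c0 : r 11 < v 17 := a0.2.2
  have c1 : l 17 < r 11 := a0.2.1
  have c2 : l 12 ≤ v 17 := le_of_lt (lt_of_le_of_lt a2 c0)
  have c3 : l 17 ≤ v 5 := le_of_lt (lt_of_lt_of_le c1 a1)
  have c4 : S40 l v r := h.e40.resolve_right fun z => not_lt.mpr c2 z.1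
  have c5 : ¬ S25 l v r := fun z => not_lt.mpr c3 z.1
  have c6 : r 12 < v 17 := c4.2.2
  have c7 : v 17 < l 5 := (h.e25.resolve_left c5).1
  not_lt.mpr a3 (lt_trans c6 c7)

theorem L381 {l v r : ℕ → ℝ} (h : H l v r) (a0 : ¬ S35 l v r) (a1 : l 5 < l 10) (a2 : l 12 < l 5) (a3 : v 10 < v 5) (a4 : l 10 ≤ r 12) : False :=
  have c0 : r 16 < v 10 := (h.e35.resolve_left a0).2.2
  have c1 : v 16 < l 10 := (h.e35.resolve_left a0).1
  have c2 : l 10 < r 16 := (h.e35.resolve_left a0).2.1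
  have c3 : r 16 < v 5 := lt_trans c0 a3
  have c4 : v 16 ≤ r 12 := le_of_lt (lt_of_lt_of_le c1 a4)
  have c5 : l 5 < r 16 := lt_trans a1 c2
  have c6 : l 5 ≤ v 16 := not_lt.mp fun z => h.n16_5 z c5 c3
  have c7 : ¬ S39 l v r := fun z => not_lt.mpr c4 z.2.2
  have c8 : l 12 ≤ v 16 := le_of_lt (lt_of_lt_of_le a2 c6)
  not_lt.mpr c8 (h.e39.resolve_left c7).1

theorem L382 {l v r : ℕ → ℝ} (h : H l v r) (a0 : ¬ S2 l v r) (a1 : l 12 < l 5) (a2 : l 12 ≤ v 9) (a3 : l 11 ≤ r 9) (a4 : l 11 ≤ l 10) (a5 : l 11 ≤ r 10) (a6 : S22 l v r) (a7 : r 4 < r 10) (a8 : v 10 < v 5) (a9 : r 4 ≤ v 5) (a10 : v 4 ≤ v 10) (a11 : l 10 ≤ r 4) (a12 : l 5 ≤ r 12) (a13 : l 10 ≤ r 12) : False :=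
  have c0 : r 9 ≤ r 10 := not_lt.mp fun z => L353 h z
  have c1 : r 9 ≤ v 10 := not_lt.mp fun z => L352 h z
  have c2 : l 0 < r 11 := not_le.mp fun z => L271 h z
  have c3 : l 5 < r 17 := not_le.mp fun z => L227 h z
  have c4 : r 9 < v 0 := (h.e2.resolve_left a0).2.2
  have c5 : l 0 < r 9 := (h.e2.resolve_left a0).2.1
  have c6 : v 9 < l 0 := (h.e2.resolve_left a0).1
  have c7 : l 11 ≤ v 0 := le_of_lt (lt_of_le_of_lt a3 c4)
  have c8 : l 0 ≤ r 10 := le_of_lt (lt_of_lt_of_le c5 c0)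
  have c9 : l 0 ≤ v 10 := le_of_lt (lt_of_lt_of_le c5 c1)
  have c10 : v 9 < r 11 := lt_trans c6 c2
  have c11 : ¬ S3 l v r := fun z => not_lt.mpr c7 z.1
  have c12 : v 0 < r 4 := not_le.mp fun z => L292 h a6 z c8 a11
  have c13 : l 12 ≤ r 11 := le_of_lt (lt_of_le_of_lt a2 c10)
  have c14 : v 11 < l 0 := (h.e3.resolve_left c11).1
  have c15 : r 11 < v 0 := (h.e3.resolve_left c11).2.2
  have c16 : v 0 ≤ v 5 := le_of_lt (lt_of_lt_of_le c12 a9)
  have c17 : v 11 ≤ v 10 := le_of_lt (lt_of_lt_of_le c14 c9)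
  have c18 : r 11 ≤ v 5 := le_of_lt (lt_of_lt_of_le c15 c16)
  have c19 : r 11 < r 4 := lt_trans c15 c12
  have c20 : ¬ S37 l v r := fun z => L380 h z c18 c13 a12
  have c21 : v 17 < l 11 := (h.e37.resolve_left c20).1
  have c22 : r 17 < v 11 := (h.e37.resolve_left c20).2.2
  have c23 : v 17 < l 10 := lt_of_lt_of_le c21 a4
  have c24 : r 17 < v 10 := lt_of_lt_of_le c22 c17
  have c25 : r 17 ≤ l 10 := not_lt.mp fun z => h.n17_10 c23 z c24
  have c26 : l 5 < l 10 := lt_of_lt_of_le c3 c25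
  have c27 : S35 l v r := Classical.byContradiction fun z => L381 h z c26 a1 a8 a13
  have c28 : v 10 < l 16 := c27.1
  have c29 : r 10 < v 16 := c27.2.2
  have c30 : v 4 < l 16 := lt_of_le_of_lt a10 c28
  have c31 : l 11 ≤ v 16 := le_of_lt (lt_of_le_of_lt a5 c29)
  have c32 : r 4 < v 16 := lt_trans a7 c29
  have c33 : S36 l v r := h.e36.resolve_right fun z => not_lt.mpr c31 z.1
  have c34 : r 4 ≤ l 16 := not_lt.mp fun z => h.n4_16 c30 z c32
  have c35 : l 16 < r 11 := c33.2.1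
  not_lt.mpr c34 (lt_trans c35 c19)

theorem L383 {l v r : ℕ → ℝ} (h : H l v r) (a0 : S2 l v r) (a1 : v 9 ≤ l 15) : False :=
  have c0 : v 9 < r 10 := not_le.mp fun z => L346 h z
  have c1 : l 9 ≤ l 10 := not_lt.mp fun z => L345 h z
  have c2 : l 0 ≤ r 0 := not_lt.mp fun z => L26 h z
  have c3 : r 0 < v 9 := a0.2.2
  have c4 : v 0 < l 9 := a0.1
  have c5 : r 0 < r 10 := lt_trans c3 c0
  have c6 : r 0 ≤ l 15 := le_of_lt (lt_of_lt_of_le c3 a1)
  have c7 : v 0 ≤ l 10 := le_of_lt (lt_of_lt_of_le c4 c1)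
  have c8 : l 0 ≤ r 10 := le_of_lt (lt_of_le_of_lt c2 c5)
  have c9 : ¬ S4 l v r := fun z => not_lt.mpr c6 z.2.1
  L372 h c9 c8 c7

theorem L384 {l v r : ℕ → ℝ} (h : H l v r) (a0 : l 11 ≤ r 9) (a1 : l 11 ≤ r 12) (a2 : l 11 ≤ r 10) (a3 : l 12 ≤ v 9) (a4 : l 12 < l 5) (a5 : S22 l v r) (a6 : r 4 < r 10) (a7 : v 10 < v 5) (a8 : r 4 ≤ v 5) (a9 : v 4 ≤ v 10) (a10 : l 10 ≤ r 4) (a11 : l 5 ≤ r 12) (a12 : l 10 ≤ r 12) : False :=
  have c0 : r 9 ≤ v 10 := not_lt.mp fun z => L352 h z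
  have c1 : r 9 ≤ r 10 := not_lt.mp fun z => L353 h z
  have c2 : v 9 < l 10 := not_le.mp fun z => L342 h z
  have c3 : v 9 ≤ v 10 := not_lt.mp fun z => L347 h z
  have c4 : l 0 < r 11 := not_le.mp fun z => L271 h z
  have c5 : l 11 < r 17 := not_le.mp fun z => L308 h z
  have c6 : r 4 < v 15 := a5.2.2
  have c7 : l 10 ≤ v 15 := le_of_lt (lt_of_le_of_lt a10 c6)
  have c8 : S34 l v r := h.e34.resolve_right fun z => not_lt.mpr c7 z.1
  have c9 : v 10 < l 15 := c8.1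
  have c10 : v 9 ≤ l 15 := le_of_lt (lt_of_le_of_lt c3 c9)
  have c11 : ¬ S2 l v r := fun z => L383 h z c10
  have c12 : v 9 < l 0 := (h.e2.resolve_left c11).1
  have c13 : v 9 < r 11 := lt_trans c12 c4
  have c14 : l 12 ≤ r 11 := le_of_lt (lt_of_le_of_lt a3 c13)
  have c15 : l 12 ≤ l 10 := le_of_lt (lt_of_le_of_lt a3 c2)
  have c16 : l 0 < r 9 := (h.e2.resolve_left c11).2.1
  have c17 : l 0 ≤ r 10 := le_of_lt (lt_of_lt_of_le c16 c1)
  have c18 : v 0 < r 4 := not_le.mp fun z => L292 h a5 z c17 a10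
  have c19 : v 0 ≤ v 5 := le_of_lt (lt_of_lt_of_le c18 a8)
  have c20 : l 0 ≤ v 10 := le_of_lt (lt_of_lt_of_le c16 c0)
  have c21 : r 9 < v 0 := (h.e2.resolve_left c11).2.2
  have c22 : l 11 ≤ v 0 := le_of_lt (lt_of_le_of_lt a0 c21)
  have c23 : l 10 < l 11 := not_le.mp fun z => L382 h c11 a4 a3 a0 z a2 a5 a6 a7 a8 a9 a10 a11 a12
  have c24 : ¬ S3 l v r := fun z => not_lt.mpr c22 z.1
  have c25 : l 10 < r 17 := lt_trans c23 c5
  have c26 : v 11 < l 0 := (h.e3.resolve_left c24).1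
  have c27 : r 11 < v 0 := (h.e3.resolve_left c24).2.2
  have c28 : v 11 ≤ v 10 := le_of_lt (lt_of_lt_of_le c26 c20)
  have c29 : r 11 ≤ v 5 := le_of_lt (lt_of_lt_of_le c27 c19)
  have c30 : ¬ S37 l v r := fun z => L380 h z c29 c14 a11
  have c31 : v 17 < l 11 := (h.e37.resolve_left c30).1
  have c32 : r 17 < v 11 := (h.e37.resolve_left c30).2.2
  have c33 : v 17 ≤ r 12 := le_of_lt (lt_of_lt_of_le c31 a1)
  have c34 : r 17 < v 10 := lt_of_lt_of_le c32 c28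
  have c35 : ¬ S40 l v r := fun z => not_lt.mpr c33 z.2.2
  have c36 : l 10 ≤ v 17 := not_lt.mp fun z => h.n17_10 z c25 c34
  have c37 : v 17 < l 12 := (h.e40.resolve_left c35).1
  not_lt.mpr (le_trans c15 c36) c37

theorem L385 {l v r : ℕ → ℝ} (h : H l v r) (a0 : l 11 ≤ r 10) (a1 : l 12 ≤ v 9) (a2 : l 12 ≤ r 9) (a3 : l 12 < l 5) (a4 : r 10 < r 12) (a5 : S22 l v r) (a6 : r 4 < r 10) (a7 : v 10 < v 5) (a8 : r 4 ≤ v 5) (a9 : v 4 ≤ v 10) (a10 : l 10 ≤ r 4) (a11 : l 5 ≤ r 12) (a12 : l 10 ≤ r 12) : False :=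
  have c0 : v 9 < r 9 := h.u9_1
  have c1 : l 11 ≤ v 11 := not_lt.mp fun z => L39 h z
  have c2 : l 11 ≤ r 1 := not_lt.mp fun z => L220 h z
  have c3 : l 11 ≤ r 12 := le_of_lt (lt_of_le_of_lt a0 a4)
  have c4 : r 9 < l 11 := not_le.mp fun z => L384 h z c3 a0 a1 a3 a5 a6 a7 a8 a9 a10 a11 a12
  have c5 : v 9 < l 11 := lt_trans c0 c4
  have c6 : r 9 ≤ v 11 := le_of_lt (lt_of_lt_of_le c4 c1)
  have c7 : v 9 ≤ r 1 := le_of_lt (lt_of_lt_of_le c5 c2)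
  have c8 : ¬ S8 l v r := fun z => not_lt.mpr c7 z.2.2
  have c9 : l 1 < r 9 := (h.e8.resolve_left c8).2.1
  have c10 : r 9 < v 1 := (h.e8.resolve_left c8).2.2
  have c11 : l 1 ≤ v 11 := le_of_lt (lt_of_lt_of_le c9 c6)
  have c12 : l 12 ≤ v 1 := le_of_lt (lt_of_le_of_lt a2 c10)
  have c13 : S9 l v r := h.e9.resolve_right fun z => not_lt.mpr c11 z.1
  have c14 : ¬ S10 l v r := fun z => not_lt.mpr c12 z.1
  have c15 : v 1 < l 11 := c13.1
  have c16 : r 12 < v 1 := (h.e10.resolve_left c14).2.2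
  not_lt.mpr c3 (lt_trans c16 c15)

theorem L386 {l v r : ℕ → ℝ} (h : H l v r) (a0 : r 10 < l 11) (a1 : r 0 ≤ r 10) (a2 : v 0 ≤ r 10) : False :=
  have c0 : l 11 ≤ r 11 := not_lt.mp fun z => L67 h z
  have c1 : r 10 < r 11 := lt_of_lt_of_le a0 c0
  have c2 : r 0 ≤ l 11 := le_of_lt (lt_of_le_of_lt a1 a0)
  have c3 : v 0 ≤ r 11 := le_of_lt (lt_of_le_of_lt a2 c1)
  have c4 : ¬ S3 l v r := fun z => not_lt.mpr c2 z.2.1
  not_lt.mpr c3 (h.e3.resolve_left c4).2.2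

theorem L387 {l v r : ℕ → ℝ} (h : H l v r) (a0 : S3 l v r) (a1 : l 11 ≤ r 12) (a2 : v 12 ≤ v 0) (a3 : r 9 ≤ r 0) (a4 : v 9 < v 0) : False :=
  have c0 : l 11 < r 1 := not_le.mp fun z => L219 h z
  have c1 : l 11 ≤ r 1 := not_lt.mp fun z => L220 h z
  have c2 : r 0 < v 11 := a0.2.2
  have c3 : v 0 < l 11 := a0.1
  have c4 : r 9 ≤ v 11 := le_of_lt (lt_of_le_of_lt a3 c2)
  have c5 : v 9 < l 11 := lt_trans a4 c3
  have c6 : v 0 < r 1 := lt_trans c3 c0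
  have c7 : v 9 ≤ r 1 := le_of_lt (lt_of_lt_of_le c5 c1)
  have c8 : v 12 ≤ r 1 := le_of_lt (lt_of_le_of_lt a2 c6)
  have c9 : ¬ S8 l v r := fun z => not_lt.mpr c7 z.2.2
  have c10 : ¬ S10 l v r := fun z => not_lt.mpr c8 z.2.2
  have c11 : l 1 < r 9 := (h.e8.resolve_left c9).2.1
  have c12 : r 12 < v 1 := (h.e10.resolve_left c10).2.2
  have c13 : l 1 ≤ v 11 := le_of_lt (lt_of_lt_of_le c11 c4)
  have c14 : l 11 ≤ v 1 := le_of_lt (lt_of_le_of_lt a1 c12)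
  have c15 : S9 l v r := h.e9.resolve_right fun z => not_lt.mpr c13 z.1
  not_lt.mpr c14 c15.1

theorem L388 {l v r : ℕ → ℝ} (h : H l v r) (a0 : r 9 < v 1) (a1 : l 12 ≤ r 9) (a2 : l 1 < r 7) (a3 : l 11 ≤ r 9) (a4 : r 11 ≤ v 5) (a5 : r 7 < r 4) (a6 : v 7 < r 17) (a7 : l 4 ≤ r 9) (a8 : l 5 ≤ r 12) : False :=
  have c0 : l 12 ≤ v 12 := not_lt.mp fun z => L125 h z
  have c1 : l 1 < r 11 := not_le.mp fun z => L185 h z
  have c2 : l 4 ≤ v 1 := le_of_lt (lt_of_le_of_lt a7 a0)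
  have c3 : l 12 ≤ v 1 := le_of_lt (lt_of_le_of_lt a1 a0)
  have c4 : l 11 ≤ v 1 := le_of_lt (lt_of_le_of_lt a3 a0)
  have c5 : ¬ S6 l v r := fun z => not_lt.mpr c2 z.1
  have c6 : ¬ S10 l v r := fun z => not_lt.mpr c3 z.1
  have c7 : ¬ S9 l v r := fun z => not_lt.mpr c4 z.1
  have c8 : r 4 < v 1 := (h.e6.resolve_left c5).2.2
  have c9 : v 12 < l 1 := (h.e10.resolve_left c6).1
  have c10 : v 11 < l 1 := (h.e9.resolve_left c7).1
  have c11 : r 7 < v 1 := lt_trans a5 c8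
  have c12 : l 12 ≤ l 1 := le_of_lt (lt_of_le_of_lt c0 c9)
  have c13 : v 11 ≤ l 1 := le_of_lt c10
  have c14 : l 1 ≤ v 7 := not_lt.mp fun z => h.n7_1 z a2 c11
  have c15 : l 12 ≤ r 11 := le_of_lt (lt_of_le_of_lt c12 c1)
  have c16 : l 1 < r 17 := lt_of_le_of_lt c14 a6
  have c17 : ¬ S37 l v r := fun z => L380 h z a4 c15 a8
  have c18 : v 11 ≤ r 17 := le_of_lt (lt_of_le_of_lt c13 c16)
  not_lt.mpr c18 (h.e37.resolve_left c17).2.2

end Pool.Agent.R38.VetoProof
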