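import Pool.Agent.R38.VetoP2

set_option autoImplicit false

namespace Pool.Agent.R38.VetoProof

theorem L389 {l v r : ℕ → ℝ} (h : H l v r) (a0 : l 12 < l 5) (a1 : l 1 < r 7) (a2 : l 11 ≤ r 9) (a3 : r 11 ≤ v 5) (a4 : l 11 ≤ r 10) (a5 : r 10 < r 12) (a6 : r 7 < r 4) (a7 : v 7 < r 17) (a8 : S22 l v r) (a9 : l 4 ≤ r 9) (a10 : r 4 < r 10) (a11 : v 10 < v 5) (a12 : r 4 ≤ v 5) (a13 : v 4 ≤ v 10) (a14 : l 10 ≤ r 4) (a15 : r 9 ≤ r 12) (a16 : l 5 ≤ r 12) (a17 : l 10 ≤ r 12) (a18 : l 5 ≤ r 9) : False :=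
  have c0 : l 12 ≤ r 9 := le_of_lt (lt_of_lt_of_le a0 a18)
  have c1 : v 9 < l 12 := not_le.mp fun z => L385 h a4 z c0 a0 a5 a8 a10 a11 a12 a13 a14 a16 a17
  have c2 : v 9 ≤ l 12 := le_of_lt c1
  have c3 : v 1 ≤ r 9 := not_lt.mp fun z => L388 h z c0 a1 a2 a3 a6 a7 a9 a16
  have c4 : S8 l v r := h.e8.resolve_right fun z => not_lt.mpr c3 z.2.2
  have c5 : v 1 ≤ r 12 := le_trans c3 a15
  have c6 : r 1 < v 9 := c4.2.2
  have c7 : S10 l v r := h.e10.resolve_right fun z => not_lt.mpr c5 z.2.2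
  have c8 : r 1 ≤ l 12 := le_of_lt (lt_of_lt_of_le c6 c2)
  not_lt.mpr c8 c7.2.1

theorem L390 {l v r : ℕ → ℝ} (h : H l v r) (a0 : S8 l v r) (a1 : v 9 ≤ l 12) (a2 : l 9 ≤ r 12) : False :=
  have c0 : r 1 < v 9 := a0.2.2
  have c1 : v 1 < l 9 := a0.1
  have c2 : r 1 ≤ l 12 := le_of_lt (lt_of_lt_of_le c0 a1)
  have c3 : v 1 ≤ r 12 := le_of_lt (lt_of_lt_of_le c1 a2)
  have c4 : ¬ S10 l v r := fun z => not_lt.mpr c2 z.2.1
  not_lt.mpr c3 (h.e10.resolve_left c4).2.2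

theorem L391 {l v r : ℕ → ℝ} (h : H l v r) (a0 : S19 l v r) (a1 : v 8 ≤ r 10) (a2 : v 8 ≤ v 13) (a3 : l 5 ≤ r 8) (a4 : v 5 < r 12) (a5 : v 5 ≤ r 10) (a6 : v 5 < v 13) (a7 : v 5 < r 10) (a8 : l 10 ≤ r 4) (a9 : r 9 ≤ r 12) (a10 : l 9 ≤ r 12) (a11 : l 5 ≤ r 12) (a12 : l 10 ≤ r 12) (a13 : r 9 ≤ l 13) (a14 : v 9 ≤ l 13) (a15 : r 9 < l 13) (a16 : v 10 < r 4) (a17 : ¬ S24 l v r) : False :=
  have c0 : r 9 < v 10 := not_le.mp fun z => L344 h z
  have c1 : r 9 ≤ v 10 := not_lt.mp fun z => L352 h z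
  have c2 : l 5 ≤ r 17 := not_lt.mp fun z => L228 h z
  have c3 : v 5 ≤ r 5 := not_lt.mp fun z => L36 h z
  have c4 : l 13 ≤ r 4 := not_lt.mp fun z => L208 h z
  have c5 : v 9 ≤ v 10 := not_lt.mp fun z => L347 h z
  have c6 : v 9 < r 9 := h.u9_1
  have c7 : v 0 ≤ r 0 := not_lt.mp fun z => L141 h z
  have c8 : r 9 ≤ r 10 := not_lt.mp fun z => L353 h z
  have c9 : v 12 < l 13 := not_le.mp fun z => L82 h z
  have c10 : v 12 ≤ l 13 := not_lt.mp fun z => L143 h z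
  have c11 : l 5 < r 17 := not_le.mp fun z => L227 h z
  have c12 : l 11 ≤ v 11 := not_lt.mp fun z => L39 h z
  have c13 : l 1 ≤ r 11 := not_lt.mp fun z => L186 h z
  have c14 : l 12 < v 12 := h.u12_0
  have c15 : l 12 ≤ r 4 := not_lt.mp fun z => L212 h z
  have c16 : r 9 ≤ r 4 := le_of_lt (lt_of_le_of_lt c1 a16)
  have c17 : r 9 < r 4 := lt_trans c0 a16
  have c18 : l 5 < r 9 := (h.e24.resolve_left a17).2.1
  have c19 : l 5 ≤ v 10 := le_of_lt (lt_of_lt_of_le c18 c1)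
  have c20 : l 5 ≤ r 9 := le_of_lt c18
  have c21 : l 5 < v 10 := lt_of_lt_of_le c18 c1
  have c22 : l 5 ≤ r 10 := le_of_lt (lt_of_lt_of_le c18 c8)
  have c23 : v 9 < l 5 := (h.e24.resolve_left a17).1
  have c24 : v 4 < l 5 := a0.1
  have c25 : r 4 < v 5 := a0.2.2
  have c26 : l 4 < l 5 := not_le.mp fun z => L2 h c24 z
  have c27 : v 4 ≤ r 17 := le_of_lt (lt_of_lt_of_le c24 c2)
  have c28 : v 4 ≤ r 9 := le_of_lt (lt_of_lt_of_le c24 c20)
  have c29 : v 4 ≤ v 10 := le_of_lt (lt_of_lt_of_le c24 c19)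
  have c30 : v 4 ≤ r 8 := le_of_lt (lt_of_lt_of_le c24 a3)
  have c31 : r 4 < r 5 := lt_of_lt_of_le c25 c3
  have c32 : r 4 ≤ v 5 := le_of_lt c25
  have c33 : v 10 < v 5 := lt_trans a16 c25
  have c34 : r 4 < r 10 := lt_trans c25 a7
  have c35 : r 4 < v 13 := lt_trans c25 a6
  have c36 : r 4 ≤ r 10 := le_of_lt (lt_of_lt_of_le c25 a5)
  have c37 : r 4 < r 12 := lt_trans c25 a4
  have c38 : l 4 ≤ r 10 := le_of_lt (lt_of_lt_of_le c26 c22)
  have c39 : l 4 ≤ r 9 := le_of_lt (lt_of_lt_of_le c26 c20)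
  have c40 : S20 l v r := h.e20.resolve_right fun z => not_lt.mpr c30 z.2.2
  have c41 : l 13 ≤ r 5 := le_of_lt (lt_of_le_of_lt c4 c31)
  have c42 : r 4 < v 8 := c40.2.2
  have c43 : l 8 < r 4 := c40.2.1
  have c44 : r 9 < v 8 := lt_trans c17 c42
  have c45 : r 9 ≤ v 8 := le_of_lt (lt_of_le_of_lt c16 c42)
  have c46 : l 8 ≤ v 5 := le_of_lt (lt_of_lt_of_le c43 c32)
  have c47 : S22 l v r := Classical.byContradiction fun z => L379 h z c46 c44 c41 c38 c30 c28 c27 a2 a10 a11 a13 a14 c18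
  have c48 : l 15 < r 4 := c47.2.1
  have c49 : r 4 < v 15 := c47.2.2
  have c50 : l 15 < r 12 := lt_trans c48 c37
  have c51 : l 10 ≤ v 15 := le_of_lt (lt_of_le_of_lt a8 c49)
  have c52 : S34 l v r := h.e34.resolve_right fun z => not_lt.mpr c51 z.1
  have c53 : r 10 < v 15 := c52.2.2
  have c54 : v 10 < l 15 := c52.1
  have c55 : v 5 ≤ v 15 := le_of_lt (lt_of_le_of_lt a5 c53)
  have c56 : v 9 ≤ l 15 := le_of_lt (lt_of_le_of_lt c5 c54)
  have c57 : l 5 < l 15 := lt_trans c21 c54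
  have c58 : ¬ S2 l v r := fun z => L383 h z c56
  have c59 : r 9 < v 0 := (h.e2.resolve_left c58).2.2
  have c60 : l 0 < r 9 := (h.e2.resolve_left c58).2.1
  have c61 : v 9 < v 0 := lt_trans c6 c59
  have c62 : r 9 < r 0 := lt_of_lt_of_le c59 c7
  have c63 : r 9 ≤ r 0 := not_lt.mp fun z => L172 h z c59
  have c64 : l 0 ≤ r 10 := le_of_lt (lt_of_lt_of_le c60 c8)
  have c65 : l 0 < l 13 := lt_trans c60 a15
  have c66 : l 0 ≤ v 8 := le_of_lt (lt_of_lt_of_le c60 c45)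
  have c67 : l 5 ≤ r 0 := le_of_lt (lt_of_le_of_lt c20 c62)
  have c68 : v 0 < r 4 := not_le.mp fun z => L292 h c47 z c64 a8
  have c69 : S1 l v r := h.e1.resolve_right fun z => not_lt.mpr c66 z.1
  have c70 : v 0 ≤ r 10 := le_of_lt (lt_of_lt_of_le c68 c36)
  have c71 : v 0 ≤ v 5 := le_of_lt (lt_of_lt_of_le c68 c32)
  have c72 : v 0 < v 13 := lt_trans c68 c35
  have c73 : r 0 < v 8 := c69.2.2
  have c74 : r 0 < v 13 := lt_of_lt_of_le c73 a2
  have c75 : r 0 ≤ r 10 := le_of_lt (lt_of_lt_of_le c73 a1)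
  have c76 : l 7 ≤ v 13 := not_lt.mp fun z => L194 h c74 z
  have c77 : S29 l v r := h.e29.resolve_right fun z => not_lt.mpr c76 z.1
  have c78 : l 13 < r 7 := c77.2.1
  have c79 : v 7 < l 13 := c77.1
  have c80 : v 12 < r 7 := lt_trans c9 c78
  have c81 : v 12 ≤ r 7 := le_of_lt (lt_of_le_of_lt c10 c78)
  have c82 : v 7 ≤ r 5 := le_of_lt (lt_of_lt_of_le c79 c41)
  have c83 : ¬ S23 l v r := fun z => not_lt.mpr c82 z.2.2
  have c84 : r 7 < v 5 := (h.e23.resolve_left c83).2.2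
  have c85 : v 7 < l 5 := (h.e23.resolve_left c83).1
  have c86 : r 7 < v 15 := lt_of_lt_of_le c84 c55
  have c87 : v 7 < r 17 := lt_trans c85 c11
  have c88 : v 7 ≤ r 0 := le_of_lt (lt_of_lt_of_le c85 c67)
  have c89 : v 7 < l 15 := lt_trans c85 c57
  have c90 : r 7 ≤ l 15 := not_lt.mp fun z => h.n7_15 c89 z c86
  have c91 : ¬ S0 l v r := fun z => not_lt.mpr c88 z.2.2
  have c92 : r 7 < r 4 := lt_of_le_of_lt c90 c48
  have c93 : v 12 < l 15 := lt_of_lt_of_le c80 c90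
  have c94 : r 7 < v 0 := (h.e0.resolve_left c91).2.2
  have c95 : v 15 ≤ r 12 := not_lt.mp fun z => h.n12_15 c93 c50 z
  have c96 : v 12 ≤ v 0 := le_of_lt (lt_of_le_of_lt c81 c94)
  have c97 : r 10 < r 12 := lt_of_lt_of_le c53 c95
  have c98 : l 11 ≤ r 10 := not_lt.mp fun z => L386 h z c75 c70
  have c99 : l 11 ≤ r 12 := le_of_lt (lt_of_le_of_lt c98 c97)
  have c100 : ¬ S3 l v r := fun z => L387 h z c99 c96 c63 c61
  have c101 : v 11 < l 0 := (h.e3.resolve_left c100).1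
  have c102 : r 11 < v 0 := (h.e3.resolve_left c100).2.2
  have c103 : l 11 ≤ l 0 := le_of_lt (lt_of_le_of_lt c12 c101)
  have c104 : v 11 < l 13 := lt_trans c101 c65
  have c105 : r 11 < v 13 := lt_trans c102 c72
  have c106 : r 11 ≤ v 5 := le_of_lt (lt_of_lt_of_le c102 c71)
  have c107 : l 11 ≤ r 9 := le_of_lt (lt_of_le_of_lt c103 c60)
  have c108 : r 11 ≤ l 13 := not_lt.mp fun z => h.n11_13 c104 z c105
  have c109 : l 1 ≤ l 13 := le_trans c13 c108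
  have c110 : l 1 < r 7 := lt_of_le_of_lt c109 c78
  have c111 : l 5 ≤ l 12 := not_lt.mp fun z => L389 h z c110 c107 c106 c98 c97 c92 c87 c47 c39 c34 c33 c32 c29 a8 a9 a11 a12 c20
  have c112 : v 9 ≤ l 12 := le_of_lt (lt_of_lt_of_le c23 c111)
  have c113 : ¬ S8 l v r := fun z => L390 h z c112 a10
  have c114 : l 1 < r 9 := (h.e8.resolve_left c113).2.1
  have c115 : r 9 < v 1 := (h.e8.resolve_left c113).2.2
  have c116 : l 1 ≤ r 9 := le_of_lt c114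
  have c117 : l 4 ≤ v 1 := le_of_lt (lt_of_le_of_lt c39 c115)
  have c118 : r 9 < l 12 := not_le.mp fun z => L388 h c115 z c110 c107 c106 c92 c87 c39 a11
  have c119 : ¬ S6 l v r := fun z => not_lt.mpr c117 z.1
  have c120 : r 9 < v 12 := lt_trans c118 c14
  have c121 : r 4 < v 1 := (h.e6.resolve_left c119).2.2
  have c122 : l 1 ≤ v 12 := le_of_lt (lt_of_le_of_lt c116 c120)
  have c123 : l 12 ≤ v 1 := le_of_lt (lt_of_le_of_lt c15 c121)
  have c124 : S10 l v r := h.e10.resolve_right fun z => not_lt.mpr c122 z.1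
  not_lt.mpr c123 c124.1

theorem L392 {l v r : ℕ → ℝ} (h : H l v r) (a0 : v 7 < r 17) (a1 : r 11 ≤ v 5) (a2 : v 11 ≤ v 7) (a3 : v 5 ≤ v 7) : False :=
  have c0 : v 5 ≤ r 17 := le_of_lt (lt_of_le_of_lt a3 a0)
  have c1 : v 11 ≤ r 17 := le_of_lt (lt_of_le_of_lt a2 a0)
  have c2 : S25 l v r := h.e25.resolve_right fun z => not_lt.mpr c0 z.2.2
  have c3 : S37 l v r := h.e37.resolve_right fun z => not_lt.mpr c1 z.2.2
  have c4 : v 5 < l 17 := c2.1
  have c5 : l 17 < r 11 := c3.2.1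
  not_lt.mpr a1 (lt_trans c4 c5)

theorem L393 {l v r : ℕ → ℝ} (h : H l v r) (a0 : S35 l v r) (a1 : r 11 ≤ v 10) (a2 : l 11 ≤ r 10) : False :=
  have c0 : v 10 < l 16 := a0.1
  have c1 : r 10 < v 16 := a0.2.2
  have c2 : r 11 ≤ l 16 := le_of_lt (lt_of_le_of_lt a1 c0)
  have c3 : l 11 ≤ v 16 := le_of_lt (lt_of_le_of_lt a2 c1)
  have c4 : ¬ S36 l v r := fun z => not_lt.mpr c2 z.2.1
  not_lt.mpr c3 (h.e36.resolve_left c4).1

theorem L394 {l v r : ℕ → ℝ} (h : H l v r) (a0 : v 17 ≤ v 7) (a1 : l 5 < r 16) (a2 : r 16 ≤ l 6) (a3 : v 16 < l 10) (a4 : l 4 < v 10) (a5 : v 7 < r 6) (a6 : v 7 < r 12) (a7 : l 10 ≤ l 12) (a8 : l 5 < l 4) (a9 : v 12 < v 4) (a10 : l 12 ≤ r 5) (a11 : l 10 ≤ r 5) : False :=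
  have c0 : v 17 ≤ r 12 := le_of_lt (lt_of_le_of_lt a0 a6)
  have c1 : v 17 ≤ r 6 := le_of_lt (lt_of_le_of_lt a0 a5)
  have c2 : ¬ S40 l v r := fun z => not_lt.mpr c0 z.2.2
  have c3 : ¬ S28 l v r := fun z => not_lt.mpr c1 z.2.2
  have c4 : v 17 < l 12 := (h.e40.resolve_left c2).1
  have c5 : l 12 < r 17 := (h.e40.resolve_left c2).2.1
  have c6 : r 17 < v 12 := (h.e40.resolve_left c2).2.2
  have c7 : v 17 < l 5 := not_le.mp fun z => L287 h c2 z a11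
  have c8 : l 6 < r 17 := (h.e28.resolve_left c3).2.1
  have c9 : v 17 ≤ r 5 := le_of_lt (lt_of_lt_of_le c4 a10)
  have c10 : l 10 < r 17 := lt_of_le_of_lt a7 c5
  have c11 : r 17 < v 4 := lt_trans c6 a9
  have c12 : v 17 < l 4 := lt_trans c7 a8
  have c13 : ¬ S25 l v r := fun z => not_lt.mpr c9 z.2.2
  have c14 : r 17 ≤ l 4 := not_lt.mp fun z => h.n17_4 c12 z c11
  have c15 : r 17 < v 5 := (h.e25.resolve_left c13).2.2
  have c16 : r 17 < v 10 := lt_of_le_of_lt c14 a4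
  have c17 : l 6 < v 5 := lt_trans c8 c15
  have c18 : l 10 ≤ v 17 := not_lt.mp fun z => h.n17_10 z c10 c16
  have c19 : l 10 ≤ l 5 := le_of_lt (lt_of_le_of_lt c18 c7)
  have c20 : v 16 < l 5 := lt_of_lt_of_le a3 c19
  have c21 : r 16 < v 5 := lt_of_le_of_lt a2 c17
  h.n16_5 c20 a1 c21

theorem L395 {l v r : ℕ → ℝ} (h : H l v r) (a0 : r 15 < v 10) (a1 : r 11 ≤ r 15) (a2 : v 11 ≤ v 7) (a3 : v 11 ≤ l 12) (a4 : v 5 ≤ v 7) (a5 : v 7 < r 6) (a6 : v 7 < r 12) (a7 : l 10 < l 6) (a8 : l 4 < v 6) (a9 : l 11 ≤ r 10) (a10 : l 5 ≤ l 12) (a11 : l 10 ≤ l 12) (a12 : l 10 < l 4) (a13 : l 5 < l 4) (a14 : v 10 ≤ v 4) (a15 : v 12 < v 4) (a16 : l 12 ≤ r 5) (a17 : l 10 ≤ r 12) (a18 : l 10 ≤ r 5) : False :=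
  have c0 : v 9 < l 10 := not_le.mp fun z => L342 h z
  have c1 : l 10 ≤ r 9 := not_lt.mp fun z => L349 h z
  have c2 : l 4 < r 15 := not_le.mp fun z => L203 h z
  have c3 : v 17 ≤ r 17 := not_lt.mp fun z => L157 h z
  have c4 : v 9 ≤ r 5 := le_of_lt (lt_of_lt_of_le c0 a18)
  have c5 : ¬ S24 l v r := fun z => not_lt.mpr c4 z.2.2
  have c6 : r 9 < v 5 := (h.e24.resolve_left c5).2.2
  have c7 : l 10 ≤ v 5 := le_of_lt (lt_of_le_of_lt c1 c6)
  have c8 : l 4 < v 10 := lt_trans c2 a0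
  have c9 : r 11 ≤ v 10 := le_of_lt (lt_of_le_of_lt a1 a0)
  have c10 : ¬ S35 l v r := fun z => L393 h z c9 a9
  have c11 : v 16 < l 10 := (h.e35.resolve_left c10).1
  have c12 : r 16 ≤ l 4 := not_lt.mp fun z => L301 h c10 z a12 a14
  have c13 : v 16 ≤ r 12 := le_of_lt (lt_of_lt_of_le c11 a17)
  have c14 : v 16 ≤ v 5 := le_of_lt (lt_of_lt_of_le c11 c7)
  have c15 : v 16 < l 6 := lt_trans c11 a7
  have c16 : r 16 < v 6 := lt_of_le_of_lt c12 a8
  have c17 : ¬ S39 l v r := fun z => not_lt.mpr c13 z.2.2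
  have c18 : r 16 ≤ l 6 := not_lt.mp fun z => h.n16_6 c15 z c16
  have c19 : l 12 < r 16 := (h.e39.resolve_left c17).2.1
  have c20 : l 5 < r 16 := lt_of_le_of_lt a10 c19
  have c21 : v 11 ≤ r 16 := le_of_lt (lt_of_le_of_lt a3 c19)
  have c22 : v 7 < v 17 := not_le.mp fun z => L394 h z c20 c18 c11 c8 a5 a6 a11 a13 a15 a16 a18
  have c23 : S36 l v r := h.e36.resolve_right fun z => not_lt.mpr c21 z.2.2
  have c24 : v 7 < r 17 := lt_of_lt_of_le c22 c3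
  have c25 : r 11 < v 16 := c23.2.2
  have c26 : v 5 < r 11 := not_le.mp fun z => L392 h c24 z a2 a4
  not_lt.mpr c14 (lt_trans c26 c25)

theorem L396 {l v r : ℕ → ℝ} (h : H l v r) (a0 : ¬ S35 l v r) (a1 : v 10 < v 6) (a2 : v 1 ≤ l 15) (a3 : v 7 < r 15) (a4 : v 11 ≤ v 7) (a5 : v 11 ≤ l 12) (a6 : v 5 ≤ v 7) (a7 : v 7 < r 6) (a8 : v 7 < r 12) (a9 : l 10 < l 6) (a10 : l 10 ≤ l 12) (a11 : r 9 ≤ l 12) (a12 : ¬ S8 l v r) (a13 : l 10 < l 4) (a14 : v 10 ≤ v 4) (a15 : v 12 < v 4) (a16 : l 10 ≤ r 12) (a17 : l 10 ≤ r 5) : False :=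
  have c0 : v 9 < l 10 := not_le.mp fun z => L342 h z
  have c1 : l 10 ≤ r 9 := not_lt.mp fun z => L349 h z
  have c2 : l 16 ≤ v 16 := not_lt.mp fun z => L112 h z
  have c3 : v 17 ≤ r 17 := not_lt.mp fun z => L157 h z
  have c4 : l 4 < r 1 := not_le.mp fun z => L319 h z
  have c5 : v 9 ≤ r 5 := le_of_lt (lt_of_lt_of_le c0 a17)
  have c6 : ¬ S24 l v r := fun z => not_lt.mpr c5 z.2.2
  have c7 : r 9 < v 5 := (h.e24.resolve_left c6).2.2
  have c8 : l 10 ≤ v 5 := le_of_lt (lt_of_le_of_lt c1 c7)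
  have c9 : l 5 < r 9 := (h.e24.resolve_left c6).2.1
  have c10 : r 16 < v 10 := (h.e35.resolve_left a0).2.2
  have c11 : v 16 < l 10 := (h.e35.resolve_left a0).1
  have c12 : r 16 ≤ l 4 := not_lt.mp fun z => L301 h a0 z a13 a14
  have c13 : r 16 < v 6 := lt_trans c10 a1
  have c14 : l 16 < l 10 := lt_of_le_of_lt c2 c11
  have c15 : v 16 ≤ r 12 := le_of_lt (lt_of_lt_of_le c11 a16)
  have c16 : v 16 ≤ v 5 := le_of_lt (lt_of_lt_of_le c11 c8)
  have c17 : v 16 < l 6 := lt_trans c11 a9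
  have c18 : r 16 ≤ l 6 := not_lt.mp fun z => h.n16_6 c17 z c13
  have c19 : l 16 ≤ l 12 := le_of_lt (lt_of_lt_of_le c14 a10)
  have c20 : ¬ S39 l v r := fun z => not_lt.mpr c15 z.2.2
  have c21 : l 12 < r 16 := (h.e39.resolve_left c20).2.1
  have c22 : l 12 < l 4 := lt_of_lt_of_le c21 c12
  have c23 : v 11 ≤ r 16 := le_of_lt (lt_of_le_of_lt a5 c21)
  have c24 : S36 l v r := h.e36.resolve_right fun z => not_lt.mpr c23 z.2.2
  have c25 : r 11 < v 16 := c24.2.2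
  have c26 : r 11 ≤ v 5 := le_of_lt (lt_of_lt_of_le c25 c16)
  have c27 : r 17 ≤ v 7 := not_lt.mp fun z => L392 h z c26 a4 a6
  have c28 : v 17 ≤ v 7 := le_trans c3 c27
  have c29 : r 17 < r 15 := lt_of_le_of_lt c27 a3
  have c30 : v 17 ≤ r 12 := le_of_lt (lt_of_le_of_lt c28 a8)
  have c31 : v 17 ≤ r 6 := le_of_lt (lt_of_le_of_lt c28 a7)
  have c32 : ¬ S40 l v r := fun z => not_lt.mpr c30 z.2.2
  have c33 : ¬ S28 l v r := fun z => not_lt.mpr c31 z.2.2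
  have c34 : v 17 < l 12 := (h.e40.resolve_left c32).1
  have c35 : l 12 < r 17 := (h.e40.resolve_left c32).2.1
  have c36 : r 17 < v 12 := (h.e40.resolve_left c32).2.2
  have c37 : v 17 < l 5 := not_le.mp fun z => L287 h c32 z a17
  have c38 : l 6 < r 17 := (h.e28.resolve_left c33).2.1
  have c39 : v 17 < l 4 := lt_trans c34 c22
  have c40 : r 9 ≤ r 17 := le_of_lt (lt_of_le_of_lt a11 c35)
  have c41 : l 16 ≤ r 17 := le_of_lt (lt_of_le_of_lt c19 c35)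
  have c42 : r 17 < v 4 := lt_trans c36 a15
  have c43 : v 17 < r 9 := lt_trans c37 c9
  have c44 : r 16 < r 17 := lt_of_le_of_lt c18 c38
  have c45 : r 17 ≤ l 4 := not_lt.mp fun z => h.n17_4 c39 z c42
  have c46 : r 17 ≤ r 1 := le_of_lt (lt_of_le_of_lt c45 c4)
  have c47 : r 17 < v 2 := not_le.mp fun z => L232 h z c46 c29 a2
  have c48 : r 9 ≤ v 2 := le_of_lt (lt_of_le_of_lt c40 c47)
  have c49 : l 16 ≤ v 2 := le_of_lt (lt_of_le_of_lt c41 c47)
  have c50 : r 9 < l 2 := not_le.mp fun z => L378 h a12 c48 z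
  have c51 : ¬ S13 l v r := fun z => not_lt.mpr c49 z.1
  have c52 : v 17 < l 2 := lt_trans c43 c50
  have c53 : l 2 < r 16 := (h.e13.resolve_left c51).2.1
  have c54 : r 17 ≤ l 2 := not_lt.mp fun z => h.n17_2 c52 z c47
  not_lt.mpr c54 (lt_trans c53 c44)

theorem L397 {l v r : ℕ → ℝ} (h : H l v r) (a0 : r 11 < v 0) (a1 : r 9 ≤ v 7) (a2 : v 5 ≤ v 7) (a3 : v 7 < r 6) (a4 : l 3 < r 6) (a5 : v 7 < r 10) (a6 : v 7 < r 12) (a7 : l 10 < l 6) (a8 : l 6 ≤ r 10) (a9 : l 4 < v 6) (a10 : r 8 ≤ r 10) (a11 : l 4 ≤ r 10) (a12 : l 11 ≤ r 10) (a13 : l 5 ≤ l 12) (a14 : l 10 ≤ l 12) (a15 : r 9 ≤ l 12) (a16 : v 1 ≤ r 8) (a17 : v 1 ≤ v 4) (a18 : v 1 ≤ r 15) (a19 : r 9 ≤ r 1) (a20 : ¬ S8 l v r) (a21 : l 10 < l 4) (a22 : l 5 < l 4) (a23 : v 8 ≤ v 4) (a24 : v 10 ≤ v 4) (a25 : v 12 < v 4) (a26 : l 12 ≤ r 5) (a27 : v 10 < l 3) (a28 : r 9 ≤ r 4) (a29 : l 10 ≤ r 12) (a30 : l 10 ≤ r 5) (a31 : r 12 < v 3) : False :=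
  have c0 : l 9 < v 9 := h.u9_0
  have c1 : l 1 ≤ r 11 := not_lt.mp fun z => L186 h z
  have c2 : r 9 ≤ r 10 := not_lt.mp fun z => L353 h z
  have c3 : r 9 ≤ v 10 := not_lt.mp fun z => L352 h z
  have c4 : v 15 < r 15 := h.u15_1
  have c5 : v 9 < l 1 := (h.e8.resolve_left a20).1
  have c6 : l 9 < l 1 := lt_trans c0 c5
  have c7 : l 9 ≤ r 11 := le_of_lt (lt_of_lt_of_le c6 c1)
  have c8 : l 11 ≤ v 0 := not_lt.mp fun z => L144 h a0 z
  have c9 : l 9 ≤ v 0 := le_of_lt (lt_of_le_of_lt c7 a0)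
  have c10 : ¬ S3 l v r := fun z => not_lt.mpr c8 z.1
  have c11 : ¬ S2 l v r := fun z => not_lt.mpr c9 z.1
  have c12 : v 11 < l 0 := (h.e3.resolve_left c10).1
  have c13 : l 0 < r 9 := (h.e2.resolve_left c11).2.1
  have c14 : v 11 < r 9 := lt_trans c12 c13
  have c15 : l 0 ≤ r 10 := le_of_lt (lt_of_lt_of_le c13 c2)
  have c16 : l 0 ≤ v 10 := le_of_lt (lt_of_lt_of_le c13 c3)
  have c17 : l 0 ≤ r 4 := le_of_lt (lt_of_lt_of_le c13 a28)
  have c18 : l 0 ≤ v 7 := le_of_lt (lt_of_lt_of_le c13 a1)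
  have c19 : v 11 ≤ r 1 := le_of_lt (lt_of_lt_of_le c14 a19)
  have c20 : v 11 ≤ l 12 := le_of_lt (lt_of_lt_of_le c14 a15)
  have c21 : v 11 ≤ v 7 := le_of_lt (lt_of_lt_of_le c14 a1)
  have c22 : S0 l v r := h.e0.resolve_right fun z => not_lt.mpr c18 z.1
  have c23 : ¬ S9 l v r := fun z => not_lt.mpr c19 z.2.2
  have c24 : r 0 < v 7 := c22.2.2
  have c25 : r 11 < v 1 := (h.e9.resolve_left c23).2.2
  have c26 : r 0 < r 12 := lt_trans c24 a6
  have c27 : r 11 ≤ r 8 := le_of_lt (lt_of_lt_of_le c25 a16)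
  have c28 : r 11 ≤ r 15 := le_of_lt (lt_of_lt_of_le c25 a18)
  have c29 : v 10 ≤ r 15 := not_lt.mp fun z => L395 h z c28 c21 c20 a2 a3 a6 a7 a9 a12 a13 a14 a21 a22 a24 a25 a26 a29 a30
  have c30 : S34 l v r := h.e34.resolve_right fun z => not_lt.mpr c29 z.2.2
  have c31 : r 10 < v 15 := c30.2.2
  have c32 : r 10 < r 15 := lt_trans c31 c4
  have c33 : l 4 ≤ v 15 := le_of_lt (lt_of_le_of_lt a11 c31)
  have c34 : l 6 ≤ v 15 := le_of_lt (lt_of_le_of_lt a8 c31)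
  have c35 : l 0 ≤ v 15 := le_of_lt (lt_of_le_of_lt c15 c31)
  have c36 : v 7 < r 15 := lt_trans a5 c32
  have c37 : S22 l v r := h.e22.resolve_right fun z => not_lt.mpr c33 z.1
  have c38 : S27 l v r := h.e27.resolve_right fun z => not_lt.mpr c34 z.1
  have c39 : S4 l v r := h.e4.resolve_right fun z => not_lt.mpr c35 z.1
  have c40 : v 4 < l 15 := c37.1
  have c41 : v 4 < r 0 := not_le.mp fun z => L369 h c37 c17 z
  have c42 : r 6 < v 15 := c38.2.2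
  have c43 : l 15 < r 0 := c39.2.1
  have c44 : v 12 < l 15 := lt_trans a25 c40
  have c45 : v 1 ≤ l 15 := le_of_lt (lt_of_le_of_lt a17 c40)
  have c46 : v 8 ≤ r 0 := le_of_lt (lt_of_le_of_lt a23 c41)
  have c47 : r 6 ≤ v 15 := le_of_lt c42
  have c48 : l 15 < r 12 := lt_trans c43 c26
  have c49 : v 15 ≤ r 12 := not_lt.mp fun z => h.n12_15 c44 c48 z
  have c50 : ¬ S1 l v r := fun z => not_lt.mpr c46 z.2.2
  have c51 : r 6 ≤ r 12 := le_trans c47 c49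
  have c52 : v 8 < l 0 := (h.e1.resolve_left c50).1
  have c53 : r 6 < v 3 := lt_of_le_of_lt c51 a31
  have c54 : v 8 ≤ v 10 := le_of_lt (lt_of_lt_of_le c52 c16)
  have c55 : l 3 ≤ v 6 := not_lt.mp fun z => h.n6_3 z a4 c53
  have c56 : v 10 < v 6 := lt_of_lt_of_le a27 c55
  have c57 : S35 l v r := Classical.byContradiction fun z => L396 h z c56 c45 c36 c21 c20 a2 a3 a6 a7 a14 a15 a20 a21 a24 a25 a29 a30
  have c58 : v 10 < l 16 := c57.1
  have c59 : r 10 < v 16 := c57.2.2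
  have c60 : v 8 < l 16 := lt_of_le_of_lt c54 c58
  have c61 : l 11 ≤ v 16 := le_of_lt (lt_of_le_of_lt a12 c59)
  have c62 : r 8 < v 16 := lt_of_le_of_lt a10 c59
  have c63 : S36 l v r := h.e36.resolve_right fun z => not_lt.mpr c61 z.1
  have c64 : r 8 ≤ l 16 := not_lt.mp fun z => h.n8_16 c60 z c62
  have c65 : l 16 < r 11 := c63.2.1
  not_lt.mpr (le_trans c27 c64) c65

theorem L398 {l v r : ℕ → ℝ} (h : H l v r) (a0 : S10 l v r) (a1 : l 11 < r 4) (a2 : v 1 ≤ r 8) (a3 : v 1 ≤ v 4) (a4 : v 1 ≤ r 15) (a5 : l 8 ≤ r 15) (a6 : r 8 ≤ v 4) (a7 : r 9 ≤ r 1) (a8 : ¬ S8 l v r) (a9 : l 10 < l 4) (a10 : v 5 ≤ r 1) (a11 : l 5 < l 4) (a12 : v 8 ≤ v 4) (a13 : v 10 ≤ v 4) (a14 : v 12 < v 4) (a15 : l 3 < v 4) (a16 : r 5 ≤ r 4) (a17 : v 12 ≤ r 8) (a18 : l 12 ≤ r 5) (a19 : v 10 < l 3) (a20 : r 9 ≤ r 4) (a21 : l 5 ≤ r 13) (a22 : l 10 ≤ r 12) (a23 : l 10 ≤ r 5) (a24 : r 12 < v 3) : False :=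
  have c0 : v 5 ≤ r 5 := not_lt.mp fun z => L36 h z
  have c1 : l 10 ≤ r 9 := not_lt.mp fun z => L349 h z
  have c2 : l 10 < r 9 := not_le.mp fun z => L343 h z
  have c3 : v 9 < l 10 := not_le.mp fun z => L342 h z
  have c4 : v 12 < l 13 := not_le.mp fun z => L82 h z
  have c5 : v 12 < v 13 := not_le.mp fun z => L86 h z
  have c6 : v 12 ≤ v 13 := not_lt.mp fun z => L84 h z
  have c7 : l 11 < r 1 := not_le.mp fun z => L219 h z
  have c8 : l 11 ≤ r 1 := not_lt.mp fun z => L220 h z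
  have c9 : l 4 ≤ r 1 := not_lt.mp fun z => L320 h z
  have c10 : v 12 ≤ r 10 := not_lt.mp fun z => L334 h z
  have c11 : v 1 < r 1 := h.u1_1
  have c12 : l 4 < r 1 := not_le.mp fun z => L319 h z
  have c13 : l 13 < r 12 := not_le.mp fun z => L83 h z
  have c14 : l 13 < r 10 := not_le.mp fun z => L331 h z
  have c15 : l 0 ≤ v 0 := not_lt.mp fun z => L64 h z
  have c16 : v 9 ≤ r 5 := le_of_lt (lt_of_lt_of_le c3 a23)
  have c17 : ¬ S24 l v r := fun z => not_lt.mpr c16 z.2.2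
  have c18 : l 5 < r 9 := (h.e24.resolve_left c17).2.1
  have c19 : l 5 ≤ r 9 := le_of_lt c18
  have c20 : r 9 < v 1 := (h.e8.resolve_left a8).2.2
  have c21 : l 5 ≤ v 1 := le_of_lt (lt_of_le_of_lt c19 c20)
  have c22 : l 10 < v 1 := lt_trans c2 c20
  have c23 : l 10 ≤ v 1 := le_of_lt (lt_of_le_of_lt c1 c20)
  have c24 : r 9 ≤ v 1 := le_of_lt c20
  have c25 : r 9 < v 5 := (h.e24.resolve_left c17).2.2
  have c26 : l 10 ≤ v 5 := le_of_lt (lt_of_le_of_lt c1 c25)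
  have c27 : r 9 ≤ r 5 := le_of_lt (lt_of_lt_of_le c25 c0)
  have c28 : r 1 < v 12 := a0.2.2
  have c29 : v 1 < l 12 := a0.1
  have c30 : r 1 < l 13 := lt_trans c28 c4
  have c31 : r 1 < v 13 := lt_trans c28 c5
  have c32 : r 1 ≤ v 13 := le_of_lt (lt_of_lt_of_le c28 c6)
  have c33 : r 1 ≤ l 13 := not_lt.mp fun z => L154 h z c28
  have c34 : l 11 < v 12 := lt_trans c7 c28
  have c35 : l 4 < v 12 := lt_trans c12 c28
  have c36 : r 1 ≤ r 10 := le_of_lt (lt_of_lt_of_le c28 c10)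
  have c37 : r 9 ≤ l 12 := le_of_lt (lt_of_le_of_lt c24 c29)
  have c38 : l 10 ≤ l 12 := le_of_lt (lt_of_le_of_lt c23 c29)
  have c39 : l 5 ≤ l 12 := le_of_lt (lt_of_le_of_lt c21 c29)
  have c40 : l 11 ≤ l 13 := le_of_lt (lt_of_le_of_lt c8 c30)
  have c41 : v 5 ≤ l 13 := le_of_lt (lt_of_le_of_lt a10 c30)
  have c42 : l 4 ≤ v 13 := le_of_lt (lt_of_le_of_lt c9 c31)
  have c43 : r 1 ≤ r 6 := not_lt.mp fun z => L231 h z c32 c33
  have c44 : l 11 ≤ r 10 := le_of_lt (lt_of_lt_of_le c34 c10)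
  have c45 : l 11 ≤ r 8 := le_of_lt (lt_of_lt_of_le c34 a17)
  have c46 : l 4 ≤ r 10 := le_of_lt (lt_of_lt_of_le c35 c10)
  have c47 : S21 l v r := h.e21.resolve_right fun z => not_lt.mpr c42 z.1
  have c48 : v 1 ≤ r 6 := le_of_lt (lt_of_lt_of_le c11 c43)
  have c49 : v 4 < l 13 := c47.1
  have c50 : r 4 < v 13 := c47.2.2
  have c51 : S7 l v r := h.e7.resolve_right fun z => not_lt.mpr c48 z.2.2
  have c52 : v 4 < r 10 := lt_trans c49 c14
  have c53 : l 3 < l 13 := lt_trans a15 c49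
  have c54 : r 5 ≤ v 13 := le_of_lt (lt_of_le_of_lt a16 c50)
  have c55 : r 1 < v 6 := c51.2.2
  have c56 : l 6 < r 1 := c51.2.1
  have c57 : v 1 < l 6 := c51.1
  have c58 : r 8 ≤ r 10 := le_of_lt (lt_of_le_of_lt a6 c52)
  have c59 : S29 l v r := Classical.byContradiction fun z => L290 h z c54 a21
  have c60 : l 4 < v 6 := lt_trans c12 c55
  have c61 : l 6 ≤ v 13 := le_of_lt (lt_of_lt_of_le c56 c32)
  have c62 : l 6 ≤ r 10 := le_of_lt (lt_of_lt_of_le c56 c36)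
  have c63 : l 10 < l 6 := lt_trans c22 c57
  have c64 : l 13 < r 7 := c59.2.1
  have c65 : v 7 < l 13 := c59.1
  have c66 : S26 l v r := h.e26.resolve_right fun z => not_lt.mpr c61 z.1
  have c67 : v 5 ≤ r 7 := le_of_lt (lt_of_le_of_lt c41 c64)
  have c68 : l 11 ≤ r 7 := le_of_lt (lt_of_le_of_lt c40 c64)
  have c69 : v 7 < r 12 := lt_trans c65 c13
  have c70 : v 7 < r 10 := lt_trans c65 c14
  have c71 : l 13 < r 6 := c66.2.1
  have c72 : S23 l v r := h.e23.resolve_right fun z => not_lt.mpr c67 z.2.2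
  have c73 : l 3 < r 6 := lt_trans c53 c71
  have c74 : v 7 < r 6 := lt_trans c65 c71
  have c75 : r 5 < v 7 := c72.2.2
  have c76 : v 5 < l 7 := c72.1
  have c77 : v 5 ≤ v 7 := not_lt.mp fun z => L132 h c75 z
  have c78 : r 9 ≤ v 7 := le_of_lt (lt_of_le_of_lt c27 c75)
  have c79 : l 10 ≤ l 7 := le_of_lt (lt_of_le_of_lt c26 c76)
  have c80 : v 0 ≤ r 11 := not_lt.mp fun z => L397 h z c78 c77 c74 c73 c70 c69 c63 c62 c60 c58 c46 c44 c39 c38 c37 a2 a3 a4 a7 a8 a9 a11 a12 a13 a14 a18 a19 a20 a22 a23 a24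
  have c81 : S3 l v r := h.e3.resolve_right fun z => not_lt.mpr c80 z.2.2
  have c82 : v 0 < l 11 := c81.1
  have c83 : l 0 ≤ l 11 := le_of_lt (lt_of_le_of_lt c15 c82)
  have c84 : v 0 ≤ r 8 := le_of_lt (lt_of_lt_of_le c82 c45)
  have c85 : v 0 ≤ r 7 := le_of_lt (lt_of_lt_of_le c82 c68)
  have c86 : l 0 ≤ r 4 := le_of_lt (lt_of_le_of_lt c83 a1)
  have c87 : S1 l v r := h.e1.resolve_right fun z => not_lt.mpr c84 z.2.2
  have c88 : S0 l v r := h.e0.resolve_right fun z => not_lt.mpr c85 z.2.2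
  have c89 : v 0 < l 8 := c87.1
  have c90 : r 0 < v 8 := c87.2.2
  have c91 : l 7 < r 0 := c88.2.1
  have c92 : v 0 ≤ r 15 := le_of_lt (lt_of_lt_of_le c89 a5)
  have c93 : r 0 ≤ v 4 := le_of_lt (lt_of_lt_of_le c90 a12)
  have c94 : l 10 ≤ r 0 := le_of_lt (lt_of_le_of_lt c79 c91)
  have c95 : S4 l v r := h.e4.resolve_right fun z => not_lt.mpr c92 z.2.2
  have c96 : ¬ S22 l v r := fun z => L369 h z c86 c93
  have c97 : r 0 < v 15 := c95.2.2
  have c98 : v 15 < l 4 := (h.e22.resolve_left c96).1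
  have c99 : l 10 ≤ v 15 := le_of_lt (lt_of_le_of_lt c94 c97)
  have c100 : v 15 ≤ r 10 := le_of_lt (lt_of_lt_of_le c98 c46)
  have c101 : S34 l v r := h.e34.resolve_right fun z => not_lt.mpr c99 z.1
  not_lt.mpr c100 c101.2.2

theorem L399 {l v r : ℕ → ℝ} (h : H l v r) (a0 : S33 l v r) (a1 : l 10 ≤ r 5) (a2 : ¬ S17 l v r) : False :=
  have c0 : v 3 ≤ r 3 := not_lt.mp fun z => L177 h z
  have c1 : l 10 < r 9 := not_le.mp fun z => L343 h z
  have c2 : v 5 ≤ r 5 := not_lt.mp fun z => L36 h z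
  have c3 : v 9 < l 10 := not_le.mp fun z => L342 h z
  have c4 : l 13 ≤ r 13 := not_lt.mp fun z => L169 h z
  have c5 : l 10 < v 10 := h.u10_0
  have c6 : l 13 < r 4 := not_le.mp fun z => L207 h z
  have c7 : r 9 < v 10 := not_le.mp fun z => L344 h z
  have c8 : v 13 ≤ r 13 := not_lt.mp fun z => L168 h z
  have c9 : l 9 ≤ v 10 := not_lt.mp fun z => L351 h z
  have c10 : l 13 ≤ r 4 := not_lt.mp fun z => L208 h z
  have c11 : l 12 ≤ r 10 := not_lt.mp fun z => L333 h z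
  have c12 : l 8 ≤ v 8 := not_lt.mp fun z => L110 h z
  have c13 : l 3 ≤ v 13 := not_lt.mp fun z => L181 h z
  have c14 : l 5 ≤ v 5 := not_lt.mp fun z => L135 h z
  have c15 : l 4 < r 1 := not_le.mp fun z => L319 h z
  have c16 : l 4 ≤ r 1 := not_lt.mp fun z => L320 h z
  have c17 : r 9 ≤ v 10 := not_lt.mp fun z => L352 h z
  have c18 : l 8 < v 8 := h.u8_0
  have c19 : l 4 ≤ r 15 := not_lt.mp fun z => L204 h z
  have c20 : l 4 ≤ r 8 := not_lt.mp fun z => L199 h z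
  have c21 : l 11 < r 1 := not_le.mp fun z => L219 h z
  have c22 : l 12 ≤ v 12 := not_lt.mp fun z => L125 h z
  have c23 : l 13 ≤ r 12 := not_lt.mp fun z => L88 h z
  have c24 : l 1 < r 11 := not_le.mp fun z => L185 h z
  have c25 : v 9 ≤ v 10 := not_lt.mp fun z => L347 h z
  have c26 : v 9 < r 9 := h.u9_1
  have c27 : r 9 ≤ r 10 := not_lt.mp fun z => L353 h z
  have c28 : v 0 ≤ r 0 := not_lt.mp fun z => L141 h z
  have c29 : l 4 < r 8 := not_le.mp fun z => L198 h z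
  have c30 : l 5 < r 17 := not_le.mp fun z => L227 h z
  have c31 : v 9 ≤ r 5 := le_of_lt (lt_of_lt_of_le c3 a1)
  have c32 : ¬ S24 l v r := fun z => not_lt.mpr c31 z.2.2
  have c33 : r 9 < v 5 := (h.e24.resolve_left c32).2.2
  have c34 : r 9 ≤ v 5 := le_of_lt c33
  have c35 : r 9 ≤ r 5 := le_of_lt (lt_of_lt_of_le c33 c2)
  have c36 : l 10 < v 5 := lt_trans c1 c33
  have c37 : l 5 < r 9 := (h.e24.resolve_left c32).2.1
  have c38 : l 5 ≤ v 10 := le_of_lt (lt_of_lt_of_le c37 c17)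
  have c39 : l 5 < v 10 := lt_of_lt_of_le c37 c17
  have c40 : v 9 < l 5 := (h.e24.resolve_left c32).1
  have c41 : r 12 < v 3 := (h.e17.resolve_left a2).2.2
  have c42 : r 12 ≤ r 3 := le_of_lt (lt_of_lt_of_le c41 c0)
  have c43 : l 13 ≤ r 3 := le_trans c23 c42
  have c44 : v 12 < l 3 := (h.e17.resolve_left a2).1
  have c45 : l 12 ≤ l 3 := not_lt.mp fun z => L126 h c44 z
  have c46 : v 12 ≤ l 3 := le_of_lt c44
  have c47 : l 13 ≤ v 3 := le_of_lt (lt_of_le_of_lt c23 c41)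
  have c48 : l 3 < r 12 := (h.e17.resolve_left a2).2.1
  have c49 : l 3 ≤ r 12 := le_of_lt c48
  have c50 : v 10 < l 13 := a0.1
  have c51 : r 10 < v 13 := a0.2.2
  have c52 : v 10 < r 12 := lt_of_lt_of_le c50 c23
  have c53 : v 10 ≤ r 13 := le_of_lt (lt_of_lt_of_le c50 c4)
  have c54 : l 10 < l 13 := lt_trans c5 c50
  have c55 : v 10 ≤ r 12 := not_lt.mp fun z => L146 h z c50
  have c56 : v 10 < r 4 := lt_trans c50 c6
  have c57 : v 10 ≤ r 3 := le_of_lt (lt_of_lt_of_le c50 c43)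
  have c58 : l 5 < l 13 := lt_trans c39 c50
  have c59 : r 9 < l 13 := lt_trans c7 c50
  have c60 : v 9 ≤ l 13 := le_of_lt (lt_of_le_of_lt c25 c50)
  have c61 : r 9 ≤ l 13 := le_of_lt (lt_of_le_of_lt c17 c50)
  have c62 : r 10 ≤ r 13 := le_of_lt (lt_of_lt_of_le c51 c8)
  have c63 : l 10 ≤ r 12 := not_lt.mp fun z => L153 h c52 z
  have c64 : l 5 ≤ r 12 := le_of_lt (lt_of_le_of_lt c38 c52)
  have c65 : l 9 ≤ r 12 := le_of_lt (lt_of_le_of_lt c9 c52)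
  have c66 : r 9 ≤ r 12 := le_of_lt (lt_of_le_of_lt c17 c52)
  have c67 : l 5 ≤ r 13 := le_of_lt (lt_of_lt_of_le c39 c53)
  have c68 : l 10 ≤ r 4 := le_of_lt (lt_of_lt_of_le c54 c10)
  have c69 : r 9 ≤ r 4 := le_of_lt (lt_of_le_of_lt c17 c56)
  have c70 : ¬ S16 l v r := fun z => not_lt.mpr c57 z.2.2
  have c71 : l 5 ≤ v 3 := le_of_lt (lt_of_lt_of_le c58 c47)
  have c72 : r 10 < v 3 := (h.e16.resolve_left c70).2.2
  have c73 : l 3 < r 10 := (h.e16.resolve_left c70).2.1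
  have c74 : v 10 < l 3 := (h.e16.resolve_left c70).1
  have c75 : ¬ S14 l v r := fun z => not_lt.mpr c71 z.1
  have c76 : r 10 ≤ v 3 := le_of_lt c72
  have c77 : l 3 ≤ r 10 := le_of_lt c73
  have c78 : v 10 ≤ l 3 := le_of_lt c74
  have c79 : l 5 ≤ l 3 := le_of_lt (lt_of_le_of_lt c38 c74)
  have c80 : v 5 < l 3 := (h.e14.resolve_left c75).1
  have c81 : l 3 < r 5 := (h.e14.resolve_left c75).2.1
  have c82 : v 5 < r 10 := not_le.mp fun z => L242 h c75 a1 z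
  have c83 : v 12 < r 5 := not_le.mp fun z => L281 h c75 z c11 a1
  have c84 : v 5 ≤ v 3 := le_of_lt (lt_of_lt_of_le c82 c76)
  have c85 : v 10 ≤ r 5 := le_of_lt (lt_of_le_of_lt c78 c81)
  have c86 : v 5 < v 13 := lt_of_lt_of_le c80 c13
  have c87 : v 5 ≤ r 10 := le_of_lt (lt_of_lt_of_le c80 c77)
  have c88 : v 5 < r 12 := lt_trans c80 c48
  have c89 : l 3 ≤ r 5 := le_of_lt c81
  have c90 : l 12 ≤ r 5 := le_of_lt (lt_of_le_of_lt c45 c81)
  have c91 : ¬ S15 l v r := fun z => L377 h z c84 c83 c51 c50 c32 a2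
  have c92 : l 3 < r 8 := (h.e15.resolve_left c91).2.1
  have c93 : v 8 < l 3 := (h.e15.resolve_left c91).1
  have c94 : v 12 ≤ r 8 := le_of_lt (lt_of_le_of_lt c46 c92)
  have c95 : l 5 ≤ r 8 := le_of_lt (lt_of_le_of_lt c79 c92)
  have c96 : l 8 ≤ l 3 := le_of_lt (lt_of_le_of_lt c12 c93)
  have c97 : v 8 ≤ v 13 := le_of_lt (lt_of_lt_of_le c93 c13)
  have c98 : v 8 ≤ r 12 := le_of_lt (lt_of_lt_of_le c93 c49)
  have c99 : v 8 ≤ r 10 := le_of_lt (lt_of_lt_of_le c93 c77)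
  have c100 : v 8 ≤ r 5 := le_of_lt (lt_of_lt_of_le c93 c89)
  have c101 : l 8 ≤ r 5 := le_of_lt (lt_of_le_of_lt c96 c81)
  have c102 : ¬ S19 l v r := fun z => L391 h z c99 c97 c95 c88 c87 c86 c82 c68 c66 c65 c64 c63 c61 c60 c59 c56 c32
  have c103 : l 4 < r 5 := (h.e19.resolve_left c102).2.1
  have c104 : r 5 < v 4 := (h.e19.resolve_left c102).2.2
  have c105 : v 5 < l 4 := (h.e19.resolve_left c102).1
  have c106 : v 9 ≤ r 1 := not_lt.mp fun z => L315 h c40 z c102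
  have c107 : l 4 ≤ r 5 := le_of_lt c103
  have c108 : r 5 ≤ r 4 := not_lt.mp fun z => L176 h z c104
  have c109 : r 9 ≤ v 4 := le_of_lt (lt_of_le_of_lt c35 c104)
  have c110 : l 3 < v 4 := lt_of_le_of_lt c89 c104
  have c111 : v 12 < v 4 := lt_trans c83 c104
  have c112 : l 8 ≤ v 4 := le_of_lt (lt_of_le_of_lt c101 c104)
  have c113 : v 10 ≤ v 4 := le_of_lt (lt_of_le_of_lt c85 c104)
  have c114 : v 8 ≤ v 4 := le_of_lt (lt_of_le_of_lt c100 c104)
  have c115 : l 5 < l 4 := lt_of_le_of_lt c14 c105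
  have c116 : v 5 < r 1 := lt_trans c105 c15
  have c117 : v 5 ≤ r 1 := le_of_lt (lt_of_lt_of_le c105 c16)
  have c118 : l 10 < l 4 := lt_trans c36 c105
  have c119 : ¬ S8 l v r := fun z => not_lt.mpr c106 z.2.2
  have c120 : ¬ S20 l v r := fun z => not_lt.mpr c112 z.1
  have c121 : r 9 ≤ r 1 := le_of_lt (lt_of_le_of_lt c34 c116)
  have c122 : l 1 < r 9 := (h.e8.resolve_left c119).2.1
  have c123 : r 8 < v 4 := (h.e20.resolve_left c120).2.2
  have c124 : v 8 < l 4 := (h.e20.resolve_left c120).1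
  have c125 : l 1 < v 10 := lt_of_lt_of_le c122 c17
  have c126 : l 1 ≤ r 9 := le_of_lt c122
  have c127 : l 1 < l 13 := lt_trans c122 c59
  have c128 : l 1 ≤ v 4 := le_of_lt (lt_of_lt_of_le c122 c109)
  have c129 : r 8 ≤ v 4 := le_of_lt c123
  have c130 : v 8 ≤ r 15 := le_of_lt (lt_of_lt_of_le c124 c19)
  have c131 : S6 l v r := h.e6.resolve_right fun z => not_lt.mpr c128 z.1
  have c132 : l 8 ≤ r 15 := le_of_lt (lt_of_lt_of_le c18 c130)
  have c133 : v 1 < l 4 := c131.1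
  have c134 : r 1 < v 4 := c131.2.2
  have c135 : v 1 < r 15 := lt_of_lt_of_le c133 c19
  have c136 : v 1 ≤ r 15 := le_of_lt (lt_of_lt_of_le c133 c19)
  have c137 : v 1 < v 4 := not_le.mp fun z => L57 h c133 z
  have c138 : v 1 ≤ v 4 := not_lt.mp fun z => L76 h z c133
  have c139 : v 1 ≤ r 8 := le_of_lt (lt_of_lt_of_le c133 c20)
  have c140 : v 1 ≤ r 5 := le_of_lt (lt_of_lt_of_le c133 c107)
  have c141 : r 1 < r 4 := not_le.mp fun z => L55 h c134 z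
  have c142 : l 11 < r 4 := lt_trans c21 c141
  have c143 : ¬ S10 l v r := fun z => L398 h z c142 c139 c138 c136 c132 c129 c121 c119 c118 c117 c115 c114 c113 c111 c110 c108 c94 c90 c74 c69 c67 c63 a1 c41
  have c144 : v 12 < l 1 := (h.e10.resolve_left c143).1
  have c145 : r 12 < v 1 := (h.e10.resolve_left c143).2.2
  have c146 : l 12 ≤ l 1 := le_of_lt (lt_of_le_of_lt c22 c144)
  have c147 : v 12 ≤ r 9 := le_of_lt (lt_of_lt_of_le c144 c126)
  have c148 : v 12 < v 10 := lt_trans c144 c125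
  have c149 : l 13 < v 1 := lt_of_le_of_lt c23 c145
  have c150 : r 12 ≤ v 1 := le_of_lt c145
  have c151 : v 10 < v 1 := lt_trans c52 c145
  have c152 : v 5 < v 1 := lt_trans c88 c145
  have c153 : l 12 ≤ r 11 := le_of_lt (lt_of_le_of_lt c146 c24)
  have c154 : l 13 ≤ r 5 := le_of_lt (lt_of_lt_of_le c149 c140)
  have c155 : v 10 ≤ r 15 := le_of_lt (lt_of_lt_of_le c151 c136)
  have c156 : S34 l v r := h.e34.resolve_right fun z => not_lt.mpr c155 z.2.2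
  have c157 : l 15 < r 10 := c156.2.1
  have c158 : r 10 < v 15 := c156.2.2
  have c159 : v 10 < l 15 := c156.1
  have c160 : l 15 ≤ r 10 := le_of_lt c157
  have c161 : l 15 < v 13 := lt_trans c157 c51
  have c162 : r 9 ≤ v 15 := le_of_lt (lt_of_le_of_lt c27 c158)
  have c163 : v 9 ≤ l 15 := le_of_lt (lt_of_le_of_lt c25 c159)
  have c164 : v 12 < l 15 := lt_trans c148 c159
  have c165 : ¬ S2 l v r := fun z => L383 h z c163
  have c166 : r 9 < v 0 := (h.e2.resolve_left c165).2.2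
  have c167 : l 0 < r 9 := (h.e2.resolve_left c165).2.1
  have c168 : v 9 < v 0 := lt_trans c26 c166
  have c169 : r 9 ≤ r 0 := not_lt.mp fun z => L172 h z c166
  have c170 : v 12 ≤ v 0 := le_of_lt (lt_of_le_of_lt c147 c166)
  have c171 : l 0 ≤ r 10 := le_of_lt (lt_of_lt_of_le c167 c27)
  have c172 : l 0 < l 13 := lt_trans c167 c59
  have c173 : l 0 ≤ v 15 := le_of_lt (lt_of_lt_of_le c167 c162)
  have c174 : r 0 < l 4 := not_le.mp fun z => L328 h c150 c62 c55 z c137 c135 c171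
  have c175 : S4 l v r := h.e4.resolve_right fun z => not_lt.mpr c173 z.1
  have c176 : v 0 ≤ l 4 := le_of_lt (lt_of_le_of_lt c28 c174)
  have c177 : v 0 < l 15 := c175.1
  have c178 : l 15 < r 0 := c175.2.1
  have c179 : v 0 ≤ r 8 := le_of_lt (lt_of_le_of_lt c176 c29)
  have c180 : v 0 ≤ r 10 := le_of_lt (lt_of_lt_of_le c177 c160)
  have c181 : v 0 < v 13 := lt_trans c177 c161
  have c182 : S1 l v r := h.e1.resolve_right fun z => not_lt.mpr c179 z.2.2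
  have c183 : r 0 < v 8 := c182.2.2
  have c184 : r 0 < r 12 := lt_of_lt_of_le c183 c98
  have c185 : r 0 < v 13 := lt_of_lt_of_le c183 c97
  have c186 : r 0 ≤ r 10 := le_of_lt (lt_of_lt_of_le c183 c99)
  have c187 : l 15 < r 12 := lt_trans c178 c184
  have c188 : l 7 ≤ v 13 := not_lt.mp fun z => L194 h c185 z
  have c189 : l 11 ≤ r 10 := not_lt.mp fun z => L386 h z c186 c180
  have c190 : v 15 ≤ r 12 := not_lt.mp fun z => h.n12_15 c164 c187 z
  have c191 : S29 l v r := h.e29.resolve_right fun z => not_lt.mpr c188 z.1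
  have c192 : l 11 < v 15 := lt_of_le_of_lt c189 c158
  have c193 : v 15 ≤ v 1 := le_of_lt (lt_of_le_of_lt c190 c145)
  have c194 : l 13 < r 7 := c191.2.1
  have c195 : v 7 < l 13 := c191.1
  have c196 : l 11 ≤ r 12 := le_of_lt (lt_of_lt_of_le c192 c190)
  have c197 : l 11 ≤ v 1 := le_of_lt (lt_of_lt_of_le c192 c193)
  have c198 : l 1 < r 7 := lt_trans c127 c194
  have c199 : v 7 ≤ r 5 := le_of_lt (lt_of_lt_of_le c195 c154)
  have c200 : ¬ S3 l v r := fun z => L387 h z c196 c170 c169 c168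
  have c201 : ¬ S9 l v r := fun z => not_lt.mpr c197 z.1
  have c202 : ¬ S23 l v r := fun z => not_lt.mpr c199 z.2.2
  have c203 : v 11 < l 0 := (h.e3.resolve_left c200).1
  have c204 : r 11 < v 0 := (h.e3.resolve_left c200).2.2
  have c205 : v 11 < l 1 := (h.e9.resolve_left c201).1
  have c206 : r 7 < v 5 := (h.e23.resolve_left c202).2.2
  have c207 : v 7 < l 5 := (h.e23.resolve_left c202).1
  have c208 : v 11 < l 13 := lt_trans c203 c172
  have c209 : r 11 < v 13 := lt_trans c204 c181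
  have c210 : v 11 ≤ l 1 := le_of_lt c205
  have c211 : l 13 < v 5 := lt_trans c194 c206
  have c212 : r 7 < v 1 := lt_trans c206 c152
  have c213 : v 7 < r 17 := lt_trans c207 c30
  have c214 : r 11 ≤ l 13 := not_lt.mp fun z => h.n11_13 c208 z c209
  have c215 : l 1 ≤ v 7 := not_lt.mp fun z => h.n7_1 z c198 c212
  have c216 : l 1 < r 17 := lt_of_le_of_lt c215 c213
  have c217 : r 11 ≤ v 5 := le_of_lt (lt_of_le_of_lt c214 c211)
  have c218 : v 11 ≤ r 17 := le_of_lt (lt_of_le_of_lt c210 c216)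
  have c219 : ¬ S37 l v r := fun z => L380 h z c217 c153 c64
  not_lt.mpr c218 (h.e37.resolve_left c219).2.2

theorem L400 {l v r : ℕ → ℝ} (h : H l v r) (a0 : r 3 ≤ l 5) : False :=
  have c0 : v 3 ≤ r 3 := not_lt.mp fun z => L177 h z
  have c1 : l 5 < r 5 := not_le.mp fun z => L115 h z
  have c2 : v 3 ≤ l 5 := le_trans c0 a0
  have c3 : ¬ S14 l v r := fun z => not_lt.mpr a0 z.2.1
  have c4 : v 3 ≤ r 5 := le_of_lt (lt_of_le_of_lt c2 c1)
  not_lt.mpr c4 (h.e14.resolve_left c3).2.2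

theorem L401 {l v r : ℕ → ℝ} (h : H l v r) (a0 : r 3 < l 5) : False :=
  have c0 : l 5 < r 3 := not_le.mp fun z => L400 h z
  lt_asymm a0 c0

theorem L402 {l v r : ℕ → ℝ} (h : H l v r) (a0 : l 10 ≤ r 5) (a1 : ¬ S17 l v r) : False :=
  have c0 : l 5 < r 3 := not_le.mp fun z => L400 h z
  have c1 : ¬ S33 l v r := fun z => L399 h z a0 a1
  L374 h c1 c0 a0 a1

theorem L403 {l v r : ℕ → ℝ} (h : H l v r) (a0 : ¬ S2 l v r) (a1 : l 13 ≤ r 5) (a2 : l 13 ≤ r 9) (a3 : v 7 < l 13) (a4 : v 5 ≤ v 9) : False :=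
  have c0 : v 0 ≤ r 0 := not_lt.mp fun z => L141 h z
  have c1 : r 9 < v 0 := (h.e2.resolve_left a0).2.2
  have c2 : v 9 < l 0 := (h.e2.resolve_left a0).1
  have c3 : r 9 < r 0 := lt_of_lt_of_le c1 c0
  have c4 : v 5 ≤ l 0 := le_of_lt (lt_of_le_of_lt a4 c2)
  have c5 : l 13 ≤ r 0 := le_of_lt (lt_of_le_of_lt a2 c3)
  L289 h a3 c4 c5 a1

theorem L404 {l v r : ℕ → ℝ} (h : H l v r) (a0 : r 7 < v 5) (a1 : ¬ S33 l v r) (a2 : v 7 < l 13) (a3 : r 5 < v 4) (a4 : ¬ S17 l v r) : False :=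
  have c0 : l 5 ≤ r 5 := not_lt.mp fun z => L116 h z
  have c1 : l 4 < r 1 := not_le.mp fun z => L319 h z
  have c2 : v 12 ≤ l 13 := not_lt.mp fun z => L143 h z
  have c3 : l 13 ≤ r 13 := not_lt.mp fun z => L169 h z
  have c4 : v 9 ≤ l 10 := not_lt.mp fun z => L348 h z
  have c5 : l 10 ≤ r 9 := not_lt.mp fun z => L349 h z
  have c6 : l 13 ≤ v 13 := not_lt.mp fun z => L70 h z
  have c7 : l 3 ≤ r 13 := not_lt.mp fun z => L182 h z
  have c8 : v 5 ≤ r 5 := not_lt.mp fun z => L36 h z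
  have c9 : r 12 ≤ v 13 := not_lt.mp fun z => L159 h z
  have c10 : v 9 < r 10 := not_le.mp fun z => L346 h z
  have c11 : l 9 ≤ l 10 := not_lt.mp fun z => L345 h z
  have c12 : l 0 ≤ r 0 := not_lt.mp fun z => L26 h z
  have c13 : l 15 ≤ v 15 := not_lt.mp fun z => L58 h z
  have c14 : l 4 < r 8 := not_le.mp fun z => L198 h z
  have c15 : r 13 < v 10 := (h.e33.resolve_left a1).2.2
  have c16 : l 3 ≤ v 10 := le_of_lt (lt_of_le_of_lt c7 c15)
  have c17 : S16 l v r := h.e16.resolve_right fun z => not_lt.mpr c16 z.1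
  have c18 : l 10 < r 3 := c17.2.1
  have c19 : l 9 ≤ r 3 := le_of_lt (lt_of_le_of_lt c11 c18)
  have c20 : v 13 < l 10 := (h.e33.resolve_left a1).1
  have c21 : v 13 ≤ r 9 := le_of_lt (lt_of_lt_of_le c20 c5)
  have c22 : l 13 ≤ r 9 := le_trans c6 c21
  have c23 : l 10 < r 13 := (h.e33.resolve_left a1).2.1
  have c24 : v 9 ≤ r 13 := le_of_lt (lt_of_le_of_lt c4 c23)
  have c25 : v 7 ≤ r 13 := le_of_lt (lt_of_lt_of_le a2 c3)
  have c26 : S29 l v r := h.e29.resolve_right fun z => not_lt.mpr c25 z.2.2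
  have c27 : l 13 < r 7 := c26.2.1
  have c28 : l 13 ≤ r 7 := le_of_lt c27
  have c29 : v 12 ≤ r 7 := le_of_lt (lt_of_le_of_lt c2 c27)
  have c30 : l 5 ≤ v 4 := le_of_lt (lt_of_le_of_lt c0 a3)
  have c31 : ¬ S19 l v r := fun z => not_lt.mpr c30 z.1
  have c32 : v 5 < l 4 := (h.e19.resolve_left c31).1
  have c33 : v 5 < r 1 := lt_trans c32 c1
  have c34 : l 4 < r 5 := (h.e19.resolve_left c31).2.1
  have c35 : l 4 ≤ r 5 := le_of_lt c34
  have c36 : v 5 < v 4 := lt_of_le_of_lt c8 a3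
  have c37 : r 5 < l 10 := not_le.mp fun z => L402 h z a4
  have c38 : r 5 < r 9 := lt_of_lt_of_le c37 c5
  have c39 : v 5 ≤ r 9 := le_of_lt (lt_of_le_of_lt c8 c38)
  have c40 : S24 l v r := h.e24.resolve_right fun z => not_lt.mpr c39 z.2.2
  have c41 : r 5 < v 9 := c40.2.2
  have c42 : v 5 ≤ v 9 := le_of_lt (lt_of_le_of_lt c8 c41)
  have c43 : l 3 < r 12 := (h.e17.resolve_left a4).2.1
  have c44 : l 3 ≤ r 12 := le_of_lt c43
  have c45 : r 7 < r 5 := lt_of_lt_of_le a0 c8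
  have c46 : v 12 ≤ v 5 := le_of_lt (lt_of_le_of_lt c29 a0)
  have c47 : l 13 ≤ v 5 := le_of_lt (lt_of_le_of_lt c28 a0)
  have c48 : l 13 ≤ r 5 := le_of_lt (lt_of_le_of_lt c28 c45)
  have c49 : v 12 ≤ r 1 := le_of_lt (lt_of_le_of_lt c46 c33)
  have c50 : l 13 ≤ v 4 := le_of_lt (lt_of_le_of_lt c47 c36)
  have c51 : ¬ S10 l v r := fun z => not_lt.mpr c49 z.2.2
  have c52 : ¬ S21 l v r := fun z => not_lt.mpr c50 z.1
  have c53 : l 1 < r 12 := (h.e10.resolve_left c51).2.1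
  have c54 : r 12 < v 1 := (h.e10.resolve_left c51).2.2
  have c55 : v 13 < l 4 := (h.e21.resolve_left c52).1
  have c56 : r 13 < v 4 := (h.e21.resolve_left c52).2.2
  have c57 : l 1 < v 13 := lt_of_lt_of_le c53 c9
  have c58 : l 3 ≤ v 1 := le_of_lt (lt_of_le_of_lt c44 c54)
  have c59 : v 13 ≤ r 5 := le_of_lt (lt_of_lt_of_le c55 c35)
  have c60 : v 9 ≤ v 4 := le_of_lt (lt_of_le_of_lt c24 c56)
  have c61 : l 1 ≤ r 5 := le_of_lt (lt_of_lt_of_le c57 c59)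
  have c62 : S2 l v r := Classical.byContradiction fun z => L403 h z c48 c22 a2 c42
  have c63 : r 0 < v 9 := c62.2.2
  have c64 : v 0 < l 9 := c62.1
  have c65 : l 9 < r 0 := c62.2.1
  have c66 : l 15 < v 9 := not_le.mp fun z => L383 h c62 z
  have c67 : r 0 < r 10 := lt_trans c63 c10
  have c68 : v 0 ≤ l 10 := le_of_lt (lt_of_lt_of_le c64 c11)
  have c69 : l 15 ≤ v 4 := le_of_lt (lt_of_lt_of_le c66 c60)
  have c70 : l 0 ≤ r 10 := le_of_lt (lt_of_le_of_lt c12 c67)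
  have c71 : S4 l v r := Classical.byContradiction fun z => L372 h z c70 c68
  have c72 : ¬ S22 l v r := fun z => not_lt.mpr c69 z.1
  have c73 : v 0 < l 15 := c71.1
  have c74 : r 0 < v 15 := c71.2.2
  have c75 : v 15 < l 4 := (h.e22.resolve_left c72).1
  have c76 : v 0 ≤ v 15 := le_of_lt (lt_of_lt_of_le c73 c13)
  have c77 : r 0 ≤ v 15 := le_of_lt c74
  have c78 : v 15 < r 8 := lt_trans c75 c14
  have c79 : v 15 < r 5 := lt_trans c75 c34
  have c80 : r 0 ≤ r 5 := le_of_lt (lt_of_le_of_lt c77 c79)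
  have c81 : v 0 ≤ r 8 := le_of_lt (lt_of_le_of_lt c76 c78)
  have c82 : S1 l v r := h.e1.resolve_right fun z => not_lt.mpr c81 z.2.2
  have c83 : r 0 < v 8 := c82.2.2
  have c84 : l 8 < r 0 := c82.2.1
  have c85 : l 9 < v 8 := lt_trans c65 c83
  have c86 : l 8 ≤ r 5 := le_of_lt (lt_of_lt_of_le c84 c80)
  L326 h c40 c19 c58 c86 c61 c85

theorem L405 {l v r : ℕ → ℝ} (h : H l v r) (a0 : r 0 < v 8) (a1 : l 3 ≤ r 0) (a2 : r 0 ≤ v 3) : False :=
  have c0 : l 0 ≤ v 8 := not_lt.mp fun z => L35 h a0 z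
  have c1 : l 3 ≤ v 8 := le_of_lt (lt_of_le_of_lt a1 a0)
  have c2 : S1 l v r := h.e1.resolve_right fun z => not_lt.mpr c0 z.1
  have c3 : S15 l v r := h.e15.resolve_right fun z => not_lt.mpr c1 z.1
  have c4 : l 8 < r 0 := c2.2.1
  have c5 : v 3 < l 8 := c3.1
  not_lt.mpr a2 (lt_trans c5 c4)

theorem L406 {l v r : ℕ → ℝ} (h : H l v r) (a0 : S3 l v r) (a1 : v 5 < v 0) (a2 : v 12 < v 0) (a3 : r 5 ≤ r 0) (a4 : r 0 ≤ r 12) : False :=
  have c0 : l 11 ≤ r 17 := not_lt.mp fun z => L309 h z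
  have c1 : l 11 < r 0 := a0.2.1
  have c2 : r 0 < v 11 := a0.2.2
  have c3 : v 0 < l 11 := a0.1
  have c4 : l 11 ≤ r 12 := le_of_lt (lt_of_lt_of_le c1 a4)
  have c5 : r 5 ≤ v 11 := le_of_lt (lt_of_le_of_lt a3 c2)
  have c6 : v 0 ≤ r 17 := le_of_lt (lt_of_lt_of_le c3 c0)
  have c7 : v 12 ≤ r 17 := le_of_lt (lt_of_lt_of_le a2 c6)
  have c8 : v 5 ≤ r 17 := le_of_lt (lt_of_lt_of_le a1 c6)
  have c9 : S40 l v r := h.e40.resolve_right fun z => not_lt.mpr c7 z.2.2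
  have c10 : S25 l v r := h.e25.resolve_right fun z => not_lt.mpr c8 z.2.2
  have c11 : r 12 < v 17 := c9.2.2
  have c12 : l 17 < r 5 := c10.2.1
  have c13 : l 11 ≤ v 17 := le_of_lt (lt_of_le_of_lt c4 c11)
  have c14 : l 17 ≤ v 11 := le_of_lt (lt_of_lt_of_le c12 c5)
  have c15 : S37 l v r := h.e37.resolve_right fun z => not_lt.mpr c13 z.1
  not_lt.mpr c14 c15.1

theorem L407 {l v r : ℕ → ℝ} (h : H l v r) (a0 : S2 l v r) (a1 : l 0 ≤ r 10) (a2 : l 3 ≤ l 15) (a3 : l 3 < l 15) (a4 : r 5 ≤ l 15) (a5 : l 9 ≤ l 13) (a6 : v 5 < l 3) (a7 : v 7 < l 13) (a8 : ¬ S17 l v r) : False :=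
  have c0 : v 0 ≤ r 0 := not_lt.mp fun z => L141 h z
  have c1 : l 9 ≤ l 10 := not_lt.mp fun z => L345 h z
  have c2 : l 13 ≤ r 12 := not_lt.mp fun z => L88 h z
  have c3 : l 13 < r 12 := not_le.mp fun z => L83 h z
  have c4 : l 8 < v 8 := h.u8_0
  have c5 : l 1 < r 11 := not_le.mp fun z => L185 h z
  have c6 : r 12 < v 3 := (h.e17.resolve_left a8).2.2
  have c7 : l 13 < v 3 := lt_trans c3 c6
  have c8 : l 13 ≤ v 3 := le_of_lt (lt_of_le_of_lt c2 c6)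
  have c9 : v 12 < l 3 := (h.e17.resolve_left a8).1
  have c10 : r 0 < v 9 := a0.2.2
  have c11 : v 0 < l 9 := a0.1
  have c12 : l 9 < r 0 := a0.2.1
  have c13 : v 0 ≤ v 9 := le_of_lt (lt_of_le_of_lt c0 c10)
  have c14 : v 0 ≤ l 9 := le_of_lt c11
  have c15 : v 0 ≤ l 10 := le_of_lt (lt_of_lt_of_le c11 c1)
  have c16 : v 0 ≤ l 13 := le_of_lt (lt_of_lt_of_le c11 a5)
  have c17 : l 9 ≤ r 0 := le_of_lt c12
  have c18 : S4 l v r := Classical.byContradiction fun z => L372 h z a1 c15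
  have c19 : r 0 < l 13 := not_le.mp fun z => L354 h a7 c16 z
  have c20 : l 15 < r 0 := c18.2.1
  have c21 : r 0 ≤ r 12 := le_of_lt (lt_of_lt_of_le c19 c2)
  have c22 : r 0 < r 12 := lt_trans c19 c3
  have c23 : r 0 < v 3 := lt_trans c19 c7
  have c24 : r 0 ≤ v 3 := le_of_lt (lt_of_lt_of_le c19 c8)
  have c25 : l 3 < r 0 := lt_trans a3 c20
  have c26 : l 3 ≤ r 0 := le_of_lt (lt_of_le_of_lt a2 c20)
  have c27 : r 5 ≤ r 0 := le_of_lt (lt_of_le_of_lt a4 c20)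
  have c28 : l 3 ≤ v 0 := not_lt.mp fun z => h.n0_3 z c25 c23
  have c29 : v 12 < v 0 := lt_of_lt_of_le c9 c28
  have c30 : v 5 < v 0 := lt_of_lt_of_le a6 c28
  have c31 : v 8 ≤ r 0 := not_lt.mp fun z => L405 h z c26 c24
  have c32 : ¬ S1 l v r := fun z => not_lt.mpr c31 z.2.2
  have c33 : l 8 ≤ r 0 := le_of_lt (lt_of_lt_of_le c4 c31)
  have c34 : r 8 < v 0 := (h.e1.resolve_left c32).2.2
  have c35 : r 8 ≤ l 9 := le_of_lt (lt_of_lt_of_le c34 c14)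
  have c36 : ¬ S3 l v r := fun z => L406 h z c30 c29 c27 c21
  have c37 : r 11 < v 0 := (h.e3.resolve_left c36).2.2
  have c38 : l 1 < v 0 := lt_trans c5 c37
  have c39 : l 1 ≤ v 9 := le_of_lt (lt_of_lt_of_le c38 c13)
  have c40 : S8 l v r := h.e8.resolve_right fun z => not_lt.mpr c39 z.1
  have c41 : v 1 < l 9 := c40.1
  have c42 : l 9 < r 1 := c40.2.1
  have c43 : v 1 ≤ r 0 := le_of_lt (lt_of_lt_of_le c41 c17)
  have c44 : r 8 ≤ r 1 := le_of_lt (lt_of_le_of_lt c35 c42)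
  L250 h c22 c44 c6 c43 c33

theorem L408 {l v r : ℕ → ℝ} (h : H l v r) (a0 : ¬ S33 l v r) (a1 : v 7 < l 13) (a2 : r 5 < v 4) (a3 : ¬ S17 l v r) : False :=
  have c0 : v 5 ≤ r 5 := not_lt.mp fun z => L36 h z
  have c1 : l 10 ≤ r 10 := not_lt.mp fun z => L52 h z
  have c2 : l 5 ≤ r 5 := not_lt.mp fun z => L116 h z
  have c3 : l 13 < v 13 := h.u13_0
  have c4 : l 7 ≤ v 7 := not_lt.mp fun z => L95 h z
  have c5 : l 13 ≤ r 13 := not_lt.mp fun z => L169 h z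
  have c6 : v 13 ≤ r 13 := not_lt.mp fun z => L168 h z
  have c7 : l 3 ≤ r 13 := not_lt.mp fun z => L182 h z
  have c8 : r 12 ≤ v 13 := not_lt.mp fun z => L159 h z
  have c9 : l 10 ≤ r 9 := not_lt.mp fun z => L349 h z
  have c10 : l 13 ≤ v 13 := not_lt.mp fun z => L70 h z
  have c11 : l 10 < r 9 := not_le.mp fun z => L343 h z
  have c12 : l 13 < r 12 := not_le.mp fun z => L83 h z
  have c13 : v 10 ≤ r 10 := not_lt.mp fun z => L31 h z
  have c14 : l 0 < r 15 := not_le.mp fun z => L205 h z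
  have c15 : v 0 ≤ r 0 := not_lt.mp fun z => L141 h z
  have c16 : v 7 ≤ r 13 := le_of_lt (lt_of_lt_of_le a1 c5)
  have c17 : S29 l v r := h.e29.resolve_right fun z => not_lt.mpr c16 z.2.2
  have c18 : r 7 < v 13 := c17.2.2
  have c19 : r 7 ≤ v 13 := le_of_lt c18
  have c20 : v 7 < v 13 := lt_trans a1 c3
  have c21 : l 7 < v 13 := lt_of_le_of_lt c4 c20
  have c22 : l 5 ≤ v 4 := le_of_lt (lt_of_le_of_lt c2 a2)
  have c23 : ¬ S19 l v r := fun z => not_lt.mpr c22 z.1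
  have c24 : l 4 < r 5 := (h.e19.resolve_left c23).2.1
  have c25 : r 5 < l 10 := not_le.mp fun z => L402 h z a3
  have c26 : r 5 ≤ r 10 := le_of_lt (lt_of_lt_of_le c25 c1)
  have c27 : l 4 ≤ r 10 := le_of_lt (lt_of_lt_of_le c24 c26)
  have c28 : l 4 ≤ r 5 := le_of_lt c24
  have c29 : r 5 < r 9 := lt_of_lt_of_le c25 c9
  have c30 : l 4 ≤ r 9 := le_of_lt (lt_of_le_of_lt c28 c29)
  have c31 : r 5 ≤ r 4 := not_lt.mp fun z => L176 h z a2
  have c32 : r 5 ≤ v 4 := le_of_lt a2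
  have c33 : v 5 ≤ r 9 := le_of_lt (lt_of_le_of_lt c0 c29)
  have c34 : S24 l v r := h.e24.resolve_right fun z => not_lt.mpr c33 z.2.2
  have c35 : l 9 < r 5 := c34.2.1
  have c36 : l 9 ≤ r 5 := le_of_lt c35
  have c37 : r 5 < v 9 := c34.2.2
  have c38 : v 5 ≤ l 10 := le_of_lt (lt_of_le_of_lt c0 c25)
  have c39 : v 12 < l 3 := (h.e17.resolve_left a3).1
  have c40 : r 13 < v 10 := (h.e33.resolve_left a0).2.2
  have c41 : v 13 < l 10 := (h.e33.resolve_left a0).1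
  have c42 : v 13 ≤ v 10 := le_of_lt (lt_of_le_of_lt c6 c40)
  have c43 : l 3 ≤ v 10 := le_of_lt (lt_of_le_of_lt c7 c40)
  have c44 : r 12 < l 10 := lt_of_le_of_lt c8 c41
  have c45 : v 13 ≤ r 9 := le_of_lt (lt_of_lt_of_le c41 c9)
  have c46 : l 13 ≤ l 10 := le_of_lt (lt_of_le_of_lt c10 c41)
  have c47 : r 7 ≤ l 10 := le_of_lt (lt_of_le_of_lt c19 c41)
  have c48 : S16 l v r := h.e16.resolve_right fun z => not_lt.mpr c43 z.1
  have c49 : r 12 < r 9 := lt_trans c44 c11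
  have c50 : l 7 ≤ r 9 := le_of_lt (lt_of_lt_of_le c21 c45)
  have c51 : l 10 < r 3 := c48.2.1
  have c52 : v 5 ≤ r 3 := le_of_lt (lt_of_le_of_lt c38 c51)
  have c53 : r 7 ≤ r 3 := le_of_lt (lt_of_le_of_lt c47 c51)
  have c54 : ¬ S14 l v r := fun z => not_lt.mpr c52 z.2.2
  have c55 : v 5 < l 3 := (h.e14.resolve_left c54).1
  have c56 : l 3 < r 5 := (h.e14.resolve_left c54).2.1
  have c57 : l 3 < v 9 := lt_trans c56 c37
  have c58 : l 3 < v 4 := lt_trans c56 a2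
  have c59 : l 3 ≤ v 4 := le_of_lt (lt_of_lt_of_le c56 c32)
  have c60 : l 3 ≤ r 4 := le_of_lt (lt_of_lt_of_le c56 c31)
  have c61 : v 12 < v 9 := lt_trans c39 c57
  have c62 : v 5 ≤ r 7 := not_lt.mp fun z => L404 h z a0 a1 a2 a3
  have c63 : S23 l v r := h.e23.resolve_right fun z => not_lt.mpr c62 z.2.2
  have c64 : r 5 < v 7 := c63.2.2
  have c65 : r 5 < v 13 := lt_trans c64 c20
  have c66 : r 5 < l 13 := lt_trans c64 a1
  have c67 : l 4 ≤ v 13 := le_of_lt (lt_of_le_of_lt c28 c65)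
  have c68 : l 9 ≤ l 13 := le_of_lt (lt_of_le_of_lt c36 c66)
  have c69 : S21 l v r := h.e21.resolve_right fun z => not_lt.mpr c67 z.1
  have c70 : v 4 < l 13 := c69.1
  have c71 : r 4 < v 13 := c69.2.2
  have c72 : v 4 < r 12 := lt_trans c70 c12
  have c73 : v 4 ≤ l 10 := le_of_lt (lt_of_lt_of_le c70 c46)
  have c74 : r 4 ≤ v 10 := le_of_lt (lt_of_lt_of_le c71 c42)
  have c75 : r 4 ≤ r 9 := le_of_lt (lt_of_lt_of_le c71 c45)
  have c76 : S22 l v r := Classical.byContradiction fun z => L362 h z c27 c73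
  have c77 : l 15 < r 4 := c76.2.1
  have c78 : v 4 < l 15 := c76.1
  have c79 : l 15 ≤ v 10 := le_of_lt (lt_of_lt_of_le c77 c74)
  have c80 : r 5 ≤ l 15 := le_of_lt (lt_of_le_of_lt c32 c78)
  have c81 : l 3 < l 15 := lt_trans c58 c78
  have c82 : l 3 ≤ l 15 := le_of_lt (lt_of_le_of_lt c59 c78)
  have c83 : ¬ S34 l v r := fun z => not_lt.mpr c79 z.1
  have c84 : r 15 < v 10 := (h.e34.resolve_left c83).2.2
  have c85 : r 15 ≤ r 10 := le_of_lt (lt_of_lt_of_le c84 c13)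
  have c86 : l 0 ≤ r 10 := le_of_lt (lt_of_lt_of_le c14 c85)
  have c87 : ¬ S2 l v r := fun z => L407 h z c86 c82 c81 c80 c68 c55 a1 a3
  have c88 : r 9 < v 0 := (h.e2.resolve_left c87).2.2
  have c89 : v 9 < l 0 := (h.e2.resolve_left c87).1
  have c90 : r 9 < r 0 := lt_of_lt_of_le c88 c15
  have c91 : r 12 < v 0 := lt_trans c49 c88
  have c92 : l 7 ≤ v 0 := le_of_lt (lt_of_le_of_lt c50 c88)
  have c93 : r 4 ≤ v 0 := le_of_lt (lt_of_le_of_lt c75 c88)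
  have c94 : v 12 < l 0 := lt_trans c61 c89
  have c95 : l 4 ≤ r 0 := le_of_lt (lt_of_le_of_lt c30 c90)
  have c96 : ¬ S0 l v r := fun z => not_lt.mpr c92 z.1
  have c97 : r 12 ≤ l 0 := not_lt.mp fun z => h.n12_0 c94 z c91
  have c98 : l 0 < r 7 := (h.e0.resolve_left c96).2.1
  have c99 : v 4 ≤ l 0 := le_of_lt (lt_of_lt_of_le c72 c97)
  have c100 : l 0 ≤ r 3 := le_of_lt (lt_of_lt_of_le c98 c53)
  have c101 : S20 l v r := Classical.byContradiction fun z => L363 h z c99 c95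
  have c102 : r 4 < v 8 := c101.2.2
  have c103 : l 8 < r 4 := c101.2.1
  have c104 : l 3 ≤ v 8 := le_of_lt (lt_of_le_of_lt c60 c102)
  have c105 : l 8 ≤ v 0 := le_of_lt (lt_of_lt_of_le c103 c93)
  have c106 : S15 l v r := h.e15.resolve_right fun z => not_lt.mpr c104 z.1
  have c107 : ¬ S1 l v r := fun z => not_lt.mpr c105 z.1
  have c108 : r 3 < v 8 := c106.2.2
  have c109 : v 8 < l 0 := (h.e1.resolve_left c107).1
  not_lt.mpr c100 (lt_trans c108 c109)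

theorem L409 {l v r : ℕ → ℝ} (h : H l v r) (a0 : v 10 ≤ r 3) (a1 : r 5 < l 10) : False :=
  have c0 : v 5 ≤ r 5 := not_lt.mp fun z => L36 h z
  have c1 : l 10 < v 10 := h.u10_0
  have c2 : v 5 ≤ l 10 := le_of_lt (lt_of_le_of_lt c0 a1)
  have c3 : v 5 < v 10 := lt_of_le_of_lt c2 c1
  have c4 : r 5 ≤ v 10 := not_lt.mp fun z => L131 h z a1
  have c5 : ¬ S16 l v r := fun z => not_lt.mpr a0 z.2.2
  have c6 : v 5 ≤ r 3 := le_of_lt (lt_of_lt_of_le c3 a0)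
  have c7 : v 10 < l 3 := (h.e16.resolve_left c5).1
  have c8 : ¬ S14 l v r := fun z => not_lt.mpr c6 z.2.2
  have c9 : r 5 ≤ l 3 := le_of_lt (lt_of_le_of_lt c4 c7)
  not_lt.mpr c9 (h.e14.resolve_left c8).2.1

theorem L410 {l v r : ℕ → ℝ} (h : H l v r) (a0 : ¬ S1 l v r) (a1 : v 3 ≤ l 0) (a2 : l 0 ≤ r 4) (a3 : l 4 ≤ r 3) : False :=
  have c0 : l 0 < r 8 := (h.e1.resolve_left a0).2.1
  have c1 : v 8 < l 0 := (h.e1.resolve_left a0).1
  have c2 : v 3 ≤ r 8 := le_of_lt (lt_of_le_of_lt a1 c0)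
  have c3 : v 8 ≤ r 4 := le_of_lt (lt_of_lt_of_le c1 a2)
  have c4 : S15 l v r := h.e15.resolve_right fun z => not_lt.mpr c2 z.2.2
  have c5 : ¬ S20 l v r := fun z => not_lt.mpr c3 z.2.2
  have c6 : r 3 < v 8 := c4.2.2
  have c7 : v 8 < l 4 := (h.e20.resolve_left c5).1
  not_lt.mpr a3 (lt_trans c6 c7)

theorem L411 {l v r : ℕ → ℝ} (h : H l v r) (a0 : r 14 ≤ l 15) : False :=
  have c0 : l 14 ≤ r 14 := not_lt.mp fun z => L147 h z
  have c1 : l 15 < v 15 := h.u15_0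
  have c2 : l 14 ≤ l 15 := le_trans c0 a0
  have c3 : ¬ S41 l v r := fun z => not_lt.mpr a0 z.2.1
  have c4 : l 14 ≤ v 15 := le_of_lt (lt_of_le_of_lt c2 c1)
  not_lt.mpr c4 (h.e41.resolve_left c3).1

theorem L412 {l v r : ℕ → ℝ} (h : H l v r) (a0 : S22 l v r) (a1 : l 11 ≤ v 4) (a2 : l 11 ≤ r 9) (a3 : l 11 ≤ l 10) (a4 : v 1 ≤ v 9) (a5 : l 10 ≤ r 4) (a6 : l 17 ≤ r 1) (a7 : v 9 ≤ v 4) (a8 : l 7 ≤ r 9) (a9 : l 10 < v 7) : False :=
  have c0 : r 9 < v 10 := not_le.mp fun z => L344 h z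
  have c1 : r 9 ≤ v 10 := not_lt.mp fun z => L352 h z
  have c2 : l 0 < r 11 := not_le.mp fun z => L271 h z
  have c3 : l 15 < r 14 := not_le.mp fun z => L411 h z
  have c4 : v 4 < l 15 := a0.1
  have c5 : r 4 < v 15 := a0.2.2
  have c6 : v 9 ≤ l 15 := le_of_lt (lt_of_le_of_lt a7 c4)
  have c7 : l 11 ≤ l 15 := le_of_lt (lt_of_le_of_lt a1 c4)
  have c8 : l 10 ≤ v 15 := le_of_lt (lt_of_le_of_lt a5 c5)
  have c9 : ¬ S2 l v r := fun z => L383 h z c6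
  have c10 : S34 l v r := h.e34.resolve_right fun z => not_lt.mpr c8 z.1
  have c11 : r 9 < v 0 := (h.e2.resolve_left c9).2.2
  have c12 : l 0 < r 9 := (h.e2.resolve_left c9).2.1
  have c13 : v 9 < l 0 := (h.e2.resolve_left c9).1
  have c14 : v 10 < l 15 := c10.1
  have c15 : l 7 ≤ v 0 := le_of_lt (lt_of_le_of_lt a8 c11)
  have c16 : l 11 ≤ v 0 := le_of_lt (lt_of_le_of_lt a2 c11)
  have c17 : l 0 < v 10 := lt_trans c12 c0
  have c18 : l 0 ≤ v 10 := le_of_lt (lt_of_lt_of_le c12 c1)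
  have c19 : v 9 < r 11 := lt_trans c13 c2
  have c20 : v 10 ≤ l 15 := le_of_lt c14
  have c21 : ¬ S0 l v r := fun z => not_lt.mpr c15 z.1
  have c22 : ¬ S3 l v r := fun z => not_lt.mpr c16 z.1
  have c23 : l 0 ≤ l 15 := le_of_lt (lt_of_lt_of_le c17 c20)
  have c24 : v 1 ≤ r 11 := le_of_lt (lt_of_le_of_lt a4 c19)
  have c25 : v 7 < l 0 := (h.e0.resolve_left c21).1
  have c26 : v 11 < l 0 := (h.e3.resolve_left c22).1
  have c27 : S9 l v r := h.e9.resolve_right fun z => not_lt.mpr c24 z.2.2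
  have c28 : v 7 ≤ l 15 := le_of_lt (lt_of_lt_of_le c25 c23)
  have c29 : v 11 ≤ v 10 := le_of_lt (lt_of_lt_of_le c26 c18)
  have c30 : r 1 < v 11 := c27.2.2
  have c31 : l 17 ≤ v 11 := le_of_lt (lt_of_le_of_lt a6 c30)
  have c32 : ¬ S37 l v r := fun z => not_lt.mpr c31 z.1
  have c33 : v 17 < l 11 := (h.e37.resolve_left c32).1
  have c34 : r 17 < v 11 := (h.e37.resolve_left c32).2.2
  have c35 : v 17 < l 10 := lt_of_lt_of_le c33 a3
  have c36 : v 17 ≤ l 15 := le_of_lt (lt_of_lt_of_le c33 c7)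
  have c37 : r 17 < v 10 := lt_of_lt_of_le c34 c29
  have c38 : r 17 ≤ l 10 := not_lt.mp fun z => h.n17_10 c35 z c37
  have c39 : r 17 ≤ v 7 := le_of_lt (lt_of_le_of_lt c38 a9)
  have c40 : v 17 ≤ r 14 := le_of_lt (lt_of_le_of_lt c36 c3)
  have c41 : v 7 ≤ r 14 := le_of_lt (lt_of_le_of_lt c28 c3)
  have c42 : ¬ S43 l v r := fun z => not_lt.mpr c40 z.2.2
  have c43 : S30 l v r := h.e30.resolve_right fun z => not_lt.mpr c41 z.2.2
  have c44 : l 14 < r 17 := (h.e43.resolve_left c42).2.1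
  have c45 : v 7 < l 14 := c43.1
  not_lt.mpr c39 (lt_trans c45 c44)

theorem L413 {l v r : ℕ → ℝ} (h : H l v r) (a0 : r 17 < v 5) (a1 : l 14 ≤ r 17) (a2 : v 1 ≤ v 9) (a3 : v 5 ≤ v 1) (a4 : v 9 < v 4) (a5 : v 9 ≤ v 4) (a6 : l 3 < l 4) (a7 : l 3 ≤ r 0) (a8 : l 4 < v 3) (a9 : r 5 < l 10) : False :=
  have c0 : l 10 ≤ r 9 := not_lt.mp fun z => L349 h z
  have c1 : l 3 ≤ r 3 := not_lt.mp fun z => L129 h z
  have c2 : v 5 ≤ r 5 := not_lt.mp fun z => L36 h z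
  have c3 : l 3 < v 3 := h.u3_0
  have c4 : l 11 ≤ r 17 := not_lt.mp fun z => L309 h z
  have c5 : l 0 < r 11 := not_le.mp fun z => L271 h z
  have c6 : l 4 < r 8 := not_le.mp fun z => L198 h z
  have c7 : v 5 ≤ l 10 := le_of_lt (lt_of_le_of_lt c2 a9)
  have c8 : r 3 < v 10 := not_le.mp fun z => L409 h z a9
  have c9 : l 3 ≤ v 10 := le_of_lt (lt_of_le_of_lt c1 c8)
  have c10 : S16 l v r := h.e16.resolve_right fun z => not_lt.mpr c9 z.1
  have c11 : l 10 < r 3 := c10.2.1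
  have c12 : v 5 ≤ r 3 := le_of_lt (lt_of_le_of_lt c7 c11)
  have c13 : ¬ S14 l v r := fun z => not_lt.mpr c12 z.2.2
  have c14 : v 5 < l 3 := (h.e14.resolve_left c13).1
  have c15 : v 5 < v 3 := lt_trans c14 c3
  have c16 : r 5 < r 9 := lt_of_lt_of_le a9 c0
  have c17 : v 5 ≤ r 9 := le_of_lt (lt_of_le_of_lt c2 c16)
  have c18 : S24 l v r := h.e24.resolve_right fun z => not_lt.mpr c17 z.2.2
  have c19 : r 5 < v 9 := c18.2.2
  have c20 : v 5 ≤ v 9 := le_of_lt (lt_of_le_of_lt c2 c19)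
  have c21 : r 17 < v 9 := lt_of_lt_of_le a0 c20
  have c22 : l 11 < v 5 := lt_of_le_of_lt c4 a0
  have c23 : r 17 < v 3 := lt_trans a0 c15
  have c24 : l 14 ≤ v 9 := le_of_lt (lt_of_le_of_lt a1 c21)
  have c25 : l 11 ≤ v 1 := le_of_lt (lt_of_lt_of_le c22 a3)
  have c26 : l 14 ≤ v 3 := le_of_lt (lt_of_le_of_lt a1 c23)
  have c27 : ¬ S32 l v r := fun z => not_lt.mpr c24 z.1
  have c28 : ¬ S9 l v r := fun z => not_lt.mpr c25 z.1
  have c29 : ¬ S18 l v r := fun z => not_lt.mpr c26 z.1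
  have c30 : l 9 < r 14 := (h.e32.resolve_left c27).2.1
  have c31 : r 14 < v 9 := (h.e32.resolve_left c27).2.2
  have c32 : r 11 < v 1 := (h.e9.resolve_left c28).2.2
  have c33 : v 14 < l 3 := (h.e18.resolve_left c29).1
  have c34 : r 14 < v 4 := lt_trans c31 a4
  have c35 : l 0 < v 1 := lt_trans c5 c32
  have c36 : v 14 < l 4 := lt_trans c33 a6
  have c37 : l 0 ≤ v 9 := le_of_lt (lt_of_lt_of_le c35 a2)
  have c38 : r 14 ≤ l 4 := not_lt.mp fun z => h.n14_4 c36 z c34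
  have c39 : S2 l v r := h.e2.resolve_right fun z => not_lt.mpr c37 z.1
  have c40 : r 14 < r 8 := lt_of_le_of_lt c38 c6
  have c41 : l 9 ≤ l 4 := le_of_lt (lt_of_lt_of_le c30 c38)
  have c42 : r 0 < v 9 := c39.2.2
  have c43 : v 0 < l 9 := c39.1
  have c44 : l 9 < r 8 := lt_trans c30 c40
  have c45 : v 0 < l 4 := lt_of_lt_of_le c43 c41
  have c46 : r 0 < v 4 := lt_of_lt_of_le c42 a5
  have c47 : v 0 ≤ l 9 := le_of_lt c43
  have c48 : v 0 ≤ r 8 := le_of_lt (lt_of_le_of_lt c47 c44)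
  have c49 : r 0 ≤ l 4 := not_lt.mp fun z => h.n0_4 c45 z c46
  have c50 : S1 l v r := h.e1.resolve_right fun z => not_lt.mpr c48 z.2.2
  have c51 : r 0 ≤ v 3 := le_of_lt (lt_of_le_of_lt c49 a8)
  have c52 : r 0 < v 8 := c50.2.2
  L405 h c52 a7 c51

theorem L414 {l v r : ℕ → ℝ} (h : H l v r) (a0 : ¬ S43 l v r) (a1 : v 17 < l 11) (a2 : l 11 < r 13) (a3 : v 1 ≤ v 9) (a4 : v 5 ≤ v 1) (a5 : v 9 < v 4) (a6 : v 9 ≤ v 4) (a7 : l 3 < l 4) (a8 : l 7 ≤ r 5) (a9 : l 3 ≤ r 0) (a10 : l 4 < v 3) (a11 : v 13 < r 5) (a12 : r 13 < v 7) (a13 : r 5 < l 10) : False :=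
  have c0 : v 17 ≤ r 17 := not_lt.mp fun z => L157 h z
  have c1 : v 17 ≤ r 11 := not_lt.mp fun z => L106 h z a1
  have c2 : ¬ S37 l v r := fun z => not_lt.mpr c1 z.2.2
  have c3 : r 17 < v 11 := (h.e37.resolve_left c2).2.2
  have c4 : r 17 ≤ v 11 := le_of_lt c3
  have c5 : r 17 < v 14 := (h.e43.resolve_left a0).2.2
  have c6 : l 14 < r 17 := (h.e43.resolve_left a0).2.1
  have c7 : v 17 ≤ v 14 := le_of_lt (lt_of_le_of_lt c0 c5)
  have c8 : l 14 ≤ r 17 := le_of_lt c6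
  have c9 : l 14 ≤ v 11 := le_of_lt (lt_of_lt_of_le c6 c4)
  have c10 : v 5 ≤ r 17 := not_lt.mp fun z => L413 h z c8 a3 a4 a5 a6 a7 a9 a10 a13
  have c11 : S25 l v r := h.e25.resolve_right fun z => not_lt.mpr c10 z.2.2
  have c12 : r 5 < v 17 := c11.2.2
  have c13 : r 5 < l 11 := lt_trans c12 a1
  have c14 : l 7 < v 17 := lt_of_le_of_lt a8 c12
  have c15 : v 13 < l 11 := lt_trans a11 c13
  have c16 : l 7 ≤ v 14 := le_of_lt (lt_of_lt_of_le c14 c7)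
  have c17 : v 11 ≤ r 13 := not_lt.mp fun z => h.n13_11 c15 a2 z
  have c18 : S30 l v r := h.e30.resolve_right fun z => not_lt.mpr c16 z.1
  have c19 : v 11 < v 7 := lt_of_le_of_lt c17 a12
  have c20 : v 7 < l 14 := c18.1
  not_lt.mpr c9 (lt_trans c19 c20)

theorem L415 {l v r : ℕ → ℝ} (h : H l v r) (a0 : S2 l v r) (a1 : l 4 < l 11) (a2 : l 9 ≤ r 11) (a3 : l 9 ≤ l 4) (a4 : v 9 ≤ v 4) : False :=
  have c0 : r 0 < v 9 := a0.2.2
  have c1 : v 0 < l 9 := a0.1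
  have c2 : r 0 < v 4 := lt_of_lt_of_le c0 a4
  have c3 : v 0 ≤ r 11 := le_of_lt (lt_of_lt_of_le c1 a2)
  have c4 : v 0 < l 4 := lt_of_lt_of_le c1 a3
  have c5 : S3 l v r := h.e3.resolve_right fun z => not_lt.mpr c3 z.2.2
  have c6 : r 0 ≤ l 4 := not_lt.mp fun z => h.n0_4 c4 z c2
  have c7 : l 11 < r 0 := c5.2.1
  not_lt.mpr c6 (lt_trans a1 c7)

theorem L416 {l v r : ℕ → ℝ} (h : H l v r) (a0 : v 17 < l 11) (a1 : r 5 < v 4) (a2 : ¬ S17 l v r) : False :=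
  have c0 : l 17 ≤ r 12 := not_lt.mp fun z => L316 h z
  have c1 : l 7 ≤ r 7 := not_lt.mp fun z => L94 h z
  have c2 : l 3 ≤ v 13 := not_lt.mp fun z => L181 h z
  have c3 : l 4 < r 15 := not_le.mp fun z => L203 h z
  have c4 : v 12 ≤ v 13 := not_lt.mp fun z => L84 h z
  have c5 : l 9 ≤ r 9 := not_lt.mp fun z => L96 h z
  have c6 : v 9 < l 10 := not_le.mp fun z => L342 h z
  have c7 : l 0 < r 15 := not_le.mp fun z => L205 h z
  have c8 : l 4 ≤ r 8 := not_lt.mp fun z => L199 h z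
  have c9 : l 11 < r 1 := not_le.mp fun z => L219 h z
  have c10 : v 9 < r 9 := h.u9_1
  have c11 : l 11 ≤ r 1 := not_lt.mp fun z => L220 h z
  have c12 : l 3 ≤ v 3 := not_lt.mp fun z => L128 h z
  have c13 : l 10 < r 9 := not_le.mp fun z => L343 h z
  have c14 : l 12 ≤ v 13 := not_lt.mp fun z => L89 h z
  have c15 : v 5 ≤ r 5 := not_lt.mp fun z => L36 h z
  have c16 : r 12 ≤ v 13 := not_lt.mp fun z => L159 h z
  have c17 : l 3 ≤ r 3 := not_lt.mp fun z => L129 h z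
  have c18 : v 4 ≤ r 4 := not_lt.mp fun z => L13 h z
  have c19 : l 17 ≤ v 13 := not_lt.mp fun z => L318 h z
  have c20 : l 4 ≤ r 1 := not_lt.mp fun z => L320 h z
  have c21 : v 9 ≤ l 10 := not_lt.mp fun z => L348 h z
  have c22 : v 3 ≤ r 3 := not_lt.mp fun z => L177 h z
  have c23 : l 13 ≤ r 12 := not_lt.mp fun z => L88 h z
  have c24 : l 10 ≤ r 9 := not_lt.mp fun z => L349 h z
  have c25 : l 5 ≤ r 5 := not_lt.mp fun z => L116 h z
  have c26 : l 14 ≤ r 14 := not_lt.mp fun z => L147 h z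
  have c27 : v 17 ≤ r 17 := not_lt.mp fun z => L157 h z
  have c28 : l 0 ≤ r 15 := not_lt.mp fun z => L206 h z
  have c29 : v 0 ≤ r 0 := not_lt.mp fun z => L141 h z
  have c30 : l 5 ≤ v 4 := le_of_lt (lt_of_le_of_lt c25 a1)
  have c31 : ¬ S19 l v r := fun z => not_lt.mpr c30 z.1
  have c32 : l 4 < r 5 := (h.e19.resolve_left c31).2.1
  have c33 : l 4 ≤ r 5 := le_of_lt c32
  have c34 : r 5 < l 10 := not_le.mp fun z => L402 h z a2
  have c35 : r 5 < r 9 := lt_of_lt_of_le c34 c24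
  have c36 : l 4 ≤ r 9 := le_of_lt (lt_of_le_of_lt c33 c35)
  have c37 : r 12 < v 3 := (h.e17.resolve_left a2).2.2
  have c38 : r 12 ≤ r 3 := le_of_lt (lt_of_lt_of_le c37 c22)
  have c39 : l 13 ≤ r 3 := le_trans c23 c38
  have c40 : r 3 < v 10 := not_le.mp fun z => L409 h z c34
  have c41 : l 13 ≤ v 10 := le_of_lt (lt_of_le_of_lt c39 c40)
  have c42 : ¬ S33 l v r := fun z => not_lt.mpr c41 z.1
  have c43 : l 10 < r 13 := (h.e33.resolve_left c42).2.1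
  have c44 : l 10 ≤ r 13 := le_of_lt c43
  have c45 : l 13 ≤ v 7 := not_lt.mp fun z => L408 h c42 z a1 a2
  have c46 : ¬ S29 l v r := fun z => not_lt.mpr c45 z.1
  have c47 : r 13 < v 7 := (h.e29.resolve_left c46).2.2
  have c48 : l 10 < v 7 := lt_of_le_of_lt c44 c47
  have c49 : r 5 ≤ r 9 := le_of_lt (lt_of_lt_of_le c34 c24)
  have c50 : l 5 ≤ l 10 := le_of_lt (lt_of_le_of_lt c25 c34)
  have c51 : l 5 ≤ r 13 := le_of_lt (lt_of_le_of_lt c50 c43)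
  have c52 : l 5 ≤ v 7 := le_of_lt (lt_of_le_of_lt c51 c47)
  have c53 : S23 l v r := h.e23.resolve_right fun z => not_lt.mpr c52 z.1
  have c54 : l 7 < r 5 := c53.2.1
  have c55 : l 7 ≤ r 9 := le_of_lt (lt_of_lt_of_le c54 c49)
  have c56 : v 9 ≤ r 13 := le_of_lt (lt_of_le_of_lt c21 c43)
  have c57 : r 5 ≤ r 4 := not_lt.mp fun z => L176 h z a1
  have c58 : v 13 < r 5 := not_le.mp fun z => L290 h c46 z c51
  have c59 : v 13 ≤ r 4 := le_of_lt (lt_of_lt_of_le c58 c57)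
  have c60 : ¬ S21 l v r := fun z => not_lt.mpr c59 z.2.2
  have c61 : r 13 < v 4 := (h.e21.resolve_left c60).2.2
  have c62 : v 9 ≤ v 4 := le_of_lt (lt_of_le_of_lt c56 c61)
  have c63 : v 13 < l 4 := (h.e21.resolve_left c60).1
  have c64 : l 17 < l 4 := lt_of_le_of_lt c19 c63
  have c65 : l 17 ≤ r 1 := le_of_lt (lt_of_lt_of_le c64 c20)
  have c66 : r 13 < r 4 := lt_of_lt_of_le c61 c18
  have c67 : l 10 ≤ r 4 := le_of_lt (lt_of_le_of_lt c44 c66)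
  have c68 : l 4 ≤ l 10 := le_of_lt (lt_of_le_of_lt c33 c34)
  have c69 : l 3 ≤ v 10 := le_of_lt (lt_of_le_of_lt c17 c40)
  have c70 : S16 l v r := h.e16.resolve_right fun z => not_lt.mpr c69 z.1
  have c71 : l 10 < r 3 := c70.2.1
  have c72 : l 4 ≤ r 3 := le_of_lt (lt_of_le_of_lt c68 c71)
  have c73 : r 5 ≤ v 4 := le_of_lt a1
  have c74 : r 12 < r 5 := lt_of_le_of_lt c16 c58
  have c75 : r 12 ≤ v 4 := le_of_lt (lt_of_lt_of_le c74 c73)
  have c76 : v 5 ≤ r 9 := le_of_lt (lt_of_le_of_lt c15 c35)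
  have c77 : S24 l v r := h.e24.resolve_right fun z => not_lt.mpr c76 z.2.2
  have c78 : r 5 < v 9 := c77.2.2
  have c79 : l 12 ≤ r 5 := le_of_lt (lt_of_le_of_lt c14 c58)
  have c80 : l 12 ≤ v 9 := le_of_lt (lt_of_le_of_lt c79 c78)
  have c81 : l 9 < r 5 := c77.2.1
  have c82 : l 9 ≤ r 4 := le_of_lt (lt_of_lt_of_le c81 c57)
  have c83 : v 3 < l 10 := c70.1
  have c84 : l 3 ≤ l 10 := le_of_lt (lt_of_le_of_lt c12 c83)
  have c85 : l 3 ≤ r 9 := le_of_lt (lt_of_le_of_lt c84 c13)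
  have c86 : r 12 ≤ l 4 := le_of_lt (lt_of_le_of_lt c16 c63)
  have c87 : l 1 ≤ v 9 := not_lt.mp fun z => L306 h z c75 c86 c82 c80 c72 c85
  have c88 : S8 l v r := h.e8.resolve_right fun z => not_lt.mpr c87 z.1
  have c89 : r 1 < v 9 := c88.2.2
  have c90 : v 1 ≤ v 9 := not_lt.mp fun z => L164 h c89 z
  have c91 : r 1 < l 10 := lt_of_lt_of_le c89 c21
  have c92 : l 11 ≤ l 10 := le_of_lt (lt_of_le_of_lt c11 c91)
  have c93 : r 1 < r 9 := lt_trans c89 c10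
  have c94 : l 11 ≤ r 9 := le_of_lt (lt_of_le_of_lt c11 c93)
  have c95 : l 11 < v 9 := lt_trans c9 c89
  have c96 : l 11 ≤ v 4 := le_of_lt (lt_of_lt_of_le c95 c62)
  have c97 : ¬ S22 l v r := fun z => L412 h z c96 c94 c92 c90 c67 c65 c62 c55 c48
  have c98 : v 15 < l 4 := (h.e22.resolve_left c97).1
  have c99 : l 15 < l 4 := not_le.mp fun z => L73 h c98 z
  have c100 : l 15 ≤ r 9 := le_of_lt (lt_of_lt_of_le c99 c36)
  have c101 : l 15 ≤ r 8 := le_of_lt (lt_of_lt_of_le c99 c8)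
  have c102 : r 15 < v 4 := (h.e22.resolve_left c97).2.2
  have c103 : r 15 ≤ r 4 := le_of_lt (lt_of_lt_of_le c102 c18)
  have c104 : l 0 ≤ r 4 := le_of_lt (lt_of_lt_of_le c7 c103)
  have c105 : v 15 ≤ r 9 := le_of_lt (lt_of_lt_of_le c98 c36)
  have c106 : v 9 < r 13 := lt_trans c6 c43
  have c107 : v 9 < v 4 := lt_trans c106 c61
  have c108 : l 11 < v 4 := lt_trans c95 c107
  have c109 : l 11 < r 13 := lt_trans c95 c106
  have c110 : v 1 < l 9 := c88.1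
  have c111 : v 1 ≤ r 9 := le_of_lt (lt_of_lt_of_le c110 c5)
  have c112 : r 1 < r 13 := lt_trans c89 c106
  have c113 : l 3 < r 12 := (h.e17.resolve_left a2).2.1
  have c114 : l 3 ≤ r 12 := le_of_lt c113
  have c115 : v 5 ≤ l 10 := le_of_lt (lt_of_le_of_lt c15 c34)
  have c116 : v 5 ≤ r 3 := le_of_lt (lt_of_le_of_lt c115 c71)
  have c117 : ¬ S14 l v r := fun z => not_lt.mpr c116 z.2.2
  have c118 : v 5 < l 3 := (h.e14.resolve_left c117).1
  have c119 : v 5 ≤ r 12 := le_of_lt (lt_of_lt_of_le c118 c114)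
  have c120 : v 12 < l 4 := lt_of_le_of_lt c4 c63
  have c121 : v 12 ≤ r 1 := le_of_lt (lt_of_lt_of_le c120 c20)
  have c122 : ¬ S10 l v r := fun z => not_lt.mpr c121 z.2.2
  have c123 : r 12 < v 1 := (h.e10.resolve_left c122).2.2
  have c124 : v 5 ≤ v 1 := le_of_lt (lt_of_le_of_lt c119 c123)
  have c125 : v 13 < r 15 := lt_trans c63 c3
  have c126 : l 17 ≤ r 15 := le_of_lt (lt_of_le_of_lt c19 c125)
  have c127 : l 3 < l 4 := lt_of_le_of_lt c2 c63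
  have c128 : l 7 ≤ r 5 := le_of_lt c54
  have c129 : v 13 < l 7 := (h.e29.resolve_left c46).1
  have c130 : v 13 ≤ r 0 := not_lt.mp fun z => L194 h z c129
  have c131 : l 3 ≤ r 0 := le_trans c2 c130
  have c132 : v 13 < r 7 := lt_of_lt_of_le c129 c1
  have c133 : l 17 ≤ r 7 := le_of_lt (lt_of_le_of_lt c19 c132)
  have c134 : r 5 < v 3 := (h.e14.resolve_left c117).2.2
  have c135 : l 4 < v 3 := lt_trans c32 c134
  have c136 : v 3 ≤ l 10 := le_of_lt c83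
  have c137 : v 3 ≤ r 13 := le_of_lt (lt_of_le_of_lt c136 c43)
  have c138 : v 3 ≤ v 7 := le_of_lt (lt_of_le_of_lt c137 c47)
  have c139 : v 13 ≤ l 7 := le_of_lt c129
  have c140 : l 17 ≤ v 3 := le_of_lt (lt_of_le_of_lt c0 c37)
  have c141 : v 3 < r 9 := lt_trans c83 c13
  have c142 : l 17 ≤ r 9 := le_of_lt (lt_of_le_of_lt c140 c141)
  have c143 : v 17 ≤ r 11 := not_lt.mp fun z => L106 h z a0
  have c144 : v 17 < v 4 := lt_trans a0 c108
  have c145 : S43 l v r := Classical.byContradiction fun z => L414 h z a0 c109 c90 c124 c107 c62 c127 c128 c131 c135 c58 c47 c34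
  have c146 : r 14 < v 17 := c145.2.2
  have c147 : v 14 < l 17 := c145.1
  have c148 : l 14 < v 17 := lt_of_le_of_lt c26 c146
  have c149 : r 14 ≤ r 11 := le_of_lt (lt_of_lt_of_le c146 c143)
  have c150 : r 14 < v 4 := lt_trans c146 c144
  have c151 : v 14 ≤ r 9 := le_of_lt (lt_of_lt_of_le c147 c142)
  have c152 : v 14 ≤ r 15 := le_of_lt (lt_of_lt_of_le c147 c126)
  have c153 : v 14 < l 4 := lt_trans c147 c64
  have c154 : v 14 ≤ r 7 := le_of_lt (lt_of_lt_of_le c147 c133)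
  have c155 : l 14 ≤ r 17 := le_of_lt (lt_of_lt_of_le c148 c27)
  have c156 : ¬ S32 l v r := fun z => not_lt.mpr c151 z.2.2
  have c157 : S41 l v r := h.e41.resolve_right fun z => not_lt.mpr c152 z.2.2
  have c158 : r 14 ≤ l 4 := not_lt.mp fun z => h.n14_4 c153 z c150
  have c159 : ¬ S30 l v r := fun z => not_lt.mpr c154 z.2.2
  have c160 : v 5 ≤ r 17 := not_lt.mp fun z => L413 h z c155 c90 c124 c107 c62 c127 c131 c135 c34
  have c161 : l 9 < r 14 := (h.e32.resolve_left c156).2.1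
  have c162 : r 14 < v 15 := c157.2.2
  have c163 : l 9 ≤ l 4 := le_of_lt (lt_of_lt_of_le c161 c158)
  have c164 : l 7 < r 14 := (h.e30.resolve_left c159).2.1
  have c165 : S25 l v r := h.e25.resolve_right fun z => not_lt.mpr c160 z.2.2
  have c166 : l 9 ≤ r 11 := le_of_lt (lt_of_lt_of_le c161 c149)
  have c167 : r 14 ≤ v 15 := le_of_lt c162
  have c168 : v 13 < r 14 := lt_of_le_of_lt c139 c164
  have c169 : r 5 < v 17 := c165.2.2
  have c170 : v 13 < v 15 := lt_of_lt_of_le c168 c167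
  have c171 : l 4 < v 17 := not_le.mp fun z => L191 h z c169
  have c172 : l 4 < l 11 := lt_trans c171 a0
  have c173 : ¬ S2 l v r := fun z => L415 h z c172 c166 c163 c62
  have c174 : r 9 < v 0 := (h.e2.resolve_left c173).2.2
  have c175 : l 7 ≤ v 0 := le_of_lt (lt_of_le_of_lt c55 c174)
  have c176 : v 1 ≤ v 0 := le_of_lt (lt_of_le_of_lt c111 c174)
  have c177 : v 15 ≤ v 0 := le_of_lt (lt_of_le_of_lt c105 c174)
  have c178 : l 15 ≤ v 0 := le_of_lt (lt_of_le_of_lt c100 c174)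
  have c179 : ¬ S0 l v r := fun z => not_lt.mpr c175 z.1
  have c180 : ¬ S4 l v r := fun z => not_lt.mpr c178 z.1
  have c181 : v 7 < l 0 := (h.e0.resolve_left c179).1
  have c182 : r 15 < v 0 := (h.e4.resolve_left c180).2.2
  have c183 : v 7 ≤ r 15 := le_of_lt (lt_of_lt_of_le c181 c28)
  have c184 : v 3 ≤ l 0 := le_of_lt (lt_of_le_of_lt c138 c181)
  have c185 : r 15 ≤ r 0 := le_of_lt (lt_of_lt_of_le c182 c29)
  have c186 : r 13 < r 15 := lt_of_lt_of_le c47 c183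
  have c187 : S1 l v r := Classical.byContradiction fun z => L410 h z c184 c104 c72
  have c188 : v 0 < l 8 := c187.1
  have c189 : r 0 < v 8 := c187.2.2
  have c190 : v 15 ≤ l 8 := le_of_lt (lt_of_le_of_lt c177 c188)
  have c191 : v 1 ≤ l 8 := le_of_lt (lt_of_le_of_lt c176 c188)
  have c192 : r 15 ≤ v 8 := le_of_lt (lt_of_le_of_lt c185 c189)
  have c193 : S11 l v r := Classical.byContradiction fun z => L201 h z c192 c101
  have c194 : l 8 < r 2 := c193.2.1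
  have c195 : v 15 ≤ r 2 := le_of_lt (lt_of_le_of_lt c190 c194)
  have c196 : v 1 ≤ r 2 := le_of_lt (lt_of_le_of_lt c191 c194)
  have c197 : ¬ S12 l v r := fun z => not_lt.mpr c195 z.2.2
  have c198 : S5 l v r := h.e5.resolve_right fun z => not_lt.mpr c196 z.2.2
  have c199 : r 15 < v 2 := (h.e12.resolve_left c197).2.2
  have c200 : v 15 < l 2 := (h.e12.resolve_left c197).1
  have c201 : l 2 < r 1 := c198.2.1
  have c202 : r 13 < v 2 := lt_trans c186 c199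
  have c203 : v 13 < l 2 := lt_trans c170 c200
  have c204 : l 2 < r 13 := lt_trans c201 c112
  h.n13_2 c203 c204 c202

theorem L417 {l v r : ℕ → ℝ} (h : H l v r) (a0 : r 5 < v 4) (a1 : ¬ S17 l v r) : False :=
  have c0 : l 10 ≤ r 10 := not_lt.mp fun z => L52 h z
  have c1 : l 10 ≤ r 9 := not_lt.mp fun z => L349 h z
  have c2 : v 3 ≤ r 3 := not_lt.mp fun z => L177 h z
  have c3 : l 13 ≤ r 12 := not_lt.mp fun z => L88 h z
  have c4 : l 3 ≤ v 3 := not_lt.mp fun z => L128 h z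
  have c5 : l 10 < r 9 := not_le.mp fun z => L343 h z
  have c6 : l 3 ≤ r 3 := not_lt.mp fun z => L129 h z
  have c7 : v 5 ≤ r 5 := not_lt.mp fun z => L36 h z
  have c8 : l 5 ≤ r 5 := not_lt.mp fun z => L116 h z
  have c9 : l 12 ≤ v 13 := not_lt.mp fun z => L89 h z
  have c10 : l 3 ≤ v 13 := not_lt.mp fun z => L181 h z
  have c11 : r 12 ≤ v 13 := not_lt.mp fun z => L159 h z
  have c12 : l 17 ≤ v 13 := not_lt.mp fun z => L318 h z
  have c13 : v 4 ≤ r 4 := not_lt.mp fun z => L13 h z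
  have c14 : l 4 ≤ r 1 := not_lt.mp fun z => L320 h z
  have c15 : v 9 ≤ l 10 := not_lt.mp fun z => L348 h z
  have c16 : v 9 < r 9 := h.u9_1
  have c17 : l 11 < r 1 := not_le.mp fun z => L219 h z
  have c18 : l 11 ≤ r 1 := not_lt.mp fun z => L220 h z
  have c19 : l 4 ≤ r 8 := not_lt.mp fun z => L199 h z
  have c20 : v 10 ≤ r 10 := not_lt.mp fun z => L31 h z
  have c21 : l 0 < r 15 := not_le.mp fun z => L205 h z
  have c22 : l 0 < r 11 := not_le.mp fun z => L271 h z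
  have c23 : l 9 ≤ l 10 := not_lt.mp fun z => L345 h z
  have c24 : r 5 < l 10 := not_le.mp fun z => L402 h z a1
  have c25 : v 5 ≤ l 10 := le_of_lt (lt_of_le_of_lt c7 c24)
  have c26 : r 3 < v 10 := not_le.mp fun z => L409 h z c24
  have c27 : l 3 ≤ v 10 := le_of_lt (lt_of_le_of_lt c6 c26)
  have c28 : S16 l v r := h.e16.resolve_right fun z => not_lt.mpr c27 z.1
  have c29 : l 10 < r 3 := c28.2.1
  have c30 : v 5 ≤ r 3 := le_of_lt (lt_of_le_of_lt c25 c29)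
  have c31 : ¬ S14 l v r := fun z => not_lt.mpr c30 z.2.2
  have c32 : r 5 < v 3 := (h.e14.resolve_left c31).2.2
  have c33 : v 3 < l 10 := c28.1
  have c34 : l 3 ≤ l 10 := le_of_lt (lt_of_le_of_lt c4 c33)
  have c35 : l 3 ≤ r 9 := le_of_lt (lt_of_le_of_lt c34 c5)
  have c36 : l 5 ≤ l 10 := le_of_lt (lt_of_le_of_lt c8 c24)
  have c37 : r 12 < v 3 := (h.e17.resolve_left a1).2.2
  have c38 : r 12 ≤ r 3 := le_of_lt (lt_of_lt_of_le c37 c2)
  have c39 : l 13 ≤ r 3 := le_trans c3 c38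
  have c40 : l 13 ≤ v 10 := le_of_lt (lt_of_le_of_lt c39 c26)
  have c41 : ¬ S33 l v r := fun z => not_lt.mpr c40 z.1
  have c42 : l 10 < r 13 := (h.e33.resolve_left c41).2.1
  have c43 : l 5 ≤ r 13 := le_of_lt (lt_of_le_of_lt c36 c42)
  have c44 : v 9 ≤ r 13 := le_of_lt (lt_of_le_of_lt c15 c42)
  have c45 : l 10 ≤ r 13 := le_of_lt c42
  have c46 : r 5 < r 9 := lt_of_lt_of_le c24 c1
  have c47 : v 5 ≤ r 9 := le_of_lt (lt_of_le_of_lt c7 c46)
  have c48 : S24 l v r := h.e24.resolve_right fun z => not_lt.mpr c47 z.2.2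
  have c49 : l 9 < r 5 := c48.2.1
  have c50 : r 5 < v 9 := c48.2.2
  have c51 : r 5 ≤ r 9 := le_of_lt (lt_of_lt_of_le c24 c1)
  have c52 : r 5 ≤ r 10 := le_of_lt (lt_of_lt_of_le c24 c0)
  have c53 : l 5 ≤ v 4 := le_of_lt (lt_of_le_of_lt c8 a0)
  have c54 : r 5 ≤ v 4 := le_of_lt a0
  have c55 : r 5 ≤ r 4 := not_lt.mp fun z => L176 h z a0
  have c56 : ¬ S19 l v r := fun z => not_lt.mpr c53 z.1
  have c57 : l 4 < r 5 := (h.e19.resolve_left c56).2.1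
  have c58 : l 4 ≤ r 5 := le_of_lt c57
  have c59 : l 4 ≤ l 10 := le_of_lt (lt_of_le_of_lt c58 c24)
  have c60 : l 4 ≤ r 10 := le_of_lt (lt_of_lt_of_le c57 c52)
  have c61 : l 9 ≤ r 4 := le_of_lt (lt_of_lt_of_le c49 c55)
  have c62 : l 13 ≤ v 7 := not_lt.mp fun z => L408 h c41 z a0 a1
  have c63 : l 4 ≤ r 3 := le_of_lt (lt_of_le_of_lt c59 c29)
  have c64 : ¬ S29 l v r := fun z => not_lt.mpr c62 z.1
  have c65 : v 13 < l 7 := (h.e29.resolve_left c64).1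
  have c66 : r 13 < v 7 := (h.e29.resolve_left c64).2.2
  have c67 : v 13 < r 5 := not_le.mp fun z => L290 h c64 z c43
  have c68 : v 13 ≤ r 0 := not_lt.mp fun z => L194 h z c65
  have c69 : l 10 < v 7 := lt_of_le_of_lt c45 c66
  have c70 : l 5 ≤ v 7 := le_of_lt (lt_of_le_of_lt c43 c66)
  have c71 : l 12 ≤ r 5 := le_of_lt (lt_of_le_of_lt c9 c67)
  have c72 : r 12 < r 5 := lt_of_le_of_lt c11 c67
  have c73 : v 13 ≤ r 4 := le_of_lt (lt_of_lt_of_le c67 c55)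
  have c74 : l 4 ≤ v 3 := le_of_lt (lt_of_le_of_lt c58 c32)
  have c75 : l 3 ≤ r 0 := le_trans c10 c68
  have c76 : S23 l v r := h.e23.resolve_right fun z => not_lt.mpr c70 z.1
  have c77 : l 12 ≤ v 9 := le_of_lt (lt_of_le_of_lt c71 c50)
  have c78 : r 12 ≤ v 4 := le_of_lt (lt_of_lt_of_le c72 c54)
  have c79 : ¬ S21 l v r := fun z => not_lt.mpr c73 z.2.2
  have c80 : l 7 < r 5 := c76.2.1
  have c81 : v 13 < l 4 := (h.e21.resolve_left c79).1
  have c82 : r 13 < v 4 := (h.e21.resolve_left c79).2.2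
  have c83 : l 7 ≤ r 9 := le_of_lt (lt_of_lt_of_le c80 c51)
  have c84 : r 12 ≤ l 4 := le_of_lt (lt_of_le_of_lt c11 c81)
  have c85 : l 17 < l 4 := lt_of_le_of_lt c12 c81
  have c86 : r 13 < r 4 := lt_of_lt_of_le c82 c13
  have c87 : v 9 ≤ v 4 := le_of_lt (lt_of_le_of_lt c44 c82)
  have c88 : l 1 ≤ v 9 := not_lt.mp fun z => L306 h z c78 c84 c61 c77 c63 c35
  have c89 : l 17 ≤ r 1 := le_of_lt (lt_of_lt_of_le c85 c14)
  have c90 : l 10 ≤ r 4 := le_of_lt (lt_of_le_of_lt c45 c86)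
  have c91 : S8 l v r := h.e8.resolve_right fun z => not_lt.mpr c88 z.1
  have c92 : r 1 < v 9 := c91.2.2
  have c93 : r 1 < l 10 := lt_of_lt_of_le c92 c15
  have c94 : r 1 < r 9 := lt_trans c92 c16
  have c95 : v 1 ≤ v 9 := not_lt.mp fun z => L164 h c92 z
  have c96 : l 11 < v 9 := lt_trans c17 c92
  have c97 : l 11 ≤ l 10 := le_of_lt (lt_of_le_of_lt c18 c93)
  have c98 : l 11 ≤ r 9 := le_of_lt (lt_of_le_of_lt c18 c94)
  have c99 : l 11 ≤ v 4 := le_of_lt (lt_of_lt_of_le c96 c87)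
  have c100 : ¬ S22 l v r := fun z => L412 h z c99 c98 c97 c95 c90 c89 c87 c83 c69
  have c101 : v 15 < l 4 := (h.e22.resolve_left c100).1
  have c102 : l 15 < l 4 := not_le.mp fun z => L73 h c101 z
  have c103 : v 15 ≤ v 3 := le_of_lt (lt_of_lt_of_le c101 c74)
  have c104 : v 15 ≤ r 10 := le_of_lt (lt_of_lt_of_le c101 c60)
  have c105 : l 15 ≤ r 8 := le_of_lt (lt_of_lt_of_le c102 c19)
  have c106 : ¬ S34 l v r := fun z => not_lt.mpr c104 z.2.2
  have c107 : r 15 < v 10 := (h.e34.resolve_left c106).2.2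
  have c108 : r 15 ≤ r 10 := le_of_lt (lt_of_lt_of_le c107 c20)
  have c109 : l 0 ≤ r 10 := le_of_lt (lt_of_lt_of_le c21 c108)
  have c110 : l 11 ≤ v 17 := not_lt.mp fun z => L416 h z a0 a1
  have c111 : S37 l v r := h.e37.resolve_right fun z => not_lt.mpr c110 z.1
  have c112 : v 11 < l 17 := c111.1
  have c113 : v 11 ≤ r 1 := le_of_lt (lt_of_lt_of_le c112 c89)
  have c114 : ¬ S9 l v r := fun z => not_lt.mpr c113 z.2.2
  have c115 : r 11 < v 1 := (h.e9.resolve_left c114).2.2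
  have c116 : l 0 < v 1 := lt_trans c22 c115
  have c117 : l 0 ≤ v 9 := le_of_lt (lt_of_lt_of_le c116 c95)
  have c118 : S2 l v r := h.e2.resolve_right fun z => not_lt.mpr c117 z.1
  have c119 : v 0 < l 9 := c118.1
  have c120 : v 0 ≤ l 10 := le_of_lt (lt_of_lt_of_le c119 c23)
  have c121 : S4 l v r := Classical.byContradiction fun z => L372 h z c109 c120
  have c122 : v 0 < l 15 := c121.1
  have c123 : r 0 < v 15 := c121.2.2
  have c124 : v 0 ≤ r 8 := le_of_lt (lt_of_lt_of_le c122 c105)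
  have c125 : r 0 ≤ v 3 := le_of_lt (lt_of_lt_of_le c123 c103)
  have c126 : S1 l v r := h.e1.resolve_right fun z => not_lt.mpr c124 z.2.2
  have c127 : v 8 ≤ r 0 := not_lt.mp fun z => L405 h z c75 c125
  not_lt.mpr c127 c126.2.2

theorem L418 {l v r : ℕ → ℝ} (h : H l v r) (a0 : ¬ S8 l v r) (a1 : ¬ S17 l v r) : False :=
  have c0 : l 10 ≤ r 9 := not_lt.mp fun z => L349 h z
  have c1 : v 5 ≤ r 5 := not_lt.mp fun z => L36 h z
  have c2 : r 5 < l 10 := not_le.mp fun z => L402 h z a1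
  have c3 : r 5 < r 9 := lt_of_lt_of_le c2 c0
  have c4 : v 5 ≤ r 9 := le_of_lt (lt_of_le_of_lt c1 c3)
  have c5 : S24 l v r := h.e24.resolve_right fun z => not_lt.mpr c4 z.2.2
  have c6 : r 5 < v 9 := c5.2.2
  have c7 : v 5 ≤ v 9 := le_of_lt (lt_of_le_of_lt c1 c6)
  have c8 : v 4 ≤ r 5 := not_lt.mp fun z => L417 h z a1
  have c9 : S19 l v r := h.e19.resolve_right fun z => not_lt.mpr c8 z.2.2
  have c10 : r 4 < v 5 := c9.2.2
  have c11 : r 4 ≤ v 9 := le_of_lt (lt_of_lt_of_le c10 c7)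
  have c12 : v 4 < r 9 := lt_of_le_of_lt c8 c3
  have c13 : l 4 ≤ r 9 := not_lt.mp fun z => L121 h c12 z
  have c14 : r 9 < v 1 := (h.e8.resolve_left a0).2.2
  have c15 : v 9 < l 1 := (h.e8.resolve_left a0).1
  have c16 : l 4 ≤ v 1 := le_of_lt (lt_of_le_of_lt c13 c14)
  have c17 : r 4 ≤ l 1 := le_of_lt (lt_of_le_of_lt c11 c15)
  have c18 : ¬ S6 l v r := fun z => not_lt.mpr c16 z.1
  not_lt.mpr c17 (h.e6.resolve_left c18).2.1

theorem L419 {l v r : ℕ → ℝ} (h : H l v r) (a0 : ¬ S2 l v r) (a1 : ¬ S17 l v r) : False :=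
  have c0 : v 3 ≤ r 3 := not_lt.mp fun z => L177 h z
  have c1 : l 5 ≤ r 5 := not_lt.mp fun z => L116 h z
  have c2 : l 10 < r 9 := not_le.mp fun z => L343 h z
  have c3 : l 13 ≤ r 12 := not_lt.mp fun z => L88 h z
  have c4 : l 3 ≤ r 3 := not_lt.mp fun z => L129 h z
  have c5 : l 3 ≤ v 3 := not_lt.mp fun z => L128 h z
  have c6 : l 10 ≤ r 9 := not_lt.mp fun z => L349 h z
  have c7 : v 5 ≤ r 5 := not_lt.mp fun z => L36 h z
  have c8 : l 13 ≤ r 4 := not_lt.mp fun z => L208 h z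
  have c9 : v 0 ≤ r 0 := not_lt.mp fun z => L141 h z
  have c10 : l 3 ≤ v 13 := not_lt.mp fun z => L181 h z
  have c11 : v 4 ≤ r 5 := not_lt.mp fun z => L417 h z a1
  have c12 : S19 l v r := h.e19.resolve_right fun z => not_lt.mpr c11 z.2.2
  have c13 : r 4 < v 5 := c12.2.2
  have c14 : r 4 < r 5 := lt_of_lt_of_le c13 c7
  have c15 : l 13 ≤ r 5 := le_of_lt (lt_of_le_of_lt c8 c14)
  have c16 : r 5 < l 10 := not_le.mp fun z => L402 h z a1
  have c17 : r 5 < r 9 := lt_of_lt_of_le c16 c6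
  have c18 : v 5 ≤ r 9 := le_of_lt (lt_of_le_of_lt c7 c17)
  have c19 : r 4 ≤ r 9 := le_of_lt (lt_of_lt_of_le c13 c18)
  have c20 : v 5 ≤ l 10 := le_of_lt (lt_of_le_of_lt c7 c16)
  have c21 : r 3 < v 10 := not_le.mp fun z => L409 h z c16
  have c22 : l 3 ≤ v 10 := le_of_lt (lt_of_le_of_lt c4 c21)
  have c23 : S16 l v r := h.e16.resolve_right fun z => not_lt.mpr c22 z.1
  have c24 : l 10 < r 3 := c23.2.1
  have c25 : v 5 ≤ r 3 := le_of_lt (lt_of_le_of_lt c20 c24)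
  have c26 : ¬ S14 l v r := fun z => not_lt.mpr c25 z.2.2
  have c27 : v 5 < l 3 := (h.e14.resolve_left c26).1
  have c28 : v 5 ≤ v 3 := le_of_lt (lt_of_lt_of_le c27 c5)
  have c29 : r 4 ≤ v 3 := le_of_lt (lt_of_lt_of_le c13 c28)
  have c30 : v 4 < r 9 := lt_of_le_of_lt c11 c17
  have c31 : l 4 ≤ r 9 := not_lt.mp fun z => L121 h c30 z
  have c32 : S24 l v r := h.e24.resolve_right fun z => not_lt.mpr c18 z.2.2
  have c33 : r 5 < v 9 := c32.2.2
  have c34 : v 4 ≤ v 9 := le_of_lt (lt_of_le_of_lt c11 c33)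
  have c35 : r 12 < v 3 := (h.e17.resolve_left a1).2.2
  have c36 : l 13 ≤ v 3 := le_of_lt (lt_of_le_of_lt c3 c35)
  have c37 : v 3 < l 10 := c23.1
  have c38 : v 3 < r 9 := lt_trans c37 c2
  have c39 : l 13 ≤ r 9 := le_of_lt (lt_of_le_of_lt c36 c38)
  have c40 : l 5 ≤ l 10 := le_of_lt (lt_of_le_of_lt c1 c16)
  have c41 : r 12 ≤ r 3 := le_of_lt (lt_of_lt_of_le c35 c0)
  have c42 : l 13 ≤ r 3 := le_trans c3 c41
  have c43 : l 13 ≤ v 10 := le_of_lt (lt_of_le_of_lt c42 c21)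
  have c44 : ¬ S33 l v r := fun z => not_lt.mpr c43 z.1
  have c45 : l 10 < r 13 := (h.e33.resolve_left c44).2.1
  have c46 : l 5 ≤ r 13 := le_of_lt (lt_of_le_of_lt c40 c45)
  have c47 : v 3 < r 13 := lt_trans c37 c45
  have c48 : v 5 ≤ v 9 := le_of_lt (lt_of_le_of_lt c7 c33)
  have c49 : r 9 < v 0 := (h.e2.resolve_left a0).2.2
  have c50 : v 9 < l 0 := (h.e2.resolve_left a0).1
  have c51 : l 13 ≤ v 7 := not_lt.mp fun z => L403 h a0 c15 c39 z c48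
  have c52 : r 9 < r 0 := lt_of_lt_of_le c49 c9
  have c53 : r 4 ≤ v 0 := le_of_lt (lt_of_le_of_lt c19 c49)
  have c54 : r 5 < l 0 := lt_trans c33 c50
  have c55 : v 4 ≤ l 0 := le_of_lt (lt_of_le_of_lt c34 c50)
  have c56 : ¬ S29 l v r := fun z => not_lt.mpr c51 z.1
  have c57 : l 4 ≤ r 0 := le_of_lt (lt_of_le_of_lt c31 c52)
  have c58 : S20 l v r := Classical.byContradiction fun z => L363 h z c55 c57
  have c59 : v 13 < l 7 := (h.e29.resolve_left c56).1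
  have c60 : r 13 < v 7 := (h.e29.resolve_left c56).2.2
  have c61 : l 8 < r 4 := c58.2.1
  have c62 : l 3 ≤ l 7 := le_of_lt (lt_of_le_of_lt c10 c59)
  have c63 : v 3 < v 7 := lt_trans c47 c60
  have c64 : l 5 ≤ v 7 := le_of_lt (lt_of_le_of_lt c46 c60)
  have c65 : l 8 ≤ v 0 := le_of_lt (lt_of_lt_of_le c61 c53)
  have c66 : l 8 ≤ v 3 := le_of_lt (lt_of_lt_of_le c61 c29)
  have c67 : S23 l v r := h.e23.resolve_right fun z => not_lt.mpr c64 z.1
  have c68 : ¬ S1 l v r := fun z => not_lt.mpr c65 z.1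
  have c69 : ¬ S15 l v r := fun z => not_lt.mpr c66 z.1
  have c70 : l 7 < r 5 := c67.2.1
  have c71 : l 0 < r 8 := (h.e1.resolve_left c68).2.1
  have c72 : v 8 < l 3 := (h.e15.resolve_left c69).1
  have c73 : r 8 < v 3 := (h.e15.resolve_left c69).2.2
  have c74 : l 7 < l 0 := lt_trans c70 c54
  have c75 : v 8 < l 7 := lt_of_lt_of_le c72 c62
  have c76 : r 8 < v 7 := lt_trans c73 c63
  have c77 : l 7 < r 8 := lt_trans c74 c71
  h.n8_7 c75 c77 c76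

theorem L420 {l v r : ℕ → ℝ} (h : H l v r) (a0 : r 8 < v 0) (a1 : ¬ S17 l v r) : False :=
  have c0 : l 3 ≤ r 3 := not_lt.mp fun z => L129 h z
  have c1 : l 10 ≤ r 9 := not_lt.mp fun z => L349 h z
  have c2 : l 9 ≤ l 10 := not_lt.mp fun z => L345 h z
  have c3 : v 5 ≤ r 5 := not_lt.mp fun z => L36 h z
  have c4 : l 10 < v 10 := h.u10_0
  have c5 : v 10 ≤ r 10 := not_lt.mp fun z => L31 h z
  have c6 : l 0 < r 15 := not_le.mp fun z => L205 h z
  have c7 : l 10 ≤ r 10 := not_lt.mp fun z => L52 h z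
  have c8 : l 8 < r 8 := not_le.mp fun z => L109 h z
  have c9 : v 4 ≤ r 5 := not_lt.mp fun z => L417 h z a1
  have c10 : S19 l v r := h.e19.resolve_right fun z => not_lt.mpr c9 z.2.2
  have c11 : r 4 < v 5 := c10.2.2
  have c12 : r 4 ≤ v 5 := le_of_lt c11
  have c13 : r 5 < l 10 := not_le.mp fun z => L402 h z a1
  have c14 : v 4 ≤ l 10 := le_of_lt (lt_of_le_of_lt c9 c13)
  have c15 : r 5 ≤ r 10 := le_of_lt (lt_of_lt_of_le c13 c7)
  have c16 : v 4 ≤ r 10 := le_trans c9 c15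
  have c17 : l 4 ≤ r 10 := not_lt.mp fun z => L29 h z c16
  have c18 : S22 l v r := Classical.byContradiction fun z => L362 h z c17 c14
  have c19 : l 15 < r 4 := c18.2.1
  have c20 : l 15 ≤ v 5 := le_of_lt (lt_of_lt_of_le c19 c12)
  have c21 : v 5 ≤ l 10 := le_of_lt (lt_of_le_of_lt c3 c13)
  have c22 : v 5 ≤ v 10 := le_of_lt (lt_of_le_of_lt c21 c4)
  have c23 : r 4 ≤ v 10 := le_of_lt (lt_of_lt_of_le c11 c22)
  have c24 : l 15 ≤ v 10 := le_of_lt (lt_of_lt_of_le c19 c23)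
  have c25 : ¬ S34 l v r := fun z => not_lt.mpr c24 z.1
  have c26 : r 15 < v 10 := (h.e34.resolve_left c25).2.2
  have c27 : r 15 ≤ r 10 := le_of_lt (lt_of_lt_of_le c26 c5)
  have c28 : l 0 ≤ r 10 := le_of_lt (lt_of_lt_of_le c6 c27)
  have c29 : S2 l v r := Classical.byContradiction fun z => L419 h z a1
  have c30 : v 0 < l 9 := c29.1
  have c31 : v 0 ≤ l 10 := le_of_lt (lt_of_lt_of_le c30 c2)
  have c32 : S4 l v r := Classical.byContradiction fun z => L372 h z c28 c31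
  have c33 : v 0 < l 15 := c32.1
  have c34 : v 0 ≤ v 5 := le_of_lt (lt_of_lt_of_le c33 c20)
  have c35 : r 5 < r 9 := lt_of_lt_of_le c13 c1
  have c36 : v 5 ≤ r 9 := le_of_lt (lt_of_le_of_lt c3 c35)
  have c37 : S24 l v r := h.e24.resolve_right fun z => not_lt.mpr c36 z.2.2
  have c38 : l 9 < r 5 := c37.2.1
  have c39 : l 9 ≤ r 5 := le_of_lt c38
  have c40 : v 0 ≤ r 5 := le_of_lt (lt_of_lt_of_le c30 c39)
  have c41 : r 3 < v 10 := not_le.mp fun z => L409 h z c13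
  have c42 : l 3 ≤ v 10 := le_of_lt (lt_of_le_of_lt c0 c41)
  have c43 : S16 l v r := h.e16.resolve_right fun z => not_lt.mpr c42 z.1
  have c44 : l 10 < r 3 := c43.2.1
  have c45 : v 5 ≤ r 3 := le_of_lt (lt_of_le_of_lt c21 c44)
  have c46 : ¬ S14 l v r := fun z => not_lt.mpr c45 z.2.2
  have c47 : l 8 < v 0 := lt_trans c8 a0
  have c48 : r 8 ≤ v 5 := le_of_lt (lt_of_lt_of_le a0 c34)
  have c49 : l 8 ≤ r 5 := le_of_lt (lt_of_lt_of_le c47 c40)
  L293 h c46 c48 c49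

theorem L421 {l v r : ℕ → ℝ} (h : H l v r) (a0 : ¬ S17 l v r) : False :=
  have c0 : l 10 ≤ r 9 := not_lt.mp fun z => L349 h z
  have c1 : l 3 ≤ r 3 := not_lt.mp fun z => L129 h z
  have c2 : l 9 ≤ l 10 := not_lt.mp fun z => L345 h z
  have c3 : v 5 ≤ r 5 := not_lt.mp fun z => L36 h z
  have c4 : v 12 ≤ r 4 := not_lt.mp fun z => L210 h z
  have c5 : l 1 < v 1 := h.u1_0
  have c6 : l 3 < r 12 := (h.e17.resolve_left a0).2.1
  have c7 : l 3 ≤ r 12 := le_of_lt c6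
  have c8 : r 5 < l 10 := not_le.mp fun z => L402 h z a0
  have c9 : r 5 < r 9 := lt_of_lt_of_le c8 c0
  have c10 : v 5 ≤ r 9 := le_of_lt (lt_of_le_of_lt c3 c9)
  have c11 : S24 l v r := h.e24.resolve_right fun z => not_lt.mpr c10 z.2.2
  have c12 : l 9 < r 5 := c11.2.1
  have c13 : v 5 < l 9 := c11.1
  have c14 : l 9 ≤ r 5 := le_of_lt c12
  have c15 : l 5 ≤ l 9 := not_lt.mp fun z => L174 h c13 z
  have c16 : r 3 < v 10 := not_le.mp fun z => L409 h z c8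
  have c17 : l 3 ≤ v 10 := le_of_lt (lt_of_le_of_lt c1 c16)
  have c18 : S16 l v r := h.e16.resolve_right fun z => not_lt.mpr c17 z.1
  have c19 : l 10 < r 3 := c18.2.1
  have c20 : l 9 ≤ r 3 := le_of_lt (lt_of_le_of_lt c2 c19)
  have c21 : v 4 ≤ r 5 := not_lt.mp fun z => L417 h z a0
  have c22 : S19 l v r := h.e19.resolve_right fun z => not_lt.mpr c21 z.2.2
  have c23 : v 4 < l 5 := c22.1
  have c24 : r 4 < v 5 := c22.2.2
  have c25 : l 4 < l 5 := not_le.mp fun z => L2 h c23 z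
  have c26 : r 4 ≤ r 5 := le_of_lt (lt_of_lt_of_le c24 c3)
  have c27 : v 12 ≤ v 5 := le_of_lt (lt_of_le_of_lt c4 c24)
  have c28 : l 4 ≤ l 9 := le_of_lt (lt_of_lt_of_le c25 c15)
  have c29 : v 12 ≤ l 9 := le_of_lt (lt_of_le_of_lt c27 c13)
  have c30 : S8 l v r := Classical.byContradiction fun z => L418 h z a0
  have c31 : v 1 < l 9 := c30.1
  have c32 : l 9 < r 1 := c30.2.1
  have c33 : l 1 < l 9 := lt_trans c5 c31
  have c34 : v 12 ≤ r 1 := le_of_lt (lt_of_le_of_lt c29 c32)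
  have c35 : l 1 ≤ r 5 := le_of_lt (lt_of_lt_of_le c33 c14)
  have c36 : ¬ S10 l v r := fun z => not_lt.mpr c34 z.2.2
  have c37 : r 12 < v 1 := (h.e10.resolve_left c36).2.2
  have c38 : l 3 ≤ v 1 := le_of_lt (lt_of_le_of_lt c7 c37)
  have c39 : S2 l v r := Classical.byContradiction fun z => L419 h z a0
  have c40 : l 9 < r 0 := c39.2.1
  have c41 : l 4 ≤ r 0 := le_of_lt (lt_of_le_of_lt c28 c40)
  have c42 : v 0 ≤ r 8 := not_lt.mp fun z => L420 h z a0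
  have c43 : S1 l v r := h.e1.resolve_right fun z => not_lt.mpr c42 z.2.2
  have c44 : r 0 < v 8 := c43.2.2
  have c45 : l 4 ≤ v 8 := le_of_lt (lt_of_le_of_lt c41 c44)
  have c46 : l 9 < v 8 := lt_trans c40 c44
  have c47 : S20 l v r := h.e20.resolve_right fun z => not_lt.mpr c45 z.1
  have c48 : r 5 < l 8 := not_le.mp fun z => L326 h c11 c20 c38 z c35 c46
  have c49 : l 8 < r 4 := c47.2.1
  not_lt.mpr c26 (lt_trans c48 c49)

theorem L422 {l v r : ℕ → ℝ} (h : H l v r) (a0 : r 3 ≤ l 12) : False :=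
  have c0 : S17 l v r := Classical.byContradiction fun z => L421 h z
  not_lt.mpr a0 c0.2.1

theorem L423 {l v r : ℕ → ℝ} (h : H l v r) (a0 : l 12 ≤ v 3) : False :=
  have c0 : S17 l v r := Classical.byContradiction fun z => L421 h z
  not_lt.mpr a0 c0.1

theorem L424 {l v r : ℕ → ℝ} (h : H l v r) (a0 : v 12 ≤ r 3) : False :=
  have c0 : S17 l v r := Classical.byContradiction fun z => L421 h z
  not_lt.mpr a0 c0.2.2

theorem L425 {l v r : ℕ → ℝ} (h : H l v r) (a0 : r 3 < l 12) : False :=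
  have c0 : l 12 < r 3 := not_le.mp fun z => L422 h z
  lt_asymm a0 c0

theorem L426 {l v r : ℕ → ℝ} (h : H l v r) (a0 : v 12 < v 3) : False :=
  have c0 : v 3 < l 12 := not_le.mp fun z => L423 h z
  have c1 : l 12 ≤ v 12 := not_lt.mp fun z => L125 h z
  not_lt.mpr c1 (lt_trans a0 c0)

theorem L427 {l v r : ℕ → ℝ} (h : H l v r) (a0 : l 12 < l 3) : False :=
  have c0 : v 3 < l 12 := not_le.mp fun z => L423 h z
  have c1 : l 3 ≤ v 3 := not_lt.mp fun z => L128 h z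
  not_lt.mpr c1 (lt_trans c0 a0)

theorem L428 {l v r : ℕ → ℝ} (h : H l v r) (a0 : l 12 < v 3) : False :=
  have c0 : v 3 < l 12 := not_le.mp fun z => L423 h z
  lt_asymm c0 a0

theorem L429 {l v r : ℕ → ℝ} (h : H l v r) (a0 : r 10 < v 3) : False :=
  have c0 : v 3 < l 12 := not_le.mp fun z => L423 h z
  have c1 : l 12 ≤ r 10 := not_lt.mp fun z => L333 h z
  not_lt.mpr c1 (lt_trans a0 c0)

theorem L430 {l v r : ℕ → ℝ} (h : H l v r) (a0 : l 13 ≤ r 3) : False :=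
  have c0 : r 3 < v 12 := not_le.mp fun z => L424 h z
  have c1 : v 12 ≤ l 13 := not_lt.mp fun z => L143 h z
  not_lt.mpr (le_trans c1 a0) c0

theorem L431 {l v r : ℕ → ℝ} (h : H l v r) (a0 : v 12 < r 3) : False :=
  have c0 : r 3 < v 12 := not_le.mp fun z => L424 h z
  lt_asymm c0 a0

theorem L432 {l v r : ℕ → ℝ} (h : H l v r) (a0 : r 12 < r 3) : False :=
  have c0 : r 3 < v 12 := not_le.mp fun z => L424 h z
  have c1 : v 12 ≤ r 12 := not_lt.mp fun z => L93 h z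
  not_lt.mpr c1 (lt_trans a0 c0)

theorem L433 {l v r : ℕ → ℝ} (h : H l v r) (a0 : v 13 ≤ r 3) : False :=
  have c0 : r 3 < v 12 := not_le.mp fun z => L424 h z
  have c1 : v 12 < v 13 := not_le.mp fun z => L86 h z
  not_lt.mpr a0 (lt_trans c0 c1)

theorem L434 {l v r : ℕ → ℝ} (h : H l v r) (a0 : l 13 < r 3) : False :=
  have c0 : r 3 < v 12 := not_le.mp fun z => L424 h z
  have c1 : v 12 ≤ l 13 := not_lt.mp fun z => L143 h z
  not_lt.mpr c1 (lt_trans a0 c0)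

theorem L435 {l v r : ℕ → ℝ} (h : H l v r) (a0 : r 13 ≤ r 3) : False :=
  have c0 : r 3 < v 12 := not_le.mp fun z => L424 h z
  have c1 : v 12 < r 13 := not_le.mp fun z => L166 h z
  not_lt.mpr a0 (lt_trans c0 c1)

theorem L436 {l v r : ℕ → ℝ} (h : H l v r) (a0 : v 13 < r 3) : False :=
  have c0 : r 3 < v 12 := not_le.mp fun z => L424 h z
  have c1 : v 12 ≤ v 13 := not_lt.mp fun z => L84 h z
  not_lt.mpr c1 (lt_trans a0 c0)

theorem L437 {l v r : ℕ → ℝ} (h : H l v r) (a0 : r 4 < r 3) : False :=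
  have c0 : r 3 < v 12 := not_le.mp fun z => L424 h z
  have c1 : v 12 ≤ r 4 := not_lt.mp fun z => L210 h z
  not_lt.mpr c1 (lt_trans a0 c0)

theorem L438 {l v r : ℕ → ℝ} (h : H l v r) (a0 : r 4 ≤ r 3) : False :=
  have c0 : r 3 < v 12 := not_le.mp fun z => L424 h z
  have c1 : v 12 ≤ r 4 := not_lt.mp fun z => L210 h z
  not_lt.mpr (le_trans c1 a0) c0

theorem L439 {l v r : ℕ → ℝ} (h : H l v r) (a0 : v 12 ≤ l 8) : False :=
  have c0 : r 3 < v 12 := not_le.mp fun z => L424 h z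
  have c1 : l 8 ≤ r 3 := not_lt.mp fun z => L217 h z
  not_lt.mpr (le_trans a0 c1) c0

theorem L440 {l v r : ℕ → ℝ} (h : H l v r) (a0 : v 12 < l 8) : False :=
  have c0 : r 3 < v 12 := not_le.mp fun z => L424 h z
  have c1 : l 8 ≤ r 3 := not_lt.mp fun z => L217 h z
  not_lt.mpr c1 (lt_trans c0 a0)

theorem L441 {l v r : ℕ → ℝ} (h : H l v r) (a0 : v 12 < l 5) : False :=
  have c0 : r 3 < v 12 := not_le.mp fun z => L424 h z
  have c1 : l 5 ≤ r 3 := not_lt.mp fun z => L401 h z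
  not_lt.mpr c1 (lt_trans c0 a0)

theorem L442 {l v r : ℕ → ℝ} (h : H l v r) (a0 : ¬ S16 l v r) : False :=
  have c0 : v 3 ≤ r 10 := not_lt.mp fun z => L429 h z
  not_lt.mpr c0 (h.e16.resolve_left a0).2.2

theorem L443 {l v r : ℕ → ℝ} (h : H l v r) (a0 : l 13 < l 8) : False :=
  have c0 : r 3 < l 13 := not_le.mp fun z => L430 h z
  have c1 : l 8 ≤ r 3 := not_lt.mp fun z => L217 h z
  not_lt.mpr c1 (lt_trans c0 a0)

theorem L444 {l v r : ℕ → ℝ} (h : H l v r) (a0 : r 12 < l 5) : False :=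
  have c0 : r 3 ≤ r 12 := not_lt.mp fun z => L432 h z
  have c1 : l 5 < r 3 := not_le.mp fun z => L400 h z
  not_lt.mpr c0 (lt_trans a0 c1)

theorem L445 {l v r : ℕ → ℝ} (h : H l v r) (a0 : r 13 < l 5) : False :=
  have c0 : r 3 < r 13 := not_le.mp fun z => L435 h z
  have c1 : l 5 ≤ r 3 := not_lt.mp fun z => L401 h z
  not_lt.mpr c1 (lt_trans c0 a0)

theorem L446 {l v r : ℕ → ℝ} (h : H l v r) (a0 : r 10 < l 8) : False :=
  have c0 : l 8 < v 12 := not_le.mp fun z => L439 h z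
  have c1 : v 12 ≤ r 10 := not_lt.mp fun z => L334 h z
  not_lt.mpr c1 (lt_trans a0 c0)

theorem L447 {l v r : ℕ → ℝ} (h : H l v r) (a0 : r 3 ≤ l 10) : False :=
  have c0 : S16 l v r := Classical.byContradiction fun z => L442 h z
  not_lt.mpr a0 c0.2.1

theorem L448 {l v r : ℕ → ℝ} (h : H l v r) (a0 : v 10 ≤ r 3) : False :=
  have c0 : S16 l v r := Classical.byContradiction fun z => L442 h z
  not_lt.mpr a0 c0.2.2

theorem L449 {l v r : ℕ → ℝ} (h : H l v r) (a0 : l 10 ≤ v 3) : False :=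
  have c0 : S16 l v r := Classical.byContradiction fun z => L442 h z
  not_lt.mpr a0 c0.1

theorem L450 {l v r : ℕ → ℝ} (h : H l v r) (a0 : r 3 ≤ v 9) : False :=
  have c0 : l 10 < r 3 := not_le.mp fun z => L447 h z
  have c1 : v 9 < l 10 := not_le.mp fun z => L342 h z
  not_lt.mpr a0 (lt_trans c1 c0)

theorem L451 {l v r : ℕ → ℝ} (h : H l v r) (a0 : r 3 ≤ l 9) : False :=
  have c0 : l 10 < r 3 := not_le.mp fun z => L447 h z
  have c1 : l 9 ≤ l 10 := not_lt.mp fun z => L345 h z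
  not_lt.mpr (le_trans a0 c1) c0

theorem L452 {l v r : ℕ → ℝ} (h : H l v r) (a0 : r 3 < l 9) : False :=
  have c0 : l 10 < r 3 := not_le.mp fun z => L447 h z
  have c1 : l 9 ≤ l 10 := not_lt.mp fun z => L345 h z
  not_lt.mpr c1 (lt_trans c0 a0)

theorem L453 {l v r : ℕ → ℝ} (h : H l v r) (a0 : r 3 < v 9) : False :=
  have c0 : l 10 < r 3 := not_le.mp fun z => L447 h z
  have c1 : v 9 ≤ l 10 := not_lt.mp fun z => L348 h z
  not_lt.mpr c1 (lt_trans c0 a0)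

theorem L454 {l v r : ℕ → ℝ} (h : H l v r) (a0 : v 13 < l 10) : False :=
  have c0 : l 10 < r 3 := not_le.mp fun z => L447 h z
  have c1 : r 3 ≤ v 13 := not_lt.mp fun z => L436 h z
  not_lt.mpr c1 (lt_trans a0 c0)

theorem L455 {l v r : ℕ → ℝ} (h : H l v r) (a0 : v 12 < l 10) : False :=
  have c0 : l 10 < r 3 := not_le.mp fun z => L447 h z
  have c1 : r 3 ≤ v 12 := not_lt.mp fun z => L431 h z
  not_lt.mpr c1 (lt_trans a0 c0)

theorem L456 {l v r : ℕ → ℝ} (h : H l v r) (a0 : r 12 < l 10) : False :=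
  have c0 : l 10 < r 3 := not_le.mp fun z => L447 h z
  have c1 : r 3 ≤ r 12 := not_lt.mp fun z => L432 h z
  not_lt.mpr c1 (lt_trans a0 c0)

theorem L457 {l v r : ℕ → ℝ} (h : H l v r) (a0 : l 13 < l 10) : False :=
  have c0 : l 10 < r 3 := not_le.mp fun z => L447 h z
  have c1 : r 3 ≤ l 13 := not_lt.mp fun z => L434 h z
  not_lt.mpr c1 (lt_trans a0 c0)

theorem L458 {l v r : ℕ → ℝ} (h : H l v r) (a0 : r 4 < l 10) : False :=
  have c0 : l 10 < r 3 := not_le.mp fun z => L447 h z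
  have c1 : r 3 ≤ r 4 := not_lt.mp fun z => L437 h z
  not_lt.mpr c1 (lt_trans a0 c0)

theorem L459 {l v r : ℕ → ℝ} (h : H l v r) (a0 : v 10 ≤ l 8) : False :=
  have c0 : r 3 < v 10 := not_le.mp fun z => L448 h z
  have c1 : l 8 ≤ r 3 := not_lt.mp fun z => L217 h z
  not_lt.mpr (le_trans a0 c1) c0

theorem L460 {l v r : ℕ → ℝ} (h : H l v r) (a0 : v 10 < l 12) : False :=
  have c0 : r 3 < v 10 := not_le.mp fun z => L448 h z
  have c1 : l 12 ≤ r 3 := not_lt.mp fun z => L425 h z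
  not_lt.mpr c1 (lt_trans c0 a0)

theorem L461 {l v r : ℕ → ℝ} (h : H l v r) (a0 : l 10 < l 3) : False :=
  have c0 : v 3 < l 10 := not_le.mp fun z => L449 h z
  have c1 : l 3 ≤ v 3 := not_lt.mp fun z => L128 h z
  not_lt.mpr c1 (lt_trans c0 a0)

theorem L462 {l v r : ℕ → ℝ} (h : H l v r) (a0 : l 10 < v 3) : False :=
  have c0 : v 3 < l 10 := not_le.mp fun z => L449 h z
  lt_asymm c0 a0

theorem L463 {l v r : ℕ → ℝ} (h : H l v r) (a0 : r 9 < v 3) : False :=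
  have c0 : v 3 < l 10 := not_le.mp fun z => L449 h z
  have c1 : l 10 ≤ r 9 := not_lt.mp fun z => L349 h z
  not_lt.mpr c1 (lt_trans a0 c0)

theorem L464 {l v r : ℕ → ℝ} (h : H l v r) (a0 : l 13 < v 9) : False :=
  have c0 : v 9 < r 3 := not_le.mp fun z => L450 h z
  have c1 : r 3 ≤ l 13 := not_lt.mp fun z => L434 h z
  not_lt.mpr c1 (lt_trans a0 c0)

theorem L465 {l v r : ℕ → ℝ} (h : H l v r) (a0 : v 12 < v 9) : False :=
  have c0 : v 9 < r 3 := not_le.mp fun z => L450 h z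
  have c1 : r 3 ≤ v 12 := not_lt.mp fun z => L431 h z
  not_lt.mpr c1 (lt_trans a0 c0)

theorem L466 {l v r : ℕ → ℝ} (h : H l v r) (a0 : v 13 ≤ v 9) : False :=
  have c0 : v 9 < r 3 := not_le.mp fun z => L450 h z
  have c1 : r 3 < v 13 := not_le.mp fun z => L433 h z
  not_lt.mpr a0 (lt_trans c0 c1)

theorem L467 {l v r : ℕ → ℝ} (h : H l v r) (a0 : v 13 < v 9) : False :=
  have c0 : v 9 < r 3 := not_le.mp fun z => L450 h z
  have c1 : r 3 ≤ v 13 := not_lt.mp fun z => L436 h z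
  not_lt.mpr c1 (lt_trans a0 c0)

theorem L468 {l v r : ℕ → ℝ} (h : H l v r) (a0 : v 12 < l 9) : False :=
  have c0 : l 9 < r 3 := not_le.mp fun z => L451 h z
  have c1 : r 3 ≤ v 12 := not_lt.mp fun z => L431 h z
  not_lt.mpr c1 (lt_trans a0 c0)

theorem L469 {l v r : ℕ → ℝ} (h : H l v r) (a0 : r 12 < l 9) : False :=
  have c0 : l 9 < r 3 := not_le.mp fun z => L451 h z
  have c1 : r 3 ≤ r 12 := not_lt.mp fun z => L432 h z
  not_lt.mpr c1 (lt_trans a0 c0)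

theorem L470 {l v r : ℕ → ℝ} (h : H l v r) (a0 : r 4 < l 9) : False :=
  have c0 : l 9 < r 3 := not_le.mp fun z => L451 h z
  have c1 : r 3 ≤ r 4 := not_lt.mp fun z => L437 h z
  not_lt.mpr c1 (lt_trans a0 c0)

theorem L471 {l v r : ℕ → ℝ} (h : H l v r) (a0 : ¬ S33 l v r) : False :=
  have c0 : l 10 ≤ v 13 := not_lt.mp fun z => L454 h z
  not_lt.mpr c0 (h.e33.resolve_left a0).1

theorem L472 {l v r : ℕ → ℝ} (h : H l v r) (a0 : r 9 < l 3) : False :=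
  have c0 : l 3 ≤ l 10 := not_lt.mp fun z => L461 h z
  have c1 : l 10 < r 9 := not_le.mp fun z => L343 h z
  not_lt.mpr c0 (lt_trans c1 a0)

theorem L473 {l v r : ℕ → ℝ} (h : H l v r) (a0 : l 13 ≤ v 10) : False :=
  have c0 : S33 l v r := Classical.byContradiction fun z => L471 h z
  not_lt.mpr a0 c0.1

theorem L474 {l v r : ℕ → ℝ} (h : H l v r) (a0 : v 13 ≤ r 10) : False :=
  have c0 : S33 l v r := Classical.byContradiction fun z => L471 h z
  not_lt.mpr a0 c0.2.2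

theorem L475 {l v r : ℕ → ℝ} (h : H l v r) (a0 : r 12 ≤ v 10) : False :=
  have c0 : v 10 < l 13 := not_le.mp fun z => L473 h z
  have c1 : l 13 ≤ r 12 := not_lt.mp fun z => L88 h z
  not_lt.mpr (le_trans c1 a0) c0

theorem L476 {l v r : ℕ → ℝ} (h : H l v r) (a0 : r 13 < v 10) : False :=
  have c0 : v 10 < l 13 := not_le.mp fun z => L473 h z
  have c1 : l 13 ≤ r 13 := not_lt.mp fun z => L169 h z
  not_lt.mpr c1 (lt_trans a0 c0)

theorem L477 {l v r : ℕ → ℝ} (h : H l v r) (a0 : l 13 < v 10) : False :=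
  have c0 : v 10 < l 13 := not_le.mp fun z => L473 h z
  lt_asymm c0 a0

theorem L478 {l v r : ℕ → ℝ} (h : H l v r) (a0 : r 12 < v 10) : False :=
  have c0 : v 10 < l 13 := not_le.mp fun z => L473 h z
  L146 h a0 c0

theorem L479 {l v r : ℕ → ℝ} (h : H l v r) (a0 : r 4 ≤ v 10) : False :=
  have c0 : v 10 < l 13 := not_le.mp fun z => L473 h z
  have c1 : l 13 < r 4 := not_le.mp fun z => L207 h z
  not_lt.mpr a0 (lt_trans c0 c1)

theorem L480 {l v r : ℕ → ℝ} (h : H l v r) (a0 : l 13 ≤ r 9) : False :=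
  have c0 : v 10 < l 13 := not_le.mp fun z => L473 h z
  have c1 : r 9 < v 10 := not_le.mp fun z => L344 h z
  not_lt.mpr a0 (lt_trans c1 c0)

theorem L481 {l v r : ℕ → ℝ} (h : H l v r) (a0 : r 13 < r 10) : False :=
  have c0 : r 10 < v 13 := not_le.mp fun z => L474 h z
  have c1 : v 13 ≤ r 13 := not_lt.mp fun z => L168 h z
  not_lt.mpr c1 (lt_trans a0 c0)

theorem L482 {l v r : ℕ → ℝ} (h : H l v r) (a0 : v 13 ≤ l 16) : False :=
  have c0 : r 10 < v 13 := not_le.mp fun z => L474 h z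
  have c1 : l 16 < r 10 := not_le.mp fun z => L189 h z
  not_lt.mpr a0 (lt_trans c1 c0)

theorem L483 {l v r : ℕ → ℝ} (h : H l v r) (a0 : v 13 ≤ r 9) : False :=
  have c0 : r 10 < v 13 := not_le.mp fun z => L474 h z
  have c1 : r 9 < r 10 := not_le.mp fun z => L350 h z
  not_lt.mpr a0 (lt_trans c1 c0)

theorem L484 {l v r : ℕ → ℝ} (h : H l v r) (a0 : r 12 ≤ r 9) : False :=
  have c0 : v 10 < r 12 := not_le.mp fun z => L475 h z
  have c1 : r 9 < v 10 := not_le.mp fun z => L344 h z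
  not_lt.mpr a0 (lt_trans c1 c0)

theorem L485 {l v r : ℕ → ℝ} (h : H l v r) (a0 : r 13 < r 9) : False :=
  have c0 : v 10 ≤ r 13 := not_lt.mp fun z => L476 h z
  have c1 : r 9 < v 10 := not_le.mp fun z => L344 h z
  not_lt.mpr c0 (lt_trans a0 c1)

theorem L486 {l v r : ℕ → ℝ} (h : H l v r) (a0 : r 4 < r 9) : False :=
  have c0 : v 10 < r 4 := not_le.mp fun z => L479 h z
  have c1 : r 9 ≤ v 10 := not_lt.mp fun z => L352 h z
  not_lt.mpr c1 (lt_trans c0 a0)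

theorem L487 {l v r : ℕ → ℝ} (h : H l v r) (a0 : l 12 < r 17) (a1 : ¬ S37 l v r) (a2 : l 9 ≤ l 4) (a3 : l 9 < l 12) (a4 : S2 l v r) (a5 : v 5 ≤ l 12) : False :=
  have c0 : l 10 ≤ r 4 := not_lt.mp fun z => L458 h z
  have c1 : v 9 ≤ v 10 := not_lt.mp fun z => L347 h z
  have c2 : v 9 ≤ l 10 := not_lt.mp fun z => L348 h z
  have c3 : l 12 ≤ r 4 := not_lt.mp fun z => L212 h z
  have c4 : r 17 < v 11 := (h.e37.resolve_left a1).2.2
  have c5 : r 17 ≤ r 11 := not_lt.mp fun z => L165 h z c4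
  have c6 : v 17 < l 11 := (h.e37.resolve_left a1).1
  have c7 : l 15 < v 9 := not_le.mp fun z => L383 h a4 z
  have c8 : l 15 ≤ v 10 := le_of_lt (lt_of_lt_of_le c7 c1)
  have c9 : ¬ S34 l v r := fun z => not_lt.mpr c8 z.1
  have c10 : l 10 < r 15 := (h.e34.resolve_left c9).2.1
  have c11 : v 9 ≤ r 15 := le_of_lt (lt_of_le_of_lt c2 c10)
  have c12 : v 15 < l 10 := (h.e34.resolve_left c9).1
  have c13 : v 15 ≤ r 4 := le_of_lt (lt_of_lt_of_le c12 c0)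
  have c14 : ¬ S22 l v r := fun z => not_lt.mpr c13 z.2.2
  have c15 : r 15 < v 4 := (h.e22.resolve_left c14).2.2
  have c16 : v 9 ≤ v 4 := le_of_lt (lt_of_le_of_lt c11 c15)
  have c17 : l 12 ≤ r 17 := le_of_lt a0
  have c18 : l 12 ≤ r 11 := le_of_lt (lt_of_lt_of_le a0 c5)
  have c19 : l 4 < v 17 := not_le.mp fun z => L188 h a5 z c17 c3
  have c20 : l 9 ≤ r 11 := le_of_lt (lt_of_lt_of_le a3 c18)
  have c21 : l 4 < l 11 := lt_trans c19 c6
  L415 h a4 c21 c20 a2 c16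

theorem L488 {l v r : ℕ → ℝ} (h : H l v r) (a0 : r 17 ≤ l 12) : False :=
  have c0 : l 17 ≤ r 17 := not_lt.mp fun z => L158 h z
  have c1 : r 17 < v 12 := not_le.mp fun z => L33 h a0 z
  have c2 : S40 l v r := h.e40.resolve_right fun z => not_lt.mpr a0 z.2.1
  have c3 : l 17 ≤ v 12 := le_of_lt (lt_of_le_of_lt c0 c1)
  not_lt.mpr c3 c2.1

theorem L489 {l v r : ℕ → ℝ} (h : H l v r) (a0 : r 17 < l 12) : False :=
  have c0 : l 12 < r 17 := not_le.mp fun z => L488 h z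
  lt_asymm c0 a0

theorem L490 {l v r : ℕ → ℝ} (h : H l v r) (a0 : r 17 < l 3) : False :=
  have c0 : l 12 < r 17 := not_le.mp fun z => L488 h z
  have c1 : l 3 ≤ l 12 := not_lt.mp fun z => L427 h z
  not_lt.mpr c1 (lt_trans c0 a0)

theorem L491 {l v r : ℕ → ℝ} (h : H l v r) (a0 : r 17 < v 3) : False :=
  have c0 : l 12 < r 17 := not_le.mp fun z => L488 h z
  have c1 : v 3 ≤ l 12 := not_lt.mp fun z => L428 h z
  not_lt.mpr c1 (lt_trans c0 a0)

theorem L492 {l v r : ℕ → ℝ} (h : H l v r) (a0 : ¬ S14 l v r) (a1 : v 0 ≤ v 5) (a2 : l 0 ≤ r 10) : False :=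
  have c0 : l 3 ≤ r 9 := not_lt.mp fun z => L472 h z
  have c1 : l 3 ≤ l 12 := not_lt.mp fun z => L427 h z
  have c2 : l 3 ≤ l 10 := not_lt.mp fun z => L461 h z
  have c3 : v 3 ≤ l 12 := not_lt.mp fun z => L428 h z
  have c4 : v 3 ≤ v 12 := not_lt.mp fun z => L426 h z
  have c5 : l 9 ≤ r 4 := not_lt.mp fun z => L470 h z
  have c6 : v 9 ≤ r 9 := not_lt.mp fun z => L48 h z
  have c7 : v 9 ≤ v 10 := not_lt.mp fun z => L347 h z
  have c8 : l 10 ≤ r 4 := not_lt.mp fun z => L458 h z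
  have c9 : l 12 < r 17 := not_le.mp fun z => L488 h z
  have c10 : l 12 ≤ r 17 := not_lt.mp fun z => L489 h z
  have c11 : v 17 ≤ r 17 := not_lt.mp fun z => L157 h z
  have c12 : l 12 ≤ r 4 := not_lt.mp fun z => L212 h z
  have c13 : v 5 < l 3 := (h.e14.resolve_left a0).1
  have c14 : r 5 < v 3 := (h.e14.resolve_left a0).2.2
  have c15 : v 5 < r 9 := lt_of_lt_of_le c13 c0
  have c16 : v 5 ≤ r 9 := le_of_lt (lt_of_lt_of_le c13 c0)
  have c17 : v 5 ≤ l 12 := le_of_lt (lt_of_lt_of_le c13 c1)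
  have c18 : v 5 ≤ l 10 := le_of_lt (lt_of_lt_of_le c13 c2)
  have c19 : r 5 ≤ l 12 := le_of_lt (lt_of_lt_of_le c14 c3)
  have c20 : r 5 ≤ v 12 := le_of_lt (lt_of_lt_of_le c14 c4)
  have c21 : v 0 ≤ r 9 := le_of_lt (lt_of_le_of_lt a1 c15)
  have c22 : S24 l v r := h.e24.resolve_right fun z => not_lt.mpr c16 z.2.2
  have c23 : v 0 ≤ l 10 := le_trans a1 c18
  have c24 : S2 l v r := h.e2.resolve_right fun z => not_lt.mpr c21 z.2.2
  have c25 : l 9 < r 5 := c22.2.1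
  have c26 : l 4 < v 9 := not_le.mp fun z => L238 h c22 z c5
  have c27 : S4 l v r := Classical.byContradiction fun z => L372 h z a2 c23
  have c28 : l 9 < r 0 := c24.2.1
  have c29 : l 15 < v 9 := not_le.mp fun z => L383 h c24 z
  have c30 : l 9 < l 12 := lt_of_lt_of_le c25 c19
  have c31 : l 4 ≤ r 9 := le_of_lt (lt_of_lt_of_le c26 c6)
  have c32 : r 0 < v 15 := c27.2.2
  have c33 : l 9 ≤ r 0 := le_of_lt c28
  have c34 : l 15 ≤ v 10 := le_of_lt (lt_of_lt_of_le c29 c7)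
  have c35 : l 9 ≤ v 15 := le_of_lt (lt_of_le_of_lt c33 c32)
  have c36 : ¬ S34 l v r := fun z => not_lt.mpr c34 z.1
  have c37 : v 15 < l 10 := (h.e34.resolve_left c36).1
  have c38 : v 15 ≤ r 4 := le_of_lt (lt_of_lt_of_le c37 c8)
  have c39 : ¬ S22 l v r := fun z => not_lt.mpr c38 z.2.2
  have c40 : v 15 < l 4 := (h.e22.resolve_left c39).1
  have c41 : r 0 < l 4 := lt_trans c32 c40
  have c42 : l 9 ≤ l 4 := le_of_lt (lt_of_le_of_lt c35 c40)
  have c43 : v 5 ≤ r 17 := le_of_lt (lt_of_le_of_lt c17 c9)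
  have c44 : S37 l v r := Classical.byContradiction fun z => L487 h c9 z c42 c30 c24 c17
  have c45 : l 4 < v 17 := not_le.mp fun z => L188 h c17 z c10 c12
  have c46 : S25 l v r := h.e25.resolve_right fun z => not_lt.mpr c43 z.2.2
  have c47 : v 11 < l 17 := c44.1
  have c48 : l 17 < r 11 := c44.2.1
  have c49 : l 1 ≤ v 17 := not_lt.mp fun z => L184 h c44 z
  have c50 : r 0 < v 17 := lt_trans c41 c45
  have c51 : l 17 < r 5 := c46.2.1
  have c52 : v 5 < l 17 := c46.1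
  have c53 : v 11 < r 5 := lt_trans c47 c51
  have c54 : l 1 ≤ r 17 := le_trans c49 c11
  have c55 : l 17 ≤ v 12 := le_of_lt (lt_of_lt_of_le c51 c20)
  have c56 : v 0 < l 17 := lt_of_le_of_lt a1 c52
  have c57 : v 11 ≤ l 12 := le_of_lt (lt_of_lt_of_le c53 c19)
  have c58 : ¬ S40 l v r := fun z => not_lt.mpr c55 z.1
  have c59 : r 0 ≤ l 17 := not_lt.mp fun z => h.n0_17 c56 z c50
  have c60 : r 17 < v 12 := (h.e40.resolve_left c58).2.2
  have c61 : l 9 ≤ l 17 := le_trans c33 c59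
  have c62 : l 1 ≤ v 12 := le_of_lt (lt_of_le_of_lt c54 c60)
  have c63 : l 9 ≤ r 11 := le_of_lt (lt_of_le_of_lt c61 c48)
  have c64 : S10 l v r := h.e10.resolve_right fun z => not_lt.mpr c62 z.1
  have c65 : v 1 < l 12 := c64.1
  have c66 : l 12 < r 1 := c64.2.1
  have c67 : v 1 ≤ r 4 := le_of_lt (lt_of_lt_of_le c65 c12)
  have c68 : v 11 ≤ r 1 := le_of_lt (lt_of_le_of_lt c57 c66)
  have c69 : S6 l v r := h.e6.resolve_right fun z => not_lt.mpr c67 z.2.2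
  have c70 : ¬ S9 l v r := fun z => not_lt.mpr c68 z.2.2
  have c71 : v 1 < l 4 := c69.1
  have c72 : r 11 < v 1 := (h.e9.resolve_left c70).2.2
  have c73 : v 1 ≤ r 9 := le_of_lt (lt_of_lt_of_le c71 c31)
  have c74 : l 9 ≤ v 1 := le_of_lt (lt_of_le_of_lt c63 c72)
  have c75 : S8 l v r := h.e8.resolve_right fun z => not_lt.mpr c73 z.2.2
  not_lt.mpr c74 c75.1

theorem L493 {l v r : ℕ → ℝ} (h : H l v r) (a0 : S2 l v r) (a1 : r 3 < v 5) (a2 : S1 l v r) : False :=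
  have c0 : l 8 ≤ l 13 := not_lt.mp fun z => L443 h z
  have c1 : l 8 ≤ r 10 := not_lt.mp fun z => L446 h z
  have c2 : v 9 ≤ r 3 := not_lt.mp fun z => L453 h z
  have c3 : l 9 ≤ r 3 := not_lt.mp fun z => L452 h z
  have c4 : v 9 < v 13 := not_le.mp fun z => L466 h z
  have c5 : l 9 ≤ l 10 := not_lt.mp fun z => L345 h z
  have c6 : v 9 ≤ v 10 := not_lt.mp fun z => L347 h z
  have c7 : v 9 ≤ l 10 := not_lt.mp fun z => L348 h z
  have c8 : v 10 ≤ r 10 := not_lt.mp fun z => L31 h z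
  have c9 : l 10 ≤ r 4 := not_lt.mp fun z => L458 h z
  have c10 : r 9 < l 13 := not_le.mp fun z => L480 h z
  have c11 : l 4 < r 15 := not_le.mp fun z => L203 h z
  have c12 : v 10 ≤ l 13 := not_lt.mp fun z => L477 h z
  have c13 : l 5 < r 17 := not_le.mp fun z => L227 h z
  have c14 : l 5 < r 3 := not_le.mp fun z => L400 h z
  have c15 : l 5 ≤ v 12 := not_lt.mp fun z => L441 h z
  have c16 : l 4 < r 8 := not_le.mp fun z => L198 h z
  have c17 : v 3 < l 12 := not_le.mp fun z => L423 h z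
  have c18 : v 3 < l 10 := not_le.mp fun z => L449 h z
  have c19 : l 9 ≤ r 12 := not_lt.mp fun z => L469 h z
  have c20 : r 9 ≤ v 10 := not_lt.mp fun z => L352 h z
  have c21 : l 9 < v 9 := h.u9_0
  have c22 : l 1 ≤ r 11 := not_lt.mp fun z => L186 h z
  have c23 : r 3 < r 4 := not_le.mp fun z => L438 h z
  have c24 : l 12 ≤ r 3 := not_lt.mp fun z => L425 h z
  have c25 : l 1 < r 11 := not_le.mp fun z => L185 h z
  have c26 : l 5 ≤ r 12 := not_lt.mp fun z => L444 h z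
  have c27 : l 9 ≤ v 5 := le_of_lt (lt_of_le_of_lt c3 a1)
  have c28 : ¬ S24 l v r := fun z => not_lt.mpr c27 z.1
  have c29 : l 5 < r 9 := (h.e24.resolve_left c28).2.1
  have c30 : l 5 ≤ r 9 := le_of_lt c29
  have c31 : v 9 ≤ v 5 := le_of_lt (lt_of_le_of_lt c2 a1)
  have c32 : v 0 < l 8 := a2.1
  have c33 : l 0 < l 8 := not_le.mp fun z => L20 h c32 z
  have c34 : l 0 ≤ r 10 := le_of_lt (lt_of_lt_of_le c33 c1)
  have c35 : l 8 < r 0 := a2.2.1
  have c36 : l 8 ≤ r 0 := le_of_lt c35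
  have c37 : v 0 ≤ l 13 := le_of_lt (lt_of_lt_of_le c32 c0)
  have c38 : r 0 < v 9 := a0.2.2
  have c39 : v 0 < l 9 := a0.1
  have c40 : l 9 < r 0 := a0.2.1
  have c41 : l 15 < v 9 := not_le.mp fun z => L383 h a0 z
  have c42 : r 0 < l 10 := lt_of_lt_of_le c38 c7
  have c43 : r 0 ≤ v 5 := le_of_lt (lt_of_lt_of_le c38 c31)
  have c44 : r 0 < v 13 := lt_trans c38 c4
  have c45 : v 0 ≤ l 10 := le_of_lt (lt_of_lt_of_le c39 c5)
  have c46 : l 9 ≤ r 0 := le_of_lt c40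
  have c47 : l 15 ≤ v 10 := le_of_lt (lt_of_lt_of_le c41 c6)
  have c48 : l 8 ≤ l 10 := le_of_lt (lt_of_le_of_lt c36 c42)
  have c49 : l 7 ≤ v 13 := not_lt.mp fun z => L194 h c44 z
  have c50 : S4 l v r := Classical.byContradiction fun z => L372 h z c34 c45
  have c51 : ¬ S34 l v r := fun z => not_lt.mpr c47 z.1
  have c52 : S29 l v r := h.e29.resolve_right fun z => not_lt.mpr c49 z.1
  have c53 : r 0 < v 15 := c50.2.2
  have c54 : l 10 < r 15 := (h.e34.resolve_left c51).2.1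
  have c55 : r 15 < v 10 := (h.e34.resolve_left c51).2.2
  have c56 : v 15 < l 10 := (h.e34.resolve_left c51).1
  have c57 : l 13 < r 7 := c52.2.1
  have c58 : l 9 ≤ v 15 := le_of_lt (lt_of_le_of_lt c46 c53)
  have c59 : v 9 ≤ r 15 := le_of_lt (lt_of_le_of_lt c7 c54)
  have c60 : v 3 < r 15 := lt_trans c18 c54
  have c61 : l 8 ≤ r 15 := le_of_lt (lt_of_le_of_lt c48 c54)
  have c62 : r 15 ≤ r 10 := le_of_lt (lt_of_lt_of_le c55 c8)
  have c63 : l 4 < v 10 := lt_trans c11 c55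
  have c64 : v 15 ≤ r 4 := le_of_lt (lt_of_lt_of_le c56 c9)
  have c65 : l 13 ≤ r 7 := le_of_lt c57
  have c66 : v 0 ≤ r 7 := le_of_lt (lt_of_le_of_lt c37 c57)
  have c67 : r 9 < r 7 := lt_trans c10 c57
  have c68 : l 4 ≤ r 10 := le_of_lt (lt_of_lt_of_le c11 c62)
  have c69 : l 4 ≤ l 13 := le_of_lt (lt_of_lt_of_le c63 c12)
  have c70 : ¬ S22 l v r := fun z => not_lt.mpr c64 z.2.2
  have c71 : l 4 ≤ r 7 := le_trans c69 c65
  have c72 : S0 l v r := h.e0.resolve_right fun z => not_lt.mpr c66 z.2.2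
  have c73 : r 15 < v 4 := (h.e22.resolve_left c70).2.2
  have c74 : v 15 < l 4 := (h.e22.resolve_left c70).1
  have c75 : l 10 < v 4 := not_le.mp fun z => L362 h c70 c68 z
  have c76 : l 7 < r 0 := c72.2.1
  have c77 : v 3 < v 4 := lt_trans c60 c73
  have c78 : v 9 ≤ v 4 := le_of_lt (lt_of_le_of_lt c59 c73)
  have c79 : l 8 ≤ v 4 := le_of_lt (lt_of_le_of_lt c61 c73)
  have c80 : v 15 < r 8 := lt_trans c74 c16
  have c81 : l 9 ≤ l 4 := le_of_lt (lt_of_le_of_lt c58 c74)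
  have c82 : l 7 ≤ v 5 := le_of_lt (lt_of_lt_of_le c76 c43)
  have c83 : ¬ S20 l v r := fun z => not_lt.mpr c79 z.1
  have c84 : ¬ S23 l v r := fun z => not_lt.mpr c82 z.1
  have c85 : r 8 < v 4 := (h.e20.resolve_left c83).2.2
  have c86 : r 7 < v 5 := (h.e23.resolve_left c84).2.2
  have c87 : v 7 < l 5 := (h.e23.resolve_left c84).1
  have c88 : v 8 ≤ v 4 := not_lt.mp fun z => L102 h c85 z
  have c89 : r 7 ≤ v 5 := le_of_lt c86
  have c90 : l 4 ≤ v 5 := le_of_lt (lt_of_le_of_lt c71 c86)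
  have c91 : v 7 < r 3 := lt_trans c87 c14
  have c92 : S19 l v r := h.e19.resolve_right fun z => not_lt.mpr c90 z.1
  have c93 : v 4 < l 5 := c92.1
  have c94 : l 4 < l 5 := not_le.mp fun z => L2 h c93 z
  have c95 : v 4 < r 17 := lt_trans c93 c13
  have c96 : v 4 < r 3 := lt_trans c93 c14
  have c97 : v 4 ≤ v 12 := le_of_lt (lt_of_lt_of_le c93 c15)
  have c98 : l 4 < r 9 := lt_trans c94 c29
  have c99 : l 4 ≤ r 9 := le_of_lt (lt_of_lt_of_le c94 c30)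
  have c100 : l 10 < r 17 := lt_trans c75 c95
  have c101 : v 8 ≤ r 3 := le_of_lt (lt_of_le_of_lt c88 c96)
  have c102 : r 15 < v 12 := lt_of_lt_of_le c73 c97
  have c103 : ¬ S15 l v r := fun z => not_lt.mpr c101 z.2.2
  have c104 : r 8 < v 3 := (h.e15.resolve_left c103).2.2
  have c105 : l 4 < v 3 := lt_trans c16 c104
  have c106 : r 8 < l 12 := lt_trans c104 c17
  have c107 : l 4 < l 10 := lt_trans c105 c18
  have c108 : v 15 < l 12 := lt_trans c80 c106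
  have c109 : r 15 ≤ l 12 := not_lt.mp fun z => h.n15_12 c108 z c102
  have c110 : v 9 ≤ l 12 := le_trans c59 c109
  have c111 : ¬ S8 l v r := fun z => L390 h z c110 c19
  have c112 : l 1 < r 9 := (h.e8.resolve_left c111).2.1
  have c113 : r 9 < v 1 := (h.e8.resolve_left c111).2.2
  have c114 : v 9 < l 1 := (h.e8.resolve_left c111).1
  have c115 : l 1 ≤ v 10 := le_of_lt (lt_of_lt_of_le c112 c20)
  have c116 : l 1 < r 7 := lt_trans c112 c67
  have c117 : l 4 < v 1 := lt_trans c98 c113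
  have c118 : l 4 ≤ v 1 := le_of_lt (lt_of_le_of_lt c99 c113)
  have c119 : l 9 < l 1 := lt_trans c21 c114
  have c120 : ¬ S6 l v r := fun z => not_lt.mpr c118 z.1
  have c121 : l 9 ≤ r 11 := le_of_lt (lt_of_lt_of_le c119 c22)
  have c122 : v 4 < l 1 := (h.e6.resolve_left c120).1
  have c123 : r 4 < v 1 := (h.e6.resolve_left c120).2.2
  have c124 : l 11 ≤ l 4 := not_lt.mp fun z => L415 h a0 z c121 c81 c78
  have c125 : v 3 < l 1 := lt_trans c77 c122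
  have c126 : r 3 < v 1 := lt_trans c23 c123
  have c127 : l 11 < l 10 := lt_of_le_of_lt c124 c107
  have c128 : l 11 ≤ v 1 := le_of_lt (lt_of_le_of_lt c124 c117)
  have c129 : r 3 ≤ l 1 := not_lt.mp fun z => h.n3_1 c125 z c126
  have c130 : ¬ S9 l v r := fun z => not_lt.mpr c128 z.1
  have c131 : l 12 ≤ l 1 := le_trans c24 c129
  have c132 : v 7 < l 1 := lt_of_lt_of_le c91 c129
  have c133 : r 11 < v 1 := (h.e9.resolve_left c130).2.2
  have c134 : v 11 < l 1 := (h.e9.resolve_left c130).1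
  have c135 : l 12 ≤ r 11 := le_of_lt (lt_of_le_of_lt c131 c25)
  have c136 : v 1 ≤ r 7 := not_lt.mp fun z => h.n7_1 c132 c116 z
  have c137 : r 11 < r 7 := lt_of_lt_of_le c133 c136
  have c138 : v 11 ≤ v 10 := le_of_lt (lt_of_lt_of_le c134 c115)
  have c139 : r 11 ≤ v 5 := le_of_lt (lt_of_lt_of_le c137 c89)
  have c140 : ¬ S37 l v r := fun z => L380 h z c139 c135 c26
  have c141 : v 17 < l 11 := (h.e37.resolve_left c140).1
  have c142 : r 17 < v 11 := (h.e37.resolve_left c140).2.2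
  have c143 : v 17 < l 10 := lt_trans c141 c127
  have c144 : r 17 < v 10 := lt_of_lt_of_le c142 c138
  h.n17_10 c143 c100 c144

theorem L494 {l v r : ℕ → ℝ} (h : H l v r) (a0 : r 4 < v 5) (a1 : v 5 ≤ v 10) : False :=
  have c0 : v 10 < r 4 := not_le.mp fun z => L479 h z
  not_lt.mpr a1 (lt_trans c0 a0)

theorem L495 {l v r : ℕ → ℝ} (h : H l v r) (a0 : v 11 < l 0) (a1 : l 0 < l 11) : False :=
  have c0 : l 11 ≤ v 11 := not_lt.mp fun z => L39 h z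
  not_lt.mpr c0 (lt_trans a0 a1)

theorem L496 {l v r : ℕ → ℝ} (h : H l v r) (a0 : r 1 < v 9) (a1 : r 10 ≤ r 1) : False :=
  have c0 : v 9 < r 10 := not_le.mp fun z => L346 h z
  not_lt.mpr a1 (lt_trans a0 c0)

theorem L497 {l v r : ℕ → ℝ} (h : H l v r) (a0 : r 0 < l 4) (a1 : l 4 < v 0) : False :=
  have c0 : v 0 ≤ r 0 := not_lt.mp fun z => L141 h z
  not_lt.mpr c0 (lt_trans a0 a1)

theorem L498 {l v r : ℕ → ℝ} (h : H l v r) (a0 : v 15 < r 9) (a1 : r 4 < v 15) : False :=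
  have c0 : r 9 ≤ r 4 := not_lt.mp fun z => L486 h z
  not_lt.mpr c0 (lt_trans a1 a0)

theorem L499 {l v r : ℕ → ℝ} (h : H l v r) (a0 : r 9 < l 4) (a1 : l 4 < v 9) : False :=
  have c0 : v 9 ≤ r 9 := not_lt.mp fun z => L48 h z
  not_lt.mpr c0 (lt_trans a0 a1)

theorem L500 {l v r : ℕ → ℝ} (h : H l v r) (a0 : r 1 < v 9) (a1 : l 10 ≤ r 1) : False :=
  have c0 : v 9 ≤ l 10 := not_lt.mp fun z => L348 h z
  not_lt.mpr (le_trans c0 a1) a0

theorem L501 {l v r : ℕ → ℝ} (h : H l v r) (a0 : v 12 < l 0) (a1 : v 0 ≤ v 12) : False :=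
  have c0 : l 0 ≤ v 0 := not_lt.mp fun z => L64 h z
  not_lt.mpr (le_trans c0 a1) a0

theorem L502 {l v r : ℕ → ℝ} (h : H l v r) (a0 : r 5 < v 3) (a1 : l 12 < r 5) : False :=
  have c0 : v 3 ≤ l 12 := not_lt.mp fun z => L428 h z
  not_lt.mpr c0 (lt_trans a1 a0)

theorem L503 {l v r : ℕ → ℝ} (h : H l v r) (a0 : r 1 < v 9) (a1 : r 9 ≤ r 1) : False :=
  have c0 : v 9 < r 9 := h.u9_1
  not_lt.mpr a1 (lt_trans a0 c0)

theorem L504 {l v r : ℕ → ℝ} (h : H l v r) (a0 : v 1 < l 4) (a1 : r 15 ≤ v 1) : False :=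
  have c0 : l 4 ≤ r 15 := not_lt.mp fun z => L204 h z
  not_lt.mpr (le_trans c0 a1) a0

theorem L505 {l v r : ℕ → ℝ} (h : H l v r) (a0 : r 9 < l 4) (a1 : l 4 < l 9) : False :=
  have c0 : l 9 ≤ r 9 := not_lt.mp fun z => L96 h z
  not_lt.mpr c0 (lt_trans a0 a1)

theorem L506 {l v r : ℕ → ℝ} (h : H l v r) (a0 : r 4 < r 15) (a1 : r 15 < v 4) : False :=
  have c0 : v 4 ≤ r 4 := not_lt.mp fun z => L13 h z
  not_lt.mpr c0 (lt_trans a0 a1)

theorem L507 {l v r : ℕ → ℝ} (h : H l v r) (a0 : r 2 < v 1) (a1 : v 1 < v 2) : False :=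
  have c0 : v 2 ≤ r 2 := not_lt.mp fun z => L122 h z
  not_lt.mpr c0 (lt_trans a0 a1)

theorem L508 {l v r : ℕ → ℝ} (h : H l v r) (a0 : r 9 < l 15) (a1 : l 15 ≤ l 10) : False :=
  have c0 : l 10 ≤ r 9 := not_lt.mp fun z => L349 h z
  not_lt.mpr (le_trans a1 c0) a0

theorem L509 {l v r : ℕ → ℝ} (h : H l v r) (a0 : v 17 ≤ r 9) (a1 : r 12 < v 17) : False :=
  have c0 : r 9 < r 12 := not_le.mp fun z => L484 h z
  not_lt.mpr a0 (lt_trans c0 a1)

theorem L510 {l v r : ℕ → ℝ} (h : H l v r) (a0 : v 4 < l 1) (a1 : l 1 < l 4) : False :=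
  have c0 : l 4 ≤ v 4 := not_lt.mp fun z => L3 h z
  not_lt.mpr c0 (lt_trans a0 a1)

theorem L511 {l v r : ℕ → ℝ} (h : H l v r) (a0 : r 9 < l 11) (a1 : r 1 < r 9) : False :=
  have c0 : l 11 ≤ r 1 := not_lt.mp fun z => L220 h z
  not_lt.mpr c0 (lt_trans a1 a0)

theorem L512 {l v r : ℕ → ℝ} (h : H l v r) (a0 : v 15 < v 0) (a1 : v 0 < l 15) : False :=
  have c0 : l 15 ≤ v 15 := not_lt.mp fun z => L58 h z
  not_lt.mpr c0 (lt_trans a0 a1)

theorem L513 {l v r : ℕ → ℝ} (h : H l v r) (a0 : v 13 < r 5) (a1 : r 5 < l 10) : False :=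
  have c0 : l 10 ≤ v 13 := not_lt.mp fun z => L454 h z
  not_lt.mpr c0 (lt_trans a0 a1)

theorem L514 {l v r : ℕ → ℝ} (h : H l v r) (a0 : r 1 < v 3) (a1 : l 12 < r 1) : False :=
  have c0 : v 3 ≤ l 12 := not_lt.mp fun z => L428 h z
  not_lt.mpr c0 (lt_trans a1 a0)

theorem L515 {l v r : ℕ → ℝ} (h : H l v r) (a0 : r 11 ≤ v 9) (a1 : v 9 < l 0) : False :=
  have c0 : l 0 < r 11 := not_le.mp fun z => L271 h z
  not_lt.mpr a0 (lt_trans a1 c0)

theorem L516 {l v r : ℕ → ℝ} (h : H l v r) (a0 : v 1 < l 9) (a1 : l 10 ≤ v 1) : False :=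
  have c0 : l 9 ≤ l 10 := not_lt.mp fun z => L345 h z
  not_lt.mpr (le_trans c0 a1) a0

theorem L517 {l v r : ℕ → ℝ} (h : H l v r) (a0 : r 3 < l 4) (a1 : l 4 < l 5) : False :=
  have c0 : l 5 ≤ r 3 := not_lt.mp fun z => L401 h z
  not_lt.mpr c0 (lt_trans a0 a1)

theorem L518 {l v r : ℕ → ℝ} (h : H l v r) (a0 : r 1 < v 4) (a1 : v 4 < l 1) : False :=
  have c0 : l 1 ≤ r 1 := not_lt.mp fun z => L162 h z
  not_lt.mpr c0 (lt_trans a0 a1)

theorem L519 {l v r : ℕ → ℝ} (h : H l v r) (a0 : r 13 < l 1) (a1 : l 1 < r 9) : False :=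
  have c0 : r 9 ≤ r 13 := not_lt.mp fun z => L485 h z
  not_lt.mpr c0 (lt_trans a0 a1)

theorem L520 {l v r : ℕ → ℝ} (h : H l v r) (a0 : r 6 < l 10) (a1 : l 13 < r 6) : False :=
  have c0 : l 10 ≤ l 13 := not_lt.mp fun z => L457 h z
  not_lt.mpr c0 (lt_trans a1 a0)

theorem L521 {l v r : ℕ → ℝ} (h : H l v r) (a0 : v 0 ≤ v 12) (a1 : r 4 < v 0) : False :=
  have c0 : v 12 < r 4 := not_le.mp fun z => L211 h z
  not_lt.mpr a0 (lt_trans c0 a1)

theorem L522 {l v r : ℕ → ℝ} (h : H l v r) (a0 : r 17 < l 0) (a1 : l 0 < v 3) : False :=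
  have c0 : v 3 ≤ r 17 := not_lt.mp fun z => L491 h z
  not_lt.mpr c0 (lt_trans a0 a1)

theorem L523 {l v r : ℕ → ℝ} (h : H l v r) (a0 : r 7 < l 4) (a1 : l 4 ≤ l 7) : False :=
  have c0 : l 7 ≤ r 7 := not_lt.mp fun z => L94 h z
  not_lt.mpr (le_trans a1 c0) a0

theorem L524 {l v r : ℕ → ℝ} (h : H l v r) (a0 : r 3 < v 5) (a1 : v 5 < l 9) : False :=
  have c0 : l 9 ≤ r 3 := not_lt.mp fun z => L452 h z
  not_lt.mpr c0 (lt_trans a0 a1)

theorem L525 {l v r : ℕ → ℝ} (h : H l v r) (a0 : r 9 < r 8) (a1 : r 8 < v 3) : False :=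
  have c0 : v 3 ≤ r 9 := not_lt.mp fun z => L463 h z
  not_lt.mpr c0 (lt_trans a0 a1)

theorem L526 {l v r : ℕ → ℝ} (h : H l v r) (a0 : v 0 < l 9) (a1 : l 10 < v 0) : False :=
  have c0 : l 9 ≤ l 10 := not_lt.mp fun z => L345 h z
  not_lt.mpr c0 (lt_trans a1 a0)

theorem L527 {l v r : ℕ → ℝ} (h : H l v r) (a0 : r 17 ≤ v 4) (a1 : v 4 < l 5) : False :=
  have c0 : l 5 < r 17 := not_le.mp fun z => L227 h z
  not_lt.mpr a0 (lt_trans a1 c0)

theorem L528 {l v r : ℕ → ℝ} (h : H l v r) (a0 : r 6 < v 1) (a1 : r 1 ≤ r 6) : False :=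
  have c0 : v 1 < r 1 := h.u1_1
  not_lt.mpr a1 (lt_trans a0 c0)

theorem L529 {l v r : ℕ → ℝ} (h : H l v r) (a0 : v 4 < l 0) (a1 : r 15 < v 4) : False :=
  have c0 : l 0 ≤ r 15 := not_lt.mp fun z => L206 h z
  not_lt.mpr c0 (lt_trans a1 a0)

theorem L530 {l v r : ℕ → ℝ} (h : H l v r) (a0 : v 6 < l 1) (a1 : l 1 ≤ l 6) : False :=
  have c0 : l 6 ≤ v 6 := not_lt.mp fun z => L98 h z
  not_lt.mpr (le_trans a1 c0) a0

theorem L531 {l v r : ℕ → ℝ} (h : H l v r) (a0 : l 9 ≤ l 4) (a1 : r 8 < l 9) : False :=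
  have c0 : l 4 < r 8 := not_le.mp fun z => L198 h z
  not_lt.mpr a0 (lt_trans c0 a1)

theorem L532 {l v r : ℕ → ℝ} (h : H l v r) (a0 : v 15 < l 10) (a1 : r 4 < v 15) : False :=
  have c0 : l 10 ≤ r 4 := not_lt.mp fun z => L458 h z
  not_lt.mpr c0 (lt_trans a1 a0)

theorem L533 {l v r : ℕ → ℝ} (h : H l v r) (a0 : r 8 < v 0) (a1 : v 0 ≤ l 4) : False :=
  have c0 : l 4 < r 8 := not_le.mp fun z => L198 h z
  not_lt.mpr a1 (lt_trans c0 a0)

theorem L534 {l v r : ℕ → ℝ} (h : H l v r) (a0 : r 1 ≤ v 3) (a1 : l 12 < r 1) : False :=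
  have c0 : v 3 < l 12 := not_le.mp fun z => L423 h z
  not_lt.mpr a0 (lt_trans c0 a1)

theorem L535 {l v r : ℕ → ℝ} (h : H l v r) (a0 : r 5 < v 4) (a1 : v 4 ≤ v 5) : False :=
  have c0 : v 5 ≤ r 5 := not_lt.mp fun z => L36 h z
  not_lt.mpr (le_trans a1 c0) a0

theorem L536 {l v r : ℕ → ℝ} (h : H l v r) (a0 : v 9 ≤ l 4) (a1 : r 1 < v 9) : False :=
  have c0 : l 4 < r 1 := not_le.mp fun z => L319 h z
  not_lt.mpr a0 (lt_trans c0 a1)

theorem L537 {l v r : ℕ → ℝ} (h : H l v r) (a0 : v 13 < v 4) (a1 : v 4 < l 13) : False :=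
  have c0 : l 13 ≤ v 13 := not_lt.mp fun z => L70 h z
  not_lt.mpr c0 (lt_trans a0 a1)

theorem L538 {l v r : ℕ → ℝ} (h : H l v r) (a0 : r 8 < l 15) (a1 : l 15 < l 4) : False :=
  have c0 : l 4 ≤ r 8 := not_lt.mp fun z => L199 h z
  not_lt.mpr c0 (lt_trans a0 a1)

theorem L539 {l v r : ℕ → ℝ} (h : H l v r) (a0 : v 16 < l 12) (a1 : r 10 < v 16) : False :=
  have c0 : l 12 ≤ r 10 := not_lt.mp fun z => L333 h z
  not_lt.mpr c0 (lt_trans a1 a0)

theorem L540 {l v r : ℕ → ℝ} (h : H l v r) (a0 : r 15 ≤ v 5) (a1 : v 5 < l 4) : False :=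
  have c0 : l 4 < r 15 := not_le.mp fun z => L203 h z
  not_lt.mpr a0 (lt_trans a1 c0)

theorem L541 {l v r : ℕ → ℝ} (h : H l v r) (a0 : v 15 < l 10) (a1 : l 10 < l 15) : False :=
  have c0 : l 15 ≤ v 15 := not_lt.mp fun z => L58 h z
  not_lt.mpr c0 (lt_trans a0 a1)

theorem L542 {l v r : ℕ → ℝ} (h : H l v r) (a0 : r 9 < v 0) (a1 : v 0 < v 9) : False :=
  have c0 : v 9 ≤ r 9 := not_lt.mp fun z => L48 h z
  not_lt.mpr c0 (lt_trans a0 a1)

theorem L543 {l v r : ℕ → ℝ} (h : H l v r) (a0 : r 9 < v 0) (a1 : v 0 ≤ v 9) : False :=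
  have c0 : v 9 < r 9 := h.u9_1
  not_lt.mpr a1 (lt_trans c0 a0)

theorem L544 {l v r : ℕ → ℝ} (h : H l v r) (a0 : v 12 < r 5) (a1 : r 5 < v 9) : False :=
  have c0 : v 9 ≤ v 12 := not_lt.mp fun z => L465 h z
  not_lt.mpr c0 (lt_trans a0 a1)

theorem L545 {l v r : ℕ → ℝ} (h : H l v r) (a0 : r 17 ≤ l 10) (a1 : l 10 ≤ l 5) : False :=
  have c0 : l 5 < r 17 := not_le.mp fun z => L227 h z
  not_lt.mpr (le_trans a0 a1) c0

theorem L546 {l v r : ℕ → ℝ} (h : H l v r) (a0 : l 0 ≤ v 12) (a1 : r 10 < l 0) : False :=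
  have c0 : v 12 < r 10 := not_le.mp fun z => L332 h z
  not_lt.mpr a0 (lt_trans c0 a1)

theorem L547 {l v r : ℕ → ℝ} (h : H l v r) (a0 : l 15 < l 17) (a1 : r 12 ≤ l 15) : False :=
  have c0 : l 17 ≤ r 12 := not_lt.mp fun z => L316 h z
  not_lt.mpr (le_trans c0 a1) a0

theorem L548 {l v r : ℕ → ℝ} (h : H l v r) (a0 : v 0 < l 17) (a1 : r 17 ≤ v 0) : False :=
  have c0 : l 17 ≤ r 17 := not_lt.mp fun z => L158 h z
  not_lt.mpr (le_trans c0 a1) a0

theorem L549 {l v r : ℕ → ℝ} (h : H l v r) (a0 : l 13 ≤ v 2) (a1 : v 2 < r 9) : False :=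
  have c0 : r 9 < l 13 := not_le.mp fun z => L480 h z
  not_lt.mpr a0 (lt_trans a1 c0)

theorem L550 {l v r : ℕ → ℝ} (h : H l v r) (a0 : r 1 ≤ v 15) (a1 : v 15 < l 4) : False :=
  have c0 : l 4 < r 1 := not_le.mp fun z => L319 h z
  not_lt.mpr a0 (lt_trans a1 c0)

theorem L551 {l v r : ℕ → ℝ} (h : H l v r) (a0 : v 1 < v 4) (a1 : v 4 < l 1) : False :=
  have c0 : l 1 ≤ v 1 := not_lt.mp fun z => L161 h z
  not_lt.mpr c0 (lt_trans a0 a1)

theorem L552 {l v r : ℕ → ℝ} (h : H l v r) (a0 : r 15 < v 4) (a1 : v 4 < l 15) : False :=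
  have c0 : l 15 ≤ r 15 := not_lt.mp fun z => L152 h z
  not_lt.mpr c0 (lt_trans a0 a1)

theorem L553 {l v r : ℕ → ℝ} (h : H l v r) (a0 : v 12 < v 0) (a1 : v 0 < l 9) : False :=
  have c0 : l 9 ≤ v 12 := not_lt.mp fun z => L468 h z
  not_lt.mpr c0 (lt_trans a0 a1)

theorem L554 {l v r : ℕ → ℝ} (h : H l v r) (a0 : r 17 < v 5) (a1 : v 5 < l 3) : False :=
  have c0 : l 3 ≤ r 17 := not_lt.mp fun z => L490 h z
  not_lt.mpr c0 (lt_trans a0 a1)

theorem L555 {l v r : ℕ → ℝ} (h : H l v r) (a0 : r 5 < v 3) (a1 : v 12 < r 5) : False :=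
  have c0 : v 3 ≤ v 12 := not_lt.mp fun z => L426 h z
  not_lt.mpr c0 (lt_trans a1 a0)

theorem L556 {l v r : ℕ → ℝ} (h : H l v r) (a0 : r 9 < l 4) (a1 : r 8 ≤ r 9) : False :=
  have c0 : l 4 < r 8 := not_le.mp fun z => L198 h z
  not_lt.mpr a1 (lt_trans a0 c0)

theorem L557 {l v r : ℕ → ℝ} (h : H l v r) (a0 : r 15 < r 0) (a1 : r 0 < v 15) : False :=
  have c0 : v 15 ≤ r 15 := not_lt.mp fun z => L151 h z
  not_lt.mpr c0 (lt_trans a0 a1)

theorem L558 {l v r : ℕ → ℝ} (h : H l v r) (a0 : v 13 ≤ r 11) (a1 : r 11 ≤ r 10) : False :=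
  have c0 : r 10 < v 13 := not_le.mp fun z => L474 h z
  not_lt.mpr (le_trans a0 a1) c0

theorem L559 {l v r : ℕ → ℝ} (h : H l v r) (a0 : l 12 < v 9) (a1 : l 10 ≤ l 12) : False :=
  have c0 : v 9 < l 10 := not_le.mp fun z => L342 h z
  not_lt.mpr a1 (lt_trans a0 c0)

theorem L560 {l v r : ℕ → ℝ} (h : H l v r) (a0 : r 4 < v 5) (a1 : r 5 ≤ r 4) : False :=
  have c0 : v 5 ≤ r 5 := not_lt.mp fun z => L36 h z
  not_lt.mpr (le_trans c0 a1) a0

theorem L561 {l v r : ℕ → ℝ} (h : H l v r) (a0 : l 0 < r 9) (a1 : r 10 < l 0) : False :=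
  have c0 : r 9 ≤ r 10 := not_lt.mp fun z => L353 h z
  not_lt.mpr c0 (lt_trans a1 a0)

theorem L562 {l v r : ℕ → ℝ} (h : H l v r) (a0 : v 12 < l 1) (a1 : l 1 < l 12) : False :=
  have c0 : l 12 ≤ v 12 := not_lt.mp fun z => L125 h z
  not_lt.mpr c0 (lt_trans a0 a1)

theorem L563 {l v r : ℕ → ℝ} (h : H l v r) (a0 : l 13 < v 0) (a1 : v 0 ≤ v 12) : False :=
  have c0 : v 12 < l 13 := not_le.mp fun z => L82 h z
  not_lt.mpr a1 (lt_trans c0 a0)

theorem L564 {l v r : ℕ → ℝ} (h : H l v r) (a0 : r 12 < v 16) (a1 : v 16 < l 10) : False :=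
  have c0 : l 10 ≤ r 12 := not_lt.mp fun z => L456 h z
  not_lt.mpr c0 (lt_trans a0 a1)

theorem L565 {l v r : ℕ → ℝ} (h : H l v r) (a0 : r 9 < v 0) (a1 : v 0 < l 10) : False :=
  have c0 : l 10 ≤ r 9 := not_lt.mp fun z => L349 h z
  not_lt.mpr c0 (lt_trans a0 a1)

theorem L566 {l v r : ℕ → ℝ} (h : H l v r) (a0 : v 10 ≤ v 0) (a1 : v 0 < l 8) : False :=
  have c0 : l 8 < v 10 := not_le.mp fun z => L459 h z
  not_lt.mpr a0 (lt_trans a1 c0)

theorem L567 {l v r : ℕ → ℝ} (h : H l v r) (a0 : l 13 < r 1) (a1 : r 1 < v 9) : False :=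
  have c0 : v 9 ≤ l 13 := not_lt.mp fun z => L464 h z
  not_lt.mpr c0 (lt_trans a0 a1)

theorem L568 {l v r : ℕ → ℝ} (h : H l v r) (a0 : r 12 < v 1) (a1 : v 1 < l 9) : False :=
  have c0 : l 9 ≤ r 12 := not_lt.mp fun z => L469 h z
  not_lt.mpr c0 (lt_trans a0 a1)

theorem L569 {l v r : ℕ → ℝ} (h : H l v r) (a0 : v 10 < v 17) (a1 : v 17 < l 12) : False :=
  have c0 : l 12 ≤ v 10 := not_lt.mp fun z => L460 h z
  not_lt.mpr c0 (lt_trans a0 a1)

theorem L570 {l v r : ℕ → ℝ} (h : H l v r) (a0 : v 0 < l 11) (a1 : r 17 < v 0) : False :=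
  have c0 : l 11 ≤ r 17 := not_lt.mp fun z => L309 h z
  not_lt.mpr c0 (lt_trans a1 a0)

theorem L571 {l v r : ℕ → ℝ} (h : H l v r) (a0 : l 1 ≤ l 8) (a1 : v 12 < l 1) : False :=
  have c0 : l 8 < v 12 := not_le.mp fun z => L439 h z
  not_lt.mpr a0 (lt_trans c0 a1)

theorem L572 {l v r : ℕ → ℝ} (h : H l v r) (a0 : l 17 ≤ v 9) (a1 : v 12 < l 17) : False :=
  have c0 : v 9 ≤ v 12 := not_lt.mp fun z => L465 h z
  not_lt.mpr (le_trans a0 c0) a1

theorem L573 {l v r : ℕ → ℝ} (h : H l v r) (a0 : l 1 < l 5) (a1 : v 12 < l 1) : False :=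
  have c0 : l 5 ≤ v 12 := not_lt.mp fun z => L441 h z
  not_lt.mpr c0 (lt_trans a1 a0)

theorem L574 {l v r : ℕ → ℝ} (h : H l v r) (a0 : r 10 < l 11) (a1 : r 1 < r 10) : False :=
  have c0 : l 11 ≤ r 1 := not_lt.mp fun z => L220 h z
  not_lt.mpr c0 (lt_trans a1 a0)

theorem L575 {l v r : ℕ → ℝ} (h : H l v r) (a0 : r 11 < l 12) (a1 : l 12 ≤ l 1) : False :=
  have c0 : l 1 < r 11 := not_le.mp fun z => L185 h z
  not_lt.mpr a1 (lt_trans c0 a0)

theorem L576 {l v r : ℕ → ℝ} (h : H l v r) (a0 : r 4 < l 0) (a1 : r 15 ≤ r 4) : False :=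
  have c0 : l 0 < r 15 := not_le.mp fun z => L205 h z
  not_lt.mpr a1 (lt_trans a0 c0)

theorem L577 {l v r : ℕ → ℝ} (h : H l v r) (a0 : r 10 ≤ l 17) (a1 : l 17 < l 16) : False :=
  have c0 : l 16 ≤ r 10 := not_lt.mp fun z => L190 h z
  not_lt.mpr (le_trans c0 a0) a1

theorem L578 {l v r : ℕ → ℝ} (h : H l v r) (a0 : l 13 < l 4) (a1 : l 4 ≤ r 9) : False :=
  have c0 : r 9 < l 13 := not_le.mp fun z => L480 h z
  not_lt.mpr a1 (lt_trans c0 a0)

theorem L579 {l v r : ℕ → ℝ} (h : H l v r) (a0 : r 4 < v 1) (a1 : v 1 < l 9) : False :=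
  have c0 : l 9 ≤ r 4 := not_lt.mp fun z => L470 h z
  not_lt.mpr c0 (lt_trans a0 a1)

theorem L580 {l v r : ℕ → ℝ} (h : H l v r) (a0 : r 4 < l 0) (a1 : l 0 < r 9) : False :=
  have c0 : r 9 ≤ r 4 := not_lt.mp fun z => L486 h z
  not_lt.mpr c0 (lt_trans a0 a1)

theorem L581 {l v r : ℕ → ℝ} (h : H l v r) (a0 : r 12 < l 11) (a1 : l 11 < v 10) : False :=
  have c0 : v 10 ≤ r 12 := not_lt.mp fun z => L478 h z
  not_lt.mpr c0 (lt_trans a0 a1)

theorem L582 {l v r : ℕ → ℝ} (h : H l v r) (a0 : l 15 < v 9) (a1 : v 10 < l 15) : False :=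
  have c0 : v 9 ≤ v 10 := not_lt.mp fun z => L347 h z
  not_lt.mpr c0 (lt_trans a1 a0)

theorem L583 {l v r : ℕ → ℝ} (h : H l v r) (a0 : v 8 ≤ l 12) (a1 : r 3 < v 8) : False :=
  have c0 : l 12 < r 3 := not_le.mp fun z => L422 h z
  not_lt.mpr a0 (lt_trans c0 a1)

theorem L584 {l v r : ℕ → ℝ} (h : H l v r) (a0 : v 9 < v 3) (a1 : l 12 < v 9) : False :=
  have c0 : v 3 ≤ l 12 := not_lt.mp fun z => L428 h z
  not_lt.mpr c0 (lt_trans a1 a0)

theorem L585 {l v r : ℕ → ℝ} (h : H l v r) (a0 : r 11 ≤ v 12) (a1 : v 12 < l 1) : False :=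
  have c0 : l 1 < r 11 := not_le.mp fun z => L185 h z
  not_lt.mpr a0 (lt_trans a1 c0)

theorem L586 {l v r : ℕ → ℝ} (h : H l v r) (a0 : r 5 < v 17) (a1 : v 17 < l 5) : False :=
  have c0 : l 5 ≤ r 5 := not_lt.mp fun z => L116 h z
  not_lt.mpr c0 (lt_trans a0 a1)

theorem L587 {l v r : ℕ → ℝ} (h : H l v r) (a0 : r 8 ≤ v 15) (a1 : v 15 < l 4) : False :=
  have c0 : l 4 < r 8 := not_le.mp fun z => L198 h z
  not_lt.mpr a0 (lt_trans a1 c0)

theorem L588 {l v r : ℕ → ℝ} (h : H l v r) (a0 : r 2 ≤ l 17) (a1 : v 13 ≤ r 2) : False :=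
  have c0 : l 17 < v 13 := not_le.mp fun z => L317 h z
  not_lt.mpr (le_trans a1 a0) c0

theorem L589 {l v r : ℕ → ℝ} (h : H l v r) (a0 : r 9 < v 0) (a1 : r 0 ≤ r 9) : False :=
  have c0 : v 0 ≤ r 0 := not_lt.mp fun z => L141 h z
  not_lt.mpr (le_trans c0 a1) a0

theorem L590 {l v r : ℕ → ℝ} (h : H l v r) (a0 : v 5 < l 3) (a1 : l 12 < v 5) : False :=
  have c0 : l 3 ≤ l 12 := not_lt.mp fun z => L427 h z
  not_lt.mpr c0 (lt_trans a1 a0)

theorem L591 {l v r : ℕ → ℝ} (h : H l v r) (a0 : l 1 < r 9) (a1 : v 10 ≤ l 1) : False :=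
  have c0 : r 9 ≤ v 10 := not_lt.mp fun z => L352 h z
  not_lt.mpr (le_trans c0 a1) a0

theorem L592 {l v r : ℕ → ℝ} (h : H l v r) (a0 : r 10 < r 1) (a1 : r 1 < v 12) : False :=
  have c0 : v 12 ≤ r 10 := not_lt.mp fun z => L334 h z
  not_lt.mpr c0 (lt_trans a0 a1)

theorem L593 {l v r : ℕ → ℝ} (h : H l v r) (a0 : l 13 ≤ l 1) (a1 : l 1 < r 9) : False :=
  have c0 : r 9 < l 13 := not_le.mp fun z => L480 h z
  not_lt.mpr a0 (lt_trans a1 c0)

theorem L594 {l v r : ℕ → ℝ} (h : H l v r) (a0 : l 0 < v 3) (a1 : l 10 < l 0) : False :=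
  have c0 : v 3 ≤ l 10 := not_lt.mp fun z => L462 h z
  not_lt.mpr c0 (lt_trans a1 a0)

theorem L595 {l v r : ℕ → ℝ} (h : H l v r) (a0 : v 0 < l 8) (a1 : v 12 ≤ v 0) : False :=
  have c0 : l 8 < v 12 := not_le.mp fun z => L439 h z
  not_lt.mpr a1 (lt_trans a0 c0)

theorem L596 {l v r : ℕ → ℝ} (h : H l v r) (a0 : r 11 ≤ l 5) (a1 : v 12 < r 11) : False :=
  have c0 : l 5 ≤ v 12 := not_lt.mp fun z => L441 h z
  not_lt.mpr (le_trans a0 c0) a1

theorem L597 {l v r : ℕ → ℝ} (h : H l v r) (a0 : l 0 ≤ v 12) (a1 : r 4 < l 0) : False :=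
  have c0 : v 12 < r 4 := not_le.mp fun z => L211 h z
  not_lt.mpr a0 (lt_trans c0 a1)

theorem L598 {l v r : ℕ → ℝ} (h : H l v r) (a0 : v 5 < l 8) (a1 : r 3 < v 5) : False :=
  have c0 : l 8 ≤ r 3 := not_lt.mp fun z => L217 h z
  not_lt.mpr c0 (lt_trans a1 a0)

theorem L599 {l v r : ℕ → ℝ} (h : H l v r) (a0 : v 5 < l 17) (a1 : r 12 < v 5) : False :=
  have c0 : l 17 ≤ r 12 := not_lt.mp fun z => L316 h z
  not_lt.mpr c0 (lt_trans a1 a0)

theorem L600 {l v r : ℕ → ℝ} (h : H l v r) (a0 : r 10 < v 4) (a1 : v 4 < l 13) : False :=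
  have c0 : l 13 ≤ r 10 := not_lt.mp fun z => L335 h z
  not_lt.mpr c0 (lt_trans a0 a1)

theorem L601 {l v r : ℕ → ℝ} (h : H l v r) (a0 : v 4 ≤ l 0) (a1 : r 15 < v 4) : False :=
  have c0 : l 0 < r 15 := not_le.mp fun z => L205 h z
  not_lt.mpr a0 (lt_trans c0 a1)

theorem L602 {l v r : ℕ → ℝ} (h : H l v r) (a0 : l 0 < r 9) (a1 : v 10 < l 0) : False :=
  have c0 : r 9 ≤ v 10 := not_lt.mp fun z => L352 h z
  not_lt.mpr c0 (lt_trans a1 a0)

theorem L603 {l v r : ℕ → ℝ} (h : H l v r) (a0 : l 1 ≤ r 3) (a1 : v 12 < l 1) : False :=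
  have c0 : r 3 < v 12 := not_le.mp fun z => L424 h z
  not_lt.mpr a0 (lt_trans c0 a1)

theorem L604 {l v r : ℕ → ℝ} (h : H l v r) (a0 : r 5 < v 3) (a1 : l 10 < r 5) : False :=
  have c0 : v 3 ≤ l 10 := not_lt.mp fun z => L462 h z
  not_lt.mpr c0 (lt_trans a1 a0)

theorem L605 {l v r : ℕ → ℝ} (h : H l v r) (a0 : r 11 < l 5) (a1 : v 12 < r 11) : False :=
  have c0 : l 5 ≤ v 12 := not_lt.mp fun z => L441 h z
  not_lt.mpr c0 (lt_trans a1 a0)

theorem L606 {l v r : ℕ → ℝ} (h : H l v r) (a0 : r 3 < l 4) (a1 : l 4 < v 9) : False :=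
  have c0 : v 9 ≤ r 3 := not_lt.mp fun z => L453 h z
  not_lt.mpr c0 (lt_trans a0 a1)

theorem L607 {l v r : ℕ → ℝ} (h : H l v r) (a0 : v 5 < l 3) (a1 : r 9 < v 5) : False :=
  have c0 : l 3 ≤ r 9 := not_lt.mp fun z => L472 h z
  not_lt.mpr c0 (lt_trans a1 a0)

theorem L608 {l v r : ℕ → ℝ} (h : H l v r) (a0 : r 11 < l 6) (a1 : l 6 < l 1) : False :=
  have c0 : l 1 ≤ r 11 := not_lt.mp fun z => L186 h z
  not_lt.mpr c0 (lt_trans a0 a1)

theorem L609 {l v r : ℕ → ℝ} (h : H l v r) (a0 : l 1 < r 9) (a1 : v 10 < l 1) : False :=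
  have c0 : r 9 ≤ v 10 := not_lt.mp fun z => L352 h z
  not_lt.mpr c0 (lt_trans a1 a0)

theorem L610 {l v r : ℕ → ℝ} (h : H l v r) (a0 : v 1 < l 12) (a1 : r 4 < v 1) : False :=
  have c0 : l 12 ≤ r 4 := not_lt.mp fun z => L212 h z
  not_lt.mpr c0 (lt_trans a1 a0)

theorem L611 {l v r : ℕ → ℝ} (h : H l v r) (a0 : v 5 ≤ l 13) (a1 : r 4 < v 5) : False :=
  have c0 : l 13 < r 4 := not_le.mp fun z => L207 h z
  not_lt.mpr a0 (lt_trans c0 a1)

theorem L612 {l v r : ℕ → ℝ} (h : H l v r) (a0 : v 0 < l 8) (a1 : v 12 < v 0) : False :=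
  have c0 : l 8 ≤ v 12 := not_lt.mp fun z => L440 h z
  not_lt.mpr c0 (lt_trans a1 a0)

theorem L613 {l v r : ℕ → ℝ} (h : H l v r) (a0 : r 4 < v 5) (a1 : v 5 ≤ r 3) : False :=
  have c0 : r 3 ≤ r 4 := not_lt.mp fun z => L437 h z
  not_lt.mpr (le_trans a1 c0) a0

theorem L614 {l v r : ℕ → ℝ} (h : H l v r) (a0 : v 13 < l 4) (a1 : l 4 ≤ r 9) : False :=
  have c0 : r 9 < v 13 := not_le.mp fun z => L483 h z
  not_lt.mpr a1 (lt_trans c0 a0)

theorem L615 {l v r : ℕ → ℝ} (h : H l v r) (a0 : l 16 ≤ l 13) (a1 : r 4 ≤ l 16) : False :=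
  have c0 : l 13 < r 4 := not_le.mp fun z => L207 h z
  not_lt.mpr (le_trans a1 a0) c0

theorem L616 {l v r : ℕ → ℝ} (h : H l v r) (a0 : v 13 < r 1) (a1 : r 1 < v 9) : False :=
  have c0 : v 9 ≤ v 13 := not_lt.mp fun z => L467 h z
  not_lt.mpr c0 (lt_trans a0 a1)

theorem L617 {l v r : ℕ → ℝ} (h : H l v r) (a0 : v 17 < l 5) (a1 : r 12 < v 17) : False :=
  have c0 : l 5 ≤ r 12 := not_lt.mp fun z => L444 h z
  not_lt.mpr c0 (lt_trans a1 a0)

theorem L618 {l v r : ℕ → ℝ} (h : H l v r) (a0 : r 5 < l 13) (a1 : r 4 < r 5) : False :=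
  have c0 : l 13 ≤ r 4 := not_lt.mp fun z => L208 h z
  not_lt.mpr c0 (lt_trans a1 a0)

theorem L619 {l v r : ℕ → ℝ} (h : H l v r) (a0 : r 11 < l 10) (a1 : v 12 < r 11) : False :=
  have c0 : l 10 ≤ v 12 := not_lt.mp fun z => L455 h z
  not_lt.mpr c0 (lt_trans a1 a0)

theorem L620 {l v r : ℕ → ℝ} (h : H l v r) (a0 : r 5 ≤ l 16) (a1 : v 13 < r 5) : False :=
  have c0 : l 16 < v 13 := not_le.mp fun z => L482 h z
  not_lt.mpr a0 (lt_trans c0 a1)

theorem L621 {l v r : ℕ → ℝ} (h : H l v r) (a0 : v 9 ≤ l 4) (a1 : S24 l v r) : False :=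
  have c0 : l 9 ≤ r 4 := not_lt.mp fun z => L470 h z
  L238 h a1 a0 c0

theorem L622 {l v r : ℕ → ℝ} (h : H l v r) (a0 : ¬ S29 l v r) (a1 : r 5 ≤ v 13) : False :=
  have c0 : l 5 ≤ r 13 := not_lt.mp fun z => L445 h z
  L290 h a0 a1 c0

theorem L623 {l v r : ℕ → ℝ} (h : H l v r) (a0 : r 4 ≤ v 0) (a1 : l 0 ≤ r 10) (a2 : S22 l v r) : False :=
  have c0 : l 10 ≤ r 4 := not_lt.mp fun z => L458 h z
  L292 h a2 a0 a1 c0

theorem L624 {l v r : ℕ → ℝ} (h : H l v r) (a0 : r 12 ≤ v 1) (a1 : v 1 < v 4) (a2 : v 1 < r 15) (a3 : l 0 ≤ r 10) (a4 : l 4 ≤ r 0) : False :=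
  have c0 : v 10 ≤ r 12 := not_lt.mp fun z => L478 h z
  have c1 : r 10 ≤ r 13 := not_lt.mp fun z => L481 h z
  L328 h a0 c1 c0 a4 a1 a2 a3

theorem L625 {l v r : ℕ → ℝ} (h : H l v r) (a0 : ¬ S35 l v r) (a1 : l 12 < l 5) (a2 : l 5 < l 10) (a3 : v 10 < v 5) : False :=
  have c0 : l 10 ≤ r 12 := not_lt.mp fun z => L456 h z
  L381 h a0 a2 a1 a3 c0

theorem L626 {l v r : ℕ → ℝ} (h : H l v r) (a0 : S8 l v r) (a1 : v 9 ≤ l 12) : False :=
  have c0 : l 9 ≤ r 12 := not_lt.mp fun z => L469 h z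
  L390 h a0 a1 c0

theorem L627 {l v r : ℕ → ℝ} (h : H l v r) (a0 : ¬ S37 l v r) (a1 : l 9 < l 12) (a2 : l 9 ≤ l 4) (a3 : S2 l v r) (a4 : v 5 ≤ l 12) : False :=
  have c0 : l 12 < r 17 := not_le.mp fun z => L488 h z
  L487 h c0 a0 a2 a1 a3 a4

theorem L628 {l v r : ℕ → ℝ} (h : H l v r) (a0 : S3 l v r) (a1 : l 15 ≤ v 5) (a2 : r 0 < v 15) (a3 : v 12 ≤ v 0) (a4 : v 12 < v 0) (a5 : r 9 ≤ r 0) (a6 : v 9 < v 0) (a7 : v 12 < l 15) : False :=
  have c0 : l 11 < r 0 := a0.2.1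
  have c1 : v 0 < l 11 := a0.1
  have c2 : r 12 < l 11 := not_le.mp fun z => L387 h a0 z a3 a5 a6
  have c3 : l 11 < v 15 := lt_trans c0 a2
  have c4 : v 0 ≤ r 17 := not_lt.mp fun z => L570 h c1 z
  have c5 : r 12 < v 15 := lt_trans c2 c3
  have c6 : v 12 ≤ r 17 := le_of_lt (lt_of_lt_of_le a4 c4)
  have c7 : r 12 ≤ l 15 := not_lt.mp fun z => h.n12_15 a7 z c5
  have c8 : S40 l v r := h.e40.resolve_right fun z => not_lt.mpr c6 z.2.2
  have c9 : l 17 ≤ l 15 := not_lt.mp fun z => L547 h z c7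
  have c10 : r 12 < v 17 := c8.2.2
  have c11 : l 17 ≤ v 5 := le_trans c9 a1
  have c12 : l 5 ≤ v 17 := not_lt.mp fun z => L617 h z c10
  have c13 : ¬ S25 l v r := fun z => not_lt.mpr c11 z.1
  not_lt.mpr c12 (h.e25.resolve_left c13).1

theorem L629 {l v r : ℕ → ℝ} (h : H l v r) (a0 : S19 l v r) (a1 : l 0 < v 4) (a2 : r 0 < v 15) (a3 : v 0 < r 4) (a4 : v 12 ≤ v 0) (a5 : v 12 < v 0) (a6 : r 9 ≤ r 0) (a7 : v 9 < v 0) (a8 : v 12 < l 15) (a9 : l 15 ≤ r 4) (a10 : l 5 < r 11) : False :=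
  have c0 : v 4 < l 5 := a0.1
  have c1 : r 4 < v 5 := a0.2.2
  have c2 : l 0 < l 5 := lt_trans a1 c0
  have c3 : v 0 < v 5 := lt_trans a3 c1
  have c4 : l 15 ≤ v 5 := le_of_lt (lt_of_le_of_lt a9 c1)
  have c5 : ¬ S3 l v r := fun z => L628 h z c4 a2 a4 a5 a6 a7 a8
  have c6 : v 11 < l 0 := (h.e3.resolve_left c5).1
  have c7 : r 11 < v 0 := (h.e3.resolve_left c5).2.2
  have c8 : v 11 < l 5 := lt_trans c6 c2
  have c9 : r 11 < v 5 := lt_trans c7 c3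
  h.n11_5 c8 a10 c9

theorem L630 {l v r : ℕ → ℝ} (h : H l v r) (a0 : S22 l v r) (a1 : ¬ S8 l v r) (a2 : l 4 ≤ r 9) : False :=
  have c0 : l 1 < r 9 := (h.e8.resolve_left a1).2.1
  have c1 : l 1 ≤ r 9 := le_of_lt c0
  have c2 : r 9 < v 1 := (h.e8.resolve_left a1).2.2
  have c3 : l 4 ≤ v 1 := le_of_lt (lt_of_le_of_lt a2 c2)
  have c4 : ¬ S6 l v r := fun z => not_lt.mpr c3 z.1
  have c5 : r 4 < v 1 := (h.e6.resolve_left c4).2.2
  have c6 : l 12 ≤ v 1 := not_lt.mp fun z => L610 h z c5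
  have c7 : ¬ S10 l v r := fun z => not_lt.mpr c6 z.1
  have c8 : v 12 < l 1 := (h.e10.resolve_left c7).1
  have c9 : l 8 < l 1 := not_le.mp fun z => L571 h z c8
  have c10 : l 8 ≤ r 9 := le_of_lt (lt_of_lt_of_le c9 c1)
  have c11 : v 12 < r 11 := not_le.mp fun z => L585 h z c8
  have c12 : l 5 < r 11 := not_le.mp fun z => L596 h z c11
  have c13 : l 1 < v 10 := not_le.mp fun z => L591 h c0 z
  have c14 : v 12 < v 10 := lt_trans c8 c13
  have c15 : v 12 ≤ r 9 := le_of_lt (lt_of_lt_of_le c8 c1)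
  have c16 : v 12 < r 9 := lt_trans c8 c0
  have c17 : v 4 < l 1 := (h.e6.resolve_left c4).1
  have c18 : v 4 ≤ r 9 := le_of_lt (lt_of_lt_of_le c17 c1)
  have c19 : l 1 < l 13 := not_le.mp fun z => L593 h z c0
  have c20 : l 4 ≤ v 13 := not_lt.mp fun z => L614 h z a2
  have c21 : S21 l v r := h.e21.resolve_right fun z => not_lt.mpr c20 z.1
  have c22 : v 4 < l 13 := c21.1
  have c23 : v 4 ≤ v 13 := not_lt.mp fun z => L537 h z c22
  have c24 : l 4 ≤ l 13 := not_lt.mp fun z => L578 h z a2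
  have c25 : l 15 < r 4 := a0.2.1
  have c26 : r 4 < v 15 := a0.2.2
  have c27 : l 15 ≤ r 4 := le_of_lt c25
  have c28 : l 10 ≤ v 15 := not_lt.mp fun z => L532 h z c26
  have c29 : r 9 ≤ v 15 := not_lt.mp fun z => L498 h z c26
  have c30 : S34 l v r := h.e34.resolve_right fun z => not_lt.mpr c28 z.1
  have c31 : v 10 < l 15 := c30.1
  have c32 : v 9 ≤ l 15 := not_lt.mp fun z => L582 h z c31
  have c33 : v 12 < l 15 := lt_trans c14 c31
  have c34 : ¬ S2 l v r := fun z => L383 h z c32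
  have c35 : r 9 < v 0 := (h.e2.resolve_left c34).2.2
  have c36 : l 0 < r 9 := (h.e2.resolve_left c34).2.1
  have c37 : v 9 < v 0 := not_le.mp fun z => L543 h c35 z
  have c38 : r 9 < r 0 := not_le.mp fun z => L589 h c35 z
  have c39 : r 9 ≤ r 0 := not_lt.mp fun z => L172 h z c35
  have c40 : v 12 < v 0 := lt_trans c16 c35
  have c41 : v 12 ≤ v 0 := le_of_lt (lt_of_le_of_lt c15 c35)
  have c42 : l 8 ≤ v 0 := le_of_lt (lt_of_le_of_lt c10 c35)
  have c43 : v 4 ≤ v 0 := le_of_lt (lt_of_le_of_lt c18 c35)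
  have c44 : l 0 ≤ r 10 := not_lt.mp fun z => L561 h c36 z
  have c45 : l 0 ≤ r 4 := not_lt.mp fun z => L580 h z c36
  have c46 : l 0 ≤ v 15 := le_of_lt (lt_of_lt_of_le c36 c29)
  have c47 : l 4 ≤ r 0 := le_of_lt (lt_of_le_of_lt a2 c38)
  have c48 : ¬ S1 l v r := fun z => not_lt.mpr c42 z.1
  have c49 : v 0 < r 4 := not_le.mp fun z => L623 h z c44 a0
  have c50 : S4 l v r := h.e4.resolve_right fun z => not_lt.mpr c46 z.1
  have c51 : v 8 < l 0 := (h.e1.resolve_left c48).1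
  have c52 : v 0 < v 1 := lt_trans c49 c5
  have c53 : r 0 < v 15 := c50.2.2
  have c54 : v 8 ≤ r 4 := le_of_lt (lt_of_lt_of_le c51 c45)
  have c55 : ¬ S20 l v r := fun z => not_lt.mpr c54 z.2.2
  have c56 : l 0 < v 4 := not_le.mp fun z => L363 h c55 z c47
  have c57 : l 0 < l 1 := lt_trans c56 c17
  have c58 : ¬ S19 l v r := fun z => L629 h z c56 c53 c49 c41 c40 c39 c37 c33 c27 c12
  have c59 : r 5 < v 4 := (h.e19.resolve_left c58).2.2
  have c60 : v 5 < l 4 := (h.e19.resolve_left c58).1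
  have c61 : r 5 ≤ v 0 := le_of_lt (lt_of_lt_of_le c59 c43)
  have c62 : r 5 ≤ v 13 := le_of_lt (lt_of_lt_of_le c59 c23)
  have c63 : v 5 ≤ l 13 := le_of_lt (lt_of_lt_of_le c60 c24)
  have c64 : S29 l v r := Classical.byContradiction fun z => L622 h z c62
  have c65 : l 13 < r 7 := c64.2.1
  have c66 : l 1 < r 7 := lt_trans c19 c65
  have c67 : v 5 ≤ r 7 := le_of_lt (lt_of_le_of_lt c63 c65)
  have c68 : S23 l v r := h.e23.resolve_right fun z => not_lt.mpr c67 z.2.2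
  have c69 : l 7 < r 5 := c68.2.1
  have c70 : l 7 ≤ v 0 := le_of_lt (lt_of_lt_of_le c69 c61)
  have c71 : ¬ S0 l v r := fun z => not_lt.mpr c70 z.1
  have c72 : r 7 < v 0 := (h.e0.resolve_left c71).2.2
  have c73 : v 7 < l 0 := (h.e0.resolve_left c71).1
  have c74 : r 7 < v 1 := lt_trans c72 c52
  have c75 : v 7 < l 1 := lt_trans c73 c57
  h.n7_1 c75 c66 c74

theorem L631 {l v r : ℕ → ℝ} (h : H l v r) (a0 : ¬ S19 l v r) (a1 : r 9 < v 0) (a2 : ¬ S8 l v r) (a3 : l 4 ≤ r 9) : False :=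
  have c0 : l 1 < r 9 := (h.e8.resolve_left a2).2.1
  have c1 : l 1 ≤ r 9 := le_of_lt c0
  have c2 : r 9 < v 1 := (h.e8.resolve_left a2).2.2
  have c3 : l 4 ≤ v 1 := le_of_lt (lt_of_le_of_lt a3 c2)
  have c4 : ¬ S6 l v r := fun z => not_lt.mpr c3 z.1
  have c5 : r 4 < v 1 := (h.e6.resolve_left c4).2.2
  have c6 : l 12 ≤ v 1 := not_lt.mp fun z => L610 h z c5
  have c7 : ¬ S10 l v r := fun z => not_lt.mpr c6 z.1
  have c8 : v 12 < l 1 := (h.e10.resolve_left c7).1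
  have c9 : l 8 < l 1 := not_le.mp fun z => L571 h z c8
  have c10 : l 8 ≤ r 9 := le_of_lt (lt_of_lt_of_le c9 c1)
  have c11 : l 8 ≤ v 0 := le_of_lt (lt_of_le_of_lt c10 a1)
  have c12 : ¬ S1 l v r := fun z => not_lt.mpr c11 z.1
  have c13 : v 4 < l 1 := (h.e6.resolve_left c4).1
  have c14 : v 4 ≤ r 9 := le_of_lt (lt_of_lt_of_le c13 c1)
  have c15 : r 9 < r 0 := not_le.mp fun z => L589 h a1 z
  have c16 : v 4 ≤ r 0 := le_of_lt (lt_of_le_of_lt c14 c15)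
  have c17 : v 12 ≤ r 9 := le_of_lt (lt_of_lt_of_le c8 c1)
  have c18 : v 12 ≤ v 0 := le_of_lt (lt_of_le_of_lt c17 a1)
  have c19 : ¬ S22 l v r := fun z => L630 h z a2 a3
  have c20 : r 15 < v 4 := (h.e22.resolve_left c19).2.2
  have c21 : r 15 ≤ r 4 := not_lt.mp fun z => L506 h z c20
  have c22 : l 0 ≤ r 4 := not_lt.mp fun z => L576 h z c21
  have c23 : l 12 ≤ l 1 := not_lt.mp fun z => L562 h c8 z
  have c24 : r 5 < v 4 := (h.e19.resolve_left a0).2.2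
  have c25 : v 5 < l 4 := (h.e19.resolve_left a0).1
  have c26 : r 5 ≤ r 0 := le_of_lt (lt_of_lt_of_le c24 c16)
  have c27 : v 5 ≤ r 9 := le_of_lt (lt_of_lt_of_le c25 a3)
  have c28 : S24 l v r := h.e24.resolve_right fun z => not_lt.mpr c27 z.2.2
  have c29 : r 5 < v 9 := c28.2.2
  have c30 : v 5 < l 9 := c28.1
  have c31 : l 4 < v 9 := not_le.mp fun z => L621 h z c28
  have c32 : r 5 ≤ v 12 := not_lt.mp fun z => L544 h z c29
  have c33 : v 5 ≤ r 3 := not_lt.mp fun z => L524 h z c30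
  have c34 : l 4 ≤ r 3 := not_lt.mp fun z => L606 h z c31
  have c35 : ¬ S14 l v r := fun z => not_lt.mpr c33 z.2.2
  have c36 : l 0 < v 3 := not_le.mp fun z => L410 h c12 z c22 c34
  have c37 : v 5 < l 3 := (h.e14.resolve_left c35).1
  have c38 : l 0 ≤ r 17 := not_lt.mp fun z => L522 h z c36
  have c39 : v 5 ≤ r 17 := not_lt.mp fun z => L554 h z c37
  have c40 : S25 l v r := h.e25.resolve_right fun z => not_lt.mpr c39 z.2.2
  have c41 : l 17 < r 5 := c40.2.1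
  have c42 : l 17 ≤ v 12 := le_of_lt (lt_of_lt_of_le c41 c32)
  have c43 : l 17 ≤ r 0 := le_of_lt (lt_of_lt_of_le c41 c26)
  have c44 : ¬ S40 l v r := fun z => not_lt.mpr c42 z.1
  have c45 : v 17 < l 12 := (h.e40.resolve_left c44).1
  have c46 : r 17 < v 12 := (h.e40.resolve_left c44).2.2
  have c47 : v 17 < l 1 := lt_of_lt_of_le c45 c23
  have c48 : r 17 ≤ v 0 := le_of_lt (lt_of_lt_of_le c46 c18)
  have c49 : ¬ S37 l v r := fun z => L184 h z c47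
  have c50 : ¬ S3 l v r := fun z => L202 h z c48 c43
  have c51 : r 17 < v 11 := (h.e37.resolve_left c49).2.2
  have c52 : v 11 < l 0 := (h.e3.resolve_left c50).1
  not_lt.mpr c38 (lt_trans c51 c52)

theorem L632 {l v r : ℕ → ℝ} (h : H l v r) (a0 : S29 l v r) (a1 : v 13 < v 1) (a2 : l 13 ≤ r 5) (a3 : l 5 ≤ l 1) (a4 : l 1 < l 13) : False :=
  have c0 : l 13 < r 7 := a0.2.1
  have c1 : v 7 < l 13 := a0.1
  have c2 : r 7 < v 13 := a0.2.2
  have c3 : l 1 < r 7 := lt_trans a4 c0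
  have c4 : v 7 ≤ r 5 := le_of_lt (lt_of_lt_of_le c1 a2)
  have c5 : r 7 < v 1 := lt_trans c2 a1
  have c6 : ¬ S23 l v r := fun z => not_lt.mpr c4 z.2.2
  have c7 : l 1 ≤ v 7 := not_lt.mp fun z => h.n7_1 z c3 c5
  have c8 : v 7 < l 5 := (h.e23.resolve_left c6).1
  not_lt.mpr (le_trans a3 c7) c8

theorem L633 {l v r : ℕ → ℝ} (h : H l v r) (a0 : ¬ S35 l v r) (a1 : v 11 ≤ l 10) (a2 : l 10 ≤ r 11) : False :=
  have c0 : v 16 < l 10 := (h.e35.resolve_left a0).1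
  have c1 : l 10 < r 16 := (h.e35.resolve_left a0).2.1
  have c2 : v 16 ≤ r 11 := le_of_lt (lt_of_lt_of_le c0 a2)
  have c3 : v 11 ≤ r 16 := le_of_lt (lt_of_le_of_lt a1 c1)
  have c4 : ¬ S36 l v r := fun z => not_lt.mpr c2 z.2.2
  not_lt.mpr c3 (h.e36.resolve_left c4).2.2

theorem L634 {l v r : ℕ → ℝ} (h : H l v r) (a0 : v 11 < l 0) (a1 : l 0 ≤ l 10) (a2 : l 0 ≤ r 17) (a3 : v 10 < v 5) (a4 : l 13 < v 5) (a5 : l 0 < l 5) (a6 : r 6 < v 13) (a7 : l 6 ≤ r 11) (a8 : v 6 < v 10) (a9 : l 0 ≤ r 10) (a10 : l 0 ≤ l 13) (a11 : l 10 ≤ r 11) (a12 : l 5 ≤ r 11) (a13 : l 5 < r 11) : False :=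
  have c0 : l 11 ≤ l 0 := not_lt.mp fun z => L495 h a0 z
  have c1 : v 11 ≤ r 17 := le_of_lt (lt_of_lt_of_le a0 a2)
  have c2 : v 11 < l 5 := lt_trans a0 a5
  have c3 : v 11 ≤ l 10 := le_of_lt (lt_of_lt_of_le a0 a1)
  have c4 : v 11 < l 13 := lt_of_lt_of_le a0 a10
  have c5 : l 11 ≤ r 10 := le_trans c0 a9
  have c6 : S37 l v r := h.e37.resolve_right fun z => not_lt.mpr c1 z.2.2
  have c7 : v 5 ≤ r 11 := not_lt.mp fun z => h.n11_5 c2 a13 z
  have c8 : r 11 < v 17 := c6.2.2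
  have c9 : l 13 < r 11 := lt_of_lt_of_le a4 c7
  have c10 : l 5 ≤ v 17 := le_of_lt (lt_of_le_of_lt a12 c8)
  have c11 : l 6 ≤ v 17 := le_of_lt (lt_of_le_of_lt a7 c8)
  have c12 : v 13 ≤ r 11 := not_lt.mp fun z => h.n11_13 c4 c9 z
  have c13 : S25 l v r := h.e25.resolve_right fun z => not_lt.mpr c10 z.1
  have c14 : S28 l v r := h.e28.resolve_right fun z => not_lt.mpr c11 z.1
  have c15 : r 10 < r 11 := not_le.mp fun z => L558 h c12 z
  have c16 : r 6 ≤ r 11 := le_of_lt (lt_of_lt_of_le a6 c12)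
  have c17 : v 5 < l 17 := c13.1
  have c18 : l 17 < r 6 := c14.2.1
  have c19 : r 10 < v 17 := lt_trans c15 c8
  have c20 : v 10 < l 17 := lt_trans a3 c17
  have c21 : r 10 ≤ l 17 := not_lt.mp fun z => h.n10_17 c20 z c19
  have c22 : l 16 ≤ l 17 := not_lt.mp fun z => L577 h c21 z
  have c23 : l 16 < r 6 := lt_of_le_of_lt c22 c18
  have c24 : S35 l v r := Classical.byContradiction fun z => L633 h z c3 a11
  have c25 : v 10 < l 16 := c24.1
  have c26 : r 10 < v 16 := c24.2.2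
  have c27 : v 6 < l 16 := lt_trans a8 c25
  have c28 : l 11 ≤ v 16 := le_of_lt (lt_of_le_of_lt c5 c26)
  have c29 : v 16 ≤ r 6 := not_lt.mp fun z => h.n6_16 c27 c23 z
  have c30 : S36 l v r := h.e36.resolve_right fun z => not_lt.mpr c28 z.1
  have c31 : v 16 ≤ r 11 := le_trans c29 c16
  not_lt.mpr c31 c30.2.2

theorem L635 {l v r : ℕ → ℝ} (h : H l v r) (a0 : S35 l v r) (a1 : r 4 < r 12) (a2 : v 5 < r 6) (a3 : v 2 < l 17) (a4 : r 5 < v 17) (a5 : l 13 ≤ r 5) (a6 : r 6 < v 13) (a7 : r 2 < v 1) (a8 : v 2 < l 13) (a9 : v 6 < v 10) (a10 : l 2 ≤ r 10) (a11 : l 5 ≤ l 1) (a12 : v 4 ≤ v 10) (a13 : l 1 < l 13) : False :=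
  have c0 : v 10 < l 16 := a0.1
  have c1 : r 10 < v 16 := a0.2.2
  have c2 : v 4 < l 16 := lt_of_le_of_lt a12 c0
  have c3 : v 6 < l 16 := lt_trans a9 c0
  have c4 : l 12 ≤ v 16 := not_lt.mp fun z => L539 h z c1
  have c5 : l 2 ≤ v 16 := le_of_lt (lt_of_le_of_lt a10 c1)
  have c6 : S39 l v r := h.e39.resolve_right fun z => not_lt.mpr c4 z.1
  have c7 : S13 l v r := h.e13.resolve_right fun z => not_lt.mpr c5 z.1
  have c8 : r 12 < v 16 := c6.2.2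
  have c9 : l 16 < r 2 := c7.2.1
  have c10 : r 2 < v 16 := c7.2.2
  have c11 : r 4 < v 16 := lt_trans a1 c8
  have c12 : l 16 ≤ r 2 := le_of_lt c9
  have c13 : r 4 ≤ l 16 := not_lt.mp fun z => h.n4_16 c2 z c11
  have c14 : l 13 < l 16 := not_le.mp fun z => L615 h z c13
  have c15 : l 13 < r 2 := lt_of_lt_of_le c14 c12
  have c16 : v 13 ≤ r 2 := not_lt.mp fun z => h.n2_13 a8 c15 z
  have c17 : l 17 < r 2 := not_le.mp fun z => L588 h z c16
  have c18 : v 13 < v 16 := lt_of_le_of_lt c16 c10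
  have c19 : v 13 < v 1 := lt_of_le_of_lt c16 a7
  have c20 : v 17 ≤ r 2 := not_lt.mp fun z => h.n2_17 a3 c17 z
  have c21 : r 6 < v 16 := lt_trans a6 c18
  have c22 : ¬ S29 l v r := fun z => L632 h z c19 a5 a11 a13
  have c23 : r 5 ≤ r 2 := le_of_lt (lt_of_lt_of_le a4 c20)
  have c24 : r 6 ≤ l 16 := not_lt.mp fun z => h.n6_16 c3 z c21
  have c25 : v 13 < r 5 := not_le.mp fun z => L622 h c22 z
  have c26 : r 5 < v 16 := lt_of_le_of_lt c23 c10
  have c27 : v 5 < l 16 := lt_of_lt_of_le a2 c24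
  have c28 : l 16 < r 5 := not_le.mp fun z => L620 h z c25
  h.n5_16 c27 c28 c26

theorem L636 {l v r : ℕ → ℝ} (h : H l v r) (a0 : r 9 < v 0) (a1 : ¬ S8 l v r) (a2 : l 4 ≤ r 9) : False :=
  have c0 : l 1 < r 9 := (h.e8.resolve_left a1).2.1
  have c1 : l 1 ≤ r 13 := not_lt.mp fun z => L519 h z c0
  have c2 : ¬ S22 l v r := fun z => L630 h z a1 a2
  have c3 : v 15 < l 4 := (h.e22.resolve_left c2).1
  have c4 : v 15 < r 1 := not_le.mp fun z => L550 h z c3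
  have c5 : r 9 < v 1 := (h.e8.resolve_left a1).2.2
  have c6 : l 4 ≤ v 1 := le_of_lt (lt_of_le_of_lt a2 c5)
  have c7 : ¬ S6 l v r := fun z => not_lt.mpr c6 z.1
  have c8 : v 4 < l 1 := (h.e6.resolve_left c7).1
  have c9 : v 4 ≤ v 1 := not_lt.mp fun z => L551 h z c8
  have c10 : r 15 < v 4 := (h.e22.resolve_left c2).2.2
  have c11 : r 15 ≤ v 1 := le_of_lt (lt_of_lt_of_le c10 c9)
  have c12 : r 6 < r 1 := not_le.mp fun z => L294 h z c4 c11
  have c13 : v 6 ≤ r 1 := not_lt.mp fun z => L79 h c12 z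
  have c14 : ¬ S7 l v r := fun z => not_lt.mpr c13 z.2.2
  have c15 : v 6 < l 1 := (h.e7.resolve_left c14).1
  have c16 : v 6 ≤ r 13 := le_of_lt (lt_of_lt_of_le c15 c1)
  have c17 : S26 l v r := h.e26.resolve_right fun z => not_lt.mpr c16 z.2.2
  have c18 : r 6 < v 13 := c17.2.2
  have c19 : l 6 < l 1 := not_le.mp fun z => L530 h c15 z
  have c20 : l 6 ≤ r 11 := not_lt.mp fun z => L608 h z c19
  have c21 : v 4 ≤ r 1 := not_lt.mp fun z => L518 h z c8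
  have c22 : l 15 ≤ v 4 := not_lt.mp fun z => L552 h c10 z
  have c23 : l 15 ≤ r 1 := le_trans c22 c21
  have c24 : l 4 ≤ l 1 := not_lt.mp fun z => L510 h c8 z
  have c25 : v 15 ≤ l 1 := le_of_lt (lt_of_lt_of_le c3 c24)
  have c26 : ¬ S12 l v r := fun z => L193 h z c25 c23
  have c27 : l 2 < r 15 := (h.e12.resolve_left c26).2.1
  have c28 : l 2 ≤ v 1 := le_of_lt (lt_of_lt_of_le c27 c11)
  have c29 : ¬ S5 l v r := fun z => not_lt.mpr c28 z.1
  have c30 : r 2 < v 1 := (h.e5.resolve_left c29).2.2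
  have c31 : l 1 ≤ r 9 := le_of_lt c0
  have c32 : v 4 ≤ r 9 := le_of_lt (lt_of_lt_of_le c8 c31)
  have c33 : r 15 ≤ r 9 := le_of_lt (lt_of_lt_of_le c10 c32)
  have c34 : l 2 ≤ r 9 := le_of_lt (lt_of_lt_of_le c27 c33)
  have c35 : v 2 < r 9 := not_le.mp fun z => L378 h a1 z c34
  have c36 : v 2 < l 13 := not_le.mp fun z => L549 h z c35
  have c37 : l 1 ≤ v 10 := not_lt.mp fun z => L609 h c0 z
  have c38 : v 6 < v 10 := lt_of_lt_of_le c15 c37
  have c39 : v 6 < r 9 := lt_trans c15 c0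
  have c40 : l 4 ≤ v 13 := not_lt.mp fun z => L614 h z a2
  have c41 : S21 l v r := h.e21.resolve_right fun z => not_lt.mpr c40 z.1
  have c42 : v 4 < l 13 := c41.1
  have c43 : v 4 ≤ r 10 := not_lt.mp fun z => L600 h z c42
  have c44 : r 15 ≤ r 10 := le_of_lt (lt_of_lt_of_le c10 c43)
  have c45 : l 2 ≤ r 10 := le_of_lt (lt_of_lt_of_le c27 c44)
  have c46 : l 0 < v 4 := not_le.mp fun z => L601 h z c10
  have c47 : l 0 ≤ r 10 := le_of_lt (lt_of_lt_of_le c46 c43)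
  have c48 : v 4 ≤ l 13 := le_of_lt c42
  have c49 : l 0 ≤ l 13 := le_of_lt (lt_of_lt_of_le c46 c48)
  have c50 : r 15 ≤ r 4 := not_lt.mp fun z => L506 h z c10
  have c51 : l 0 ≤ r 4 := not_lt.mp fun z => L576 h z c50
  have c52 : l 0 ≤ v 4 := not_lt.mp fun z => L529 h z c10
  have c53 : r 4 < v 1 := (h.e6.resolve_left c7).2.2
  have c54 : l 12 ≤ v 1 := not_lt.mp fun z => L610 h z c53
  have c55 : ¬ S10 l v r := fun z => not_lt.mpr c54 z.1
  have c56 : v 12 < l 1 := (h.e10.resolve_left c55).1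
  have c57 : l 8 < l 1 := not_le.mp fun z => L571 h z c56
  have c58 : l 8 ≤ r 9 := le_of_lt (lt_of_lt_of_le c57 c31)
  have c59 : v 12 < r 11 := not_le.mp fun z => L585 h z c56
  have c60 : l 10 ≤ r 11 := not_lt.mp fun z => L619 h z c59
  have c61 : l 5 ≤ r 11 := not_lt.mp fun z => L605 h z c59
  have c62 : l 5 < r 11 := not_le.mp fun z => L596 h z c59
  have c63 : v 12 ≤ r 9 := le_of_lt (lt_of_lt_of_le c56 c31)
  have c64 : v 12 < r 9 := lt_trans c56 c0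
  have c65 : l 5 ≤ l 1 := not_lt.mp fun z => L573 h z c56
  have c66 : v 4 ≤ v 10 := le_of_lt (lt_of_lt_of_le c8 c37)
  have c67 : l 1 < l 13 := not_le.mp fun z => L593 h z c0
  have c68 : v 9 < v 0 := not_le.mp fun z => L543 h a0 z
  have c69 : r 9 ≤ r 0 := not_lt.mp fun z => L172 h z a0
  have c70 : v 12 < v 0 := lt_trans c64 a0
  have c71 : v 12 ≤ v 0 := le_of_lt (lt_of_le_of_lt c63 a0)
  have c72 : l 8 ≤ v 0 := le_of_lt (lt_of_le_of_lt c58 a0)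
  have c73 : v 6 < v 0 := lt_trans c39 a0
  have c74 : ¬ S1 l v r := fun z => not_lt.mpr c72 z.1
  have c75 : S19 l v r := Classical.byContradiction fun z => L631 h z a0 a1 a2
  have c76 : v 4 < l 5 := c75.1
  have c77 : r 4 < v 5 := c75.2.2
  have c78 : l 4 < l 5 := not_le.mp fun z => L2 h c76 z
  have c79 : v 4 < r 17 := not_le.mp fun z => L527 h z c76
  have c80 : l 0 < l 5 := lt_trans c46 c76
  have c81 : r 4 < r 5 := not_le.mp fun z => L560 h c77 z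
  have c82 : l 13 < v 5 := not_le.mp fun z => L611 h z c77
  have c83 : v 10 < v 5 := not_le.mp fun z => L494 h c77 z
  have c84 : l 4 ≤ r 3 := not_lt.mp fun z => L517 h z c78
  have c85 : l 0 ≤ r 17 := le_of_lt (lt_of_le_of_lt c52 c79)
  have c86 : l 13 ≤ r 5 := not_lt.mp fun z => L618 h z c81
  have c87 : l 0 < v 3 := not_le.mp fun z => L410 h c74 z c51 c84
  have c88 : l 0 ≤ l 10 := not_lt.mp fun z => L594 h c87 z
  have c89 : l 0 ≤ v 11 := not_lt.mp fun z => L634 h z c88 c85 c83 c82 c80 c18 c20 c38 c47 c49 c60 c61 c62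
  have c90 : S3 l v r := h.e3.resolve_right fun z => not_lt.mpr c89 z.1
  have c91 : v 0 < l 11 := c90.1
  have c92 : r 12 < l 11 := not_le.mp fun z => L387 h c90 z c71 c69 c68
  have c93 : v 0 ≤ r 17 := not_lt.mp fun z => L570 h c91 z
  have c94 : v 10 ≤ l 11 := not_lt.mp fun z => L581 h c92 z
  have c95 : v 12 ≤ r 17 := le_of_lt (lt_of_lt_of_le c70 c93)
  have c96 : v 6 ≤ r 17 := le_of_lt (lt_of_lt_of_le c73 c93)
  have c97 : S40 l v r := h.e40.resolve_right fun z => not_lt.mpr c95 z.2.2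
  have c98 : S28 l v r := h.e28.resolve_right fun z => not_lt.mpr c96 z.2.2
  have c99 : r 12 < v 17 := c97.2.2
  have c100 : v 12 < l 17 := c97.1
  have c101 : l 17 < r 6 := c98.2.1
  have c102 : l 5 ≤ v 17 := not_lt.mp fun z => L617 h z c99
  have c103 : r 9 < v 17 := not_le.mp fun z => L509 h z c99
  have c104 : v 9 < l 17 := not_le.mp fun z => L572 h z c100
  have c105 : S25 l v r := h.e25.resolve_right fun z => not_lt.mpr c102 z.1
  have c106 : r 9 ≤ l 17 := not_lt.mp fun z => h.n9_17 c104 z c103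
  have c107 : r 5 < v 17 := c105.2.2
  have c108 : v 5 < l 17 := c105.1
  have c109 : v 2 < l 17 := lt_of_lt_of_le c35 c106
  have c110 : v 5 ≤ r 12 := not_lt.mp fun z => L599 h c108 z
  have c111 : v 5 < r 6 := lt_trans c108 c101
  have c112 : r 4 < r 12 := lt_of_lt_of_le c77 c110
  have c113 : ¬ S35 l v r := fun z => L635 h z c112 c111 c109 c107 c86 c18 c30 c36 c38 c45 c65 c66 c67
  have c114 : r 16 < v 10 := (h.e35.resolve_left c113).2.2
  have c115 : v 16 < l 10 := (h.e35.resolve_left c113).1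
  have c116 : r 16 ≤ l 11 := le_of_lt (lt_of_lt_of_le c114 c94)
  have c117 : v 16 ≤ r 11 := le_of_lt (lt_of_lt_of_le c115 c60)
  have c118 : S36 l v r := h.e36.resolve_right fun z => not_lt.mpr c116 z.2.1
  not_lt.mpr c117 c118.2.2

theorem L637 {l v r : ℕ → ℝ} (h : H l v r) (a0 : ¬ S8 l v r) (a1 : l 4 ≤ r 9) : False :=
  have c0 : l 4 ≤ v 13 := not_lt.mp fun z => L614 h z a1
  have c1 : S21 l v r := h.e21.resolve_right fun z => not_lt.mpr c0 z.1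
  have c2 : v 4 < l 13 := c1.1
  have c3 : v 4 ≤ r 10 := not_lt.mp fun z => L600 h z c2
  have c4 : l 1 < r 9 := (h.e8.resolve_left a0).2.1
  have c5 : r 9 < v 1 := (h.e8.resolve_left a0).2.2
  have c6 : l 4 ≤ v 1 := le_of_lt (lt_of_le_of_lt a1 c5)
  have c7 : ¬ S6 l v r := fun z => not_lt.mpr c6 z.1
  have c8 : r 4 < v 1 := (h.e6.resolve_left c7).2.2
  have c9 : l 12 ≤ v 1 := not_lt.mp fun z => L610 h z c8
  have c10 : ¬ S10 l v r := fun z => not_lt.mpr c9 z.1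
  have c11 : v 12 < l 1 := (h.e10.resolve_left c10).1
  have c12 : l 12 ≤ l 1 := not_lt.mp fun z => L562 h c11 z
  have c13 : r 3 < l 1 := not_le.mp fun z => L603 h z c11
  have c14 : l 12 ≤ r 11 := not_lt.mp fun z => L575 h z c12
  have c15 : r 3 < r 9 := lt_trans c13 c4
  have c16 : ¬ S22 l v r := fun z => L630 h z a0 a1
  have c17 : r 15 < v 4 := (h.e22.resolve_left c16).2.2
  have c18 : v 15 < l 4 := (h.e22.resolve_left c16).1
  have c19 : l 0 < v 4 := not_le.mp fun z => L601 h z c17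
  have c20 : l 15 < l 4 := not_le.mp fun z => L73 h c18 z
  have c21 : l 0 ≤ r 10 := le_of_lt (lt_of_lt_of_le c19 c3)
  have c22 : l 15 ≤ r 8 := not_lt.mp fun z => L538 h z c20
  have c23 : v 0 ≤ r 9 := not_lt.mp fun z => L636 h z a0 a1
  have c24 : S2 l v r := h.e2.resolve_right fun z => not_lt.mpr c23 z.2.2
  have c25 : v 0 < l 9 := c24.1
  have c26 : l 9 < r 0 := c24.2.1
  have c27 : v 0 ≤ l 10 := not_lt.mp fun z => L526 h c25 z
  have c28 : l 9 ≤ r 0 := le_of_lt c26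
  have c29 : S4 l v r := Classical.byContradiction fun z => L372 h z c21 c27
  have c30 : v 0 < l 15 := c29.1
  have c31 : r 0 < v 15 := c29.2.2
  have c32 : v 0 ≤ r 8 := le_of_lt (lt_of_lt_of_le c30 c22)
  have c33 : l 9 ≤ v 15 := le_of_lt (lt_of_le_of_lt c28 c31)
  have c34 : S1 l v r := h.e1.resolve_right fun z => not_lt.mpr c32 z.2.2
  have c35 : l 9 ≤ l 4 := le_of_lt (lt_of_le_of_lt c33 c18)
  have c36 : v 5 ≤ r 3 := not_lt.mp fun z => L493 h c24 z c34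
  have c37 : ¬ S14 l v r := fun z => not_lt.mpr c36 z.2.2
  have c38 : v 5 ≤ r 9 := le_of_lt (lt_of_le_of_lt c36 c15)
  have c39 : v 5 < l 3 := (h.e14.resolve_left c37).1
  have c40 : r 5 < v 3 := (h.e14.resolve_left c37).2.2
  have c41 : S24 l v r := h.e24.resolve_right fun z => not_lt.mpr c38 z.2.2
  have c42 : v 5 ≤ l 12 := not_lt.mp fun z => L590 h c39 z
  have c43 : v 5 ≤ r 17 := not_lt.mp fun z => L554 h z c39
  have c44 : r 5 ≤ l 12 := not_lt.mp fun z => L502 h c40 z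
  have c45 : r 5 ≤ v 12 := not_lt.mp fun z => L555 h c40 z
  have c46 : l 9 < r 5 := c41.2.1
  have c47 : S25 l v r := h.e25.resolve_right fun z => not_lt.mpr c43 z.2.2
  have c48 : l 9 < l 12 := lt_of_lt_of_le c46 c44
  have c49 : l 17 < r 5 := c47.2.1
  have c50 : S37 l v r := Classical.byContradiction fun z => L627 h z c48 c35 c24 c42
  have c51 : l 17 ≤ v 12 := le_of_lt (lt_of_lt_of_le c49 c45)
  have c52 : r 11 < v 17 := c50.2.2
  have c53 : ¬ S40 l v r := fun z => not_lt.mpr c51 z.1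
  have c54 : l 12 ≤ v 17 := le_of_lt (lt_of_le_of_lt c14 c52)
  not_lt.mpr c54 (h.e40.resolve_left c53).1

theorem L638 {l v r : ℕ → ℝ} (h : H l v r) (a0 : r 2 < v 1) (a1 : l 16 ≤ l 17) (a2 : l 17 < l 15) (a3 : v 1 < r 16) (a4 : v 1 < v 17) (a5 : v 1 < r 15) : False :=
  have c0 : v 2 ≤ v 1 := not_lt.mp fun z => L507 h a0 z
  have c1 : r 2 < v 17 := lt_trans a0 a4
  have c2 : v 2 ≤ r 15 := le_of_lt (lt_of_le_of_lt c0 a5)
  have c3 : v 2 ≤ r 16 := le_of_lt (lt_of_le_of_lt c0 a3)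
  have c4 : S12 l v r := h.e12.resolve_right fun z => not_lt.mpr c2 z.2.2
  have c5 : S13 l v r := h.e13.resolve_right fun z => not_lt.mpr c3 z.2.2
  have c6 : l 15 < r 2 := c4.2.1
  have c7 : v 2 < l 16 := c5.1
  have c8 : l 17 < r 2 := lt_trans a2 c6
  have c9 : v 2 < l 17 := lt_of_lt_of_le c7 a1
  h.n2_17 c9 c8 c1

theorem L639 {l v r : ℕ → ℝ} (h : H l v r) (a0 : S2 l v r) (a1 : l 0 ≤ r 10) (a2 : S25 l v r) (a3 : S8 l v r) : False :=
  have c0 : v 1 < l 9 := a3.1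
  have c1 : v 1 ≤ r 4 := not_lt.mp fun z => L579 h z c0
  have c2 : S6 l v r := h.e6.resolve_right fun z => not_lt.mpr c1 z.2.2
  have c3 : v 1 < l 4 := c2.1
  have c4 : r 5 < v 17 := a2.2.2
  have c5 : l 4 < v 17 := not_le.mp fun z => L191 h z c4
  have c6 : v 1 < v 17 := lt_trans c3 c5
  have c7 : l 17 < r 5 := a2.2.1
  have c8 : l 17 ≤ r 5 := le_of_lt c7
  have c9 : v 5 < l 17 := a2.1
  have c10 : r 1 < v 9 := a3.2.2
  have c11 : r 1 ≤ v 13 := not_lt.mp fun z => L616 h z c10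
  have c12 : r 1 ≤ l 13 := not_lt.mp fun z => L567 h z c10
  have c13 : r 1 ≤ r 6 := not_lt.mp fun z => L231 h z c11 c12
  have c14 : v 1 ≤ r 6 := not_lt.mp fun z => L528 h z c13
  have c15 : S7 l v r := h.e7.resolve_right fun z => not_lt.mpr c14 z.2.2
  have c16 : l 6 < r 1 := c15.2.1
  have c17 : l 6 ≤ v 13 := le_of_lt (lt_of_lt_of_le c16 c11)
  have c18 : S26 l v r := h.e26.resolve_right fun z => not_lt.mpr c17 z.1
  have c19 : l 13 < r 6 := c18.2.1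
  have c20 : l 10 ≤ r 6 := not_lt.mp fun z => L520 h z c19
  have c21 : r 1 < l 10 := not_le.mp fun z => L500 h c10 z
  have c22 : l 6 < l 10 := lt_trans c16 c21
  have c23 : v 1 ≤ r 12 := not_lt.mp fun z => L568 h z c0
  have c24 : S10 l v r := h.e10.resolve_right fun z => not_lt.mpr c23 z.2.2
  have c25 : l 12 < r 1 := c24.2.1
  have c26 : v 3 ≤ r 1 := not_lt.mp fun z => L514 h z c25
  have c27 : r 1 < v 6 := c15.2.2
  have c28 : v 3 ≤ v 6 := le_of_lt (lt_of_le_of_lt c26 c27)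
  have c29 : v 3 < r 1 := not_le.mp fun z => L534 h z c25
  have c30 : l 12 ≤ r 1 := le_of_lt c25
  have c31 : v 1 < r 15 := not_le.mp fun z => L504 h c3 z
  have c32 : l 4 < v 9 := not_le.mp fun z => L536 h z c10
  have c33 : l 4 ≤ r 3 := not_lt.mp fun z => L606 h z c32
  have c34 : r 1 < r 10 := not_le.mp fun z => L496 h c10 z
  have c35 : l 11 ≤ r 10 := not_lt.mp fun z => L574 h z c34
  have c36 : l 12 < v 9 := not_le.mp fun z => L626 h a3 z
  have c37 : l 12 < l 10 := not_le.mp fun z => L559 h c36 z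
  have c38 : v 1 < l 10 := not_le.mp fun z => L516 h c0 z
  have c39 : v 0 < l 9 := a0.1
  have c40 : l 9 < r 0 := a0.2.1
  have c41 : l 15 < v 9 := not_le.mp fun z => L383 h a0 z
  have c42 : v 0 ≤ l 10 := not_lt.mp fun z => L526 h c39 z
  have c43 : l 9 ≤ r 0 := le_of_lt c40
  have c44 : v 1 < r 0 := lt_trans c0 c40
  have c45 : l 15 ≤ v 10 := not_lt.mp fun z => L582 h c41 z
  have c46 : S4 l v r := Classical.byContradiction fun z => L372 h z a1 c42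
  have c47 : ¬ S34 l v r := fun z => not_lt.mpr c45 z.1
  have c48 : v 0 < l 15 := c46.1
  have c49 : r 0 < v 15 := c46.2.2
  have c50 : l 10 < r 15 := (h.e34.resolve_left c47).2.1
  have c51 : v 15 < l 10 := (h.e34.resolve_left c47).1
  have c52 : v 0 ≤ v 15 := not_lt.mp fun z => L512 h z c48
  have c53 : r 0 ≤ r 15 := not_lt.mp fun z => L557 h z c49
  have c54 : r 0 ≤ v 15 := le_of_lt c49
  have c55 : l 9 ≤ v 15 := le_of_lt (lt_of_le_of_lt c43 c49)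
  have c56 : l 12 < r 15 := lt_trans c37 c50
  have c57 : v 15 ≤ r 4 := not_lt.mp fun z => L532 h c51 z
  have c58 : v 15 ≤ r 6 := le_of_lt (lt_of_lt_of_le c51 c20)
  have c59 : ¬ S22 l v r := fun z => not_lt.mpr c57 z.2.2
  have c60 : ¬ S27 l v r := fun z => not_lt.mpr c58 z.2.2
  have c61 : r 15 < v 4 := (h.e22.resolve_left c59).2.2
  have c62 : v 15 < l 4 := (h.e22.resolve_left c59).1
  have c63 : v 15 < l 6 := (h.e27.resolve_left c60).1
  have c64 : r 15 < v 6 := (h.e27.resolve_left c60).2.2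
  have c65 : r 0 ≤ v 4 := le_of_lt (lt_of_le_of_lt c53 c61)
  have c66 : v 15 < r 8 := not_le.mp fun z => L587 h z c62
  have c67 : v 15 < r 1 := not_le.mp fun z => L550 h z c62
  have c68 : v 15 < v 17 := lt_trans c62 c5
  have c69 : l 9 < l 4 := lt_of_le_of_lt c55 c62
  have c70 : l 9 ≤ l 4 := le_of_lt (lt_of_le_of_lt c55 c62)
  have c71 : v 0 < l 6 := lt_of_le_of_lt c52 c63
  have c72 : v 0 ≤ r 8 := le_of_lt (lt_of_le_of_lt c52 c66)
  have c73 : r 0 ≤ r 1 := le_of_lt (lt_of_le_of_lt c54 c67)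
  have c74 : r 0 < v 17 := lt_trans c49 c68
  have c75 : S1 l v r := h.e1.resolve_right fun z => not_lt.mpr c72 z.2.2
  have c76 : l 8 < r 0 := c75.2.1
  have c77 : v 5 ≤ r 3 := not_lt.mp fun z => L493 h a0 z c75
  have c78 : l 8 ≤ v 4 := le_of_lt (lt_of_lt_of_le c76 c65)
  have c79 : l 8 ≤ r 1 := le_of_lt (lt_of_lt_of_le c76 c73)
  have c80 : ¬ S14 l v r := fun z => not_lt.mpr c77 z.2.2
  have c81 : v 5 ≤ r 4 := not_lt.mp fun z => L613 h z c77
  have c82 : ¬ S20 l v r := fun z => not_lt.mpr c78 z.1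
  have c83 : v 5 < l 3 := (h.e14.resolve_left c80).1
  have c84 : r 5 < v 3 := (h.e14.resolve_left c80).2.2
  have c85 : v 5 < v 0 := not_le.mp fun z => L492 h c80 z a1
  have c86 : ¬ S19 l v r := fun z => not_lt.mpr c81 z.2.2
  have c87 : v 8 < l 4 := (h.e20.resolve_left c82).1
  have c88 : v 5 ≤ l 12 := not_lt.mp fun z => L590 h c83 z
  have c89 : r 5 ≤ l 12 := not_lt.mp fun z => L502 h c84 z
  have c90 : r 5 ≤ v 12 := not_lt.mp fun z => L555 h c84 z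
  have c91 : r 5 ≤ l 10 := not_lt.mp fun z => L604 h c84 z
  have c92 : r 5 < r 1 := lt_trans c84 c29
  have c93 : r 5 ≤ v 6 := le_of_lt (lt_of_lt_of_le c84 c28)
  have c94 : r 5 < v 6 := lt_of_lt_of_le c84 c28
  have c95 : v 5 < l 6 := lt_trans c85 c71
  have c96 : l 4 < r 5 := (h.e19.resolve_left c86).2.1
  have c97 : v 8 ≤ r 3 := le_of_lt (lt_of_lt_of_le c87 c33)
  have c98 : l 4 ≤ l 12 := le_of_lt (lt_of_lt_of_le c96 c89)
  have c99 : l 17 ≤ v 12 := le_of_lt (lt_of_lt_of_le c7 c90)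
  have c100 : l 17 ≤ l 10 := le_of_lt (lt_of_lt_of_le c7 c91)
  have c101 : l 17 ≤ r 1 := le_of_lt (lt_of_le_of_lt c8 c92)
  have c102 : l 17 ≤ v 6 := le_of_lt (lt_of_lt_of_le c7 c93)
  have c103 : r 5 ≤ l 6 := not_lt.mp fun z => h.n5_6 c95 z c94
  have c104 : v 8 < r 5 := lt_trans c87 c96
  have c105 : v 1 < r 5 := lt_trans c3 c96
  have c106 : ¬ S15 l v r := fun z => not_lt.mpr c97 z.2.2
  have c107 : l 9 < l 12 := lt_of_lt_of_le c69 c98
  have c108 : v 15 < l 12 := lt_of_lt_of_le c62 c98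
  have c109 : ¬ S40 l v r := fun z => not_lt.mpr c99 z.1
  have c110 : ¬ S28 l v r := fun z => not_lt.mpr c102 z.1
  have c111 : v 8 < l 6 := lt_of_lt_of_le c104 c103
  have c112 : r 8 < v 3 := (h.e15.resolve_left c106).2.2
  have c113 : S37 l v r := Classical.byContradiction fun z => L627 h z c107 c70 a0 c88
  have c114 : v 12 ≤ r 15 := not_lt.mp fun z => h.n15_12 c108 c56 z
  have c115 : v 17 < l 12 := (h.e40.resolve_left c109).1
  have c116 : v 17 < l 6 := (h.e28.resolve_left c110).1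
  have c117 : r 8 < v 6 := lt_of_lt_of_le c112 c28
  have c118 : v 11 < l 17 := c113.1
  have c119 : r 11 < v 17 := c113.2.2
  have c120 : l 17 < r 11 := c113.2.1
  have c121 : v 12 < v 6 := lt_of_le_of_lt c114 c64
  have c122 : v 17 ≤ v 10 := not_lt.mp fun z => L569 h z c115
  have c123 : v 17 ≤ r 1 := le_of_lt (lt_of_lt_of_le c115 c30)
  have c124 : r 5 < l 6 := lt_trans c4 c116
  have c125 : r 8 ≤ l 6 := not_lt.mp fun z => h.n8_6 c111 z c117
  have c126 : v 11 ≤ l 10 := le_of_lt (lt_of_lt_of_le c118 c100)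
  have c127 : v 11 ≤ r 1 := le_of_lt (lt_of_lt_of_le c118 c101)
  have c128 : l 17 ≤ r 11 := le_of_lt c120
  have c129 : r 11 ≤ v 10 := le_of_lt (lt_of_lt_of_le c119 c122)
  have c130 : r 11 ≤ r 1 := le_of_lt (lt_of_lt_of_le c119 c123)
  have c131 : ¬ S9 l v r := fun z => not_lt.mpr c127 z.2.2
  have c132 : ¬ S35 l v r := fun z => L393 h z c129 c35
  have c133 : r 11 < v 1 := (h.e9.resolve_left c131).2.2
  have c134 : v 16 < l 10 := (h.e35.resolve_left c132).1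
  have c135 : l 10 < r 16 := (h.e35.resolve_left c132).2.1
  have c136 : l 17 ≤ v 1 := le_of_lt (lt_of_le_of_lt c128 c133)
  have c137 : r 11 < r 5 := lt_trans c133 c105
  have c138 : v 16 ≤ r 12 := not_lt.mp fun z => L564 h z c134
  have c139 : v 11 ≤ r 16 := le_of_lt (lt_of_le_of_lt c126 c135)
  have c140 : v 1 < r 16 := lt_trans c38 c135
  have c141 : l 6 < r 16 := lt_trans c22 c135
  have c142 : l 17 < r 0 := lt_of_le_of_lt c136 c44
  have c143 : ¬ S39 l v r := fun z => not_lt.mpr c138 z.2.2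
  have c144 : S36 l v r := h.e36.resolve_right fun z => not_lt.mpr c139 z.2.2
  have c145 : l 17 ≤ v 0 := not_lt.mp fun z => h.n0_17 z c142 c74
  have c146 : r 16 < v 12 := (h.e39.resolve_left c143).2.2
  have c147 : l 16 < r 11 := c144.2.1
  have c148 : l 17 < l 15 := lt_of_le_of_lt c145 c48
  have c149 : r 16 < v 6 := lt_trans c146 c121
  have c150 : l 16 ≤ r 1 := le_of_lt (lt_of_lt_of_le c147 c130)
  have c151 : l 16 < r 5 := lt_trans c147 c137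
  have c152 : l 6 ≤ v 16 := not_lt.mp fun z => h.n16_6 z c141 c149
  have c153 : r 5 < v 16 := lt_of_lt_of_le c124 c152
  have c154 : r 8 ≤ v 16 := le_trans c125 c152
  have c155 : l 16 ≤ v 5 := not_lt.mp fun z => h.n5_16 z c151 c153
  have c156 : l 16 ≤ l 17 := le_of_lt (lt_of_le_of_lt c155 c9)
  have c157 : v 1 ≤ r 2 := not_lt.mp fun z => L638 h z c156 c148 c140 c6 c31
  have c158 : S5 l v r := h.e5.resolve_right fun z => not_lt.mpr c157 z.2.2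
  have c159 : r 1 < v 2 := c158.2.2
  have c160 : l 8 ≤ v 2 := le_of_lt (lt_of_le_of_lt c79 c159)
  have c161 : l 16 ≤ v 2 := le_of_lt (lt_of_le_of_lt c150 c159)
  have c162 : ¬ S11 l v r := fun z => not_lt.mpr c160 z.1
  have c163 : ¬ S13 l v r := fun z => not_lt.mpr c161 z.1
  have c164 : l 2 < r 8 := (h.e11.resolve_left c162).2.1
  have c165 : v 16 < l 2 := (h.e13.resolve_left c163).1
  not_lt.mpr c154 (lt_trans c165 c164)

theorem L640 {l v r : ℕ → ℝ} (h : H l v r) (a0 : l 17 ≤ v 0) (a1 : l 4 ≤ r 7) (a2 : v 0 ≤ r 4) (a3 : v 0 ≤ l 13) (a4 : v 0 ≤ v 12) (a5 : l 10 ≤ v 0) (a6 : S25 l v r) : False :=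
  have c0 : r 5 < v 17 := a6.2.2
  have c1 : l 5 ≤ v 17 := not_lt.mp fun z => L586 h c0 z
  have c2 : v 5 < l 17 := a6.1
  have c3 : l 17 ≤ v 12 := le_trans a0 a4
  have c4 : v 5 < v 0 := lt_of_lt_of_le c2 a0
  have c5 : ¬ S40 l v r := fun z => not_lt.mpr c3 z.1
  have c6 : v 5 ≤ r 4 := le_of_lt (lt_of_lt_of_le c4 a2)
  have c7 : r 5 < l 10 := not_le.mp fun z => L287 h c5 c1 z
  have c8 : ¬ S19 l v r := fun z => not_lt.mpr c6 z.2.2
  have c9 : r 5 ≤ v 13 := not_lt.mp fun z => L513 h z c7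
  have c10 : r 5 ≤ v 0 := le_of_lt (lt_of_lt_of_le c7 a5)
  have c11 : v 5 < l 4 := (h.e19.resolve_left c8).1
  have c12 : S29 l v r := Classical.byContradiction fun z => L622 h z c9
  have c13 : v 5 ≤ r 7 := le_of_lt (lt_of_lt_of_le c11 a1)
  have c14 : l 13 < r 7 := c12.2.1
  have c15 : S23 l v r := h.e23.resolve_right fun z => not_lt.mpr c13 z.2.2
  have c16 : v 0 ≤ r 7 := le_of_lt (lt_of_le_of_lt a3 c14)
  have c17 : l 7 < r 5 := c15.2.1
  have c18 : S0 l v r := h.e0.resolve_right fun z => not_lt.mpr c16 z.2.2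
  have c19 : l 7 ≤ v 0 := le_of_lt (lt_of_lt_of_le c17 c10)
  not_lt.mpr c19 c18.1

theorem L641 {l v r : ℕ → ℝ} (h : H l v r) (a0 : v 0 < l 17) (a1 : ¬ S3 l v r) : False :=
  have c0 : r 11 < v 0 := (h.e3.resolve_left a1).2.2
  have c1 : r 11 ≤ v 0 := le_of_lt c0
  have c2 : v 11 < l 0 := (h.e3.resolve_left a1).1
  have c3 : v 11 ≤ v 0 := not_lt.mp fun z => L120 h z c2
  have c4 : v 0 < r 17 := not_le.mp fun z => L548 h a0 z
  have c5 : r 11 ≤ l 17 := le_of_lt (lt_of_le_of_lt c1 a0)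
  have c6 : v 11 ≤ r 17 := le_of_lt (lt_of_le_of_lt c3 c4)
  have c7 : ¬ S37 l v r := fun z => not_lt.mpr c5 z.2.1
  not_lt.mpr c6 (h.e37.resolve_left c7).2.2

theorem L642 {l v r : ℕ → ℝ} (h : H l v r) (a0 : r 7 < l 4) (a1 : l 4 ≤ r 9) : False :=
  have c0 : l 4 ≤ v 13 := not_lt.mp fun z => L614 h z a1
  have c1 : l 4 ≤ l 13 := not_lt.mp fun z => L578 h z a1
  have c2 : l 7 < l 4 := not_le.mp fun z => L523 h a0 z
  have c3 : r 7 ≤ l 13 := le_of_lt (lt_of_lt_of_le a0 c1)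
  have c4 : l 7 ≤ v 13 := le_of_lt (lt_of_lt_of_le c2 c0)
  have c5 : ¬ S29 l v r := fun z => not_lt.mpr c3 z.2.1
  not_lt.mpr c4 (h.e29.resolve_left c5).1

theorem L643 {l v r : ℕ → ℝ} (h : H l v r) (a0 : v 0 ≤ v 12) (a1 : l 17 ≤ v 0) (a2 : S25 l v r) (a3 : l 4 ≤ r 9) : False :=
  have c0 : l 4 ≤ r 7 := not_lt.mp fun z => L642 h z a3
  have c1 : S8 l v r := Classical.byContradiction fun z => L637 h z a3
  have c2 : l 0 ≤ v 12 := not_lt.mp fun z => L501 h z a0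
  have c3 : v 0 ≤ l 13 := not_lt.mp fun z => L563 h z a0
  have c4 : v 0 ≤ r 4 := not_lt.mp fun z => L521 h a0 z
  have c5 : l 0 ≤ r 10 := not_lt.mp fun z => L546 h c2 z
  have c6 : v 0 < l 10 := not_le.mp fun z => L640 h a1 c0 c4 c3 a0 z a2
  have c7 : ¬ S2 l v r := fun z => L639 h z c5 a2 c1
  have c8 : v 0 ≤ r 9 := not_lt.mp fun z => L565 h z c6
  not_lt.mpr c8 (h.e2.resolve_left c7).2.2

theorem L644 {l v r : ℕ → ℝ} (h : H l v r) (a0 : v 12 < v 0) (a1 : S8 l v r) : False :=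
  have c0 : r 1 < v 9 := a1.2.2
  have c1 : l 4 < v 9 := not_le.mp fun z => L536 h z c0
  have c2 : l 4 ≤ r 3 := not_lt.mp fun z => L606 h z c1
  have c3 : l 12 < v 9 := not_le.mp fun z => L626 h a1 z
  have c4 : v 3 ≤ v 9 := not_lt.mp fun z => L584 h z c3
  have c5 : l 9 ≤ v 0 := not_lt.mp fun z => L553 h a0 z
  have c6 : l 8 ≤ v 0 := not_lt.mp fun z => L612 h z a0
  have c7 : ¬ S2 l v r := fun z => not_lt.mpr c5 z.1
  have c8 : ¬ S1 l v r := fun z => not_lt.mpr c6 z.1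
  have c9 : l 0 < r 9 := (h.e2.resolve_left c7).2.1
  have c10 : v 9 < l 0 := (h.e2.resolve_left c7).1
  have c11 : l 0 ≤ r 4 := not_lt.mp fun z => L580 h z c9
  have c12 : v 3 ≤ l 0 := le_of_lt (lt_of_le_of_lt c4 c10)
  L410 h c8 c12 c11 c2

theorem L645 {l v r : ℕ → ℝ} (h : H l v r) (a0 : S25 l v r) (a1 : l 4 ≤ r 9) : False :=
  have c0 : S8 l v r := Classical.byContradiction fun z => L637 h z a1
  have c1 : v 0 ≤ v 12 := not_lt.mp fun z => L644 h z c0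
  have c2 : l 0 ≤ v 12 := not_lt.mp fun z => L501 h z c1
  have c3 : l 0 ≤ r 10 := not_lt.mp fun z => L546 h c2 z
  have c4 : r 1 < v 9 := c0.2.2
  have c5 : r 1 < r 9 := not_le.mp fun z => L503 h c4 z
  have c6 : l 11 ≤ r 9 := not_lt.mp fun z => L511 h z c5
  have c7 : v 0 < l 17 := not_le.mp fun z => L643 h c1 z a0 a1
  have c8 : S3 l v r := Classical.byContradiction fun z => L641 h c7 z
  have c9 : ¬ S2 l v r := fun z => L639 h z c3 a0 c0
  have c10 : v 0 < l 11 := c8.1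
  have c11 : r 9 < v 0 := (h.e2.resolve_left c9).2.2
  not_lt.mpr c6 (lt_trans c11 c10)

theorem L646 {l v r : ℕ → ℝ} (h : H l v r) (a0 : S2 l v r) (a1 : l 4 ≤ r 9) : False :=
  have c0 : ¬ S25 l v r := fun z => L645 h z a1
  have c1 : r 17 < v 5 := (h.e25.resolve_left c0).2.2
  have c2 : l 3 ≤ v 5 := not_lt.mp fun z => L554 h c1 z
  have c3 : S14 l v r := h.e14.resolve_right fun z => not_lt.mpr c2 z.1
  have c4 : r 3 < v 5 := c3.2.2
  have c5 : S8 l v r := Classical.byContradiction fun z => L637 h z a1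
  have c6 : v 0 ≤ v 12 := not_lt.mp fun z => L644 h z c5
  have c7 : l 0 ≤ v 12 := not_lt.mp fun z => L501 h z c6
  have c8 : l 0 ≤ r 10 := not_lt.mp fun z => L546 h c7 z
  have c9 : v 0 < l 9 := a0.1
  have c10 : l 15 < v 9 := not_le.mp fun z => L383 h a0 z
  have c11 : ¬ S1 l v r := fun z => L493 h a0 c4 z
  have c12 : v 0 ≤ l 10 := not_lt.mp fun z => L526 h c9 z
  have c13 : l 15 ≤ v 10 := not_lt.mp fun z => L582 h c10 z
  have c14 : r 8 < v 0 := (h.e1.resolve_left c11).2.2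
  have c15 : S4 l v r := Classical.byContradiction fun z => L372 h z c8 c12
  have c16 : ¬ S34 l v r := fun z => not_lt.mpr c13 z.1
  have c17 : l 4 < v 0 := not_le.mp fun z => L533 h c14 z
  have c18 : r 0 < v 15 := c15.2.2
  have c19 : v 15 < l 10 := (h.e34.resolve_left c16).1
  have c20 : l 4 ≤ r 0 := not_lt.mp fun z => L497 h z c17
  have c21 : v 15 ≤ r 4 := not_lt.mp fun z => L532 h c19 z
  have c22 : l 4 ≤ v 15 := le_of_lt (lt_of_le_of_lt c20 c18)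
  have c23 : ¬ S22 l v r := fun z => not_lt.mpr c21 z.2.2
  not_lt.mpr c22 (h.e22.resolve_left c23).1

theorem L647 {l v r : ℕ → ℝ} (h : H l v r) (a0 : l 4 ≤ r 9) : False :=
  have c0 : S8 l v r := Classical.byContradiction fun z => L637 h z a0
  have c1 : r 1 < v 9 := c0.2.2
  have c2 : l 12 < v 9 := not_le.mp fun z => L626 h c0 z
  have c3 : r 1 < r 10 := not_le.mp fun z => L496 h c1 z
  have c4 : r 1 < r 9 := not_le.mp fun z => L503 h c1 z
  have c5 : l 4 < v 9 := not_le.mp fun z => L536 h z c1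
  have c6 : l 12 < l 10 := not_le.mp fun z => L559 h c2 z
  have c7 : l 12 ≤ v 9 := le_of_lt c2
  have c8 : v 3 ≤ v 9 := not_lt.mp fun z => L584 h z c2
  have c9 : l 11 ≤ r 10 := not_lt.mp fun z => L574 h z c3
  have c10 : l 11 ≤ r 9 := not_lt.mp fun z => L511 h z c4
  have c11 : l 4 ≤ r 3 := not_lt.mp fun z => L606 h z c5
  have c12 : v 0 ≤ v 12 := not_lt.mp fun z => L644 h z c0
  have c13 : l 0 ≤ v 12 := not_lt.mp fun z => L501 h z c12
  have c14 : l 0 ≤ r 4 := not_lt.mp fun z => L597 h c13 z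
  have c15 : ¬ S25 l v r := fun z => L645 h z a0
  have c16 : r 17 < v 5 := (h.e25.resolve_left c15).2.2
  have c17 : v 17 < l 5 := (h.e25.resolve_left c15).1
  have c18 : l 3 ≤ v 5 := not_lt.mp fun z => L554 h c16 z
  have c19 : v 17 ≤ r 12 := not_lt.mp fun z => L617 h c17 z
  have c20 : S14 l v r := h.e14.resolve_right fun z => not_lt.mpr c18 z.1
  have c21 : ¬ S40 l v r := fun z => not_lt.mpr c19 z.2.2
  have c22 : r 3 < v 5 := c20.2.2
  have c23 : v 17 < l 12 := (h.e40.resolve_left c21).1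
  have c24 : l 9 ≤ v 5 := not_lt.mp fun z => L524 h c22 z
  have c25 : l 4 ≤ v 5 := le_of_lt (lt_of_le_of_lt c11 c22)
  have c26 : v 17 < l 10 := lt_trans c23 c6
  have c27 : v 17 ≤ v 9 := le_of_lt (lt_of_lt_of_le c23 c7)
  have c28 : ¬ S24 l v r := fun z => not_lt.mpr c24 z.1
  have c29 : S19 l v r := h.e19.resolve_right fun z => not_lt.mpr c25 z.1
  have c30 : v 9 < l 5 := (h.e24.resolve_left c28).1
  have c31 : r 4 < v 5 := c29.2.2
  have c32 : l 12 < l 5 := lt_trans c2 c30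
  have c33 : v 10 < v 5 := not_le.mp fun z => L494 h c31 z
  have c34 : ¬ S2 l v r := fun z => L646 h z a0
  have c35 : r 9 < v 0 := (h.e2.resolve_left c34).2.2
  have c36 : l 0 < r 9 := (h.e2.resolve_left c34).2.1
  have c37 : v 9 < l 0 := (h.e2.resolve_left c34).1
  have c38 : l 11 ≤ v 0 := le_of_lt (lt_of_le_of_lt c10 c35)
  have c39 : l 0 ≤ v 10 := not_lt.mp fun z => L602 h c36 z
  have c40 : v 9 < r 11 := not_le.mp fun z => L515 h z c37
  have c41 : v 3 ≤ l 0 := le_of_lt (lt_of_le_of_lt c8 c37)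
  have c42 : ¬ S3 l v r := fun z => not_lt.mpr c38 z.1
  have c43 : v 17 ≤ r 11 := le_of_lt (lt_of_le_of_lt c27 c40)
  have c44 : S1 l v r := Classical.byContradiction fun z => L410 h z c41 c14 c11
  have c45 : v 11 < l 0 := (h.e3.resolve_left c42).1
  have c46 : r 11 < v 0 := (h.e3.resolve_left c42).2.2
  have c47 : ¬ S37 l v r := fun z => not_lt.mpr c43 z.2.2
  have c48 : v 0 < l 8 := c44.1
  have c49 : v 11 ≤ v 10 := le_of_lt (lt_of_lt_of_le c45 c39)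
  have c50 : r 11 ≤ v 0 := le_of_lt c46
  have c51 : r 17 < v 11 := (h.e37.resolve_left c47).2.2
  have c52 : v 0 < v 10 := not_le.mp fun z => L566 h z c48
  have c53 : r 11 ≤ v 10 := le_of_lt (lt_of_le_of_lt c50 c52)
  have c54 : r 17 < v 10 := lt_of_lt_of_le c51 c49
  have c55 : ¬ S35 l v r := fun z => L393 h z c53 c9
  have c56 : r 17 ≤ l 10 := not_lt.mp fun z => h.n17_10 c26 z c54
  have c57 : l 10 ≤ l 5 := not_lt.mp fun z => L625 h c55 c32 z c33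
  L545 h c56 c57

theorem L648 {l v r : ℕ → ℝ} (h : H l v r) (a0 : l 4 < v 9) : False :=
  have c0 : r 9 < l 4 := not_le.mp fun z => L647 h z
  L499 h c0 a0

theorem L649 {l v r : ℕ → ℝ} (h : H l v r) (a0 : l 4 < l 9) : False :=
  have c0 : r 9 < l 4 := not_le.mp fun z => L647 h z
  L505 h c0 a0

theorem L650 {l v r : ℕ → ℝ} (h : H l v r) (a0 : r 8 ≤ r 9) : False :=
  have c0 : r 9 < l 4 := not_le.mp fun z => L647 h z
  L556 h c0 a0

theorem L651 {l v r : ℕ → ℝ} (h : H l v r) (a0 : v 4 < r 9) : False :=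
  have c0 : r 9 < l 4 := not_le.mp fun z => L647 h z
  L121 h a0 c0

theorem L652 {l v r : ℕ → ℝ} (h : H l v r) (a0 : S24 l v r) : False :=
  have c0 : v 9 ≤ l 4 := not_lt.mp fun z => L648 h z
  L621 h c0 a0

theorem L653 {l v r : ℕ → ℝ} (h : H l v r) (a0 : r 1 < v 9) : False :=
  have c0 : v 9 ≤ l 4 := not_lt.mp fun z => L648 h z
  L536 h c0 a0

theorem L654 {l v r : ℕ → ℝ} (h : H l v r) (a0 : r 8 < l 9) : False :=
  have c0 : l 9 ≤ l 4 := not_lt.mp fun z => L649 h z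
  L531 h c0 a0

theorem L655 {l v r : ℕ → ℝ} (h : H l v r) (a0 : r 8 < v 3) : False :=
  have c0 : r 9 < r 8 := not_le.mp fun z => L650 h z
  L525 h c0 a0

theorem L656 {l v r : ℕ → ℝ} (h : H l v r) (a0 : r 9 ≤ l 5) : False :=
  have c0 : ¬ S24 l v r := fun z => L652 h z
  not_lt.mpr a0 (h.e24.resolve_left c0).2.1

theorem L657 {l v r : ℕ → ℝ} (h : H l v r) (a0 : v 5 ≤ r 9) : False :=
  have c0 : ¬ S24 l v r := fun z => L652 h z
  not_lt.mpr a0 (h.e24.resolve_left c0).2.2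

theorem L658 {l v r : ℕ → ℝ} (h : H l v r) (a0 : S8 l v r) : False :=
  have c0 : v 9 ≤ r 1 := not_lt.mp fun z => L653 h z
  not_lt.mpr c0 a0.2.2

theorem L659 {l v r : ℕ → ℝ} (h : H l v r) (a0 : ¬ S15 l v r) : False :=
  have c0 : v 3 ≤ r 8 := not_lt.mp fun z => L655 h z
  not_lt.mpr c0 (h.e15.resolve_left a0).2.2

theorem L660 {l v r : ℕ → ℝ} (h : H l v r) (a0 : v 4 < l 5) : False :=
  have c0 : l 5 < r 9 := not_le.mp fun z => L656 h z
  have c1 : r 9 ≤ v 4 := not_lt.mp fun z => L651 h z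
  not_lt.mpr c1 (lt_trans a0 c0)

theorem L661 {l v r : ℕ → ℝ} (h : H l v r) (a0 : v 5 < l 3) : False :=
  have c0 : r 9 < v 5 := not_le.mp fun z => L657 h z
  L607 h a0 c0

theorem L662 {l v r : ℕ → ℝ} (h : H l v r) (a0 : r 9 ≤ l 1) : False :=
  have c0 : ¬ S8 l v r := fun z => L658 h z
  not_lt.mpr a0 (h.e8.resolve_left c0).2.1

theorem L663 {l v r : ℕ → ℝ} (h : H l v r) (a0 : v 1 ≤ r 9) : False :=
  have c0 : ¬ S8 l v r := fun z => L658 h z
  not_lt.mpr a0 (h.e8.resolve_left c0).2.2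

theorem L664 {l v r : ℕ → ℝ} (h : H l v r) (a0 : v 8 ≤ r 3) : False :=
  have c0 : S15 l v r := Classical.byContradiction fun z => L659 h z
  not_lt.mpr a0 c0.2.2

theorem L665 {l v r : ℕ → ℝ} (h : H l v r) (a0 : S19 l v r) : False :=
  have c0 : l 5 ≤ v 4 := not_lt.mp fun z => L660 h z
  not_lt.mpr c0 a0.1

theorem L666 {l v r : ℕ → ℝ} (h : H l v r) (a0 : ¬ S14 l v r) : False :=
  have c0 : l 3 ≤ v 5 := not_lt.mp fun z => L661 h z
  not_lt.mpr c0 (h.e14.resolve_left a0).1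

theorem L667 {l v r : ℕ → ℝ} (h : H l v r) (a0 : r 9 < l 1) : False :=
  have c0 : l 1 < r 9 := not_le.mp fun z => L662 h z
  lt_asymm c0 a0

theorem L668 {l v r : ℕ → ℝ} (h : H l v r) (a0 : v 4 < l 1) : False :=
  have c0 : l 1 < r 9 := not_le.mp fun z => L662 h z
  have c1 : r 9 ≤ v 4 := not_lt.mp fun z => L651 h z
  not_lt.mpr c1 (lt_trans a0 c0)

theorem L669 {l v r : ℕ → ℝ} (h : H l v r) (a0 : v 1 < r 9) : False :=
  have c0 : r 9 < v 1 := not_le.mp fun z => L663 h z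
  lt_asymm a0 c0

theorem L670 {l v r : ℕ → ℝ} (h : H l v r) (a0 : v 8 ≤ l 12) : False :=
  have c0 : r 3 < v 8 := not_le.mp fun z => L664 h z
  L583 h a0 c0

theorem L671 {l v r : ℕ → ℝ} (h : H l v r) (a0 : v 4 ≤ r 5) : False :=
  have c0 : ¬ S19 l v r := fun z => L665 h z
  not_lt.mpr a0 (h.e19.resolve_left c0).2.2

theorem L672 {l v r : ℕ → ℝ} (h : H l v r) (a0 : l 4 ≤ v 5) : False :=
  have c0 : ¬ S19 l v r := fun z => L665 h z
  not_lt.mpr a0 (h.e19.resolve_left c0).1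

theorem L673 {l v r : ℕ → ℝ} (h : H l v r) (a0 : v 5 ≤ r 3) : False :=
  have c0 : S14 l v r := Classical.byContradiction fun z => L666 h z
  not_lt.mpr a0 c0.2.2

theorem L674 {l v r : ℕ → ℝ} (h : H l v r) (a0 : ¬ S6 l v r) : False :=
  have c0 : l 1 ≤ v 4 := not_lt.mp fun z => L668 h z
  not_lt.mpr c0 (h.e6.resolve_left a0).1

theorem L675 {l v r : ℕ → ℝ} (h : H l v r) (a0 : v 4 ≤ v 5) : False :=
  have c0 : r 5 < v 4 := not_le.mp fun z => L671 h z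
  L535 h c0 a0

theorem L676 {l v r : ℕ → ℝ} (h : H l v r) (a0 : r 15 ≤ v 5) : False :=
  have c0 : v 5 < l 4 := not_le.mp fun z => L672 h z
  L540 h a0 c0

theorem L677 {l v r : ℕ → ℝ} (h : H l v r) (a0 : v 5 < l 8) : False :=
  have c0 : r 3 < v 5 := not_le.mp fun z => L673 h z
  L598 h a0 c0

theorem L678 {l v r : ℕ → ℝ} (h : H l v r) (a0 : l 4 ≤ v 1) : False :=
  have c0 : S6 l v r := Classical.byContradiction fun z => L674 h z
  not_lt.mpr a0 c0.1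

theorem L679 {l v r : ℕ → ℝ} (h : H l v r) (a0 : v 4 < l 8) : False :=
  have c0 : v 5 < v 4 := not_le.mp fun z => L675 h z
  have c1 : l 8 ≤ v 5 := not_lt.mp fun z => L677 h z
  not_lt.mpr c1 (lt_trans c0 a0)

theorem L680 {l v r : ℕ → ℝ} (h : H l v r) (a0 : r 15 < l 8) : False :=
  have c0 : v 5 < r 15 := not_le.mp fun z => L676 h z
  have c1 : l 8 ≤ v 5 := not_lt.mp fun z => L677 h z
  not_lt.mpr c1 (lt_trans c0 a0)

theorem L681 {l v r : ℕ → ℝ} (h : H l v r) (a0 : r 15 ≤ v 1) : False :=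
  have c0 : v 1 < l 4 := not_le.mp fun z => L678 h z
  L504 h c0 a0

theorem L682 {l v r : ℕ → ℝ} (h : H l v r) (a0 : v 4 ≤ v 1) : False :=
  have c0 : v 1 < l 4 := not_le.mp fun z => L678 h z
  L57 h c0 a0

theorem L683 {l v r : ℕ → ℝ} (h : H l v r) (a0 : S20 l v r) : False :=
  have c0 : l 8 ≤ v 4 := not_lt.mp fun z => L679 h z
  not_lt.mpr c0 a0.1

theorem L684 {l v r : ℕ → ℝ} (h : H l v r) (a0 : v 4 ≤ r 8) : False :=
  have c0 : ¬ S20 l v r := fun z => L683 h z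
  not_lt.mpr a0 (h.e20.resolve_left c0).2.2

theorem L685 {l v r : ℕ → ℝ} (h : H l v r) (a0 : v 4 < v 8) : False :=
  have c0 : r 8 < v 4 := not_le.mp fun z => L684 h z
  L102 h c0 a0

theorem L686 {l v r : ℕ → ℝ} (h : H l v r) (a0 : S1 l v r) (a1 : ¬ S2 l v r) : False :=
  have c0 : l 1 ≤ r 9 := not_lt.mp fun z => L667 h z
  have c1 : v 8 ≤ v 4 := not_lt.mp fun z => L685 h z
  have c2 : l 8 ≤ r 15 := not_lt.mp fun z => L680 h z
  have c3 : l 0 < r 9 := (h.e2.resolve_left a1).2.1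
  have c4 : l 0 ≤ r 4 := not_lt.mp fun z => L580 h z c3
  have c5 : r 9 < v 0 := (h.e2.resolve_left a1).2.2
  have c6 : l 1 ≤ v 0 := le_of_lt (lt_of_le_of_lt c0 c5)
  have c7 : v 9 ≤ v 0 := not_lt.mp fun z => L542 h c5 z
  have c8 : v 0 < l 8 := a0.1
  have c9 : r 0 < v 8 := a0.2.2
  have c10 : v 0 < v 12 := not_le.mp fun z => L595 h c8 z
  have c11 : v 9 ≤ l 8 := le_of_lt (lt_of_le_of_lt c7 c8)
  have c12 : r 0 ≤ v 4 := le_of_lt (lt_of_lt_of_le c9 c1)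
  have c13 : l 1 ≤ v 12 := le_of_lt (lt_of_le_of_lt c6 c10)
  have c14 : r 9 < l 15 := not_le.mp fun z => L213 h a0 c11 c2 z
  have c15 : ¬ S22 l v r := fun z => L369 h z c4 c12
  have c16 : S10 l v r := h.e10.resolve_right fun z => not_lt.mpr c13 z.1
  have c17 : l 10 < l 15 := not_le.mp fun z => L508 h c14 z
  have c18 : v 15 < l 4 := (h.e22.resolve_left c15).1
  have c19 : r 1 < v 12 := c16.2.2
  have c20 : l 10 ≤ v 15 := not_lt.mp fun z => L541 h z c17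
  have c21 : v 15 < r 1 := not_le.mp fun z => L550 h z c18
  have c22 : r 1 ≤ r 10 := not_lt.mp fun z => L592 h z c19
  have c23 : S34 l v r := h.e34.resolve_right fun z => not_lt.mpr c20 z.1
  have c24 : v 15 ≤ r 10 := le_of_lt (lt_of_lt_of_le c21 c22)
  not_lt.mpr c24 c23.2.2

theorem L687 {l v r : ℕ → ℝ} (h : H l v r) (a0 : ¬ S2 l v r) : False :=
  have c0 : r 9 ≤ v 1 := not_lt.mp fun z => L669 h z
  have c1 : l 12 < v 8 := not_le.mp fun z => L670 h z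
  have c2 : v 1 < v 4 := not_le.mp fun z => L682 h z
  have c3 : v 1 < r 15 := not_le.mp fun z => L681 h z
  have c4 : l 0 < r 9 := (h.e2.resolve_left a0).2.1
  have c5 : l 0 ≤ r 10 := not_lt.mp fun z => L561 h c4 z
  have c6 : l 0 ≤ v 1 := le_of_lt (lt_of_lt_of_le c4 c0)
  have c7 : ¬ S1 l v r := fun z => L686 h z a0
  have c8 : r 8 < v 0 := (h.e1.resolve_left c7).2.2
  have c9 : v 8 < l 0 := (h.e1.resolve_left c7).1
  have c10 : l 4 < v 0 := not_le.mp fun z => L533 h c8 z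
  have c11 : l 12 < l 0 := lt_trans c1 c9
  have c12 : l 4 ≤ r 0 := not_lt.mp fun z => L497 h z c10
  have c13 : l 12 ≤ v 1 := le_of_lt (lt_of_lt_of_le c11 c6)
  have c14 : v 1 < r 12 := not_le.mp fun z => L624 h z c2 c3 c5 c12
  have c15 : ¬ S10 l v r := fun z => not_lt.mpr c13 z.1
  have c16 : v 1 ≤ r 12 := le_of_lt c14
  not_lt.mpr c16 (h.e10.resolve_left c15).2.2

theorem L688 {l v r : ℕ → ℝ} (h : H l v r) (a0 : l 9 ≤ v 0) : False :=
  have c0 : S2 l v r := Classical.byContradiction fun z => L687 h z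
  not_lt.mpr a0 c0.1

theorem L689 {l v r : ℕ → ℝ} (h : H l v r) (a0 : S1 l v r) : False :=
  have c0 : S2 l v r := Classical.byContradiction fun z => L687 h z
  have c1 : r 3 < v 5 := not_le.mp fun z => L673 h z
  L493 h c0 c1 a0

theorem L690 {l v r : ℕ → ℝ} (h : H l v r) (a0 : r 8 < v 0) : False :=
  have c0 : v 0 < l 9 := not_le.mp fun z => L688 h z
  have c1 : l 9 ≤ r 8 := not_lt.mp fun z => L654 h z
  not_lt.mpr c1 (lt_trans a0 c0)

theorem L691 {l v r : ℕ → ℝ} (h : H l v r)  : False :=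
  have c0 : ¬ S1 l v r := fun z => L689 h z
  have c1 : v 0 ≤ r 8 := not_lt.mp fun z => L690 h z
  not_lt.mpr c1 (h.e1.resolve_left c0).2.2

end Pool.Agent.R38.VetoProof
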